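import Pool.Agent.MP_9ab903_nt.CF.L2
import Pool.Agent.MP_9ab903_nt.CF3.PL

set_option autoImplicit false

open NumberField IsDedekindDomain UniqueFactorizationMonoid
open CM27 CMT CF
open scoped Classical

namespace NAB

/-! ## [NAB-EDefs] the Hecke characters of `F` (file NAB/EDefs.lean) -/

section
variable {F : Type} [Field F] [NumberField F]

/-- The quadratic symbol `(d / v)`: `0` if the valuation of `d` is odd, `1` if `d` is a local square,
`-1` otherwise (for `d ≡ 1 mod 4` at the places above `2`). -/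
noncomputable def symb (d : F) (v : HeightOneSpectrum (𝓞 F)) : ℤ :=
  if IsSquare (v.valuation F d) then
    if ∃ x : F, v.valuation F (x ^ 2 - d) < v.valuation F (4 * d) then 1 else -1
  else 0

variable {M : Type*} [CommMonoidWithZero M]

/-- The completely multiplicative function on the ideals with given values at the primes. -/
noncomputable def cm (h : HeightOneSpectrum (𝓞 F) → M) (I : Ideal (𝓞 F)) : M :=
  if I = 0 then 0 else
    ((normalizedFactors I).map (fun P => if hP : P.IsPrime ∧ P ≠ ⊥ then h ⟨P, hP.1, hP.2⟩ else 1)).prod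

theorem cm_zero (h : HeightOneSpectrum (𝓞 F) → M) : cm h 0 = 0 := if_pos rfl

theorem cm_one (h : HeightOneSpectrum (𝓞 F) → M) : cm h 1 = 1 := by
  rw [cm, if_neg one_ne_zero, normalizedFactors_one, Multiset.map_zero, Multiset.prod_zero]

theorem cm_mul (h : HeightOneSpectrum (𝓞 F) → M) (I J : Ideal (𝓞 F)) :
    cm h (I * J) = cm h I * cm h J := by
  by_cases hI : I = 0
  · rw [hI, zero_mul, cm_zero, zero_mul]
  by_cases hJ : J = 0
  · rw [hJ, mul_zero, cm_zero, mul_zero]
  rw [cm, cm, cm, if_neg hI, if_neg hJ, if_neg (mul_ne_zero hI hJ), normalizedFactors_mul hI hJ,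
    Multiset.map_add, Multiset.prod_add]

theorem cm_prime (h : HeightOneSpectrum (𝓞 F) → M) (v : HeightOneSpectrum (𝓞 F)) :
    cm h v.asIdeal = h v := by
  have h1 : v.asIdeal ≠ 0 := v.ne_bot
  rw [cm, if_neg h1, normalizedFactors_irreducible v.irreducible, Multiset.map_singleton,
    Multiset.prod_singleton, normalize_eq, dif_pos ⟨v.isPrime, v.ne_bot⟩]

theorem cm_pow (h : HeightOneSpectrum (𝓞 F) → M) (I : Ideal (𝓞 F)) (n : ℕ) :
    cm h (I ^ n) = cm h I ^ n := by
  induction n with
  | zero => rw [pow_zero, pow_zero, cm_one]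
  | succ n ih => rw [pow_succ, cm_mul, ih, pow_succ]

/-- A property of ideals which is multiplicative and holds for the primes. -/
theorem ideal_induction {P : Ideal (𝓞 F) → Prop} (h1 : P 1)
    (h2 : ∀ (v : HeightOneSpectrum (𝓞 F)) (I : Ideal (𝓞 F)), I ≠ 0 → P I → P (v.asIdeal * I))
    (I : Ideal (𝓞 F)) (hI : I ≠ 0) : P I := by
  induction I using UniqueFactorizationMonoid.induction_on_prime with
  | h₁ => exact absurd rfl hI
  | h₂ x hx =>
    have h3 : x = 1 := by
      rw [Ideal.one_eq_top]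
      exact Ideal.isUnit_iff.1 hx
    rw [h3]
    exact h1
  | h₃ a p ha hp ih =>
    exact h2 ⟨p, Ideal.isPrime_of_prime hp, hp.ne_zero⟩ a ha (ih ha)

/-- uniqueness -/
theorem cm_unique (f : Ideal (𝓞 F) → M) (f0 : f 0 = 0) (f1 : f 1 = 1)
    (fmul : ∀ I J, f (I * J) = f I * f J) : f = cm fun v => f v.asIdeal := by
  funext I
  by_cases hI : I = 0
  · rw [hI, f0, cm_zero]
  · refine ideal_induction (P := fun I => f I = cm (fun v => f v.asIdeal) I) ?_ ?_ I hI
    · rw [f1, cm_one]
    · intro v I _ ih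
      rw [fmul, cm_mul, cm_prime, ih]

theorem cm_map {N : Type*} [CommMonoidWithZero N] (φ : M →*₀ N)
    (h : HeightOneSpectrum (𝓞 F) → M) (I : Ideal (𝓞 F)) : φ (cm h I) = cm (fun v => φ (h v)) I := by
  have := cm_unique (fun I => φ (cm h I)) (by rw [cm_zero, map_zero]) (by rw [cm_one, map_one])
    (fun I J => by rw [cm_mul, map_mul])
  rw [congrFun this I]
  congr 1
  funext v
  rw [cm_prime]

/-- `χ_d(I)` -/
noncomputable def chi (d : F) (I : Ideal (𝓞 F)) : ℤ := cm (symb d) I

end

section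
variable (F : IntermediateField ℚ ℂ) [NumberField F]

/-- The primary generator of the norm to `ℤ[ω]` of a prime of `F` not above `3`; `0` above `3`. -/
noncomputable def psiv (v : HeightOneSpectrum (𝓞 F)) : Eis :=
  if h : ∃ x : Eis, ∃ (b : Eis) (f : ℕ), Primary b ∧ Prime b ∧ v ∈ above F b ∧ 0 < f ∧
    Nat.card (𝓞 F ⧸ v.asIdeal) = b.norm.natAbs ^ f ∧ x = b ^ f then h.choose else 0

/-- The primary generator of the norm of an ideal of `F` to `ℤ[ω]`; `0` if `I` is not prime to `3`. -/
noncomputable def psi (I : Ideal (𝓞 F)) : Eis := cm (psiv F) I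

/-- `λ(I) = χ_d(I) ψ(I)` -/
noncomputable def lam (d : F) (I : Ideal (𝓞 F)) : ℂ := chi d I * emb (psi F I)

/-- `ψ(I)` if `I` is prime to `m`, `0` otherwise. -/
noncomputable def lamR (m : 𝓞 F) (I : Ideal (𝓞 F)) : ℂ :=
  if IsCoprime I (Ideal.span {m}) then emb (psi F I) else 0

end

end NAB
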