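import Pool.Agent.MP_9ab903_nt.NAB.EU1

set_option autoImplicit false

open NumberField IsDedekindDomain ArithmeticFunction Filter
open CM27
open scoped Classical Topology nonZeroDivisors

namespace NAB

/-! ## [NAB-BV2] sums over ideals (file NAB/BV2.lean) -/

section
variable (F : Type) [Field F] [NumberField F]

/-- the terms of the series over the ideals -/
noncomputable def itm (g : Ideal (𝓞 F) → ℂ) (s : ℂ) (I : Ideal (𝓞 F)) : ℂ :=
  if I = 0 then 0 else g I * (Ideal.absNorm I : ℂ) ^ (-s)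

theorem fiber_idn {n : ℕ} (hn : n ≠ 0) :
    ((fun I : Ideal (𝓞 F) => Ideal.absNorm I) ⁻¹' {n}) = (idn F n : Set (Ideal (𝓞 F))) := by
  ext I
  rw [Finset.mem_coe, mem_idn, Set.mem_preimage, Set.mem_singleton_iff]
  exact ⟨fun h => ⟨hn, h⟩, fun h => h.2⟩

theorem sum_itm (g : Ideal (𝓞 F) → ℂ) (s : ℂ) (n : ℕ) (hn : n ≠ 0) :
    ∑ I ∈ idn F n, itm F g s I = LSeries.term (fun n => IL F g n) s n := by
  rw [LSeries.term_of_ne_zero hn, IL_apply, Finset.sum_div]
  refine Finset.sum_congr rfl fun I hI => ?_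
  rw [mem_idn] at hI
  have h0 : I ≠ 0 := by
    rintro rfl
    exact hn (by rw [← hI.2]; exact Ideal.absNorm_bot)
  rw [itm, if_neg h0, hI.2, Complex.cpow_neg, div_eq_mul_inv]

theorem hasSum_IL (g : Ideal (𝓞 F) → ℂ) (s : ℂ) (h : Summable (itm F g s)) :
    HasSum (LSeries.term (fun n => IL F g n) s) (∑' I, itm F g s I) := by
  have h1 := h.hasSum.tsum_fiberwise (fun I : Ideal (𝓞 F) => Ideal.absNorm I)
  refine h1.congr_fun ?_
  intro n
  by_cases hn : n = 0
  · subst hn
    rw [LSeries.term_zero]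
    symm
    convert tsum_zero with I
    have h0 : (I : Ideal (𝓞 F)) = 0 := Ideal.absNorm_eq_zero_iff.1 I.2
    rw [itm, if_pos h0]
  · rw [fiber_idn F hn, Finset.tsum_subtype', sum_itm F g s n hn]

theorem sum_card_idn (N : ℕ) : ∑ n ∈ Finset.Icc 1 N, ((idn F n).card : ℝ) =
    (Nat.card {I : (Ideal (𝓞 F))⁰ // (Ideal.absNorm (I : Ideal (𝓞 F)) : ℝ) ≤ N} : ℝ) := by
  rw [← Nat.cast_sum, ← Finset.card_biUnion]
  · congr 1
    rw [← Fintype.card_coe, ← Nat.card_eq_fintype_card]
    refine Nat.card_congr ⟨fun I => ⟨⟨I.1, ?_⟩, ?_⟩, fun I => ⟨I.1.1, ?_⟩, fun I => rfl, fun I => rfl⟩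
    · have h1 := I.2
      rw [Finset.mem_biUnion] at h1
      obtain ⟨n, hn, h2⟩ := h1
      rw [mem_idn] at h2
      rw [mem_nonZeroDivisors_iff_ne_zero]
      intro h3
      apply h2.1
      rw [← h2.2, h3]
      exact Ideal.absNorm_bot
    · have h1 := I.2
      rw [Finset.mem_biUnion] at h1
      obtain ⟨n, hn, h2⟩ := h1
      rw [mem_idn] at h2
      rw [Finset.mem_Icc] at hn
      change ((Ideal.absNorm (I : Ideal (𝓞 F)) : ℕ) : ℝ) ≤ N
      rw [h2.2]
      exact_mod_cast hn.2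
    · have h1 := I.2
      have h2 : Ideal.absNorm (I.1 : Ideal (𝓞 F)) ≠ 0 := by
        intro h3
        rw [Ideal.absNorm_eq_zero_iff] at h3
        exact nonZeroDivisors.coe_ne_zero I.1 h3
      have h3 : Ideal.absNorm (I.1 : Ideal (𝓞 F)) ≤ N := by exact_mod_cast h1
      rw [Finset.mem_biUnion]
      refine ⟨Ideal.absNorm (I.1 : Ideal (𝓞 F)), ?_, ?_⟩
      · rw [Finset.mem_Icc]
        omega
      · rw [mem_idn]
        exact ⟨h2, rfl⟩
  · intro a _ b _ hab
    rw [Function.onFun, Finset.disjoint_left]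
    intro I hI hJ
    rw [mem_idn] at hI hJ
    exact hab (hI.2.symm.trans hJ.2)

theorem card_idn_bigO : (fun N : ℕ => ∑ n ∈ Finset.Icc 1 N, ‖((idn F n).card : ℂ)‖) =O[atTop]
    fun N : ℕ => (N : ℝ) ^ (1 : ℝ) := by
  have h1 := (NumberField.Ideal.tendsto_norm_le_div_atTop₀ F).comp
    (tendsto_natCast_atTop_atTop (R := ℝ))
  have h2 := h1.isBigO_one ℝ
  have h3 := h2.mul (Asymptotics.isBigO_refl (fun N : ℕ => (N : ℝ)) atTop)
  refine (h3.congr' ?_ ?_)
  · filter_upwards [eventually_gt_atTop 0] with N hN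
    have hN' : (N : ℝ) ≠ 0 := by exact_mod_cast hN.ne'
    rw [Function.comp_apply, div_mul_cancel₀ _ hN', ← sum_card_idn]
    refine Finset.sum_congr rfl fun n _ => ?_
    rw [Complex.norm_natCast]
  · filter_upwards with N
    rw [one_mul, Real.rpow_one]

/-- `∑_{I ≠ 0} N(I)^{-x} < ∞` for `x > 1` -/
theorem summable_norm (x : ℝ) (hx : 1 < x) :
    Summable (fun I : Ideal (𝓞 F) => if I = 0 then (0 : ℝ) else (Ideal.absNorm I : ℝ) ^ (-x)) := by
  have h1 : LSeriesSummable (fun n => ((idn F n).card : ℂ)) (x : ℂ) :=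
    LSeriesSummable_of_sum_norm_bigO (card_idn_bigO F) zero_le_one (by simpa using hx)
  have h2 : Summable fun n => ‖LSeries.term (fun n => ((idn F n).card : ℂ)) (x : ℂ) n‖ := h1.norm
  refine summable_of_sum_le (c := ∑' n, ‖LSeries.term (fun n => ((idn F n).card : ℂ)) (x : ℂ) n‖)
    ?_ ?_
  · intro I
    change (0 : ℝ) ≤ if I = 0 then (0 : ℝ) else (Ideal.absNorm I : ℝ) ^ (-x)
    split_ifs
    · exact le_rfl
    · positivity
  · intro u
    set N := u.sup (fun I => Ideal.absNorm I) with hN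
    calc ∑ I ∈ u, (if I = 0 then (0 : ℝ) else (Ideal.absNorm I : ℝ) ^ (-x))
        ≤ ∑ I ∈ (Finset.Icc 1 N).biUnion (idn F),
          (if I = 0 then (0 : ℝ) else (Ideal.absNorm I : ℝ) ^ (-x)) := by
          rw [← Finset.sum_filter_ne_zero u]
          refine Finset.sum_le_sum_of_subset_of_nonneg ?_ ?_
          · intro I hI
            rw [Finset.mem_filter] at hI
            have h0 : I ≠ 0 := fun h => hI.2 (if_pos h)
            have h3 : Ideal.absNorm I ≠ 0 := fun h => h0 (Ideal.absNorm_eq_zero_iff.1 h)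
            rw [Finset.mem_biUnion]
            refine ⟨Ideal.absNorm I, ?_, ?_⟩
            · rw [Finset.mem_Icc]
              exact ⟨Nat.one_le_iff_ne_zero.2 h3, Finset.le_sup (f := fun I => Ideal.absNorm I) hI.1⟩
            · rw [mem_idn]
              exact ⟨h3, rfl⟩
          · intro I _ _
            split_ifs
            · exact le_rfl
            · positivity
      _ = ∑ n ∈ Finset.Icc 1 N, ‖LSeries.term (fun n => ((idn F n).card : ℂ)) (x : ℂ) n‖ := by
          rw [Finset.sum_biUnion]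
          · refine Finset.sum_congr rfl fun n hn => ?_
            have hn0 : n ≠ 0 := by
              rw [Finset.mem_Icc] at hn
              omega
            rw [LSeries.term_of_ne_zero hn0, norm_div, Complex.norm_natCast,
              Complex.norm_natCast_cpow_of_pos (Nat.pos_of_ne_zero hn0), Complex.ofReal_re,
              Finset.sum_congr rfl (g := fun _ => (n : ℝ) ^ (-x)), Finset.sum_const, nsmul_eq_mul,
              Real.rpow_neg (Nat.cast_nonneg n), div_eq_mul_inv]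
            intro I hI
            rw [mem_idn] at hI
            have h0 : I ≠ 0 := by
              rintro rfl
              exact hn0 (by rw [← hI.2]; exact Ideal.absNorm_bot)
            rw [if_neg h0, hI.2]
          · intro a _ b _ hab
            rw [Function.onFun, Finset.disjoint_left]
            intro I hI hJ
            rw [mem_idn] at hI hJ
            exact hab (hI.2.symm.trans hJ.2)
      _ ≤ _ := h2.sum_le_tsum _ fun _ _ => norm_nonneg _

theorem norm_itm_le (g : Ideal (𝓞 F) → ℂ) (hg : ∀ I, I ≠ 0 → ‖g I‖ ^ 2 ≤ Ideal.absNorm I) (s : ℂ)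
    (I : Ideal (𝓞 F)) : ‖itm F g s I‖ ≤
      if I = 0 then (0 : ℝ) else (Ideal.absNorm I : ℝ) ^ (-(s.re - 1 / 2)) := by
  rw [itm]
  split_ifs with h
  · rw [norm_zero]
  · have h0 : 0 < Ideal.absNorm I :=
      Nat.pos_of_ne_zero fun h1 => h (Ideal.absNorm_eq_zero_iff.1 h1)
    have h0' : (0 : ℝ) < Ideal.absNorm I := by exact_mod_cast h0
    rw [norm_mul, Complex.norm_natCast_cpow_of_pos h0, Complex.neg_re, neg_sub,
      sub_eq_add_neg (1 / 2 : ℝ), Real.rpow_add h0']
    refine mul_le_mul_of_nonneg_right ?_ (by positivity)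
    rw [← Real.sqrt_eq_rpow]
    exact Real.le_sqrt_of_sq_le (hg I h)

/-- absolute convergence -/
theorem summable_itm (g : Ideal (𝓞 F) → ℂ) (hg : ∀ I, I ≠ 0 → ‖g I‖ ^ 2 ≤ Ideal.absNorm I) (s : ℂ)
    (hs : 3 / 2 < s.re) : Summable (itm F g s) :=
  Summable.of_norm_bounded (summable_norm F (s.re - 1 / 2) (by linarith)) (norm_itm_le F g hg s)

theorem LSeriesSummable_IL (g : Ideal (𝓞 F) → ℂ) (hg : ∀ I, I ≠ 0 → ‖g I‖ ^ 2 ≤ Ideal.absNorm I)
    (s : ℂ) (hs : 3 / 2 < s.re) : LSeriesSummable (fun n => IL F g n) s :=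
  (hasSum_IL F g s (summable_itm F g hg s hs)).summable

theorem LSeries_IL (g : Ideal (𝓞 F) → ℂ) (hg : ∀ I, I ≠ 0 → ‖g I‖ ^ 2 ≤ Ideal.absNorm I)
    (s : ℂ) (hs : 3 / 2 < s.re) : LSeries (fun n => IL F g n) s = ∑' I, itm F g s I :=
  (hasSum_IL F g s (summable_itm F g hg s hs)).tsum_eq

end

end NAB
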