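import Pool.Agent.MP_9ab903_nt.NAB.BDefs

/-! ## [NAB-B1] ray classes

`I ~ J :⇔ ∃ g g' ≡ 1 mod m, g I = g' J`, on the nonzero ideals prime to `m`. Finitely many classes: finitely many ideal classes
(`ClassGroup` finite) and finitely many residues mod `m`. Every class has an odd representative: for `I` choose `a ∈ I`, `a ≡ 1 mod m`
with `(a) = I J`, `J` prime to `2` (CRT / `a ∉ I v` for `v ∣ 2`), then `b ∈ J`, `b ≡ 1 mod m`, `b` odd, `(b) = J I'`: `b I = a I'`,
and `I'` is odd. Take representatives `c` of the inverse classes. If `I c = (γ)·` (fractional) with `γ = g/g'`, `γ` is integral and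
`γ ≡ 1 mod m` (`g = γ g'`). For general `u` (prime to `m`): choose `u' u ≡ 1 mod m`, apply the case `1` to `u' I`. -/

set_option autoImplicit false
set_option linter.unusedSectionVars false

open NumberField IsDedekindDomain MeasureTheory Set
open CM27 CMT CF
open scoped ComplexConjugate Classical

namespace NAB

namespace RayAux

section
variable {R : Type} [CommRing R] [IsDedekindDomain R]

/-- `I ~ J` -/
def Rel (m : R) (I J : Ideal R) : Prop :=
  ∃ g g' : R, g ≠ 0 ∧ g' ≠ 0 ∧ m ∣ g - 1 ∧ m ∣ g' - 1 ∧ Ideal.span {g} * I = Ideal.span {g'} * J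

theorem cop_of_dvd {m g : R} (h : m ∣ g - 1) : IsCoprime g m := by
  obtain ⟨k, hk⟩ := h
  exact ⟨1, -k, by linear_combination hk⟩

theorem ne_zero_of_cop {m g : R} (hm : ¬ IsUnit m) (h : IsCoprime g m) : g ≠ 0 := by
  rintro rfl
  exact hm (isCoprime_zero_left.1 h)

theorem dvd_mul_sub_one {m g h : R} (h1 : m ∣ g - 1) (h2 : m ∣ h - 1) : m ∣ g * h - 1 := by
  obtain ⟨a, ha⟩ := h1
  obtain ⟨b, hb⟩ := h2
  exact ⟨a * h + b, by linear_combination h * ha + hb⟩

theorem Rel.refl (m : R) (I : Ideal R) : Rel m I I := by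
  exact ⟨1, 1, one_ne_zero, one_ne_zero, by simp, by simp, rfl⟩

theorem Rel.symm {m : R} {I J : Ideal R} (h : Rel m I J) : Rel m J I := by
  obtain ⟨g, g', h1, h2, h3, h4, h5⟩ := h
  exact ⟨g', g, h2, h1, h4, h3, h5.symm⟩

theorem Rel.trans {m : R} {I J K : Ideal R} (h : Rel m I J) (h' : Rel m J K) : Rel m I K := by
  obtain ⟨g, g', h1, h2, h3, h4, h5⟩ := h
  obtain ⟨k, k', h1', h2', h3', h4', h5'⟩ := h'
  refine ⟨k * g, g' * k', mul_ne_zero h1' h1, mul_ne_zero h2 h2', dvd_mul_sub_one h3' h3,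
    dvd_mul_sub_one h4 h4', ?_⟩
  rw [← Ideal.span_singleton_mul_span_singleton, ← Ideal.span_singleton_mul_span_singleton,
    mul_assoc, h5, mul_assoc, ← h5']
  rw [← mul_assoc, mul_comm (Ideal.span {k}), mul_assoc]

/-- an inverse modulo `m`, `≡ 1` modulo `n` -/
theorem exists_inv {m n u : R} (h : IsCoprime u m) (hmn : IsCoprime m n) :
    ∃ v : R, m ∣ v * u - 1 ∧ n ∣ v - 1 := by
  obtain ⟨a, b, hab⟩ := h
  obtain ⟨c, d, hcd⟩ := hmn
  refine ⟨a * (d * n) + c * m, ?_, ?_⟩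
  · -- v u - 1 = a d n u + c m u - 1, a u = 1 - b m, d n = 1 - c m
    refine ⟨-b - c + b * c * m + c * u, ?_⟩
    linear_combination (d * n) * hab + (1 - b * m) * hcd
  · refine ⟨a * d - d, ?_⟩
    linear_combination hcd

/-- for every `I` there is an `L` prime to `(m n)` with `I L = (a)`, `a ≡ 1 mod m` -/
theorem exists_L {m n : R} (hm0 : m ≠ 0) (hm : ¬ IsUnit m) (hn0 : n ≠ 0) (hmn : IsCoprime m n)
    {I : Ideal R} (hI0 : I ≠ 0) (hI : IsCoprime I (Ideal.span {m})) :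
    ∃ (a : R) (L : Ideal R), m ∣ a - 1 ∧ Ideal.span {a} = I * L ∧ a ≠ 0 ∧ L ≠ 0 ∧
      IsCoprime L (Ideal.span {m}) ∧ IsCoprime L (Ideal.span {n}) := by
  have hK0 : Ideal.span {m * n} ≠ (0 : Ideal R) := by
    rw [Ne, Ideal.zero_eq_bot, Ideal.span_singleton_eq_bot]
    exact mul_ne_zero hm0 hn0
  obtain ⟨a, ha⟩ := IsDedekindDomain.exists_sup_span_eq (I := I * Ideal.span {m * n}) (J := I)
    Ideal.mul_le_left (mul_ne_zero hI0 hK0)
  have h1 : I ∣ Ideal.span {a} := by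
    rw [Ideal.dvd_iff_le]
    conv_rhs => rw [← ha]
    exact le_sup_right
  obtain ⟨L, hL⟩ := h1
  have h2 : Ideal.span {m * n} ⊔ L = ⊤ := by
    rw [hL, ← Ideal.mul_sup] at ha
    have h3 : I * (Ideal.span {m * n} ⊔ L) = I * 1 := by rw [ha, mul_one]
    rw [← Ideal.one_eq_top]
    exact mul_left_cancel₀ hI0 h3
  have h4 : IsCoprime L (Ideal.span {m * n}) := by
    rw [Ideal.isCoprime_iff_sup_eq, sup_comm]
    exact h2
  rw [← Ideal.span_singleton_mul_span_singleton, IsCoprime.mul_right_iff] at h4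
  have h5 : IsCoprime a m := by
    rw [← Ideal.isCoprime_span_singleton_iff, hL]
    exact IsCoprime.mul_left hI h4.1
  obtain ⟨v, hv1, hv2⟩ := exists_inv h5 hmn
  have hvm : IsCoprime v m := IsCoprime.of_mul_left_left (cop_of_dvd hv1)
  have hv0 : v ≠ 0 := ne_zero_of_cop hm hvm
  have hvn : IsCoprime v n := cop_of_dvd hv2
  have ha0 : a ≠ 0 := ne_zero_of_cop hm h5
  have hL0 : L ≠ 0 := by
    rintro rfl
    rw [mul_zero, Ideal.zero_eq_bot, Ideal.span_singleton_eq_bot] at hL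
    exact ha0 hL
  refine ⟨v * a, Ideal.span {v} * L, hv1, ?_, mul_ne_zero hv0 ha0, mul_ne_zero ?_ hL0, ?_, ?_⟩
  · rw [← Ideal.span_singleton_mul_span_singleton, hL, mul_left_comm]
  · rw [Ne, Ideal.zero_eq_bot, Ideal.span_singleton_eq_bot]
    exact hv0
  · exact IsCoprime.mul_left ((Ideal.isCoprime_span_singleton_iff _ _).2 hvm) h4.1
  · exact IsCoprime.mul_left ((Ideal.isCoprime_span_singleton_iff _ _).2 hvn) h4.2

theorem exists_odd {m n : R} (hm0 : m ≠ 0) (hm : ¬ IsUnit m) (hn0 : n ≠ 0) (hmn : IsCoprime m n)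
    {I : Ideal R} (hI0 : I ≠ 0) (hI : IsCoprime I (Ideal.span {m})) :
    ∃ J : Ideal R, Rel m I J ∧ J ≠ 0 ∧ IsCoprime J (Ideal.span {m}) ∧
      IsCoprime J (Ideal.span {n}) := by
  obtain ⟨a, L, h1, h2, h3, h4, h5, h6⟩ := exists_L hm0 hm hn0 hmn hI0 hI
  obtain ⟨b, J, k1, k2, k3, k4, k5, k6⟩ := exists_L hm0 hm hn0 hmn h4 h5
  refine ⟨J, ⟨b, a, k3, h3, k1, h1, ?_⟩, k4, k5, k6⟩
  rw [k2, h2]
  ring

/-- finitely many classes -/
theorem finite_classes (m : R) (hm0 : m ≠ 0) (hm : ¬ IsUnit m) [Finite (ClassGroup R)]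
    [Finite (R ⧸ Ideal.span {m})] :
    ∃ f : {I : Ideal R // I ≠ 0 ∧ IsCoprime I (Ideal.span {m})} →
      ClassGroup R × (R ⧸ Ideal.span {m}), ∀ I J, f I = f J → Rel m I.1 J.1 := by
  set X := {I : Ideal R // I ≠ 0 ∧ IsCoprime I (Ideal.span {m})} with hX
  let cl : X → ClassGroup R := fun I => ClassGroup.mk0 ⟨I.1, mem_nonZeroDivisors_of_ne_zero I.2.1⟩
  -- a representative for each class
  have hex : ∀ I : X, ∃ (L : Ideal R) , L ≠ 0 ∧ IsCoprime L (Ideal.span {m}) ∧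
      ∀ J : X, cl J = cl I → ∃ b : R, Ideal.span {b} = J.1 * L := by
    intro I
    obtain ⟨a, L, h1, h2, h3, h4, h5, h6⟩ := exists_L (n := (1 : R)) hm0 hm one_ne_zero
      isCoprime_one_right I.2.1 I.2.2
    refine ⟨L, h4, h5, fun J hJ => ?_⟩
    have h7 : ClassGroup.mk0 (⟨I.1, mem_nonZeroDivisors_of_ne_zero I.2.1⟩ *
        ⟨L, mem_nonZeroDivisors_of_ne_zero h4⟩) = 1 := by
      rw [ClassGroup.mk0_eq_one_iff]
      exact ⟨⟨a, h2.symm⟩⟩
    have h8 : ClassGroup.mk0 (⟨J.1, mem_nonZeroDivisors_of_ne_zero J.2.1⟩ *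
        ⟨L, mem_nonZeroDivisors_of_ne_zero h4⟩) = 1 := by
      rw [← h7, map_mul, map_mul]
      congr 1
    rw [ClassGroup.mk0_eq_one_iff] at h8
    obtain ⟨b, hb⟩ := h8.principal
    exact ⟨b, hb.symm⟩
  choose L hL0 hLm hLb using hex
  -- choose a representative in each class
  let rep : X → X := fun I => Function.surjInv (f := fun I : X => (⟨cl I, I, rfl⟩ : Set.range cl))
    (by rintro ⟨_, I, rfl⟩; exact ⟨I, rfl⟩) ⟨cl I, I, rfl⟩
  have hrep : ∀ I, cl (rep I) = cl I := by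
    intro I
    have := Function.surjInv_eq (f := fun I : X => (⟨cl I, I, rfl⟩ : Set.range cl))
      (by rintro ⟨_, I, rfl⟩; exact ⟨I, rfl⟩) ⟨cl I, I, rfl⟩
    exact congrArg Subtype.val this
  have hrep2 : ∀ I J, cl I = cl J → rep I = rep J := by
    intro I J h
    simp only [rep]
    congr 2
  have hb : ∀ I : X, ∃ b : R, Ideal.span {b} = I.1 * L (rep I) :=
    fun I => hLb (rep I) I (hrep I).symm
  choose b hb using hb
  refine ⟨fun I => (cl I, Ideal.Quotient.mk _ (b I)), fun I J hIJ => ?_⟩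
  rw [Prod.mk.injEq] at hIJ
  obtain ⟨h1, h2⟩ := hIJ
  have h3 := hrep2 I J h1
  rw [Ideal.Quotient.eq, Ideal.mem_span_singleton] at h2
  have hbJ : IsCoprime (b J) m := by
    rw [← Ideal.isCoprime_span_singleton_iff, hb]
    exact IsCoprime.mul_left J.2.2 (hLm _)
  obtain ⟨v, hv, -⟩ := exists_inv hbJ (isCoprime_one_right (x := m))
  have hv' : m ∣ v * b I - 1 := by
    obtain ⟨x, hx⟩ := h2
    obtain ⟨y, hy⟩ := hv
    exact ⟨v * x + y, by linear_combination v * hx + hy⟩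
  refine ⟨v * b J, v * b I, ne_zero_of_cop hm (cop_of_dvd hv), ne_zero_of_cop hm (cop_of_dvd hv'),
    hv, hv', ?_⟩
  rw [← Ideal.span_singleton_mul_span_singleton, ← Ideal.span_singleton_mul_span_singleton, hb, hb,
    h3]
  ring

end

end RayAux

open RayAux in
theorem ray_classes (F : Type) [Field F] [NumberField F] (m : 𝓞 F) (hm0 : m ≠ 0)
    (hm1 : ¬ IsUnit m) (hm2 : IsCoprime m 2) : ∃ C : Finset (Ideal (𝓞 F)),
    (∀ c ∈ C, c ≠ 0 ∧ IsCoprime c (Ideal.span {m}) ∧ IsCoprime c (Ideal.span {(2 : 𝓞 F)})) ∧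
    ∀ u : 𝓞 F, IsCoprime u m → ∀ I : Ideal (𝓞 F), I ≠ 0 → IsCoprime I (Ideal.span {m}) →
      ∃! c : Ideal (𝓞 F), c ∈ C ∧ ∃ g : 𝓞 F, g ≠ 0 ∧ m ∣ g - u ∧ I * c = Ideal.span {g} := by
  have : Finite (𝓞 F ⧸ Ideal.span {m}) := by
    apply Ideal.finiteQuotientOfFreeOfNeBot
    rw [Ne, Ideal.span_singleton_eq_bot]
    exact hm0
  let X := {I : Ideal (𝓞 F) // I ≠ 0 ∧ IsCoprime I (Ideal.span {m})}
  obtain ⟨f, hf⟩ : ∃ f : X → ClassGroup (𝓞 F) × (𝓞 F ⧸ Ideal.span {m}),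
      ∀ I J : X, f I = f J → Rel m I.1 J.1 := finite_classes m hm0 hm1
  let r : Setoid X := ⟨fun I J => Rel m I.1 J.1, ⟨fun I => Rel.refl m I.1, Rel.symm, Rel.trans⟩⟩
  have : Finite (Quotient r) := by
    refine Finite.of_injective (fun q : Quotient r => f q.out) ?_
    intro p q hpq
    have h1 := hf _ _ hpq
    rw [← Quotient.out_eq p, ← Quotient.out_eq q]
    exact Quotient.sound h1
  have hodd : ∀ q : Quotient r, ∃ J : X, (Quotient.mk r J) = q ∧
      IsCoprime J.1 (Ideal.span {(2 : 𝓞 F)}) := by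
    intro q
    obtain ⟨J, h1, h2, h3, h4⟩ := exists_odd hm0 hm1 two_ne_zero hm2 q.out.2.1 q.out.2.2
    refine ⟨⟨J, h2, h3⟩, ?_, h4⟩
    rw [← Quotient.out_eq q]
    exact Quotient.sound (Rel.symm h1)
  choose c hc1 hc2 using hodd
  have := Fintype.ofFinite (Quotient r)
  refine ⟨Finset.univ.image (fun q => (c q).1), ?_, ?_⟩
  · intro I hI
    rw [Finset.mem_image] at hI
    obtain ⟨q, -, rfl⟩ := hI
    exact ⟨(c q).2.1, (c q).2.2, hc2 q⟩
  · intro u hu I hI0 hI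
    have hu0 : u ≠ 0 := ne_zero_of_cop hm1 hu
    obtain ⟨u', hu', -⟩ := exists_inv hu (isCoprime_one_right (x := m))
    have hspan : ∀ x : 𝓞 F, x ≠ 0 → Ideal.span {x} ≠ (0 : Ideal (𝓞 F)) := by
      intro x hx
      rw [Ne, Ideal.zero_eq_bot, Ideal.span_singleton_eq_bot]
      exact hx
    -- existence
    obtain ⟨a, L, h1, h2, h3, h4, h5, -⟩ := exists_L (n := (1 : 𝓞 F)) hm0 hm1 one_ne_zero
      isCoprime_one_right hI0 hI
    let J : X := ⟨Ideal.span {u} * L, mul_ne_zero (hspan u hu0) h4,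
      IsCoprime.mul_left ((Ideal.isCoprime_span_singleton_iff _ _).2 hu) h5⟩
    have hJ : Rel m (c (Quotient.mk r J)).1 J.1 := Quotient.exact (hc1 (Quotient.mk r J))
    obtain ⟨g, g', k1, k2, k3, k4, k5⟩ := hJ
    have h6 : Ideal.span {g} * (I * (c (Quotient.mk r J)).1) = Ideal.span {g' * u * a} := by
      rw [← Ideal.span_singleton_mul_span_singleton, ← Ideal.span_singleton_mul_span_singleton, h2,
        mul_left_comm, k5]
      simp only [J]
      ring
    have h7 : g ∣ g' * u * a := by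
      rw [← Ideal.span_singleton_le_span_singleton, ← h6]
      exact Ideal.mul_le_left
    obtain ⟨h, hh⟩ := h7
    have h8 : I * (c (Quotient.mk r J)).1 = Ideal.span {h} := by
      rw [hh, ← Ideal.span_singleton_mul_span_singleton] at h6
      exact mul_left_cancel₀ (hspan g k1) h6
    have h9 : h ≠ 0 := by
      rintro rfl
      rw [mul_zero] at hh
      exact mul_ne_zero (mul_ne_zero k2 hu0) h3 hh
    have h10 : m ∣ h - u := by
      obtain ⟨x1, hx1⟩ := k3
      obtain ⟨x2, hx2⟩ := k4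
      obtain ⟨x3, hx3⟩ := h1
      -- g h = g' u a ; g = 1 + m x1 ; g' = 1 + m x2; a = 1 + m x3
      refine ⟨-x1 * h + x2 * u * a + u * x3, ?_⟩
      linear_combination (-h) * hx1 + (u * a) * hx2 + u * hx3 - hh
    refine ⟨(c (Quotient.mk r J)).1, ⟨Finset.mem_image_of_mem _ (Finset.mem_univ _), h, h9, h10,
      h8⟩, ?_⟩
    rintro c' ⟨hc', g2, l1, l2, l3⟩
    rw [Finset.mem_image] at hc'
    obtain ⟨q, -, rfl⟩ := hc'
    have h11 : Ideal.span {h} * (c q).1 = Ideal.span {g2} * (c (Quotient.mk r J)).1 := by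
      apply mul_left_cancel₀ hI0
      rw [mul_left_comm, l3, mul_left_comm, h8]
      ring
    have h12 : m ∣ u' * h - 1 := by
      obtain ⟨x, hx⟩ := h10
      obtain ⟨y, hy⟩ := hu'
      exact ⟨u' * x + y, by linear_combination u' * hx + hy⟩
    have h13 : m ∣ u' * g2 - 1 := by
      obtain ⟨x, hx⟩ := l2
      obtain ⟨y, hy⟩ := hu'
      exact ⟨u' * x + y, by linear_combination u' * hx + hy⟩
    have h14 : Rel m (c q).1 (c (Quotient.mk r J)).1 := by
      refine ⟨u' * h, u' * g2, ne_zero_of_cop hm1 (cop_of_dvd h12),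
        ne_zero_of_cop hm1 (cop_of_dvd h13), h12, h13, ?_⟩
      rw [← Ideal.span_singleton_mul_span_singleton, ← Ideal.span_singleton_mul_span_singleton,
        mul_assoc, h11, mul_assoc]
    have h15 : q = Quotient.mk r J := by
      rw [← hc1 q, ← hc1 (Quotient.mk r J)]
      exact Quotient.sound h14
    rw [h15]

end NAB
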