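import Pool.Agent.MP_9ab903_nt.NAB.EU2
import Pool.Agent.MP_9ab903_nt.CF3.AR

set_option autoImplicit false

open NumberField IsDedekindDomain ArithmeticFunction
open CM27 CMT
open scoped Classical

namespace NAB

/-! ## [NAB-EU3] `L(W/F, s)` as the product of two series `IL` (file NAB/EU3.lean) -/

theorem LCW_eq_IL (F : Type) [Field F] [NumberField F] (W : WeierstrassCurve F)
    (f g : Ideal (𝓞 F) → ℂ) (f1 : f 1 = 1) (g1 : g 1 = 1)
    (fmul : ∀ I J, f (I * J) = f I * f J) (gmul : ∀ I J, g (I * J) = g I * g J)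
    (h : ∀ v : HeightOneSpectrum (𝓞 F), ∃ a b : ℤ,
      (W.baseChange (v.adicCompletion F)).localPolynomial (v.adicCompletionIntegers F) =
        1 - Polynomial.C a * Polynomial.X + Polynomial.C b * Polynomial.X ^ 2 ∧
      (a : ℂ) = f v.asIdeal + g v.asIdeal ∧ (b : ℂ) = f v.asIdeal * g v.asIdeal) :
    LCW F W = IL F f * IL F g := by
  rw [ArithmeticFunction.IsMultiplicative.eq_iff_eq_on_prime_powers _ (isMultiplicative_LCW F W) _
    ((isMultiplicative_IL F f f1 fmul).mul (isMultiplicative_IL F g g1 gmul))]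
  intro p i hp
  rw [← coeff_loc, ← coeff_loc]
  congr 1
  have hfin : {v : HeightOneSpectrum (𝓞 F) | (p : 𝓞 F) ∈ v.asIdeal}.Finite := by
    have h30 : Ideal.span {(p : 𝓞 F)} ≠ 0 := by
      rw [Ne, Ideal.zero_eq_bot, Ideal.span_singleton_eq_bot]
      exact_mod_cast hp.ne_zero
    refine (Ideal.finite_factors h30).subset ?_
    intro v hv
    exact Ideal.dvd_span_singleton.2 hv
  set S := hfin.toFinset with hS
  have hmem : ∀ v : HeightOneSpectrum (𝓞 F), v ∈ S ↔ (p : 𝓞 F) ∈ v.asIdeal := fun v => by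
    simp [hS]
  have hd : ∀ v : HeightOneSpectrum (𝓞 F), ∃ d : ℕ, v ∈ S → 0 < d ∧
      Ideal.absNorm v.asIdeal = p ^ d := by
    intro v
    by_cases hv : v ∈ S
    · obtain ⟨d, h1, h2⟩ := CF.ar_card F v p hp ((hmem v).1 hv)
      exact ⟨d, fun _ => ⟨h1, by rw [Ideal.absNorm_apply, Submodule.cardQuot_apply, h2]⟩⟩
    · exact ⟨0, fun h => absurd h hv⟩
  choose d hd using hd
  have hf := loc_IL F f f1 fmul hp S hmem d hd
  have hg := loc_IL F g g1 gmul hp S hmem d hd
  have hW : loc p (LCW F W) * ∏ v ∈ S, ((1 - PowerSeries.C (f v.asIdeal) * PowerSeries.X ^ d v) *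
      (1 - PowerSeries.C (g v.asIdeal) * PowerSeries.X ^ d v)) = 1 := by
    rw [loc_LCW, loc_LFunctionW F W hp S (fun v hv => (hmem v).2 hv), map_prod,
      ← Finset.prod_mul_distrib]
    apply Finset.prod_eq_one
    intro v hv
    obtain ⟨a, b, hab, ha, hb⟩ := h v
    have h1 := loc_fW F W v hp (hd v hv).1 a b (by
      have h2 := qv_eq F v
      rw [(hd v hv).2] at h2
      exact h2) hab
    rw [ha, hb] at h1
    refine Eq.trans ?_ h1
    congr 1
    simp only [map_add, map_mul]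
    ring
  rw [loc_mul hp]
  refine CF.ar_uniq hW ?_
  rw [Finset.prod_mul_distrib]
  calc loc p (IL F f) * loc p (IL F g) *
        ((∏ v ∈ S, (1 - PowerSeries.C (f v.asIdeal) * PowerSeries.X ^ d v)) *
          ∏ v ∈ S, (1 - PowerSeries.C (g v.asIdeal) * PowerSeries.X ^ d v)) =
      (loc p (IL F f) * ∏ v ∈ S, (1 - PowerSeries.C (f v.asIdeal) * PowerSeries.X ^ d v)) *
        (loc p (IL F g) * ∏ v ∈ S, (1 - PowerSeries.C (g v.asIdeal) * PowerSeries.X ^ d v)) := by
        ring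
    _ = 1 := by rw [hf, hg, one_mul]

end NAB
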