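import Pool.Agent.MP_9ab903_nt.NAB.QR5

set_option autoImplicit false

open NumberField IsDedekindDomain UniqueFactorizationMonoid
open CM27 CMT
open scoped Classical

namespace NAB

/-! ## [NAB-QR6] the primes in a quadratic extension (file NAB/QR6.lean) -/

section
variable (k F : Type) [Field k] [NumberField k] [Field F] [NumberField F] [Algebra k F]

/-- the nontrivial automorphism of a quadratic extension -/
structure Sig where
  sg : 𝓞 F ≃+* 𝓞 F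
  fix : ∀ x : 𝓞 k, sg (algebraMap (𝓞 k) (𝓞 F) x) = algebraMap (𝓞 k) (𝓞 F) x
  inv : ∀ β, sg (sg β) = β
  norm : ∀ β, algebraMap (𝓞 k) (𝓞 F) (Nm k F β) = β * sg β
  tr : ∀ β, ∃ t : 𝓞 k, algebraMap (𝓞 k) (𝓞 F) t = β + sg β

theorem exists_Sig [Algebra.IsQuadraticExtension k F] : Nonempty (Sig k F) := by
  obtain ⟨sg, h1, h2, h3, h4⟩ := exists_sigma k F
  exact ⟨⟨sg, h1, h2, h3, h4⟩⟩

variable {k F}

/-- the prime below -/
noncomputable def und (k : Type) [Field k] [NumberField k] [Algebra k F]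
    (w : HeightOneSpectrum (𝓞 F)) : HeightOneSpectrum (𝓞 k) :=
  ⟨w.asIdeal.under (𝓞 k), inferInstance, Ideal.under_ne_bot _ w.ne_bot⟩

theorem mem_und (w : HeightOneSpectrum (𝓞 F)) (x : 𝓞 k) :
    x ∈ (und k w).asIdeal ↔ algebraMap (𝓞 k) (𝓞 F) x ∈ w.asIdeal := Iff.rfl

/-- the conjugate prime -/
noncomputable def Sig.sw (S : Sig k F) (w : HeightOneSpectrum (𝓞 F)) : HeightOneSpectrum (𝓞 F) :=
  ⟨w.asIdeal.comap S.sg, w.isPrime.comap _, by
    intro h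
    obtain ⟨β, hβ, hβ0⟩ := Submodule.exists_mem_ne_zero_of_ne_bot w.ne_bot
    have h1 : S.sg β ∈ w.asIdeal.comap S.sg := by
      rw [Ideal.mem_comap]
      change S.sg (S.sg β) ∈ w.asIdeal
      rw [S.inv]
      exact hβ
    rw [h, Ideal.mem_bot] at h1
    exact hβ0 ((map_eq_zero_iff S.sg S.sg.injective).1 h1)⟩

theorem Sig.mem_sw (S : Sig k F) (w : HeightOneSpectrum (𝓞 F)) (β : 𝓞 F) :
    β ∈ (S.sw w).asIdeal ↔ S.sg β ∈ w.asIdeal := Iff.rfl

theorem Sig.sw_sw (S : Sig k F) (w : HeightOneSpectrum (𝓞 F)) : S.sw (S.sw w) = w := by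
  apply HeightOneSpectrum.ext
  ext β
  rw [S.mem_sw, S.mem_sw, S.inv]

theorem Sig.und_sw (S : Sig k F) (w : HeightOneSpectrum (𝓞 F)) : und k (S.sw w) = und k w := by
  apply HeightOneSpectrum.ext
  ext x
  rw [mem_und, mem_und, S.mem_sw, S.fix]

theorem Sig.two_sw (S : Sig k F) (w : HeightOneSpectrum (𝓞 F)) :
    (2 : 𝓞 F) ∈ (S.sw w).asIdeal ↔ (2 : 𝓞 F) ∈ w.asIdeal := by
  rw [S.mem_sw, map_ofNat]

/-- if the norm of `β` is in the prime below, one of the conjugates is in the prime above -/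
theorem Sig.mem_or (S : Sig k F) (w : HeightOneSpectrum (𝓞 F)) (β : 𝓞 F)
    (h : Nm k F β ∈ (und k w).asIdeal) : β ∈ w.asIdeal ∨ β ∈ (S.sw w).asIdeal := by
  rw [mem_und, S.norm] at h
  rcases w.isPrime.mem_or_mem h with h1 | h1
  · exact Or.inl h1
  · exact Or.inr h1

theorem Sig.norm_mem (S : Sig k F) (w : HeightOneSpectrum (𝓞 F)) (β : 𝓞 F)
    (h : β ∈ w.asIdeal) : Nm k F β ∈ (und k w).asIdeal := by
  rw [mem_und, S.norm]
  exact Ideal.mul_mem_right _ _ h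

theorem exists_above (p : HeightOneSpectrum (𝓞 k)) : ∃ w : HeightOneSpectrum (𝓞 F), und k w = p := by
  haveI := p.isMaximal
  obtain ⟨Q, hQm, hQ⟩ := Ideal.exists_maximal_ideal_liesOver_of_isIntegral
    (S := 𝓞 F) p.asIdeal
  have hQ0 : Q ≠ ⊥ := Ideal.ne_bot_of_liesOver_of_ne_bot p.ne_bot Q
  refine ⟨⟨Q, hQm.isPrime, hQ0⟩, ?_⟩
  apply HeightOneSpectrum.ext
  exact hQ.over.symm

theorem card_pos_quot (v : HeightOneSpectrum (𝓞 F)) : 1 < Nat.card (𝓞 F ⧸ v.asIdeal) := by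
  haveI := v.isMaximal
  letI : Field (𝓞 F ⧸ v.asIdeal) := Ideal.Quotient.field v.asIdeal
  haveI := finite_quot v
  exact Finite.one_lt_card

theorem absNorm_eq_card (I : Ideal (𝓞 F)) : Ideal.absNorm I = Nat.card (𝓞 F ⧸ I) := by
  rw [Ideal.absNorm_apply, Submodule.cardQuot_apply]

/-- the norm of a prime ideal -/
theorem relNorm_prime (w : HeightOneSpectrum (𝓞 F)) : ∃ f : ℕ, 0 < f ∧
    Ideal.relNorm (𝓞 k) w.asIdeal = (und k w).asIdeal ^ f ∧
    Nat.card (𝓞 F ⧸ w.asIdeal) = Nat.card (𝓞 k ⧸ (und k w).asIdeal) ^ f := by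
  haveI := w.isMaximal
  haveI := (und k w).isMaximal
  have hlies : w.asIdeal.LiesOver (und k w).asIdeal := ⟨rfl⟩
  have h1 := Ideal.relNorm_eq_pow_of_isMaximal w.asIdeal (und k w).asIdeal
  have h2 : 0 < w.asIdeal.inertiaDeg (𝓞 k) := Ideal.inertiaDeg_pos _ _
  have h4 := Ideal.absNorm_relNorm (R := 𝓞 k) (S := 𝓞 F) w.asIdeal
  rw [h1, map_pow, absNorm_eq_card, absNorm_eq_card] at h4
  exact ⟨_, h2, h1, h4.symm⟩

theorem finrank_int [Algebra.IsQuadraticExtension k F] : Module.finrank (𝓞 k) (𝓞 F) = 2 := by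
  rw [← IsFractionRing.finrank_eq (𝓞 k) k (𝓞 F) F]
  exact Algebra.IsQuadraticExtension.finrank_eq_two k F

theorem eq_one_of_relNorm (J : Ideal (𝓞 F)) (h : Ideal.relNorm (𝓞 k) J = 1) : J = 1 := by
  have h4 := Ideal.absNorm_relNorm (R := 𝓞 k) (S := 𝓞 F) J
  rw [h, map_one] at h4
  rw [Ideal.one_eq_top]
  exact Ideal.absNorm_eq_one_iff.1 h4.symm

end

end NAB
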