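import Pool.Agent.MP_9ab903_nt.NAB.EDefs
import Pool.Agent.MP_9ab903_nt.CF.P4
import Pool.Agent.MP_9ab903_nt.CF3.AR

set_option autoImplicit false

open NumberField IsDedekindDomain UniqueFactorizationMonoid
open CM27 CMT CF
open scoped ComplexConjugate Classical

namespace NAB

/-! ## [NAB-EU5] the function `psi` (file NAB/EU5.lean) -/

section
variable (F : IntermediateField ℚ ℂ) [NumberField F] (hw : w ∈ F)
include hw

theorem above_iff_dvd (b : Eis) (hb : Prime b) (v : HeightOneSpectrum (𝓞 F))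
    (hv : v ∈ above F b) (a : Eis) : eF F hw a ∈ v.asIdeal ↔ b ∣ a := by
  haveI := eis_isDomain
  haveI := eis_pid
  have h1 : eF F hw b ∈ v.asIdeal := (mem_above F hw v b).1 hv
  constructor
  · intro h
    by_contra hd
    obtain ⟨x, y, hxy⟩ := hb.irreducible.coprime_iff_not_dvd.2 hd
    apply v.isPrime.ne_top
    rw [Ideal.eq_top_iff_one, ← map_one (eF F hw), ← hxy, map_add, map_mul, map_mul]
    exact Ideal.add_mem _ (Ideal.mul_mem_left _ _ h1) (Ideal.mul_mem_left _ _ h)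
  · rintro ⟨c, rfl⟩
    rw [map_mul]
    exact Ideal.mul_mem_right _ _ h1

/-- the prime of `ℚ(ω)` below and its generator -/
theorem psi_under (φ : Eis ≃+* 𝓞 KK) (hφ : ∀ a, (((φ a : 𝓞 KK) : KK) : ℂ) = emb a)
    (v : HeightOneSpectrum (𝓞 F)) (h3 : (3 : 𝓞 F) ∉ v.asIdeal) :
    letI := algK F hw
    ∃ b : Eis, Primary b ∧ Prime b ∧ v ∈ above F b ∧
      v.asIdeal.under (𝓞 KK) = Ideal.span {φ b} := by
  letI := algK F hw
  set v₀ : HeightOneSpectrum (𝓞 KK) := ⟨v.asIdeal.under (𝓞 KK), inferInstance,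
    Ideal.under_ne_bot _ v.ne_bot⟩ with hv₀
  have h30 : (3 : 𝓞 KK) ∉ v₀.asIdeal := by
    intro h
    apply h3
    have h1 : (3 : 𝓞 KK) ∈ v.asIdeal.under (𝓞 KK) := h
    rw [Ideal.under_def, Ideal.mem_comap, map_ofNat] at h1
    exact h1
  obtain ⟨b, hb1, hb2, hb3⟩ := d2_gen φ v₀ h30
  have halg : ∀ a : Eis, algebraMap (𝓞 KK) (𝓞 F) (φ a) = eF F hw a := by
    intro a
    ext
    exact hφ a
  refine ⟨b, hb1, hb2, ?_, ?_⟩
  · rw [mem_above F hw]
    have h1 : φ b ∈ v.asIdeal.under (𝓞 KK) := (hb3 b).2 dvd_rfl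
    rw [Ideal.under_def, Ideal.mem_comap, halg] at h1
    exact h1
  · ext x
    rw [Ideal.mem_span_singleton]
    have h1 := hb3 (φ.symm x)
    rw [φ.apply_symm_apply] at h1
    constructor
    · intro h
      obtain ⟨c, hc⟩ := h1.1 h
      exact ⟨φ c, by rw [← map_mul, ← hc, φ.apply_symm_apply]⟩
    · rintro ⟨c, hc⟩
      exact h1.2 ⟨φ.symm c, by rw [hc, map_mul, φ.symm_apply_apply]⟩

theorem card_KK (φ : Eis ≃+* 𝓞 KK) (b : Eis) :
    Ideal.absNorm (Ideal.span {φ b}) = b.norm.natAbs := by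
  rw [← p4_card b, Ideal.absNorm_apply, Submodule.cardQuot_apply]
  refine (Nat.card_congr (Ideal.quotientEquiv (Ideal.span {b}) (Ideal.span {φ b}) φ ?_).toEquiv).symm
  rw [Ideal.map_span, Set.image_singleton]
  rfl

/-- the norm of a prime to `ℚ(ω)` -/
theorem psi_data (φ : Eis ≃+* 𝓞 KK) (hφ : ∀ a, (((φ a : 𝓞 KK) : KK) : ℂ) = emb a)
    (v : HeightOneSpectrum (𝓞 F)) (h3 : (3 : 𝓞 F) ∉ v.asIdeal) :
    letI := algK F hw
    ∃ (b : Eis) (f : ℕ), Primary b ∧ Prime b ∧ v ∈ above F b ∧ 0 < f ∧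
      Nat.card (𝓞 F ⧸ v.asIdeal) = b.norm.natAbs ^ f ∧
      Ideal.relNorm (𝓞 KK) v.asIdeal = Ideal.span {φ (b ^ f)} := by
  letI := algK F hw
  haveI := d2_tower F hw
  haveI := d2_finite F hw
  obtain ⟨b, hb1, hb2, hb3, hb4⟩ := psi_under F hw φ hφ v h3
  haveI := v.isMaximal
  have hmax : (v.asIdeal.under (𝓞 KK)).IsMaximal :=
    Ideal.IsMaximal.under (𝓞 KK) v.asIdeal
  have hlies : v.asIdeal.LiesOver (v.asIdeal.under (𝓞 KK)) := ⟨rfl⟩
  have h1 := Ideal.relNorm_eq_pow_of_isMaximal v.asIdeal (v.asIdeal.under (𝓞 KK))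
  have h2 : 0 < v.asIdeal.inertiaDeg (𝓞 KK) := Ideal.inertiaDeg_pos _ _
  have h4 := Ideal.absNorm_relNorm (R := 𝓞 KK) (S := 𝓞 F) v.asIdeal
  rw [h1, hb4, map_pow, card_KK F hw φ b] at h4
  refine ⟨b, v.asIdeal.inertiaDeg (𝓞 KK), hb1, hb2, hb3, h2, ?_, ?_⟩
  · rw [h4, Ideal.absNorm_apply, Submodule.cardQuot_apply]
  · rw [h1, hb4, Ideal.span_singleton_pow, map_pow]

/-- uniqueness of the data in the definition of `psiv` -/
theorem psiv_eq (v : HeightOneSpectrum (𝓞 F)) (b : Eis) (f : ℕ) (hb : Primary b) (hbp : Prime b)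
    (hv : v ∈ above F b) (hf : 0 < f) (hc : Nat.card (𝓞 F ⧸ v.asIdeal) = b.norm.natAbs ^ f) :
    psiv F v = b ^ f := by
  haveI := eis_isDomain
  have hex : ∃ x : Eis, ∃ (b : Eis) (f : ℕ), Primary b ∧ Prime b ∧ v ∈ above F b ∧ 0 < f ∧
    Nat.card (𝓞 F ⧸ v.asIdeal) = b.norm.natAbs ^ f ∧ x = b ^ f :=
    ⟨b ^ f, b, f, hb, hbp, hv, hf, hc, rfl⟩
  rw [psiv, dif_pos hex]
  obtain ⟨b', f', hb', hbp', hv', hf', hc', hx⟩ := hex.choose_spec
  rw [hx]
  have h1 : b' = b := by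
    refine primary_eq_of_dvd hb' hbp' hb hbp ?_
    rw [← above_iff_dvd F hw b' hbp' v hv']
    exact (mem_above F hw v b).1 hv
  subst h1
  congr 1
  rw [hc] at hc'
  have h2 : 1 < b'.norm.natAbs := by
    by_contra hlt
    push Not at hlt
    interval_cases hN : b'.norm.natAbs
    · apply hbp.ne_zero
      rw [Int.natAbs_eq_zero] at hN
      by_contra h0
      exact (a1_norm_pos h0).ne' hN
    · apply hbp.not_unit
      rw [eis_isUnit_iff]
      have := norm_nonneg' b'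
      omega
  exact (Nat.pow_right_injective h2 hc').symm

theorem psiv_three (v : HeightOneSpectrum (𝓞 F)) (h3 : (3 : 𝓞 F) ∈ v.asIdeal) :
    psiv F v = 0 := by
  rw [psiv, dif_neg]
  rintro ⟨x, b, f, hb, hbp, hv, -⟩
  obtain ⟨c, hc⟩ := hb
  apply v.isPrime.ne_top
  rw [Ideal.eq_top_iff_one]
  have h1 : (1 : 𝓞 F) = eF F hw b - 3 * eF F hw c := by
    have h2 : b = 1 + 3 * c := by linear_combination hc
    have h3 := congrArg (eF F hw) h2
    rw [map_add, map_one, map_mul, map_ofNat] at h3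
    linear_combination -h3
  rw [h1]
  exact Ideal.sub_mem _ ((mem_above F hw v b).1 hv) (Ideal.mul_mem_right _ _ h3)

theorem psiv_spec (v : HeightOneSpectrum (𝓞 F)) (h3 : (3 : 𝓞 F) ∉ v.asIdeal) :
    ∃ (b : Eis) (f : ℕ), Primary b ∧ Prime b ∧ v ∈ above F b ∧ 0 < f ∧
      Nat.card (𝓞 F ⧸ v.asIdeal) = b.norm.natAbs ^ f ∧ psiv F v = b ^ f := by
  obtain ⟨φ, hφ⟩ := exists_KK
  obtain ⟨b, f, h1, h2, h4, h5, h6, -⟩ := psi_data F hw φ hφ v h3
  exact ⟨b, f, h1, h2, h4, h5, h6, psiv_eq F hw v b f h1 h2 h4 h5 h6⟩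

theorem psiv_relNorm (φ : Eis ≃+* 𝓞 KK) (hφ : ∀ a, (((φ a : 𝓞 KK) : KK) : ℂ) = emb a)
    (v : HeightOneSpectrum (𝓞 F)) (h3 : (3 : 𝓞 F) ∉ v.asIdeal) :
    letI := algK F hw
    Ideal.relNorm (𝓞 KK) v.asIdeal = Ideal.span {φ (psiv F v)} := by
  obtain ⟨b, f, h1, h2, h4, h5, h6, h7⟩ := psi_data F hw φ hφ v h3
  rw [psiv_eq F hw v b f h1 h2 h4 h5 h6]
  exact h7

theorem psiv_primary (v : HeightOneSpectrum (𝓞 F)) (h3 : (3 : 𝓞 F) ∉ v.asIdeal) :
    Primary (psiv F v) := by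
  obtain ⟨b, f, h1, -, -, -, -, h7⟩ := psiv_spec F hw v h3
  rw [h7, Primary]
  rw [Primary] at h1
  have := sub_dvd_pow_sub_pow b 1 f
  rw [one_pow] at this
  exact h1.trans this

/-- an ideal prime to `3` -/
theorem three_induction {P : Ideal (𝓞 F) → Prop} (h1 : P 1)
    (h2 : ∀ (v : HeightOneSpectrum (𝓞 F)) (I : Ideal (𝓞 F)), I ≠ 0 → (3 : 𝓞 F) ∉ v.asIdeal →
      IsCoprime I (Ideal.span {(3 : 𝓞 F)}) → P I → P (v.asIdeal * I))
    (I : Ideal (𝓞 F)) (hI : I ≠ 0) (hc : IsCoprime I (Ideal.span {(3 : 𝓞 F)})) : P I := by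
  refine ideal_induction (P := fun I => IsCoprime I (Ideal.span {(3 : 𝓞 F)}) → P I) ?_ ?_ I hI hc
  · intro _
    exact h1
  · intro v I hI ih hc
    have hc1 : IsCoprime v.asIdeal (Ideal.span {(3 : 𝓞 F)}) := hc.of_mul_left_left
    have hc2 : IsCoprime I (Ideal.span {(3 : 𝓞 F)}) := hc.of_mul_left_right
    refine h2 v I hI ?_ hc2 (ih hc2)
    intro h3
    have h4 : Ideal.span {(3 : 𝓞 F)} ≤ v.asIdeal := by
      rwa [Ideal.span_singleton_le_iff_mem]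
    have h5 := Ideal.isCoprime_iff_sup_eq.1 hc1
    rw [sup_eq_left.2 h4] at h5
    exact v.isPrime.ne_top h5

theorem psi_primary (I : Ideal (𝓞 F)) (hI : I ≠ 0)
    (hc : IsCoprime I (Ideal.span {(3 : 𝓞 F)})) : Primary (psi F I) := by
  refine three_induction F hw (P := fun I => Primary (psi F I)) ?_ ?_ I hI hc
  · rw [psi, cm_one, Primary, sub_self]
    exact dvd_zero _
  · intro v I _ h3 _ ih
    rw [psi, cm_mul, cm_prime]
    exact (psiv_primary F hw v h3).mul ih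

theorem psi_relNorm (φ : Eis ≃+* 𝓞 KK) (hφ : ∀ a, (((φ a : 𝓞 KK) : KK) : ℂ) = emb a)
    (I : Ideal (𝓞 F)) (hI : I ≠ 0) (hc : IsCoprime I (Ideal.span {(3 : 𝓞 F)})) :
    letI := algK F hw
    Ideal.relNorm (𝓞 KK) I = Ideal.span {φ (psi F I)} := by
  letI := algK F hw
  haveI := d2_tower F hw
  haveI := d2_finite F hw
  refine three_induction F hw
    (P := fun I => Ideal.relNorm (𝓞 KK) I = Ideal.span {φ (psi F I)}) ?_ ?_ I hI hc
  · rw [psi, cm_one, map_one, map_one, Ideal.span_singleton_one, Ideal.one_eq_top]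
  · intro v I _ h3 _ ih
    rw [map_mul, ih, psiv_relNorm F hw φ hφ v h3, Ideal.span_singleton_mul_span_singleton, psi,
      psi, cm_mul, cm_prime, map_mul]

/-- `|ψ(I)|² = N I` -/
theorem psi_absNorm (I : Ideal (𝓞 F)) (hI : I ≠ 0)
    (hc : IsCoprime I (Ideal.span {(3 : 𝓞 F)})) :
    (psi F I).norm.natAbs = Ideal.absNorm I := by
  letI := algK F hw
  haveI := d2_tower F hw
  haveI := d2_finite F hw
  obtain ⟨φ, hφ⟩ := exists_KK
  have h1 := psi_relNorm F hw φ hφ I hI hc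
  have h4 := Ideal.absNorm_relNorm (R := 𝓞 KK) (S := 𝓞 F) I
  rw [h1, card_KK F hw φ] at h4
  exact h4

theorem psi_mul_conj (I : Ideal (𝓞 F)) (hI : I ≠ 0)
    (hc : IsCoprime I (Ideal.span {(3 : 𝓞 F)})) :
    emb (psi F I) * conj (emb (psi F I)) = (Ideal.absNorm I : ℂ) := by
  rw [Complex.mul_conj, normSq_emb, ← psi_absNorm F hw I hI hc, Nat.cast_natAbs, abs_of_nonneg
    (norm_nonneg' _)]
  push_cast
  rfl

/-- `ψ((g)) = N(g)` if `N(g) ≡ 1 mod 3` -/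
theorem psi_span (g : 𝓞 F) (hg : g ≠ 0)
    (hc : IsCoprime (Ideal.span {g}) (Ideal.span {(3 : 𝓞 F)})) (x : Eis) (hx : Primary x)
    (hxg : letI := algK F hw; ((Algebra.norm KK (g : F) : KK) : ℂ) = emb x) :
    psi F (Ideal.span {g}) = x := by
  letI := algK F hw
  haveI := d2_tower F hw
  haveI := d2_finite F hw
  haveI := eis_isDomain
  obtain ⟨φ, hφ⟩ := exists_KK
  have hI : Ideal.span {g} ≠ 0 := by
    rw [Ne, Ideal.zero_eq_bot, Ideal.span_singleton_eq_bot]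
    exact hg
  have h1 := psi_relNorm F hw φ hφ (Ideal.span {g}) hI hc
  rw [Ideal.relNorm_singleton, Ideal.span_singleton_eq_span_singleton] at h1
  have h2 : Algebra.intNorm (𝓞 KK) (𝓞 F) g = φ x := by
    ext
    rw [hφ, ← hxg]
    have h3 := Algebra.algebraMap_intNorm (A := 𝓞 KK) (K := KK) (L := F) (B := 𝓞 F) g
    exact congrArg (fun t : KK => (t : ℂ)) h3
  rw [h2] at h1
  have h3 : Associated x (psi F (Ideal.span {g})) := by
    have h4 := h1.map (φ.symm : 𝓞 KK →* Eis)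
    simpa using h4
  obtain ⟨u, hu⟩ := h3
  have h5 := psi_primary F hw _ hI hc
  have h6 : (u : Eis) = 1 := primary_unique x u hx u.isUnit (by rw [mul_comm, hu]; exact h5)
  rw [← hu, h6, mul_one]

end

end NAB
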