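import Pool.Agent.MP_9ab903_nt.NAB.BV2
import Pool.Agent.MP_9ab903_nt.NAB.EDefs

set_option autoImplicit false

open NumberField IsDedekindDomain ArithmeticFunction Filter
open CM27
open scoped Classical Topology nonZeroDivisors

namespace NAB

/-! ## [NAB-BV3] removing Euler factors (file NAB/BV3.lean) -/

section
variable (F : Type) [Field F] [NumberField F]

theorem dvd_iff_eq (v u : HeightOneSpectrum (𝓞 F)) : v.asIdeal ∣ u.asIdeal ↔ u = v := by
  constructor
  · intro h
    rw [Ideal.dvd_iff_le] at h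
    have h1 : u.asIdeal = v.asIdeal := (u.isMaximal.eq_of_le v.isPrime.ne_top h)
    exact HeightOneSpectrum.ext h1
  · rintro rfl
    exact dvd_rfl

theorem cm_update (h : HeightOneSpectrum (𝓞 F) → ℂ) (v : HeightOneSpectrum (𝓞 F))
    (I : Ideal (𝓞 F)) :
    cm (Function.update h v 0) I = if v.asIdeal ∣ I then 0 else cm h I := by
  have hv : Prime v.asIdeal := v.prime
  have := cm_unique (fun I : Ideal (𝓞 F) => if v.asIdeal ∣ I then (0 : ℂ) else cm h I)
    (if_pos (dvd_zero _)) (by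
      rw [if_neg (fun h1 => hv.not_unit (isUnit_of_dvd_one h1)), cm_one]) (by
      intro I J
      by_cases h1 : v.asIdeal ∣ I
      · rw [if_pos (h1.mul_right J), if_pos h1, zero_mul]
      by_cases h2 : v.asIdeal ∣ J
      · rw [if_pos (h2.mul_left I), if_pos h2, mul_zero]
      · rw [if_neg h1, if_neg h2, if_neg, cm_mul]
        intro h3
        rcases hv.dvd_or_dvd h3 with h4 | h4
        · exact h1 h4
        · exact h2 h4)
  rw [congrFun this I]
  congr 1
  funext u
  rw [Function.update_apply, cm_prime]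
  by_cases h1 : u = v
  · rw [if_pos h1, if_pos ((dvd_iff_eq F v u).2 h1)]
  · rw [if_neg h1, if_neg (fun h2 => h1 ((dvd_iff_eq F v u).1 h2))]

theorem absNorm_ne_zero {I : Ideal (𝓞 F)} (h : I ≠ 0) : Ideal.absNorm I ≠ 0 :=
  fun h1 => h (Ideal.absNorm_eq_zero_iff.1 h1)

theorem itm_mul (h : HeightOneSpectrum (𝓞 F) → ℂ) (s : ℂ) (v : HeightOneSpectrum (𝓞 F))
    (J : Ideal (𝓞 F)) : itm F (cm h) s (v.asIdeal * J) =
      h v * (Ideal.absNorm v.asIdeal : ℂ) ^ (-s) * itm F (cm h) s J := by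
  have hv : v.asIdeal ≠ 0 := v.ne_bot
  by_cases hJ : J = 0
  · rw [hJ, mul_zero, itm, if_pos rfl, mul_zero]
  · rw [itm, itm, if_neg (mul_ne_zero hv hJ), if_neg hJ, cm_mul, cm_prime, map_mul, Nat.cast_mul,
      Complex.natCast_mul_natCast_cpow]
    ring

theorem summable_update (h : HeightOneSpectrum (𝓞 F) → ℂ) (s : ℂ)
    (hs : Summable (itm F (cm h) s)) (v : HeightOneSpectrum (𝓞 F)) :
    HasSum (itm F (cm (Function.update h v 0)) s)
      ((1 - h v * (Ideal.absNorm v.asIdeal : ℂ) ^ (-s)) * ∑' I, itm F (cm h) s I) := by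
  have hv : v.asIdeal ≠ 0 := v.ne_bot
  have hinj : Function.Injective (fun J : Ideal (𝓞 F) => v.asIdeal * J) :=
    fun I J hIJ => mul_left_cancel₀ hv hIJ
  have h1 : HasSum (fun J => itm F (cm h) s (v.asIdeal * J))
      (h v * (Ideal.absNorm v.asIdeal : ℂ) ^ (-s) * ∑' I, itm F (cm h) s I) := by
    have h2 := hs.hasSum.mul_left (h v * (Ideal.absNorm v.asIdeal : ℂ) ^ (-s))
    refine h2.congr_fun fun J => ?_
    rw [itm_mul]
  have h2 : HasSum (fun I => if v.asIdeal ∣ I then itm F (cm h) s I else 0)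
      (h v * (Ideal.absNorm v.asIdeal : ℂ) ^ (-s) * ∑' I, itm F (cm h) s I) := by
    rw [← hinj.hasSum_iff]
    · refine h1.congr_fun fun J => ?_
      rw [Function.comp_apply, if_pos (dvd_mul_right _ _)]
    · intro I hI
      rw [if_neg]
      rintro ⟨J, rfl⟩
      exact hI ⟨J, rfl⟩
  have h3 := hs.hasSum.sub h2
  have h4 : (∑' I, itm F (cm h) s I) - (h v * (Ideal.absNorm v.asIdeal : ℂ) ^ (-s) *
      ∑' I, itm F (cm h) s I) = (1 - h v * (Ideal.absNorm v.asIdeal : ℂ) ^ (-s)) *
        ∑' I, itm F (cm h) s I := by ring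
  rw [h4] at h3
  refine h3.congr_fun fun I => ?_
  rw [itm, itm, cm_update]
  split_ifs <;> simp

/-- the completely multiplicative function with the values at the primes of `T` replaced by `0` -/
noncomputable def kill (T : Finset (HeightOneSpectrum (𝓞 F))) (h : HeightOneSpectrum (𝓞 F) → ℂ)
    (v : HeightOneSpectrum (𝓞 F)) : ℂ := if v ∈ T then 0 else h v

theorem summable_kill (h : HeightOneSpectrum (𝓞 F) → ℂ) (s : ℂ)
    (hs : Summable (itm F (cm h) s)) (T : Finset (HeightOneSpectrum (𝓞 F))) :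
    HasSum (itm F (cm (kill F T h)) s)
      ((∏ v ∈ T, (1 - h v * (Ideal.absNorm v.asIdeal : ℂ) ^ (-s))) * ∑' I, itm F (cm h) s I) := by
  induction T using Finset.induction_on with
  | empty =>
    rw [Finset.prod_empty, one_mul]
    have h1 : kill F ∅ h = h := by
      funext v
      rw [kill, if_neg (Finset.notMem_empty v)]
    rw [h1]
    exact hs.hasSum
  | insert v T hv ih =>
    have h1 : kill F (insert v T) h = Function.update (kill F T h) v 0 := by
      funext u
      rw [kill, Function.update_apply, kill]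
      by_cases h2 : u = v
      · rw [if_pos h2, if_pos (h2 ▸ Finset.mem_insert_self v T)]
      · rw [if_neg h2]
        by_cases h3 : u ∈ T
        · rw [if_pos (Finset.mem_insert_of_mem h3), if_pos h3]
        · rw [if_neg h3, if_neg]
          rw [Finset.mem_insert]
          rintro (h4 | h4)
          · exact h2 h4
          · exact h3 h4
    have h2 : kill F T h v = h v := by rw [kill, if_neg hv]
    rw [h1, Finset.prod_insert hv, mul_assoc, ← ih.tsum_eq, ← h2]
    exact summable_update F (kill F T h) s ih.summable v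

theorem norm_cm_le (h : HeightOneSpectrum (𝓞 F) → ℂ)
    (hh : ∀ v, ‖h v‖ ^ 2 ≤ Ideal.absNorm v.asIdeal) (I : Ideal (𝓞 F)) (hI : I ≠ 0) :
    ‖cm h I‖ ^ 2 ≤ Ideal.absNorm I := by
  refine ideal_induction (P := fun I => ‖cm h I‖ ^ 2 ≤ Ideal.absNorm I) ?_ ?_ I hI
  · rw [cm_one, norm_one, one_pow]
    have : Ideal.absNorm (1 : Ideal (𝓞 F)) = 1 := by rw [map_one]
    rw [this, Nat.cast_one]
  · intro v I _ ih
    rw [cm_mul, norm_mul, mul_pow, cm_prime, map_mul, Nat.cast_mul]
    exact mul_le_mul (hh v) ih (by positivity) (by positivity)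

theorem norm_kill_le (T : Finset (HeightOneSpectrum (𝓞 F))) (h : HeightOneSpectrum (𝓞 F) → ℂ)
    (hh : ∀ v, ‖h v‖ ^ 2 ≤ Ideal.absNorm v.asIdeal) (v : HeightOneSpectrum (𝓞 F)) :
    ‖kill F T h v‖ ^ 2 ≤ Ideal.absNorm v.asIdeal := by
  rw [kill]
  split_ifs
  · rw [norm_zero, zero_pow two_ne_zero]
    exact Nat.cast_nonneg _
  · exact hh v

/-- **Removing Euler factors.** -/
theorem LSeries_kill (h : HeightOneSpectrum (𝓞 F) → ℂ)
    (hh : ∀ v, ‖h v‖ ^ 2 ≤ Ideal.absNorm v.asIdeal) (T : Finset (HeightOneSpectrum (𝓞 F))) (s : ℂ)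
    (hs : 3 / 2 < s.re) : LSeries (fun n => IL F (cm (kill F T h)) n) s =
      (∏ v ∈ T, (1 - h v * (Ideal.absNorm v.asIdeal : ℂ) ^ (-s))) *
        LSeries (fun n => IL F (cm h) n) s := by
  rw [LSeries_IL F _ (norm_cm_le F _ (norm_kill_le F T h hh)) s hs,
    LSeries_IL F _ (norm_cm_le F _ hh) s hs]
  exact (summable_kill F h s (summable_itm F _ (norm_cm_le F _ hh) s hs) T).tsum_eq

/-- complex conjugation -/
theorem IL_conj (g : Ideal (𝓞 F) → ℂ) (n : ℕ) :
    IL F (fun I => (starRingEnd ℂ) (g I)) n = (starRingEnd ℂ) (IL F g n) := by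
  rw [IL_apply, IL_apply, map_sum]

theorem LSeries_conj (g : Ideal (𝓞 F) → ℂ) (s : ℂ) :
    LSeries (fun n => IL F (fun I => (starRingEnd ℂ) (g I)) n) s =
      (starRingEnd ℂ) (LSeries (fun n => IL F g n) ((starRingEnd ℂ) s)) := by
  rw [LSeries, LSeries, Complex.conj_tsum]
  refine tsum_congr fun n => ?_
  rcases eq_or_ne n 0 with rfl | hn
  · rw [LSeries.term_zero, LSeries.term_zero, _root_.map_zero]
  · have h1 : (n : ℂ).arg ≠ Real.pi := by
      rw [Complex.natCast_arg]
      exact Real.pi_ne_zero.symm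
    rw [LSeries.term_of_ne_zero hn, LSeries.term_of_ne_zero hn, IL_conj, map_div₀,
      Complex.cpow_conj _ _ h1, Complex.conj_conj, Complex.conj_natCast]

end

end NAB
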