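import Pool.Agent.MP_9ab903_nt.NAB.A2a

/-! ## [NAB-A2d] continuity of `Tk`

On `s > ε`, `‖z‖ < R` the terms are dominated by `(R + ‖a‖)^k exp(-π ε (‖a‖ - R)²)` for `‖a‖ ≥ R` (summable);
`continuousOn_tsum` on such open sets (local property), or `ContinuousOn` at each point by dominated convergence. -/

set_option autoImplicit false

open scoped ComplexConjugate
open MeasureTheory Set Filter Topology

namespace NAB

open CM27

theorem A2d_bound (k : ℕ) {ε R : ℝ} (hε : 0 < ε) (hR : 0 ≤ R) :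
    ∃ u : Eis → ℝ, Summable u ∧ ∀ (a : Eis) (s : ℝ) (z : ℂ), ε ≤ s → ‖z‖ ≤ R →
      ‖conj (z + emb a) ^ k * ((Real.exp (-(Real.pi * s * ‖z + emb a‖ ^ 2)) : ℝ) : ℂ)‖ ≤ u a := by
  refine ⟨fun a => 2 ^ (k - 1) * (R ^ k + ‖(0 : ℂ) + emb a‖ ^ k) * (Real.exp (Real.pi * ε * R ^ 2) *
    Real.exp (-(Real.pi * (ε / 2) * ‖(0 : ℂ) + emb a‖ ^ 2))), ?_, ?_⟩
  · have h0 := (Ak_summable 0 (half_pos hε) 0).mul_left
      (2 ^ (k - 1) * R ^ k * Real.exp (Real.pi * ε * R ^ 2))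
    have hk := (Ak_summable k (half_pos hε) 0).mul_left
      (2 ^ (k - 1) * Real.exp (Real.pi * ε * R ^ 2))
    refine (h0.add hk).congr fun a => ?_
    simp only [pow_zero, one_mul]
    ring
  · intro a s z hs hz
    have hpi := Real.pi_pos
    show _ ≤ 2 ^ (k - 1) * (R ^ k + ‖(0 : ℂ) + emb a‖ ^ k) * (Real.exp (Real.pi * ε * R ^ 2) *
      Real.exp (-(Real.pi * (ε / 2) * ‖(0 : ℂ) + emb a‖ ^ 2)))
    rw [norm_mul, norm_pow, Complex.norm_conj, Complex.norm_real, Real.norm_of_nonneg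
      (Real.exp_pos _).le, zero_add]
    have h1 : ‖z + emb a‖ ≤ R + ‖emb a‖ := (norm_add_le _ _).trans (by linarith)
    have h2 : ‖z + emb a‖ ^ k ≤ 2 ^ (k - 1) * (R ^ k + ‖emb a‖ ^ k) :=
      (pow_le_pow_left₀ (norm_nonneg _) h1 k).trans (add_pow_le hR (norm_nonneg _) k)
    have h3 : ‖emb a‖ ≤ ‖z + emb a‖ + R := by
      calc ‖emb a‖ = ‖(z + emb a) - z‖ := by ring_nf
        _ ≤ ‖z + emb a‖ + ‖z‖ := norm_sub_le _ _
        _ ≤ _ := by linarith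
    have h4 : ‖emb a‖ ^ 2 ≤ 2 * ‖z + emb a‖ ^ 2 + 2 * R ^ 2 := by
      have := pow_le_pow_left₀ (norm_nonneg _) h3 2
      nlinarith [sq_nonneg (‖z + emb a‖ - R)]
    have h5 : Real.exp (-(Real.pi * s * ‖z + emb a‖ ^ 2)) ≤
        Real.exp (Real.pi * ε * R ^ 2) * Real.exp (-(Real.pi * (ε / 2) * ‖emb a‖ ^ 2)) := by
      rw [← Real.exp_add]
      apply Real.exp_le_exp.2
      have h6 : Real.pi * ε * ‖z + emb a‖ ^ 2 ≤ Real.pi * s * ‖z + emb a‖ ^ 2 := by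
        gcongr
      have h7 : Real.pi * (ε / 2) * ‖emb a‖ ^ 2 ≤
          Real.pi * (ε / 2) * (2 * ‖z + emb a‖ ^ 2 + 2 * R ^ 2) := by
        gcongr
      nlinarith
    exact mul_le_mul h2 h5 (Real.exp_pos _).le (by positivity)

/-- Continuity (locally uniform convergence on `s ≥ ε`, `‖z‖ ≤ R`). -/
theorem Tk_cont (k : ℕ) : ContinuousOn (fun p : ℝ × ℂ => Tk k p.1 p.2) (Ioi 0 ×ˢ univ) := by
  rintro ⟨s0, z0⟩ ⟨hs0, -⟩
  have hs0' : 0 < s0 := hs0
  obtain ⟨u, hu, hb⟩ := A2d_bound k (half_pos hs0') (R := ‖z0‖ + 1) (by positivity)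
  have hU : IsOpen (Ioi (s0 / 2) ×ˢ Metric.ball (0 : ℂ) (‖z0‖ + 1)) :=
    isOpen_Ioi.prod Metric.isOpen_ball
  have hmem : (s0, z0) ∈ Ioi (s0 / 2) ×ˢ Metric.ball (0 : ℂ) (‖z0‖ + 1) := by
    refine ⟨?_, ?_⟩
    · show s0 / 2 < s0
      linarith
    · simp
  have hc : ContinuousOn (fun p : ℝ × ℂ => Tk k p.1 p.2)
      (Ioi (s0 / 2) ×ˢ Metric.ball (0 : ℂ) (‖z0‖ + 1)) := by
    refine continuousOn_tsum (u := u) (fun a => ?_) hu ?_
    · apply Continuous.continuousOn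
      have h1 : Continuous fun p : ℝ × ℂ => p.2 + emb a := continuous_snd.add continuous_const
      have h2 : Continuous fun p : ℝ × ℂ => conj (p.2 + emb a) ^ k :=
        (Complex.continuous_conj.comp h1).pow k
      have h3 : Continuous fun p : ℝ × ℂ => Real.exp (-(Real.pi * p.1 * ‖p.2 + emb a‖ ^ 2)) :=
        Real.continuous_exp.comp (((continuous_const.mul continuous_fst).mul
          (h1.norm.pow 2)).neg)
      exact h2.mul (Complex.continuous_ofReal.comp h3)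
    · rintro a ⟨s, z⟩ ⟨hs, hz⟩
      exact hb a s z (le_of_lt hs) (by simpa using (le_of_lt (mem_ball_zero_iff.1 hz)))
  exact (hc.continuousAt (hU.mem_nhds hmem)).continuousWithinAt

end NAB
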