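import Pool.Agent.MP_9ab903_nt.NAB.A2b
import Pool.Agent.MP_9ab903_nt.NAB.A2d

/-! ## [NAB-A2c] bounds for `Tk`

From `Tk_poisson` for `s ≤ 1` (the term `b = 0` vanishes for `k ≥ 1` and is `1/(A0 s)` for `k = 0`; the others are
`≤ C s^{-k-1} ‖u‖^k e^{-π‖u‖²/s}`, `‖du b‖² ≥ 4/3`), from `Ak_bound` for `s ≥ 1`. -/

set_option autoImplicit false

open scoped ComplexConjugate
open MeasureTheory Set Filter Topology

namespace NAB

open CM27

theorem A2c_norm_du (b : Eis) : ‖du b‖ = 2 / √3 * ‖emb b‖ := by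
  rw [du, norm_div, norm_mul, norm_mul, Complex.norm_I, one_mul, Complex.norm_real,
    Real.norm_of_nonneg (Real.sqrt_nonneg 3)]
  simp only [Complex.norm_ofNat]
  ring

theorem A2c_norm_du_sq (b : Eis) : ‖du b‖ ^ 2 = 4 / 3 * ‖emb b‖ ^ 2 := by
  rw [A2c_norm_du, mul_pow, div_pow, Real.sq_sqrt (by norm_num)]
  norm_num

theorem A2c_one_le {b : Eis} (hb : b ≠ 0) : 1 ≤ ‖emb b‖ ^ 2 := by
  have h0 : emb b ≠ 0 := fun h => hb (emb_injective (by rw [h, map_zero]))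
  have h1 : 0 < ‖emb b‖ ^ 2 := by
    have := norm_pos_iff.2 h0
    positivity
  rw [norm_emb_sq] at h1 ⊢
  have h2 : 0 < b.norm := by exact_mod_cast h1
  exact_mod_cast h2

/-- polynomials against exponentials -/
theorem A2c_poly (n : ℕ) {c : ℝ} (hc : 0 < c) : ∃ M : ℝ, 0 < M ∧ ∀ x : ℝ, 0 ≤ x →
    (1 + x) ^ n * Real.exp (-(c * x)) ≤ M := by
  refine ⟨(n.factorial : ℝ) / c ^ n * Real.exp c, by positivity, fun x hx => ?_⟩
  have h1 := Real.pow_div_factorial_le_exp (c * (1 + x)) (by positivity) n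
  have h2 : (1 + x) ^ n ≤ (n.factorial : ℝ) / c ^ n * Real.exp (c * (1 + x)) := by
    rw [div_le_iff₀ (by positivity), mul_pow] at h1
    rw [div_mul_eq_mul_div, le_div_iff₀ (by positivity)]
    linarith
  calc (1 + x) ^ n * Real.exp (-(c * x))
      ≤ ((n.factorial : ℝ) / c ^ n * Real.exp (c * (1 + x))) * Real.exp (-(c * x)) :=
        mul_le_mul_of_nonneg_right h2 (Real.exp_pos _).le
    _ = (n.factorial : ℝ) / c ^ n * Real.exp c := by
        rw [mul_assoc, ← Real.exp_add]; congr 2; ring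

/-- the dual sum without the term `0` -/
theorem A2c_dual (k : ℕ) : ∃ C : ℝ, 0 < C ∧ ∀ s : ℝ, 0 < s → ∀ z : ℂ,
    ‖∑' b : Eis, (if b = 0 then (0 : ℂ) else conj (du b) ^ k
      * ((Real.exp (-(Real.pi * ‖du b‖ ^ 2 / s)) : ℝ) : ℂ)
      * Complex.exp (2 * Real.pi * Complex.I * ((z * conj (du b)).re : ℂ)))‖
      ≤ C * (1 + s) ^ (k + 1) * Real.exp (-(2 * Real.pi / 3 / s)) := by
  obtain ⟨C, hC, hb⟩ := Ak_bound k
  refine ⟨(2 / √3) ^ k * (C * 2 ^ (k + 1)), by positivity, fun s hs z => ?_⟩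
  have hs' : 0 < 2 / (3 * s) := by positivity
  have hsum := (Ak_summable k hs' 0).mul_left ((2 / √3) ^ k * Real.exp (-(2 * Real.pi / 3 / s)))
  have hle : ∀ b : Eis, ‖(if b = 0 then (0 : ℂ) else conj (du b) ^ k
      * ((Real.exp (-(Real.pi * ‖du b‖ ^ 2 / s)) : ℝ) : ℂ)
      * Complex.exp (2 * Real.pi * Complex.I * ((z * conj (du b)).re : ℂ)))‖ ≤
      (2 / √3) ^ k * Real.exp (-(2 * Real.pi / 3 / s)) * (‖(0 : ℂ) + emb b‖ ^ k *
        Real.exp (-(Real.pi * (2 / (3 * s)) * ‖(0 : ℂ) + emb b‖ ^ 2))) := by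
    intro b
    by_cases h0 : b = 0
    · rw [if_pos h0, norm_zero]; positivity
    rw [if_neg h0, norm_mul, norm_mul, norm_pow, Complex.norm_conj, Complex.norm_real,
      Real.norm_of_nonneg (Real.exp_pos _).le, zero_add]
    have h1 : ‖Complex.exp (2 * Real.pi * Complex.I * ((z * conj (du b)).re : ℂ))‖ = 1 := by
      rw [show (2 * Real.pi * Complex.I * ((z * conj (du b)).re : ℂ)) =
        ((2 * Real.pi * (z * conj (du b)).re : ℝ) : ℂ) * Complex.I by push_cast; ring]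
      exact Complex.norm_exp_ofReal_mul_I _
    rw [h1, mul_one, A2c_norm_du_sq, A2c_norm_du, mul_pow]
    have h2 : Real.exp (-(Real.pi * (4 / 3 * ‖emb b‖ ^ 2) / s)) ≤
        Real.exp (-(2 * Real.pi / 3 / s)) * Real.exp (-(Real.pi * (2 / (3 * s)) * ‖emb b‖ ^ 2)) := by
      rw [← Real.exp_add]
      apply Real.exp_le_exp.2
      have h3 := A2c_one_le h0
      have hpi := Real.pi_pos
      have e1 : -(Real.pi * (4 / 3 * ‖emb b‖ ^ 2) / s) = Real.pi * (2 / (3 * s)) *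
          (-(2 * ‖emb b‖ ^ 2)) := by
        field_simp; ring
      have e2 : -(2 * Real.pi / 3 / s) + -(Real.pi * (2 / (3 * s)) * ‖emb b‖ ^ 2) =
          Real.pi * (2 / (3 * s)) * (-(1 + ‖emb b‖ ^ 2)) := by
        field_simp; ring
      rw [e1, e2]
      apply mul_le_mul_of_nonneg_left _ (by positivity)
      linarith
    calc (2 / √3) ^ k * ‖emb b‖ ^ k * Real.exp (-(Real.pi * (4 / 3 * ‖emb b‖ ^ 2) / s))
        ≤ (2 / √3) ^ k * ‖emb b‖ ^ k * (Real.exp (-(2 * Real.pi / 3 / s)) *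
            Real.exp (-(Real.pi * (2 / (3 * s)) * ‖emb b‖ ^ 2))) :=
          mul_le_mul_of_nonneg_left h2 (by positivity)
      _ = _ := by ring
  refine (tsum_of_norm_bounded hsum.hasSum hle).trans ?_
  rw [tsum_mul_left]
  have h4 : (∑' b : Eis, ‖(0 : ℂ) + emb b‖ ^ k *
        Real.exp (-(Real.pi * (2 / (3 * s)) * ‖(0 : ℂ) + emb b‖ ^ 2))) = Ak k (2 / (3 * s)) 0 := rfl
  rw [h4]
  have h5 := hb (2 / (3 * s)) hs' 0
  have h6 : (1 + 1 / (2 / (3 * s))) ^ (k + 1) ≤ 2 ^ (k + 1) * (1 + s) ^ (k + 1) := by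
    rw [← mul_pow]
    apply pow_le_pow_left₀ (by positivity)
    have : 1 / (2 / (3 * s)) = 3 * s / 2 := by field_simp
    rw [this]
    linarith
  calc (2 / √3) ^ k * Real.exp (-(2 * Real.pi / 3 / s)) * Ak k (2 / (3 * s)) 0
      ≤ (2 / √3) ^ k * Real.exp (-(2 * Real.pi / 3 / s)) * (C * (2 ^ (k + 1) * (1 + s) ^ (k + 1))) := by
        apply mul_le_mul_of_nonneg_left _ (by positivity)
        exact h5.trans (mul_le_mul_of_nonneg_left h6 hC.le)
    _ = _ := by ring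

theorem A2c_term_summable (k : ℕ) {s : ℝ} (hs : 0 < s) (z : ℂ) :
    Summable fun b : Eis => conj (du b) ^ k
      * ((Real.exp (-(Real.pi * ‖du b‖ ^ 2 / s)) : ℝ) : ℂ)
      * Complex.exp (2 * Real.pi * Complex.I * ((z * conj (du b)).re : ℂ)) := by
  refine Summable.of_norm_bounded (du_summable k hs) fun b => ?_
  rw [norm_mul, norm_mul, norm_pow, Complex.norm_conj, Complex.norm_real,
    Real.norm_of_nonneg (Real.exp_pos _).le]
  have h1 : ‖Complex.exp (2 * Real.pi * Complex.I * ((z * conj (du b)).re : ℂ))‖ = 1 := by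
    rw [show (2 * Real.pi * Complex.I * ((z * conj (du b)).re : ℂ)) =
      ((2 * Real.pi * (z * conj (du b)).re : ℝ) : ℂ) * Complex.I by push_cast; ring]
    exact Complex.norm_exp_ofReal_mul_I _
  rw [h1, mul_one]

theorem A2c_split (k : ℕ) {s : ℝ} (hs : 0 < s) (z : ℂ) :
    ∑' b : Eis, conj (du b) ^ k
      * ((Real.exp (-(Real.pi * ‖du b‖ ^ 2 / s)) : ℝ) : ℂ)
      * Complex.exp (2 * Real.pi * Complex.I * ((z * conj (du b)).re : ℂ)) =
    (0 : ℂ) ^ k + ∑' b : Eis, (if b = 0 then (0 : ℂ) else conj (du b) ^ k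
      * ((Real.exp (-(Real.pi * ‖du b‖ ^ 2 / s)) : ℝ) : ℂ)
      * Complex.exp (2 * Real.pi * Complex.I * ((z * conj (du b)).re : ℂ))) := by
  classical
  rw [(A2c_term_summable k hs z).tsum_eq_add_tsum_ite (0 : Eis)]
  congr 1
  have h0 : du 0 = 0 := by simp [du]
  rw [h0]
  simp

theorem A0_pos' : 0 < A0 := by
  rw [A0]; positivity

theorem T0_small : ∃ C κ : ℝ, 0 < C ∧ 0 < κ ∧ ∀ s : ℝ, 0 < s → ∀ z : ℂ,
    ‖(s : ℂ) * Tk 0 s z - 1 / (A0 : ℂ)‖ ≤ C * (1 + s) * Real.exp (-(κ / s)) := by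
  obtain ⟨C, hC, hb⟩ := A2c_dual 0
  have hA := A0_pos'
  refine ⟨C / A0, 2 * Real.pi / 3, by positivity, by positivity, fun s hs z => ?_⟩
  rw [Tk_poisson 0 (by norm_num) hs z, A2c_split 0 hs z]
  have hA' : (A0 : ℂ) ≠ 0 := by exact_mod_cast hA.ne'
  have hs' : (s : ℂ) ≠ 0 := by exact_mod_cast hs.ne'
  have h1 := hb s hs z
  set S := ∑' b : Eis, (if b = 0 then (0 : ℂ) else conj (du b) ^ 0
      * ((Real.exp (-(Real.pi * ‖du b‖ ^ 2 / s)) : ℝ) : ℂ)
      * Complex.exp (2 * Real.pi * Complex.I * ((z * conj (du b)).re : ℂ))) with hS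
  have e : (s : ℂ) * (1 / ((A0 : ℂ) * s) * (-Complex.I / s) ^ 0 * ((0 : ℂ) ^ 0 + S)) - 1 / (A0 : ℂ)
      = S / A0 := by
    rw [pow_zero, pow_zero]
    field_simp
    ring
  rw [e, norm_div, Complex.norm_real, Real.norm_of_nonneg hA.le, div_le_iff₀ hA]
  refine h1.trans (le_of_eq ?_)
  field_simp
  ring

theorem Tk_small (k : ℕ) (hk : k = 1 ∨ k = 2) : ∃ C κ : ℝ, 0 < C ∧ 0 < κ ∧
    ∀ s : ℝ, 0 < s → ∀ z : ℂ, ‖Tk k s z‖ ≤ C * Real.exp (-(κ / s)) := by
  obtain ⟨C, hC, hb⟩ := A2c_dual k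
  have hA := A0_pos'
  obtain ⟨M, hM, hM'⟩ := A2c_poly (k + 1) (c := Real.pi / 3) (by positivity)
  refine ⟨C / A0 * M, Real.pi / 3, by positivity, by positivity, fun s hs z => ?_⟩
  have hk0 : k ≠ 0 := by omega
  rw [Tk_poisson k (by omega) hs z, A2c_split k hs z, zero_pow hk0, zero_add]
  have h1 := hb s hs z
  rw [norm_mul, norm_mul, norm_pow, norm_div, norm_div, norm_mul, norm_neg, Complex.norm_I,
    norm_one, Complex.norm_real, Complex.norm_real, Real.norm_of_nonneg hA.le,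
    Real.norm_of_nonneg hs.le]
  have h2 := hM' (1 / s) (by positivity)
  have e1 : (1 + s) ^ (k + 1) = s ^ (k + 1) * (1 + 1 / s) ^ (k + 1) := by
    rw [← mul_pow]; congr 1; field_simp; ring
  have e2 : Real.exp (-(2 * Real.pi / 3 / s)) =
      Real.exp (-(Real.pi / 3 * (1 / s))) * Real.exp (-(Real.pi / 3 / s)) := by
    rw [← Real.exp_add]; congr 1; ring
  calc 1 / (A0 * s) * (1 / s) ^ k * ‖∑' b : Eis, (if b = 0 then (0 : ℂ) else conj (du b) ^ k
      * ((Real.exp (-(Real.pi * ‖du b‖ ^ 2 / s)) : ℝ) : ℂ)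
      * Complex.exp (2 * Real.pi * Complex.I * ((z * conj (du b)).re : ℂ)))‖
      ≤ 1 / (A0 * s) * (1 / s) ^ k * (C * (1 + s) ^ (k + 1) * Real.exp (-(2 * Real.pi / 3 / s))) :=
        mul_le_mul_of_nonneg_left h1 (by positivity)
    _ = C / A0 * ((1 + 1 / s) ^ (k + 1) * Real.exp (-(Real.pi / 3 * (1 / s)))) *
          Real.exp (-(Real.pi / 3 / s)) := by
        rw [e1, e2, pow_succ s k, one_div_pow]
        field_simp
    _ ≤ C / A0 * M * Real.exp (-(Real.pi / 3 / s)) := by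
        apply mul_le_mul_of_nonneg_right _ (Real.exp_pos _).le
        exact mul_le_mul_of_nonneg_left h2 (by positivity)

/-- Both ends. -/
theorem Tk_off (k : ℕ) (hk : k = 1 ∨ k = 2) (z : ℂ) (hz : z ∉ Set.range emb) :
    ∃ C κ : ℝ, 0 < C ∧ 0 < κ ∧ ∀ s : ℝ, 0 < s →
      ‖Tk k s z‖ ≤ C * Real.exp (-(κ * (s + 1 / s))) := by
  obtain ⟨C1, κ1, hC1, hκ1, h1⟩ := Tk_small k hk
  obtain ⟨C2, κ2, hC2, hκ2, h2⟩ := Ak_bound_off k z hz
  refine ⟨max C1 (C2 * 2 ^ (k + 1)) * Real.exp (min κ1 κ2), min κ1 κ2,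
    mul_pos (lt_of_lt_of_le hC1 (le_max_left _ _)) (Real.exp_pos _), lt_min hκ1 hκ2,
    fun s hs => ?_⟩
  have hm1 := min_le_left κ1 κ2
  have hm2 := min_le_right κ1 κ2
  have hm0 : 0 < min κ1 κ2 := lt_min hκ1 hκ2
  set κ := min κ1 κ2 with hκ
  have hM1 := le_max_left C1 (C2 * 2 ^ (k + 1))
  have hM2 := le_max_right C1 (C2 * 2 ^ (k + 1))
  set M := max C1 (C2 * 2 ^ (k + 1)) with hM
  have hM0 : 0 < M := lt_of_lt_of_le hC1 hM1
  rw [mul_assoc, ← Real.exp_add]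
  have hs1 : 0 < 1 / s := by positivity
  rcases le_total s 1 with h | h
  · refine (h1 s hs z).trans ?_
    apply mul_le_mul hM1 _ (Real.exp_pos _).le hM0.le
    apply Real.exp_le_exp.2
    have : κ / s ≤ κ1 / s := by gcongr
    have h3 : κ * s ≤ κ := by nlinarith
    have h4 : κ * (s + 1 / s) = κ * s + κ / s := by ring
    rw [h4]
    linarith
  · refine ((norm_Tk_le k hs z).trans (h2 s hs)).trans ?_
    have h5 : 1 / s ≤ 1 := by rw [div_le_one hs]; exact h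
    have h6 : (1 + 1 / s) ^ (k + 1) ≤ 2 ^ (k + 1) := by
      apply pow_le_pow_left₀ (by positivity)
      linarith
    have h7 : C2 * (1 + 1 / s) ^ (k + 1) ≤ M :=
      (mul_le_mul_of_nonneg_left h6 hC2.le).trans hM2
    apply mul_le_mul h7 _ (Real.exp_pos _).le hM0.le
    apply Real.exp_le_exp.2
    have h8 : κ * s ≤ κ2 * s := by gcongr
    have h9 : κ * (1 / s) ≤ κ := by nlinarith
    have h4 : κ * (s + 1 / s) = κ * s + κ * (1 / s) := by ring
    rw [h4]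
    linarith

theorem Tk_int (k : ℕ) (hk : k = 1 ∨ k = 2) (z : ℂ) (hz : z ∉ Set.range emb) :
    IntegrableOn (fun u : ℝ => Tk k u z) (Ioi 0) := by
  obtain ⟨C, κ, hC, hκ, h⟩ := Tk_off k hk z hz
  have hcont : ContinuousOn (fun u : ℝ => Tk k u z) (Ioi 0) := by
    have h1 : ContinuousOn (fun u : ℝ => (u, z)) (Ioi 0) := by fun_prop
    have h2 : MapsTo (fun u : ℝ => (u, z)) (Ioi (0 : ℝ)) (Ioi (0 : ℝ) ×ˢ (univ : Set ℂ)) :=
      fun u hu => ⟨hu, mem_univ _⟩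
    have h3 := Tk_cont k
    have h4 := ContinuousOn.comp (g := fun p : ℝ × ℂ => Tk k p.1 p.2) h3 h1 h2
    exact h4
  have hint : IntegrableOn (fun u : ℝ => C * Real.exp (-κ * u)) (Ioi 0) :=
    (exp_neg_integrableOn_Ioi 0 hκ).const_mul C
  refine Integrable.mono' hint (hcont.aestronglyMeasurable measurableSet_Ioi) ?_
  refine (ae_restrict_iff' measurableSet_Ioi).2 (Filter.Eventually.of_forall fun u hu => ?_)
  have hu0 : 0 < u := hu
  refine (h u hu0).trans ?_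
  apply mul_le_mul_of_nonneg_left _ hC.le
  apply Real.exp_le_exp.2
  have : 0 < κ * (1 / u) := by positivity
  nlinarith

theorem E1_per (z : ℂ) (a : Eis) : E1 (z + emb a) = E1 z := by
  simp only [E1, Tk_per]

theorem E1_neg (z : ℂ) : E1 (-z) = - E1 z := by
  simp only [E1, Tk_neg, pow_one, neg_mul, one_mul, integral_neg, mul_neg]

theorem Q2_per (z : ℂ) (a : Eis) : Q2 (z + emb a) = Q2 z := by
  simp only [Q2, Tk_per]

theorem Q2_neg (z : ℂ) : Q2 (-z) = Q2 z := by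
  simp only [Q2, Tk_neg, even_two, Even.neg_pow, one_pow, one_mul]

end NAB
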