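import Pool.Agent.MP_9ab903_nt.NAB.QR15
import Pool.Agent.MP_9ab903_nt.CF.D1
import Pool.Agent.MP_9ab903_nt.NAB.EU5

set_option autoImplicit false

open NumberField IsDedekindDomain UniqueFactorizationMonoid
open CM27 CMT CF
open scoped Classical ComplexConjugate

namespace NAB

/-! ## [NAB-QR16] quadratic reciprocity in quadratic extensions of `ℚ(ω)` (file NAB/QR16.lean) -/

/-- `2` is unramified if the discriminant is odd -/
theorem two_unram_of_odd (F : Type) [Field F] [NumberField F] (hd : Odd (discr F).natAbs)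
    (v : HeightOneSpectrum (𝓞 F)) (hv : (2 : 𝓞 F) ∈ v.asIdeal) : (2 : 𝓞 F) ∉ v.asIdeal ^ 2 := by
  have hd' : ¬ (2 : ℤ) ∣ discr F := by
    intro h
    have h1 : 2 ∣ (discr F).natAbs := by
      have := Int.natAbs_dvd_natAbs.2 h
      simpa using this
    rw [Nat.odd_iff] at hd
    omega
  intro h
  have h5 := (not_dvd_discr_iff_forall_mem F (𝓞 F) Int.prime_two).1 hd' v.asIdeal v.isPrime
    (by exact_mod_cast hv)
  have h1 := Ideal.ramificationIdx_eq_one v.asIdeal ℤ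
  have hmap : ∀ I : Ideal (𝓞 F), (2 : 𝓞 F) ∈ I →
      (Ideal.span {(2 : ℤ)}).map (algebraMap ℤ (𝓞 F)) ≤ I := by
    intro I hI
    rw [Ideal.map_span, Set.image_singleton, Ideal.span_singleton_le_iff_mem, map_ofNat]
    exact hI
  have hlo : v.asIdeal.LiesOver (Ideal.span {(2 : ℤ)}) :=
    (Ideal.liesOver_span_iff v.isPrime.ne_top Int.prime_two).2 (by rw [map_ofNat]; exact hv)
  have h20 : Ideal.span {(2 : ℤ)} ≠ ⊥ := by
    rw [Ne, Ideal.span_singleton_eq_bot]
    norm_num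
  have h2 := Ideal.ramificationIdx'_eq_ramificationIdx (Ideal.span {(2 : ℤ)}) v.asIdeal h20
  rw [h1] at h2
  exact (Ideal.ramificationIdx'_ne_one_iff (hmap _ hv)).2 (hmap _ h) h2

theorem odd_discr_KK : Odd (discr KK).natAbs := by
  rw [← Nat.not_even_iff_odd]
  intro hev
  have h3 := hev.two_dvd.trans (CM27.disc_cyclotomic_dvd 3 KK)
  have h4 := Nat.prime_two.dvd_of_dvd_pow h3
  omega

theorem quad_KK : Algebra.IsQuadraticExtension ℚ KK :=
  { finrank_eq_two' := d2_finrank_KK }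

theorem norm_KK_pos (x : KK) (hx : x ≠ 0) : 0 < Algebra.norm ℚ x := by
  have h1 := Algebra.norm_eq_prod_embeddings ℚ ℂ x
  let f : KK →ₐ[ℚ] ℂ := KK.val
  let g : KK →ₐ[ℚ] ℂ := ((starRingEnd ℂ).comp (KK.val : KK →+* ℂ)).toRatAlgHom
  have hwK : w ∈ KK := IntermediateField.mem_adjoin_simple_self ℚ w
  have hfg : f ≠ g := by
    intro h
    have h2 := DFunLike.congr_fun h ⟨w, hwK⟩
    have h3 : w = conj w := h2
    have h4 : w.im = 0 := by
      have h5 := congrArg Complex.im h3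
      rw [Complex.conj_im] at h5
      linarith
    have h6 := w_sq
    have h7 := congrArg Complex.re h6
    simp only [Complex.add_re, Complex.mul_re, Complex.one_re, Complex.neg_re, Complex.sub_re,
      h4, pow_two, mul_zero, sub_zero] at h7
    nlinarith [sq_nonneg (2 * w.re + 1)]
  have hcard : Fintype.card (KK →ₐ[ℚ] ℂ) = 2 := by
    rw [AlgHom.card]
    exact d2_finrank_KK
  have huniv : (Finset.univ : Finset (KK →ₐ[ℚ] ℂ)) = {f, g} := by
    symm
    apply Finset.eq_univ_of_card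
    rw [hcard, Finset.card_pair hfg]
  rw [huniv, Finset.prod_pair hfg] at h1
  have h2 : f x * g x = ((‖(x : ℂ)‖ ^ 2 : ℝ) : ℂ) := by
    change (x : ℂ) * conj (x : ℂ) = _
    rw [Complex.mul_conj, Complex.normSq_eq_norm_sq]
  rw [h2] at h1
  have h1' : ((Algebra.norm ℚ x : ℚ) : ℂ) = ((‖(x : ℂ)‖ ^ 2 : ℝ) : ℂ) := h1
  have h3 : ((Algebra.norm ℚ x : ℚ) : ℝ) = ‖(x : ℂ)‖ ^ 2 := by exact_mod_cast h1'
  have h4 : 0 < ‖(x : ℂ)‖ := by
    rw [norm_pos_iff]
    exact_mod_cast hx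
  have h5 : (0 : ℝ) < ((Algebra.norm ℚ x : ℚ) : ℝ) := by
    rw [h3]
    positivity
  exact_mod_cast h5

/-- reciprocity in `ℚ(ω)` -/
theorem RA_KK : RA KK (fun _ => True) := by
  haveI := quad_KK
  haveI := rat_pid
  obtain ⟨S⟩ := exists_Sig ℚ KK
  refine RA_ext S _ RA_rat ?_ (two_unram_of_odd KK odd_discr_KK)
  intro β hβ
  change 0 < ((Nm ℚ KK β : 𝓞 ℚ) : ℚ)
  rw [coe_Nm]
  exact norm_KK_pos _ (RingOfIntegers.coe_ne_zero_iff.2 hβ)

theorem KK_pid : IsPrincipalIdealRing (𝓞 KK) := by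
  haveI := eis_pid
  obtain ⟨φ, -⟩ := exists_KK
  exact IsPrincipalIdealRing.of_surjective (φ : Eis →+* 𝓞 KK) φ.surjective

section
variable (F : IntermediateField ℚ ℂ) [NumberField F] (hw : w ∈ F)
  (h : Module.finrank ℚ F = 2 ^ (1 + 1)) (hodd : Odd (discr F).natAbs)
include hw h hodd

/-- reciprocity in a quadratic extension of `ℚ(ω)` of odd discriminant -/
theorem RA_F : RA F (fun _ => True) := by
  letI := algK F hw
  haveI : Algebra.IsQuadraticExtension KK F :=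
    { finrank_eq_two' := by
        have h1 := d2_finrank F hw
        rw [h] at h1
        omega }
  haveI := KK_pid
  obtain ⟨S⟩ := exists_Sig KK F
  exact RA_ext S _ RA_KK (fun _ _ => trivial) (two_unram_of_odd F hodd)

/-- **Quadratic reciprocity.** -/
theorem chi_recip (α g : 𝓞 F) (hg : g ≠ 0) (hc : Cop α g) (h4 : (4 : 𝓞 F) ∣ α - 1) :
    chi (α : F) (Ideal.span {g}) = chi (g : F) (Ideal.span {α}) :=
  RA_F F hw h hodd α g (ne_zero_of_cop_two (cop_two_of_four h4)) hg hc (adm_of_four h4)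
    (Or.inl trivial)

/-- `χ_d((g)) = 1` for `g ≡ 1 mod d` -/
theorem chi_one (d : 𝓞 F) (h4 : (4 : 𝓞 F) ∣ d - 1) (g : 𝓞 F) (hg : g ≠ 0) (hgd : d ∣ g - 1) :
    chi (d : F) (Ideal.span {g}) = 1 := by
  have hdvd : ∀ w : HeightOneSpectrum (𝓞 F), d ∈ w.asIdeal → g - 1 ∈ w.asIdeal := by
    intro w hd
    obtain ⟨t, ht⟩ := hgd
    rw [ht]
    exact Ideal.mul_mem_right _ _ hd
  have hc : Cop d g := fun w hd hgw => not_mem_of_sub (x := g) (hdvd w hd) hgw
  have hd2 : Cop d 2 := cop_two_of_four h4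
  rw [chi_recip F hw h hodd d g hg hc h4]
  have h1 : Xg g d = Xg 1 d := Xg_congr_left g 1 d hc.symm hd2 hgd
  have h2 : Xg (1 : 𝓞 F) d = 1 := by
    refine Xg_eq_one _ _ (ne_zero_of_cop_two hd2) fun w _ => ?_
    have h3 := symb_square (1 : 𝓞 F) one_ne_zero w
    rw [one_pow] at h3
    exact h3
  exact h1.trans h2

/-- `χ_d((g))` depends only on `g mod d` -/
theorem chi_congr (d : 𝓞 F) (h4 : (4 : 𝓞 F) ∣ d - 1) (g g' : 𝓞 F) (hg : g ≠ 0) (hg' : g' ≠ 0)
    (hc : Cop d g) (hgd : d ∣ g - g') :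
    chi (d : F) (Ideal.span {g}) = chi (d : F) (Ideal.span {g'}) := by
  have hc' : Cop d g' := by
    intro w hd hgw
    apply hc w hd
    obtain ⟨t, ht⟩ := hgd
    have h5 : g = d * t + g' := by linear_combination ht
    rw [h5]
    exact Ideal.add_mem _ (Ideal.mul_mem_right _ _ hd) hgw
  have hd2 : Cop d 2 := cop_two_of_four h4
  rw [chi_recip F hw h hodd d g hg hc h4, chi_recip F hw h hodd d g' hg' hc' h4]
  exact Xg_congr_left g g' d hc.symm hd2 hgd

end

end NAB
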