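import Pool.Agent.MP_9ab903_nt.NAB.A9

/-! ## [NAB-A9b] duplication formula for `Q2`

`Q2_two`: `x = (z, z)`, the closed chain `ℓ₀ = (1,0), ℓ₁ = (0,1), ℓ₂ = (-1,-1), ℓ₃ = ℓ₀, ..`: all `det (ℓ_i, ℓ_{i+1}) = 1`,
`ℓ_{i+1} = -ℓ_i - ℓ_{i-1}`; flags `g_i = (ℓ_i; ℓ_{i+1})`; `S(fl g_i, fl (Sw g_i)) → -1/2 E1(ℓ_i x) E1(ℓ_{i+1} x)`,
`S(fl (Sw g_i), fl g_{i+1})`: `Sw g_i = (ℓ_{i+1}; ℓ_i)`, `g_{i+1} = (ℓ_{i+1}; -(ℓ_i + ℓ_{i+1}))`, i.e. up to the unit `-1` the step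
`Ho 1` at the cusp `ℓ_{i+1}`: limit `-det(Sw g_i)/2 Q2(ℓ_{i+1}x) = +1/2 Q2(ℓ_{i+1} x)`. The total is `S(fl g_0, fl g_0) = 0`:
`-1/2 [E1(z)² + 2 E1(z) E1(-2z)] + 1/2 [2 Q2(z) + Q2(-2z)] = 0`. -/

set_option autoImplicit false

open scoped ComplexConjugate
open MeasureTheory Set Filter Topology

namespace NAB

open CM27

/-- the three flags -/
def a9b_g0 : Mt := !![1, 0; 0, 1]

/-- the three flags -/
def a9b_g1 : Mt := !![0, 1; -1, -1]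

/-- the three flags -/
def a9b_g2 : Mt := !![-1, -1; 1, 0]

theorem a9b_h0 : Di 1 (-1) * (Ho 1 * (Sw * a9b_g0)) = a9b_g1 := by
  simp [Di, Ho, Sw, a9b_g0, a9b_g1]

theorem a9b_h1 : Di 1 (-1) * (Ho 1 * (Sw * a9b_g1)) = a9b_g2 := by
  simp [Di, Ho, Sw, a9b_g1, a9b_g2]

theorem a9b_h2 : Di 1 (-1) * (Ho 1 * (Sw * a9b_g2)) = a9b_g0 := by
  simp [Di, Ho, Sw, a9b_g2, a9b_g0]

theorem a9b_d0 : a9b_g0.det = 1 := by simp [a9b_g0, Matrix.det_fin_two_of]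
theorem a9b_d1 : a9b_g1.det = 1 := by simp [a9b_g1, Matrix.det_fin_two_of]
theorem a9b_d2 : a9b_g2.det = 1 := by simp [a9b_g2, Matrix.det_fin_two_of]

theorem a9b_dS (g : Mt) : (Sw * g).det = - g.det := by
  rw [Matrix.det_mul]
  simp [Sw, Matrix.det_fin_two_of]

/-- one link of the chain -/
theorem a9b_link (x : ℂ × ℂ) (g g' : Mt) (hg : g.det = 1)
    (hgg : Di 1 (-1) * (Ho 1 * (Sw * g)) = g') (h1 : (mv g x).1 ∉ Set.range emb)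
    (h2 : (mv g x).2 ∉ Set.range emb) :
    Tendsto (fun τ : ℝ => SS x (fl g τ) (fl (Sw * g) τ) + SS x (fl (Sw * g) τ) (fl g' τ)) atTop
      (𝓝 (-(1 / 2) * E1 (mv g x).1 * E1 (mv g x).2 + 1 / 2 * Q2 (mv g x).2)) := by
  have hu : IsUnit g.det := by rw [hg]; exact isUnit_one
  have huS : IsUnit (Sw * g).det := by rw [a9b_dS, hg]; exact isUnit_one.neg
  have hS1 : (mv (Sw * g) x).1 = (mv g x).2 := by
    simp [mv, Sw, Matrix.mul_apply, Fin.sum_univ_two]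
  refine Tendsto.add ?_ ?_
  · have := lim_sw x g hu h1 h2
    rw [hg, map_one, mul_one] at this
    exact this
  · have := lim_ho x (Sw * g) 1 huS (by rw [hS1]; exact h2)
    rw [a9b_dS, hg, hS1, map_neg, map_one, map_one] at this
    have h3 : -(1 / 2) * -1 * 1 * Q2 (mv g x).2 = 1 / 2 * Q2 (mv g x).2 := by ring
    rw [h3] at this
    refine this.congr fun τ => ?_
    rw [← hgg, fl_di _ isUnit_one isUnit_one.neg]

theorem Q2_two (z : ℂ) (hz : Off z) :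
    Q2 (2 * z) = -2 * Q2 z + E1 z ^ 2 - 2 * E1 z * E1 (2 * z) := by
  have hz1 : z ∉ Set.range emb := by
    rintro ⟨a, rfl⟩
    exact hz ⟨2 * a, by rw [map_mul, map_ofNat]⟩
  have hz2 : -2 * z ∉ Set.range emb := by
    rintro ⟨a, ha⟩
    exact hz ⟨-a, by rw [map_neg, ha]; ring⟩
  have hx : ((z, z) : ℂ × ℂ) ∉ L2 := by
    rintro ⟨m, hm⟩
    exact hz1 ⟨m.1, congrArg Prod.fst hm⟩
  have m01 : (mv a9b_g0 (z, z)).1 = z := by simp [mv, a9b_g0]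
  have m02 : (mv a9b_g0 (z, z)).2 = z := by simp [mv, a9b_g0]
  have m11 : (mv a9b_g1 (z, z)).1 = z := by simp [mv, a9b_g1]
  have m12 : (mv a9b_g1 (z, z)).2 = -2 * z := by simp [mv, a9b_g1]; ring
  have m21 : (mv a9b_g2 (z, z)).1 = -2 * z := by simp [mv, a9b_g2]; ring
  have m22 : (mv a9b_g2 (z, z)).2 = z := by simp [mv, a9b_g2]
  have l0 := a9b_link (z, z) a9b_g0 a9b_g1 a9b_d0 a9b_h0 (by rw [m01]; exact hz1)
    (by rw [m02]; exact hz1)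
  have l1 := a9b_link (z, z) a9b_g1 a9b_g2 a9b_d1 a9b_h1 (by rw [m11]; exact hz1)
    (by rw [m12]; exact hz2)
  have l2 := a9b_link (z, z) a9b_g2 a9b_g0 a9b_d2 a9b_h2 (by rw [m21]; exact hz2)
    (by rw [m22]; exact hz1)
  have hsum := (l0.add l1).add l2
  have hzero : Tendsto (fun _ : ℝ => (0 : ℂ)) atTop (𝓝 0) := tendsto_const_nhds
  have hev : (fun τ : ℝ => (SS (z, z) (fl a9b_g0 τ) (fl (Sw * a9b_g0) τ) +
      SS (z, z) (fl (Sw * a9b_g0) τ) (fl a9b_g1 τ) +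
      (SS (z, z) (fl a9b_g1 τ) (fl (Sw * a9b_g1) τ) +
      SS (z, z) (fl (Sw * a9b_g1) τ) (fl a9b_g2 τ)) +
      (SS (z, z) (fl a9b_g2 τ) (fl (Sw * a9b_g2) τ) +
      SS (z, z) (fl (Sw * a9b_g2) τ) (fl a9b_g0 τ)))) =ᶠ[atTop] fun _ => 0 := by
    filter_upwards [eventually_gt_atTop (0 : ℝ)] with τ hτ
    have p0 : PD (fl a9b_g0 τ) := fl_PD (by rw [a9b_d0]; exact isUnit_one) hτ
    have p1 : PD (fl a9b_g1 τ) := fl_PD (by rw [a9b_d1]; exact isUnit_one) hτ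
    have p2 : PD (fl a9b_g2 τ) := fl_PD (by rw [a9b_d2]; exact isUnit_one) hτ
    have q0 : PD (fl (Sw * a9b_g0) τ) :=
      fl_PD (by rw [a9b_dS, a9b_d0]; exact isUnit_one.neg) hτ
    have q1 : PD (fl (Sw * a9b_g1) τ) :=
      fl_PD (by rw [a9b_dS, a9b_d1]; exact isUnit_one.neg) hτ
    have q2 : PD (fl (Sw * a9b_g2) τ) :=
      fl_PD (by rw [a9b_dS, a9b_d2]; exact isUnit_one.neg) hτ
    rw [SS_add _ hx _ _ _ p0 q0 p1, SS_add _ hx _ _ _ p1 q1 p2, SS_add _ hx _ _ _ p2 q2 p0,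
      SS_add _ hx _ _ _ p0 p1 p2, SS_add _ hx _ _ _ p0 p2 p0, SS_self]
  have huniq := tendsto_nhds_unique (hsum.congr' hev) hzero
  rw [m01, m02, m11, m12, m21, m22] at huniq
  have hE : E1 (-2 * z) = - E1 (2 * z) := by
    rw [show -2 * z = -(2 * z) by ring, E1_neg]
  have hQ : Q2 (-2 * z) = Q2 (2 * z) := by
    rw [show -2 * z = -(2 * z) by ring, Q2_neg]
  rw [hE, hQ] at huniq
  linear_combination 2 * huniq

end NAB
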