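import Pool.Agent.MP_9ab903_nt.NAB.A8
import Pool.Agent.MP_9ab903_nt.NAB.A9b
import Pool.Agent.MP_9ab903_nt.AN.A7
import Pool.Agent.MP_9ab903_nt.AN.A9
import Pool.Agent.MP_9ab903_nt.AN.B1
import Pool.Agent.MP_9ab903_nt.AN.B4

/-! ## [NAB-A10] integrality at `2` and Galois action

`N` odd, `N z ∈ O`, `z ∉ O`: all `2^j z` are `Off` (`off_of_odd`), `2^k = 1 mod N` for some `k ≥ 1`.
`E1 (2^k z) = 2^k E1 z + ∑_{j<k} 2^{k-1-j} lam (2^j z)` (`E1_two`), `E1 (2^k z) = E1 z` (`E1_per`), so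
`(1 - 2^k) E1 z / OmC = ∑ 2^{k-1-j} lx (2^j z)` (`lam_eq`), `lx` is integral (`x_val`, `val_slope` as in AN/B4), `2^k - 1` odd.
`Q2`: `Q2 (2^k z) = (-2)^k Q2 z + ∑ (-2)^{k-1-j} (E1(z_j)² - 2 E1(z_j) E1(2 z_j))`, `1 - (-2)^k` odd.
Galois: `lx (emb u * z) = σ (lx z)` from `ptMap σ (pt z) = pt (emb u * z)` (coordinates; `z = emb c / N`), then the formulas. -/

set_option autoImplicit false

open scoped ComplexConjugate
open MeasureTheory Set Filter Topology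

namespace NAB

open CM27

theorem a10_rec (μ : ℂ) (f g : ℕ → ℂ) (h : ∀ i, f (i + 1) = μ * f i + g i) (k : ℕ) :
    f k = μ ^ k * f 0 + ∑ i ∈ Finset.range k, μ ^ (k - 1 - i) * g i := by
  induction k with
  | zero => simp
  | succ k ih =>
    rw [h, ih, Finset.sum_range_succ, mul_add, Finset.mul_sum]
    have h1 : ∀ i ∈ Finset.range k, μ * (μ ^ (k - 1 - i) * g i) = μ ^ (k + 1 - 1 - i) * g i := by
      intro i hi
      rw [Finset.mem_range] at hi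
      rw [← mul_assoc, ← pow_succ']
      congr 2
      omega
    rw [Finset.sum_congr rfl h1]
    have h2 : k + 1 - 1 - k = 0 := by omega
    rw [h2, pow_zero, one_mul, pow_succ']
    ring

theorem a10_data (N : ℕ) (hN : Odd N) (z : ℂ) (hz : (N : ℂ) * z ∈ Set.range emb)
    (hz0 : z ∉ Set.range emb) :
    (∀ i : ℕ, (N : ℂ) * ((2 : ℂ) ^ i * z) ∈ Set.range emb ∧ (2 : ℂ) ^ i * z ∉ Set.range emb ∧
      Off ((2 : ℂ) ^ i * z)) ∧ ∃ a : Eis, (2 : ℂ) ^ N.totient * z = z + emb a := by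
  have hN0 : 0 < N := hN.pos
  have hcop : Nat.Coprime 2 N := (Nat.coprime_two_left).mpr hN
  refine ⟨fun i => ?_, ?_⟩
  · have e : (2:ℂ) ^ i * z = ((2 ^ i : ℕ) : ℂ) * z := by push_cast; ring
    have h1 : (N : ℂ) * ((2 : ℂ) ^ i * z) ∈ Set.range emb := by
      rw [e]; exact a9_mul_mem N z hz _
    have h2 : (2 : ℂ) ^ i * z ∉ Set.range emb := by
      rw [e]; exact a9_cop N (2 ^ i) ((hcop.pow_left i).symm) z hz hz0
    exact ⟨h1, h2, off_of_odd N hN _ h1 h2⟩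
  · have hmod : 2 ^ N.totient ≡ 1 [MOD N] := Nat.ModEq.pow_totient hcop
    have h1 : 1 ≤ 2 ^ N.totient := Nat.one_le_two_pow
    have hdvd : N ∣ 2 ^ N.totient - 1 := (Nat.modEq_iff_dvd' h1).mp hmod.symm
    obtain ⟨t, ht⟩ := hdvd
    obtain ⟨c, hc⟩ := hz
    refine ⟨(t : Eis) * c, ?_⟩
    rw [map_mul, hc, map_natCast]
    have h2 : ((2 ^ N.totient : ℕ) : ℂ) = N * t + 1 := by
      have : 2 ^ N.totient = N * t + 1 := by omega
      rw [this]; push_cast; ring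
    push_cast at h2
    rw [h2]
    ring

/-- the recursion for `E1` -/
theorem a10_E1 (N : ℕ) (hN : Odd N) (z : ℂ) (hz : (N : ℂ) * z ∈ Set.range emb)
    (hz0 : z ∉ Set.range emb) :
    (1 - (2 : ℂ) ^ N.totient) * (E1 z / OmC) =
      ∑ i ∈ Finset.range N.totient, (2 : ℂ) ^ (N.totient - 1 - i) * lx ((2 : ℂ) ^ i * z) := by
  obtain ⟨h1, a, ha⟩ := a10_data N hN z hz hz0
  have h2 := a10_rec 2 (fun i => E1 ((2 : ℂ) ^ i * z) / OmC) (fun i => lx ((2 : ℂ) ^ i * z)) (by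
    intro i
    have h3 := E1_two _ (h1 i).2.2
    rw [lam_eq _ (h1 i).2.2] at h3
    have e : (2 : ℂ) ^ (i + 1) * z = 2 * ((2 : ℂ) ^ i * z) := by rw [pow_succ']; ring
    have h0 := OmC_ne
    show E1 ((2 : ℂ) ^ (i + 1) * z) / OmC = 2 * (E1 ((2 : ℂ) ^ i * z) / OmC) + lx ((2 : ℂ) ^ i * z)
    have h3' : E1 (2 * ((2 : ℂ) ^ i * z)) = 2 * E1 ((2 : ℂ) ^ i * z) +
        OmC * lx ((2 : ℂ) ^ i * z) := by linear_combination h3
    rw [e, h3']
    field_simp) N.totient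
  simp only [ha, E1_per, pow_zero, one_mul] at h2
  linear_combination h2

theorem a10_Q2 (N : ℕ) (hN : Odd N) (z : ℂ) (hz : (N : ℂ) * z ∈ Set.range emb)
    (hz0 : z ∉ Set.range emb) :
    (1 - (-2 : ℂ) ^ N.totient) * (Q2 z / OmC ^ 2) =
      ∑ i ∈ Finset.range N.totient, (-2 : ℂ) ^ (N.totient - 1 - i) *
        ((E1 ((2 : ℂ) ^ i * z) / OmC) ^ 2 -
          2 * (E1 ((2 : ℂ) ^ i * z) / OmC) * (E1 ((2 : ℂ) ^ (i + 1) * z) / OmC)) := by
  obtain ⟨h1, a, ha⟩ := a10_data N hN z hz hz0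
  have h2 := a10_rec (-2) (fun i => Q2 ((2 : ℂ) ^ i * z) / OmC ^ 2)
    (fun i => (E1 ((2 : ℂ) ^ i * z) / OmC) ^ 2 -
          2 * (E1 ((2 : ℂ) ^ i * z) / OmC) * (E1 ((2 : ℂ) ^ (i + 1) * z) / OmC)) (by
    intro i
    have h3 := Q2_two _ (h1 i).2.2
    have e : (2 : ℂ) ^ (i + 1) * z = 2 * ((2 : ℂ) ^ i * z) := by rw [pow_succ']; ring
    have h0 := OmC_ne
    show Q2 ((2 : ℂ) ^ (i + 1) * z) / OmC ^ 2 = -2 * (Q2 ((2 : ℂ) ^ i * z) / OmC ^ 2) +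
      ((E1 ((2 : ℂ) ^ i * z) / OmC) ^ 2 -
          2 * (E1 ((2 : ℂ) ^ i * z) / OmC) * (E1 ((2 : ℂ) ^ (i + 1) * z) / OmC))
    rw [e, h3]
    field_simp
    ring) N.totient
  simp only [ha, Q2_per, pow_zero, one_mul] at h2
  linear_combination h2

theorem a10_val_int (A : ValuationSubring ℂ) (n : ℤ) : A.valuation (n : ℂ) ≤ 1 := i1_val_int A n

theorem a10_val_of_mul (A : ValuationSubring ℂ) (hA : A.valuation 2 < 1) (n : ℤ) (hn : Odd n)
    (x S : ℂ) (h : (n : ℂ) * x = S) (hS : A.valuation S ≤ 1) : A.valuation x ≤ 1 := by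
  rw [← h, map_mul, val_odd A hA n hn, one_mul] at hS
  exact hS

theorem a10_tot (N : ℕ) (hN : Odd N) : 1 ≤ N.totient := Nat.totient_pos.mpr hN.pos

theorem E1_val (A : ValuationSubring ℂ) (hA : A.valuation 2 < 1) (N : ℕ) (hN : Odd N) (z : ℂ)
    (hz : (N : ℂ) * z ∈ Set.range emb) (hz0 : z ∉ Set.range emb) :
    A.valuation (E1 z / OmC) ≤ 1 := by
  obtain ⟨h1, a, ha⟩ := a10_data N hN z hz hz0
  have h2 := a10_E1 N hN z hz hz0
  have h3 : ((1 - 2 ^ N.totient : ℤ) : ℂ) = 1 - (2 : ℂ) ^ N.totient := by push_cast; rfl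
  rw [← h3] at h2
  refine a10_val_of_mul A hA _ ?_ _ _ h2 ?_
  · obtain ⟨k, hk⟩ : ∃ k, N.totient = k + 1 := ⟨N.totient - 1, by have := a10_tot N hN; omega⟩
    rw [hk, pow_succ]
    exact ⟨-2 ^ k, by ring⟩
  · apply Valuation.map_sum_le
    intro i _
    have hx := x_val A hA xw xw_add xw_two N hN _ (h1 i).1 (h1 i).2.1
    have hs := (val_slope A hA _ _ hx (weq _ (h1 i).2.1)).2
    rw [map_mul]
    have h4 : A.valuation ((2 : ℂ) ^ (N.totient - 1 - i)) ≤ 1 := by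
      have := a10_val_int A (2 ^ (N.totient - 1 - i))
      push_cast at this
      exact this
    exact mul_le_one' h4 hs

theorem Q2_val (A : ValuationSubring ℂ) (hA : A.valuation 2 < 1) (N : ℕ) (hN : Odd N) (z : ℂ)
    (hz : (N : ℂ) * z ∈ Set.range emb) (hz0 : z ∉ Set.range emb) :
    A.valuation (Q2 z / OmC ^ 2) ≤ 1 := by
  obtain ⟨h1, a, ha⟩ := a10_data N hN z hz hz0
  have h2 := a10_Q2 N hN z hz hz0
  have h3 : ((1 - (-2) ^ N.totient : ℤ) : ℂ) = 1 - (-2 : ℂ) ^ N.totient := by push_cast; rfl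
  rw [← h3] at h2
  have hE : ∀ i, A.valuation (E1 ((2 : ℂ) ^ i * z) / OmC) ≤ 1 := fun i =>
    E1_val A hA N hN _ (h1 i).1 (h1 i).2.1
  refine a10_val_of_mul A hA _ ?_ _ _ h2 ?_
  · obtain ⟨k, hk⟩ : ∃ k, N.totient = k + 1 := ⟨N.totient - 1, by have := a10_tot N hN; omega⟩
    rw [hk, pow_succ]
    exact ⟨(-2) ^ k, by ring⟩
  · apply Valuation.map_sum_le
    intro i _
    rw [map_mul]
    have h4 : A.valuation ((-2 : ℂ) ^ (N.totient - 1 - i)) ≤ 1 := by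
      have := a10_val_int A ((-2) ^ (N.totient - 1 - i))
      push_cast at this
      exact this
    refine mul_le_one' h4 ?_
    refine (Valuation.map_sub _ _ _).trans (max_le ?_ ?_)
    · rw [map_pow]
      exact pow_le_one' (hE i) 2
    · rw [map_mul, map_mul]
      exact mul_le_one' (mul_le_one' hA.le (hE i)) (hE (i + 1))

/-- `emb u * z` is again an odd torsion point -/
theorem a10_u (N : ℕ) (u : Eis) (hu : IsCoprime u (N : Eis)) (z : ℂ)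
    (hz : (N : ℂ) * z ∈ Set.range emb) (hz0 : z ∉ Set.range emb) :
    (N : ℂ) * (emb u * z) ∈ Set.range emb ∧ emb u * z ∉ Set.range emb := by
  obtain ⟨c, hc⟩ := hz
  refine ⟨⟨u * c, by rw [map_mul, hc]; ring⟩, ?_⟩
  rintro ⟨d, hd⟩
  obtain ⟨p, q, hpq⟩ := hu
  apply hz0
  refine ⟨p * d + q * c, ?_⟩
  rw [map_add, map_mul, map_mul, hd, hc]
  have h1 : emb p * emb u + emb q * (N : ℂ) = 1 := by
    have := congrArg emb hpq
    rw [map_add, map_mul, map_mul, map_one, map_natCast] at this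
    exact this
  linear_combination z * h1

theorem a10_lx (σ : ℂ ≃+* ℂ) (N : ℕ) (hN : Odd N) (u : Eis)
    (hσu : ∀ c : Eis, ptMap (σ : ℂ →+* ℂ) (pt (emb c / N)) = pt (emb (c * u) / N)) (z : ℂ)
    (hz : (N : ℂ) * z ∈ Set.range emb) (hoff : Off z) : σ (lx z) = lx (emb u * z) := by
  obtain ⟨c, hc⟩ := hz
  have hN0 : (N : ℂ) ≠ 0 := by
    have := hN.pos
    exact_mod_cast this.ne'
  have e : z = emb c / N := by rw [hc]; field_simp
  have e2 : emb u * z = emb (c * u) / N := by rw [map_mul, hc]; field_simp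
  have h1 := hσu c
  rw [← e, ← e2] at h1
  exact lx_ptMap (σ : ℂ →+* ℂ) z (emb u * z) hoff h1

theorem E1_gal (σ : ℂ ≃+* ℂ) (hσ : σ w = w) (N : ℕ) (hN : Odd N) (u : Eis)
    (hu : IsCoprime u (N : Eis))
    (hσu : ∀ c : Eis, ptMap (σ : ℂ →+* ℂ) (pt (emb c / N)) = pt (emb (c * u) / N)) (z : ℂ)
    (hz : (N : ℂ) * z ∈ Set.range emb) (hz0 : z ∉ Set.range emb) :
    σ (E1 z / OmC) = E1 (emb u * z) / OmC := by
  obtain ⟨h1, -⟩ := a10_data N hN z hz hz0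
  obtain ⟨hz', hz0'⟩ := a10_u N u hu z hz hz0
  have h2 := congrArg σ (a10_E1 N hN z hz hz0)
  have h3 := a10_E1 N hN (emb u * z) hz' hz0'
  rw [map_mul, map_sub, map_one, map_pow, map_ofNat, map_sum] at h2
  have h4 : ∀ i ∈ Finset.range N.totient, σ ((2 : ℂ) ^ (N.totient - 1 - i) *
      lx ((2 : ℂ) ^ i * z)) = (2 : ℂ) ^ (N.totient - 1 - i) * lx ((2 : ℂ) ^ i * (emb u * z)) := by
    intro i _
    rw [map_mul, map_pow, map_ofNat, a10_lx σ N hN u hσu _ (h1 i).1 (h1 i).2.2]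
    congr 2
    ring
  rw [Finset.sum_congr rfl h4, ← h3] at h2
  have h5 : (1 - (2 : ℂ) ^ N.totient) ≠ 0 := by
    obtain ⟨k, hk⟩ : ∃ k, N.totient = k + 1 := ⟨N.totient - 1, by have := a10_tot N hN; omega⟩
    rw [hk]
    intro h6
    have h7 : ((1 - 2 ^ (k + 1) : ℤ) : ℂ) = 0 := by push_cast; exact h6
    have h8 : (1 - 2 ^ (k + 1) : ℤ) = 0 := by exact_mod_cast h7
    have h9 : (2 : ℤ) ^ (k + 1) = 2 * 2 ^ k := by rw [pow_succ]; ring
    omega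
  exact mul_left_cancel₀ h5 h2

theorem Q2_gal (σ : ℂ ≃+* ℂ) (hσ : σ w = w) (N : ℕ) (hN : Odd N) (u : Eis)
    (hu : IsCoprime u (N : Eis))
    (hσu : ∀ c : Eis, ptMap (σ : ℂ →+* ℂ) (pt (emb c / N)) = pt (emb (c * u) / N)) (z : ℂ)
    (hz : (N : ℂ) * z ∈ Set.range emb) (hz0 : z ∉ Set.range emb) :
    σ (Q2 z / OmC ^ 2) = Q2 (emb u * z) / OmC ^ 2 := by
  obtain ⟨h1, -⟩ := a10_data N hN z hz hz0
  obtain ⟨hz', hz0'⟩ := a10_u N u hu z hz hz0
  have h2 := congrArg σ (a10_Q2 N hN z hz hz0)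
  have h3 := a10_Q2 N hN (emb u * z) hz' hz0'
  have hneg : σ (-2 : ℂ) = -2 := by rw [map_neg, map_ofNat]
  rw [map_mul, map_sub, map_one, map_pow, hneg, map_sum] at h2
  have hE : ∀ i, σ (E1 ((2 : ℂ) ^ i * z) / OmC) = E1 ((2 : ℂ) ^ i * (emb u * z)) / OmC := by
    intro i
    rw [E1_gal σ hσ N hN u hu hσu _ (h1 i).1 (h1 i).2.1]
    congr 2
    ring
  have h4 : ∀ i ∈ Finset.range N.totient, σ ((-2 : ℂ) ^ (N.totient - 1 - i) *
        ((E1 ((2 : ℂ) ^ i * z) / OmC) ^ 2 -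
          2 * (E1 ((2 : ℂ) ^ i * z) / OmC) * (E1 ((2 : ℂ) ^ (i + 1) * z) / OmC))) =
      (-2 : ℂ) ^ (N.totient - 1 - i) *
        ((E1 ((2 : ℂ) ^ i * (emb u * z)) / OmC) ^ 2 -
          2 * (E1 ((2 : ℂ) ^ i * (emb u * z)) / OmC) *
            (E1 ((2 : ℂ) ^ (i + 1) * (emb u * z)) / OmC)) := by
    intro i _
    rw [map_mul, map_pow, hneg, map_sub, map_pow, map_mul, map_mul, map_ofNat, hE, hE]
  rw [Finset.sum_congr rfl h4, ← h3] at h2
  have h5 : (1 - (-2 : ℂ) ^ N.totient) ≠ 0 := by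
    obtain ⟨k, hk⟩ : ∃ k, N.totient = k + 1 := ⟨N.totient - 1, by have := a10_tot N hN; omega⟩
    rw [hk]
    intro h6
    have h7 : ((1 - (-2) ^ (k + 1) : ℤ) : ℂ) = 0 := by push_cast; exact h6
    have h8 : (1 - (-2) ^ (k + 1) : ℤ) = 0 := by exact_mod_cast h7
    have h9 : (-2 : ℤ) ^ (k + 1) = -2 * (-2) ^ k := by rw [pow_succ]; ring
    omega
  exact mul_left_cancel₀ h5 h2

end NAB
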