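import Pool.Agent.MP_9ab903_nt.NAB.ADefs

/-! ## [NAB-A1] algebra of hermitian forms -/

set_option autoImplicit false

open scoped ComplexConjugate
open MeasureTheory Set Filter Topology

namespace NAB

open CM27

theorem hv_eq_hb (h : HF) (v : ℂ × ℂ) : (hv h v : ℂ) = hb h v v := by
  have h1 : ((‖v.1‖ ^ 2 : ℝ) : ℂ) = conj v.1 * v.1 := by
    rw [mul_comm, Complex.mul_conj, Complex.normSq_eq_norm_sq]
  have h2 : ((‖v.2‖ ^ 2 : ℝ) : ℂ) = conj v.2 * v.2 := by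
    rw [mul_comm, Complex.mul_conj, Complex.normSq_eq_norm_sq]
  have h3 : ((2 * (h.2.1 * conj v.1 * v.2).re : ℝ) : ℂ)
      = h.2.1 * conj v.1 * v.2 + conj (h.2.1 * conj v.1 * v.2) := by
    rw [Complex.add_conj]
  have h4 : (hv h v : ℂ) = h.1 * ((‖v.1‖ ^ 2 : ℝ) : ℂ) + ((2 * (h.2.1 * conj v.1 * v.2).re : ℝ) : ℂ)
      + h.2.2 * ((‖v.2‖ ^ 2 : ℝ) : ℂ) := by
    rw [hv]; push_cast; ring
  rw [h4, h1, h2, h3, hb]
  simp only [map_mul, Complex.conj_conj]
  ring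

theorem hv_add (h k : HF) (v : ℂ × ℂ) : hv (h + k) v = hv h v + hv k v := by
  have e : (h.2.1 + k.2.1) * conj v.1 * v.2 = h.2.1 * conj v.1 * v.2 + k.2.1 * conj v.1 * v.2 := by
    ring
  simp only [hv, Prod.fst_add, Prod.snd_add]
  rw [e, Complex.add_re]
  ring

theorem hv_smul (a : ℝ) (h : HF) (v : ℂ × ℂ) : hv (a • h) v = a * hv h v := by
  have e : (a • h.2.1) * conj v.1 * v.2 = a • (h.2.1 * conj v.1 * v.2) := by
    simp only [Complex.real_smul]; ring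
  simp only [hv, Prod.smul_fst, Prod.smul_snd]
  rw [e, Complex.smul_re]
  simp only [smul_eq_mul]
  ring

theorem hv_comb (a b : ℝ) (h k : HF) (v : ℂ × ℂ) :
    hv (a • h + b • k) v = a * hv h v + b * hv k v := by
  rw [hv_add, hv_smul, hv_smul]

/-- The cocycle identity. -/
theorem nn_cocycle (P Q R : HF) (v : ℂ × ℂ) :
    (hv P v : ℂ) * nn Q R v + (hv Q v : ℂ) * nn R P v + (hv R v : ℂ) * nn P Q v = 0 := by
  rw [hv_eq_hb, hv_eq_hb, hv_eq_hb]
  simp only [nn, hb]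
  ring

theorem nn_symm (h k : HF) (v : ℂ × ℂ) : nn k h v = - nn h k v := by
  simp only [nn]; ring

theorem nn_self (h : HF) (v : ℂ × ℂ) : nn h h v = 0 := by
  simp only [nn]; ring

theorem nn_add_left (h h' k : HF) (v : ℂ × ℂ) : nn (h + h') k v = nn h k v + nn h' k v := by
  simp only [nn, Prod.fst_add, Prod.snd_add, map_add, Complex.ofReal_add]; ring

theorem nn_add_right (h k k' : HF) (v : ℂ × ℂ) : nn h (k + k') v = nn h k v + nn h k' v := by
  simp only [nn, Prod.fst_add, Prod.snd_add, map_add, Complex.ofReal_add]; ring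

theorem nn_smul_left (a : ℝ) (h k : HF) (v : ℂ × ℂ) : nn (a • h) k v = a * nn h k v := by
  simp only [nn, Prod.smul_fst, Prod.smul_snd, Complex.real_smul, smul_eq_mul, Complex.ofReal_mul,
    map_mul, Complex.conj_ofReal]
  ring

theorem nn_smul_right (a : ℝ) (h k : HF) (v : ℂ × ℂ) : nn h (a • k) v = a * nn h k v := by
  simp only [nn, Prod.smul_fst, Prod.smul_snd, Complex.real_smul, smul_eq_mul, Complex.ofReal_mul,
    map_mul, Complex.conj_ofReal]
  ring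

/-- `nn h k` as a combination of the monomials. -/
theorem nn_mo (h k : HF) (v : ℂ × ℂ) : nn h k v =
    -(1 / 2) * (h.1 * k.2.1 - h.2.1 * k.1) * mo 2 0 v
    + -(1 / 2) * (h.1 * k.2.2 - h.2.2 * k.1 + conj h.2.1 * k.2.1 - h.2.1 * conj k.2.1) * mo 1 1 v
    + -(1 / 2) * (conj h.2.1 * k.2.2 - h.2.2 * conj k.2.1) * mo 0 2 v := by
  simp only [nn, mo]; ring

theorem hv_sq (l v : ℂ × ℂ) : hv (sq l) v = ‖lf l v‖ ^ 2 := by
  have h : ((hv (sq l) v : ℝ) : ℂ) = ((‖lf l v‖ ^ 2 : ℝ) : ℂ) := by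
    have h1 : ((‖l.1‖ : ℝ) : ℂ) ^ 2 = conj l.1 * l.1 := by
      rw [mul_comm, Complex.mul_conj, Complex.normSq_eq_norm_sq]; push_cast; rfl
    have h2 : ((‖l.2‖ : ℝ) : ℂ) ^ 2 = conj l.2 * l.2 := by
      rw [mul_comm, Complex.mul_conj, Complex.normSq_eq_norm_sq]; push_cast; rfl
    have h3 : ((‖lf l v‖ ^ 2 : ℝ) : ℂ) = conj (lf l v) * lf l v := by
      rw [mul_comm, Complex.mul_conj, Complex.normSq_eq_norm_sq]
    rw [hv_eq_hb, h3]
    simp only [hb, sq, lf, Complex.ofReal_pow, h1, h2, map_add, map_mul, Complex.conj_conj]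
    ring
  exact_mod_cast h

theorem nn_sq (l l' v : ℂ × ℂ) :
    nn (sq l) (sq l') v = -(1 / 2) * dt l l' * conj (lf l v * lf l' v) := by
  have h1 : ∀ z : ℂ, ((‖z‖ ^ 2 : ℝ) : ℂ) = conj z * z := by
    intro z
    rw [mul_comm, Complex.mul_conj, Complex.normSq_eq_norm_sq]
  simp only [nn, sq, h1, dt, lf, map_add, map_mul, Complex.conj_conj]
  ring

theorem hb_pb (M : Mt) (h : HF) (u v : ℂ × ℂ) : hb (pb M h) u v = hb h (mv M u) (mv M v) := by
  have e1 : hb (pb M h) u v =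
      hb h (emb (M 0 0), emb (M 1 0)) (emb (M 0 0), emb (M 1 0)) * conj u.1 * v.1
      + hb h (emb (M 0 0), emb (M 1 0)) (emb (M 0 1), emb (M 1 1)) * conj u.1 * v.2
      + conj (hb h (emb (M 0 0), emb (M 1 0)) (emb (M 0 1), emb (M 1 1))) * conj u.2 * v.1
      + hb h (emb (M 0 1), emb (M 1 1)) (emb (M 0 1), emb (M 1 1)) * conj u.2 * v.2 := by
    rw [← hv_eq_hb, ← hv_eq_hb]
    rfl
  rw [e1]
  simp only [hb, mv, map_add, map_mul, Complex.conj_conj, Complex.conj_ofReal]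
  ring

theorem hv_pb (M : Mt) (h : HF) (v : ℂ × ℂ) : hv (pb M h) v = hv h (mv M v) := by
  have h1 : ((hv (pb M h) v : ℝ) : ℂ) = ((hv h (mv M v) : ℝ) : ℂ) := by
    rw [hv_eq_hb, hv_eq_hb, hb_pb]
  exact_mod_cast h1

theorem nn_pb (M : Mt) (h k : HF) (v : ℂ × ℂ) :
    nn (pb M h) (pb M k) v = emb M.det * nn h k (mv M v) := by
  have e : ∀ h : HF, pb M h = (((pb M h).1, (pb M h).2.1, (pb M h).2.2) : HF) := fun h => rfl
  have a1 : ∀ h : HF, (((pb M h).1 : ℝ) : ℂ)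
      = hb h (emb (M 0 0), emb (M 1 0)) (emb (M 0 0), emb (M 1 0)) := fun h => hv_eq_hb h _
  have a2 : ∀ h : HF, (pb M h).2.1
      = hb h (emb (M 0 0), emb (M 1 0)) (emb (M 0 1), emb (M 1 1)) := fun h => rfl
  have a3 : ∀ h : HF, (((pb M h).2.2 : ℝ) : ℂ)
      = hb h (emb (M 0 1), emb (M 1 1)) (emb (M 0 1), emb (M 1 1)) := fun h => hv_eq_hb h _
  rw [Matrix.det_fin_two, map_sub, map_mul, map_mul]
  simp only [nn, a1, a2, a3, hb, mv, map_add, map_mul, Complex.conj_conj, Complex.conj_ofReal]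
  ring

theorem pb_comp (M N : Mt) (h : HF) : pb N (pb M h) = pb (M * N) h := by
  have e : ∀ i j : Fin 2, emb ((M * N) i j) = emb (M i 0) * emb (N 0 j) + emb (M i 1) * emb (N 1 j) := by
    intro i j
    rw [Matrix.mul_apply, Fin.sum_univ_two, map_add, map_mul, map_mul]
  have e0 : ∀ j : Fin 2, mv M (emb (N 0 j), emb (N 1 j)) = (emb ((M * N) 0 j), emb ((M * N) 1 j)) := by
    intro j
    simp only [mv, e]
  apply Prod.ext
  · rw [show (pb N (pb M h)).1 = hv (pb M h) (emb (N 0 0), emb (N 1 0)) from rfl, hv_pb, e0]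
    rfl
  · apply Prod.ext
    · rw [show (pb N (pb M h)).2.1 = hb (pb M h) (emb (N 0 0), emb (N 1 0)) (emb (N 0 1), emb (N 1 1))
        from rfl, hb_pb, e0, e0]
      rfl
    · rw [show (pb N (pb M h)).2.2 = hv (pb M h) (emb (N 0 1), emb (N 1 1)) from rfl, hv_pb, e0]
      rfl

theorem mv_comp (M N : Mt) (v : ℂ × ℂ) : mv M (mv N v) = mv (M * N) v := by
  have e : ∀ i j : Fin 2, emb ((M * N) i j) = emb (M i 0) * emb (N 0 j) + emb (M i 1) * emb (N 1 j) := by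
    intro i j
    rw [Matrix.mul_apply, Fin.sum_univ_two, map_add, map_mul, map_mul]
  simp only [mv, e]
  apply Prod.ext <;> simp only <;> ring

theorem mv_one (v : ℂ × ℂ) : mv 1 v = v := by
  simp [mv]

theorem pb_one (h : HF) : pb 1 h = h := by
  simp [pb, hv, hb]

theorem pb_add (M : Mt) (h k : HF) : pb M (h + k) = pb M h + pb M k := by
  apply Prod.ext
  · exact hv_add _ _ _
  · apply Prod.ext
    · simp only [pb, hb, Prod.fst_add, Prod.snd_add, map_add, Complex.ofReal_add]; ring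
    · exact hv_add _ _ _

theorem pb_smul (M : Mt) (a : ℝ) (h : HF) : pb M (a • h) = a • pb M h := by
  apply Prod.ext
  · exact hv_smul _ _ _
  · apply Prod.ext
    · simp only [pb, hb, Prod.smul_fst, Prod.smul_snd, Complex.real_smul, smul_eq_mul,
        Complex.ofReal_mul, map_mul, Complex.conj_ofReal]
      ring
    · exact hv_smul _ _ _

/-- Linear forms and `pb`: `|l ∘ M|²`. -/
theorem sq_mv (M : Mt) (l l' : ℂ × ℂ) (h : ∀ v, lf l (mv M v) = lf l' v) : pb M (sq l) = sq l' := by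
  have h1 := h (1, 0)
  have h2 := h (0, 1)
  simp only [lf, mv, mul_one, mul_zero, add_zero, zero_add] at h1 h2
  have n1 : ∀ z : ℂ, ((‖z‖ : ℝ) : ℂ) ^ 2 = conj z * z := by
    intro z
    rw [mul_comm, Complex.mul_conj, Complex.normSq_eq_norm_sq]; push_cast; rfl
  apply Prod.ext
  · rw [show (pb M (sq l)).1 = hv (sq l) (emb (M 0 0), emb (M 1 0)) from rfl, hv_sq]
    simp only [lf, sq]
    rw [h1]
  · apply Prod.ext
    · simp only [pb, hb, sq]
      rw [← h1, ← h2]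
      push_cast
      rw [n1, n1]
      simp only [map_add, map_mul]
      simp only [Complex.conj_conj]
      ring
    · rw [show (pb M (sq l)).2.2 = hv (sq l) (emb (M 0 1), emb (M 1 1)) from rfl, hv_sq]
      simp only [lf, sq]
      rw [h2]

theorem pb_eval (M : Mt) (h : HF) : pb M h = (hv h (mv M (1, 0)), hb h (mv M (1, 0)) (mv M (0, 1)),
    hv h (mv M (0, 1))) := by
  simp [pb, mv]

/-! ### Positive definite forms -/

theorem nrm_nonneg (v : ℂ × ℂ) : 0 ≤ nrm v := by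
  rw [nrm]; positivity

theorem nrm_eq_zero (v : ℂ × ℂ) : nrm v = 0 ↔ v = 0 := by
  constructor
  · intro h
    rw [nrm] at h
    have h1 : ‖v.1‖ ^ 2 = 0 := by nlinarith [sq_nonneg ‖v.1‖, sq_nonneg ‖v.2‖]
    have h2 : ‖v.2‖ ^ 2 = 0 := by nlinarith [sq_nonneg ‖v.1‖, sq_nonneg ‖v.2‖]
    apply Prod.ext
    · simpa using h1
    · simpa using h2
  · rintro rfl
    simp [nrm]

theorem nrm_pos {v : ℂ × ℂ} (hv : v ≠ 0) : 0 < nrm v :=
  lt_of_le_of_ne (nrm_nonneg v) fun h => hv ((nrm_eq_zero v).1 h.symm)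

/-- Completing the square: `a h(v) = |a v₁ + b v₂|² + (a d - |b|²) |v₂|²`. -/
theorem hv_square (h : HF) (v : ℂ × ℂ) : h.1 * hv h v =
    ‖h.1 * v.1 + h.2.1 * v.2‖ ^ 2 + (h.1 * h.2.2 - ‖h.2.1‖ ^ 2) * ‖v.2‖ ^ 2 := by
  have n1 : ∀ z : ℂ, ((‖z‖ : ℝ) : ℂ) ^ 2 = conj z * z := by
    intro z
    rw [mul_comm, Complex.mul_conj, Complex.normSq_eq_norm_sq]; push_cast; rfl
  have h1 : ((h.1 * hv h v : ℝ) : ℂ) = ((‖h.1 * v.1 + h.2.1 * v.2‖ ^ 2
      + (h.1 * h.2.2 - ‖h.2.1‖ ^ 2) * ‖v.2‖ ^ 2 : ℝ) : ℂ) := by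
    push_cast
    rw [hv_eq_hb, n1, n1, n1, hb]
    simp only [map_add, map_mul, Complex.conj_ofReal]
    ring
  exact_mod_cast h1

theorem PD.pos {h : HF} (hh : PD h) {v : ℂ × ℂ} (hv0 : v ≠ 0) : 0 < hv h v := by
  have h1 := hv_square h v
  have h2 : 0 < h.1 * h.2.2 - ‖h.2.1‖ ^ 2 := by linarith [hh.2]
  have h3 : 0 < h.1 * hv h v := by
    rw [h1]
    by_cases hv2 : v.2 = 0
    · have hv1 : v.1 ≠ 0 := fun h => hv0 (Prod.ext h hv2)
      rw [hv2]
      simp only [mul_zero, add_zero, norm_zero, ne_eq, OfNat.ofNat_ne_zero, not_false_eq_true,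
        zero_pow]
      have : (h.1 : ℂ) * v.1 ≠ 0 := mul_ne_zero (by exact_mod_cast hh.1.ne') hv1
      positivity
    · have : 0 < ‖v.2‖ := norm_pos_iff.2 hv2
      positivity
  exact (pos_iff_pos_of_mul_pos h3).1 hh.1

theorem PD.nonneg {h : HF} (hh : PD h) (v : ℂ × ℂ) : 0 ≤ hv h v := by
  by_cases hv0 : v = 0
  · subst hv0; simp [hv]
  · exact (hh.pos hv0).le

/-- `PD` from positivity. -/
theorem PD_of_pos {h : HF} (hp : ∀ v : ℂ × ℂ, v ≠ 0 → 0 < hv h v) : PD h := by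
  have h1 : 0 < h.1 := by
    have := hp (1, 0) (by simp)
    simpa [hv] using this
  refine ⟨h1, ?_⟩
  have h2 := hp (-h.2.1 / h.1, 1) (by simp)
  have h3 := hv_square h (-h.2.1 / h.1, 1)
  have h1' : (h.1 : ℂ) ≠ 0 := by exact_mod_cast h1.ne'
  have e : (h.1 : ℂ) * (-h.2.1 / h.1) + h.2.1 = 0 := by
    field_simp; ring
  have h4 : h.1 * hv h (-h.2.1 / h.1, 1) = h.1 * h.2.2 - ‖h.2.1‖ ^ 2 := by
    rw [h3]
    simp only [mul_one, e]
    simp
  nlinarith [mul_pos h1 h2]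

theorem PD_iff {h : HF} : PD h ↔ ∀ v : ℂ × ℂ, v ≠ 0 → 0 < hv h v :=
  ⟨fun hh _ hv0 => hh.pos hv0, PD_of_pos⟩

theorem PD.add {h k : HF} (hh : PD h) (hk : PD k) : PD (h + k) :=
  PD_of_pos fun v hv0 => by rw [hv_add]; exact add_pos (hh.pos hv0) (hk.pos hv0)

theorem PD.smul {h : HF} (hh : PD h) {a : ℝ} (ha : 0 < a) : PD (a • h) :=
  PD_of_pos fun v hv0 => by rw [hv_smul]; exact mul_pos ha (hh.pos hv0)

theorem PD.comb {h k : HF} (hh : PD h) (hk : PD k) {a b : ℝ} (ha : 0 < a) (hb : 0 < b) :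
    PD (a • h + b • k) := (hh.smul ha).add (hk.smul hb)

/-- Bounds for positive definite forms. -/
theorem PD.bounds {h : HF} (hh : PD h) :
    ∃ c : ℝ, 1 ≤ c ∧ ∀ v, nrm v / c ≤ hv h v ∧ hv h v ≤ c * nrm v := by
  obtain ⟨a, b, d⟩ := h
  have ha : 0 < a := hh.1
  have hb : ‖b‖ ^ 2 < a * d := hh.2
  have hd : 0 < d := by
    have h0 : 0 < a * d := lt_of_le_of_lt (sq_nonneg _) hb
    exact (pos_iff_pos_of_mul_pos h0).1 ha
  have cross : ∀ v : ℂ × ℂ, |2 * (b * conj v.1 * v.2).re| ≤ 2 * ‖b‖ * (‖v.1‖ * ‖v.2‖) := by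
    intro v
    rw [abs_mul, abs_two]
    have h1 := Complex.abs_re_le_norm (b * conj v.1 * v.2)
    rw [norm_mul, norm_mul, Complex.norm_conj] at h1
    nlinarith
  -- lower constant
  set e := a * d - ‖b‖ ^ 2 with he
  have he0 : 0 < e := by rw [he]; linarith
  have lower : ∀ v : ℂ × ℂ, e / (a + d) * nrm v ≤ hv (a, b, d) v := by
    intro v
    have h1 := cross v
    have h2 := abs_le.1 h1
    rw [div_mul_eq_mul_div, div_le_iff₀ (by positivity)]
    simp only [hv, nrm]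
    have p1 := norm_nonneg v.1
    have p2 := norm_nonneg v.2
    have pb := norm_nonneg b
    -- (a+d)(a x² - 2|b| x y + d y²) - e (x²+y²) = |a x - |b| y|² + |d y - |b| x|²
    nlinarith [sq_nonneg (a * ‖v.1‖ - ‖b‖ * ‖v.2‖), sq_nonneg (d * ‖v.2‖ - ‖b‖ * ‖v.1‖),
      mul_nonneg (add_pos ha hd).le (sub_nonneg.2 h2.1)]
  have upper : ∀ v : ℂ × ℂ, hv (a, b, d) v ≤ (a + d + ‖b‖) * nrm v := by
    intro v
    have h1 := cross v
    have h2 := abs_le.1 h1
    simp only [hv, nrm]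
    have p1 := norm_nonneg v.1
    have p2 := norm_nonneg v.2
    have pb := norm_nonneg b
    nlinarith [mul_nonneg pb (sq_nonneg (‖v.1‖ - ‖v.2‖)), mul_nonneg ha.le (sq_nonneg ‖v.2‖),
      mul_nonneg hd.le (sq_nonneg ‖v.1‖)]
  refine ⟨max 1 (max ((a + d) / e) (a + d + ‖b‖)), le_max_left _ _, fun v => ⟨?_, ?_⟩⟩
  · refine le_trans ?_ (lower v)
    have hc : (a + d) / e ≤ max 1 (max ((a + d) / e) (a + d + ‖b‖)) :=
      le_trans (le_max_left _ _) (le_max_right _ _)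
    have hc0 : 0 < (a + d) / e := by positivity
    rw [div_le_iff₀ (lt_of_lt_of_le hc0 hc)]
    have h1 : nrm v = e / (a + d) * nrm v * ((a + d) / e) := by
      field_simp
    calc nrm v = e / (a + d) * nrm v * ((a + d) / e) := h1
      _ ≤ e / (a + d) * nrm v * max 1 (max ((a + d) / e) (a + d + ‖b‖)) := by
        apply mul_le_mul_of_nonneg_left hc
        have := nrm_nonneg v
        positivity
  · refine le_trans (upper v) ?_
    exact mul_le_mul_of_nonneg_right (le_trans (le_max_right _ _) (le_max_right _ _)) (nrm_nonneg v)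

/-- Uniform bounds for the combinations of two positive definite forms. -/
theorem PD.bounds2 {P Q : HF} (hP : PD P) (hQ : PD Q) :
    ∃ c : ℝ, 1 ≤ c ∧ ∀ a b : ℝ, 0 ≤ a → 0 ≤ b → ∀ v,
      (a + b) / c * nrm v ≤ hv (a • P + b • Q) v ∧ hv (a • P + b • Q) v ≤ c * (a + b) * nrm v := by
  obtain ⟨c, hc, h1⟩ := hP.bounds
  obtain ⟨c', hc', h2⟩ := hQ.bounds
  refine ⟨max c c', le_trans hc (le_max_left _ _), fun a b ha hb v => ?_⟩
  have hm : 0 < max c c' := lt_of_lt_of_le (by linarith) (le_max_left c c')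
  have hn := nrm_nonneg v
  rw [hv_comb]
  have l1 : nrm v / max c c' ≤ hv P v :=
    le_trans (div_le_div_of_nonneg_left hn (by linarith) (le_max_left _ _)) (h1 v).1
  have l2 : nrm v / max c c' ≤ hv Q v :=
    le_trans (div_le_div_of_nonneg_left hn (by linarith) (le_max_right _ _)) (h2 v).1
  have u1 : hv P v ≤ max c c' * nrm v :=
    le_trans (h1 v).2 (mul_le_mul_of_nonneg_right (le_max_left _ _) hn)
  have u2 : hv Q v ≤ max c c' * nrm v :=
    le_trans (h2 v).2 (mul_le_mul_of_nonneg_right (le_max_right _ _) hn)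
  constructor
  · have e : (a + b) / max c c' * nrm v = a * (nrm v / max c c') + b * (nrm v / max c c') := by
      field_simp
    rw [e]
    exact add_le_add (mul_le_mul_of_nonneg_left l1 ha) (mul_le_mul_of_nonneg_left l2 hb)
  · have e : max c c' * (a + b) * nrm v = a * (max c c' * nrm v) + b * (max c c' * nrm v) := by
      ring
    rw [e]
    exact add_le_add (mul_le_mul_of_nonneg_left u1 ha) (mul_le_mul_of_nonneg_left u2 hb)

/-! ### Invertible matrices -/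

theorem mv_sub (M : Mt) (u v : ℂ × ℂ) : mv M (u - v) = mv M u - mv M v := by
  apply Prod.ext <;> simp only [mv, Prod.fst_sub, Prod.snd_sub] <;> ring

theorem mv_add (M : Mt) (u v : ℂ × ℂ) : mv M (u + v) = mv M u + mv M v := by
  apply Prod.ext <;> simp only [mv, Prod.fst_add, Prod.snd_add] <;> ring

theorem mv_em (M : Mt) (m : Eis × Eis) : mv M (em m) =
    em (M 0 0 * m.1 + M 0 1 * m.2, M 1 0 * m.1 + M 1 1 * m.2) := by
  simp only [mv, em, map_add, map_mul]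

theorem mv_inv (M : Mt) (hM : IsUnit M.det) (v : ℂ × ℂ) : mv M⁻¹ (mv M v) = v := by
  rw [mv_comp, Matrix.nonsing_inv_mul M hM, mv_one]

theorem mv_inv' (M : Mt) (hM : IsUnit M.det) (v : ℂ × ℂ) : mv M (mv M⁻¹ v) = v := by
  rw [mv_comp, Matrix.mul_nonsing_inv M hM, mv_one]

theorem PD_pb {M : Mt} (hM : IsUnit M.det) {h : HF} (hh : PD h) : PD (pb M h) :=
  PD_of_pos fun v hv0 => by
    rw [hv_pb]
    apply hh.pos
    intro h0
    apply hv0
    have h1 := mv_inv M hM v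
    rw [h0] at h1
    rw [← h1]
    simp [mv]

theorem L2_add {u v : ℂ × ℂ} (hu : u ∈ L2) (hv : v ∈ L2) : u + v ∈ L2 := by
  obtain ⟨m, rfl⟩ := hu
  obtain ⟨n, rfl⟩ := hv
  exact ⟨m + n, by simp [em]⟩

theorem L2_neg {u : ℂ × ℂ} (hu : u ∈ L2) : -u ∈ L2 := by
  obtain ⟨m, rfl⟩ := hu
  exact ⟨-m, by simp [em]⟩

theorem L2_mv (M : Mt) {u : ℂ × ℂ} (hu : u ∈ L2) : mv M u ∈ L2 := by
  obtain ⟨m, rfl⟩ := hu
  rw [mv_em]
  exact ⟨_, rfl⟩

theorem L2_mv_iff (M : Mt) (hM : IsUnit M.det) {u : ℂ × ℂ} : mv M u ∈ L2 ↔ u ∈ L2 :=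
  ⟨fun h => by simpa [mv_inv M hM] using L2_mv M⁻¹ h, L2_mv M⟩

/-- Positivity of the combinations of `|l|²`, `|l'|²`. -/
theorem PD_sq {l l' : ℂ × ℂ} (hd : dt l l' ≠ 0) {a b : ℝ} (ha : 0 < a) (hb : 0 < b) :
    PD (a • sq l + b • sq l') :=
  PD_of_pos fun v hv0 => by
    rw [hv_comb, hv_sq, hv_sq]
    have h1 : lf l v ≠ 0 ∨ lf l' v ≠ 0 := by
      by_contra hcon
      push Not at hcon
      obtain ⟨h1, h2⟩ := hcon
      apply hv0
      simp only [lf] at h1 h2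
      have e1 : dt l l' * v.1 = 0 := by
        rw [dt]; linear_combination l'.2 * h1 - l.2 * h2
      have e2 : dt l l' * v.2 = 0 := by
        rw [dt]; linear_combination l.1 * h2 - l'.1 * h1
      exact Prod.ext ((mul_eq_zero.1 e1).resolve_left hd) ((mul_eq_zero.1 e2).resolve_left hd)
    rcases h1 with h1 | h1
    · have := norm_pos_iff.2 h1
      positivity
    · have := norm_pos_iff.2 h1
      positivity

end NAB
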