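import Pool.Agent.MP_9ab903_nt.NAB.A9
import Pool.Agent.MP_ae0bd0_nt.CM.A1

/-! ## [NAB-A11a] walking in `GL₂(ℤ[ω])` avoiding bad cusps

`mv g x = (ℓ₀ x, ℓ₁ x)`. For `g` with unit determinant not both `ℓ₀ x, ℓ₁ x` are in `O` (`x ∉ L2`). Put `P g = g` if
`ℓ₀ x ∉ O`, else `P g = Sw * g`. Claim: `R (P g) (P (γ * g))` for all `γ` with unit determinant; by Euclid (induction on the norm
of the upper left entry of `γ`; `Eis` is Euclidean: see MP_ae0bd0_nt/CM/A*.lean for division with remainder) `γ` is a product of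
`Sw, Ho b, Di u v`, so it is enough to do `γ` one of these:
* `Di`: `hun`. * `Sw`: both good: `hsw`; one bad: `P g = P (Sw g)`.
* `Ho b`, `ℓ₀ x ∉ O`: `hho`. * `Ho b`, `ℓ₀ x ∈ O`: `P g = (ℓ₁; ℓ₀)`, `P (Ho b g) = (ℓ₁ + b ℓ₀; ℓ₀)`; since `O` is additively
generated by units it is enough to do `b = u` a unit: `(ℓ₁; ℓ₀) → (ℓ₁; ℓ₀ + u⁻¹ ℓ₁) → Di → (ℓ₁; ℓ₁ + u ℓ₀) → Sw →
(ℓ₁ + u ℓ₀; ℓ₁) → (ℓ₁ + u ℓ₀; ℓ₁ - (ℓ₁ + u ℓ₀)) = (..; -u ℓ₀) → Di → (ℓ₁ + u ℓ₀; ℓ₀)`. All first rows are good: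
`ℓ₁ x ∉ O`, `(ℓ₁ + u ℓ₀) x = ℓ₁ x` mod `O`. -/

set_option autoImplicit false

open scoped ComplexConjugate
open MeasureTheory Set Filter Topology

namespace NAB

open CM27

theorem a11a_sw (g : Mt) (x : ℂ × ℂ) : mv (Sw * g) x = ((mv g x).2, (mv g x).1) := by
  rw [← mv_comp]
  simp [mv, Sw]

theorem a11a_ho (b : Eis) (g : Mt) (x : ℂ × ℂ) :
    mv (Ho b * g) x = ((mv g x).1, emb b * (mv g x).1 + (mv g x).2) := by
  rw [← mv_comp]
  simp [mv, Ho]

theorem a11a_di (u v : Eis) (g : Mt) (x : ℂ × ℂ) :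
    mv (Di u v * g) x = (emb u * (mv g x).1, emb v * (mv g x).2) := by
  rw [← mv_comp]
  simp [mv, Di]

theorem a11a_det_sw (g : Mt) (hg : IsUnit g.det) : IsUnit (Sw * g).det := by
  rw [Matrix.det_mul]
  refine IsUnit.mul ?_ hg
  have : Sw.det = -1 := by simp [Sw, Matrix.det_fin_two]
  rw [this]
  exact isUnit_one.neg

theorem a11a_det_ho (b : Eis) (g : Mt) (hg : IsUnit g.det) : IsUnit (Ho b * g).det := by
  rw [Matrix.det_mul]
  refine IsUnit.mul ?_ hg
  have : (Ho b).det = 1 := by simp [Ho, Matrix.det_fin_two]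
  rw [this]
  exact isUnit_one

theorem a11a_det_di (u v : Eis) (hu : IsUnit u) (hv : IsUnit v) (g : Mt) (hg : IsUnit g.det) :
    IsUnit (Di u v * g).det := by
  rw [Matrix.det_mul]
  refine IsUnit.mul ?_ hg
  have : (Di u v).det = u * v := by simp [Di, Matrix.det_fin_two]
  rw [this]
  exact hu.mul hv

theorem a11a_add {y z : ℂ} (hy : y ∈ Set.range emb) (hz : z ∈ Set.range emb) :
    y + z ∈ Set.range emb := by
  obtain ⟨a, rfl⟩ := hy
  obtain ⟨b, rfl⟩ := hz
  exact ⟨a + b, map_add _ _ _⟩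

theorem a11a_mul (a : Eis) {z : ℂ} (hz : z ∈ Set.range emb) : emb a * z ∈ Set.range emb := by
  obtain ⟨b, rfl⟩ := hz
  exact ⟨a * b, map_mul _ _ _⟩

theorem a11a_add_iff {y z : ℂ} (hz : z ∈ Set.range emb) :
    y + z ∈ Set.range emb ↔ y ∈ Set.range emb := by
  constructor
  · intro h
    obtain ⟨a, ha⟩ := h
    obtain ⟨b, rfl⟩ := hz
    exact ⟨a - b, by rw [map_sub, ha]; ring⟩
  · intro h
    exact a11a_add h hz

theorem a11a_mul_iff {u : Eis} (hu : IsUnit u) {z : ℂ} :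
    emb u * z ∈ Set.range emb ↔ z ∈ Set.range emb := by
  constructor
  · intro h
    obtain ⟨v, hv⟩ := hu.exists_left_inv
    have h1 := a11a_mul v h
    rwa [← mul_assoc, ← map_mul, hv, map_one, one_mul] at h1
  · exact a11a_mul u

theorem a11a_notboth (x : ℂ × ℂ) (hx : x ∉ L2) (g : Mt) (hg : IsUnit g.det)
    (h1 : (mv g x).1 ∈ Set.range emb) : (mv g x).2 ∉ Set.range emb := by
  intro h2
  apply hx
  rw [← L2_mv_iff g hg]
  obtain ⟨a, ha⟩ := h1
  obtain ⟨b, hb⟩ := h2
  exact ⟨(a, b), Prod.ext ha hb⟩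

theorem a11a_matid (u u' : Eis) (h : u * u' = 1) :
    Di 1 (-u') * (Ho (-1) * (Sw * (Di 1 u * (Ho u' * Sw)))) = Sw * Ho u := by
  refine Matrix.ext fun i j => ?_
  fin_cases i <;> fin_cases j
  · simp [Di, Ho, Sw, Matrix.mul_apply, Fin.sum_univ_two]
  · simp [Di, Ho, Sw, Matrix.mul_apply, Fin.sum_univ_two, h]
  · simp [Di, Ho, Sw, Matrix.mul_apply, Fin.sum_univ_two, mul_comm u' u, h]
  · simp [Di, Ho, Sw, Matrix.mul_apply, Fin.sum_univ_two, h]

theorem walk_ind (x : ℂ × ℂ) (hx : x ∉ L2) (R : Mt → Mt → Prop) (hrefl : ∀ g, R g g)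
    (hsymm : ∀ g g', R g g' → R g' g)
    (htrans : ∀ g g' g'', IsUnit g.det → IsUnit g'.det → IsUnit g''.det → R g g' → R g' g'' → R g g'')
    (hsw : ∀ g : Mt, IsUnit g.det → (mv g x).1 ∉ Set.range emb → (mv g x).2 ∉ Set.range emb →
      R g (Sw * g))
    (hho : ∀ (g : Mt) (b : Eis), IsUnit g.det → (mv g x).1 ∉ Set.range emb → R g (Ho b * g))
    (hun : ∀ (g : Mt) (u v : Eis), IsUnit g.det → IsUnit u → IsUnit v →
      (mv g x).1 ∉ Set.range emb → R g (Di u v * g)) :
    ∀ g g' : Mt, IsUnit g.det → IsUnit g'.det → (mv g x).1 ∉ Set.range emb →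
      (mv g' x).1 ∉ Set.range emb → R g g' := by
  classical
  -- bad cusps, `b` a unit
  have hunit : ∀ u u' : Eis, u * u' = 1 → ∀ g : Mt, IsUnit g.det →
      (mv g x).1 ∈ Set.range emb → R (Sw * g) (Sw * (Ho u * g)) := by
    intro u u' huu g hg hbad
    have hu : IsUnit u := IsUnit.of_mul_eq_one _ huu
    have hu' : IsUnit u' := IsUnit.of_mul_eq_one u (by rw [mul_comm]; exact huu)
    have h2 := a11a_notboth x hx g hg hbad
    have g0 : IsUnit (Sw * g).det := a11a_det_sw g hg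
    have g1 : IsUnit (Ho u' * (Sw * g)).det := a11a_det_ho _ _ g0
    have g2 : IsUnit (Di 1 u * (Ho u' * (Sw * g))).det := a11a_det_di _ _ isUnit_one hu _ g1
    have g3 : IsUnit (Sw * (Di 1 u * (Ho u' * (Sw * g)))).det := a11a_det_sw _ g2
    have g4 : IsUnit (Ho (-1) * (Sw * (Di 1 u * (Ho u' * (Sw * g))))).det := a11a_det_ho _ _ g3
    have g5 : IsUnit (Di 1 (-u') * (Ho (-1) * (Sw * (Di 1 u * (Ho u' * (Sw * g)))))).det :=
      a11a_det_di _ _ isUnit_one hu'.neg _ g4
    have m0 : (mv (Sw * g) x).1 ∉ Set.range emb := by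
      rw [a11a_sw]; exact h2
    have m1 : (mv (Ho u' * (Sw * g)) x).1 ∉ Set.range emb := by
      rw [a11a_ho]; exact m0
    have m2 : (mv (Di 1 u * (Ho u' * (Sw * g))) x).1 ∉ Set.range emb := by
      rw [a11a_di, map_one, one_mul]; exact m1
    have m3 : (mv (Sw * (Di 1 u * (Ho u' * (Sw * g)))) x).1 ∉ Set.range emb := by
      rw [a11a_sw, a11a_di, a11a_ho, a11a_sw]
      show emb u * (emb u' * (mv g x).2 + (mv g x).1) ∉ Set.range emb
      have e : emb u * (emb u' * (mv g x).2 + (mv g x).1) =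
          (mv g x).2 + emb u * (mv g x).1 := by
        rw [mul_add, ← mul_assoc, ← map_mul, huu, map_one, one_mul]
      rw [e, a11a_add_iff (a11a_mul u hbad)]
      exact h2
    have m4 : (mv (Ho (-1) * (Sw * (Di 1 u * (Ho u' * (Sw * g))))) x).1 ∉ Set.range emb := by
      rw [a11a_ho]; exact m3
    have r1 := hho _ u' g0 m0
    have r2 := hun _ 1 u g1 isUnit_one hu m1
    have r3 : R (Di 1 u * (Ho u' * (Sw * g))) (Sw * (Di 1 u * (Ho u' * (Sw * g)))) := by
      refine hsw _ g2 m2 ?_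
      have := m3
      rw [a11a_sw] at this
      exact this
    have r4 := hho _ (-1) g3 m3
    have r5 := hun _ 1 (-u') g4 isUnit_one hu'.neg m4
    have e : Di 1 (-u') * (Ho (-1) * (Sw * (Di 1 u * (Ho u' * (Sw * g))))) = Sw * (Ho u * g) := by
      have := congrArg (· * g) (a11a_matid u u' huu)
      simpa only [Matrix.mul_assoc] using this
    rw [e] at r5 g5
    exact htrans _ _ _ g0 g1 g5 r1 (htrans _ _ _ g1 g2 g5 r2 (htrans _ _ _ g2 g3 g5 r3
      (htrans _ _ _ g3 g4 g5 r4 r5)))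
  have hHo : ∀ b c : Eis, Ho b * Ho c = Ho (b + c) := by
    intro b c
    refine Matrix.ext fun i j => ?_
    fin_cases i <;> fin_cases j <;> simp [Ho, Matrix.mul_apply, Fin.sum_univ_two]
  have hHo0 : Ho 0 = 1 := by
    refine Matrix.ext fun i j => ?_
    fin_cases i <;> fin_cases j <;> simp [Ho]
  let H : AddSubgroup Eis :=
    { carrier := {b | ∀ g : Mt, IsUnit g.det → (mv g x).1 ∈ Set.range emb →
        R (Sw * g) (Sw * (Ho b * g))}
      zero_mem' := by
        intro g _ _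
        rw [hHo0, one_mul]
        exact hrefl _
      add_mem' := by
        intro b c hb hc g hg hbad
        have h1 := hc g hg hbad
        have g1 : IsUnit (Ho c * g).det := a11a_det_ho _ _ hg
        have h2 := hb (Ho c * g) g1 (by rw [a11a_ho]; exact hbad)
        rw [← Matrix.mul_assoc (Ho b), hHo] at h2
        exact htrans _ _ _ (a11a_det_sw _ hg) (a11a_det_sw _ g1)
          (a11a_det_sw _ (a11a_det_ho _ _ hg)) h1 h2
      neg_mem' := by
        intro b hb g hg hbad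
        have g1 : IsUnit (Ho (-b) * g).det := a11a_det_ho _ _ hg
        have h2 := hb (Ho (-b) * g) g1 (by rw [a11a_ho]; exact hbad)
        rw [← Matrix.mul_assoc (Ho b), hHo, add_neg_cancel, hHo0, one_mul] at h2
        exact hsymm _ _ h2 }
  have hbadall : ∀ (b : Eis) (g : Mt), IsUnit g.det → (mv g x).1 ∈ Set.range emb →
      R (Sw * g) (Sw * (Ho b * g)) := by
    intro b
    have h1 : (1 : Eis) ∈ H := fun g hg hb => hunit 1 1 (one_mul 1) g hg hb
    have h2 : (⟨0, 1⟩ : Eis) ∈ H := fun g hg hb => hunit ⟨0, 1⟩ ⟨-1, -1⟩ (by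
      ext <;> simp [QuadraticAlgebra.re_one, QuadraticAlgebra.im_one]) g hg hb
    have h3 : b = b.re • (1 : Eis) + b.im • (⟨0, 1⟩ : Eis) := by
      ext <;> simp [QuadraticAlgebra.re_one, QuadraticAlgebra.im_one]
    have h4 : b ∈ H := by
      rw [h3]
      exact H.add_mem (H.zsmul_mem h1 _) (H.zsmul_mem h2 _)
    exact h4
  -- the normalised matrix
  let P : Mt → Mt := fun g => if (mv g x).1 ∈ Set.range emb then Sw * g else g
  have hPbad : ∀ g : Mt, (mv g x).1 ∈ Set.range emb → P g = Sw * g := fun g h => if_pos h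
  have hPgood : ∀ g : Mt, (mv g x).1 ∉ Set.range emb → P g = g := fun g h => if_neg h
  have hPdet : ∀ g : Mt, IsUnit g.det → IsUnit (P g).det := by
    intro g hg
    by_cases h : (mv g x).1 ∈ Set.range emb
    · rw [hPbad g h]; exact a11a_det_sw _ hg
    · rw [hPgood g h]; exact hg
  have hSwSw : Sw * Sw = 1 := by
    refine Matrix.ext fun i j => ?_
    fin_cases i <;> fin_cases j <;> simp [Sw, Matrix.mul_apply, Fin.sum_univ_two]
  have hTsw : ∀ g : Mt, IsUnit g.det → R (P g) (P (Sw * g)) := by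
    intro g hg
    by_cases h1 : (mv g x).1 ∈ Set.range emb
    · have h2 := a11a_notboth x hx g hg h1
      rw [hPbad g h1, hPgood (Sw * g) (by rw [a11a_sw]; exact h2)]
      exact hrefl _
    · by_cases h2 : (mv g x).2 ∈ Set.range emb
      · rw [hPgood g h1, hPbad (Sw * g) (by rw [a11a_sw]; exact h2), ← Matrix.mul_assoc, hSwSw,
          one_mul]
        exact hrefl _
      · rw [hPgood g h1, hPgood (Sw * g) (by rw [a11a_sw]; exact h2)]
        exact hsw g hg h1 h2
  have hTdi : ∀ (u v : Eis), IsUnit u → IsUnit v → ∀ g : Mt, IsUnit g.det →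
      R (P g) (P (Di u v * g)) := by
    intro u v hu hv g hg
    by_cases h1 : (mv g x).1 ∈ Set.range emb
    · have h2 := a11a_notboth x hx g hg h1
      rw [hPbad g h1, hPbad (Di u v * g) (by rw [a11a_di]; exact a11a_mul u h1)]
      have e : Sw * (Di u v * g) = Di v u * (Sw * g) := by
        rw [← Matrix.mul_assoc, ← Matrix.mul_assoc]
        congr 1
        refine Matrix.ext fun i j => ?_
        fin_cases i <;> fin_cases j <;> simp [Sw, Di, Matrix.mul_apply, Fin.sum_univ_two]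
      rw [e]
      exact hun _ v u (a11a_det_sw _ hg) hv hu (by rw [a11a_sw]; exact h2)
    · rw [hPgood g h1, hPgood (Di u v * g) (by
        rw [a11a_di]
        intro h
        exact h1 ((a11a_mul_iff hu).mp h))]
      exact hun g u v hg hu hv h1
  have hTho : ∀ (b : Eis), ∀ g : Mt, IsUnit g.det → R (P g) (P (Ho b * g)) := by
    intro b g hg
    by_cases h1 : (mv g x).1 ∈ Set.range emb
    · rw [hPbad g h1, hPbad (Ho b * g) (by rw [a11a_ho]; exact h1)]
      exact hbadall b g hg h1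
    · rw [hPgood g h1, hPgood (Ho b * g) (by rw [a11a_ho]; exact h1)]
      exact hho g b hg h1
  -- closure under products
  let G : Mt → Prop := fun γ => ∀ g : Mt, IsUnit g.det → R (P g) (P (γ * g))
  have hGmul : ∀ γ δ : Mt, IsUnit γ.det → IsUnit δ.det → G γ → G δ → G (γ * δ) := by
    intro γ δ hγ hδ h1 h2 g hg
    have d1 : IsUnit (δ * g).det := by rw [Matrix.det_mul]; exact hδ.mul hg
    have d2 : IsUnit (γ * (δ * g)).det := by rw [Matrix.det_mul]; exact hγ.mul d1
    rw [Matrix.mul_assoc]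
    exact htrans _ _ _ (hPdet _ hg) (hPdet _ d1) (hPdet _ d2) (h2 g hg) (h1 (δ * g) d1)
  have dSw : IsUnit Sw.det := by
    have := a11a_det_sw 1 (by rw [Matrix.det_one]; exact isUnit_one)
    rwa [mul_one] at this
  have dHo : ∀ b, IsUnit (Ho b).det := fun b => by
    have := a11a_det_ho b 1 (by rw [Matrix.det_one]; exact isUnit_one)
    rwa [mul_one] at this
  have dDi : ∀ u v, IsUnit u → IsUnit v → IsUnit (Di u v).det := fun u v hu hv => by
    have := a11a_det_di u v hu hv 1 (by rw [Matrix.det_one]; exact isUnit_one)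
    rwa [mul_one] at this
  have gSw : G Sw := hTsw
  have gHo : ∀ b, G (Ho b) := hTho
  have gDi : ∀ u v, IsUnit u → IsUnit v → G (Di u v) := fun u v hu hv => hTdi u v hu hv
  -- upper triangular unipotent
  have gUp : ∀ b, G (Sw * (Ho b * Sw)) := fun b =>
    hGmul _ _ dSw (by rw [Matrix.det_mul]; exact (dHo b).mul dSw) gSw
      (hGmul _ _ (dHo b) dSw (gHo b) gSw)
  have dUp : ∀ b, IsUnit (Sw * (Ho b * Sw)).det := fun b => by
    rw [Matrix.det_mul, Matrix.det_mul]; exact dSw.mul ((dHo b).mul dSw)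
  have hall : ∀ n : ℕ, ∀ γ : Mt, IsUnit γ.det → (γ 0 0).norm.toNat ≤ n → G γ := by
    intro n
    induction n using Nat.strong_induction_on with
    | _ n ih =>
    intro γ hγ hn
    by_cases h0 : γ 0 0 = 0
    · -- `γ = [[0, b], [c, d]]`
      have hdet : γ.det = -(γ 0 1 * γ 1 0) := by rw [Matrix.det_fin_two, h0]; ring
      have hbc : IsUnit (γ 0 1 * γ 1 0) := by
        have := hγ.neg
        rwa [hdet, neg_neg] at this
      have hb : IsUnit (γ 0 1) := isUnit_of_mul_isUnit_left hbc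
      have hc : IsUnit (γ 1 0) := isUnit_of_mul_isUnit_right hbc
      obtain ⟨c', hc'⟩ := hc.exists_right_inv
      have e : γ = Sw * (Di (γ 1 0) (γ 0 1) * (Sw * (Ho (c' * γ 1 1) * Sw))) := by
        refine Matrix.ext fun i j => ?_
        fin_cases i <;> fin_cases j
        · simp [Sw, Di, Ho, Matrix.mul_apply, Fin.sum_univ_two, h0]
        · simp [Sw, Di, Ho, Matrix.mul_apply, Fin.sum_univ_two]
        · simp [Sw, Di, Ho, Matrix.mul_apply, Fin.sum_univ_two]
        · simp [Sw, Di, Ho, Matrix.mul_apply, Fin.sum_univ_two, ← mul_assoc, hc']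
      rw [e]
      exact hGmul _ _ dSw (by rw [Matrix.det_mul]; exact (dDi _ _ hc hb).mul (dUp _)) gSw
        (hGmul _ _ (dDi _ _ hc hb) (dUp _) (gDi _ _ hc hb) (gUp _))
    · obtain ⟨q, hq⟩ := a1_div (γ 1 0) (γ 0 0) h0
      have dδ : IsUnit (Sw * (Ho (-q) * γ)).det := by
        rw [Matrix.det_mul, Matrix.det_mul]; exact dSw.mul ((dHo _).mul hγ)
      have e00 : (Sw * (Ho (-q) * γ)) 0 0 = γ 1 0 - γ 0 0 * q := by
        rw [Matrix.mul_apply, Fin.sum_univ_two, Matrix.mul_apply, Matrix.mul_apply,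
          Fin.sum_univ_two, Fin.sum_univ_two]
        have a1 : Sw 0 0 = 0 := rfl
        have a2 : Sw 0 1 = 1 := rfl
        have a3 : Ho (-q) 1 0 = -q := rfl
        have a4 : Ho (-q) 1 1 = 1 := rfl
        rw [a1, a2, a3, a4]
        ring
      have hlt : ((Sw * (Ho (-q) * γ)) 0 0).norm.toNat < n := by
        rw [e00]
        have h1 := norm_nonneg' (γ 1 0 - γ 0 0 * q)
        have h2 := norm_nonneg' (γ 0 0)
        omega
      have h1 := ih _ hlt (Sw * (Ho (-q) * γ)) dδ le_rfl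
      have e : γ = Ho q * (Sw * (Sw * (Ho (-q) * γ))) := by
        rw [← Matrix.mul_assoc Sw Sw, hSwSw, one_mul, ← Matrix.mul_assoc, hHo, add_neg_cancel,
          hHo0, one_mul]
      rw [e]
      exact hGmul _ _ (dHo q) (by rw [Matrix.det_mul]; exact dSw.mul dδ) (gHo q)
        (hGmul _ _ dSw dδ gSw h1)
  intro g g' hg hg' h1 h2
  have h3 := hall _ (g' * g⁻¹) (by
    rw [Matrix.det_mul]
    exact hg'.mul (Matrix.isUnit_nonsing_inv_det g hg)) le_rfl g hg
  rw [Matrix.mul_assoc, Matrix.nonsing_inv_mul g hg, mul_one, hPgood g h1, hPgood g' h2] at h3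
  exact h3

end NAB
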