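import Pool.Agent.MP_9ab903_nt.NAB.A10
import Pool.Agent.MP_9ab903_nt.NAB.A11a

/-! ## [NAB-A11b] integrality and Galois action of `2 S(x; h, M*h) / OmC²`

`R g g' := ∃ V V', 2 SS x (fl g τ) (fl g' τ) / OmC² → V ∧ 2 SS (u x) (fl g τ) (fl g' τ) / OmC² → V' ∧ (∀ A 2-adic, A.valuation V ≤ 1)
∧ σ V = V'` (`τ → ∞`). Reflexive (`SS_self`), symmetric (`SS_symm`), transitive (`SS_add` for `τ > 0`), `hsw` from `lim_sw`, `E1_val`,
`E1_gal` (`E1 (mv g (u x)).1 = E1 (emb u * (mv g x).1)`, and `emb u * y ∉ O` iff `y ∉ O` since `u` is prime to `N`), `hho` from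
`lim_ho`, `Q2_val`, `Q2_gal`, `hun` from `fl_di`. Take `g = 1` or `Sw` with `(mv g x).1 ∉ O` and `g' = g * M`
(`mv g' x - mv g x` lattice): `fl (g * M) τ = pb M (fl g τ)`, and `SS x (fl g τ) (pb M (fl g τ))` does not depend on `τ`
(`SS_indep`). -/

set_option autoImplicit false

open scoped ComplexConjugate
open MeasureTheory Set Filter Topology

namespace NAB

open CM27

/-- `(emb u * x.1, emb u * x.2)` -/
noncomputable def sc (u : Eis) (x : ℂ × ℂ) : ℂ × ℂ := (emb u * x.1, emb u * x.2)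

theorem a11b_mv_sc (g : Mt) (u : Eis) (x : ℂ × ℂ) : mv g (sc u x) = sc u (mv g x) := by
  simp only [mv, sc]
  ext <;> ring

theorem a11b_sc_em (u : Eis) (m : Eis × Eis) : sc u (em m) = em (u * m.1, u * m.2) := by
  simp only [sc, em, map_mul]

theorem a11b_sc_L2 (u : Eis) {x : ℂ × ℂ} (hx : x ∈ L2) : sc u x ∈ L2 := by
  obtain ⟨m, rfl⟩ := hx
  exact ⟨_, (a11b_sc_em u m).symm⟩

theorem a11b_sc_sub (u : Eis) (x y : ℂ × ℂ) : sc u x - sc u y = sc u (x - y) := by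
  simp only [sc, Prod.fst_sub, Prod.snd_sub]
  ext <;> simp <;> ring

/-- the components of `mv g x` are torsion points -/
theorem a11b_tors (x : ℂ × ℂ) (N : ℕ) (hx : sc N x ∈ L2) (g : Mt) :
    (N : ℂ) * (mv g x).1 ∈ Set.range emb ∧ (N : ℂ) * (mv g x).2 ∈ Set.range emb := by
  have h1 : mv g (sc N x) ∈ L2 := L2_mv g hx
  rw [a11b_mv_sc] at h1
  obtain ⟨m, hm⟩ := h1
  have h2 := congrArg Prod.fst hm
  have h3 := congrArg Prod.snd hm
  simp only [sc, em, map_natCast] at h2 h3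
  exact ⟨⟨_, h2⟩, ⟨_, h3⟩⟩

/-- multiplication by `u` preserves non-lattice torsion points -/
theorem a11b_off (N : ℕ) (u : Eis) (hu : IsCoprime u (N : Eis)) (y : ℂ)
    (hy : (N : ℂ) * y ∈ Set.range emb) (hy0 : y ∉ Set.range emb) :
    emb u * y ∉ Set.range emb := by
  rintro ⟨c, hc⟩
  obtain ⟨d, hd⟩ := hy
  obtain ⟨a, b, hab⟩ := hu
  apply hy0
  refine ⟨a * c + b * d, ?_⟩
  have h1 : emb a * emb u + emb b * (N : ℂ) = 1 := by
    have := congrArg emb hab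
    simpa only [map_add, map_mul, map_natCast, map_one] using this
  rw [map_add, map_mul, map_mul, hc, hd]
  linear_combination y * h1

theorem a11b_sc_not (N : ℕ) (u : Eis) (hu : IsCoprime u (N : Eis)) (x : ℂ × ℂ)
    (hx : sc N x ∈ L2) (hx0 : x ∉ L2) : sc u x ∉ L2 := by
  rintro ⟨m, hm⟩
  have h1 := a11b_tors x N hx 1
  rw [mv_one] at h1
  have h2 := congrArg Prod.fst hm
  have h3 := congrArg Prod.snd hm
  simp only [sc, em] at h2 h3
  apply hx0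
  have h4 : x.1 ∈ Set.range emb := by
    by_contra h
    exact a11b_off N u hu x.1 h1.1 h ⟨_, h2⟩
  have h5 : x.2 ∈ Set.range emb := by
    by_contra h
    exact a11b_off N u hu x.2 h1.2 h ⟨_, h3⟩
  obtain ⟨a, ha⟩ := h4
  obtain ⟨b, hb⟩ := h5
  exact ⟨(a, b), Prod.ext ha hb⟩

theorem a11b_fl_mul (g M : Mt) (τ : ℝ) : fl (g * M) τ = pb M (fl g τ) := by
  rw [fl, fl, pb_comp]

/-- a good flag -/
theorem a11b_exists (x : ℂ × ℂ) (hx0 : x ∉ L2) (M : Mt) (hM : M.det = 1)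
    (hMx : mv M x - x ∈ L2) : ∃ g : Mt, IsUnit g.det ∧ IsUnit (g * M).det ∧
      (mv g x).1 ∉ Set.range emb ∧ (mv (g * M) x).1 ∉ Set.range emb := by
  have h1 : ∀ g : Mt, (mv g x).1 ∉ Set.range emb → (mv (g * M) x).1 ∉ Set.range emb := by
    rintro g hg ⟨c, hc⟩
    apply hg
    have h2 : mv g (mv M x - x) ∈ L2 := L2_mv g hMx
    rw [mv_sub, mv_comp] at h2
    obtain ⟨m, hm⟩ := h2
    have h3 := congrArg Prod.fst hm
    simp only [em, Prod.fst_sub] at h3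
    refine ⟨c - m.1, ?_⟩
    rw [map_sub, hc, h3]
    ring
  have h2 : ∀ g : Mt, IsUnit g.det → IsUnit (g * M).det := by
    intro g hg
    rw [Matrix.det_mul, hM, mul_one]
    exact hg
  by_cases hx1 : x.1 ∈ Set.range emb
  · have hx2 : x.2 ∉ Set.range emb := by
      intro hx2
      obtain ⟨a, ha⟩ := hx1
      obtain ⟨b, hb⟩ := hx2
      exact hx0 ⟨(a, b), Prod.ext ha hb⟩
    have hs : (mv Sw x).1 = x.2 := by simp [mv, Sw]
    have hd : IsUnit Sw.det := by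
      simp [Sw, Matrix.det_fin_two_of]
    exact ⟨Sw, hd, h2 _ hd, by rw [hs]; exact hx2, h1 _ (by rw [hs]; exact hx2)⟩
  · have hd : IsUnit (1 : Mt).det := by rw [Matrix.det_one]; exact isUnit_one
    exact ⟨1, hd, h2 _ hd, by rw [mv_one]; exact hx1, h1 _ (by rw [mv_one]; exact hx1)⟩

/-- the limit for a good flag -/
theorem a11b_lim (x : ℂ × ℂ) (hx0 : x ∉ L2) (M : Mt) (hM : M.det = 1)
    (hMx : mv M x - x ∈ L2) (h : HF) (hh : PD h) (g : Mt) (hg : IsUnit g.det) (V : ℂ)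
    (hV : Tendsto (fun τ : ℝ => 2 * SS x (fl g τ) (fl (g * M) τ) / OmC ^ 2) atTop (𝓝 V)) :
    2 * SS x h (pb M h) / OmC ^ 2 = V := by
  refine tendsto_nhds_unique (Tendsto.congr' ?_ hV) tendsto_const_nhds |>.symm
  filter_upwards [eventually_gt_atTop (0 : ℝ)] with τ hτ
  rw [a11b_fl_mul, SS_indep x hx0 M hM hMx (fl g τ) h (fl_PD hg hτ) hh]

/-- transitivity -/
theorem a11b_add (x : ℂ × ℂ) (hx0 : x ∉ L2) (g g' g'' : Mt) (hg : IsUnit g.det)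
    (hg' : IsUnit g'.det) (hg'' : IsUnit g''.det) (V V' : ℂ)
    (hV : Tendsto (fun τ : ℝ => 2 * SS x (fl g τ) (fl g' τ) / OmC ^ 2) atTop (𝓝 V))
    (hV' : Tendsto (fun τ : ℝ => 2 * SS x (fl g' τ) (fl g'' τ) / OmC ^ 2) atTop (𝓝 V')) :
    Tendsto (fun τ : ℝ => 2 * SS x (fl g τ) (fl g'' τ) / OmC ^ 2) atTop (𝓝 (V + V')) := by
  refine Tendsto.congr' ?_ (hV.add hV')
  filter_upwards [eventually_gt_atTop (0 : ℝ)] with τ hτ
  rw [← SS_add x hx0 _ _ _ (fl_PD hg hτ) (fl_PD hg' hτ) (fl_PD hg'' hτ)]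
  ring

theorem a11b_neg (x : ℂ × ℂ) (g g' : Mt) (V : ℂ)
    (hV : Tendsto (fun τ : ℝ => 2 * SS x (fl g τ) (fl g' τ) / OmC ^ 2) atTop (𝓝 V)) :
    Tendsto (fun τ : ℝ => 2 * SS x (fl g' τ) (fl g τ) / OmC ^ 2) atTop (𝓝 (-V)) := by
  refine Tendsto.congr (fun τ => ?_) hV.neg
  rw [SS_symm]
  ring

theorem a11b_self (x : ℂ × ℂ) (g : Mt) :
    Tendsto (fun τ : ℝ => 2 * SS x (fl g τ) (fl g τ) / OmC ^ 2) atTop (𝓝 0) := by
  refine Tendsto.congr (fun τ => ?_) (tendsto_const_nhds (x := (0 : ℂ)))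
  rw [SS_self]
  simp

theorem a11b_di (x : ℂ × ℂ) (g : Mt) (u v : Eis) (hu : IsUnit u) (hv : IsUnit v) :
    Tendsto (fun τ : ℝ => 2 * SS x (fl g τ) (fl (Di u v * g) τ) / OmC ^ 2) atTop (𝓝 0) := by
  refine Tendsto.congr (fun τ => ?_) (a11b_self x g)
  rw [fl_di g hu hv]

theorem a11b_sw (x : ℂ × ℂ) (g : Mt) (hg : IsUnit g.det) (h1 : (mv g x).1 ∉ Set.range emb)
    (h2 : (mv g x).2 ∉ Set.range emb) :
    Tendsto (fun τ : ℝ => 2 * SS x (fl g τ) (fl (Sw * g) τ) / OmC ^ 2) atTop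
      (𝓝 (-(emb g.det * (E1 (mv g x).1 / OmC) * (E1 (mv g x).2 / OmC)))) := by
  have := ((lim_sw x g hg h1 h2).const_mul 2).div_const (OmC ^ 2)
  convert this using 2
  ring

theorem a11b_ho (x : ℂ × ℂ) (g : Mt) (b : Eis) (hg : IsUnit g.det)
    (h1 : (mv g x).1 ∉ Set.range emb) :
    Tendsto (fun τ : ℝ => 2 * SS x (fl g τ) (fl (Ho b * g) τ) / OmC ^ 2) atTop
      (𝓝 (-(emb g.det * emb (star b) * (Q2 (mv g x).1 / OmC ^ 2)))) := by
  have := ((lim_ho x g b hg h1).const_mul 2).div_const (OmC ^ 2)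
  convert this using 2
  rw [emb_star]
  ring

theorem walk_val (x : ℂ × ℂ) (N : ℕ) (hN : Odd N) (hx : sc N x ∈ L2) (hx0 : x ∉ L2) (M : Mt)
    (hM : M.det = 1) (hMx : mv M x - x ∈ L2) (h : HF) (hh : PD h) (A : ValuationSubring ℂ)
    (hA : A.valuation 2 < 1) : A.valuation (2 * SS x h (pb M h) / OmC ^ 2) ≤ 1 := by
  obtain ⟨g, hg, hg', h1, h1'⟩ := a11b_exists x hx0 M hM hMx
  have key := walk_ind x hx0 (fun g g' => ∃ V : ℂ,
      Tendsto (fun τ : ℝ => 2 * SS x (fl g τ) (fl g' τ) / OmC ^ 2) atTop (𝓝 V) ∧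
      A.valuation V ≤ 1)
    (fun g => ⟨0, a11b_self x g, by rw [map_zero]; exact zero_le_one⟩)
    (fun g g' ⟨V, hV, hV1⟩ => ⟨-V, a11b_neg x g g' V hV, by rw [Valuation.map_neg]; exact hV1⟩)
    (fun g g' g'' hg hg' hg'' ⟨V, hV, hV1⟩ ⟨V', hV', hV1'⟩ =>
      ⟨V + V', a11b_add x hx0 g g' g'' hg hg' hg'' V V' hV hV',
        (A.valuation.map_add V V').trans (max_le hV1 hV1')⟩)
    (fun g hg h1 h2 => ⟨_, a11b_sw x g hg h1 h2, by
      obtain ⟨t1, t2⟩ := a11b_tors x N hx g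
      rw [Valuation.map_neg, map_mul, map_mul]
      exact mul_le_one₀ (mul_le_one₀ (val_emb A _) zero_le (E1_val A hA N hN _ t1 h1))
        zero_le (E1_val A hA N hN _ t2 h2)⟩)
    (fun g b hg h1 => ⟨_, a11b_ho x g b hg h1, by
      obtain ⟨t1, -⟩ := a11b_tors x N hx g
      rw [Valuation.map_neg, map_mul, map_mul]
      exact mul_le_one₀ (mul_le_one₀ (val_emb A _) zero_le (val_emb A _))
        zero_le (Q2_val A hA N hN _ t1 h1)⟩)
    (fun g u v _ hu hv _ => ⟨0, a11b_di x g u v hu hv, by rw [map_zero]; exact zero_le_one⟩)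
    g (g * M) hg hg' h1 h1'
  obtain ⟨V, hV, hV1⟩ := key
  rw [a11b_lim x hx0 M hM hMx h hh g hg V hV]
  exact hV1

theorem a11b_sig (σ : ℂ ≃+* ℂ) (hσ : σ w = w) (a : Eis) : σ (emb a) = emb a := by
  rw [emb_apply, map_add, map_mul, map_intCast, map_intCast, hσ]

theorem walk_gal (x : ℂ × ℂ) (N : ℕ) (hN : Odd N) (hx : sc N x ∈ L2) (hx0 : x ∉ L2) (M : Mt)
    (hM : M.det = 1) (hMx : mv M x - x ∈ L2) (h : HF) (hh : PD h) (σ : ℂ ≃+* ℂ) (hσ : σ w = w)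
    (u : Eis) (hu : IsCoprime u (N : Eis))
    (hσu : ∀ c : Eis, ptMap (σ : ℂ →+* ℂ) (pt (emb c / N)) = pt (emb (c * u) / N)) :
    σ (2 * SS x h (pb M h) / OmC ^ 2) = 2 * SS (sc u x) h (pb M h) / OmC ^ 2 := by
  obtain ⟨g, hg, hg', h1, h1'⟩ := a11b_exists x hx0 M hM hMx
  have hux0 : sc u x ∉ L2 := a11b_sc_not N u hu x hx hx0
  have hMux : mv M (sc u x) - sc u x ∈ L2 := by
    rw [a11b_mv_sc, a11b_sc_sub]
    exact a11b_sc_L2 u hMx
  have key := walk_ind x hx0 (fun g g' => ∃ V V' : ℂ,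
      Tendsto (fun τ : ℝ => 2 * SS x (fl g τ) (fl g' τ) / OmC ^ 2) atTop (𝓝 V) ∧
      Tendsto (fun τ : ℝ => 2 * SS (sc u x) (fl g τ) (fl g' τ) / OmC ^ 2) atTop (𝓝 V') ∧
      σ V = V')
    (fun g => ⟨0, 0, a11b_self x g, a11b_self _ g, map_zero _⟩)
    (fun g g' ⟨V, V', hV, hV', hs⟩ => ⟨-V, -V', a11b_neg x g g' V hV, a11b_neg _ g g' V' hV',
      by rw [map_neg, hs]⟩)
    (fun g g' g'' hg hg' hg'' ⟨V, V', hV, hV', hs⟩ ⟨W, W', hW, hW', hs'⟩ =>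
      ⟨V + W, V' + W', a11b_add x hx0 g g' g'' hg hg' hg'' V W hV hW,
        a11b_add _ hux0 g g' g'' hg hg' hg'' V' W' hV' hW', by rw [map_add, hs, hs']⟩)
    (fun g hg h1 h2 => by
      obtain ⟨t1, t2⟩ := a11b_tors x N hx g
      have e1 : (mv g (sc u x)).1 = emb u * (mv g x).1 := by rw [a11b_mv_sc]; rfl
      have e2 : (mv g (sc u x)).2 = emb u * (mv g x).2 := by rw [a11b_mv_sc]; rfl
      have l2 := a11b_sw (sc u x) g hg (by rw [e1]; exact a11b_off N u hu _ t1 h1)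
        (by rw [e2]; exact a11b_off N u hu _ t2 h2)
      refine ⟨_, _, a11b_sw x g hg h1 h2, l2, ?_⟩
      rw [map_neg, map_mul, map_mul, a11b_sig σ hσ, E1_gal σ hσ N hN u hu hσu _ t1 h1,
        E1_gal σ hσ N hN u hu hσu _ t2 h2, e1, e2])
    (fun g b hg h1 => by
      obtain ⟨t1, -⟩ := a11b_tors x N hx g
      have e1 : (mv g (sc u x)).1 = emb u * (mv g x).1 := by rw [a11b_mv_sc]; rfl
      have l2 := a11b_ho (sc u x) g b hg (by rw [e1]; exact a11b_off N u hu _ t1 h1)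
      refine ⟨_, _, a11b_ho x g b hg h1, l2, ?_⟩
      rw [map_neg, map_mul, map_mul, a11b_sig σ hσ, a11b_sig σ hσ,
        Q2_gal σ hσ N hN u hu hσu _ t1 h1, e1])
    (fun g a b _ ha hb _ => ⟨0, 0, a11b_di x g a b ha hb, a11b_di _ g a b ha hb, map_zero _⟩)
    g (g * M) hg hg' h1 h1'
  obtain ⟨V, V', hV, hV', hs⟩ := key
  rw [a11b_lim x hx0 M hM hMx h hh g hg V hV, a11b_lim _ hux0 M hM hMux h hh g hg V' hV', hs]

end NAB
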