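import Pool.Agent.MP_9ab903_nt.NAB.A3b

/-! ## [NAB-A12a] the sector integral is entire

On `sec r` (`0 < t₂ < t₁ < r² t₂`) the form `t₁ |l|² + t₂ |l'|²` satisfies the hypotheses of `TB` with `s = t₁ + t₂` and a
constant `c` depending on `r, l, l'` (`t₂ ≥ s/(1+r²)`; `|l|² + |l'|²` is PD, `PD_sq`, `PD.bounds`); the polynomial
`conj (lf l v * lf l' v)` is a combination of `mo 2 0, mo 1 1, mo 0 2`. `(t₁ t₂)^s` is bounded by a power of `t₁+t₂` resp.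
`1/(t₁+t₂)` locally uniformly in `s`, integrand `≤ (..) exp(-κ (σ + 1/σ))`, `σ = t₁ + t₂`. Holomorphy:
`hasDerivAt_integral_of_dominated_loc_of_deriv_le`. -/

set_option autoImplicit false

open scoped ComplexConjugate
open MeasureTheory Set Filter Topology

namespace NAB

open CM27

theorem a12_sec_open (r : ℝ) : IsOpen (sec r) := by
  have h1 : IsOpen {t : ℝ × ℝ | 0 < t.2} := isOpen_lt continuous_const continuous_snd
  have h2 : IsOpen {t : ℝ × ℝ | t.2 < t.1} := isOpen_lt continuous_snd continuous_fst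
  have h3 : IsOpen {t : ℝ × ℝ | t.1 < r ^ 2 * t.2} :=
    isOpen_lt continuous_fst (continuous_const.mul continuous_snd)
  exact h1.inter (h2.inter h3)

theorem a12_pos {r : ℝ} {t : ℝ × ℝ} (ht : t ∈ sec r) : 0 < t.1 ∧ 0 < t.2 :=
  ⟨ht.1.trans ht.2.1, ht.1⟩

/-- the integrand is a multiple of `th _ (nn ..)` -/
theorem a12_th (l l' : ℂ × ℂ) (hd : dt l l' ≠ 0) (h : HF) (x : ℂ × ℂ) :
    th h (fun v => conj (lf l v * lf l' v)) x = (-2 / dt l l') * th h (nn (sq l) (sq l')) x := by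
  unfold th
  rw [← tsum_mul_left]
  refine tsum_congr fun m => ?_
  rw [nn_sq]
  field_simp

/-- the theta bound on the sector -/
theorem a12_TB (l l' : ℂ × ℂ) (hd : dt l l' ≠ 0) (r : ℝ) (hr : 1 < r) (x : ℂ × ℂ) (hx : x ∉ L2) :
    ∃ C κ : ℝ, 0 < C ∧ 0 < κ ∧ ∀ t ∈ sec r,
      ‖th (t.1 • sq l + t.2 • sq l') (fun v => conj (lf l v * lf l' v)) x‖ ≤
        C * Real.exp (-(κ * ((t.1 + t.2) + 1 / (t.1 + t.2)))) := by
  have hPD : PD ((1 : ℝ) • sq l + (1 : ℝ) • sq l') := PD_sq hd one_pos one_pos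
  obtain ⟨c₀, hc₀, hb⟩ := hPD.bounds
  have hr2 : 1 < r ^ 2 := by nlinarith
  have hc : 1 ≤ c₀ * (1 + r ^ 2) := by nlinarith
  obtain ⟨C, κ, hC, hκ, H⟩ := TBn x hx (c₀ * (1 + r ^ 2)) hc (sq l) (sq l')
  have hdn : 0 < ‖(-2 : ℂ) / dt l l'‖ := by
    rw [norm_div]
    exact div_pos (by norm_num) (norm_pos_iff.2 hd)
  refine ⟨‖(-2 : ℂ) / dt l l'‖ * C, κ, mul_pos hdn hC, hκ, fun t ht => ?_⟩
  obtain ⟨h1, h2⟩ := a12_pos ht
  obtain ⟨-, ht1, ht2⟩ := ht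
  have hσ : 0 < t.1 + t.2 := by linarith
  rw [a12_th l l' hd, norm_mul, mul_assoc]
  refine mul_le_mul_of_nonneg_left ?_ (norm_nonneg _)
  refine H (t.1 + t.2) _ hσ (fun v => ?_) (fun v => ?_)
  · have h3 := (hb v).1
    rw [hv_comb, one_mul, one_mul, hv_sq, hv_sq] at h3
    rw [hv_comb, hv_sq, hv_sq]
    have hn := nrm_nonneg v
    have n1 := sq_nonneg ‖lf l v‖
    have n2 := sq_nonneg ‖lf l' v‖
    have hlow : (t.1 + t.2) / (1 + r ^ 2) ≤ t.2 := by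
      rw [div_le_iff₀ (by positivity)]
      nlinarith
    have e1 : (t.1 + t.2) / (c₀ * (1 + r ^ 2)) * nrm v =
        (t.1 + t.2) / (1 + r ^ 2) * (nrm v / c₀) := by
      field_simp
    rw [e1]
    have hq : 0 ≤ nrm v / c₀ := by positivity
    calc (t.1 + t.2) / (1 + r ^ 2) * (nrm v / c₀) ≤ t.2 * (nrm v / c₀) :=
          mul_le_mul_of_nonneg_right hlow hq
      _ ≤ t.2 * (‖lf l v‖ ^ 2 + ‖lf l' v‖ ^ 2) := mul_le_mul_of_nonneg_left h3 h2.le
      _ ≤ _ := by nlinarith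
  · have h3 := (hb v).2
    rw [hv_comb, one_mul, one_mul, hv_sq, hv_sq] at h3
    rw [hv_comb, hv_sq, hv_sq]
    have hn := nrm_nonneg v
    have n1 := sq_nonneg ‖lf l v‖
    have n2 := sq_nonneg ‖lf l' v‖
    calc t.1 * ‖lf l v‖ ^ 2 + t.2 * ‖lf l' v‖ ^ 2
        ≤ (t.1 + t.2) * (‖lf l v‖ ^ 2 + ‖lf l' v‖ ^ 2) := by nlinarith
      _ ≤ (t.1 + t.2) * (c₀ * nrm v) := mul_le_mul_of_nonneg_left h3 hσ.le
      _ ≤ _ := by
          have : c₀ * nrm v ≤ c₀ * (1 + r ^ 2) * nrm v := by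
            apply mul_le_mul_of_nonneg_right _ hn
            nlinarith
          nlinarith

/-- continuity of the theta function on the sector -/
theorem a12_cont (l l' : ℂ × ℂ) (hd : dt l l' ≠ 0) (r : ℝ) (x : ℂ × ℂ) :
    ContinuousOn (fun t : ℝ × ℝ =>
      th (t.1 • sq l + t.2 • sq l') (fun v => conj (lf l v * lf l' v)) x) (sec r) := by
  have h1 : (fun t : ℝ × ℝ =>
      th (t.1 • sq l + t.2 • sq l') (fun v => conj (lf l v * lf l' v)) x) =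
      fun t : ℝ × ℝ => (-2 / dt l l') * th (t.1 • sq l + t.2 • sq l') (nn (sq l) (sq l')) x := by
    funext t
    exact a12_th l l' hd _ x
  rw [h1]
  refine continuousOn_const.mul ?_
  have h2 : ContinuousOn (fun t : ℝ × ℝ => t.1 • sq l + t.2 • sq l') (sec r) := by
    apply Continuous.continuousOn
    fun_prop
  exact (th_nn_cont (sq l) (sq l') x).comp h2 (fun t ht =>
    PD_sq hd (a12_pos ht).1 (a12_pos ht).2)

/-- absorbing powers -/
theorem a12_absorb (r κ : ℝ) (hr : 1 < r) (hκ : 0 < κ) (n : ℕ) : ∃ K : ℝ, 0 < K ∧ ∀ t ∈ sec r,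
    (t.1 * t.2 + (t.1 * t.2)⁻¹) ^ n * Real.exp (-(κ * ((t.1 + t.2) + 1 / (t.1 + t.2)))) ≤
      K * Real.exp (-(κ / 2) * (t.1 + t.2)) := by
  have hr2 : 1 < r ^ 2 := by nlinarith
  refine ⟨(1 + r ^ 2) ^ (2 * n) * (((2 * n).factorial : ℝ) / (κ / 2) ^ (2 * n)), by positivity,
    fun t ht => ?_⟩
  obtain ⟨h1, h2⟩ := a12_pos ht
  obtain ⟨-, ht1, ht2⟩ := ht
  set σ := t.1 + t.2 with hσ
  have hσ0 : 0 < σ := by rw [hσ]; linarith
  set Z := σ + 1 / σ with hZ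
  have hZ0 : 0 < Z := by rw [hZ]; positivity
  have hy : 0 < t.1 * t.2 := mul_pos h1 h2
  have hyσ : t.1 * t.2 ≤ σ ^ 2 := by rw [hσ]; nlinarith
  have hlow : σ / (1 + r ^ 2) ≤ t.2 := by
    rw [div_le_iff₀ (by positivity), hσ]
    nlinarith
  have hlow1 : σ / (1 + r ^ 2) ≤ t.1 := hlow.trans ht1.le
  have hsr : 0 < σ / (1 + r ^ 2) := by positivity
  have hyinv : (t.1 * t.2)⁻¹ ≤ (1 + r ^ 2) ^ 2 * (1 / σ) ^ 2 := by
    have h3 : (σ / (1 + r ^ 2)) ^ 2 ≤ t.1 * t.2 := by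
      rw [pow_two]
      exact mul_le_mul hlow1 hlow hsr.le h1.le
    calc (t.1 * t.2)⁻¹ ≤ ((σ / (1 + r ^ 2)) ^ 2)⁻¹ := inv_anti₀ (by positivity) h3
      _ = _ := by field_simp
  have hY : t.1 * t.2 + (t.1 * t.2)⁻¹ ≤ (1 + r ^ 2) ^ 2 * Z ^ 2 := by
    have h3 : (1 : ℝ) ≤ (1 + r ^ 2) ^ 2 := by nlinarith
    have h4 : σ ^ 2 ≤ (1 + r ^ 2) ^ 2 * σ ^ 2 := by
      have := mul_le_mul_of_nonneg_right h3 (sq_nonneg σ)
      linarith
    have h5 : σ ^ 2 + (1 / σ) ^ 2 ≤ Z ^ 2 := by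
      have h6 : 0 < σ * (1 / σ) := by positivity
      rw [hZ]
      nlinarith
    calc t.1 * t.2 + (t.1 * t.2)⁻¹ ≤ (1 + r ^ 2) ^ 2 * σ ^ 2 + (1 + r ^ 2) ^ 2 * (1 / σ) ^ 2 := by
          linarith
      _ = (1 + r ^ 2) ^ 2 * (σ ^ 2 + (1 / σ) ^ 2) := by ring
      _ ≤ _ := mul_le_mul_of_nonneg_left h5 (by positivity)
  have hY0 : 0 ≤ t.1 * t.2 + (t.1 * t.2)⁻¹ := by positivity
  have hYn : (t.1 * t.2 + (t.1 * t.2)⁻¹) ^ n ≤ (1 + r ^ 2) ^ (2 * n) * Z ^ (2 * n) := by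
    calc (t.1 * t.2 + (t.1 * t.2)⁻¹) ^ n ≤ ((1 + r ^ 2) ^ 2 * Z ^ 2) ^ n :=
          pow_le_pow_left₀ hY0 hY n
      _ = _ := by rw [mul_pow, ← pow_mul, ← pow_mul]
  have hexp : Z ^ (2 * n) ≤ ((2 * n).factorial : ℝ) / (κ / 2) ^ (2 * n) *
      Real.exp (κ / 2 * Z) := by
    have h3 := Real.pow_div_factorial_le_exp (κ / 2 * Z) (by positivity) (2 * n)
    rw [mul_pow, div_le_iff₀ (by positivity)] at h3
    rw [div_mul_eq_mul_div, le_div_iff₀ (by positivity)]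
    linarith
  have hZσ : σ ≤ Z := by
    rw [hZ]
    have : 0 < 1 / σ := by positivity
    linarith
  calc (t.1 * t.2 + (t.1 * t.2)⁻¹) ^ n * Real.exp (-(κ * Z))
      ≤ ((1 + r ^ 2) ^ (2 * n) * (((2 * n).factorial : ℝ) / (κ / 2) ^ (2 * n) *
          Real.exp (κ / 2 * Z))) * Real.exp (-(κ * Z)) := by
        apply mul_le_mul_of_nonneg_right _ (Real.exp_pos _).le
        exact hYn.trans (mul_le_mul_of_nonneg_left hexp (by positivity))
    _ = (1 + r ^ 2) ^ (2 * n) * (((2 * n).factorial : ℝ) / (κ / 2) ^ (2 * n)) *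
          Real.exp (-(κ / 2) * Z) := by
        rw [mul_assoc, mul_assoc, mul_assoc, ← Real.exp_add]
        congr 4
        ring
    _ ≤ _ := by
        apply mul_le_mul_of_nonneg_left _ (by positivity)
        apply Real.exp_le_exp.2
        nlinarith

/-- the majorant is integrable -/
theorem a12_major (r κ : ℝ) (hκ : 0 < κ) :
    IntegrableOn (fun t : ℝ × ℝ => Real.exp (-κ * (t.1 + t.2))) (sec r) := by
  have h1 : IntegrableOn (fun u : ℝ => Real.exp (-κ * u)) (Ioi 0) :=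
    integrableOn_exp_mul_Ioi (by linarith) 0
  have h2 : IntegrableOn (fun t : ℝ × ℝ => Real.exp (-κ * t.1) * Real.exp (-κ * t.2))
      (Ioi 0 ×ˢ Ioi 0) := by
    have h3 := Integrable.mul_prod h1 h1
    rw [Measure.prod_restrict] at h3
    exact h3
  have h4 : (fun t : ℝ × ℝ => Real.exp (-κ * (t.1 + t.2))) =
      fun t : ℝ × ℝ => Real.exp (-κ * t.1) * Real.exp (-κ * t.2) := by
    funext t
    rw [← Real.exp_add]
    congr 1
    ring
  rw [h4]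
  exact h2.mono_set (fun t ht => ⟨(a12_pos ht).1, (a12_pos ht).2⟩)

/-- the power is bounded by `(y + 1/y)^N` -/
theorem a12_pow (y : ℝ) (hy : 0 < y) (s : ℂ) (N : ℕ) (hs : |s.re| ≤ N) :
    ‖((y : ℝ) : ℂ) ^ s‖ ≤ (y + y⁻¹) ^ N := by
  rw [Complex.norm_cpow_eq_rpow_re_of_pos hy]
  have hyi : 0 < y⁻¹ := inv_pos.2 hy
  have hs' := abs_le.1 hs
  rcases le_total 1 y with h | h
  · calc y ^ s.re ≤ y ^ (N : ℝ) := Real.rpow_le_rpow_of_exponent_le h hs'.2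
      _ = y ^ N := Real.rpow_natCast _ _
      _ ≤ _ := pow_le_pow_left₀ hy.le (by linarith) N
  · have h2 : 1 ≤ y⁻¹ := (one_le_inv₀ hy).2 h
    calc y ^ s.re = (y⁻¹) ^ (-s.re) := by
          rw [Real.inv_rpow hy.le, Real.rpow_neg hy.le, inv_inv]
      _ ≤ (y⁻¹) ^ (N : ℝ) := Real.rpow_le_rpow_of_exponent_le h2 (by linarith)
      _ = (y⁻¹) ^ N := Real.rpow_natCast _ _
      _ ≤ _ := pow_le_pow_left₀ hyi.le (by linarith) N

theorem a12_log (y : ℝ) (hy : 0 < y) : ‖Complex.log (y : ℂ)‖ ≤ y + y⁻¹ := by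
  have hyi : 0 < y⁻¹ := inv_pos.2 hy
  rw [← Complex.ofReal_log hy.le, Complex.norm_real, Real.norm_eq_abs, abs_le]
  have h1 := Real.log_le_sub_one_of_pos hy
  have h2 := Real.log_le_sub_one_of_pos hyi
  rw [Real.log_inv] at h2
  constructor <;> linarith

theorem a12_cpow_cont (r : ℝ) (s : ℂ) :
    ContinuousOn (fun t : ℝ × ℝ => ((t.1 * t.2 : ℝ) : ℂ) ^ s) (sec r) := by
  have h1 : ContinuousOn (fun t : ℝ × ℝ => ((t.1 * t.2 : ℝ) : ℂ)) (sec r) := by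
    apply Continuous.continuousOn
    fun_prop
  refine h1.cpow continuousOn_const (fun t ht => ?_)
  exact Complex.ofReal_mem_slitPlane.2 (mul_pos (a12_pos ht).1 (a12_pos ht).2)

theorem a12_log_cont (r : ℝ) :
    ContinuousOn (fun t : ℝ × ℝ => Complex.log ((t.1 * t.2 : ℝ) : ℂ)) (sec r) := by
  have h1 : ContinuousOn (fun t : ℝ × ℝ => ((t.1 * t.2 : ℝ) : ℂ)) (sec r) := by
    apply Continuous.continuousOn
    fun_prop
  refine h1.clog (fun t ht => ?_)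
  exact Complex.ofReal_mem_slitPlane.2 (mul_pos (a12_pos ht).1 (a12_pos ht).2)

theorem ZZ_int (l l' : ℂ × ℂ) (hd : dt l l' ≠ 0) (r : ℝ) (hr : 1 < r) (x : ℂ × ℂ) (hx : x ∉ L2)
    (s : ℂ) : IntegrableOn (fun t : ℝ × ℝ => ((t.1 * t.2 : ℝ) : ℂ) ^ s *
      th (t.1 • sq l + t.2 • sq l') (fun v => conj (lf l v * lf l' v)) x) (sec r) := by
  obtain ⟨C, κ, hC, hκ, hTB⟩ := a12_TB l l' hd r hr x hx
  obtain ⟨K, hK, habs⟩ := a12_absorb r κ hr hκ ⌈|s.re|⌉₊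
  have hmeas : MeasurableSet (sec r) := (a12_sec_open r).measurableSet
  have hcont := (a12_cpow_cont r s).mul (a12_cont l l' hd r x)
  refine Integrable.mono' (g := fun t : ℝ × ℝ => (K * C) * Real.exp (-(κ / 2) * (t.1 + t.2)))
    ((a12_major r (κ / 2) (by positivity)).const_mul _) (hcont.aestronglyMeasurable hmeas) ?_
  rw [ae_restrict_iff' hmeas]
  filter_upwards with t ht
  have hy := mul_pos (a12_pos ht).1 (a12_pos ht).2
  have h1 := a12_pow _ hy s ⌈|s.re|⌉₊ (Nat.le_ceil _)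
  have h2 := hTB t ht
  have h3 := habs t ht
  rw [norm_mul]
  have hY0 : 0 ≤ t.1 * t.2 + (t.1 * t.2)⁻¹ := by positivity
  calc ‖((t.1 * t.2 : ℝ) : ℂ) ^ s‖ *
        ‖th (t.1 • sq l + t.2 • sq l') (fun v => conj (lf l v * lf l' v)) x‖
      ≤ (t.1 * t.2 + (t.1 * t.2)⁻¹) ^ ⌈|s.re|⌉₊ *
          (C * Real.exp (-(κ * ((t.1 + t.2) + 1 / (t.1 + t.2))))) :=
        mul_le_mul h1 h2 (norm_nonneg _) (pow_nonneg hY0 _)
    _ = C * ((t.1 * t.2 + (t.1 * t.2)⁻¹) ^ ⌈|s.re|⌉₊ *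
          Real.exp (-(κ * ((t.1 + t.2) + 1 / (t.1 + t.2))))) := by ring
    _ ≤ C * (K * Real.exp (-(κ / 2) * (t.1 + t.2))) := mul_le_mul_of_nonneg_left h3 hC.le
    _ = _ := by ring

theorem ZZ_entire (l l' : ℂ × ℂ) (hd : dt l l' ≠ 0) (r : ℝ) (hr : 1 < r) (x : ℂ × ℂ)
    (hx : x ∉ L2) : Differentiable ℂ (ZZ l l' r x) := by
  intro s₀
  obtain ⟨C, κ, hC, hκ, hTB⟩ := a12_TB l l' hd r hr x hx
  set N : ℕ := ⌈|s₀.re| + 1⌉₊ with hN
  obtain ⟨K, hK, habs⟩ := a12_absorb r κ hr hκ (N + 1)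
  have hmeas : MeasurableSet (sec r) := (a12_sec_open r).measurableSet
  let g : ℝ × ℝ → ℂ := fun t =>
    th (t.1 • sq l + t.2 • sq l') (fun v => conj (lf l v * lf l' v)) x
  let F : ℂ → ℝ × ℝ → ℂ := fun s t => ((t.1 * t.2 : ℝ) : ℂ) ^ s * g t
  let F' : ℂ → ℝ × ℝ → ℂ := fun s t =>
    ((t.1 * t.2 : ℝ) : ℂ) ^ s * Complex.log ((t.1 * t.2 : ℝ) : ℂ) * g t
  have key := hasDerivAt_integral_of_dominated_loc_of_deriv_le (μ := volume.restrict (sec r))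
    (F := F) (F' := F') (x₀ := s₀) (s := Metric.ball s₀ 1)
    (bound := fun t => (K * C) * Real.exp (-(κ / 2) * (t.1 + t.2)))
    (Metric.ball_mem_nhds s₀ one_pos)
    (Filter.Eventually.of_forall fun s =>
      ((a12_cpow_cont r s).mul (a12_cont l l' hd r x)).aestronglyMeasurable hmeas)
    (ZZ_int l l' hd r hr x hx s₀)
    ((((a12_cpow_cont r s₀).mul (a12_log_cont r)).mul
      (a12_cont l l' hd r x)).aestronglyMeasurable hmeas) ?_
    ((a12_major r (κ / 2) (by positivity)).const_mul _) ?_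
  · exact key.2.differentiableAt
  · rw [ae_restrict_iff' hmeas]
    filter_upwards with t ht s hs
    have hy := mul_pos (a12_pos ht).1 (a12_pos ht).2
    have hsr : |s.re| ≤ N := by
      have h1 : |s.re - s₀.re| < 1 := by
        have h2 : ‖s - s₀‖ < 1 := by rwa [Metric.mem_ball, dist_eq_norm] at hs
        have h3 := Complex.abs_re_le_norm (s - s₀)
        rw [Complex.sub_re] at h3
        linarith
      have h4 : |s.re| ≤ |s.re - s₀.re| + |s₀.re| := by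
        have := abs_add_le (s.re - s₀.re) s₀.re
        rwa [sub_add_cancel] at this
      have h5 : |s₀.re| + 1 ≤ (N : ℝ) := Nat.le_ceil _
      linarith
    have h1 := a12_pow _ hy s N hsr
    have h1' := a12_log _ hy
    have h2 := hTB t ht
    have h3 := habs t ht
    have hY0 : 0 ≤ t.1 * t.2 + (t.1 * t.2)⁻¹ := by positivity
    simp only [F']
    rw [norm_mul, norm_mul]
    calc ‖((t.1 * t.2 : ℝ) : ℂ) ^ s‖ * ‖Complex.log ((t.1 * t.2 : ℝ) : ℂ)‖ * ‖g t‖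
        ≤ ((t.1 * t.2 + (t.1 * t.2)⁻¹) ^ N * (t.1 * t.2 + (t.1 * t.2)⁻¹)) *
            (C * Real.exp (-(κ * ((t.1 + t.2) + 1 / (t.1 + t.2))))) := by
          apply mul_le_mul _ h2 (norm_nonneg _) (by positivity)
          exact mul_le_mul h1 h1' (norm_nonneg _) (pow_nonneg hY0 _)
      _ = C * ((t.1 * t.2 + (t.1 * t.2)⁻¹) ^ (N + 1) *
            Real.exp (-(κ * ((t.1 + t.2) + 1 / (t.1 + t.2))))) := by
          rw [pow_succ]; ring
      _ ≤ C * (K * Real.exp (-(κ / 2) * (t.1 + t.2))) := mul_le_mul_of_nonneg_left h3 hC.le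
      _ = _ := by ring
  · rw [ae_restrict_iff' hmeas]
    filter_upwards with t ht s _
    have hy := mul_pos (a12_pos ht).1 (a12_pos ht).2
    have hyc : ((t.1 * t.2 : ℝ) : ℂ) ≠ 0 := by exact_mod_cast hy.ne'
    have h1 := ((hasDerivAt_id s).const_cpow (c := ((t.1 * t.2 : ℝ) : ℂ)) (Or.inl hyc)).mul_const
      (g t)
    simp only [id_eq, mul_one] at h1
    exact h1

end NAB
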