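import Pool.Agent.MP_9ab903_nt.NAB.A1

/-! ## [NAB-A5b] changes of variables in `SS` (no integrability needed)

`SS_lin`: change of variables `p = (a t₁ + c t₂, b t₁ + d t₂)`, `nn (a h + b k) (c h + d k) = (a d - b c) nn h k`
(`integral_image_eq_integral_abs_det_fderiv_smul`, or `MeasureTheory.Measure.map_linearMap_addHaar_eq_smul_addHaar`).
`SS_polar`: `t = (s (1 - θ), s θ)`, Jacobian `s`. -/

set_option autoImplicit false

open scoped ComplexConjugate
open MeasureTheory Set Filter Topology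

namespace NAB

open CM27

/-- the linear map with matrix `(a c; b d)` -/
noncomputable def a5b_L (a b c d : ℝ) : ℝ × ℝ →L[ℝ] ℝ × ℝ :=
  (Matrix.toLin (Module.Basis.finTwoProd ℝ) (Module.Basis.finTwoProd ℝ) !![a, c; b, d]).toContinuousLinearMap

theorem a5b_L_apply (a b c d : ℝ) (t : ℝ × ℝ) :
    a5b_L a b c d t = (a * t.1 + c * t.2, b * t.1 + d * t.2) := by
  unfold a5b_L
  rw [Matrix.toLin_finTwoProd_toContinuousLinearMap]
  simp

theorem a5b_L_det (a b c d : ℝ) : (a5b_L a b c d).det = a * d - b * c := by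
  unfold a5b_L
  simp only [LinearMap.det_toContinuousLinearMap, LinearMap.det_toLin, Matrix.det_fin_two_of]
  ring

theorem a5b_meas : MeasurableSet qd := measurableSet_Ioi.prod measurableSet_Ioi

theorem a5b_nn (h k : HF) (a b c d : ℝ) (v : ℂ × ℂ) :
    nn (a • h + b • k) (c • h + d • k) v = ((a * d - b * c : ℝ) : ℂ) * nn h k v := by
  rw [nn_add_left, nn_add_right, nn_add_right, nn_smul_left, nn_smul_left, nn_smul_left, nn_smul_left,
    nn_smul_right, nn_smul_right, nn_smul_right, nn_smul_right, nn_self, nn_self, nn_symm h k]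
  push_cast
  ring

theorem a5b_th_mul (h : HF) (r : ℂ) (p q : ℂ × ℂ → ℂ) (hpq : ∀ v, p v = r * q v) (x : ℂ × ℂ) :
    th h p x = r * th h q x := by
  unfold th
  rw [← tsum_mul_left]
  apply tsum_congr
  intro m
  rw [hpq, mul_assoc]

theorem SS_lin (x : ℂ × ℂ) (h k : HF) (a b c d : ℝ) (hdet : 0 < a * d - b * c) :
    SS x (a • h + b • k) (c • h + d • k) = (Real.pi : ℂ) ^ 2 *
      ∫ p in {p : ℝ × ℝ | 0 < d * p.1 - c * p.2 ∧ 0 < a * p.2 - b * p.1},
        th (p.1 • h + p.2 • k) (nn h k) x := by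
  unfold SS
  congr 1
  have himg : {p : ℝ × ℝ | 0 < d * p.1 - c * p.2 ∧ 0 < a * p.2 - b * p.1} = a5b_L a b c d '' qd := by
    ext p
    simp only [mem_image, Set.mem_setOf_eq]
    constructor
    · rintro ⟨h1, h2⟩
      refine ⟨((d * p.1 - c * p.2) / (a * d - b * c), (a * p.2 - b * p.1) / (a * d - b * c)), ⟨?_, ?_⟩, ?_⟩
      · exact div_pos h1 hdet
      · exact div_pos h2 hdet
      · rw [a5b_L_apply]
        have hne := hdet.ne'
        ext
        · show a * ((d * p.1 - c * p.2) / (a * d - b * c)) + c * ((a * p.2 - b * p.1) / (a * d - b * c)) = p.1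
          rw [mul_div_assoc', mul_div_assoc', ← add_div, div_eq_iff hne]
          ring
        · show b * ((d * p.1 - c * p.2) / (a * d - b * c)) + d * ((a * p.2 - b * p.1) / (a * d - b * c)) = p.2
          rw [mul_div_assoc', mul_div_assoc', ← add_div, div_eq_iff hne]
          ring
    · rintro ⟨t, ⟨h1, h2⟩, rfl⟩
      rw [a5b_L_apply]
      have h1' : 0 < t.1 := h1
      have h2' : 0 < t.2 := h2
      simp only
      constructor
      · have : d * (a * t.1 + c * t.2) - c * (b * t.1 + d * t.2) = (a * d - b * c) * t.1 := by ring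
        rw [this]
        positivity
      · have : a * (b * t.1 + d * t.2) - b * (a * t.1 + c * t.2) = (a * d - b * c) * t.2 := by ring
        rw [this]
        positivity
  rw [himg, integral_image_eq_integral_abs_det_fderiv_smul volume a5b_meas
    (f' := fun _ => a5b_L a b c d) (fun t _ => (a5b_L a b c d).hasFDerivWithinAt) ?_]
  · apply setIntegral_congr_fun a5b_meas
    intro t _
    simp only
    rw [a5b_L_det, abs_of_pos hdet, a5b_L_apply]
    have e1 : t.1 • (a • h + b • k) + t.2 • (c • h + d • k) =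
        (a * t.1 + c * t.2) • h + (b * t.1 + d * t.2) • k := by
      module
    rw [e1, a5b_th_mul _ ((a * d - b * c : ℝ) : ℂ) _ (nn h k) (a5b_nn h k a b c d), Complex.real_smul]
  · intro t _ t' _ htt
    rw [a5b_L_apply, a5b_L_apply, Prod.mk.injEq] at htt
    obtain ⟨e1, e2⟩ := htt
    have h1 : (a * d - b * c) * (t.1 - t'.1) = 0 := by linear_combination d * e1 - c * e2
    have h2 : (a * d - b * c) * (t.2 - t'.2) = 0 := by linear_combination a * e2 - b * e1
    have h3 := (mul_eq_zero.1 h1).resolve_left hdet.ne'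
    have h4 := (mul_eq_zero.1 h2).resolve_left hdet.ne'
    exact Prod.ext (by linarith) (by linarith)

theorem a5b_polar_deriv (p : ℝ × ℝ) :
    HasFDerivAt (fun p : ℝ × ℝ => (p.1 * (1 - p.2), p.1 * p.2)) (a5b_L (1 - p.2) p.2 (-p.1) p.1) p := by
  have h1 : HasFDerivAt (fun p : ℝ × ℝ => p.1) (ContinuousLinearMap.fst ℝ ℝ ℝ) p := hasFDerivAt_fst
  have h2 : HasFDerivAt (fun p : ℝ × ℝ => p.2) (ContinuousLinearMap.snd ℝ ℝ ℝ) p := hasFDerivAt_snd
  have h3 := (h1.mul (h2.const_sub 1)).prodMk (h1.mul h2)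
  have e : a5b_L (1 - p.2) p.2 (-p.1) p.1 =
      (p.1 • -ContinuousLinearMap.snd ℝ ℝ ℝ + (1 - p.2) • ContinuousLinearMap.fst ℝ ℝ ℝ).prod
      (p.1 • ContinuousLinearMap.snd ℝ ℝ ℝ + p.2 • ContinuousLinearMap.fst ℝ ℝ ℝ) := by
    refine ContinuousLinearMap.ext fun t => ?_
    rw [a5b_L_apply]
    ext
    · simp
      ring
    · simp
      ring
  rw [e]
  exact h3

theorem SS_polar (x : ℂ × ℂ) (P Q : HF) : SS x P Q = (Real.pi : ℂ) ^ 2 *
    ∫ p in (Ioi (0 : ℝ)) ×ˢ (Ioo (0 : ℝ) 1),
      (p.1 : ℂ) * th (p.1 • ((1 - p.2) • P + p.2 • Q)) (nn P Q) x := by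
  unfold SS
  congr 1
  have hm : MeasurableSet ((Ioi (0 : ℝ)) ×ˢ (Ioo (0 : ℝ) 1)) := measurableSet_Ioi.prod measurableSet_Ioo
  have himg : qd = (fun p : ℝ × ℝ => (p.1 * (1 - p.2), p.1 * p.2)) '' ((Ioi (0 : ℝ)) ×ˢ (Ioo (0 : ℝ) 1)) := by
    ext t
    simp only [mem_image]
    constructor
    · rintro ⟨h1, h2⟩
      have h1' : 0 < t.1 := h1
      have h2' : 0 < t.2 := h2
      have h3 : 0 < t.1 + t.2 := by linarith
      refine ⟨(t.1 + t.2, t.2 / (t.1 + t.2)), ⟨h3, div_pos h2' h3, ?_⟩, ?_⟩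
      · rw [div_lt_one h3]
        linarith
      · ext
        · simp only
          field_simp
          ring
        · simp only
          field_simp
    · rintro ⟨p, ⟨h1, h2, h3⟩, rfl⟩
      have h1' : 0 < p.1 := h1
      exact ⟨mul_pos h1' (by linarith), mul_pos h1' h2⟩
  rw [himg, integral_image_eq_integral_abs_det_fderiv_smul volume hm
    (f' := fun p => a5b_L (1 - p.2) p.2 (-p.1) p.1) (fun p _ => (a5b_polar_deriv p).hasFDerivWithinAt) ?_]
  · apply setIntegral_congr_fun hm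
    intro p hp
    have h1 : 0 < p.1 := hp.1
    simp only
    rw [a5b_L_det, show (1 - p.2) * p.1 - p.2 * -p.1 = p.1 by ring, abs_of_pos h1, Complex.real_smul]
    congr 2
    module
  · intro p hp p' hp' htt
    have h1 : 0 < p.1 := hp.1
    simp only [Prod.mk.injEq] at htt
    obtain ⟨e1, e2⟩ := htt
    have e3 : p.1 = p'.1 := by linarith
    rw [← e3] at e2
    have e4 : p.2 = p'.2 := mul_left_cancel₀ h1.ne' e2
    exact Prod.ext e3 e4

end NAB
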