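import Pool.Agent.MP_9ab903_nt.NAB.A11b
import Pool.Agent.MP_9ab903_nt.NAB.A12a
import Pool.Agent.MP_9ab903_nt.NAB.A5b

/-! ## [NAB-A13] the value at `s = 0` (final result of part A)

`pb M (sq l) = r • sq l` (`sq_mv` and `‖e‖² = r`), `pb M (sq l') = r⁻¹ • sq l'`. `SS_lin` with `(h, k) = (sq l, sq l')`,
`(a,b,c,d) = (r, r⁻¹, 1, 1)`: `SS x (pb M (sq l + sq l')) (sq l + sq l') = π² ∫_{sec r} th (..) (nn (sq l) (sq l')) x`, `nn_sq`. -/

set_option autoImplicit false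

open scoped ComplexConjugate
open MeasureTheory Set Filter Topology

namespace NAB

open CM27

theorem A13_th_mul (h : HF) (c : ℂ) (p : ℂ × ℂ → ℂ) (x : ℂ × ℂ) :
    th h (fun v => c * p v) x = c * th h p x := by
  unfold th
  rw [← tsum_mul_left]
  refine tsum_congr fun n => ?_
  ring

theorem A13_pb_sq (l : ℂ × ℂ) (M : Mt) (e : ℂ) (hl : ∀ v, lf l (mv M v) = e * lf l v) :
    pb M (sq l) = ‖e‖ ^ 2 • sq l := by
  have h1 : pb M (sq l) = sq (e * l.1, e * l.2) := by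
    apply sq_mv
    intro v
    rw [hl v]
    simp only [lf]
    ring
  rw [h1]
  have n1 : ((‖e‖ ^ 2 : ℝ) : ℂ) = conj e * e := by
    rw [mul_comm, Complex.mul_conj, Complex.normSq_eq_norm_sq]
  apply Prod.ext
  · simp only [sq, Prod.smul_fst, norm_mul, smul_eq_mul]
    ring
  · apply Prod.ext
    · simp only [sq, Prod.smul_fst, Prod.smul_snd, Complex.real_smul, n1, map_mul]
      ring
    · simp only [sq, Prod.smul_snd, norm_mul, smul_eq_mul]
      ring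

theorem ZZ_zero (l l' : ℂ × ℂ) (M : Mt) (e : ℂ) (he : 1 < ‖e‖)
    (hl : ∀ v, lf l (mv M v) = e * lf l v) (hl' : ∀ v, lf l' (mv M v) = e⁻¹ * lf l' v) (x : ℂ × ℂ) :
    (Real.pi : ℂ) ^ 2 * dt l l' * ZZ l l' (‖e‖ ^ 2) x 0
      = 2 * SS x (sq l + sq l') (pb M (sq l + sq l')) := by
  have h1 := A13_pb_sq l M e hl
  have h2 := A13_pb_sq l' M e⁻¹ hl'
  set R : ℝ := ‖e‖ ^ 2 with hR
  have hR1 : 1 < R := by
    rw [hR]
    nlinarith
  have hR0 : 0 < R := by linarith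
  have hRi : ‖e⁻¹‖ ^ 2 = R⁻¹ := by
    rw [norm_inv, inv_pow]
  have hRi1 : R⁻¹ < 1 := inv_lt_one_of_one_lt₀ hR1
  rw [hRi] at h2
  have h3 : pb M (sq l + sq l') = R • sq l + R⁻¹ • sq l' := by
    rw [pb_add, h1, h2]
  have h4 := SS_lin x (sq l) (sq l') R R⁻¹ 1 1 (by linarith)
  rw [one_smul, one_smul, ← h3] at h4
  have hreg : {p : ℝ × ℝ | 0 < 1 * p.1 - 1 * p.2 ∧ 0 < R * p.2 - R⁻¹ * p.1} = sec R := by
    ext p
    have e1 : R * (R⁻¹ * p.1) = p.1 := by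
      rw [← mul_assoc, mul_inv_cancel₀ hR0.ne', one_mul]
    simp only [Set.mem_ofPred_eq, sec]
    constructor
    · rintro ⟨a, b⟩
      have a' : p.2 < p.1 := by linarith
      have b' : p.1 < R ^ 2 * p.2 := by
        have := mul_pos hR0 b
        nlinarith
      refine ⟨?_, a', b'⟩
      by_contra hneg
      have hp2 : p.2 ≤ 0 := not_lt.1 hneg
      nlinarith
    · rintro ⟨a, b, c⟩
      refine ⟨by linarith, ?_⟩
      have : 0 < R * (R * p.2 - R⁻¹ * p.1) := by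
        rw [mul_sub, e1]
        nlinarith
      exact (mul_pos_iff_of_pos_left hR0).1 this
  rw [hreg] at h4
  have h5 : ∫ p in sec R, th (p.1 • sq l + p.2 • sq l') (nn (sq l) (sq l')) x =
      -(1 / 2) * dt l l' * ZZ l l' R x 0 := by
    unfold ZZ
    rw [← integral_const_mul]
    congr 1
    funext p
    have e2 : nn (sq l) (sq l') = fun v => (-(1 / 2) * dt l l') * conj (lf l v * lf l' v) := by
      funext v
      exact nn_sq l l' v
    rw [e2, A13_th_mul, Complex.cpow_zero, one_mul]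
  rw [h5] at h4
  have h6 := SS_symm x (sq l + sq l') (pb M (sq l + sq l'))
  rw [h4] at h6
  have h7 : SS x (sq l + sq l') (pb M (sq l + sq l')) =
      -((Real.pi : ℂ) ^ 2 * (-(1 / 2) * dt l l' * ZZ l l' R x 0)) := by
    rw [h6]; ring
  rw [h7]
  ring

/-- Final result of part A: integrality at `2`. -/
theorem core_val (l l' : ℂ × ℂ) (hd : dt l l' ≠ 0) (M : Mt) (hM : M.det = 1) (e : ℂ) (he : 1 < ‖e‖)
    (hl : ∀ v, lf l (mv M v) = e * lf l v) (hl' : ∀ v, lf l' (mv M v) = e⁻¹ * lf l' v)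
    (x : ℂ × ℂ) (N : ℕ) (hN : Odd N) (hx : sc N x ∈ L2) (hx0 : x ∉ L2) (hMx : mv M x - x ∈ L2)
    (A : ValuationSubring ℂ) (hA : A.valuation 2 < 1) :
    A.valuation ((Real.pi : ℂ) ^ 2 * dt l l' * ZZ l l' (‖e‖ ^ 2) x 0 / OmC ^ 2) ≤ 1 := by
  rw [ZZ_zero l l' M e he hl hl' x]
  have hPD : PD (sq l + sq l') := by
    have := PD_sq hd one_pos one_pos
    rwa [one_smul, one_smul] at this
  exact walk_val x N hN hx hx0 M hM hMx _ hPD A hA

/-- Final result of part A: Galois action. -/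
theorem core_gal (l l' : ℂ × ℂ) (hd : dt l l' ≠ 0) (M : Mt) (hM : M.det = 1) (e : ℂ) (he : 1 < ‖e‖)
    (hl : ∀ v, lf l (mv M v) = e * lf l v) (hl' : ∀ v, lf l' (mv M v) = e⁻¹ * lf l' v)
    (x : ℂ × ℂ) (N : ℕ) (hN : Odd N) (hx : sc N x ∈ L2) (hx0 : x ∉ L2) (hMx : mv M x - x ∈ L2)
    (σ : ℂ ≃+* ℂ) (hσ : σ w = w) (u : Eis) (hu : IsCoprime u (N : Eis))
    (hσu : ∀ c : Eis, ptMap (σ : ℂ →+* ℂ) (pt (emb c / N)) = pt (emb (c * u) / N)) :
    σ ((Real.pi : ℂ) ^ 2 * dt l l' * ZZ l l' (‖e‖ ^ 2) x 0 / OmC ^ 2)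
      = (Real.pi : ℂ) ^ 2 * dt l l' * ZZ l l' (‖e‖ ^ 2) (sc u x) 0 / OmC ^ 2 := by
  rw [ZZ_zero l l' M e he hl hl' x, ZZ_zero l l' M e he hl hl' (sc u x)]
  have hPD : PD (sq l + sq l') := by
    have := PD_sq hd one_pos one_pos
    rwa [one_smul, one_smul] at this
  exact walk_gal x N hN hx hx0 M hM hMx _ hPD σ hσ u hu hσu

end NAB
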