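import Pool.Agent.MP_9ab903_nt.NAB.A1

/-! ## [NAB-A2a] one-dimensional sums, absolute bounds

`Ak k s z = ∑_a |z + a|^k exp (-π s |z + a|²)`. Sketch: `‖emb a‖² ≥ (re² + im²)/2`-type bounds; shifting the index one
may assume `‖z‖ ≤ 1`; `r^k e^{-π s r²} ≤ C s^{-k/2} e^{-π s r² / 2}`; and `∑_a e^{-π s |z+a|²/2} ≤ C (1 + 1/s)` (product of two
sums over `ℤ`, or count lattice points). -/

set_option autoImplicit false

open scoped ComplexConjugate
open MeasureTheory Set Filter Topology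

namespace NAB

open CM27

/-! ### Sums over `ℤ` -/

theorem a2a_summable_zero {c : ℝ} (hc : 0 < c) :
    Summable fun m : ℤ => Real.exp (-(c * (m : ℝ) ^ 2)) := by
  have h1 : Summable fun n : ℕ => Real.exp (-(c * (n : ℝ) ^ 2)) := by
    have h2 := Real.summable_exp_nat_mul_of_ge (c := -c) (by linarith) (f := fun n : ℕ => (n : ℝ) ^ 2)
      (fun i => by
        have : (i : ℝ) ≤ (i : ℝ) ^ 2 := by exact_mod_cast Nat.le_self_pow two_ne_zero i
        exact this)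
    refine h2.congr fun n => ?_
    congr 1
    ring
  refine Summable.of_nat_of_neg ?_ ?_
  · exact h1.congr fun n => by push_cast; rfl
  · exact h1.congr fun n => by push_cast; ring_nf

theorem a2a_le_fract {c : ℝ} (hc : 0 ≤ c) {x : ℝ} (h0 : 0 ≤ x) (h1 : x ≤ 1) (m : ℤ) :
    Real.exp (-(c * (x + m) ^ 2)) ≤ Real.exp (-(c * (m : ℝ) ^ 2))
      + Real.exp (-(c * ((m + 1 : ℤ) : ℝ) ^ 2)) := by
  rcases le_or_gt 0 m with hm | hm
  · have hm' : (0 : ℝ) ≤ m := by exact_mod_cast hm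
    have : Real.exp (-(c * (x + m) ^ 2)) ≤ Real.exp (-(c * (m : ℝ) ^ 2)) := by
      apply Real.exp_le_exp.2
      have : (m : ℝ) ^ 2 ≤ (x + m) ^ 2 := by nlinarith
      nlinarith [mul_le_mul_of_nonneg_left this hc]
    linarith [Real.exp_pos (-(c * ((m + 1 : ℤ) : ℝ) ^ 2))]
  · have hm' : (m : ℝ) + 1 ≤ 0 := by exact_mod_cast hm
    have : Real.exp (-(c * (x + m) ^ 2)) ≤ Real.exp (-(c * ((m + 1 : ℤ) : ℝ) ^ 2)) := by
      apply Real.exp_le_exp.2
      have : ((m + 1 : ℤ) : ℝ) ^ 2 ≤ (x + m) ^ 2 := by push_cast; nlinarith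
      nlinarith [mul_le_mul_of_nonneg_left this hc]
    linarith [Real.exp_pos (-(c * (m : ℝ) ^ 2))]

theorem a2a_summable_one {c : ℝ} (hc : 0 < c) :
    Summable fun m : ℤ => Real.exp (-(c * ((m + 1 : ℤ) : ℝ) ^ 2)) :=
  (Equiv.addRight (1 : ℤ)).summable_iff.2 (a2a_summable_zero hc)

theorem a2a_summable_shift0 {c : ℝ} (hc : 0 < c) :
    Summable fun m : ℤ => Real.exp (-(c * (m : ℝ) ^ 2)) + Real.exp (-(c * ((m + 1 : ℤ) : ℝ) ^ 2)) :=
  (a2a_summable_zero hc).add (a2a_summable_one hc)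

theorem a2a_summable_fract {c : ℝ} (hc : 0 < c) {x : ℝ} (h0 : 0 ≤ x) (h1 : x ≤ 1) :
    Summable fun m : ℤ => Real.exp (-(c * (x + m) ^ 2)) :=
  (a2a_summable_shift0 hc).of_nonneg_of_le (fun _ => (Real.exp_pos _).le)
    (fun m => a2a_le_fract hc.le h0 h1 m)

theorem a2a_summable {c : ℝ} (hc : 0 < c) (x : ℝ) :
    Summable fun m : ℤ => Real.exp (-(c * (x + m) ^ 2)) := by
  have h1 := a2a_summable_fract hc (Int.fract_nonneg x) (Int.fract_lt_one x).le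
  refine ((Equiv.addRight ⌊x⌋).summable_iff.2 h1).congr fun m => ?_
  simp only [Function.comp, Equiv.coe_addRight]
  have e : Int.fract x + ((m + ⌊x⌋ : ℤ) : ℝ) = x + m := by
    push_cast
    linear_combination Int.fract_add_floor x
  rw [e]

theorem a2a_tsum_le {c : ℝ} (hc : 0 < c) (x : ℝ) :
    ∑' m : ℤ, Real.exp (-(c * (x + m) ^ 2)) ≤ 2 * ∑' m : ℤ, Real.exp (-(c * (m : ℝ) ^ 2)) := by
  have e1 : ∑' m : ℤ, Real.exp (-(c * (x + m) ^ 2))
      = ∑' m : ℤ, Real.exp (-(c * (Int.fract x + m) ^ 2)) := by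
    rw [← (Equiv.addRight ⌊x⌋).tsum_eq (fun m : ℤ => Real.exp (-(c * (Int.fract x + m) ^ 2)))]
    refine tsum_congr fun m => ?_
    simp only [Equiv.coe_addRight]
    have e : Int.fract x + ((m + ⌊x⌋ : ℤ) : ℝ) = x + m := by
      push_cast
      linear_combination Int.fract_add_floor x
    rw [e]
  have e2 : ∑' m : ℤ, Real.exp (-(c * ((m + 1 : ℤ) : ℝ) ^ 2))
      = ∑' m : ℤ, Real.exp (-(c * (m : ℝ) ^ 2)) :=
    (Equiv.addRight (1 : ℤ)).tsum_eq (fun m : ℤ => Real.exp (-(c * (m : ℝ) ^ 2)))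
  rw [e1]
  refine le_trans (Summable.tsum_le_tsum
    (fun m => a2a_le_fract hc.le (Int.fract_nonneg x) (Int.fract_lt_one x).le m)
    (a2a_summable_fract hc (Int.fract_nonneg x) (Int.fract_lt_one x).le)
    (a2a_summable_shift0 hc)) ?_
  rw [Summable.tsum_add (a2a_summable_zero hc) (a2a_summable_one hc), e2]
  linarith

/-- The value at `a = 1`. -/
noncomputable def a2a_D : ℝ := ∑' m : ℤ, Real.exp (-(Real.pi * (m : ℝ) ^ 2))

theorem a2a_D_pos : 0 < a2a_D :=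
  (a2a_summable_zero Real.pi_pos).tsum_pos (fun _ => (Real.exp_pos _).le) 0 (Real.exp_pos _)

theorem a2a_mono {c c' : ℝ} (hc : 0 < c) (h : c ≤ c') :
    ∑' m : ℤ, Real.exp (-(c' * (m : ℝ) ^ 2)) ≤ ∑' m : ℤ, Real.exp (-(c * (m : ℝ) ^ 2)) := by
  refine Summable.tsum_le_tsum (fun m => ?_) (a2a_summable_zero (lt_of_lt_of_le hc h))
    (a2a_summable_zero hc)
  apply Real.exp_le_exp.2
  nlinarith [mul_le_mul_of_nonneg_right h (sq_nonneg (m : ℝ))]

theorem a2a_sq_bound {a : ℝ} (ha : 0 < a) :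
    (∑' m : ℤ, Real.exp (-(Real.pi * a * (m : ℝ) ^ 2))) ^ 2 ≤ a2a_D ^ 2 * (1 + 1 / a) := by
  have hpos : 0 ≤ ∑' m : ℤ, Real.exp (-(Real.pi * a * (m : ℝ) ^ 2)) :=
    tsum_nonneg fun _ => (Real.exp_pos _).le
  have hD := a2a_D_pos
  have ha' : 0 < 1 / a := by positivity
  rcases le_or_gt 1 a with h | h
  · have h1 : ∑' m : ℤ, Real.exp (-(Real.pi * a * (m : ℝ) ^ 2)) ≤ a2a_D :=
      a2a_mono Real.pi_pos (by nlinarith [Real.pi_pos])
    nlinarith [mul_nonneg (sq_nonneg a2a_D) ha'.le, mul_le_mul h1 h1 hpos hD.le]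
  · have h2 := Real.tsum_exp_neg_mul_int_sq ha
    have e1 : ∑' m : ℤ, Real.exp (-(Real.pi * a * (m : ℝ) ^ 2))
        = 1 / a ^ (1 / 2 : ℝ) * ∑' n : ℤ, Real.exp (-(Real.pi / a * (n : ℝ) ^ 2)) := by
      rw [show (∑' m : ℤ, Real.exp (-(Real.pi * a * (m : ℝ) ^ 2)))
        = ∑' n : ℤ, Real.exp (-Real.pi * a * (n : ℝ) ^ 2) from
          tsum_congr fun n => by congr 1; ring, h2]
      congr 1
      exact tsum_congr fun n => by congr 1; ring
    have h3 : ∑' n : ℤ, Real.exp (-(Real.pi / a * (n : ℝ) ^ 2)) ≤ a2a_D :=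
      a2a_mono Real.pi_pos (by
        rw [le_div_iff₀ ha]; nlinarith [Real.pi_pos])
    have h4 : 0 ≤ ∑' n : ℤ, Real.exp (-(Real.pi / a * (n : ℝ) ^ 2)) :=
      tsum_nonneg fun _ => (Real.exp_pos _).le
    have h5 : (1 / a ^ (1 / 2 : ℝ)) ^ 2 = 1 / a := by
      rw [div_pow, one_pow, ← Real.rpow_natCast, ← Real.rpow_mul ha.le]
      norm_num
    rw [e1, mul_pow, h5]
    have h6 : (∑' n : ℤ, Real.exp (-(Real.pi / a * (n : ℝ) ^ 2))) ^ 2 ≤ a2a_D ^ 2 :=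
      pow_le_pow_left₀ h4 h3 2
    have h7 := mul_le_mul_of_nonneg_left h6 ha'.le
    nlinarith [sq_nonneg a2a_D]

/-! ### Real coordinates -/

theorem a2a_coord (z : ℂ) : ∃ x y : ℝ, ∀ a : Eis,
    ((x + a.re) ^ 2 + (y + a.im) ^ 2) / 2 ≤ ‖z + emb a‖ ^ 2 := by
  have h3 : √3 * √3 = 3 := Real.mul_self_sqrt (by norm_num)
  have h3' : (0 : ℝ) < √3 := by positivity
  refine ⟨z.re + z.im / √3, 2 * z.im / √3, fun a => ?_⟩
  rw [← Complex.normSq_eq_norm_sq, Complex.normSq_apply, Complex.add_re, Complex.add_im, emb_re,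
    emb_im]
  set t := z.im / √3 with ht
  have e : z.im = t * √3 := by rw [ht]; field_simp
  have e2 : 2 * z.im / √3 = 2 * t := by rw [ht]; ring
  rw [e2, e]
  have e4 : (t * √3 + (a.im : ℝ) * (√3 / 2)) * (t * √3 + (a.im : ℝ) * (√3 / 2))
      = 3 * (t + a.im / 2) ^ 2 := by
    have : (t * √3 + (a.im : ℝ) * (√3 / 2)) * (t * √3 + (a.im : ℝ) * (√3 / 2))
      = (√3 * √3) * (t + a.im / 2) ^ 2 := by ring
    rw [this, h3]
  rw [e4]
  nlinarith [sq_nonneg ((z.re + t + a.re) - (2 * t + a.im))]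

theorem a2a_exp_le {s : ℝ} (hs : 0 ≤ s) {z : ℂ} {x y : ℝ} {a : Eis}
    (h : ((x + a.re) ^ 2 + (y + a.im) ^ 2) / 2 ≤ ‖z + emb a‖ ^ 2) :
    Real.exp (-(Real.pi * s * ‖z + emb a‖ ^ 2 / 2)) ≤
      Real.exp (-(Real.pi * (s / 4) * (x + a.re) ^ 2))
        * Real.exp (-(Real.pi * (s / 4) * (y + a.im) ^ 2)) := by
  rw [← Real.exp_add]
  apply Real.exp_le_exp.2
  nlinarith [mul_le_mul_of_nonneg_left h (mul_nonneg Real.pi_pos.le hs)]

/-- `r^k e^{-π s r²} ≤ k! e (1 + 1/s)^k e^{-π s r² / 2}` -/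
theorem a2a_term (k : ℕ) {s : ℝ} (hs : 0 < s) {r : ℝ} (hr : 0 ≤ r) :
    r ^ k * Real.exp (-(Real.pi * s * r ^ 2)) ≤
      (k.factorial * Real.exp 1 * (1 + 1 / s) ^ k) * Real.exp (-(Real.pi * s * r ^ 2 / 2)) := by
  have h1 : r ≤ (1 + 1 / s) * (1 + s * r ^ 2) := by
    have e : (1 + 1 / s) * (1 + s * r ^ 2) = 1 + s * r ^ 2 + 1 / s + r ^ 2 := by
      have : 1 / s * s = 1 := by field_simp
      linear_combination r ^ 2 * this
    rw [e]
    have : 0 < 1 / s := by positivity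
    nlinarith [mul_nonneg hs.le (sq_nonneg r), sq_nonneg (r - 1)]
  have h2 : r ^ k ≤ (1 + 1 / s) ^ k * (1 + s * r ^ 2) ^ k := by
    rw [← mul_pow]
    exact pow_le_pow_left₀ hr h1 k
  have h3 : (1 + s * r ^ 2) ^ k ≤ k.factorial * Real.exp (1 + s * r ^ 2) := by
    have h4 := Real.pow_div_factorial_le_exp (1 + s * r ^ 2) (by positivity) k
    rw [div_le_iff₀ (by positivity)] at h4
    linarith
  have h5 : Real.exp (1 + s * r ^ 2) * Real.exp (-(Real.pi * s * r ^ 2))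
      ≤ Real.exp 1 * Real.exp (-(Real.pi * s * r ^ 2 / 2)) := by
    rw [← Real.exp_add, ← Real.exp_add]
    apply Real.exp_le_exp.2
    have := Real.pi_gt_three
    nlinarith [mul_nonneg hs.le (sq_nonneg r), mul_le_mul_of_nonneg_right this.le
      (mul_nonneg hs.le (sq_nonneg r))]
  have hp : 0 < (1 + 1 / s) ^ k := by positivity
  calc r ^ k * Real.exp (-(Real.pi * s * r ^ 2))
      ≤ ((1 + 1 / s) ^ k * (1 + s * r ^ 2) ^ k) * Real.exp (-(Real.pi * s * r ^ 2)) :=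
        mul_le_mul_of_nonneg_right h2 (Real.exp_pos _).le
    _ ≤ ((1 + 1 / s) ^ k * (k.factorial * Real.exp (1 + s * r ^ 2)))
          * Real.exp (-(Real.pi * s * r ^ 2)) :=
        mul_le_mul_of_nonneg_right (mul_le_mul_of_nonneg_left h3 hp.le) (Real.exp_pos _).le
    _ = ((1 + 1 / s) ^ k * k.factorial) * (Real.exp (1 + s * r ^ 2)
          * Real.exp (-(Real.pi * s * r ^ 2))) := by ring
    _ ≤ ((1 + 1 / s) ^ k * k.factorial) * (Real.exp 1 * Real.exp (-(Real.pi * s * r ^ 2 / 2))) :=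
        mul_le_mul_of_nonneg_left h5 (by positivity)
    _ = _ := by ring

theorem a2a_summable_prod {c : ℝ} (hc : 0 < c) (x y : ℝ) :
    Summable fun a : Eis => Real.exp (-(c * (x + a.re) ^ 2)) * Real.exp (-(c * (y + a.im) ^ 2)) := by
  have h1 := (a2a_summable hc x).mul_of_nonneg (a2a_summable hc y)
    (fun _ => (Real.exp_pos _).le) (fun _ => (Real.exp_pos _).le)
  exact (QuadraticAlgebra.equivProd (-1 : ℤ) (-1)).summable_iff.2 h1

theorem a2a_tsum_prod {c : ℝ} (hc : 0 < c) (x y : ℝ) :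
    ∑' a : Eis, Real.exp (-(c * (x + a.re) ^ 2)) * Real.exp (-(c * (y + a.im) ^ 2))
      = (∑' m : ℤ, Real.exp (-(c * (x + m) ^ 2))) * ∑' m : ℤ, Real.exp (-(c * (y + m) ^ 2)) := by
  have h1 := (a2a_summable hc x).mul_of_nonneg (a2a_summable hc y)
    (fun _ => (Real.exp_pos _).le) (fun _ => (Real.exp_pos _).le)
  rw [(a2a_summable hc x).tsum_mul_tsum (a2a_summable hc y) h1]
  exact (QuadraticAlgebra.equivProd (-1 : ℤ) (-1)).tsum_eq
    (fun p : ℤ × ℤ => Real.exp (-(c * (x + p.1) ^ 2)) * Real.exp (-(c * (y + p.2) ^ 2)))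

theorem Ak_summable (k : ℕ) {s : ℝ} (hs : 0 < s) (z : ℂ) :
    Summable fun a : Eis => ‖z + emb a‖ ^ k * Real.exp (-(Real.pi * s * ‖z + emb a‖ ^ 2)) := by
  obtain ⟨x, y, h⟩ := a2a_coord z
  have hc : 0 < Real.pi * (s / 4) := by positivity
  refine ((a2a_summable_prod hc x y).mul_left
    (k.factorial * Real.exp 1 * (1 + 1 / s) ^ k)).of_nonneg_of_le (fun a => by positivity)
    (fun a => ?_)
  refine le_trans (a2a_term k hs (norm_nonneg _)) ?_
  exact mul_le_mul_of_nonneg_left (a2a_exp_le hs.le (h a)) (by positivity)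

theorem Ak_nonneg (k : ℕ) (s : ℝ) (z : ℂ) : 0 ≤ Ak k s z :=
  tsum_nonneg fun _ => by positivity

theorem Ak_per (k : ℕ) (s : ℝ) (z : ℂ) (a : Eis) : Ak k s (z + emb a) = Ak k s z := by
  unfold Ak
  rw [← (Equiv.addLeft a).tsum_eq
    (fun b : Eis => ‖z + emb b‖ ^ k * Real.exp (-(Real.pi * s * ‖z + emb b‖ ^ 2)))]
  refine tsum_congr fun b => ?_
  simp only [Equiv.coe_addLeft, map_add, add_assoc]

theorem Ak_bound (k : ℕ) : ∃ C : ℝ, 0 < C ∧ ∀ s : ℝ, 0 < s → ∀ z : ℂ,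
    Ak k s z ≤ C * (1 + 1 / s) ^ (k + 1) := by
  have hD := a2a_D_pos
  refine ⟨k.factorial * Real.exp 1 * (32 * a2a_D ^ 2), by positivity, fun s hs z => ?_⟩
  obtain ⟨x, y, h⟩ := a2a_coord z
  have hc : 0 < Real.pi * (s / 4) := by positivity
  have h1 : Ak k s z ≤ (k.factorial * Real.exp 1 * (1 + 1 / s) ^ k) *
      ∑' a : Eis, Real.exp (-(Real.pi * (s / 4) * (x + a.re) ^ 2))
        * Real.exp (-(Real.pi * (s / 4) * (y + a.im) ^ 2)) := by
    rw [← tsum_mul_left]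
    refine Summable.tsum_le_tsum (fun a => ?_) (Ak_summable k hs z)
      ((a2a_summable_prod hc x y).mul_left _)
    refine le_trans (a2a_term k hs (norm_nonneg _)) ?_
    exact mul_le_mul_of_nonneg_left (a2a_exp_le hs.le (h a)) (by positivity)
  rw [a2a_tsum_prod hc] at h1
  have h2 := a2a_tsum_le hc x
  have h3 := a2a_tsum_le hc y
  have h4 := a2a_sq_bound (a := s / 4) (by positivity)
  set S := ∑' m : ℤ, Real.exp (-(Real.pi * (s / 4) * (m : ℝ) ^ 2)) with hS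
  have hS0 : 0 ≤ S := tsum_nonneg fun _ => (Real.exp_pos _).le
  have hy0 : 0 ≤ ∑' m : ℤ, Real.exp (-(Real.pi * (s / 4) * (y + m) ^ 2)) :=
    tsum_nonneg fun _ => (Real.exp_pos _).le
  have h5 : (∑' m : ℤ, Real.exp (-(Real.pi * (s / 4) * (x + m) ^ 2)))
      * ∑' m : ℤ, Real.exp (-(Real.pi * (s / 4) * (y + m) ^ 2)) ≤ 4 * S ^ 2 := by
    refine le_trans (mul_le_mul h2 h3 hy0 (by positivity)) ?_
    nlinarith
  have h6 : 1 + 1 / (s / 4) ≤ 4 * (1 + 1 / s) := by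
    have : 1 / (s / 4) = 4 * (1 / s) := by field_simp
    rw [this]; linarith
  have h7 : 4 * S ^ 2 ≤ 32 * a2a_D ^ 2 * (1 + 1 / s) := by
    have h8 := mul_le_mul_of_nonneg_left h6 (sq_nonneg a2a_D)
    have h9 : 0 < a2a_D ^ 2 * (1 + 1 / s) := by positivity
    nlinarith
  have hp : 0 < k.factorial * Real.exp 1 * (1 + 1 / s) ^ k := by positivity
  calc Ak k s z ≤ _ := h1
    _ ≤ (k.factorial * Real.exp 1 * (1 + 1 / s) ^ k) * (32 * a2a_D ^ 2 * (1 + 1 / s)) :=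
        mul_le_mul_of_nonneg_left (le_trans h5 h7) hp.le
    _ = _ := by ring

theorem a2a_gap (z : ℂ) (hz : z ∉ Set.range emb) : ∃ δ : ℝ, 0 < δ ∧ ∀ a : Eis, δ ≤ ‖z + emb a‖ := by
  have hne : ∀ a : Eis, z + emb a ≠ 0 := fun a h0 => hz ⟨-a, by
    rw [map_neg]; linear_combination -h0⟩
  have h1 := (Ak_summable 0 one_pos z).tendsto_cofinite_zero
  have h2 := h1.eventually (Iio_mem_nhds (Real.exp_pos (-Real.pi)))
  have hfin : Set.Finite {a : Eis | ¬ (‖z + emb a‖ ^ 0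
      * Real.exp (-(Real.pi * 1 * ‖z + emb a‖ ^ 2)) ∈ Set.Iio (Real.exp (-Real.pi)))} := h2
  have h3 : ∀ a : Eis, a ∉ hfin.toFinset → 1 ≤ ‖z + emb a‖ := by
    intro a ha
    rw [Set.Finite.mem_toFinset] at ha
    simp only [Set.mem_ofPred_eq, not_not, Set.mem_Iio, pow_zero, one_mul, mul_one,
      Real.exp_lt_exp] at ha
    have hpi := Real.pi_pos
    by_contra hlt
    push Not at hlt
    have : ‖z + emb a‖ ^ 2 < 1 := by nlinarith [norm_nonneg (z + emb a)]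
    nlinarith
  by_cases he : hfin.toFinset.Nonempty
  · obtain ⟨b, hb, hmin⟩ := hfin.toFinset.exists_min_image (fun a => ‖z + emb a‖) he
    refine ⟨min 1 ‖z + emb b‖, lt_min one_pos (norm_pos_iff.2 (hne b)), fun a => ?_⟩
    by_cases ha : a ∈ hfin.toFinset
    · exact le_trans (min_le_right _ _) (hmin a ha)
    · exact le_trans (min_le_left _ _) (h3 a ha)
  · refine ⟨1, one_pos, fun a => h3 a fun ha => he ⟨a, ha⟩⟩

theorem Ak_bound_off (k : ℕ) (z : ℂ) (hz : z ∉ Set.range emb) : ∃ C κ : ℝ, 0 < C ∧ 0 < κ ∧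
    ∀ s : ℝ, 0 < s → Ak k s z ≤ C * (1 + 1 / s) ^ (k + 1) * Real.exp (-(κ * s)) := by
  obtain ⟨δ, hδ, hgap⟩ := a2a_gap z hz
  obtain ⟨C, hC, hb⟩ := Ak_bound k
  refine ⟨C * 2 ^ (k + 1), Real.pi / 2 * δ ^ 2, by positivity, by positivity, fun s hs => ?_⟩
  have hs2 : 0 < s / 2 := by positivity
  have h1 : Ak k s z ≤ Real.exp (-(Real.pi / 2 * δ ^ 2 * s)) * Ak k (s / 2) z := by
    unfold Ak
    rw [← tsum_mul_left]
    refine Summable.tsum_le_tsum (fun a => ?_) (Ak_summable k hs z)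
      ((Ak_summable k hs2 z).mul_left _)
    have h2 : Real.exp (-(Real.pi * s * ‖z + emb a‖ ^ 2)) ≤ Real.exp (-(Real.pi / 2 * δ ^ 2 * s))
        * Real.exp (-(Real.pi * (s / 2) * ‖z + emb a‖ ^ 2)) := by
      rw [← Real.exp_add]
      apply Real.exp_le_exp.2
      have h3 : δ ^ 2 ≤ ‖z + emb a‖ ^ 2 := pow_le_pow_left₀ hδ.le (hgap a) 2
      have h4 := mul_le_mul_of_nonneg_left h3 (mul_pos Real.pi_pos hs).le
      nlinarith
    calc ‖z + emb a‖ ^ k * Real.exp (-(Real.pi * s * ‖z + emb a‖ ^ 2))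
        ≤ ‖z + emb a‖ ^ k * (Real.exp (-(Real.pi / 2 * δ ^ 2 * s))
          * Real.exp (-(Real.pi * (s / 2) * ‖z + emb a‖ ^ 2))) :=
          mul_le_mul_of_nonneg_left h2 (by positivity)
      _ = _ := by ring
  have h5 := hb (s / 2) hs2 z
  have h6 : 1 + 1 / (s / 2) ≤ 2 * (1 + 1 / s) := by
    have : 1 / (s / 2) = 2 * (1 / s) := by field_simp
    rw [this]; linarith
  have h7 : (1 + 1 / (s / 2)) ^ (k + 1) ≤ 2 ^ (k + 1) * (1 + 1 / s) ^ (k + 1) := by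
    rw [← mul_pow]
    exact pow_le_pow_left₀ (by positivity) h6 _
  calc Ak k s z ≤ Real.exp (-(Real.pi / 2 * δ ^ 2 * s)) * Ak k (s / 2) z := h1
    _ ≤ Real.exp (-(Real.pi / 2 * δ ^ 2 * s)) * (C * (2 ^ (k + 1) * (1 + 1 / s) ^ (k + 1))) :=
        mul_le_mul_of_nonneg_left (le_trans h5 (mul_le_mul_of_nonneg_left h7 hC.le))
          (Real.exp_pos _).le
    _ = _ := by ring

theorem a2a_norm_term (k : ℕ) (s : ℝ) (z : ℂ) (a : Eis) :
    ‖conj (z + emb a) ^ k * ((Real.exp (-(Real.pi * s * ‖z + emb a‖ ^ 2)) : ℝ) : ℂ)‖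
      = ‖z + emb a‖ ^ k * Real.exp (-(Real.pi * s * ‖z + emb a‖ ^ 2)) := by
  rw [norm_mul, norm_pow, Complex.norm_conj, Complex.norm_real, Real.norm_eq_abs, Real.abs_exp]

theorem Tk_summable (k : ℕ) {s : ℝ} (hs : 0 < s) (z : ℂ) :
    Summable fun a : Eis => conj (z + emb a) ^ k
      * ((Real.exp (-(Real.pi * s * ‖z + emb a‖ ^ 2)) : ℝ) : ℂ) := by
  refine Summable.of_norm ?_
  exact (Ak_summable k hs z).congr fun a => (a2a_norm_term k s z a).symm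

theorem norm_Tk_le (k : ℕ) {s : ℝ} (hs : 0 < s) (z : ℂ) : ‖Tk k s z‖ ≤ Ak k s z := by
  unfold Tk Ak
  refine le_trans (norm_tsum_le_tsum_norm ?_) ?_
  · exact (Ak_summable k hs z).congr fun a => (a2a_norm_term k s z a).symm
  · exact le_of_eq (tsum_congr fun a => a2a_norm_term k s z a)

theorem Tk_per (k : ℕ) (s : ℝ) (z : ℂ) (a : Eis) : Tk k s (z + emb a) = Tk k s z := by
  unfold Tk
  rw [← (Equiv.addLeft a).tsum_eq
    (fun b : Eis => conj (z + emb b) ^ k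
      * ((Real.exp (-(Real.pi * s * ‖z + emb b‖ ^ 2)) : ℝ) : ℂ))]
  refine tsum_congr fun b => ?_
  simp only [Equiv.coe_addLeft, map_add, add_assoc]

theorem Tk_neg (k : ℕ) (s : ℝ) (z : ℂ) : Tk k s (-z) = (-1) ^ k * Tk k s z := by
  unfold Tk
  rw [← (Equiv.neg Eis).tsum_eq
    (fun b : Eis => conj (-z + emb b) ^ k
      * ((Real.exp (-(Real.pi * s * ‖-z + emb b‖ ^ 2)) : ℝ) : ℂ)), ← tsum_mul_left]
  refine tsum_congr fun b => ?_
  have e : -z + emb ((Equiv.neg Eis) b) = -(z + emb b) := by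
    simp only [Equiv.neg_apply, map_neg]; ring
  rw [e, norm_neg, map_neg, neg_pow]
  ring

end NAB
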