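import Pool.Agent.MP_9ab903_nt.NAB.A2a

/-! ## [NAB-A2b] Poisson summation for `Tk k s z`, `k ≤ 2`

`Tk k s z = 1/(A0 s) (-i/s)^k ∑_{u} conj(u)^k e^{-π|u|²/s} e^{2πi Re(z conj u)}`, `u` in the dual lattice `(2/√-3) ℤ[ω]`.

Sketch. `k = 0`, with INDEPENDENT complex variables `z, z'` (`z' = conj z` at the end):
`∑_a exp(-π s (z + a)(z' + conj a)) = 1/(A0 s) ∑_b exp(-π|du b|²/s + π i (z conj(du b) + z' du b))`.
Write `a = m + n ω`: `(z+a)(z'+ā)` is a quadratic polynomial in `m, n` with leading part `m² - mn + n²`; sum over `m`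
for fixed `n` with Mathlib's `Complex.tsum_exp_neg_quadratic` (1-dim. Poisson for Gaussians with linear term), then over `n`
(again a Gaussian with linear term; absolutely convergent double sums allow the exchange). Then apply `∂/∂z` once/twice
(both sides are entire in `z`, series of entire functions converging locally uniformly; termwise differentiation):
`∂_z exp(-π s (z+a)(z'+ā)) = -π s (z'+ā) exp(..)`, `∂_z exp(π i z conj u + ..) = π i conj u exp(..)`.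
(Alternatively: Fourier transform of Schwartz functions on `ℂ` if you find a general Poisson formula easier.) -/

set_option autoImplicit false

open scoped ComplexConjugate
open MeasureTheory Set Filter Topology

namespace NAB

open CM27

/-! ### derivatives of exponential families -/

theorem a2b_comb {ι : Type*} (c v : ι → ℂ)
    (h : ∀ R : ℝ, Summable fun a => ‖c a‖ * Real.exp (R * ‖v a‖)) (R : ℝ) :
    Summable fun a => ‖c a * v a‖ * Real.exp (R * ‖v a‖) := by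
  refine Summable.of_nonneg_of_le (fun a => by positivity) (fun a => ?_) (h (R + 1))
  rw [norm_mul, mul_assoc]
  refine mul_le_mul_of_nonneg_left ?_ (norm_nonneg _)
  rw [add_mul, one_mul, Real.exp_add, mul_comm]
  refine mul_le_mul_of_nonneg_left ?_ (Real.exp_pos _).le
  linarith [Real.add_one_le_exp ‖v a‖]

theorem a2b_sum {ι : Type*} (c v : ι → ℂ)
    (h : ∀ R : ℝ, Summable fun a => ‖c a‖ * Real.exp (R * ‖v a‖)) (ζ : ℂ) :
    Summable fun a => c a * Complex.exp (ζ * v a) := by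
  refine Summable.of_norm_bounded (h ‖ζ‖) (fun a => ?_)
  rw [norm_mul, Complex.norm_exp]
  refine mul_le_mul_of_nonneg_left (Real.exp_le_exp.2 ?_) (norm_nonneg _)
  rw [← norm_mul]
  exact Complex.re_le_norm _

theorem a2b_deriv {ι : Type*} (c v : ι → ℂ)
    (h : ∀ R : ℝ, Summable fun a => ‖c a‖ * Real.exp (R * ‖v a‖)) (ζ : ℂ) :
    deriv (fun ζ : ℂ => ∑' a, c a * Complex.exp (ζ * v a)) ζ =
      ∑' a, c a * v a * Complex.exp (ζ * v a) := by
  have hd : ∀ a, HasDerivAt (fun ζ : ℂ => c a * Complex.exp (ζ * v a))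
      (c a * v a * Complex.exp (ζ * v a)) ζ := by
    intro a
    have h1 : HasDerivAt (fun ζ : ℂ => ζ * v a) (v a) ζ := by
      simpa using (hasDerivAt_id ζ).mul_const (v a)
    have h2 := (h1.cexp).const_mul (c a)
    have h3 : c a * v a * Complex.exp (ζ * v a) = c a * (Complex.exp (ζ * v a) * v a) := by ring
    rw [h3]
    exact h2
  have h3 := Complex.hasSum_deriv_of_summable_norm (F := fun (a : ι) (ζ : ℂ) => c a * Complex.exp (ζ * v a))
    (U := Metric.ball 0 (‖ζ‖ + 1)) (z := ζ) (h (‖ζ‖ + 1)) (fun a => by fun_prop)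
    Metric.isOpen_ball (fun a x hx => by
      rw [norm_mul, Complex.norm_exp]
      refine mul_le_mul_of_nonneg_left (Real.exp_le_exp.2 ?_) (norm_nonneg _)
      refine (Complex.re_le_norm _).trans ?_
      rw [norm_mul]
      refine mul_le_mul_of_nonneg_right ?_ (norm_nonneg _)
      rw [Metric.mem_ball, dist_zero_right] at hx
      exact hx.le) (by
      rw [Metric.mem_ball, dist_zero_right]
      linarith)
  rw [← h3.tsum_eq]
  exact tsum_congr fun a => (hd a).deriv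

theorem a2b_iter {ι κ : Type*} (v : ι → ℂ) (u : κ → ℂ) (C : ℂ) (k : ℕ) :
    ∀ (c : ι → ℂ) (d : κ → ℂ),
      (∀ R : ℝ, Summable fun a => ‖c a‖ * Real.exp (R * ‖v a‖)) →
      (∀ R : ℝ, Summable fun b => ‖d b‖ * Real.exp (R * ‖u b‖)) →
      (∀ ζ : ℂ, ∑' a, c a * Complex.exp (ζ * v a) = C * ∑' b, d b * Complex.exp (ζ * u b)) →
      ∀ ζ : ℂ, ∑' a, c a * v a ^ k * Complex.exp (ζ * v a) =
        C * ∑' b, d b * u b ^ k * Complex.exp (ζ * u b) := by
  induction k with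
  | zero =>
    intro c d _ _ h ζ
    simpa using h ζ
  | succ k ih =>
    intro c d hc hd h ζ
    have h1 : ∀ ζ : ℂ, ∑' a, c a * v a * Complex.exp (ζ * v a) =
        C * ∑' b, d b * u b * Complex.exp (ζ * u b) := by
      intro ζ
      rw [← a2b_deriv c v hc ζ, ← a2b_deriv d u hd ζ]
      have h2 : (fun ζ : ℂ => ∑' a, c a * Complex.exp (ζ * v a)) =
          fun ζ : ℂ => C * ∑' b, d b * Complex.exp (ζ * u b) := funext h
      rw [h2, deriv_const_mul_field]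
    have h2 := ih (fun a => c a * v a) (fun b => d b * u b) (a2b_comb c v hc) (a2b_comb d u hd) h1 ζ
    have h3 : ∀ a, c a * v a ^ (k + 1) * Complex.exp (ζ * v a) =
        c a * v a * v a ^ k * Complex.exp (ζ * v a) := fun a => by ring
    have h4 : ∀ b, d b * u b ^ (k + 1) * Complex.exp (ζ * u b) =
        d b * u b * u b ^ k * Complex.exp (ζ * u b) := fun b => by ring
    simp only [h3, h4]
    exact h2

/-! ### the dual lattice -/

theorem a2b_norm_du (b : Eis) : ‖du b‖ = 2 / √3 * ‖(0 : ℂ) + emb b‖ := by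
  unfold du
  rw [norm_div, norm_mul, norm_mul, Complex.norm_I, Complex.norm_real, Complex.norm_ofNat,
    Real.norm_of_nonneg (Real.sqrt_nonneg 3), zero_add]
  ring

theorem du_summable (k : ℕ) {s : ℝ} (hs : 0 < s) :
    Summable fun b : Eis => ‖du b‖ ^ k * Real.exp (-(Real.pi * ‖du b‖ ^ 2 / s)) := by
  have h1 := (Ak_summable k (s := 4 / (3 * s)) (by positivity) 0).mul_left ((2 / √3) ^ k)
  refine h1.congr (fun b => ?_)
  rw [a2b_norm_du]
  have h3 : √3 ^ 2 = 3 := Real.sq_sqrt (by norm_num)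
  have h4 : -(Real.pi * (2 / √3 * ‖(0 : ℂ) + emb b‖) ^ 2 / s) =
      -(Real.pi * (4 / (3 * s)) * ‖(0 : ℂ) + emb b‖ ^ 2) := by
    rw [mul_pow, div_pow, h3]
    field_simp
    ring
  rw [h4]
  ring

theorem a2b_gaussbd {s : ℝ} (hs : 0 < s) (R r : ℝ) :
    -(Real.pi * s * r ^ 2) + R * r ≤ R ^ 2 / (2 * (Real.pi * s)) + -(Real.pi * (s / 2) * r ^ 2) := by
  have hps : 0 < Real.pi * s := mul_pos Real.pi_pos hs
  have h1 : 0 ≤ (Real.pi * s / 2) * (r - R / (Real.pi * s)) ^ 2 := by positivity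
  have h2 : (Real.pi * s / 2) * (r - R / (Real.pi * s)) ^ 2 =
      Real.pi * s / 2 * r ^ 2 - R * r + R ^ 2 / (2 * (Real.pi * s)) := by
    field_simp
    ring
  rw [h2] at h1
  linarith

theorem a2b_famA {s : ℝ} (hs : 0 < s) (z : ℂ) (R : ℝ) :
    Summable fun a : Eis => ‖((Real.exp (-(Real.pi * s * ‖z + emb a‖ ^ 2)) : ℝ) : ℂ)‖ *
      Real.exp (R * ‖conj (z + emb a)‖) := by
  have h1 := (Ak_summable 0 (s := s / 2) (by positivity) z).mul_left
    (Real.exp (R ^ 2 / (2 * (Real.pi * s))))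
  refine Summable.of_nonneg_of_le (fun a => by positivity) (fun a => ?_) h1
  rw [Complex.norm_real, Real.norm_of_nonneg (Real.exp_pos _).le, Complex.norm_conj, pow_zero,
    one_mul, ← Real.exp_add, ← Real.exp_add]
  exact Real.exp_le_exp.2 (a2b_gaussbd hs R _)

theorem a2b_famB {s : ℝ} (hs : 0 < s) (z : ℂ) (R : ℝ) :
    Summable fun b : Eis => ‖((Real.exp (-(Real.pi * ‖du b‖ ^ 2 / s)) : ℝ) : ℂ)
      * Complex.exp (2 * Real.pi * Complex.I * ((z * conj (du b)).re : ℂ))‖ *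
      Real.exp (R * ‖-Complex.I / s * conj (du b)‖) := by
  have h1 := (du_summable 0 (s := 2 * s) (by positivity)).mul_left
    (Real.exp ((R / s) ^ 2 / (2 * (Real.pi * (1 / s)))))
  refine Summable.of_nonneg_of_le (fun a => by positivity) (fun b => ?_) h1
  have h2 : ‖Complex.exp (2 * Real.pi * Complex.I * ((z * conj (du b)).re : ℂ))‖ = 1 := by
    have : (2 * Real.pi * Complex.I * ((z * conj (du b)).re : ℂ) : ℂ) =
        ((2 * Real.pi * (z * conj (du b)).re : ℝ) : ℂ) * Complex.I := by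
      push_cast
      ring
    rw [this, Complex.norm_exp_ofReal_mul_I]
  have h3 : ‖-Complex.I / s * conj (du b)‖ = ‖du b‖ / s := by
    rw [norm_mul, norm_div, norm_neg, Complex.norm_I, Complex.norm_real,
      Real.norm_of_nonneg hs.le, Complex.norm_conj]
    ring
  rw [norm_mul, h2, h3, mul_one, Complex.norm_real, Real.norm_of_nonneg (Real.exp_pos _).le,
    pow_zero, one_mul, ← Real.exp_add, ← Real.exp_add]
  refine Real.exp_le_exp.2 ?_
  have h4 := a2b_gaussbd (s := 1 / s) (by positivity) (R / s) ‖du b‖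
  have h5 : -(Real.pi * ‖du b‖ ^ 2 / s) = -(Real.pi * (1 / s) * ‖du b‖ ^ 2) := by ring
  have h6 : R * (‖du b‖ / s) = R / s * ‖du b‖ := by ring
  have h7 : -(Real.pi * ‖du b‖ ^ 2 / (2 * s)) = -(Real.pi * (1 / s / 2) * ‖du b‖ ^ 2) := by
    field_simp
  rw [h5, h6, h7]
  exact h4


/-! ### the double sum -/

theorem a2b_g1 {a : ℝ} (ha : 0 < a) (b c : ℂ) :
    Summable fun n : ℤ => Complex.exp (-(Real.pi * a * (n : ℂ) ^ 2) + b * n + c) := by
  have h1 := (summable_jacobiTheta₂_term_iff (b / (2 * Real.pi * Complex.I)) (Complex.I * a)).2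
    (by simpa using ha)
  refine (h1.mul_right (Complex.exp c)).congr (fun n => ?_)
  rw [jacobiTheta₂_term, ← Complex.exp_add]
  congr 1
  have hp : (Real.pi : ℂ) ≠ 0 := Complex.ofReal_ne_zero.2 Real.pi_ne_zero
  have hI := Complex.I_ne_zero
  have h2 : 2 * Real.pi * Complex.I * n * (b / (2 * Real.pi * Complex.I)) = b * n := by
    field_simp
  have h3 : Real.pi * Complex.I * (n : ℂ) ^ 2 * (Complex.I * a) = -(Real.pi * a * (n : ℂ) ^ 2) := by
    linear_combination (Real.pi * a * (n : ℂ) ^ 2) * Complex.I_sq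
  rw [h2, h3]
  ring

/-- Reindexing of `ℤ[ω]` by pairs of integers. -/
def a2b_e1 : ℤ × ℤ ≃ Eis where
  toFun p := ⟨p.2, p.1⟩
  invFun a := (a.im, a.re)
  left_inv _ := rfl
  right_inv _ := rfl

/-- Reindexing of `ℤ[ω]` by pairs of integers. -/
def a2b_e2 : ℤ × ℤ ≃ Eis where
  toFun p := ⟨-p.2, p.1⟩
  invFun a := (a.im, -a.re)
  left_inv p := by simp
  right_inv a := by simp

theorem a2b_core (F G : Eis → ℂ) (hF : Summable F) (hG : Summable G) (g : ℤ → ℤ → ℂ)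
    (hg : Summable fun p : ℤ × ℤ => g p.1 p.2) (A B : ℂ)
    (h1 : ∀ n : ℤ, ∑' m : ℤ, F ⟨m, n⟩ = A * ∑' j : ℤ, g n j)
    (h2 : ∀ j : ℤ, ∑' n : ℤ, g n j = B * ∑' l : ℤ, G ⟨-l, j⟩) :
    ∑' a, F a = A * B * ∑' b, G b := by
  have hF' : Summable fun p : ℤ × ℤ => F (a2b_e1 p) := (Equiv.summable_iff a2b_e1).2 hF
  have hG' : Summable fun p : ℤ × ℤ => G (a2b_e2 p) := (Equiv.summable_iff a2b_e2).2 hG
  have e1 : ∑' a, F a = ∑' n : ℤ, ∑' m : ℤ, F ⟨m, n⟩ := by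
    rw [← a2b_e1.tsum_eq F, hF'.tsum_prod]
    rfl
  have e2 : ∑' b, G b = ∑' j : ℤ, ∑' l : ℤ, G ⟨-l, j⟩ := by
    rw [← a2b_e2.tsum_eq G, hG'.tsum_prod]
    rfl
  have e3 : ∑' (n : ℤ) (j : ℤ), g n j = ∑' (j : ℤ) (n : ℤ), g n j := by
    have := hg.tsum_comm
    exact this.symm
  rw [e1, e2, tsum_congr h1, tsum_mul_left, e3, tsum_congr h2, tsum_mul_left, mul_assoc]

/-- The intermediate summand. -/
noncomputable def a2b_g (s : ℝ) (z1 z' : ℂ) (n j : ℤ) : ℂ :=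
  Complex.exp (-(Real.pi * (s : ℂ)⁻¹ * (j : ℂ) ^ 2) + Real.pi * Complex.I * j * (z1 + z')
    + Real.pi * s * (z1 - z') ^ 2 / 4 - 3 / 4 * Real.pi * s * (n : ℂ) ^ 2
    - Real.pi * Complex.I * n * (j + s * ((√3 : ℝ) / 2) * (z' - z1)))

theorem a2b_g_summable {s : ℝ} (hs : 0 < s) (z1 z' : ℂ) :
    Summable fun p : ℤ × ℤ => a2b_g s z1 z' p.1 p.2 := by
  have h1 := (a2b_g1 (a := s⁻¹) (by positivity) (Real.pi * Complex.I * (z1 + z'))
    (Real.pi * s * (z1 - z') ^ 2 / 4)).norm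
  have h2 := (a2b_g1 (a := 3 / 4 * s) (by positivity)
    (-(Real.pi * Complex.I * (s * ((√3 : ℝ) / 2) * (z' - z1)))) 0).norm
  have h3 := h2.mul_of_nonneg h1 (fun _ => norm_nonneg _) (fun _ => norm_nonneg _)
  refine Summable.of_norm (h3.congr (fun p => ?_))
  rw [← norm_mul, ← Complex.exp_add, a2b_g, Complex.norm_exp, Complex.norm_exp]
  congr 1
  have h4 : (-(Real.pi * (s : ℂ)⁻¹ * (p.2 : ℂ) ^ 2) + Real.pi * Complex.I * p.2 * (z1 + z')
    + Real.pi * s * (z1 - z') ^ 2 / 4 - 3 / 4 * Real.pi * s * (p.1 : ℂ) ^ 2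
    - Real.pi * Complex.I * p.1 * (p.2 + s * ((√3 : ℝ) / 2) * (z' - z1)) : ℂ) =
    (-(Real.pi * ((3 / 4 * s : ℝ) : ℂ) * (p.1 : ℂ) ^ 2)
      + -(Real.pi * Complex.I * (s * ((√3 : ℝ) / 2) * (z' - z1))) * p.1 + 0
    + (-(Real.pi * ((s⁻¹ : ℝ) : ℂ) * (p.2 : ℂ) ^ 2) + Real.pi * Complex.I * (z1 + z') * p.2
      + Real.pi * s * (z1 - z') ^ 2 / 4)) + ((-(Real.pi * p.1 * p.2) : ℝ) : ℂ) * Complex.I := by
    push_cast
    ring
  have h5 : ∀ (x : ℂ) (r : ℝ), (x + (r : ℂ) * Complex.I).re = x.re := fun x r => by simp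
  rw [h4, h5]

theorem a2b_w : (w : ℂ) = -1 / 2 + ((√3 : ℝ) : ℂ) / 2 * Complex.I := by
  apply Complex.ext <;> simp [w]

theorem a2b_cw : conj (w : ℂ) = -1 / 2 - ((√3 : ℝ) : ℂ) / 2 * Complex.I := by
  rw [a2b_w]
  simp only [map_add, map_mul, map_div₀, map_neg, map_one, map_ofNat, Complex.conj_ofReal,
    Complex.conj_I]
  ring

theorem a2b_s3 : (((√3 : ℝ) : ℂ)) ^ 2 = 3 := by
  have h : (√3 : ℝ) ^ 2 = 3 := Real.sq_sqrt (by norm_num)
  exact_mod_cast h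

theorem a2b_stepA {s : ℝ} (hs : 0 < s) (z1 z' : ℂ) (n : ℤ) :
    ∑' m : ℤ, Complex.exp (-(Real.pi * s * ((z1 + (m + n * w)) * (z' + (m + n * conj w))))) =
      1 / (s : ℂ) ^ (1 / 2 : ℂ) * ∑' j : ℤ, a2b_g s z1 z' n j := by
  have h1 := Complex.tsum_exp_neg_quadratic (a := (s : ℂ)) (by simpa using hs)
    (-(s * (z1 + z' - n)) / 2)
  have h2 : ∀ m : ℤ, Complex.exp (-(Real.pi * s * ((z1 + (m + n * w)) * (z' + (m + n * conj w))))) =
      Complex.exp (-(Real.pi * s * (z1 * z' + n * (z1 * conj w + z' * w) + n ^ 2))) *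
      Complex.exp (-Real.pi * s * (m : ℂ) ^ 2 + 2 * Real.pi * (-(s * (z1 + z' - n)) / 2) * m) := by
    intro m
    rw [← Complex.exp_add]
    congr 1
    rw [a2b_cw, a2b_w]
    linear_combination (-(Real.pi * s * n ^ 2) / 4) * a2b_s3
      + (Real.pi * s * n ^ 2 * (((√3 : ℝ) : ℂ)) ^ 2 / 4) * Complex.I_sq
  rw [tsum_congr h2, tsum_mul_left, h1, ← mul_assoc, mul_comm (Complex.exp _), mul_assoc,
    ← tsum_mul_left]
  congr 1
  refine tsum_congr (fun j => ?_)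
  rw [← Complex.exp_add, a2b_g]
  congr 1
  have hsi : (s : ℂ) * (s : ℂ)⁻¹ = 1 := mul_inv_cancel₀ (Complex.ofReal_ne_zero.2 hs.ne')
  rw [a2b_cw, a2b_w, div_eq_mul_inv (-(Real.pi : ℂ)) (s : ℂ)]
  linear_combination (Real.pi * Complex.I * (z1 + z' - n) * j
    + Real.pi * s * (z1 + z' - n) ^ 2 / 4) * hsi
    - (Real.pi * s * (z1 + z' - n) ^ 2 / 4) * s * (s : ℂ)⁻¹ * Complex.I_sq

theorem a2b_stepB {s : ℝ} (hs : 0 < s) (z1 z' : ℂ) (j : ℤ) :
    ∑' n : ℤ, a2b_g s z1 z' n j = 1 / ((3 / 4 * s : ℝ) : ℂ) ^ (1 / 2 : ℂ) *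
      ∑' l : ℤ, Complex.exp (-(Real.pi * ((‖du ⟨-l, j⟩‖ : ℂ) ^ 2) / s)
        + Real.pi * Complex.I * (z1 * conj (du ⟨-l, j⟩) + z' * du ⟨-l, j⟩)) := by
  have h1 := Complex.tsum_exp_neg_quadratic (a := ((3 / 4 * s : ℝ) : ℂ))
    (by rw [Complex.ofReal_re]; positivity)
    (-(Complex.I / 2 * (j + s * ((√3 : ℝ) / 2) * (z' - z1))))
  have h2 : ∀ n : ℤ, a2b_g s z1 z' n j =
      Complex.exp (-(Real.pi * (s : ℂ)⁻¹ * (j : ℂ) ^ 2) + Real.pi * Complex.I * j * (z1 + z')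
        + Real.pi * s * (z1 - z') ^ 2 / 4) *
      Complex.exp (-Real.pi * ((3 / 4 * s : ℝ) : ℂ) * (n : ℂ) ^ 2
        + 2 * Real.pi * (-(Complex.I / 2 * (j + s * ((√3 : ℝ) / 2) * (z' - z1)))) * n) := by
    intro n
    rw [← Complex.exp_add, a2b_g]
    congr 1
    push_cast
    ring
  rw [tsum_congr h2, tsum_mul_left, h1, ← mul_assoc, mul_comm (Complex.exp _), mul_assoc,
    ← tsum_mul_left]
  congr 1
  refine tsum_congr (fun l => ?_)
  rw [← Complex.exp_add]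
  congr 1
  have hsi : (s : ℂ) * (s : ℂ)⁻¹ = 1 := mul_inv_cancel₀ (Complex.ofReal_ne_zero.2 hs.ne')
  have hs0 : (s : ℂ) ≠ 0 := Complex.ofReal_ne_zero.2 hs.ne'
  have hdu : du ⟨-l, j⟩ = j + 2 * Complex.I * ((√3 : ℝ) : ℂ) / 3 * (l + j / 2) := by
    have h3 : ((√3 : ℝ) : ℂ) ≠ 0 := Complex.ofReal_ne_zero.2 (Real.sqrt_pos.2 (by norm_num)).ne'
    rw [du, emb_apply, a2b_w, div_eq_iff (mul_ne_zero Complex.I_ne_zero h3)]
    push_cast
    linear_combination (-(2 * l / 3 + j / 3 : ℂ) * ((√3 : ℝ) : ℂ) ^ 2) * Complex.I_sq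
      + (2 * l / 3 + j / 3 : ℂ) * a2b_s3
  have hcdu : conj (du ⟨-l, j⟩) = j - 2 * Complex.I * ((√3 : ℝ) : ℂ) / 3 * (l + j / 2) := by
    rw [hdu]
    simp only [map_add, map_mul, map_div₀, map_ofNat, Complex.conj_ofReal, Complex.conj_I,
      map_intCast]
    ring
  have hn : ((‖du ⟨-l, j⟩‖ : ℝ) : ℂ) ^ 2 = (j : ℂ) ^ 2 + 4 / 3 * (l + j / 2) ^ 2 := by
    rw [← Complex.mul_conj', hcdu, hdu]
    linear_combination (-(4 / 9 : ℂ) * ((√3 : ℝ) : ℂ) ^ 2 * (l + j / 2) ^ 2) * Complex.I_sq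
      + (4 / 9 : ℂ) * (l + j / 2) ^ 2 * a2b_s3
  rw [hn, hcdu, hdu]
  have h5 : (-(Real.pi : ℂ)) / ((3 / 4 * s : ℝ) : ℂ) = -(4 / 3 * Real.pi * (s : ℂ)⁻¹) := by
    push_cast
    field_simp
  have h6 : Complex.I * (-(Complex.I / 2 * (j + s * ((√3 : ℝ) / 2) * (z' - z1)))) =
      (j + s * ((√3 : ℝ) / 2) * (z' - z1)) / 2 := by
    linear_combination (-(j + s * ((√3 : ℝ) / 2) * (z' - z1)) / 2) * Complex.I_sq
  rw [h5, h6, div_eq_mul_inv _ (s : ℂ)]
  linear_combination (-(4 / 3 : ℂ) * Real.pi * (((√3 : ℝ) : ℂ) / 2) * (z' - z1) * (l + j / 2)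
      - (4 / 3 : ℂ) * Real.pi * s * (((√3 : ℝ) : ℂ) ^ 2 / 16) * (z' - z1) ^ 2) * hsi
    + (-(2 / 3 : ℂ) * Real.pi * ((√3 : ℝ) : ℂ) * (z' - z1) * (l + j / 2)) * Complex.I_sq
    + (-(1 / 12 : ℂ) * Real.pi * s * (z' - z1) ^ 2) * a2b_s3

theorem a2b_const {s : ℝ} (hs : 0 < s) :
    1 / (s : ℂ) ^ (1 / 2 : ℂ) * (1 / ((3 / 4 * s : ℝ) : ℂ) ^ (1 / 2 : ℂ)) =
      1 / ((A0 : ℂ) * s) := by
  have h1 : (s : ℂ) ^ (1 / 2 : ℂ) = ((√s : ℝ) : ℂ) := by
    rw [Real.sqrt_eq_rpow, Complex.ofReal_cpow hs.le]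
    norm_num
  have h2 : ((3 / 4 * s : ℝ) : ℂ) ^ (1 / 2 : ℂ) = ((√(3 / 4 * s) : ℝ) : ℂ) := by
    rw [Real.sqrt_eq_rpow, Complex.ofReal_cpow (by positivity)]
    norm_num
  have h3 : √s * √(3 / 4 * s) = A0 * s := by
    rw [← Real.sqrt_mul hs.le, A0]
    have h4 : s * (3 / 4 * s) = 3 * (s / 2) ^ 2 := by ring
    rw [h4, Real.sqrt_mul (by norm_num), Real.sqrt_sq (by positivity)]
    ring
  rw [h1, h2, one_div_mul_one_div, ← Complex.ofReal_mul, h3]
  push_cast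
  rfl

theorem a2b_main {s : ℝ} (hs : 0 < s) (z ζ : ℂ) :
    ∑' a : Eis, ((Real.exp (-(Real.pi * s * ‖z + emb a‖ ^ 2)) : ℝ) : ℂ) *
        Complex.exp (ζ * conj (z + emb a)) =
      1 / ((A0 : ℂ) * s) * ∑' b : Eis, (((Real.exp (-(Real.pi * ‖du b‖ ^ 2 / s)) : ℝ) : ℂ)
        * Complex.exp (2 * Real.pi * Complex.I * ((z * conj (du b)).re : ℂ))) *
        Complex.exp (ζ * (-Complex.I / s * conj (du b))) := by
  have hs0 : (s : ℂ) ≠ 0 := Complex.ofReal_ne_zero.2 hs.ne'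
  have hp0 : (Real.pi : ℂ) ≠ 0 := Complex.ofReal_ne_zero.2 Real.pi_ne_zero
  have hF := a2b_sum _ _ (a2b_famA hs z) ζ
  have hG := a2b_sum _ _ (a2b_famB hs z) ζ
  have hFe : ∀ a : Eis, ((Real.exp (-(Real.pi * s * ‖z + emb a‖ ^ 2)) : ℝ) : ℂ) *
      Complex.exp (ζ * conj (z + emb a)) = Complex.exp (-(Real.pi * s *
        ((z - ζ / (Real.pi * s) + (a.re + a.im * w)) * (conj z + (a.re + a.im * conj w))))) := by
    intro a
    rw [Complex.ofReal_exp, ← Complex.exp_add]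
    congr 1
    push_cast
    rw [← Complex.mul_conj', emb_apply]
    simp only [map_add, map_mul, map_intCast]
    field_simp
    ring
  have hGe : ∀ b : Eis, ((Real.exp (-(Real.pi * ‖du b‖ ^ 2 / s)) : ℝ) : ℂ)
        * Complex.exp (2 * Real.pi * Complex.I * ((z * conj (du b)).re : ℂ)) *
        Complex.exp (ζ * (-Complex.I / s * conj (du b))) =
      Complex.exp (-(Real.pi * ((‖du b‖ : ℂ) ^ 2) / s)
        + Real.pi * Complex.I * ((z - ζ / (Real.pi * s)) * conj (du b) + conj z * du b)) := by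
    intro b
    rw [Complex.ofReal_exp, ← Complex.exp_add, ← Complex.exp_add]
    congr 1
    have h1 : ((z * conj (du b)).re : ℂ) = (z * conj (du b) + conj z * du b) / 2 := by
      rw [Complex.re_eq_add_conj]
      simp
    rw [h1]
    push_cast
    field_simp
    ring
  rw [← a2b_const hs]
  refine a2b_core _ _ hF hG (a2b_g s (z - ζ / (Real.pi * s)) (conj z))
    (a2b_g_summable hs _ _) _ _ (fun n => ?_) (fun j => ?_)
  · rw [← a2b_stepA hs]
    exact tsum_congr fun m => hFe ⟨m, n⟩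
  · rw [a2b_stepB hs]
    congr 1
    exact tsum_congr fun l => (hGe ⟨-l, j⟩).symm

theorem Tk_poisson (k : ℕ) (hk : k ≤ 2) {s : ℝ} (hs : 0 < s) (z : ℂ) :
    Tk k s z = 1 / ((A0 : ℂ) * s) * (-Complex.I / s) ^ k * ∑' b : Eis, conj (du b) ^ k
      * ((Real.exp (-(Real.pi * ‖du b‖ ^ 2 / s)) : ℝ) : ℂ)
      * Complex.exp (2 * Real.pi * Complex.I * ((z * conj (du b)).re : ℂ)) := by
  have h1 := a2b_iter _ _ _ k _ _ (a2b_famA hs z) (a2b_famB hs z) (a2b_main hs z) 0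
  simp only [zero_mul, Complex.exp_zero, mul_one] at h1
  rw [Tk, mul_assoc, ← tsum_mul_left, tsum_congr (fun a => mul_comm _ _), h1]
  congr 1
  refine tsum_congr (fun b => ?_)
  rw [mul_pow]
  ring

end NAB
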