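import Pool.Agent.MP_9ab903_nt.NAB.A2a

/-! ## [NAB-A3a] two-dimensional theta functions: summability, linearity

`hv h v ≥ c nrm v` (`PD.bounds`), so everything is dominated by products of one-dimensional sums (`Ak_summable`). -/

set_option autoImplicit false

open scoped ComplexConjugate
open MeasureTheory Set Filter Topology

namespace NAB

open CM27

theorem a3a_one (k : ℕ) {s : ℝ} (hs : 0 < s) (z : ℂ) :
    Summable fun a : Eis => (1 + ‖z + emb a‖ ^ 2) ^ k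
      * Real.exp (-(Real.pi * s * ‖z + emb a‖ ^ 2)) := by
  have h1 : ∀ a : Eis, (1 + ‖z + emb a‖ ^ 2) ^ k * Real.exp (-(Real.pi * s * ‖z + emb a‖ ^ 2)) =
      ∑ j ∈ Finset.range (k + 1), (k.choose j : ℝ) *
        (‖z + emb a‖ ^ (2 * j) * Real.exp (-(Real.pi * s * ‖z + emb a‖ ^ 2))) := by
    intro a
    rw [add_comm (1 : ℝ), add_pow, Finset.sum_mul]
    apply Finset.sum_congr rfl
    intro j _
    rw [one_pow, pow_mul]
    ring
  simp only [h1]
  exact summable_sum fun j _ => (Ak_summable (2 * j) hs z).mul_left _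

theorem a3a_two (k : ℕ) {s : ℝ} (hs : 0 < s) (x : ℂ × ℂ) :
    Summable fun m : Eis × Eis => (1 + nrm (x + em m)) ^ k
      * Real.exp (-(Real.pi * s * nrm (x + em m))) := by
  have h1 := (a3a_one k hs x.1).mul_of_nonneg (a3a_one k hs x.2)
    (fun a => by positivity) (fun a => by positivity)
  refine Summable.of_nonneg_of_le (fun m => ?_) (fun m => ?_) h1
  · have := nrm_nonneg (x + em m)
    positivity
  · have e1 : nrm (x + em m) = ‖x.1 + emb m.1‖ ^ 2 + ‖x.2 + emb m.2‖ ^ 2 := rfl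
    rw [e1]
    have e2 : Real.exp (-(Real.pi * s * (‖x.1 + emb m.1‖ ^ 2 + ‖x.2 + emb m.2‖ ^ 2))) =
        Real.exp (-(Real.pi * s * ‖x.1 + emb m.1‖ ^ 2)) *
        Real.exp (-(Real.pi * s * ‖x.2 + emb m.2‖ ^ 2)) := by
      rw [← Real.exp_add]
      congr 1
      ring
    rw [e2]
    have e3 : (1 + (‖x.1 + emb m.1‖ ^ 2 + ‖x.2 + emb m.2‖ ^ 2)) ^ k ≤
        (1 + ‖x.1 + emb m.1‖ ^ 2) ^ k * (1 + ‖x.2 + emb m.2‖ ^ 2) ^ k := by
      rw [← mul_pow]
      apply pow_le_pow_left₀ (by positivity)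
      nlinarith [mul_nonneg (sq_nonneg ‖x.1 + emb m.1‖) (sq_nonneg ‖x.2 + emb m.2‖)]
    calc (1 + (‖x.1 + emb m.1‖ ^ 2 + ‖x.2 + emb m.2‖ ^ 2)) ^ k *
        (Real.exp (-(Real.pi * s * ‖x.1 + emb m.1‖ ^ 2)) *
        Real.exp (-(Real.pi * s * ‖x.2 + emb m.2‖ ^ 2)))
        ≤ ((1 + ‖x.1 + emb m.1‖ ^ 2) ^ k * (1 + ‖x.2 + emb m.2‖ ^ 2) ^ k) *
        (Real.exp (-(Real.pi * s * ‖x.1 + emb m.1‖ ^ 2)) *
        Real.exp (-(Real.pi * s * ‖x.2 + emb m.2‖ ^ 2))) :=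
          mul_le_mul_of_nonneg_right e3 (by positivity)
      _ = _ := by ring

theorem th_summable {h : HF} (hh : PD h) (k : ℕ) (x : ℂ × ℂ) :
    Summable fun m : Eis × Eis => (1 + nrm (x + em m)) ^ k
      * Real.exp (-(Real.pi * hv h (x + em m))) := by
  obtain ⟨c, hc, hb⟩ := hh.bounds
  have hc0 : 0 < c := by linarith
  refine Summable.of_nonneg_of_le (fun m => ?_) (fun m => ?_)
    (a3a_two k (show (0 : ℝ) < 1 / c by positivity) x)
  · have := nrm_nonneg (x + em m)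
    positivity
  · have h0 := nrm_nonneg (x + em m)
    apply mul_le_mul_of_nonneg_left _ (by positivity)
    apply Real.exp_le_exp.2
    have h1 := (hb (x + em m)).1
    have h2 : Real.pi * (1 / c) * nrm (x + em m) = Real.pi * (nrm (x + em m) / c) := by ring
    rw [h2]
    have := mul_le_mul_of_nonneg_left h1 Real.pi_pos.le
    linarith

theorem a3a_norm_mo (j k : ℕ) (v : ℂ × ℂ) : ‖mo j k v‖ ≤ (1 + nrm v) ^ (j + k) := by
  rw [mo, norm_mul, norm_pow, norm_pow, Complex.norm_conj, Complex.norm_conj, pow_add]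
  have h1 : ‖v.1‖ ≤ 1 + nrm v := by
    rw [nrm]
    nlinarith [sq_nonneg (‖v.1‖ - 1), sq_nonneg ‖v.2‖, norm_nonneg v.1]
  have h2 : ‖v.2‖ ≤ 1 + nrm v := by
    rw [nrm]
    nlinarith [sq_nonneg (‖v.2‖ - 1), sq_nonneg ‖v.1‖, norm_nonneg v.2]
  have h3 := nrm_nonneg v
  exact mul_le_mul (pow_le_pow_left₀ (norm_nonneg _) h1 _) (pow_le_pow_left₀ (norm_nonneg _) h2 _)
    (by positivity) (by positivity)

/-- `th h (mo j k)` converges absolutely. -/
theorem mo_summable {h : HF} (hh : PD h) (j k : ℕ) (x : ℂ × ℂ) :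
    Summable fun m : Eis × Eis => mo j k (x + em m)
      * ((Real.exp (-(Real.pi * hv h (x + em m))) : ℝ) : ℂ) := by
  refine Summable.of_norm_bounded (th_summable hh (j + k) x) fun m => ?_
  rw [norm_mul, Complex.norm_real, Real.norm_eq_abs, abs_of_pos (Real.exp_pos _)]
  exact mul_le_mul_of_nonneg_right (a3a_norm_mo j k _) (Real.exp_pos _).le

theorem a3a_split {h : HF} (P Q : HF) (x : ℂ × ℂ) (m : Eis × Eis) : nn P Q (x + em m)
      * ((Real.exp (-(Real.pi * hv h (x + em m))) : ℝ) : ℂ) =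
    -(1 / 2) * (P.1 * Q.2.1 - P.2.1 * Q.1) * (mo 2 0 (x + em m)
      * ((Real.exp (-(Real.pi * hv h (x + em m))) : ℝ) : ℂ))
    + -(1 / 2) * (P.1 * Q.2.2 - P.2.2 * Q.1 + conj P.2.1 * Q.2.1 - P.2.1 * conj Q.2.1)
      * (mo 1 1 (x + em m) * ((Real.exp (-(Real.pi * hv h (x + em m))) : ℝ) : ℂ))
    + -(1 / 2) * (conj P.2.1 * Q.2.2 - P.2.2 * conj Q.2.1) * (mo 0 2 (x + em m)
      * ((Real.exp (-(Real.pi * hv h (x + em m))) : ℝ) : ℂ)) := by
  rw [nn_mo]
  ring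

/-- `th h (nn P Q)` converges absolutely. -/
theorem nn_summable {h : HF} (hh : PD h) (P Q : HF) (x : ℂ × ℂ) :
    Summable fun m : Eis × Eis => nn P Q (x + em m)
      * ((Real.exp (-(Real.pi * hv h (x + em m))) : ℝ) : ℂ) := by
  simp only [a3a_split]
  exact (((mo_summable hh 2 0 x).mul_left _).add ((mo_summable hh 1 1 x).mul_left _)).add
    ((mo_summable hh 0 2 x).mul_left _)

theorem th_nn {h : HF} (hh : PD h) (P Q : HF) (x : ℂ × ℂ) : th h (nn P Q) x =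
    -(1 / 2) * (P.1 * Q.2.1 - P.2.1 * Q.1) * th h (mo 2 0) x
    + -(1 / 2) * (P.1 * Q.2.2 - P.2.2 * Q.1 + conj P.2.1 * Q.2.1 - P.2.1 * conj Q.2.1)
      * th h (mo 1 1) x
    + -(1 / 2) * (conj P.2.1 * Q.2.2 - P.2.2 * conj Q.2.1) * th h (mo 0 2) x := by
  simp only [th, a3a_split]
  rw [(((mo_summable hh 2 0 x).mul_left _).add ((mo_summable hh 1 1 x).mul_left _)).tsum_add
    ((mo_summable hh 0 2 x).mul_left _), ((mo_summable hh 2 0 x).mul_left _).tsum_add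
    ((mo_summable hh 1 1 x).mul_left _), tsum_mul_left, tsum_mul_left, tsum_mul_left]

end NAB
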