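import Pool.Agent.MP_9ab903_nt.NAB.A3a

/-! ## [NAB-A3c] continuity of the theta functions in the form

Near a PD form `h₀` one has `hv h v ≥ c nrm v` with a common `c > 0` (`|hv h v - hv h₀ v| ≤ ε nrm v`), then dominated
convergence for series (`continuousOn_tsum` on a neighbourhood, or `tendsto_tsum_of_dominated_convergence`), majorant from
`th_summable` for the form `(c, 0, c)`. -/

set_option autoImplicit false

open scoped ComplexConjugate
open MeasureTheory Set Filter Topology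

namespace NAB

open CM27

/-- The difference of two forms. -/
theorem A3c_diff (h h₀ : HF) (δ : ℝ) (hd : ‖h - h₀‖ ≤ δ) (v : ℂ × ℂ) :
    hv h₀ v - 2 * δ * nrm v ≤ hv h v := by
  have hδ : 0 ≤ δ := (norm_nonneg _).trans hd
  have e : hv h v = hv h₀ v + hv (h - h₀) v := by
    rw [← hv_add]; congr 1; abel
  have h1 : ‖(h - h₀).1‖ ≤ δ := (norm_fst_le _).trans hd
  have h2 : ‖(h - h₀).2.1‖ ≤ δ := (norm_fst_le _).trans ((norm_snd_le _).trans hd)
  have h3 : ‖(h - h₀).2.2‖ ≤ δ := (norm_snd_le _).trans ((norm_snd_le _).trans hd)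
  rw [Real.norm_eq_abs] at h1 h3
  have h1' := (abs_le.1 h1).1
  have h3' := (abs_le.1 h3).1
  have h4 := Complex.abs_re_le_norm ((h - h₀).2.1 * conj v.1 * v.2)
  rw [norm_mul, norm_mul, Complex.norm_conj] at h4
  have h4' := (abs_le.1 h4).1
  have p1 := norm_nonneg v.1
  have p2 := norm_nonneg v.2
  have h5 : ‖(h - h₀).2.1‖ * ‖v.1‖ * ‖v.2‖ ≤ δ * (‖v.1‖ * ‖v.2‖) := by
    rw [mul_assoc]
    exact mul_le_mul_of_nonneg_right h2 (by positivity)
  rw [e]
  have h6 : -(2 * δ * nrm v) ≤ hv (h - h₀) v := by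
    simp only [hv, nrm]
    nlinarith [mul_nonneg (sub_nonneg.2 h1') (sq_nonneg ‖v.1‖),
      mul_nonneg (sub_nonneg.2 h3') (sq_nonneg ‖v.2‖), mul_nonneg hδ (sq_nonneg (‖v.1‖ - ‖v.2‖)),
      mul_nonneg hδ (sq_nonneg ‖v.1‖), mul_nonneg hδ (sq_nonneg ‖v.2‖)]
  linarith

theorem A3c_mo (j k : ℕ) (v : ℂ × ℂ) : ‖mo j k v‖ ≤ (1 + nrm v) ^ (j + k) := by
  have h1 : ‖v.1‖ ≤ 1 + nrm v := by
    rw [nrm]; nlinarith [sq_nonneg (‖v.1‖ - 1), sq_nonneg ‖v.2‖, norm_nonneg v.1]
  have h2 : ‖v.2‖ ≤ 1 + nrm v := by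
    rw [nrm]; nlinarith [sq_nonneg (‖v.2‖ - 1), sq_nonneg ‖v.1‖, norm_nonneg v.2]
  rw [mo, norm_mul, norm_pow, norm_pow, Complex.norm_conj, Complex.norm_conj, pow_add]
  exact mul_le_mul (pow_le_pow_left₀ (norm_nonneg _) h1 _) (pow_le_pow_left₀ (norm_nonneg _) h2 _)
    (by positivity) (by have := nrm_nonneg v; positivity)

theorem A3c_hv_cont (v : ℂ × ℂ) : Continuous fun h : HF => hv h v := by
  unfold hv
  fun_prop

theorem th_cont (j k : ℕ) (x : ℂ × ℂ) : ContinuousOn (fun h : HF => th h (mo j k) x) {h | PD h} := by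
  intro h₀ hh₀
  obtain ⟨c, hc, hb⟩ := PD.bounds hh₀
  have hc0 : 0 < c := by linarith
  have hPD : PD ((1 / (2 * c), 0, 1 / (2 * c)) : HF) := by
    refine ⟨by positivity, ?_⟩
    show ‖(0 : ℂ)‖ ^ 2 < 1 / (2 * c) * (1 / (2 * c))
    rw [norm_zero, zero_pow two_ne_zero]
    positivity
  have hval : ∀ v : ℂ × ℂ, hv ((1 / (2 * c), 0, 1 / (2 * c)) : HF) v = nrm v / (2 * c) := by
    intro v
    simp only [hv, nrm, zero_mul, Complex.zero_re, mul_zero, add_zero]
    ring
  have hsum := th_summable hPD (j + k) x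
  unfold ContinuousWithinAt th
  refine tendsto_tsum_of_dominated_convergence hsum ?_ ?_
  · intro m
    refine Tendsto.mono_left ?_ nhdsWithin_le_nhds
    refine Continuous.tendsto ?_ h₀
    refine continuous_const.mul ?_
    refine Complex.continuous_ofReal.comp ?_
    exact Real.continuous_exp.comp ((continuous_const.mul (A3c_hv_cont _)).neg)
  · refine Filter.Eventually.filter_mono nhdsWithin_le_nhds ?_
    have hev : ∀ᶠ h : HF in 𝓝 h₀, ‖h - h₀‖ < 1 / (4 * c) := by
      have := Metric.ball_mem_nhds h₀ (show 0 < 1 / (4 * c) by positivity)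
      filter_upwards [this] with h hh
      rwa [mem_ball_iff_norm] at hh
    filter_upwards [hev] with h hh m
    rw [norm_mul, Complex.norm_real, Real.norm_eq_abs, Real.abs_exp, hval]
    refine mul_le_mul (A3c_mo j k _) ?_ (Real.exp_pos _).le
      (by have := nrm_nonneg (x + em m); positivity)
    apply Real.exp_le_exp.2
    apply neg_le_neg
    apply mul_le_mul_of_nonneg_left _ Real.pi_pos.le
    have h1 := A3c_diff h h₀ _ hh.le (x + em m)
    have h2 := (hb (x + em m)).1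
    have h3 : nrm (x + em m) / (2 * c) = nrm (x + em m) / c - 2 * (1 / (4 * c)) * nrm (x + em m) := by
      field_simp
      ring
    rw [h3]
    linarith

theorem th_nn_cont (P Q : HF) (x : ℂ × ℂ) :
    ContinuousOn (fun h : HF => th h (nn P Q) x) {h | PD h} := by
  have h1 : ContinuousOn (fun h : HF =>
      -(1 / 2) * (P.1 * Q.2.1 - P.2.1 * Q.1) * th h (mo 2 0) x
      + -(1 / 2) * (P.1 * Q.2.2 - P.2.2 * Q.1 + conj P.2.1 * Q.2.1 - P.2.1 * conj Q.2.1)
        * th h (mo 1 1) x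
      + -(1 / 2) * (conj P.2.1 * Q.2.2 - P.2.2 * conj Q.2.1) * th h (mo 0 2) x) {h | PD h} :=
    ((continuousOn_const.mul (th_cont 2 0 x)).add (continuousOn_const.mul (th_cont 1 1 x))).add
      (continuousOn_const.mul (th_cont 0 2 x))
  exact h1.congr fun h hh => th_nn hh P Q x

end NAB
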