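import Pool.Agent.MP_9ab903_nt.NAB.A2c
import Pool.Agent.MP_9ab903_nt.NAB.A3a
import Pool.Agent.MP_9ab903_nt.NAB.A3c

/-! ## [NAB-A3b] the uniform theta bound (TB)

Large `s`: `hv h v ≥ (s/c) nrm v`, `nrm v ≥ μ > 0` on `x + ℤ[ω]²` (a discrete closed set not containing `0`), so
`|..| ≤ ∑ nrm(v) e^{-π s nrm(v)/c} ≤ e^{-π s μ/(2c)} ∑ nrm(v) e^{-π nrm(v)/(2c)}` for `s ≥ 1`.
Small `s ≤ 1`: with `h = (a,b,d)`, `β = b/a`, `d' = (a d - |b|²)/a`: `hv h v = a |v₁ + β v₂|² + d' |v₂|²` (`hv_square`), and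
`s/c ≤ a ≤ c s`, `s/c ≤ d' ≤ c s` (evaluate at `(1,0)` and at `(-β, 1)`: `nrm ≥ 1`), `|β| ≤ c²` (`|b|² ≤ a d ≤ c² s²`).
Expand `conj v₁ ^ j = (conj (v₁ + β v₂) - conj β conj v₂)^j`; the sum over `v₁ ∈ x₁ + O` is `Tk i a (x₁ + β v₂)`, `i ≤ j`.
`i ≥ 1`: `‖Tk i a _‖ ≤ C e^{-κ/(c s)}` (`Tk_small`), times `Ak (2-i) d' x₂ ≤ C (1 + c/s)^3`: absorbed in `e^{-κ'/s}`.
`i = 0`: `Tk 0 a _ = 1/(A0 a) + error/a` (`T0_small`): the main term is `1/(A0 a) * Tk 2 d' x₂` (`Tk_small`), the error as before.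
No condition on `x₂` is needed. Combine: `max` of the two regimes gives `C exp(-κ (s + 1/s))`. -/

set_option autoImplicit false

open scoped ComplexConjugate
open MeasureTheory Set Filter Topology

namespace NAB

open CM27

theorem a3b_form {c s : ℝ} (hc : 1 ≤ c) (hs : 0 < s) {h : HF}
    (h1 : ∀ v, s / c * nrm v ≤ hv h v) (h2 : ∀ v, hv h v ≤ c * s * nrm v) :
    ∃ (β : ℂ) (d : ℝ), ‖β‖ ≤ c ∧ s / c ≤ h.1 ∧ h.1 ≤ c * s ∧ s / c ≤ d ∧ d ≤ c * s ∧
      ∀ v, hv h v = h.1 * ‖v.1 + β * v.2‖ ^ 2 + d * ‖v.2‖ ^ 2 := by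
  have hc0 : 0 < c := by linarith
  have hsc : 0 < s / c := by positivity
  have n10 : nrm (1, 0) = 1 := by simp [nrm]
  have n01 : nrm (0, 1) = 1 := by simp [nrm]
  have v10 : hv h (1, 0) = h.1 := by simp [hv]
  have v01 : hv h (0, 1) = h.2.2 := by simp [hv]
  have a1 : s / c ≤ h.1 := by
    have := h1 (1, 0)
    rwa [n10, v10, mul_one] at this
  have a2 : h.1 ≤ c * s := by
    have := h2 (1, 0)
    rwa [n10, v10, mul_one] at this
  have a3 : h.2.2 ≤ c * s := by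
    have := h2 (0, 1)
    rwa [n01, v01, mul_one] at this
  have ha : 0 < h.1 := lt_of_lt_of_le hsc a1
  have ha' : (h.1 : ℂ) ≠ 0 := by exact_mod_cast ha.ne'
  have hform : ∀ v : ℂ × ℂ, hv h v = h.1 * ‖v.1 + h.2.1 / h.1 * v.2‖ ^ 2 +
      (h.1 * h.2.2 - ‖h.2.1‖ ^ 2) / h.1 * ‖v.2‖ ^ 2 := by
    intro v
    have e1 := hv_square h v
    have e2 : (h.1 : ℂ) * v.1 + h.2.1 * v.2 = h.1 * (v.1 + h.2.1 / h.1 * v.2) := by
      field_simp
    rw [e2, norm_mul, Complex.norm_real, Real.norm_eq_abs, abs_of_pos ha] at e1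
    generalize ‖v.1 + h.2.1 / h.1 * v.2‖ = N at e1 ⊢
    have e3 : h.1 * (h.1 * N ^ 2 + (h.1 * h.2.2 - ‖h.2.1‖ ^ 2) / h.1 * ‖v.2‖ ^ 2) =
        (h.1 * N) ^ 2 + (h.1 * h.2.2 - ‖h.2.1‖ ^ 2) * ‖v.2‖ ^ 2 := by
      field_simp
    apply mul_left_cancel₀ ha.ne'
    rw [e3]
    linarith [e1]
  have hd : s / c ≤ (h.1 * h.2.2 - ‖h.2.1‖ ^ 2) / h.1 := by
    have e1 := h1 (-(h.2.1 / h.1), 1)
    rw [hform] at e1
    simp only [mul_one, neg_add_cancel, norm_zero, norm_one, one_pow, ne_eq, OfNat.ofNat_ne_zero,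
      not_false_eq_true, zero_pow, mul_zero, zero_add] at e1
    refine le_trans ?_ e1
    have e2 : 1 ≤ nrm (-(h.2.1 / h.1), 1) := by
      simp only [nrm, norm_one, one_pow]
      have := sq_nonneg ‖-(h.2.1 / (h.1 : ℂ))‖
      linarith
    calc s / c = s / c * 1 := (mul_one _).symm
      _ ≤ _ := mul_le_mul_of_nonneg_left e2 hsc.le
  have hb : 0 ≤ ‖h.2.1‖ ^ 2 := sq_nonneg _
  have hdpos : 0 < h.1 * h.2.2 - ‖h.2.1‖ ^ 2 := by
    have := lt_of_lt_of_le hsc hd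
    rwa [div_pos_iff_of_pos_right ha] at this
  refine ⟨h.2.1 / h.1, (h.1 * h.2.2 - ‖h.2.1‖ ^ 2) / h.1, ?_, a1, a2, hd, ?_, hform⟩
  · have e1 : ‖h.2.1‖ ^ 2 ≤ (c * h.1) ^ 2 := by
      have e2 : h.2.2 ≤ c * (c * h.1) := by
        refine a3.trans ?_
        have : s ≤ c * h.1 := by
          rw [div_le_iff₀ hc0] at a1
          linarith
        exact mul_le_mul_of_nonneg_left this hc0.le
      have e3 : h.1 * h.2.2 ≤ h.1 * (c * (c * h.1)) := mul_le_mul_of_nonneg_left e2 ha.le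
      nlinarith
    have e4 : ‖h.2.1‖ ≤ c * h.1 := le_of_sq_le_sq e1 (by positivity)
    rw [norm_div, Complex.norm_real, Real.norm_eq_abs, abs_of_pos ha, div_le_iff₀ ha]
    exact e4
  · refine le_trans ?_ a3
    rw [div_le_iff₀ ha]
    nlinarith

theorem a3b_inner (j : ℕ) {a : ℝ} (ha : 0 < a) (w y : ℂ) :
    ∑' m : Eis, (conj (w + emb m) + y) ^ j *
      ((Real.exp (-(Real.pi * a * ‖w + emb m‖ ^ 2)) : ℝ) : ℂ) =
      ∑ i ∈ Finset.range (j + 1), Tk i a w * (y ^ (j - i) * (j.choose i)) := by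
  have h1 : ∀ m : Eis, (conj (w + emb m) + y) ^ j *
      ((Real.exp (-(Real.pi * a * ‖w + emb m‖ ^ 2)) : ℝ) : ℂ) =
      ∑ i ∈ Finset.range (j + 1), (conj (w + emb m) ^ i *
        ((Real.exp (-(Real.pi * a * ‖w + emb m‖ ^ 2)) : ℝ) : ℂ)) *
          (y ^ (j - i) * (j.choose i)) := by
    intro m
    rw [add_pow, Finset.sum_mul]
    refine Finset.sum_congr rfl fun i _ => ?_
    ring
  rw [tsum_congr h1, Summable.tsum_finsetSum]
  · refine Finset.sum_congr rfl fun i _ => ?_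
    rw [tsum_mul_right]
    rfl
  · intro i _
    exact (Tk_summable i ha w).mul_right _

theorem a3b_inner_bound {j : ℕ} (hj : j ≤ 2) {a B : ℝ} (w y : ℂ)
    (h0 : ‖Tk 0 a w - 1 / ((A0 : ℂ) * a)‖ ≤ B) (h1 : ‖Tk 1 a w‖ ≤ B) (h2 : ‖Tk 2 a w‖ ≤ B) :
    ‖∑ i ∈ Finset.range (j + 1), Tk i a w * (y ^ (j - i) * (j.choose i)) -
      1 / ((A0 : ℂ) * a) * y ^ j‖ ≤ B * (1 + ‖y‖) ^ j := by
  have hB : 0 ≤ B := (norm_nonneg _).trans h1
  have e1 : ∑ i ∈ Finset.range (j + 1), Tk i a w * (y ^ (j - i) * (j.choose i)) -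
      1 / ((A0 : ℂ) * a) * y ^ j =
      ∑ i ∈ Finset.range (j + 1), (Tk i a w - if i = 0 then 1 / ((A0 : ℂ) * a) else 0) *
        (y ^ (j - i) * (j.choose i)) := by
    simp only [sub_mul, Finset.sum_sub_distrib]
    congr 1
    rw [Finset.sum_eq_single 0]
    · simp
    · intro i _ hi
      rw [if_neg hi, zero_mul]
    · intro h
      simp at h
  rw [e1]
  refine (norm_sum_le _ _).trans ?_
  have e2 : ∀ i ∈ Finset.range (j + 1),
      ‖(Tk i a w - if i = 0 then 1 / ((A0 : ℂ) * a) else 0) * (y ^ (j - i) * (j.choose i))‖ ≤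
        B * (1 ^ i * ‖y‖ ^ (j - i) * (j.choose i)) := by
    intro i hi
    rw [norm_mul, norm_mul, norm_pow, Complex.norm_natCast, one_pow, one_mul]
    apply mul_le_mul_of_nonneg_right _ (by positivity)
    have hi' : i < j + 1 := Finset.mem_range.mp hi
    have : i = 0 ∨ i = 1 ∨ i = 2 := by omega
    rcases this with rfl | rfl | rfl
    · simpa using h0
    · simpa using h1
    · simpa using h2
  refine (Finset.sum_le_sum e2).trans ?_
  rw [← Finset.mul_sum, ← add_pow]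

/-- the value of the theta function as an iterated sum -/
theorem a3b_th {h : HF} (hh : PD h) {a d : ℝ} (ha : 0 < a) {β : ℂ}
    (hform : ∀ v, hv h v = a * ‖v.1 + β * v.2‖ ^ 2 + d * ‖v.2‖ ^ 2) (j k : ℕ) (x : ℂ × ℂ) :
    Summable (fun m : Eis => conj (x.2 + emb m) ^ k *
        ((Real.exp (-(Real.pi * d * ‖x.2 + emb m‖ ^ 2)) : ℝ) : ℂ) *
      ∑ i ∈ Finset.range (j + 1), Tk i a (x.1 + β * (x.2 + emb m)) *
        ((-(conj β * conj (x.2 + emb m))) ^ (j - i) * (j.choose i))) ∧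
    th h (mo j k) x = ∑' m : Eis, conj (x.2 + emb m) ^ k *
        ((Real.exp (-(Real.pi * d * ‖x.2 + emb m‖ ^ 2)) : ℝ) : ℂ) *
      ∑ i ∈ Finset.range (j + 1), Tk i a (x.1 + β * (x.2 + emb m)) *
        ((-(conj β * conj (x.2 + emb m))) ^ (j - i) * (j.choose i)) := by
  have hF := mo_summable hh j k x
  have hF' := hF.prod_symm
  have hfib : ∀ m : Eis, ∑' m' : Eis, (mo j k (x + em (m', m)) *
      ((Real.exp (-(Real.pi * hv h (x + em (m', m)))) : ℝ) : ℂ)) =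
      conj (x.2 + emb m) ^ k * ((Real.exp (-(Real.pi * d * ‖x.2 + emb m‖ ^ 2)) : ℝ) : ℂ) *
      ∑ i ∈ Finset.range (j + 1), Tk i a (x.1 + β * (x.2 + emb m)) *
        ((-(conj β * conj (x.2 + emb m))) ^ (j - i) * (j.choose i)) := by
    intro m
    rw [← a3b_inner j ha, ← tsum_mul_left]
    refine tsum_congr fun m' => ?_
    have e1 : (x + em (m', m)).1 = x.1 + emb m' := rfl
    have e2 : (x + em (m', m)).2 = x.2 + emb m := rfl
    have e3 : x.1 + β * (x.2 + emb m) + emb m' = x.1 + emb m' + β * (x.2 + emb m) := by ring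
    rw [mo, hform, e1, e2, e3]
    have e4 : conj (x.1 + emb m' + β * (x.2 + emb m)) + -(conj β * conj (x.2 + emb m)) =
        conj (x.1 + emb m') := by
      rw [map_add, map_mul]
      ring
    rw [e4]
    have e5 : Real.exp (-(Real.pi * (a * ‖x.1 + emb m' + β * (x.2 + emb m)‖ ^ 2 +
        d * ‖x.2 + emb m‖ ^ 2))) =
        Real.exp (-(Real.pi * d * ‖x.2 + emb m‖ ^ 2)) *
          Real.exp (-(Real.pi * a * ‖x.1 + emb m' + β * (x.2 + emb m)‖ ^ 2)) := by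
      rw [← Real.exp_add]
      congr 1
      ring
    rw [e5]
    push_cast
    ring
  constructor
  · have := hF'.prod
    refine this.congr fun m => ?_
    exact hfib m
  · rw [th, ← (Equiv.prodComm Eis Eis).tsum_eq]
    have h2 : ∑' m : Eis × Eis, mo j k (x + em ((Equiv.prodComm Eis Eis) m)) *
        ((Real.exp (-(Real.pi * hv h (x + em ((Equiv.prodComm Eis Eis) m)))) : ℝ) : ℂ) =
        ∑' m : Eis, ∑' m' : Eis, (mo j k (x + em (m', m)) *
          ((Real.exp (-(Real.pi * hv h (x + em (m', m)))) : ℝ) : ℂ)) :=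
      Summable.tsum_prod hF'
    rw [h2]
    exact tsum_congr hfib

theorem a3b_poly (κ : ℝ) (hκ : 0 < κ) : ∃ C : ℝ, 0 < C ∧ ∀ s : ℝ, 0 < s → s ≤ 1 →
    (1 + 1 / s) ^ 4 * Real.exp (-(κ / s)) ≤ C * Real.exp (-(κ / 2 / s)) := by
  refine ⟨24 * (4 / κ) ^ 4, by positivity, ?_⟩
  intro s hs hs1
  have h1 : 1 + 1 / s ≤ 2 / s := by
    rw [le_div_iff₀ hs, add_mul, one_mul, div_mul_cancel₀ _ hs.ne']
    linarith
  have h2 : (κ / 2 / s) ^ 4 / (Nat.factorial 4 : ℝ) ≤ Real.exp (κ / 2 / s) :=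
    Real.pow_div_factorial_le_exp _ (by positivity) 4
  have h3 : ((Nat.factorial 4 : ℕ) : ℝ) = 24 := by norm_num [Nat.factorial]
  rw [h3] at h2
  have h4 : Real.exp (-(κ / s)) = Real.exp (-(κ / 2 / s)) * Real.exp (-(κ / 2 / s)) := by
    rw [← Real.exp_add]
    congr 1
    ring
  have h5 : (2 / s) ^ 4 * Real.exp (-(κ / 2 / s)) ≤ 24 * (4 / κ) ^ 4 := by
    rw [Real.exp_neg, ← div_eq_mul_inv, div_le_iff₀ (Real.exp_pos _)]
    have e : (2 / s) ^ 4 = 24 * (4 / κ) ^ 4 * ((κ / 2 / s) ^ 4 / 24) := by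
      field_simp
      norm_num
    rw [e]
    exact mul_le_mul_of_nonneg_left h2 (by positivity)
  rw [h4, ← mul_assoc]
  apply mul_le_mul_of_nonneg_right _ (Real.exp_pos _).le
  refine le_trans ?_ h5
  apply mul_le_mul_of_nonneg_right _ (Real.exp_pos _).le
  exact pow_le_pow_left₀ (by positivity) h1 4

theorem a3b_two {j k : ℕ} (hjk : j + k = 2) (t : ℝ) :
    (1 + t) ^ k * (1 + t) ^ j ≤ 2 * (1 + t ^ 2) := by
  rw [← pow_add, add_comm k j, hjk]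
  nlinarith [sq_nonneg (t - 1)]

theorem a3b_diff {c a B E : ℝ} (hc : 1 ≤ c) {j k : ℕ} (hjk : j + k = 2) (hB0 : 0 < B) {β : ℂ}
    (hβ : ‖β‖ ≤ c) (hE0 : 0 < E) (v w : ℂ)
    (h0 : ‖Tk 0 a w - 1 / ((A0 : ℂ) * a)‖ ≤ B) (h1 : ‖Tk 1 a w‖ ≤ B) (h2 : ‖Tk 2 a w‖ ≤ B) :
    ‖conj v ^ k * (E : ℂ) * (∑ i ∈ Finset.range (j + 1), Tk i a w *
        ((-(conj β * conj v)) ^ (j - i) * (j.choose i))) -
      (1 / ((A0 : ℂ) * a) * (-(conj β)) ^ j) * (conj v ^ 2 * (E : ℂ))‖ ≤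
      2 * c ^ 2 * B * (‖v‖ ^ 0 * E + ‖v‖ ^ 2 * E) := by
  have hj : j ≤ 2 := by omega
  have e1 : conj v ^ k * (E : ℂ) * (∑ i ∈ Finset.range (j + 1), Tk i a w *
        ((-(conj β * conj v)) ^ (j - i) * (j.choose i))) -
      (1 / ((A0 : ℂ) * a) * (-(conj β)) ^ j) * (conj v ^ 2 * (E : ℂ)) = conj v ^ k * (E : ℂ) *
      (∑ i ∈ Finset.range (j + 1), Tk i a w * ((-(conj β * conj v)) ^ (j - i) * (j.choose i)) -
        1 / ((A0 : ℂ) * a) * (-(conj β * conj v)) ^ j) := by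
    have e2 : conj v ^ 2 = conj v ^ j * conj v ^ k := by rw [← pow_add, hjk]
    have e3 : (-(conj β * conj v)) ^ j = (-(conj β)) ^ j * conj v ^ j := by
      rw [← mul_pow]
      congr 1
      ring
    rw [e2, e3]
    ring
  have e4 := a3b_inner_bound hj w (-(conj β * conj v)) h0 h1 h2
  rw [e1, norm_mul, norm_mul, norm_pow, Complex.norm_conj, Complex.norm_real,
    Real.norm_eq_abs, abs_of_pos hE0]
  have e5 : ‖-(conj β * conj v)‖ ≤ c * ‖v‖ := by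
    rw [norm_neg, norm_mul, Complex.norm_conj, Complex.norm_conj]
    exact mul_le_mul_of_nonneg_right hβ (norm_nonneg _)
  have hvn := norm_nonneg v
  have e6 : (1 + ‖-(conj β * conj v)‖) ^ j ≤ c ^ 2 * (1 + ‖v‖) ^ j := by
    have e7 : 1 + ‖-(conj β * conj v)‖ ≤ c * (1 + ‖v‖) := by
      rw [mul_add, mul_one]
      exact add_le_add hc e5
    calc (1 + ‖-(conj β * conj v)‖) ^ j ≤ (c * (1 + ‖v‖)) ^ j :=
          pow_le_pow_left₀ (by positivity) e7 j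
      _ = c ^ j * (1 + ‖v‖) ^ j := mul_pow _ _ _
      _ ≤ c ^ 2 * (1 + ‖v‖) ^ j :=
          mul_le_mul_of_nonneg_right (pow_le_pow_right₀ hc hj) (by positivity)
  have e8 : ‖v‖ ^ k ≤ (1 + ‖v‖) ^ k := pow_le_pow_left₀ hvn (by linarith) k
  have e9 : (1 + ‖v‖) ^ k * (1 + ‖v‖) ^ j ≤ 2 * (1 + ‖v‖ ^ 2) := a3b_two hjk _
  have e10 := e4.trans (mul_le_mul_of_nonneg_left e6 hB0.le)
  generalize ‖∑ i ∈ Finset.range (j + 1), Tk i a w * ((-(conj β * conj v)) ^ (j - i) *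
    (j.choose i)) - 1 / ((A0 : ℂ) * a) * (-(conj β * conj v)) ^ j‖ = N at e10 ⊢
  generalize ‖v‖ = t at *
  calc t ^ k * E * N ≤ (1 + t) ^ k * E * (B * (c ^ 2 * (1 + t) ^ j)) := by
        refine (mul_le_mul_of_nonneg_left e10 (by positivity)).trans ?_
        apply mul_le_mul_of_nonneg_right _ (by positivity)
        exact mul_le_mul_of_nonneg_right e8 hE0.le
    _ = c ^ 2 * B * E * ((1 + t) ^ k * (1 + t) ^ j) := by ring
    _ ≤ c ^ 2 * B * E * (2 * (1 + t ^ 2)) :=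
        mul_le_mul_of_nonneg_left e9 (by positivity)
    _ = 2 * c ^ 2 * B * (t ^ 0 * E + t ^ 2 * E) := by ring

/-- small `s` -/
theorem a3b_small (x : ℂ × ℂ) (c : ℝ) (hc : 1 ≤ c) :
    ∃ C κ : ℝ, 0 < C ∧ 0 < κ ∧ ∀ (s : ℝ) (h : HF), 0 < s → PD h →
      (∀ v, s / c * nrm v ≤ hv h v) → (∀ v, hv h v ≤ c * s * nrm v) →
      ∀ j k : ℕ, j + k = 2 → ‖th h (mo j k) x‖ ≤ C * ((1 + 1 / s) ^ 4 * Real.exp (-(κ / s))) := by
  obtain ⟨C0, κ0, hC0, hκ0, hT0⟩ := T0_small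
  obtain ⟨C1, κ1, hC1, hκ1, hT1⟩ := Tk_small 1 (Or.inl rfl)
  obtain ⟨C2, κ2, hC2, hκ2, hT2⟩ := Tk_small 2 (Or.inr rfl)
  obtain ⟨D0, hD0, hA0⟩ := Ak_bound 0
  obtain ⟨D2, hD2, hA2⟩ := Ak_bound 2
  have hc0 : 0 < c := by linarith
  have hA0pos : 0 < A0 := by
    rw [A0]
    positivity
  set κ : ℝ := min κ0 (min κ1 κ2) with hκdef
  have hκ : 0 < κ := by positivity
  set Cs : ℝ := C0 + C1 + C2 with hCs
  have hCs0 : 0 < Cs := by positivity
  refine ⟨2 * c ^ 2 * Cs * c * ((D0 + D2) * c ^ 3) + c ^ 2 * (c / A0) * C2, κ / c, by positivity,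
    by positivity, ?_⟩
  intro s h hs hPD h1 h2 j k hjk
  obtain ⟨β, d, hβ, a1, a2, d1, d2, hform⟩ := a3b_form hc hs h1 h2
  obtain ⟨a, hadef⟩ : ∃ a : ℝ, a = h.1 := ⟨_, rfl⟩
  rw [← hadef] at a1 a2 hform
  have hsc : 0 < s / c := by positivity
  have ha : 0 < a := lt_of_lt_of_le hsc a1
  have hd : 0 < d := lt_of_lt_of_le hsc d1
  have hj : j ≤ 2 := by omega
  have hs1 : 0 < 1 + 1 / s := by positivity
  -- comparison of `1 + 1/a` and `1 + 1/s`
  have hinv : ∀ t : ℝ, 0 < t → s / c ≤ t → 1 + 1 / t ≤ c * (1 + 1 / s) := by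
    intro t ht hst
    have e1 : 1 / t ≤ 1 / (s / c) := one_div_le_one_div_of_le hsc hst
    have e2 : 1 / (s / c) = c * (1 / s) := by
      field_simp
    rw [e2] at e1
    rw [mul_add, mul_one]
    linarith
  have hexp : ∀ t κ' : ℝ, 0 < t → t ≤ c * s → κ ≤ κ' →
      Real.exp (-(κ' / t)) ≤ Real.exp (-(κ / c / s)) := by
    intro t κ' ht htc hκκ
    apply Real.exp_le_exp.mpr
    rw [neg_le_neg_iff, div_div]
    exact div_le_div₀ (hκ.le.trans hκκ) hκκ ht htc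
  have ea := hinv a ha a1
  have ed := hinv d hd d1
  have hκ0' : κ ≤ κ0 := min_le_left _ _
  have hκ1' : κ ≤ κ1 := (min_le_right _ _).trans (min_le_left _ _)
  have hκ2' : κ ≤ κ2 := (min_le_right _ _).trans (min_le_right _ _)
  set Ex : ℝ := Real.exp (-(κ / c / s)) with hEx
  have hEx0 : 0 < Ex := Real.exp_pos _
  set B : ℝ := Cs * (c * (1 + 1 / s)) * Ex with hB
  have hB0 : 0 < B := by positivity
  have hone : 1 ≤ c * (1 + 1 / s) := by
    have : (0 : ℝ) < 1 / a := by positivity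
    linarith
  have hb0 : ∀ w, ‖Tk 0 a w - 1 / ((A0 : ℂ) * a)‖ ≤ B := by
    intro w
    have e1 := hT0 a ha w
    have e2 : (a : ℂ) * Tk 0 a w - 1 / (A0 : ℂ) = a * (Tk 0 a w - 1 / ((A0 : ℂ) * a)) := by
      have h1 : (a : ℂ) ≠ 0 := by exact_mod_cast ha.ne'
      have h2 : (A0 : ℂ) ≠ 0 := by exact_mod_cast hA0pos.ne'
      field_simp
    rw [e2, norm_mul, Complex.norm_real, Real.norm_eq_abs, abs_of_pos ha] at e1
    have e3 : ‖Tk 0 a w - 1 / ((A0 : ℂ) * a)‖ ≤ C0 * (1 + 1 / a) * Real.exp (-(κ0 / a)) := by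
      have e4 : C0 * (1 + a) * Real.exp (-(κ0 / a)) =
          a * (C0 * (1 + 1 / a) * Real.exp (-(κ0 / a))) := by
        field_simp
        ring
      rw [e4] at e1
      exact le_of_mul_le_mul_left e1 ha
    refine e3.trans ?_
    rw [hB]
    have e5 : C0 ≤ Cs := by rw [hCs]; linarith
    have e6 := hexp a κ0 ha a2 hκ0'
    gcongr
  have hb1 : ∀ w, ‖Tk 1 a w‖ ≤ B := by
    intro w
    refine (hT1 a ha w).trans ?_
    rw [hB]
    have e5 : C1 ≤ Cs * (c * (1 + 1 / s)) := by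
      have : C1 ≤ Cs := by rw [hCs]; linarith
      calc C1 ≤ Cs * 1 := by linarith
        _ ≤ _ := mul_le_mul_of_nonneg_left hone hCs0.le
    exact mul_le_mul e5 (hexp a κ1 ha a2 hκ1') (Real.exp_pos _).le (by positivity)
  have hb2 : ∀ w, ‖Tk 2 a w‖ ≤ B := by
    intro w
    refine (hT2 a ha w).trans ?_
    rw [hB]
    have e5 : C2 ≤ Cs * (c * (1 + 1 / s)) := by
      have : C2 ≤ Cs := by rw [hCs]; linarith
      calc C2 ≤ Cs * 1 := by linarith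
        _ ≤ _ := mul_le_mul_of_nonneg_left hone hCs0.le
    exact mul_le_mul e5 (hexp a κ2 ha a2 hκ2') (Real.exp_pos _).le (by positivity)
  obtain ⟨hG, hth⟩ := a3b_th hPD ha hform j k x
  set G : Eis → ℂ := fun m : Eis => conj (x.2 + emb m) ^ k *
        ((Real.exp (-(Real.pi * d * ‖x.2 + emb m‖ ^ 2)) : ℝ) : ℂ) *
      ∑ i ∈ Finset.range (j + 1), Tk i a (x.1 + β * (x.2 + emb m)) *
        ((-(conj β * conj (x.2 + emb m))) ^ (j - i) * (j.choose i)) with hGdef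
  set Mn : Eis → ℂ := fun m : Eis => (1 / ((A0 : ℂ) * a) * (-(conj β)) ^ j) *
    (conj (x.2 + emb m) ^ 2 * ((Real.exp (-(Real.pi * d * ‖x.2 + emb m‖ ^ 2)) : ℝ) : ℂ))
    with hMdef
  have hMs : Summable Mn := (Tk_summable 2 hd x.2).mul_left _
  have hMt : ∑' m, Mn m = 1 / ((A0 : ℂ) * a) * (-(conj β)) ^ j * Tk 2 d x.2 := by
    rw [hMdef, tsum_mul_left]
    rfl
  have hMn : ‖∑' m, Mn m‖ ≤ c ^ 2 * (c / A0) * C2 * ((1 + 1 / s) ^ 4 * Ex) := by
    rw [hMt, norm_mul, norm_mul, norm_pow, norm_neg, Complex.norm_conj, norm_div, norm_mul,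
      norm_one, Complex.norm_real, Complex.norm_real, Real.norm_eq_abs, Real.norm_eq_abs,
      abs_of_pos hA0pos, abs_of_pos ha]
    have e1 : ‖Tk 2 d x.2‖ ≤ C2 * Ex :=
      (hT2 d hd x.2).trans (mul_le_mul_of_nonneg_left (hexp d κ2 hd d2 hκ2') hC2.le)
    have e2 : ‖β‖ ^ j ≤ c ^ 2 :=
      (pow_le_pow_left₀ (norm_nonneg _) hβ j).trans (pow_le_pow_right₀ hc hj)
    have e3 : 1 / (A0 * a) ≤ c / A0 * (1 + 1 / s) := by
      have e4 : 1 / a ≤ c * (1 + 1 / s) := by linarith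
      calc 1 / (A0 * a) = 1 / A0 * (1 / a) := by field_simp
        _ ≤ 1 / A0 * (c * (1 + 1 / s)) := mul_le_mul_of_nonneg_left e4 (by positivity)
        _ = c / A0 * (1 + 1 / s) := by ring
    have e5 : 1 + 1 / s ≤ (1 + 1 / s) ^ 4 := by
      have : 1 ≤ 1 + 1 / s := by
        have : 0 < 1 / s := by positivity
        linarith
      exact le_self_pow₀ this (by norm_num)
    calc 1 / (A0 * a) * ‖β‖ ^ j * ‖Tk 2 d x.2‖
        ≤ c / A0 * (1 + 1 / s) * c ^ 2 * (C2 * Ex) := by gcongr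
      _ = c ^ 2 * (c / A0) * C2 * ((1 + 1 / s) * Ex) := by ring
      _ ≤ _ := by gcongr
  -- the difference
  have hdiff : ∀ m, ‖G m - Mn m‖ ≤ 2 * c ^ 2 * B *
      (‖x.2 + emb m‖ ^ 0 * Real.exp (-(Real.pi * d * ‖x.2 + emb m‖ ^ 2)) +
        ‖x.2 + emb m‖ ^ 2 * Real.exp (-(Real.pi * d * ‖x.2 + emb m‖ ^ 2))) := fun m =>
    a3b_diff hc hjk hB0 hβ (Real.exp_pos _) (x.2 + emb m) (x.1 + β * (x.2 + emb m))
      (hb0 _) (hb1 _) (hb2 _)
  have hsumb : HasSum (fun m : Eis => 2 * c ^ 2 * B *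
      (‖x.2 + emb m‖ ^ 0 * Real.exp (-(Real.pi * d * ‖x.2 + emb m‖ ^ 2)) +
        ‖x.2 + emb m‖ ^ 2 * Real.exp (-(Real.pi * d * ‖x.2 + emb m‖ ^ 2))))
      (2 * c ^ 2 * B * (Ak 0 d x.2 + Ak 2 d x.2)) :=
    (((Ak_summable 0 hd x.2).hasSum).add ((Ak_summable 2 hd x.2).hasSum)).mul_left _
  have hdn : ‖∑' m, (G m - Mn m)‖ ≤ 2 * c ^ 2 * B * (Ak 0 d x.2 + Ak 2 d x.2) :=
    tsum_of_norm_bounded hsumb hdiff
  have hAk : Ak 0 d x.2 + Ak 2 d x.2 ≤ (D0 + D2) * c ^ 3 * (1 + 1 / s) ^ 3 := by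
    have e1 := hA0 d hd x.2
    have e2 := hA2 d hd x.2
    have e3 : 1 ≤ 1 + 1 / d := by
      have : 0 < 1 / d := by positivity
      linarith
    have e4 : (1 + 1 / d) ^ (0 + 1) ≤ (1 + 1 / d) ^ 3 := pow_le_pow_right₀ e3 (by norm_num)
    have e5 : (1 + 1 / d) ^ 3 ≤ (c * (1 + 1 / s)) ^ 3 := pow_le_pow_left₀ (by positivity) ed 3
    calc Ak 0 d x.2 + Ak 2 d x.2 ≤ D0 * (1 + 1 / d) ^ 3 + D2 * (1 + 1 / d) ^ 3 := by
          apply add_le_add
          · exact e1.trans (mul_le_mul_of_nonneg_left e4 hD0.le)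
          · exact e2
      _ = (D0 + D2) * (1 + 1 / d) ^ 3 := by ring
      _ ≤ (D0 + D2) * (c * (1 + 1 / s)) ^ 3 := mul_le_mul_of_nonneg_left e5 (by positivity)
      _ = (D0 + D2) * c ^ 3 * (1 + 1 / s) ^ 3 := by ring
  have hfin : th h (mo j k) x = ∑' m, (G m - Mn m) + ∑' m, Mn m := by
    rw [hth, Summable.tsum_sub hG hMs]
    ring
  rw [hfin]
  refine (norm_add_le _ _).trans ?_
  have h3 : 2 * c ^ 2 * B * (Ak 0 d x.2 + Ak 2 d x.2) ≤
      2 * c ^ 2 * Cs * c * ((D0 + D2) * c ^ 3) * ((1 + 1 / s) ^ 4 * Ex) := by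
    calc 2 * c ^ 2 * B * (Ak 0 d x.2 + Ak 2 d x.2)
        ≤ 2 * c ^ 2 * B * ((D0 + D2) * c ^ 3 * (1 + 1 / s) ^ 3) :=
          mul_le_mul_of_nonneg_left hAk (by positivity)
      _ = _ := by
          rw [hB]
          ring
  rw [add_mul]
  exact add_le_add (hdn.trans h3) hMn

/-- the lattice coset stays away from zero -/
theorem a3b_mu (x : ℂ × ℂ) (hx : x ∉ L2) : ∃ μ : ℝ, 0 < μ ∧ ∀ m : Eis × Eis, μ ≤ nrm (x + em m) := by
  have hPD : PD ((1, 0, 1) : HF) := ⟨one_pos, by simp⟩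
  have hs := th_summable hPD 0 x
  have hv1 : ∀ v : ℂ × ℂ, hv ((1, 0, 1) : HF) v = nrm v := by
    intro v
    simp [hv, nrm]
  have hne : ∀ m : Eis × Eis, x + em m ≠ 0 := by
    intro m hm
    apply hx
    have : x = em (-m) := by
      have h1 : x = - em m := eq_neg_of_add_eq_zero_left hm
      rw [h1]
      simp [em]
    rw [this]
    exact ⟨_, rfl⟩
  have ht := hs.tendsto_cofinite_zero
  have hev := ht.eventually (gt_mem_nhds (Real.exp_pos (-Real.pi)))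
  rw [Filter.eventually_cofinite] at hev
  obtain ⟨μ, hμ, hμ'⟩ : ∃ μ : ℝ, 0 < μ ∧ ∀ m ∈ hev.toFinset, μ ≤ nrm (x + em m) := by
    rcases hev.toFinset.eq_empty_or_nonempty with h | h
    · refine ⟨1, one_pos, fun m hm => ?_⟩
      rw [h] at hm
      simp at hm
    · obtain ⟨m0, _, hm0⟩ := Finset.exists_min_image hev.toFinset (fun m => nrm (x + em m)) h
      exact ⟨nrm (x + em m0), nrm_pos (hne m0), hm0⟩
  refine ⟨min 1 μ, by positivity, fun m => ?_⟩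
  by_cases hm : m ∈ hev.toFinset
  · exact (min_le_right _ _).trans (hμ' m hm)
  · have h1 : ¬ ¬ ((1 + nrm (x + em m)) ^ 0 * Real.exp (-(Real.pi * hv (1, 0, 1) (x + em m))) <
        Real.exp (-Real.pi)) := by
      intro h
      exact hm (hev.mem_toFinset.mpr h)
    have h2 := not_not.mp h1
    rw [pow_zero, one_mul, hv1, Real.exp_lt_exp, neg_lt_neg_iff] at h2
    have h3 : 1 < nrm (x + em m) := by
      have hpi := Real.pi_pos
      by_contra hcon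
      push Not at hcon
      have : Real.pi * nrm (x + em m) ≤ Real.pi * 1 := mul_le_mul_of_nonneg_left hcon hpi.le
      linarith
    exact (min_le_left _ _).trans h3.le

theorem a3b_mo_le {j k : ℕ} (hjk : j + k = 2) (v : ℂ × ℂ) : ‖mo j k v‖ ≤ 1 + nrm v := by
  rw [mo, norm_mul, norm_pow, norm_pow, Complex.norm_conj, Complex.norm_conj, nrm]
  have h1 := norm_nonneg v.1
  have h2 := norm_nonneg v.2
  have : (j = 0 ∧ k = 2) ∨ (j = 1 ∧ k = 1) ∨ (j = 2 ∧ k = 0) := by omega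
  rcases this with ⟨rfl, rfl⟩ | ⟨rfl, rfl⟩ | ⟨rfl, rfl⟩
  · nlinarith
  · nlinarith [sq_nonneg (‖v.1‖ - ‖v.2‖)]
  · nlinarith

/-- large `s` -/
theorem a3b_large (x : ℂ × ℂ) (hx : x ∉ L2) (c : ℝ) (hc : 1 ≤ c) :
    ∃ C κ : ℝ, 0 < C ∧ 0 < κ ∧ ∀ (s : ℝ) (h : HF), 1 ≤ s → PD h →
      (∀ v, s / c * nrm v ≤ hv h v) →
      ∀ j k : ℕ, j + k = 2 → ‖th h (mo j k) x‖ ≤ C * Real.exp (-(κ * s)) := by
  obtain ⟨μ, hμ, hμ'⟩ := a3b_mu x hx
  have hc0 : 0 < c := by linarith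
  have hPD : PD ((1 / (2 * c), 0, 1 / (2 * c)) : HF) := by
    refine ⟨by positivity, ?_⟩
    have h1 : (0 : ℝ) < 1 / (2 * c) * (1 / (2 * c)) := by positivity
    have h2 : ‖(0 : ℂ)‖ ^ 2 = 0 := by simp
    show ‖(0 : ℂ)‖ ^ 2 < 1 / (2 * c) * (1 / (2 * c))
    rw [h2]
    exact h1
  have hs0 := th_summable hPD 1 x
  have hv1 : ∀ v : ℂ × ℂ, hv ((1 / (2 * c), 0, 1 / (2 * c)) : HF) v = 1 / (2 * c) * nrm v := by
    intro v
    simp only [hv, nrm, zero_mul, Complex.zero_re, mul_zero, add_zero]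
    ring
  set T : ℝ := ∑' m : Eis × Eis, (1 + nrm (x + em m)) ^ 1 *
    Real.exp (-(Real.pi * hv (1 / (2 * c), 0, 1 / (2 * c)) (x + em m))) with hT
  have hT0 : 0 ≤ T := tsum_nonneg fun m => by
    have := nrm_nonneg (x + em m)
    positivity
  have hpi := Real.pi_pos
  refine ⟨T + 1, Real.pi * μ / (2 * c), by positivity, by positivity, ?_⟩
  intro s h hs hh h1 j k hjk
  have hb : ∀ m : Eis × Eis, ‖mo j k (x + em m) *
      ((Real.exp (-(Real.pi * hv h (x + em m))) : ℝ) : ℂ)‖ ≤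
      Real.exp (-(Real.pi * μ / (2 * c) * s)) * ((1 + nrm (x + em m)) ^ 1 *
        Real.exp (-(Real.pi * hv (1 / (2 * c), 0, 1 / (2 * c)) (x + em m)))) := by
    intro m
    have hn := nrm_nonneg (x + em m)
    rw [norm_mul, Complex.norm_real, Real.norm_eq_abs, abs_of_pos (Real.exp_pos _)]
    have e1 : Real.exp (-(Real.pi * hv h (x + em m))) ≤
        Real.exp (-(Real.pi * μ / (2 * c) * s)) *
          Real.exp (-(Real.pi * hv (1 / (2 * c), 0, 1 / (2 * c)) (x + em m))) := by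
      rw [← Real.exp_add]
      apply Real.exp_le_exp.mpr
      rw [hv1]
      have e2 := h1 (x + em m)
      have e3 := hμ' m
      have e4 : s / c * nrm (x + em m) =
          s / (2 * c) * nrm (x + em m) + s / (2 * c) * nrm (x + em m) := by
        field_simp
        ring
      have e5 : s / (2 * c) * μ ≤ s / (2 * c) * nrm (x + em m) :=
        mul_le_mul_of_nonneg_left e3 (by positivity)
      have e6 : 1 / (2 * c) * nrm (x + em m) ≤ s / (2 * c) * nrm (x + em m) := by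
        apply mul_le_mul_of_nonneg_right _ hn
        gcongr
      have e7 : s / (2 * c) * μ + 1 / (2 * c) * nrm (x + em m) ≤ hv h (x + em m) := by linarith
      have e8 := mul_le_mul_of_nonneg_left e7 hpi.le
      have e9 : Real.pi * (s / (2 * c) * μ + 1 / (2 * c) * nrm (x + em m)) =
          Real.pi * μ / (2 * c) * s + Real.pi * (1 / (2 * c) * nrm (x + em m)) := by ring
      rw [e9] at e8
      linarith
    calc ‖mo j k (x + em m)‖ * Real.exp (-(Real.pi * hv h (x + em m)))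
        ≤ (1 + nrm (x + em m)) * (Real.exp (-(Real.pi * μ / (2 * c) * s)) *
          Real.exp (-(Real.pi * hv (1 / (2 * c), 0, 1 / (2 * c)) (x + em m)))) :=
          mul_le_mul (a3b_mo_le hjk _) e1 (Real.exp_pos _).le (by linarith)
      _ = _ := by
          rw [pow_one]
          ring
  have hsum : HasSum (fun m : Eis × Eis => Real.exp (-(Real.pi * μ / (2 * c) * s)) *
      ((1 + nrm (x + em m)) ^ 1 *
        Real.exp (-(Real.pi * hv (1 / (2 * c), 0, 1 / (2 * c)) (x + em m)))))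
      (Real.exp (-(Real.pi * μ / (2 * c) * s)) * T) := hs0.hasSum.mul_left _
  have h2 := tsum_of_norm_bounded hsum hb
  rw [th]
  refine h2.trans ?_
  rw [mul_comm]
  exact mul_le_mul_of_nonneg_right (by linarith) (Real.exp_pos _).le

theorem TB (x : ℂ × ℂ) (hx : x ∉ L2) (c : ℝ) (hc : 1 ≤ c) :
    ∃ C κ : ℝ, 0 < C ∧ 0 < κ ∧ ∀ (s : ℝ) (h : HF), 0 < s →
      (∀ v, s / c * nrm v ≤ hv h v) → (∀ v, hv h v ≤ c * s * nrm v) →
      ∀ j k : ℕ, j + k = 2 → ‖th h (mo j k) x‖ ≤ C * Real.exp (-(κ * (s + 1 / s))) := by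
  obtain ⟨C1, κ1, hC1, hκ1, hb1⟩ := a3b_small x c hc
  obtain ⟨C2, κ2, hC2, hκ2, hb2⟩ := a3b_large x hx c hc
  obtain ⟨C3, hC3, hb3⟩ := a3b_poly κ1 hκ1
  have hc0 : 0 < c := by linarith
  set κ : ℝ := min (κ1 / 2) κ2 with hκdef
  have hκ : 0 < κ := by positivity
  have hk1 : κ ≤ κ1 / 2 := min_le_left _ _
  have hk2 : κ ≤ κ2 := min_le_right _ _
  refine ⟨(C1 * C3 + C2) * Real.exp κ, κ, by positivity, hκ, ?_⟩
  intro s h hs h1 h2 j k hjk
  have hPD : PD h := PD_of_pos fun v hv0 =>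
    lt_of_lt_of_le (mul_pos (by positivity) (nrm_pos hv0)) (h1 v)
  have hexp : ∀ t : ℝ, κ * (s + 1 / s) ≤ t + κ → Real.exp (-t) ≤
      Real.exp κ * Real.exp (-(κ * (s + 1 / s))) := by
    intro t ht
    rw [← Real.exp_add]
    exact Real.exp_le_exp.mpr (by linarith)
  rcases le_total s 1 with hs1 | hs1
  · have e1 := hb1 s h hs hPD h1 h2 j k hjk
    have e2 := hb3 s hs hs1
    have e3 : Real.exp (-(κ1 / 2 / s)) ≤ Real.exp κ * Real.exp (-(κ * (s + 1 / s))) := by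
      apply hexp
      have e4 : κ * s ≤ κ := by nlinarith
      have e5 : κ * (1 / s) ≤ κ1 / 2 / s := by
        rw [mul_one_div]
        gcongr
      rw [mul_add]
      linarith
    calc ‖th h (mo j k) x‖ ≤ C1 * (C3 * Real.exp (-(κ1 / 2 / s))) :=
          e1.trans (mul_le_mul_of_nonneg_left e2 hC1.le)
      _ ≤ C1 * (C3 * (Real.exp κ * Real.exp (-(κ * (s + 1 / s))))) := by gcongr
      _ = C1 * C3 * Real.exp κ * Real.exp (-(κ * (s + 1 / s))) := by ring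
      _ ≤ _ := by
          gcongr
          linarith
  · have e1 := hb2 s h hs1 hPD h1 j k hjk
    have e3 : Real.exp (-(κ2 * s)) ≤ Real.exp κ * Real.exp (-(κ * (s + 1 / s))) := by
      apply hexp
      have e4 : κ * s ≤ κ2 * s := mul_le_mul_of_nonneg_right hk2 hs.le
      have e5 : κ * (1 / s) ≤ κ := by
        have : 1 / s ≤ 1 := by
          rw [div_le_one hs]
          exact hs1
        nlinarith
      rw [mul_add]
      linarith
    calc ‖th h (mo j k) x‖ ≤ C2 * (Real.exp κ * Real.exp (-(κ * (s + 1 / s)))) :=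
          e1.trans (mul_le_mul_of_nonneg_left e3 hC2.le)
      _ = C2 * Real.exp κ * Real.exp (-(κ * (s + 1 / s))) := by ring
      _ ≤ _ := by
          gcongr
          have : 0 < C1 * C3 := by positivity
          linarith

theorem TBn (x : ℂ × ℂ) (hx : x ∉ L2) (c : ℝ) (hc : 1 ≤ c) (P Q : HF) :
    ∃ C κ : ℝ, 0 < C ∧ 0 < κ ∧ ∀ (s : ℝ) (h : HF), 0 < s →
      (∀ v, s / c * nrm v ≤ hv h v) → (∀ v, hv h v ≤ c * s * nrm v) →
      ‖th h (nn P Q) x‖ ≤ C * Real.exp (-(κ * (s + 1 / s))) := by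
  obtain ⟨C, κ, hC, hκ, hb⟩ := TB x hx c hc
  have hc0 : 0 < c := by linarith
  set A : ℂ := -(1 / 2) * (P.1 * Q.2.1 - P.2.1 * Q.1) with hA
  set A' : ℂ := -(1 / 2) * (P.1 * Q.2.2 - P.2.2 * Q.1 + conj P.2.1 * Q.2.1 -
    P.2.1 * conj Q.2.1) with hA'
  set A'' : ℂ := -(1 / 2) * (conj P.2.1 * Q.2.2 - P.2.2 * conj Q.2.1) with hA''
  refine ⟨(‖A‖ + ‖A'‖ + ‖A''‖ + 1) * C, κ, by positivity, hκ, ?_⟩
  intro s h hs h1 h2
  have hPD : PD h := PD_of_pos fun v hv0 =>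
    lt_of_lt_of_le (mul_pos (by positivity) (nrm_pos hv0)) (h1 v)
  have e1 := hb s h hs h1 h2 2 0 rfl
  have e2 := hb s h hs h1 h2 1 1 rfl
  have e3 := hb s h hs h1 h2 0 2 rfl
  rw [mul_assoc, th_nn hPD P Q x, ← hA, ← hA', ← hA'']
  have hE : 0 < C * Real.exp (-(κ * (s + 1 / s))) := by positivity
  generalize C * Real.exp (-(κ * (s + 1 / s))) = R at *
  have f : ∀ (a t : ℂ), ‖t‖ ≤ R → ‖a * t‖ ≤ ‖a‖ * R := fun a t ht => by
    rw [norm_mul]
    exact mul_le_mul_of_nonneg_left ht (norm_nonneg _)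
  calc ‖A * th h (mo 2 0) x + A' * th h (mo 1 1) x + A'' * th h (mo 0 2) x‖
      ≤ ‖A * th h (mo 2 0) x‖ + ‖A' * th h (mo 1 1) x‖ + ‖A'' * th h (mo 0 2) x‖ :=
        norm_add₃_le
    _ ≤ ‖A‖ * R + ‖A'‖ * R + ‖A''‖ * R := add_le_add (add_le_add (f _ _ e1) (f _ _ e2)) (f _ _ e3)
    _ ≤ (‖A‖ + ‖A'‖ + ‖A''‖ + 1) * R := by linarith

end NAB
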