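import Pool.Agent.MP_9ab903_nt.NAB.A4a

/-! ## [NAB-A4] additivity of `SS`

Additivity: fix a PD form `R'` (e.g. `R' = P`), `η > 0`, and put
`G η P Q = ∑_m nn P Q v / (hv P v * hv Q v) * exp(-π η hv R' v)`, `v = x + em m ≠ 0` (absolutely convergent).
(a) `G η P Q = π² ∫_{qd} th (a • P + b • Q + η • R') (nn P Q) x` (Fubini for series: `hasSum_integral_of_summable_integral_norm`
or `integral_tsum`; `∫∫ e^{-π(aP+bQ)} = 1/(π² P Q)`), (b) `G η P Q + G η Q R = G η P R` termwise by `nn_cocycle` (divide by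
`P Q R`) and `nn_symm`, (c) `η → 0+`: the right side of (a) tends to `SS x P Q` by dominated convergence: pointwise by
`th_nn_cont` (continuity in `h` at the PD form `a • P + b • Q`), domination by `TBn` with `s = a + b + η`,
`exp(-κ (s + 1/s)) ≤ exp(-κ (a + b))`. -/

set_option autoImplicit false

open scoped ComplexConjugate
open MeasureTheory Set Filter Topology

namespace NAB

open CM27

theorem a4_ne {x : ℂ × ℂ} (hx : x ∉ L2) (m : Eis × Eis) : x + em m ≠ 0 := by
  intro h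
  apply hx
  refine ⟨-m, ?_⟩
  have h1 : x = - em m := eq_neg_of_add_eq_zero_left h
  rw [h1]
  apply Prod.ext <;> simp [em]

/-- the values of a positive definite form are eventually at least `1` -/
theorem a4_ev {h : HF} (hh : PD h) (x : ℂ × ℂ) :
    ∀ᶠ m : Eis × Eis in cofinite, 1 ≤ hv h (x + em m) := by
  have h1 := (th_summable hh 0 x).tendsto_cofinite_zero
  have h2 : ∀ᶠ m : Eis × Eis in cofinite, (1 + nrm (x + em m)) ^ 0
      * Real.exp (-(Real.pi * hv h (x + em m))) < Real.exp (-(Real.pi * 1)) :=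
    h1.eventually (gt_mem_nhds (Real.exp_pos _))
  filter_upwards [h2] with m hm
  rw [pow_zero, one_mul, Real.exp_lt_exp, neg_lt_neg_iff] at hm
  exact (lt_of_mul_lt_mul_left hm Real.pi_pos.le).le

/-- the coefficient after the integration -/
noncomputable def a4_c (x : ℂ × ℂ) (P Q R' : HF) (η : ℝ) (m : Eis × Eis) : ℂ :=
  nn P Q (x + em m) * ((Real.exp (-(Real.pi * hv (η • R') (x + em m))) : ℝ) : ℂ) /
    ((hv P (x + em m) * hv Q (x + em m) : ℝ) : ℂ)

theorem a4_c_summable {x : ℂ × ℂ} {P Q R' : HF} (hP : PD P) (hQ : PD Q) (hR' : PD R')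
    {η : ℝ} (hη : 0 < η) : Summable (a4_c x P Q R' η) := by
  refine Summable.of_norm_bounded_eventually (nn_summable (hR'.smul hη) P Q x).norm ?_
  filter_upwards [a4_ev hP x, a4_ev hQ x] with m h1 h2
  unfold a4_c
  rw [norm_div, Complex.norm_real, Real.norm_eq_abs]
  have h3 : (1 : ℝ) ≤ hv P (x + em m) * hv Q (x + em m) := by nlinarith
  rw [abs_of_nonneg (by linarith)]
  exact div_le_self (norm_nonneg _) h3

/-- the termwise cocycle identity -/
theorem a4_c_add {x : ℂ × ℂ} (hx : x ∉ L2) {P Q R : HF} (hP : PD P) (hQ : PD Q) (hR : PD R)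
    (R' : HF) (η : ℝ) (m : Eis × Eis) :
    a4_c x P Q R' η m + a4_c x Q R R' η m = a4_c x P R R' η m := by
  have h1 := (hP.pos (a4_ne hx m)).ne'
  have h2 := (hQ.pos (a4_ne hx m)).ne'
  have h3 := (hR.pos (a4_ne hx m)).ne'
  have h4 := nn_cocycle P Q R (x + em m)
  have h5 := nn_symm P R (x + em m)
  rw [h5] at h4
  unfold a4_c
  have h1' : ((hv P (x + em m) : ℝ) : ℂ) ≠ 0 := by exact_mod_cast h1
  have h2' : ((hv Q (x + em m) : ℝ) : ℂ) ≠ 0 := by exact_mod_cast h2
  have h3' : ((hv R (x + em m) : ℝ) : ℂ) ≠ 0 := by exact_mod_cast h3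
  push_cast
  field_simp
  linear_combination h4

/-- the integrand of one term -/
noncomputable def a4_F (x : ℂ × ℂ) (P Q R' : HF) (η : ℝ) (m : Eis × Eis) (t : ℝ × ℝ) : ℂ :=
  nn P Q (x + em m) *
    ((Real.exp (-(Real.pi * hv (t.1 • P + t.2 • Q + η • R') (x + em m))) : ℝ) : ℂ)

theorem a4_F_eq (x : ℂ × ℂ) (P Q R' : HF) (η : ℝ) (m : Eis × Eis) (t : ℝ × ℝ) :
    a4_F x P Q R' η m t =
      (nn P Q (x + em m) * ((Real.exp (-(Real.pi * hv (η • R') (x + em m))) : ℝ) : ℂ)) *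
      ((Real.exp (-(Real.pi * hv P (x + em m)) * t.1) *
        Real.exp (-(Real.pi * hv Q (x + em m)) * t.2) : ℝ) : ℂ) := by
  unfold a4_F
  rw [mul_assoc, ← Complex.ofReal_mul, ← Real.exp_add, ← Real.exp_add, hv_add, hv_comb]
  congr 3
  ring

theorem a4_int1 {p q : ℝ} (hp : 0 < p) (hq : 0 < q) :
    IntegrableOn (fun t : ℝ × ℝ => Real.exp (-(Real.pi * p) * t.1) *
      Real.exp (-(Real.pi * q) * t.2)) qd ∧
    ∫ t in qd, Real.exp (-(Real.pi * p) * t.1) * Real.exp (-(Real.pi * q) * t.2) =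
      1 / (Real.pi ^ 2 * (p * q)) := by
  have h1 : -(Real.pi * p) < 0 := by have := mul_pos Real.pi_pos hp; linarith
  have h2 : -(Real.pi * q) < 0 := by have := mul_pos Real.pi_pos hq; linarith
  constructor
  · unfold qd
    rw [IntegrableOn, Measure.volume_eq_prod, ← Measure.prod_restrict]
    exact (integrableOn_exp_mul_Ioi h1 0).mul_prod (integrableOn_exp_mul_Ioi h2 0)
  · unfold qd
    rw [Measure.volume_eq_prod, setIntegral_prod_mul (fun s => Real.exp (-(Real.pi * p) * s))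
      (fun s => Real.exp (-(Real.pi * q) * s)), integral_exp_mul_Ioi h1, integral_exp_mul_Ioi h2]
    have := Real.pi_pos.ne'
    simp only [mul_zero, Real.exp_zero]
    field_simp

theorem a4_F_int {x : ℂ × ℂ} (hx : x ∉ L2) {P Q : HF} (hP : PD P) (hQ : PD Q) (R' : HF)
    (η : ℝ) (m : Eis × Eis) : IntegrableOn (a4_F x P Q R' η m) qd := by
  have h := (a4_int1 (hP.pos (a4_ne hx m)) (hQ.pos (a4_ne hx m))).1
  have h2 := (h.ofReal (𝕜 := ℂ)).const_mul
    (nn P Q (x + em m) * ((Real.exp (-(Real.pi * hv (η • R') (x + em m))) : ℝ) : ℂ))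
  refine h2.congr (Filter.Eventually.of_forall fun t => ?_)
  exact (a4_F_eq x P Q R' η m t).symm

theorem a4_F_integral {x : ℂ × ℂ} (hx : x ∉ L2) {P Q : HF} (hP : PD P) (hQ : PD Q) (R' : HF)
    (η : ℝ) (m : Eis × Eis) :
    ∫ t in qd, a4_F x P Q R' η m t = a4_c x P Q R' η m / (Real.pi : ℂ) ^ 2 := by
  have h := (a4_int1 (hP.pos (a4_ne hx m)) (hQ.pos (a4_ne hx m))).2
  have h1 := (hP.pos (a4_ne hx m)).ne'
  have h2 := (hQ.pos (a4_ne hx m)).ne'
  simp_rw [a4_F_eq]
  rw [integral_const_mul, integral_complex_ofReal, h]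
  unfold a4_c
  push_cast
  have := Real.pi_pos.ne'
  have h1' : ((hv P (x + em m) : ℝ) : ℂ) ≠ 0 := by exact_mod_cast h1
  have h2' : ((hv Q (x + em m) : ℝ) : ℂ) ≠ 0 := by exact_mod_cast h2
  have h3' : ((Real.pi : ℝ) : ℂ) ≠ 0 := by exact_mod_cast this
  field_simp

theorem a4_F_norm {x : ℂ × ℂ} (hx : x ∉ L2) {P Q : HF} (hP : PD P) (hQ : PD Q) (R' : HF)
    (η : ℝ) (m : Eis × Eis) :
    ∫ t in qd, ‖a4_F x P Q R' η m t‖ = ‖a4_c x P Q R' η m‖ / Real.pi ^ 2 := by
  have h := (a4_int1 (hP.pos (a4_ne hx m)) (hQ.pos (a4_ne hx m))).2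
  have h1 := hP.pos (a4_ne hx m)
  have h2 := hQ.pos (a4_ne hx m)
  have h3 : ∀ t : ℝ × ℝ, ‖a4_F x P Q R' η m t‖ =
      ‖nn P Q (x + em m) * ((Real.exp (-(Real.pi * hv (η • R') (x + em m))) : ℝ) : ℂ)‖ *
      (Real.exp (-(Real.pi * hv P (x + em m)) * t.1) *
        Real.exp (-(Real.pi * hv Q (x + em m)) * t.2)) := by
    intro t
    rw [a4_F_eq, norm_mul, Complex.norm_real, Real.norm_eq_abs, abs_of_pos (by positivity)]
  simp_rw [h3]
  rw [integral_const_mul, h]
  unfold a4_c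
  rw [norm_div, Complex.norm_real, Real.norm_eq_abs, abs_of_pos (mul_pos h1 h2)]
  have := Real.pi_pos.ne'
  field_simp

/-- (a) -/
theorem a4_a {x : ℂ × ℂ} (hx : x ∉ L2) {P Q R' : HF} (hP : PD P) (hQ : PD Q) (hR' : PD R')
    {η : ℝ} (hη : 0 < η) :
    (Real.pi : ℂ) ^ 2 * ∫ t in qd, th (t.1 • P + t.2 • Q + η • R') (nn P Q) x =
      ∑' m, a4_c x P Q R' η m := by
  have hcount : Countable (Eis × Eis) := by
    have h : Countable Eis := by
      have : Function.Injective (fun z : Eis => (z.re, z.im)) := fun a b h => by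
        simp only [Prod.mk.injEq] at h
        exact QuadraticAlgebra.ext h.1 h.2
      exact this.countable
    infer_instance
  have h1 := hasSum_integral_of_summable_integral_norm (μ := volume.restrict qd)
    (F := fun m : Eis × Eis => a4_F x P Q R' η m) (fun m => a4_F_int hx hP hQ R' η m) (by
      simp_rw [a4_F_norm hx hP hQ R' η]
      exact (a4_c_summable hP hQ hR' hη).norm.div_const _)
  simp_rw [a4_F_integral hx hP hQ R' η] at h1
  have h2 := h1.tsum_eq
  rw [tsum_div_const] at h2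
  have h3 : ∫ t in qd, th (t.1 • P + t.2 • Q + η • R') (nn P Q) x =
      ∫ t in qd, ∑' m, a4_F x P Q R' η m t := rfl
  rw [h3, ← h2]
  have h4 : ((Real.pi : ℝ) : ℂ) ≠ 0 := by exact_mod_cast Real.pi_pos.ne'
  field_simp

/-- bounds for the combinations of three forms -/
theorem a4_bounds3 {P Q R : HF} (hP : PD P) (hQ : PD Q) (hR : PD R) :
    ∃ c : ℝ, 1 ≤ c ∧ ∀ a b e : ℝ, 0 ≤ a → 0 ≤ b → 0 ≤ e → ∀ v,
      (a + b + e) / c * nrm v ≤ hv (a • P + b • Q + e • R) v ∧
      hv (a • P + b • Q + e • R) v ≤ c * (a + b + e) * nrm v := by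
  obtain ⟨c1, hc1, h1⟩ := PD.bounds2 hP hQ
  obtain ⟨c2, hc2, h2⟩ := hR.bounds
  refine ⟨max c1 c2, le_trans hc1 (le_max_left _ _), fun a b e ha hb he v => ?_⟩
  have hm : 0 < max c1 c2 := lt_of_lt_of_le (by linarith) (le_max_left c1 c2)
  have hn := nrm_nonneg v
  rw [hv_add, hv_smul]
  have h3 := h1 a b ha hb v
  have h4 := h2 v
  have l1 : (a + b) / max c1 c2 * nrm v ≤ (a + b) / c1 * nrm v := by
    refine mul_le_mul_of_nonneg_right ?_ hn
    exact div_le_div_of_nonneg_left (by linarith) (by linarith) (le_max_left _ _)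
  have l2 : nrm v / max c1 c2 ≤ nrm v / c2 :=
    div_le_div_of_nonneg_left hn (by linarith) (le_max_right _ _)
  have u1 : c1 * (a + b) * nrm v ≤ max c1 c2 * (a + b) * nrm v := by
    refine mul_le_mul_of_nonneg_right ?_ hn
    exact mul_le_mul_of_nonneg_right (le_max_left _ _) (by linarith)
  have u2 : c2 * nrm v ≤ max c1 c2 * nrm v := mul_le_mul_of_nonneg_right (le_max_right _ _) hn
  constructor
  · have e1 : (a + b + e) / max c1 c2 * nrm v =
        (a + b) / max c1 c2 * nrm v + e * (nrm v / max c1 c2) := by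
      field_simp
    rw [e1]
    exact add_le_add (l1.trans h3.1) (mul_le_mul_of_nonneg_left (l2.trans h4.1) he)
  · have e1 : max c1 c2 * (a + b + e) * nrm v =
        max c1 c2 * (a + b) * nrm v + e * (max c1 c2 * nrm v) := by
      ring
    rw [e1]
    exact add_le_add (h3.2.trans u1) (mul_le_mul_of_nonneg_left (h4.2.trans u2) he)

theorem a4_qd_meas : MeasurableSet qd := measurableSet_Ioi.prod measurableSet_Ioi

/-- (c) -/
theorem a4_lim {x : ℂ × ℂ} (hx : x ∉ L2) {P Q R' : HF} (hP : PD P) (hQ : PD Q) (hR' : PD R') :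
    Tendsto (fun n : ℕ => (Real.pi : ℂ) ^ 2 *
      ∫ t in qd, th (t.1 • P + t.2 • Q + (1 / ((n : ℝ) + 1)) • R') (nn P Q) x) atTop
      (𝓝 (SS x P Q)) := by
  unfold SS
  refine Tendsto.const_mul _ ?_
  obtain ⟨c, hc, hb⟩ := a4_bounds3 hP hQ hR'
  obtain ⟨C, κ, hC, hκ, hTB⟩ := TBn x hx c hc P Q
  have hcontf : ∀ e : ℝ, Continuous (fun t : ℝ × ℝ => (t.1 • P + t.2 • Q + e • R' : HF)) := by
    intro e
    fun_prop
  have hmaps : ∀ n : ℕ, MapsTo (fun t : ℝ × ℝ =>
      (t.1 • P + t.2 • Q + (1 / ((n : ℝ) + 1)) • R' : HF)) qd {h | PD h} := by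
    intro n t ht
    exact (hP.comb hQ ht.1 ht.2).add (hR'.smul (by positivity))
  refine tendsto_integral_of_dominated_convergence
    (fun t : ℝ × ℝ => C * (Real.exp (-κ * t.1) * Real.exp (-κ * t.2))) ?_ ?_ ?_ ?_
  · intro n
    exact ((th_nn_cont P Q x).comp (hcontf _).continuousOn (hmaps n)).aestronglyMeasurable
      a4_qd_meas
  · refine Integrable.const_mul ?_ C
    unfold qd
    rw [Measure.volume_eq_prod, ← Measure.prod_restrict]
    exact (integrableOn_exp_mul_Ioi (by linarith) 0).mul_prod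
      (integrableOn_exp_mul_Ioi (by linarith) 0)
  · intro n
    refine (ae_restrict_iff' a4_qd_meas).2 (Filter.Eventually.of_forall fun t ht => ?_)
    have ht1 : 0 < t.1 := ht.1
    have ht2 : 0 < t.2 := ht.2
    have hn : (0 : ℝ) < 1 / ((n : ℝ) + 1) := by positivity
    set s : ℝ := t.1 + t.2 + 1 / ((n : ℝ) + 1) with hs
    have hs0 : 0 < s := by positivity
    have h1 := hTB s (t.1 • P + t.2 • Q + (1 / ((n : ℝ) + 1)) • R') hs0
      (fun v => (hb t.1 t.2 _ ht1.le ht2.le hn.le v).1)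
      (fun v => (hb t.1 t.2 _ ht1.le ht2.le hn.le v).2)
    refine h1.trans (mul_le_mul_of_nonneg_left ?_ hC.le)
    rw [← Real.exp_add, Real.exp_le_exp]
    have h2 : 0 < 1 / s := by positivity
    nlinarith
  · refine (ae_restrict_iff' a4_qd_meas).2 (Filter.Eventually.of_forall fun t ht => ?_)
    have hPQ : PD (t.1 • P + t.2 • Q) := hP.comb hQ ht.1 ht.2
    have hlim : Tendsto (fun n : ℕ => (t.1 • P + t.2 • Q + (1 / ((n : ℝ) + 1)) • R' : HF)) atTop
        (𝓝[{h | PD h}] (t.1 • P + t.2 • Q)) := by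
      refine tendsto_nhdsWithin_iff.2 ⟨?_, Filter.Eventually.of_forall fun n => hmaps n ht⟩
      have h3 : Tendsto (fun n : ℕ => (1 / ((n : ℝ) + 1)) • R') atTop (𝓝 ((0 : ℝ) • R')) :=
        (tendsto_one_div_add_atTop_nhds_zero_nat (𝕜 := ℝ)).smul_const R'
      rw [zero_smul] at h3
      have h4 := h3.const_add (t.1 • P + t.2 • Q)
      rwa [add_zero] at h4
    exact ((th_nn_cont P Q x) _ hPQ).tendsto.comp hlim

theorem SS_add (x : ℂ × ℂ) (hx : x ∉ L2) (P Q R : HF) (hP : PD P) (hQ : PD Q) (hR : PD R) :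
    SS x P Q + SS x Q R = SS x P R := by
  have h1 := (a4_lim hx hP hQ hP).add (a4_lim hx hQ hR hP)
  have h2 := a4_lim hx hP hR hP
  refine tendsto_nhds_unique h1 (h2.congr fun n => ?_)
  have hn : (0 : ℝ) < 1 / ((n : ℝ) + 1) := by positivity
  rw [a4_a hx hP hQ hP hn, a4_a hx hQ hR hP hn, a4_a hx hP hR hP hn,
    ← (a4_c_summable hP hQ hP hn).tsum_add (a4_c_summable hQ hR hP hn)]
  exact tsum_congr fun m => (a4_c_add hx hP hQ hR P _ m).symm

end NAB
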