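import Pool.Agent.MP_9ab903_nt.NAB.A3b

/-! ## [NAB-A4a] integrability of the integrand of `SS`

`th (a • P + b • Q) (nn P Q) x` is continuous on `qd` (`th_nn_cont`, `PD.comb`) and bounded by `C exp(-κ (a + b))` (`TBn` with
`s = a + b`, `PD.bounds2`). `SS_symm`: swap the variables, `nn_symm`; `SS_self`: `nn_self`. -/

set_option autoImplicit false

open scoped ComplexConjugate
open MeasureTheory Set Filter Topology

namespace NAB

open CM27

theorem A4a_exp_int {κ : ℝ} (hκ : 0 < κ) :
    IntegrableOn (fun t : ℝ × ℝ => Real.exp (-κ * t.1) * Real.exp (-κ * t.2)) qd := by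
  have h1 : Integrable (fun u : ℝ => Real.exp (-κ * u)) (volume.restrict (Ioi 0)) :=
    exp_neg_integrableOn_Ioi 0 hκ
  have h2 := h1.mul_prod h1
  rw [Measure.prod_restrict] at h2
  exact h2

theorem SS_int (x : ℂ × ℂ) (hx : x ∉ L2) (P Q : HF) (hP : PD P) (hQ : PD Q) :
    IntegrableOn (fun t : ℝ × ℝ => th (t.1 • P + t.2 • Q) (nn P Q) x) qd := by
  have hm : MeasurableSet qd := measurableSet_Ioi.prod measurableSet_Ioi
  obtain ⟨c, hc, hb⟩ := hP.bounds2 hQ
  obtain ⟨C, κ, hC, hκ, h⟩ := TBn x hx c hc P Q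
  have hcont : ContinuousOn (fun t : ℝ × ℝ => th (t.1 • P + t.2 • Q) (nn P Q) x) qd := by
    have h1 : ContinuousOn (fun t : ℝ × ℝ => t.1 • P + t.2 • Q) qd :=
      ((continuous_fst.smul continuous_const).add
        (continuous_snd.smul continuous_const)).continuousOn
    have h2 : MapsTo (fun t : ℝ × ℝ => t.1 • P + t.2 • Q) qd {h | PD h} :=
      fun t ht => hP.comb hQ ht.1 ht.2
    have h3 := th_nn_cont P Q x
    have h4 := ContinuousOn.comp (g := fun h : HF => th h (nn P Q) x) h3 h1 h2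
    exact h4
  refine Integrable.mono' ((A4a_exp_int hκ).const_mul C)
    (hcont.aestronglyMeasurable hm) ?_
  refine (ae_restrict_iff' hm).2 (Filter.Eventually.of_forall fun t ht => ?_)
  obtain ⟨h1, h2⟩ := ht
  have h1' : 0 < t.1 := h1
  have h2' : 0 < t.2 := h2
  refine (h (t.1 + t.2) _ (by positivity) (fun v => (hb t.1 t.2 h1'.le h2'.le v).1)
    (fun v => (hb t.1 t.2 h1'.le h2'.le v).2)).trans ?_
  apply mul_le_mul_of_nonneg_left _ hC.le
  rw [← Real.exp_add]
  apply Real.exp_le_exp.2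
  have : 0 < κ * (1 / (t.1 + t.2)) := by positivity
  nlinarith

theorem SS_self (x : ℂ × ℂ) (P : HF) : SS x P P = 0 := by
  have h : ∀ h : HF, th h (nn P P) x = 0 := by
    intro h
    simp only [th, nn_self, zero_mul, tsum_zero]
  simp only [SS, h, integral_zero, mul_zero]

theorem SS_symm (x : ℂ × ℂ) (P Q : HF) : SS x Q P = - SS x P Q := by
  have hneg : ∀ h : HF, th h (nn Q P) x = - th h (nn P Q) x := by
    intro h
    simp only [th]
    rw [← tsum_neg]
    refine tsum_congr fun m => ?_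
    rw [nn_symm P Q, neg_mul]
  have hswap : ∫ t in qd, th (t.1 • Q + t.2 • P) (nn P Q) x =
      ∫ t in qd, th (t.1 • P + t.2 • Q) (nn P Q) x := by
    have hmp : MeasurePreserving (Prod.swap : ℝ × ℝ → ℝ × ℝ) volume volume :=
      Measure.measurePreserving_swap
    have hemb : MeasurableEmbedding (Prod.swap : ℝ × ℝ → ℝ × ℝ) :=
      MeasurableEquiv.prodComm.measurableEmbedding
    have hpre : (Prod.swap : ℝ × ℝ → ℝ × ℝ) ⁻¹' qd = qd := by
      ext t
      simp only [qd, mem_preimage, mem_prod, Prod.fst_swap, Prod.snd_swap]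
      exact and_comm
    have := hmp.setIntegral_preimage_emb hemb
      (fun t : ℝ × ℝ => th (t.1 • P + t.2 • Q) (nn P Q) x) qd
    rw [hpre] at this
    rw [← this]
    refine setIntegral_congr_fun (measurableSet_Ioi.prod measurableSet_Ioi) fun t _ => ?_
    simp only [Prod.fst_swap, Prod.snd_swap]
    rw [add_comm]
  simp only [SS, hneg, integral_neg, hswap, mul_neg]

end NAB
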