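import Pool.Agent.MP_9ab903_nt.NAB.A4
import Pool.Agent.MP_9ab903_nt.NAB.A5b

/-! ## [NAB-A5] equivariance

`th_pb`: reindex `ℤ[ω]²` by `m ↦ M m` (an `Equiv` since `M.det` is a unit), `hv_pb`.
`SS_pb`: `nn_pb` and `pb_add`, `pb_smul`. `SS_smul`: substitution `(a, b) ↦ (c a, d b)`.
`SS_indep`: `S(h, M*h) = S(h,h') + S(h', M*h') + S(M*h', M*h)` and the last is `S(x + lattice; h', h) = -S(x; h, h')`. -/

set_option autoImplicit false

open scoped ComplexConjugate
open MeasureTheory Set Filter Topology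

namespace NAB

open CM27

theorem A5_em_inj {m n : Eis × Eis} (h : em m = em n) : m = n := by
  have h1 := congrArg Prod.fst h
  have h2 := congrArg Prod.snd h
  exact Prod.ext (emb_injective h1) (emb_injective h2)

theorem A5_em_add (m n : Eis × Eis) : em (m + n) = em m + em n := by
  simp [em]

/-- The action of `M` on `ℤ[ω]²`. -/
def A5_act (M : Mt) (m : Eis × Eis) : Eis × Eis :=
  (M 0 0 * m.1 + M 0 1 * m.2, M 1 0 * m.1 + M 1 1 * m.2)

theorem A5_em_act (M : Mt) (m : Eis × Eis) : em (A5_act M m) = mv M (em m) := (mv_em M m).symm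

/-- The bijection of `ℤ[ω]²` given by `M`. -/
noncomputable def A5_equiv (M : Mt) (hM : IsUnit M.det) : Eis × Eis ≃ Eis × Eis where
  toFun := A5_act M
  invFun := A5_act M⁻¹
  left_inv m := by
    apply A5_em_inj
    rw [A5_em_act, A5_em_act, mv_inv M hM]
  right_inv m := by
    apply A5_em_inj
    rw [A5_em_act, A5_em_act, mv_inv' M hM]

theorem th_pb (M : Mt) (hM : IsUnit M.det) (h : HF) (p : ℂ × ℂ → ℂ) (x : ℂ × ℂ) :
    th (pb M h) (fun v => p (mv M v)) x = th h p (mv M x) := by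
  unfold th
  rw [← (A5_equiv M hM).tsum_eq (fun m => p (mv M x + em m) *
    (Real.exp (-(Real.pi * hv h (mv M x + em m))) : ℝ))]
  refine tsum_congr fun m => ?_
  have e : mv M (x + em m) = mv M x + em (A5_equiv M hM m) := by
    rw [mv_add]
    congr 1
    exact (A5_em_act M m).symm
  show p (mv M (x + em m)) * _ = _
  rw [hv_pb, e]

theorem th_per (h : HF) (p : ℂ × ℂ → ℂ) (x : ℂ × ℂ) (m : Eis × Eis) :
    th h p (x + em m) = th h p x := by
  unfold th
  rw [← (Equiv.addLeft m).tsum_eq (fun n => p (x + em n) *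
    (Real.exp (-(Real.pi * hv h (x + em n))) : ℝ))]
  refine tsum_congr fun n => ?_
  have e : x + em ((Equiv.addLeft m) n) = x + em m + em n := by
    rw [Equiv.coe_addLeft, A5_em_add, add_assoc]
  rw [e]

theorem A5_th_mul (h : HF) (c : ℂ) (p : ℂ × ℂ → ℂ) (x : ℂ × ℂ) :
    th h (fun v => c * p v) x = c * th h p x := by
  unfold th
  rw [← tsum_mul_left]
  refine tsum_congr fun n => ?_
  ring

theorem SS_per (x : ℂ × ℂ) (m : Eis × Eis) (P Q : HF) : SS (x + em m) P Q = SS x P Q := by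
  unfold SS
  simp only [th_per]

theorem SS_pb (M : Mt) (hM : IsUnit M.det) (x : ℂ × ℂ) (P Q : HF) :
    SS x (pb M P) (pb M Q) = emb M.det * SS (mv M x) P Q := by
  unfold SS
  have e : ∀ t : ℝ × ℝ, th (t.1 • pb M P + t.2 • pb M Q) (nn (pb M P) (pb M Q)) x =
      emb M.det * th (t.1 • P + t.2 • Q) (nn P Q) (mv M x) := by
    intro t
    have e1 : nn (pb M P) (pb M Q) = fun v => emb M.det * nn P Q (mv M v) := by
      funext v
      exact nn_pb M P Q v
    rw [e1, A5_th_mul, ← pb_smul, ← pb_smul, ← pb_add, th_pb M hM]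
  simp only [e]
  rw [integral_const_mul]
  ring

theorem SS_smul (x : ℂ × ℂ) (P Q : HF) (c d : ℝ) (hc : 0 < c) (hd : 0 < d) :
    SS x (c • P) (d • Q) = SS x P Q := by
  have h1 := SS_lin x P Q c 0 0 d (by nlinarith [mul_pos hc hd])
  rw [zero_smul, zero_smul, add_zero, zero_add] at h1
  rw [h1]
  unfold SS
  congr 2
  have e : {p : ℝ × ℝ | 0 < d * p.1 - 0 * p.2 ∧ 0 < c * p.2 - 0 * p.1} = qd := by
    ext p
    simp only [Set.mem_ofPred_eq, qd, Set.mem_prod, Set.mem_Ioi, zero_mul, sub_zero]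
    constructor
    · rintro ⟨h1, h2⟩
      exact ⟨(mul_pos_iff_of_pos_left hd).1 h1, (mul_pos_iff_of_pos_left hc).1 h2⟩
    · rintro ⟨h1, h2⟩
      exact ⟨mul_pos hd h1, mul_pos hc h2⟩
  rw [e]

theorem SS_indep (x : ℂ × ℂ) (hx : x ∉ L2) (M : Mt) (hM : M.det = 1) (hMx : mv M x - x ∈ L2)
    (h h' : HF) (hh : PD h) (hh' : PD h') : SS x h (pb M h) = SS x h' (pb M h') := by
  have hu : IsUnit M.det := by rw [hM]; exact isUnit_one
  have e1 := SS_add x hx h h' (pb M h') hh hh' (PD_pb hu hh')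
  have e2 := SS_add x hx h (pb M h') (pb M h) hh (PD_pb hu hh') (PD_pb hu hh)
  have e3 : SS x (pb M h') (pb M h) = SS x h' h := by
    rw [SS_pb M hu, hM, map_one, one_mul]
    obtain ⟨m, hm⟩ := hMx
    have : mv M x = x + em m := by rw [hm]; ring
    rw [this, SS_per]
  have e4 := SS_symm x h h'
  rw [e3, e4] at e2
  rw [← e2, ← e1]
  ring

end NAB
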