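import Pool.Agent.MP_9ab903_nt.NAB.A3b
import Pool.Agent.MP_9ab903_nt.NAB.A5b

/-! ## [NAB-A6] the geodesic limit

`th_diag`: the double sum is a product (`tsum_mul_tsum_of_summable_norm`, `Summable` from `Tk_summable`).
`geo`: `SS_lin` with `h = (1,0,0)`, `k = (0,0,1)`, `(a,b,c,d) = (τ,1,1,τ)`:
`SS y (τ,0,1) (1,0,τ) = π² ∫_{p₁ < τ p₂, p₂ < τ p₁} -(1/2) Tk 1 p₁ y₁ Tk 1 p₂ y₂`, and `Tk 1 _ y₁`, `Tk 1 _ y₂` are integrable
on `(0,∞)` (`Tk_int`), so by dominated convergence (indicators of the cones increase to the indicator of the quadrant) the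
limit is `-(1/2) π² (∫ Tk 1 _ y₁) (∫ Tk 1 _ y₂)`. -/

set_option autoImplicit false

open scoped ComplexConjugate
open MeasureTheory Set Filter Topology

namespace NAB

open CM27

theorem th_diag (y : ℂ × ℂ) {p q : ℝ} (hp : 0 < p) (hq : 0 < q) (j k : ℕ) :
    th ((p, 0, q) : HF) (mo j k) y = Tk j p y.1 * Tk k q y.2 := by
  unfold th Tk
  rw [tsum_mul_tsum_of_summable_norm (Tk_summable j hp y.1).norm (Tk_summable k hq y.2).norm]
  apply tsum_congr
  intro m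
  have e1 : hv ((p, 0, q) : HF) (y + em m) = p * ‖y.1 + emb m.1‖ ^ 2 + q * ‖y.2 + emb m.2‖ ^ 2 := by
    unfold hv em
    simp
  have e2 : Real.exp (-(Real.pi * hv ((p, 0, q) : HF) (y + em m))) =
      Real.exp (-(Real.pi * p * ‖y.1 + emb m.1‖ ^ 2)) * Real.exp (-(Real.pi * q * ‖y.2 + emb m.2‖ ^ 2)) := by
    rw [e1, ← Real.exp_add]
    congr 1
    ring
  rw [e2]
  have e3 : mo j k (y + em m) = conj (y.1 + emb m.1) ^ j * conj (y.2 + emb m.2) ^ k := rfl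
  rw [e3]
  push_cast
  ring

/-- the cone `p₂ < τ p₁`, `p₁ < τ p₂` -/
def a6_S (τ : ℝ) : Set (ℝ × ℝ) := {p : ℝ × ℝ | 0 < τ * p.1 - 1 * p.2 ∧ 0 < τ * p.2 - 1 * p.1}

theorem a6_sub {τ : ℝ} (hτ : 1 < τ) : a6_S τ ⊆ qd := by
  rintro p ⟨h1, h2⟩
  have h3 : 0 < (τ ^ 2 - 1) * p.1 := by nlinarith
  have h4 : 0 < (τ ^ 2 - 1) * p.2 := by nlinarith
  have h5 : 0 < τ ^ 2 - 1 := by nlinarith
  exact ⟨(pos_iff_pos_of_mul_pos h3).1 h5, (pos_iff_pos_of_mul_pos h4).1 h5⟩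

theorem a6_meas (τ : ℝ) : MeasurableSet (a6_S τ) := by
  have m1 : Measurable fun p : ℝ × ℝ => τ * p.1 - 1 * p.2 := by fun_prop
  have m2 : Measurable fun p : ℝ × ℝ => τ * p.2 - 1 * p.1 := by fun_prop
  exact (measurableSet_lt measurable_const m1).inter (measurableSet_lt measurable_const m2)

theorem a6_qd_meas : MeasurableSet qd := measurableSet_Ioi.prod measurableSet_Ioi

/-- the limit integrand -/
noncomputable def a6_F (y : ℂ × ℂ) (p : ℝ × ℝ) : ℂ := -(1 / 2) * (Tk 1 p.1 y.1 * Tk 1 p.2 y.2)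

theorem a6_int (y : ℂ × ℂ) (h1 : y.1 ∉ Set.range emb) (h2 : y.2 ∉ Set.range emb) :
    IntegrableOn (a6_F y) qd := by
  have i1 := Tk_int 1 (Or.inl rfl) y.1 h1
  have i2 := Tk_int 1 (Or.inl rfl) y.2 h2
  have i3 := i1.mul_prod i2
  unfold IntegrableOn qd
  rw [Measure.volume_eq_prod, ← Measure.prod_restrict]
  exact i3.const_mul _

theorem a6_integral (y : ℂ × ℂ) : (Real.pi : ℂ) ^ 2 * ∫ p in qd, a6_F y p =
    -(1 / 2) * E1 y.1 * E1 y.2 := by
  have e1 : ∫ p in qd, a6_F y p = -(1 / 2) * ((∫ u in Ioi (0 : ℝ), Tk 1 u y.1) *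
      ∫ u in Ioi (0 : ℝ), Tk 1 u y.2) := by
    unfold a6_F qd
    rw [integral_const_mul, Measure.volume_eq_prod, setIntegral_prod_mul (fun u => Tk 1 u y.1)
      (fun u => Tk 1 u y.2)]
  rw [e1]
  unfold E1
  ring

theorem a6_SS (y : ℂ × ℂ) {τ : ℝ} (hτ : 1 < τ) : SS y ((τ, 0, 1) : HF) ((1, 0, τ) : HF) =
    (Real.pi : ℂ) ^ 2 * ∫ p in a6_S τ, a6_F y p := by
  have h := SS_lin y ((1, 0, 0) : HF) ((0, 0, 1) : HF) τ 1 1 τ (by nlinarith)
  have e1 : τ • ((1, 0, 0) : HF) + (1 : ℝ) • ((0, 0, 1) : HF) = ((τ, 0, 1) : HF) := by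
    ext <;> simp
  have e2 : (1 : ℝ) • ((1, 0, 0) : HF) + τ • ((0, 0, 1) : HF) = ((1, 0, τ) : HF) := by
    ext <;> simp
  rw [e1, e2] at h
  rw [h]
  congr 1
  apply setIntegral_congr_fun (a6_meas τ)
  intro p hp
  obtain ⟨h1, h2⟩ := a6_sub hτ hp
  have h1' : 0 < p.1 := h1
  have h2' : 0 < p.2 := h2
  simp only
  have e3 : p.1 • ((1, 0, 0) : HF) + p.2 • ((0, 0, 1) : HF) = ((p.1, 0, p.2) : HF) := by
    ext <;> simp
  have e4 : ∀ v, nn ((1, 0, 0) : HF) ((0, 0, 1) : HF) v = -(1 / 2) * mo 1 1 v := by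
    intro v
    simp [nn, mo]
  rw [e3, a5b_th_mul _ _ _ _ e4, th_diag y h1' h2']
  rfl

theorem geo (y : ℂ × ℂ) (h1 : y.1 ∉ Set.range emb) (h2 : y.2 ∉ Set.range emb) :
    Tendsto (fun τ : ℝ => SS y ((τ, 0, 1) : HF) ((1, 0, τ) : HF)) atTop
      (𝓝 (-(1 / 2) * E1 y.1 * E1 y.2)) := by
  rw [← a6_integral]
  have hlim : Tendsto (fun τ : ℝ => ∫ p in qd, (a6_S τ).indicator (a6_F y) p) atTop
      (𝓝 (∫ p in qd, a6_F y p)) := by
    apply tendsto_integral_filter_of_dominated_convergence (fun p => ‖a6_F y p‖)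
    · apply Eventually.of_forall
      intro τ
      exact (a6_int y h1 h2).aestronglyMeasurable.indicator (a6_meas τ)
    · apply Eventually.of_forall
      intro τ
      apply Eventually.of_forall
      intro p
      exact norm_indicator_le_norm_self _ _
    · exact (a6_int y h1 h2).norm
    · rw [ae_restrict_iff' a6_qd_meas]
      apply Eventually.of_forall
      intro p hp
      have h3 : 0 < p.1 := hp.1
      have h4 : 0 < p.2 := hp.2
      apply tendsto_const_nhds.congr'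
      filter_upwards [eventually_gt_atTop (p.2 / p.1), eventually_gt_atTop (p.1 / p.2)] with τ t1 t2
      rw [div_lt_iff₀ h3] at t1
      rw [div_lt_iff₀ h4] at t2
      rw [Set.indicator_of_mem]
      constructor <;> linarith
  apply (hlim.const_mul _).congr'
  filter_upwards [eventually_gt_atTop (1 : ℝ)] with τ hτ
  rw [a6_SS y hτ, setIntegral_indicator (a6_meas τ), Set.inter_eq_right.2 (a6_sub hτ)]

end NAB
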