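import Pool.Agent.MP_9ab903_nt.NAB.A3a

/-! ## [NAB-A7a] the horocycle: the theta function as an iterated sum

`P = |v₁|² + τ|v₂|²`, `Q = |v₁ + b v₂|² + τ|v₂|²`, `(1-θ) P + θ Q = |w|² + τ_θ |v₂|²`, `w = v₁ + θ b v₂`,
`τ_θ = τ + |b|² θ (1-θ)`, `nn P Q v = -1/2 b w̄² + |b|² (θ - 1/2) w̄ v̄₂ + 1/2 b̄ τ_θ v̄₂²`; sum over `v₁` first. -/

set_option autoImplicit false

open scoped ComplexConjugate
open MeasureTheory Set Filter Topology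

namespace NAB

open CM27

/-- `τ + |b|² θ (1 - θ)` -/
noncomputable def tth (b : ℂ) (τ θ : ℝ) : ℝ := τ + ‖b‖ ^ 2 * (θ * (1 - θ))

theorem hv_horo (b : ℂ) (τ θ : ℝ) (v : ℂ × ℂ) :
    hv ((1 - θ) • ((1, 0, τ) : HF) + θ • ((1, b, ‖b‖ ^ 2 + τ) : HF)) v =
      ‖v.1 + θ * b * v.2‖ ^ 2 + tth b τ θ * ‖v.2‖ ^ 2 := by
  rw [hv_comb]
  simp only [hv, tth, Complex.sq_norm, Complex.normSq_apply]
  simp only [Complex.add_re, Complex.add_im, Complex.mul_re, Complex.mul_im, Complex.conj_re,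
    Complex.conj_im, Complex.ofReal_re, Complex.ofReal_im, Complex.zero_re, Complex.zero_im]
  ring

theorem nn_horo (b : ℂ) (τ θ : ℝ) (v : ℂ × ℂ) :
    nn ((1, 0, τ) : HF) ((1, b, ‖b‖ ^ 2 + τ) : HF) v =
      -(1 / 2) * b * conj (v.1 + θ * b * v.2) ^ 2
      + (‖b‖ ^ 2 * (θ - 1 / 2) : ℝ) * (conj (v.1 + θ * b * v.2) * conj v.2)
      + 1 / 2 * conj b * (tth b τ θ : ℂ) * conj v.2 ^ 2 := by
  have h1 : ((‖b‖ : ℝ) : ℂ) ^ 2 = b * conj b := by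
    rw [Complex.mul_conj, Complex.normSq_eq_norm_sq]; push_cast; rfl
  simp only [nn, tth, map_add, map_mul, Complex.conj_ofReal, map_zero, Complex.ofReal_mul,
    Complex.ofReal_sub, Complex.ofReal_add, Complex.ofReal_pow, h1, Complex.ofReal_one,
    Complex.ofReal_div, Complex.ofReal_ofNat]
  ring

theorem a7a_PD (b : ℂ) {τ s θ : ℝ} (hτ : 0 < τ) (hs : 0 < s) (h0 : 0 ≤ θ)
    (h1 : θ ≤ 1) : PD (s • ((1 - θ) • ((1, 0, τ) : HF) + θ • ((1, b, ‖b‖ ^ 2 + τ) : HF))) := by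
  have e1 : (s • ((1 - θ) • ((1, 0, τ) : HF) + θ • ((1, b, ‖b‖ ^ 2 + τ) : HF))).1 = s := by
    show s • ((1 - θ) • (1 : ℝ) + θ • (1 : ℝ)) = s
    simp only [smul_eq_mul]; ring
  have e2 : (s • ((1 - θ) • ((1, 0, τ) : HF) + θ • ((1, b, ‖b‖ ^ 2 + τ) : HF))).2.1 =
      ((s * θ : ℝ) : ℂ) * b := by
    show s • ((1 - θ) • (0 : ℂ) + θ • b) = _
    rw [smul_zero, zero_add, smul_smul, Complex.real_smul]
  have e3 : (s • ((1 - θ) • ((1, 0, τ) : HF) + θ • ((1, b, ‖b‖ ^ 2 + τ) : HF))).2.2 =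
      s * (τ + θ * ‖b‖ ^ 2) := by
    show s • ((1 - θ) • τ + θ • (‖b‖ ^ 2 + τ)) = _
    simp only [smul_eq_mul]; ring
  refine ⟨by rw [e1]; exact hs, ?_⟩
  rw [e1, e2, e3, norm_mul, Complex.norm_real, Real.norm_of_nonneg (by positivity)]
  have h2 : 0 ≤ ‖b‖ ^ 2 := by positivity
  have h3 : θ ^ 2 ≤ θ := by nlinarith
  have h4 : θ ^ 2 * ‖b‖ ^ 2 < τ + θ * ‖b‖ ^ 2 := by nlinarith
  have h5 : 0 < s * s := by positivity
  nlinarith [mul_lt_mul_of_pos_left h4 h5]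

theorem a7a_swap (F : Eis × Eis → ℂ) (hF : Summable F) :
    ∑' m, F m = ∑' n, ∑' a, F ((Equiv.prodComm Eis Eis) (n, a)) := by
  have h1 : Summable (fun c : Eis × Eis => F ((Equiv.prodComm Eis Eis) c)) :=
    (Equiv.prodComm Eis Eis).summable_iff.mpr hF
  rw [← (Equiv.prodComm Eis Eis).tsum_eq F, Summable.tsum_prod h1]

theorem horo_th (y : ℂ × ℂ) (b : ℂ) {τ s θ : ℝ} (hτ : 0 < τ) (hs : 0 < s) (h0 : 0 ≤ θ)
    (h1 : θ ≤ 1) :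
    th (s • ((1 - θ) • ((1, 0, τ) : HF) + θ • ((1, b, ‖b‖ ^ 2 + τ) : HF)))
        (nn ((1, 0, τ) : HF) ((1, b, ‖b‖ ^ 2 + τ) : HF)) y =
      ∑' n : Eis, (-(1 / 2) * b * Tk 2 s (y.1 + θ * b * (y.2 + emb n))
        + (‖b‖ ^ 2 * (θ - 1 / 2) : ℝ) * conj (y.2 + emb n) * Tk 1 s (y.1 + θ * b * (y.2 + emb n))
        + 1 / 2 * conj b * (tth b τ θ : ℂ) * conj (y.2 + emb n) ^ 2
            * Tk 0 s (y.1 + θ * b * (y.2 + emb n)))
        * ((Real.exp (-(Real.pi * (s * tth b τ θ) * ‖y.2 + emb n‖ ^ 2)) : ℝ) : ℂ) := by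
  have hsum := nn_summable (a7a_PD b hτ hs h0 h1) ((1, 0, τ) : HF) ((1, b, ‖b‖ ^ 2 + τ) : HF) y
  rw [th, a7a_swap _ hsum]
  apply tsum_congr
  intro n
  obtain ⟨W, hW⟩ : ∃ W : ℂ, W = y.1 + θ * b * (y.2 + emb n) := ⟨_, rfl⟩
  have key : ∀ a : Eis, nn ((1, 0, τ) : HF) ((1, b, ‖b‖ ^ 2 + τ) : HF)
        (y + em ((Equiv.prodComm Eis Eis) (n, a))) *
      ((Real.exp (-(Real.pi * hv (s • ((1 - θ) • ((1, 0, τ) : HF) +
        θ • ((1, b, ‖b‖ ^ 2 + τ) : HF))) (y + em ((Equiv.prodComm Eis Eis) (n, a))))) : ℝ) : ℂ) =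
      ((-(1 / 2) * b) * (conj (W + emb a) ^ 2 *
          ((Real.exp (-(Real.pi * s * ‖W + emb a‖ ^ 2)) : ℝ) : ℂ))
        + ((‖b‖ ^ 2 * (θ - 1 / 2) : ℝ) * conj (y.2 + emb n)) * (conj (W + emb a) ^ 1 *
          ((Real.exp (-(Real.pi * s * ‖W + emb a‖ ^ 2)) : ℝ) : ℂ))
        + (1 / 2 * conj b * (tth b τ θ : ℂ) * conj (y.2 + emb n) ^ 2) * (conj (W + emb a) ^ 0 *
          ((Real.exp (-(Real.pi * s * ‖W + emb a‖ ^ 2)) : ℝ) : ℂ)))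
        * ((Real.exp (-(Real.pi * (s * tth b τ θ) * ‖y.2 + emb n‖ ^ 2)) : ℝ) : ℂ) := by
    intro a
    have e1 : (y + em ((Equiv.prodComm Eis Eis) (n, a))).1 = y.1 + emb a := rfl
    have e2 : (y + em ((Equiv.prodComm Eis Eis) (n, a))).2 = y.2 + emb n := rfl
    have e3 : y.1 + emb a + θ * b * (y.2 + emb n) = W + emb a := by rw [hW]; ring
    rw [nn_horo b τ θ, hv_smul, hv_horo, e1, e2, e3]
    have e4 : -(Real.pi * (s * (‖W + emb a‖ ^ 2 + tth b τ θ * ‖y.2 + emb n‖ ^ 2))) =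
        -(Real.pi * s * ‖W + emb a‖ ^ 2) + -(Real.pi * (s * tth b τ θ) * ‖y.2 + emb n‖ ^ 2) := by
      ring
    rw [e4, Real.exp_add]
    push_cast
    ring
  have hk : ∀ k, Summable fun a : Eis => conj (W + emb a) ^ k *
      ((Real.exp (-(Real.pi * s * ‖W + emb a‖ ^ 2)) : ℝ) : ℂ) := fun k => Tk_summable k hs W
  have hT : ∀ k, ∑' a : Eis, conj (W + emb a) ^ k *
      ((Real.exp (-(Real.pi * s * ‖W + emb a‖ ^ 2)) : ℝ) : ℂ) = Tk k s W := fun k => rfl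
  rw [tsum_congr key, tsum_mul_right, Summable.tsum_add, Summable.tsum_add, tsum_mul_left,
    tsum_mul_left, tsum_mul_left, hT, hT, hT, ← hW]
  · exact (hk 2).mul_left _
  · exact (hk 1).mul_left _
  · exact ((hk 2).mul_left _).add ((hk 1).mul_left _)
  · exact (hk 0).mul_left _

end NAB
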