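import Pool.Agent.MP_9ab903_nt.NAB.A7c
import Pool.Agent.MP_9ab903_nt.NAB.A4a
import Pool.Agent.MP_9ab903_nt.NAB.A5b

/-! ## [NAB-A7b] the horocycle limit

`SS_polar`: `SS y P Q = π² ∫_0^1 dθ ∫_0^∞ s ds th(..)`. Replace `th(..)` by the main term of `horo_main`; the error is
`≤ ∫ s C τ (1+1/s)^6 e^{-κ/s - κ s τ} ds → 0` as `τ → ∞` (e.g. `τ e^{-κ s τ/2} ≤ C'/s`, and dominated convergence). Main term:
`π² ∫_0^1 dθ ∫_0^∞ s ds conj b/2 · tth/(A0 s) · Tk 2 (s tth) y₂ = π² conj b/(2 A0) ∫_0^1 dθ ∫_0^∞ Tk 2 u y₂ du` (`u = s tth`,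
`Tk_int`) `= 1/2 conj b Q2 y₂`, independent of `τ`. Integrability of the main term on the product from `Tk_off`. -/

set_option autoImplicit false

open scoped ComplexConjugate
open MeasureTheory Set Filter Topology

namespace NAB

open CM27

attribute [local irreducible] Tk th nn tth

theorem A7b_poly {κ s : ℝ} (hκ : 0 < κ) (hs : 0 < s) :
    (1 + 1 / s) ^ 6 * Real.exp (-(κ * (1 / s))) ≤ (1 + 6 / κ) ^ 6 := by
  set x : ℝ := 1 / s with hx
  have hx0 : 0 < x := by positivity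
  have h1 : 1 + x ≤ (1 + 6 / κ) * Real.exp (κ * x / 6) := by
    have h2 : κ * x / 6 + 1 ≤ Real.exp (κ * x / 6) := Real.add_one_le_exp _
    have h3 : x = 6 / κ * (κ * x / 6) := by field_simp
    have h4 : 0 ≤ κ * x / 6 := by positivity
    have h5 : 6 / κ * (κ * x / 6) ≤ 6 / κ * Real.exp (κ * x / 6) := by
      apply mul_le_mul_of_nonneg_left _ (by positivity)
      linarith
    have h6 : 1 ≤ Real.exp (κ * x / 6) := by linarith
    calc 1 + x = 1 + 6 / κ * (κ * x / 6) := by rw [← h3]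
      _ ≤ Real.exp (κ * x / 6) + 6 / κ * Real.exp (κ * x / 6) := add_le_add h6 h5
      _ = _ := by ring
  have h2 : (1 + x) ^ 6 ≤ (1 + 6 / κ) ^ 6 * Real.exp (κ * x) := by
    calc (1 + x) ^ 6 ≤ ((1 + 6 / κ) * Real.exp (κ * x / 6)) ^ 6 :=
          pow_le_pow_left₀ (by positivity) h1 6
      _ = (1 + 6 / κ) ^ 6 * Real.exp (κ * x) := by
        rw [mul_pow, ← Real.exp_nat_mul]
        congr 2
        push_cast
        ring
  calc (1 + x) ^ 6 * Real.exp (-(κ * x)) ≤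
        (1 + 6 / κ) ^ 6 * Real.exp (κ * x) * Real.exp (-(κ * x)) := by gcongr
    _ = (1 + 6 / κ) ^ 6 := by
      rw [mul_assoc, ← Real.exp_add, add_neg_cancel, Real.exp_zero, mul_one]

theorem A7b_err {C κ τ s : ℝ} (hC : 0 < C) (hκ : 0 < κ) (hτ : 0 < τ) (hs : 0 < s) :
    s * (C * τ * (1 + 1 / s) ^ 6 * Real.exp (-(κ * (1 / s + s * τ)))) ≤
      C * (2 / κ) * (1 + 6 / κ) ^ 6 * Real.exp (-(κ / 2 * τ * s)) := by
  have h1 := A7b_poly hκ hs
  have h2 : s * τ * Real.exp (-(κ * (s * τ))) ≤ 2 / κ * Real.exp (-(κ / 2 * τ * s)) := by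
    have h3 : κ / 2 * (s * τ) + 1 ≤ Real.exp (κ / 2 * (s * τ)) := Real.add_one_le_exp _
    have h4 : s * τ ≤ 2 / κ * Real.exp (κ / 2 * (s * τ)) := by
      calc s * τ = 2 / κ * (κ / 2 * (s * τ)) := by field_simp
        _ ≤ 2 / κ * Real.exp (κ / 2 * (s * τ)) := by
          apply mul_le_mul_of_nonneg_left _ (by positivity)
          linarith
    calc s * τ * Real.exp (-(κ * (s * τ))) ≤
          2 / κ * Real.exp (κ / 2 * (s * τ)) * Real.exp (-(κ * (s * τ))) := by gcongr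
      _ = 2 / κ * Real.exp (-(κ / 2 * τ * s)) := by
        rw [mul_assoc, ← Real.exp_add]
        congr 2
        ring
  calc s * (C * τ * (1 + 1 / s) ^ 6 * Real.exp (-(κ * (1 / s + s * τ)))) =
        C * (s * τ * Real.exp (-(κ * (s * τ)))) *
          ((1 + 1 / s) ^ 6 * Real.exp (-(κ * (1 / s)))) := by
        rw [show -(κ * (1 / s + s * τ)) = -(κ * (s * τ)) + -(κ * (1 / s)) by ring, Real.exp_add]
        ring
    _ ≤ C * (2 / κ * Real.exp (-(κ / 2 * τ * s))) * (1 + 6 / κ) ^ 6 := by gcongr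
    _ = _ := by ring

theorem A7b_exp (K : ℝ) {c : ℝ} (hc : 0 < c) :
    IntegrableOn (fun p : ℝ × ℝ => K * Real.exp (-(c * p.1))) (Ioi 0 ×ˢ Ioo 0 1) ∧
      ∫ p in (Ioi (0 : ℝ)) ×ˢ (Ioo (0 : ℝ) 1), K * Real.exp (-(c * p.1)) = K / c := by
  have h1 : IntegrableOn (fun s : ℝ => K * Real.exp (-(c * s))) (Ioi 0) := by
    have := integrableOn_exp_mul_Ioi (a := -c) (by linarith) 0
    simp only [neg_mul] at this
    exact this.const_mul K
  have h2 : ∫ s in Ioi (0 : ℝ), K * Real.exp (-(c * s)) = K / c := by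
    have := integral_exp_mul_Ioi (a := -c) (by linarith) 0
    simp only [neg_mul, mul_zero, neg_zero, Real.exp_zero] at this
    rw [integral_const_mul, this]
    field_simp
  have h3 : IntegrableOn (fun _ : ℝ => (1 : ℝ)) (Ioo 0 1) := by
    have hv : (volume : Measure ℝ) (Ioo 0 1) ≠ ⊤ := by simp
    have hc : ‖(1 : ℝ)‖ₑ ≠ ⊤ := by simp
    exact integrableOn_const hv hc
  constructor
  · rw [IntegrableOn, Measure.volume_eq_prod, ← Measure.prod_restrict]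
    have := Integrable.mul_prod h1 h3
    simpa using this
  · rw [Measure.volume_eq_prod, ← Measure.prod_restrict]
    have := integral_prod_mul (μ := (volume : Measure ℝ).restrict (Ioi 0))
      (ν := (volume : Measure ℝ).restrict (Ioo 0 1)) (fun s : ℝ => K * Real.exp (-(c * s)))
      (fun _ : ℝ => (1 : ℝ))
    simp only [mul_one] at this
    rw [this, h2]
    simp

/-- the main term -/
theorem A7b_main (y : ℂ × ℂ) (hy : y.2 ∉ Set.range emb) (b : ℂ) {τ : ℝ} (hτ : 1 ≤ τ) :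
    IntegrableOn (fun p : ℝ × ℝ => conj b / 2 * ((tth b τ p.2 / A0 : ℝ) : ℂ) *
        Tk 2 (p.1 * tth b τ p.2) y.2) (Ioi 0 ×ˢ Ioo 0 1) ∧
      ∫ p in (Ioi (0 : ℝ)) ×ˢ (Ioo (0 : ℝ) 1), conj b / 2 * ((tth b τ p.2 / A0 : ℝ) : ℂ) *
        Tk 2 (p.1 * tth b τ p.2) y.2 = conj b / 2 / (A0 : ℂ) * ∫ u in Ioi (0 : ℝ), Tk 2 u y.2 := by
  have hA0 : 0 < A0 := by unfold A0; positivity
  have htth : ∀ θ ∈ Ioo (0 : ℝ) 1, τ ≤ tth b τ θ ∧ tth b τ θ ≤ τ + ‖b‖ ^ 2 := by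
    intro θ hθ
    obtain ⟨h0, h1⟩ := hθ
    unfold tth
    have h2 : 0 ≤ θ * (1 - θ) := mul_nonneg h0.le (by linarith)
    have h3 : θ * (1 - θ) ≤ 1 := by nlinarith
    constructor
    · have := mul_nonneg (sq_nonneg ‖b‖) h2
      linarith
    · have := mul_le_mul_of_nonneg_left h3 (sq_nonneg ‖b‖)
      linarith
  obtain ⟨C, κ, hC, hκ, hTk⟩ := Tk_off 2 (Or.inr rfl) y.2 hy
  have hint : IntegrableOn (fun p : ℝ × ℝ => conj b / 2 * ((tth b τ p.2 / A0 : ℝ) : ℂ) *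
        Tk 2 (p.1 * tth b τ p.2) y.2) (Ioi 0 ×ˢ Ioo 0 1) := by
    have hS : MeasurableSet ((Ioi (0 : ℝ)) ×ˢ (Ioo (0 : ℝ) 1)) :=
      measurableSet_Ioi.prod measurableSet_Ioo
    have hcont : ContinuousOn (fun p : ℝ × ℝ => conj b / 2 * ((tth b τ p.2 / A0 : ℝ) : ℂ) *
        Tk 2 (p.1 * tth b τ p.2) y.2) ((Ioi (0 : ℝ)) ×ˢ (Ioo (0 : ℝ) 1)) := by
      have hct : Continuous (fun p : ℝ × ℝ => tth b τ p.2) := by
        unfold tth
        fun_prop
      have h1 : Continuous (fun p : ℝ × ℝ => conj b / 2 * ((tth b τ p.2 / A0 : ℝ) : ℂ)) := by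
        apply Continuous.mul continuous_const
        exact Complex.continuous_ofReal.comp (hct.div_const _)
      refine h1.continuousOn.mul ?_
      have h2 : ContinuousOn (fun p : ℝ × ℝ => ((p.1 * tth b τ p.2, y.2) : ℝ × ℂ))
          ((Ioi (0 : ℝ)) ×ˢ (Ioo (0 : ℝ) 1)) := by
        apply Continuous.continuousOn
        exact (continuous_fst.mul hct).prodMk continuous_const
      have h3 : MapsTo (fun p : ℝ × ℝ => ((p.1 * tth b τ p.2, y.2) : ℝ × ℂ))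
          ((Ioi (0 : ℝ)) ×ˢ (Ioo (0 : ℝ) 1)) (Ioi 0 ×ˢ univ) := by
        intro p hp
        have hp1 : 0 < p.1 := hp.1
        have hp2 := (htth p.2 hp.2).1
        have hp3 : 0 < tth b τ p.2 := by linarith
        refine ⟨?_, mem_univ _⟩
        show 0 < p.1 * tth b τ p.2
        exact mul_pos hp1 hp3
      have h4 : ContinuousOn ((fun q : ℝ × ℂ => Tk 2 q.1 q.2) ∘
          (fun p : ℝ × ℝ => ((p.1 * tth b τ p.2, y.2) : ℝ × ℂ)))
          ((Ioi (0 : ℝ)) ×ˢ (Ioo (0 : ℝ) 1)) := ContinuousOn.comp (Tk_cont 2) h2 h3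
      exact h4
    refine Integrable.mono' (A7b_exp (‖b‖ / 2 * ((τ + ‖b‖ ^ 2) / A0) * C) (c := κ)
      hκ).1 (hcont.aestronglyMeasurable hS) ?_
    rw [ae_restrict_iff' hS]
    refine Eventually.of_forall fun p hp => ?_
    obtain ⟨h1, h2⟩ := htth p.2 hp.2
    have hp1 : 0 < p.1 := hp.1
    have hpos : 0 < tth b τ p.2 := by linarith
    have h3 := hTk (p.1 * tth b τ p.2) (mul_pos hp1 hpos)
    rw [norm_mul, norm_mul, norm_div, Complex.norm_conj, Complex.norm_real, Complex.norm_ofNat,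
      Real.norm_of_nonneg (by positivity)]
    have h4 : Real.exp (-(κ * (p.1 * tth b τ p.2 + 1 / (p.1 * tth b τ p.2)))) ≤
        Real.exp (-(κ * p.1)) := by
      apply Real.exp_le_exp.mpr
      have h5 : p.1 ≤ p.1 * tth b τ p.2 := by nlinarith
      have h6 : 0 < 1 / (p.1 * tth b τ p.2) := by positivity
      have h7 := mul_le_mul_of_nonneg_left (add_le_add h5 h6.le) hκ.le
      rw [add_zero] at h7
      linarith
    calc ‖b‖ / 2 * (tth b τ p.2 / A0) * ‖Tk 2 (p.1 * tth b τ p.2) y.2‖ ≤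
        ‖b‖ / 2 * ((τ + ‖b‖ ^ 2) / A0) * (C * Real.exp (-(κ * p.1))) := by
          gcongr
          exact h3.trans (by gcongr)
      _ = _ := by ring
  refine ⟨hint, ?_⟩
  have hint' := hint
  rw [IntegrableOn, Measure.volume_eq_prod, ← Measure.prod_restrict] at hint'
  rw [Measure.volume_eq_prod, ← Measure.prod_restrict, integral_prod_symm _ hint']
  have hinner : ∀ θ ∈ Ioo (0 : ℝ) 1, ∫ s in Ioi (0 : ℝ), conj b / 2 *
      ((tth b τ θ / A0 : ℝ) : ℂ) * Tk 2 (s * tth b τ θ) y.2 =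
      conj b / 2 / (A0 : ℂ) * ∫ u in Ioi (0 : ℝ), Tk 2 u y.2 := by
    intro θ hθ
    have h1 := (htth θ hθ).1
    have hpos : 0 < tth b τ θ := by linarith
    rw [integral_const_mul]
    have h2 := integral_comp_mul_right_Ioi (fun u => Tk 2 u y.2) 0 hpos
    simp only [zero_mul] at h2
    rw [h2, Complex.real_smul]
    have h3 : (tth b τ θ : ℂ) ≠ 0 := by exact_mod_cast hpos.ne'
    have h4 : (A0 : ℂ) ≠ 0 := by exact_mod_cast hA0.ne'
    push_cast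
    field_simp
  rw [setIntegral_congr_fun measurableSet_Ioo hinner]
  simp

theorem A7b_bound (y : ℂ × ℂ) (hy : y.2 ∉ Set.range emb) (b : ℂ) : ∃ K c : ℝ, 0 < c ∧
    ∀ τ : ℝ, 1 ≤ τ → ‖SS y ((1, 0, τ) : HF) ((1, b, ‖b‖ ^ 2 + τ) : HF) -
      1 / 2 * conj b * Q2 y.2‖ ≤ K / (c * τ) := by
  have hA0 : 0 < A0 := by unfold A0; positivity
  obtain ⟨C, κ, hC, hκ, hmain⟩ := horo_main y hy b
  refine ⟨Real.pi ^ 2 * (C * (2 / κ) * (1 + 6 / κ) ^ 6), κ / 2, by positivity, fun τ hτ => ?_⟩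
  have hτ0 : 0 < τ := by linarith
  set P : HF := (1, 0, τ) with hP
  set Q : HF := (1, b, ‖b‖ ^ 2 + τ) with hQ
  have hPP : PD P := by
    refine ⟨by simp [hP], ?_⟩
    simp [hP, hτ0]
  have hPQ : PD Q := by
    refine ⟨by simp [hQ], ?_⟩
    simp only [hQ]
    linarith
  have hS : MeasurableSet ((Ioi (0 : ℝ)) ×ˢ (Ioo (0 : ℝ) 1)) :=
    measurableSet_Ioi.prod measurableSet_Ioo
  set F : ℝ × ℝ → ℂ := fun p =>
    (p.1 : ℂ) * th (p.1 • ((1 - p.2) • P + p.2 • Q)) (nn P Q) y with hF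
  set M : ℝ × ℝ → ℂ := fun p => conj b / 2 * ((tth b τ p.2 / A0 : ℝ) : ℂ) *
        Tk 2 (p.1 * tth b τ p.2) y.2 with hM
  obtain ⟨hMint, hMval⟩ := A7b_main y hy b hτ
  have hFc : ContinuousOn F ((Ioi (0 : ℝ)) ×ˢ (Ioo (0 : ℝ) 1)) := by
    refine ContinuousOn.mul (Complex.continuous_ofReal.comp continuous_fst).continuousOn ?_
    have h2 : ContinuousOn (fun p : ℝ × ℝ => p.1 • ((1 - p.2) • P + p.2 • Q))
        ((Ioi (0 : ℝ)) ×ˢ (Ioo (0 : ℝ) 1)) := by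
      apply Continuous.continuousOn
      fun_prop
    have h3 : MapsTo (fun p : ℝ × ℝ => p.1 • ((1 - p.2) • P + p.2 • Q))
        ((Ioi (0 : ℝ)) ×ˢ (Ioo (0 : ℝ) 1)) {h | PD h} := by
      intro p hp
      have h4 : p.2 < 1 := hp.2.2
      exact (PD.comb hPP hPQ (by linarith : 0 < 1 - p.2) hp.2.1).smul hp.1
    have h4 : ContinuousOn ((fun h : HF => th h (nn P Q) y) ∘
        (fun p : ℝ × ℝ => p.1 • ((1 - p.2) • P + p.2 • Q)))
        ((Ioi (0 : ℝ)) ×ˢ (Ioo (0 : ℝ) 1)) := ContinuousOn.comp (th_nn_cont P Q y) h2 h3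
    exact h4
  have hFM : ∀ p ∈ (Ioi (0 : ℝ)) ×ˢ (Ioo (0 : ℝ) 1), ‖F p - M p‖ ≤
      C * (2 / κ) * (1 + 6 / κ) ^ 6 * Real.exp (-(κ / 2 * τ * p.1)) := by
    intro p hp
    have hp1 : 0 < p.1 := hp.1
    have h1 := hmain τ p.1 p.2 hτ hp1 hp.2.1.le hp.2.2.le
    have h2 : F p - M p = (p.1 : ℂ) * (th (p.1 • ((1 - p.2) • P + p.2 • Q)) (nn P Q) y
      - conj b / 2 * ((tth b τ p.2 / (A0 * p.1) : ℝ) : ℂ) * Tk 2 (p.1 * tth b τ p.2) y.2) := by
      simp only [hF, hM]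
      have h3 : (p.1 : ℂ) ≠ 0 := by exact_mod_cast hp1.ne'
      have h4 : (A0 : ℂ) ≠ 0 := by exact_mod_cast hA0.ne'
      push_cast
      field_simp
    rw [h2, norm_mul, Complex.norm_real, Real.norm_of_nonneg hp1.le]
    refine le_trans (mul_le_mul_of_nonneg_left h1 hp1.le) ?_
    exact A7b_err hC hκ hτ0 hp1
  obtain ⟨hEint, hEval⟩ := A7b_exp (C * (2 / κ) * (1 + 6 / κ) ^ 6) (c := κ / 2 * τ) (by positivity)
  have hFMint : IntegrableOn (fun p => F p - M p) ((Ioi (0 : ℝ)) ×ˢ (Ioo (0 : ℝ) 1)) := by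
    refine Integrable.mono' hEint ((hFc.aestronglyMeasurable hS).sub hMint.aestronglyMeasurable) ?_
    rw [ae_restrict_iff' hS]
    exact Eventually.of_forall hFM
  have hFint : IntegrableOn F ((Ioi (0 : ℝ)) ×ˢ (Ioo (0 : ℝ) 1)) := by
    have := hFMint.add hMint
    refine this.congr (Eventually.of_forall fun p => ?_)
    simp [hM]
  have h1 : SS y P Q - 1 / 2 * conj b * Q2 y.2 =
      (Real.pi : ℂ) ^ 2 * ∫ p in (Ioi (0 : ℝ)) ×ˢ (Ioo (0 : ℝ) 1), (F p - M p) := by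
    rw [integral_sub hFint hMint, SS_polar, hMval, Q2]
    ring
  rw [h1, norm_mul, norm_pow, Complex.norm_real, Real.norm_of_nonneg Real.pi_pos.le]
  have h2 : ‖∫ p in (Ioi (0 : ℝ)) ×ˢ (Ioo (0 : ℝ) 1), (F p - M p)‖ ≤
      C * (2 / κ) * (1 + 6 / κ) ^ 6 / (κ / 2 * τ) := by
    rw [← hEval]
    apply norm_integral_le_of_norm_le hEint
    rw [ae_restrict_iff' hS]
    exact Eventually.of_forall hFM
  calc Real.pi ^ 2 * ‖∫ p in (Ioi (0 : ℝ)) ×ˢ (Ioo (0 : ℝ) 1), (F p - M p)‖ ≤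
      Real.pi ^ 2 * (C * (2 / κ) * (1 + 6 / κ) ^ 6 / (κ / 2 * τ)) := by gcongr
    _ = _ := by ring

theorem horo (y : ℂ × ℂ) (hy : y.2 ∉ Set.range emb) (b : Eis) :
    Tendsto (fun τ : ℝ => SS y ((1, 0, τ) : HF) ((1, emb b, ‖emb b‖ ^ 2 + τ) : HF)) atTop
      (𝓝 (1 / 2 * conj (emb b) * Q2 y.2)) := by
  obtain ⟨K, c, hc, hb⟩ := A7b_bound y hy (emb b)
  rw [tendsto_iff_norm_sub_tendsto_zero]
  refine squeeze_zero' (Eventually.of_forall fun _ => norm_nonneg _)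
    ((eventually_ge_atTop 1).mono hb) ?_
  have : Tendsto (fun τ : ℝ => K / (c * τ)) atTop (𝓝 0) := by
    apply Tendsto.div_atTop tendsto_const_nhds
    exact Tendsto.const_mul_atTop hc tendsto_id
  exact this

end NAB
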