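import Pool.Agent.MP_9ab903_nt.NAB.A7a
import Pool.Agent.MP_9ab903_nt.NAB.A2c

/-! ## [NAB-A7c] the main term of the horocycle integrand

From `horo_th`: `‖Tk 2 s _‖, ‖Tk 1 s _‖ ≤ C e^{-κ/s}` (`Tk_small`), `‖Tk 0 s _ - 1/(A0 s)‖ ≤ C (1 + 1/s) e^{-κ/s}` (`T0_small`), all uniformly in
`z`; `∑_n ‖v₂‖^j e^{-π s tth ‖v₂‖²} = Ak j (s tth) y₂ ≤ C (1 + 1/s)^(j+1) e^{-κ s τ}` (`Ak_bound_off`, `tth ≥ τ ≥ 1`), `tth ≤ (1+‖b‖²) τ`.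
The main term is `∑_n conj b/2 tth conj v₂² /(A0 s) e^{..} = conj b/2 tth/(A0 s) Tk 2 (s tth) y₂`. -/

set_option autoImplicit false

open scoped ComplexConjugate
open MeasureTheory Set Filter Topology

namespace NAB

open CM27

theorem a7c_exp {κ κi li s τ t : ℝ} (hκ : κ ≤ κi) (hl : κ ≤ li) (h0 : 0 < κ) (hs : 0 < s)
    (hτ : 0 < τ) (ht : τ ≤ t) :
    Real.exp (-(κi / s)) * Real.exp (-(li * (s * t))) ≤ Real.exp (-(κ * (1 / s + s * τ))) := by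
  rw [← Real.exp_add, Real.exp_le_exp]
  have h1 : κ / s ≤ κi / s := div_le_div_of_nonneg_right hκ hs.le
  have h2 : κ * (s * τ) ≤ li * (s * t) := by
    have h3 : s * τ ≤ s * t := mul_le_mul_of_nonneg_left ht hs.le
    have h4 : 0 < s * τ := by positivity
    exact mul_le_mul hl h3 h4.le (h0.le.trans hl)
  have h5 : κ * (1 / s + s * τ) = κ / s + κ * (s * τ) := by ring
  linarith

theorem a7c_tth (b : ℂ) {τ θ : ℝ} (hτ : 1 ≤ τ) (h0 : 0 ≤ θ) (h1 : θ ≤ 1) :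
    τ ≤ tth b τ θ ∧ tth b τ θ ≤ (1 + ‖b‖ ^ 2) * τ := by
  have h2 : 0 ≤ ‖b‖ ^ 2 := by positivity
  have h3 : 0 ≤ θ * (1 - θ) := mul_nonneg h0 (by linarith)
  have h4 : θ * (1 - θ) ≤ 1 := by nlinarith
  rw [tth]
  constructor
  · nlinarith
  · nlinarith [mul_le_mul_of_nonneg_left h4 h2, mul_le_mul_of_nonneg_left hτ h2]

theorem a7c_T0 {C κ : ℝ} (h : ∀ s : ℝ, 0 < s → ∀ z : ℂ,
    ‖(s : ℂ) * Tk 0 s z - 1 / (A0 : ℂ)‖ ≤ C * (1 + s) * Real.exp (-(κ / s))) (s : ℝ) (hs : 0 < s)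
    (z : ℂ) : ‖Tk 0 s z - ((1 / (A0 * s) : ℝ) : ℂ)‖ ≤ C * (1 + 1 / s) * Real.exp (-(κ / s)) := by
  have h1 := h s hs z
  have hs0 : (s : ℂ) ≠ 0 := by exact_mod_cast hs.ne'
  have e : Tk 0 s z - ((1 / (A0 * s) : ℝ) : ℂ) = (1 / (s : ℂ)) * ((s : ℂ) * Tk 0 s z - 1 / (A0 : ℂ)) := by
    push_cast
    field_simp
  rw [e, norm_mul, norm_div, norm_one, Complex.norm_real, Real.norm_of_nonneg hs.le]
  have h2 : C * (1 + 1 / s) * Real.exp (-(κ / s)) = 1 / s * (C * (1 + s) * Real.exp (-(κ / s))) := by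
    field_simp
    ring
  rw [h2]
  exact mul_le_mul_of_nonneg_left h1 (by positivity)

/-- The error term after replacing `Tk 0 s _` by `1 / (A0 s)` and dropping `Tk 1`, `Tk 2`. -/
theorem horo_main (y : ℂ × ℂ) (hy : y.2 ∉ Set.range emb) (b : ℂ) :
    ∃ C κ : ℝ, 0 < C ∧ 0 < κ ∧ ∀ τ s θ : ℝ, 1 ≤ τ → 0 < s → 0 ≤ θ → θ ≤ 1 →
    ‖th (s • ((1 - θ) • ((1, 0, τ) : HF) + θ • ((1, b, ‖b‖ ^ 2 + τ) : HF)))
        (nn ((1, 0, τ) : HF) ((1, b, ‖b‖ ^ 2 + τ) : HF)) y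
      - conj b / 2 * ((tth b τ θ / (A0 * s) : ℝ) : ℂ) * Tk 2 (s * tth b τ θ) y.2‖
      ≤ C * τ * (1 + 1 / s) ^ 6 * Real.exp (-(κ * (1 / s + s * τ))) := by
  obtain ⟨C0, κ0, hC0, hκ0, hT0⟩ := T0_small
  obtain ⟨C1, κ1, hC1, hκ1, hT1⟩ := Tk_small 1 (Or.inl rfl)
  obtain ⟨C2, κ2, hC2, hκ2, hT2⟩ := Tk_small 2 (Or.inr rfl)
  obtain ⟨D0, l0, hD0, hl0, hA0⟩ := Ak_bound_off 0 y.2 hy
  obtain ⟨D1, l1, hD1, hl1, hA1⟩ := Ak_bound_off 1 y.2 hy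
  obtain ⟨D2, l2, hD2, hl2, hA2⟩ := Ak_bound_off 2 y.2 hy
  obtain ⟨κ, hκ, hk0, hk1, hk2, hm0, hm1, hm2⟩ : ∃ κ : ℝ, 0 < κ ∧ κ ≤ κ0 ∧ κ ≤ κ1 ∧ κ ≤ κ2 ∧
      κ ≤ l0 ∧ κ ≤ l1 ∧ κ ≤ l2 := by
    refine ⟨min (min κ0 (min κ1 κ2)) (min l0 (min l1 l2)), ?_, ?_, ?_, ?_, ?_, ?_, ?_⟩
    · exact lt_min (lt_min hκ0 (lt_min hκ1 hκ2)) (lt_min hl0 (lt_min hl1 hl2))
    · exact (min_le_left _ _).trans (min_le_left _ _)
    · exact (min_le_left _ _).trans ((min_le_right _ _).trans (min_le_left _ _))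
    · exact (min_le_left _ _).trans ((min_le_right _ _).trans (min_le_right _ _))
    · exact (min_le_right _ _).trans (min_le_left _ _)
    · exact (min_le_right _ _).trans ((min_le_right _ _).trans (min_le_left _ _))
    · exact (min_le_right _ _).trans ((min_le_right _ _).trans (min_le_right _ _))
  refine ⟨‖b‖ / 2 * C2 * D0 + ‖b‖ ^ 2 / 2 * C1 * D1 + ‖b‖ / 2 * (1 + ‖b‖ ^ 2) * C0 * D2 + 1, κ,
    by positivity, hκ, ?_⟩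
  intro τ s θ hτ hs h0 h1
  have hτ0 : 0 < τ := by linarith
  obtain ⟨ht1, ht2⟩ := a7c_tth b hτ h0 h1
  obtain ⟨t, ht⟩ : ∃ t : ℝ, t = tth b τ θ := ⟨_, rfl⟩
  rw [← ht] at ht1 ht2
  have ht0 : 0 < t := by linarith
  have hst : 0 < s * t := by positivity
  rw [horo_th y b hτ0 hs h0 h1, ← ht]
  obtain ⟨f, hf⟩ : ∃ f : Eis → ℂ, f = fun n : Eis => (-(1 / 2) * b * Tk 2 s (y.1 + θ * b * (y.2 + emb n))
        + (‖b‖ ^ 2 * (θ - 1 / 2) : ℝ) * conj (y.2 + emb n) * Tk 1 s (y.1 + θ * b * (y.2 + emb n))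
        + 1 / 2 * conj b * (t : ℂ) * conj (y.2 + emb n) ^ 2
            * Tk 0 s (y.1 + θ * b * (y.2 + emb n)))
        * ((Real.exp (-(Real.pi * (s * t) * ‖y.2 + emb n‖ ^ 2)) : ℝ) : ℂ) := ⟨_, rfl⟩
  obtain ⟨g, hg⟩ : ∃ g : Eis → ℂ, g = fun n : Eis => (conj b / 2 * ((t / (A0 * s) : ℝ) : ℂ)) *
      (conj (y.2 + emb n) ^ 2 * ((Real.exp (-(Real.pi * (s * t) * ‖y.2 + emb n‖ ^ 2)) : ℝ) : ℂ)) :=
    ⟨_, rfl⟩
  have hgs : Summable g := by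
    rw [hg]; exact (Tk_summable 2 hst y.2).mul_left _
  have hgt : ∑' n, g n = conj b / 2 * ((t / (A0 * s) : ℝ) : ℂ) * Tk 2 (s * t) y.2 := by
    rw [hg, tsum_mul_left]; rfl
  obtain ⟨e, he⟩ : ∃ e : ℕ → Eis → ℝ, e = fun k n => ‖y.2 + emb n‖ ^ k *
      Real.exp (-(Real.pi * (s * t) * ‖y.2 + emb n‖ ^ 2)) := ⟨_, rfl⟩
  have hes : ∀ k, HasSum (e k) (Ak k (s * t) y.2) := by
    intro k
    rw [he]
    exact (Ak_summable k hst y.2).hasSum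
  obtain ⟨K0, hK0⟩ : ∃ K0 : ℝ, K0 = ‖b‖ / 2 * (C2 * Real.exp (-(κ2 / s))) := ⟨_, rfl⟩
  obtain ⟨K1, hK1⟩ : ∃ K1 : ℝ, K1 = ‖b‖ ^ 2 / 2 * (C1 * Real.exp (-(κ1 / s))) := ⟨_, rfl⟩
  obtain ⟨K2, hK2⟩ : ∃ K2 : ℝ, K2 = ‖b‖ / 2 * t * (C0 * (1 + 1 / s) * Real.exp (-(κ0 / s))) :=
    ⟨_, rfl⟩
  have hbsum : HasSum (fun n => K0 * e 0 n + K1 * e 1 n + K2 * e 2 n)
      (K0 * Ak 0 (s * t) y.2 + K1 * Ak 1 (s * t) y.2 + K2 * Ak 2 (s * t) y.2) :=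
    (((hes 0).mul_left K0).add ((hes 1).mul_left K1)).add ((hes 2).mul_left K2)
  have hbd : ∀ n, ‖f n - g n‖ ≤ K0 * e 0 n + K1 * e 1 n + K2 * e 2 n := by
    intro n
    obtain ⟨W, hW⟩ : ∃ W : ℂ, W = y.1 + θ * b * (y.2 + emb n) := ⟨_, rfl⟩
    obtain ⟨v, hv⟩ : ∃ v : ℂ, v = y.2 + emb n := ⟨_, rfl⟩
    obtain ⟨E, hE⟩ : ∃ E : ℝ, E = Real.exp (-(Real.pi * (s * t) * ‖y.2 + emb n‖ ^ 2)) := ⟨_, rfl⟩
    have hE0 : 0 < E := by rw [hE]; exact Real.exp_pos _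
    have e1 : f n - g n = (-(1 / 2) * b * Tk 2 s W
        + (‖b‖ ^ 2 * (θ - 1 / 2) : ℝ) * conj v * Tk 1 s W
        + 1 / 2 * conj b * (t : ℂ) * conj v ^ 2 * (Tk 0 s W - ((1 / (A0 * s) : ℝ) : ℂ)))
        * (E : ℂ) := by
      rw [hf, hg, hW, hv, hE]
      push_cast
      ring
    have e2 : ∀ k, e k n = ‖v‖ ^ k * E := by
      intro k; rw [he, hv, hE]
    rw [e1, norm_mul, Complex.norm_real, Real.norm_of_nonneg hE0.le, e2, e2, e2]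
    have n1 : ‖-(1 / 2) * b * Tk 2 s W‖ ≤ K0 * ‖v‖ ^ 0 := by
      rw [norm_mul, norm_mul, pow_zero, mul_one, hK0]
      have : ‖(-(1 / 2) : ℂ)‖ = 1 / 2 := by
        rw [norm_neg]; simp
      rw [this]
      have := hT2 s hs W
      calc 1 / 2 * ‖b‖ * ‖Tk 2 s W‖ ≤ 1 / 2 * ‖b‖ * (C2 * Real.exp (-(κ2 / s))) :=
            mul_le_mul_of_nonneg_left this (by positivity)
        _ = _ := by ring
    have n2 : ‖((‖b‖ ^ 2 * (θ - 1 / 2) : ℝ) : ℂ) * conj v * Tk 1 s W‖ ≤ K1 * ‖v‖ ^ 1 := by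
      rw [norm_mul, norm_mul, Complex.norm_real, Complex.norm_conj, pow_one, hK1, norm_mul,
        Real.norm_of_nonneg (by positivity : (0:ℝ) ≤ ‖b‖ ^ 2), Real.norm_eq_abs]
      have ha : |θ - 1 / 2| ≤ 1 / 2 := by rw [abs_le]; constructor <;> linarith
      have := hT1 s hs W
      calc ‖b‖ ^ 2 * |θ - 1 / 2| * ‖v‖ * ‖Tk 1 s W‖
          ≤ ‖b‖ ^ 2 * (1 / 2) * ‖v‖ * (C1 * Real.exp (-(κ1 / s))) := by gcongr
        _ = _ := by ring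
    have n3 : ‖1 / 2 * conj b * (t : ℂ) * conj v ^ 2 * (Tk 0 s W - ((1 / (A0 * s) : ℝ) : ℂ))‖ ≤
        K2 * ‖v‖ ^ 2 := by
      rw [norm_mul, norm_mul, norm_mul, norm_mul, Complex.norm_conj, norm_pow, Complex.norm_conj,
        Complex.norm_real, Real.norm_of_nonneg ht0.le, hK2]
      have : ‖(1 / 2 : ℂ)‖ = 1 / 2 := by simp
      rw [this]
      have := a7c_T0 hT0 s hs W
      calc 1 / 2 * ‖b‖ * t * ‖v‖ ^ 2 * ‖Tk 0 s W - ((1 / (A0 * s) : ℝ) : ℂ)‖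
          ≤ 1 / 2 * ‖b‖ * t * ‖v‖ ^ 2 * (C0 * (1 + 1 / s) * Real.exp (-(κ0 / s))) :=
            mul_le_mul_of_nonneg_left this (by positivity)
        _ = _ := by ring
    have n4 : ‖(-(1 / 2) * b * Tk 2 s W
        + (‖b‖ ^ 2 * (θ - 1 / 2) : ℝ) * conj v * Tk 1 s W
        + 1 / 2 * conj b * (t : ℂ) * conj v ^ 2 * (Tk 0 s W - ((1 / (A0 * s) : ℝ) : ℂ)))‖ ≤
        K0 * ‖v‖ ^ 0 + K1 * ‖v‖ ^ 1 + K2 * ‖v‖ ^ 2 :=
      (norm_add_le _ _).trans (add_le_add ((norm_add_le _ _).trans (add_le_add n1 n2)) n3)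
    calc _ ≤ (K0 * ‖v‖ ^ 0 + K1 * ‖v‖ ^ 1 + K2 * ‖v‖ ^ 2) * E :=
          mul_le_mul_of_nonneg_right n4 hE0.le
      _ = _ := by ring
  have hds : Summable (fun n => f n - g n) := Summable.of_norm_bounded hbsum.summable hbd
  have hft : ∑' n, f n = ∑' n, (f n - g n) + ∑' n, g n := by
    rw [← Summable.tsum_add hds hgs]
    apply tsum_congr
    intro n
    ring
  have hfin : ∑' n, f n - conj b / 2 * ((t / (A0 * s) : ℝ) : ℂ) * Tk 2 (s * t) y.2 =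
      ∑' n, (f n - g n) := by
    rw [hft, hgt]; ring
  have hfe : ∑' n : Eis, (-(1 / 2) * b * Tk 2 s (y.1 + θ * b * (y.2 + emb n))
        + (‖b‖ ^ 2 * (θ - 1 / 2) : ℝ) * conj (y.2 + emb n) * Tk 1 s (y.1 + θ * b * (y.2 + emb n))
        + 1 / 2 * conj b * (t : ℂ) * conj (y.2 + emb n) ^ 2
            * Tk 0 s (y.1 + θ * b * (y.2 + emb n)))
        * ((Real.exp (-(Real.pi * (s * t) * ‖y.2 + emb n‖ ^ 2)) : ℝ) : ℂ) = ∑' n, f n := by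
    rw [hf]
  rw [hfe, hfin]
  refine (tsum_of_norm_bounded hbsum hbd).trans ?_
  obtain ⟨q, hq⟩ : ∃ q : ℝ, q = 1 + 1 / s := ⟨_, rfl⟩
  have hq1 : 1 ≤ q := by
    rw [hq]
    have : 0 < 1 / s := by positivity
    linarith
  have hqt : 1 + 1 / (s * t) ≤ q := by
    rw [hq]
    have : 1 / (s * t) ≤ 1 / s := by
      apply one_div_le_one_div_of_le hs
      nlinarith
    linarith
  have hqt0 : 0 ≤ 1 + 1 / (s * t) := by positivity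
  obtain ⟨X, hX⟩ : ∃ X : ℝ, X = Real.exp (-(κ * (1 / s + s * τ))) := ⟨_, rfl⟩
  have hX0 : 0 < X := by rw [hX]; exact Real.exp_pos _
  have p0 : K0 * Ak 0 (s * t) y.2 ≤ ‖b‖ / 2 * C2 * D0 * (τ * q ^ 6 * X) := by
    have a1 := hA0 (s * t) hst
    have a2 : (1 + 1 / (s * t)) ^ (0 + 1) ≤ q ^ 6 :=
      (pow_le_pow_left₀ hqt0 hqt _).trans (pow_le_pow_right₀ hq1 (by norm_num))
    have a3 := a7c_exp hk2 hm0 hκ hs hτ0 ht1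
    rw [← hX] at a3
    calc K0 * Ak 0 (s * t) y.2
        ≤ K0 * (D0 * (1 + 1 / (s * t)) ^ (0 + 1) * Real.exp (-(l0 * (s * t)))) :=
          mul_le_mul_of_nonneg_left a1 (by rw [hK0]; positivity)
      _ = ‖b‖ / 2 * C2 * D0 * ((1 + 1 / (s * t)) ^ (0 + 1) *
          (Real.exp (-(κ2 / s)) * Real.exp (-(l0 * (s * t))))) := by rw [hK0]; ring
      _ ≤ ‖b‖ / 2 * C2 * D0 * (q ^ 6 * X) := by gcongr
      _ ≤ ‖b‖ / 2 * C2 * D0 * (τ * q ^ 6 * X) := by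
          apply mul_le_mul_of_nonneg_left _ (by positivity)
          rw [mul_assoc]
          exact le_mul_of_one_le_left (by positivity) hτ
  have p1 : K1 * Ak 1 (s * t) y.2 ≤ ‖b‖ ^ 2 / 2 * C1 * D1 * (τ * q ^ 6 * X) := by
    have a1 := hA1 (s * t) hst
    have a2 : (1 + 1 / (s * t)) ^ (1 + 1) ≤ q ^ 6 :=
      (pow_le_pow_left₀ hqt0 hqt _).trans (pow_le_pow_right₀ hq1 (by norm_num))
    have a3 := a7c_exp hk1 hm1 hκ hs hτ0 ht1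
    rw [← hX] at a3
    calc K1 * Ak 1 (s * t) y.2
        ≤ K1 * (D1 * (1 + 1 / (s * t)) ^ (1 + 1) * Real.exp (-(l1 * (s * t)))) :=
          mul_le_mul_of_nonneg_left a1 (by rw [hK1]; positivity)
      _ = ‖b‖ ^ 2 / 2 * C1 * D1 * ((1 + 1 / (s * t)) ^ (1 + 1) *
          (Real.exp (-(κ1 / s)) * Real.exp (-(l1 * (s * t))))) := by rw [hK1]; ring
      _ ≤ ‖b‖ ^ 2 / 2 * C1 * D1 * (q ^ 6 * X) := by gcongr
      _ ≤ ‖b‖ ^ 2 / 2 * C1 * D1 * (τ * q ^ 6 * X) := by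
          apply mul_le_mul_of_nonneg_left _ (by positivity)
          rw [mul_assoc]
          exact le_mul_of_one_le_left (by positivity) hτ
  have p2 : K2 * Ak 2 (s * t) y.2 ≤
      ‖b‖ / 2 * (1 + ‖b‖ ^ 2) * C0 * D2 * (τ * q ^ 6 * X) := by
    have a1 := hA2 (s * t) hst
    have a2 : q * (1 + 1 / (s * t)) ^ (2 + 1) ≤ q ^ 6 := by
      calc q * (1 + 1 / (s * t)) ^ (2 + 1) ≤ q * q ^ (2 + 1) := by gcongr
        _ = q ^ 4 := by ring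
        _ ≤ q ^ 6 := pow_le_pow_right₀ hq1 (by norm_num)
    have a3 := a7c_exp hk0 hm2 hκ hs hτ0 ht1
    rw [← hX] at a3
    have hq0 : 0 ≤ q := by linarith
    calc K2 * Ak 2 (s * t) y.2
        ≤ K2 * (D2 * (1 + 1 / (s * t)) ^ (2 + 1) * Real.exp (-(l2 * (s * t)))) :=
          mul_le_mul_of_nonneg_left a1 (by rw [hK2]; positivity)
      _ = ‖b‖ / 2 * t * C0 * D2 * ((q * (1 + 1 / (s * t)) ^ (2 + 1)) *
          (Real.exp (-(κ0 / s)) * Real.exp (-(l2 * (s * t))))) := by rw [hK2, hq]; ring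
      _ ≤ ‖b‖ / 2 * ((1 + ‖b‖ ^ 2) * τ) * C0 * D2 * (q ^ 6 * X) := by gcongr
      _ = _ := by ring
  rw [← hq, ← hX]
  have hrest : 0 ≤ τ * q ^ 6 * X := by positivity
  calc K0 * Ak 0 (s * t) y.2 + K1 * Ak 1 (s * t) y.2 + K2 * Ak 2 (s * t) y.2
      ≤ ‖b‖ / 2 * C2 * D0 * (τ * q ^ 6 * X) + ‖b‖ ^ 2 / 2 * C1 * D1 * (τ * q ^ 6 * X) +
        ‖b‖ / 2 * (1 + ‖b‖ ^ 2) * C0 * D2 * (τ * q ^ 6 * X) :=
        add_le_add (add_le_add p0 p1) p2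
    _ ≤ (‖b‖ / 2 * C2 * D0 + ‖b‖ ^ 2 / 2 * C1 * D1 + ‖b‖ / 2 * (1 + ‖b‖ ^ 2) * C0 * D2 + 1) * τ *
        q ^ 6 * X := by nlinarith

end NAB
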