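import Pool.Agent.MP_9ab903_nt.NAB.A2c
import Pool.Agent.MP_ae0bd0_nt.CM.G2b

/-! ## [NAB-A8] `E1 (2 z) - 2 E1 z = lam z`

For `η > 0`: `π ∫_η^∞ Tk 1 u z du = ∑_a e^{-π η |z+a|²} / (z+a) =: F η z` (`z ∉ O`), `F η z → E1 z` as `η → 0+` (`Tk_int`).
`∑_{a ≠ 0} e^{-π η |a|²} / a = 0` (`a ↦ -a`). So `F η (2z) - 2 F η z = ∑_a [f(2z+a) - 2 f(z+a) + f(a)]`, `f(v) = e^{-π η|v|²}/v`,
`f(0) = 0`. As `η → 0` each term tends to `1/(2z+a) - 2/(z+a) + 1/a = 2z²/(a(z+a)(2z+a))` (`a = 0`: `-3/(2z)`), and the terms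
are `≤ C_z/|a|³` uniformly in `η ∈ (0,1]`, `|a| ≥ 4|z| + 1` (with `e_j = e^{-π η |a + j z|²}`:
`= e_1 2z²/(a(z+a)(2z+a)) + (e_2 - 2 e_1 + e_0)/(2z+a) + (e_0 - e_1) 2z/(a(2z+a))`, `|e_0 - e_1| ≤ C|z|/|a|`,
`|e_2 - 2e_1 + e_0| ≤ C |z|²/|a|²` since `(η|v|²)^j e^{-π η |v|²}` is bounded). Dominated convergence for series, `∑ |a|^{-3} < ∞`.
ALTERNATIVE: `Hs z s = π^s/Γ(s) ∫_0^∞ u^{s-1} Tk 1 u z du` for `Re s > 3/2` and the continuation by second differences already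
proved in `MP_ae0bd0_nt/CM/G*.lean` (identity theorem on `Re s > 1/2`, evaluate at `s = 1`). -/

set_option autoImplicit false

open scoped ComplexConjugate
open MeasureTheory Set Filter Topology

namespace NAB

open CM27

/-- `exp (-π η |v|²) / v` -/
noncomputable def A8_f (η : ℝ) (v : ℂ) : ℂ :=
  ((Real.exp (-(Real.pi * η * ‖v‖ ^ 2)) : ℝ) : ℂ) * v⁻¹

theorem A8_f_zero (η : ℝ) : A8_f η 0 = 0 := by simp [A8_f]

theorem A8_f_norm (η : ℝ) (v : ℂ) :
    ‖A8_f η v‖ = Real.exp (-(Real.pi * η * ‖v‖ ^ 2)) * ‖v‖⁻¹ := by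
  rw [A8_f, norm_mul, Complex.norm_real, Real.norm_eq_abs, abs_of_pos (Real.exp_pos _), norm_inv]

theorem A8_f_le (η : ℝ) (hη : 0 ≤ η) (v : ℂ) : ‖A8_f η v‖ ≤ ‖v‖⁻¹ := by
  rw [A8_f_norm]
  have h1 : Real.exp (-(Real.pi * η * ‖v‖ ^ 2)) ≤ 1 := by
    rw [Real.exp_le_one_iff]
    have := Real.pi_pos
    have : 0 ≤ Real.pi * η * ‖v‖ ^ 2 := by positivity
    linarith
  calc _ ≤ 1 * ‖v‖⁻¹ := mul_le_mul_of_nonneg_right h1 (by positivity)
    _ = _ := one_mul _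

theorem A8_exp1 (x : ℝ) : x * Real.exp (-x) ≤ 1 := by
  have h1 := Real.add_one_le_exp x
  have h2 : Real.exp x * Real.exp (-x) = 1 := by rw [← Real.exp_add]; simp
  have h3 := Real.exp_pos (-x)
  nlinarith

theorem A8_exp2 (x : ℝ) (hx : 0 ≤ x) : x ^ 2 * Real.exp (-x) ≤ 2 := by
  have h1 := Real.quadratic_le_exp_of_nonneg hx
  have h2 : Real.exp x * Real.exp (-x) = 1 := by rw [← Real.exp_add]; simp
  have h3 := Real.exp_pos (-x)
  nlinarith

/-- second differences -/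
theorem A8_sd (z u : ℂ) (η : ℝ) (hη : 0 ≤ η) (hu : 4 * ‖z‖ ≤ ‖u‖) (hu0 : 0 < ‖u‖) :
    ‖A8_f η (2 * z + u) - 2 * A8_f η (z + u) + A8_f η u‖ ≤ 128 * ‖z‖ ^ 2 / ‖u‖ ^ 3 := by
  set c : ℝ := Real.pi * η with hc
  have hc0 : 0 ≤ c := mul_nonneg Real.pi_pos.le hη
  have hz0 : 0 ≤ ‖z‖ := norm_nonneg z
  let v : ℝ → ℂ := fun t => u + (t : ℂ) * z
  let q : ℝ → ℝ := fun t => ‖u‖ ^ 2 + 2 * t * (u * conj z).re + t ^ 2 * ‖z‖ ^ 2
  let q1 : ℝ → ℝ := fun t => 2 * (u * conj z).re + 2 * t * ‖z‖ ^ 2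
  let E : ℝ → ℂ := fun t => ((Real.exp (-(c * q t)) : ℝ) : ℂ)
  let V : ℝ → ℂ := fun t => (v t)⁻¹
  have hqv : ∀ t : ℝ, q t = ‖v t‖ ^ 2 := by
    intro t
    simp only [q, v]
    rw [← Complex.normSq_eq_norm_sq, ← Complex.normSq_eq_norm_sq, ← Complex.normSq_eq_norm_sq,
      Complex.normSq_apply, Complex.normSq_apply, Complex.normSq_apply]
    simp only [Complex.add_re, Complex.mul_re, Complex.ofReal_re, Complex.ofReal_im, Complex.add_im,
      Complex.mul_im, Complex.conj_re, Complex.conj_im]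
    ring
  have hlow : ∀ t ∈ Set.Icc (0 : ℝ) 2, ‖u‖ / 2 ≤ ‖v t‖ := by
    intro t ht
    have h1 : ‖(t : ℂ) * z‖ ≤ ‖u‖ / 2 := by
      rw [norm_mul, Complex.norm_real, Real.norm_eq_abs, abs_of_nonneg ht.1]
      nlinarith [ht.2]
    have h2 : ‖u‖ ≤ ‖v t‖ + ‖(t : ℂ) * z‖ := by
      calc ‖u‖ = ‖v t - (t : ℂ) * z‖ := by simp [v]
        _ ≤ _ := norm_sub_le _ _
    linarith
  have hvpos : ∀ t ∈ Set.Icc (0 : ℝ) 2, 0 < ‖v t‖ := fun t ht => by linarith [hlow t ht]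
  have hvne : ∀ t ∈ Set.Icc (0 : ℝ) 2, v t ≠ 0 := fun t ht => norm_pos_iff.mp (hvpos t ht)
  have hid : ∀ t : ℝ, HasDerivAt (fun t : ℝ => (t : ℂ)) 1 t := fun t => Complex.ofRealCLM.hasDerivAt
  have hvd : ∀ t : ℝ, HasDerivAt v z t := by
    intro t
    have h1 := ((hid t).mul_const z).const_add u
    rw [one_mul] at h1
    exact h1
  have hVd : ∀ t ∈ Set.Icc (0 : ℝ) 2, HasDerivAt V (-z * V t ^ 2) t := by
    intro t ht
    have h1 := (hvd t).fun_inv (hvne t ht)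
    refine h1.congr_deriv ?_
    simp only [V]
    field_simp
  have hqd : ∀ t : ℝ, HasDerivAt q (q1 t) t := by
    intro t
    have h1 := ((((hasDerivAt_id t).const_mul 2).mul_const (u * conj z).re).const_add
      (‖u‖ ^ 2)).add ((hasDerivAt_pow 2 t).mul_const (‖z‖ ^ 2))
    refine h1.congr_deriv ?_
    simp only [q1]
    push_cast
    ring
  have hq1d : ∀ t : ℝ, HasDerivAt q1 (2 * ‖z‖ ^ 2) t := by
    intro t
    have h1 := (((hasDerivAt_id t).const_mul 2).mul_const (‖z‖ ^ 2)).const_add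
      (2 * (u * conj z).re)
    refine h1.congr_deriv ?_
    ring
  have hEd : ∀ t : ℝ, HasDerivAt E (-(c : ℂ) * (q1 t : ℂ) * E t) t := by
    intro t
    have h1 := ((((hqd t).const_mul c).neg).exp).ofReal_comp
    refine h1.congr_deriv ?_
    simp only [E, Pi.neg_apply]
    push_cast
    ring
  have hq1c : ∀ t : ℝ, HasDerivAt (fun t => (q1 t : ℂ)) (2 * (‖z‖ : ℂ) ^ 2) t := by
    intro t
    have h1 := (hq1d t).ofReal_comp
    refine h1.congr_deriv ?_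
    push_cast
    ring
  let f : ℝ → ℂ := fun t => E t * V t
  let f1 : ℝ → ℂ := fun t => -(c : ℂ) * (q1 t : ℂ) * E t * V t + E t * (-z * V t ^ 2)
  let f2 : ℝ → ℂ := fun t => -(c : ℂ) * (2 * (‖z‖ : ℂ) ^ 2) * E t * V t +
    (c : ℂ) ^ 2 * (q1 t : ℂ) ^ 2 * E t * V t + 2 * (c : ℂ) * (q1 t : ℂ) * z * E t * V t ^ 2 +
    2 * z ^ 2 * E t * V t ^ 3
  have hf1 : ∀ t ∈ Set.Icc (0 : ℝ) 2, HasDerivAt f (f1 t) t := by
    intro t ht
    exact (hEd t).mul (hVd t ht)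
  have hf2 : ∀ t ∈ Set.Icc (0 : ℝ) 2, HasDerivAt f1 (f2 t) t := by
    intro t ht
    have h1 := ((((hq1c t).const_mul (-(c : ℂ))).mul (hEd t)).mul (hVd t ht)).add
      ((hEd t).mul (((hVd t ht).pow 2).const_mul (-z)))
    refine h1.congr_deriv ?_
    simp only [f2, Pi.mul_apply, Pi.pow_apply]
    push_cast
    ring
  have hK : ∀ t ∈ Set.Icc (0 : ℝ) 2, ‖f2 t‖ ≤ 128 * ‖z‖ ^ 2 / ‖u‖ ^ 3 := by
    intro t ht
    set r : ℝ := ‖v t‖ with hr
    have hrpos : 0 < r := hvpos t ht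
    set x : ℝ := c * r ^ 2 with hx
    have hx0 : 0 ≤ x := by positivity
    have hE : ‖E t‖ = Real.exp (-x) := by
      simp only [E]
      rw [Complex.norm_real, Real.norm_eq_abs, abs_of_pos (Real.exp_pos _), hqv]
    have hV : ‖V t‖ = r⁻¹ := by simp only [V]; rw [norm_inv]
    have hq1v : q1 t = 2 * (v t * conj z).re := by
      simp only [q1, v]
      have : ‖z‖ ^ 2 = (z * conj z).re := by
        rw [Complex.mul_conj, Complex.ofReal_re, Complex.normSq_eq_norm_sq]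
      rw [this]
      simp only [add_mul, Complex.add_re, mul_assoc, Complex.re_ofReal_mul]
      ring
    have hq1b : ‖(q1 t : ℂ)‖ ≤ 2 * (r * ‖z‖) := by
      rw [Complex.norm_real, Real.norm_eq_abs, hq1v, abs_mul, abs_two]
      apply mul_le_mul_of_nonneg_left _ (by norm_num)
      refine (Complex.abs_re_le_norm _).trans ?_
      rw [norm_mul, RCLike.norm_conj]
    have hcn : ‖(c : ℂ)‖ = c := by rw [Complex.norm_real, Real.norm_eq_abs, abs_of_nonneg hc0]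
    have hzn : ‖((‖z‖ : ℝ) : ℂ)‖ = ‖z‖ := by
      rw [Complex.norm_real, Real.norm_eq_abs, abs_of_nonneg hz0]
    have hEp := Real.exp_pos (-x)
    have b1 : ‖-(c : ℂ) * (2 * (‖z‖ : ℂ) ^ 2) * E t * V t‖ ≤
        2 * (x * Real.exp (-x)) * (‖z‖ ^ 2 / r ^ 3) := by
      rw [norm_mul, norm_mul, norm_mul, norm_neg, norm_mul, norm_pow, hcn, hzn, hE, hV]
      simp only [Complex.norm_ofNat]
      apply le_of_eq
      rw [hx]
      field_simp
    have b2 : ‖(c : ℂ) ^ 2 * (q1 t : ℂ) ^ 2 * E t * V t‖ ≤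
        4 * (x ^ 2 * Real.exp (-x)) * (‖z‖ ^ 2 / r ^ 3) := by
      rw [norm_mul, norm_mul, norm_mul, norm_pow, norm_pow, hcn, hE, hV]
      calc c ^ 2 * ‖(q1 t : ℂ)‖ ^ 2 * Real.exp (-x) * r⁻¹
          ≤ c ^ 2 * (2 * (r * ‖z‖)) ^ 2 * Real.exp (-x) * r⁻¹ := by gcongr
        _ = _ := by rw [hx]; field_simp; ring
    have b3 : ‖2 * (c : ℂ) * (q1 t : ℂ) * z * E t * V t ^ 2‖ ≤
        4 * (x * Real.exp (-x)) * (‖z‖ ^ 2 / r ^ 3) := by
      rw [norm_mul, norm_mul, norm_mul, norm_mul, norm_mul, norm_pow, hcn, hE, hV]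
      simp only [Complex.norm_ofNat]
      calc 2 * c * ‖(q1 t : ℂ)‖ * ‖z‖ * Real.exp (-x) * r⁻¹ ^ 2
          ≤ 2 * c * (2 * (r * ‖z‖)) * ‖z‖ * Real.exp (-x) * r⁻¹ ^ 2 := by gcongr
        _ = _ := by rw [hx]; field_simp; ring
    have b4 : ‖2 * z ^ 2 * E t * V t ^ 3‖ ≤ 2 * Real.exp (-x) * (‖z‖ ^ 2 / r ^ 3) := by
      rw [norm_mul, norm_mul, norm_mul, norm_pow, norm_pow, hE, hV]
      simp only [Complex.norm_ofNat]
      apply le_of_eq
      field_simp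
    have h1 := A8_exp1 x
    have h2 := A8_exp2 x hx0
    have h3 : Real.exp (-x) ≤ 1 := by rw [Real.exp_le_one_iff]; linarith
    have hzr : 0 ≤ ‖z‖ ^ 2 / r ^ 3 := by positivity
    have hsum : ‖f2 t‖ ≤ 16 * (‖z‖ ^ 2 / r ^ 3) := by
      calc ‖f2 t‖ ≤ 2 * (x * Real.exp (-x)) * (‖z‖ ^ 2 / r ^ 3) +
            4 * (x ^ 2 * Real.exp (-x)) * (‖z‖ ^ 2 / r ^ 3) +
            4 * (x * Real.exp (-x)) * (‖z‖ ^ 2 / r ^ 3) +
            2 * Real.exp (-x) * (‖z‖ ^ 2 / r ^ 3) := by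
            refine (norm_add_le _ _).trans (add_le_add ?_ b4)
            refine (norm_add_le _ _).trans (add_le_add ?_ b3)
            exact (norm_add_le _ _).trans (add_le_add b1 b2)
        _ = (2 * (x * Real.exp (-x)) + 4 * (x ^ 2 * Real.exp (-x)) + 4 * (x * Real.exp (-x)) +
            2 * Real.exp (-x)) * (‖z‖ ^ 2 / r ^ 3) := by ring
        _ ≤ 16 * (‖z‖ ^ 2 / r ^ 3) := by
            apply mul_le_mul_of_nonneg_right _ hzr
            linarith
    refine hsum.trans ?_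
    have h4 : (‖u‖ / 2) ^ 3 ≤ r ^ 3 := pow_le_pow_left₀ (by positivity) (hlow t ht) 3
    calc 16 * (‖z‖ ^ 2 / r ^ 3) ≤ 16 * (‖z‖ ^ 2 / (‖u‖ / 2) ^ 3) := by gcongr
      _ = _ := by field_simp; ring
  have key := g2a_mvt hf1 hf2 hK
  have hf : ∀ t : ℝ, f t = A8_f η (u + (t : ℂ) * z) := by
    intro t
    simp only [f, E, V, A8_f]
    rw [hqv, hc]
  rw [hf, hf, hf] at key
  push_cast at key
  rw [zero_mul, add_zero, one_mul] at key
  rw [add_comm (2 * z) u, add_comm z u]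
  exact key

theorem A8_countable : Countable Eis := by
  refine Function.Injective.countable (f := fun a : Eis => ((a.re, a.im) : ℤ × ℤ)) ?_
  intro a b h
  simp only [Prod.mk.injEq] at h
  ext
  · exact h.1
  · exact h.2

theorem A8_eq (v : ℂ) : (fun u : ℝ => conj v ^ 1 *
    ((Real.exp (-(Real.pi * u * ‖v‖ ^ 2)) : ℝ) : ℂ)) =
    fun u : ℝ => conj v * ((Real.exp ((-(Real.pi * ‖v‖ ^ 2)) * u) : ℝ) : ℂ) := by
  funext u
  rw [pow_one]
  congr 3
  ring

theorem A8_term_int (η : ℝ) (v : ℂ) : IntegrableOn (fun u : ℝ => conj v ^ 1 *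
    ((Real.exp (-(Real.pi * u * ‖v‖ ^ 2)) : ℝ) : ℂ)) (Ioi η) := by
  rw [A8_eq v]
  rcases eq_or_ne v 0 with rfl | hv
  · simp
  · have h0 : 0 < ‖v‖ := norm_pos_iff.mpr hv
    have h1 : -(Real.pi * ‖v‖ ^ 2) < 0 := by
      have := Real.pi_pos
      have : 0 < Real.pi * ‖v‖ ^ 2 := by positivity
      linarith
    exact ((integrableOn_exp_mul_Ioi h1 η).ofReal).const_mul _

theorem A8_real (η : ℝ) (v : ℂ) (hv : v ≠ 0) :
    ∫ u in Ioi η, Real.exp ((-(Real.pi * ‖v‖ ^ 2)) * u) =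
      Real.exp (-(Real.pi * η * ‖v‖ ^ 2)) / (Real.pi * ‖v‖ ^ 2) := by
  have h0 : 0 < ‖v‖ := norm_pos_iff.mpr hv
  have hpi := Real.pi_pos
  have h1 : -(Real.pi * ‖v‖ ^ 2) < 0 := by
    have : 0 < Real.pi * ‖v‖ ^ 2 := by positivity
    linarith
  rw [integral_exp_mul_Ioi h1 η, neg_div_neg_eq]
  congr 2
  ring

theorem A8_term_val (η : ℝ) (v : ℂ) : (Real.pi : ℂ) * ∫ u in Ioi η, conj v ^ 1 *
    ((Real.exp (-(Real.pi * u * ‖v‖ ^ 2)) : ℝ) : ℂ) = A8_f η v := by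
  rw [A8_eq v]
  rcases eq_or_ne v 0 with rfl | hv
  · simp [A8_f]
  · rw [integral_const_mul, integral_complex_ofReal, A8_real η v hv, A8_f]
    have hpi : (Real.pi : ℂ) ≠ 0 := by exact_mod_cast Real.pi_ne_zero
    have hcv : conj v * v = ((‖v‖ ^ 2 : ℝ) : ℂ) := by
      rw [mul_comm, Complex.mul_conj, Complex.normSq_eq_norm_sq]
    have hn : ((‖v‖ ^ 2 : ℝ) : ℂ) ≠ 0 := by
      rw [← hcv]
      exact mul_ne_zero (by simpa using hv) hv
    rw [Complex.ofReal_div, Complex.ofReal_mul Real.pi (‖v‖ ^ 2), ← hcv]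
    rw [← hcv] at hn
    have hv' : conj v ≠ 0 := by simpa using hv
    field_simp

theorem A8_term_norm (η : ℝ) (v : ℂ) : ∫ u in Ioi η, ‖conj v ^ 1 *
    ((Real.exp (-(Real.pi * u * ‖v‖ ^ 2)) : ℝ) : ℂ)‖ = Real.pi⁻¹ * ‖A8_f η v‖ := by
  have he : (fun u : ℝ => ‖conj v ^ 1 * ((Real.exp (-(Real.pi * u * ‖v‖ ^ 2)) : ℝ) : ℂ)‖) =
      fun u : ℝ => ‖v‖ * Real.exp ((-(Real.pi * ‖v‖ ^ 2)) * u) := by
    funext u
    rw [congrFun (A8_eq v) u, norm_mul, RCLike.norm_conj, Complex.norm_real, Real.norm_eq_abs,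
      abs_of_pos (Real.exp_pos _)]
  rw [he]
  rcases eq_or_ne v 0 with rfl | hv
  · simp [A8_f]
  · have h0 : 0 < ‖v‖ := norm_pos_iff.mpr hv
    have hpi := Real.pi_pos
    rw [integral_const_mul, A8_real η v hv, A8_f_norm]
    field_simp

theorem A8_summable (η : ℝ) (hη : 0 < η) (z : ℂ) :
    Summable fun a : Eis => ‖A8_f η (z + emb a)‖ := by
  have h1 := Ak_summable 0 hη z
  refine Summable.of_norm_bounded_eventually h1 ?_
  filter_upwards [g2b_eventually_large (‖z‖ + 1)] with a ha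
  rw [norm_norm, A8_f_norm, pow_zero, one_mul]
  have h2 : 1 ≤ ‖z + emb a‖ := by
    have h3 : ‖emb a‖ ≤ ‖z + emb a‖ + ‖z‖ := by
      calc ‖emb a‖ = ‖(z + emb a) - z‖ := by congr 1; ring
        _ ≤ _ := norm_sub_le _ _
    linarith
  have h3 : ‖z + emb a‖⁻¹ ≤ 1 := inv_le_one_of_one_le₀ h2
  calc _ ≤ Real.exp (-(Real.pi * η * ‖z + emb a‖ ^ 2)) * 1 :=
        mul_le_mul_of_nonneg_left h3 (Real.exp_pos _).le
    _ = _ := mul_one _

theorem A8_integral (η : ℝ) (hη : 0 < η) (z : ℂ) :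
    (Real.pi : ℂ) * ∫ u in Ioi η, Tk 1 u z = ∑' a : Eis, A8_f η (z + emb a) := by
  have := A8_countable
  have h1 := hasSum_integral_of_summable_integral_norm (μ := volume.restrict (Ioi η))
    (F := fun (a : Eis) (u : ℝ) => conj (z + emb a) ^ 1 *
      ((Real.exp (-(Real.pi * u * ‖z + emb a‖ ^ 2)) : ℝ) : ℂ))
    (fun a => A8_term_int η (z + emb a)) (by
      simp only [A8_term_norm]
      exact (A8_summable η hη z).mul_left _)
  have h2 := h1.mul_left (Real.pi : ℂ)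
  simp only [A8_term_val] at h2
  exact h2.tsum_eq.symm

theorem A8_zero (η : ℝ) : ∑' a : Eis, A8_f η (emb a) = 0 := by
  have h1 : ∑' a : Eis, A8_f η (emb a) = ∑' a : Eis, A8_f η (emb (-a)) :=
    ((Equiv.neg Eis).tsum_eq (fun a => A8_f η (emb a))).symm
  have h2 : ∀ a : Eis, A8_f η (emb (-a)) = -A8_f η (emb a) := by
    intro a
    rw [map_neg, A8_f, A8_f, norm_neg, inv_neg, mul_neg]
  simp only [h2, tsum_neg] at h1
  have h3 : (2 : ℂ) * ∑' a : Eis, A8_f η (emb a) = 0 := by linear_combination h1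
  simpa using h3

theorem A8_lim (z : ℂ) (hz : z ∉ Set.range emb) :
    Tendsto (fun n : ℕ => ∑' a : Eis, A8_f (1 / ((n : ℝ) + 1)) (z + emb a)) atTop (𝓝 (E1 z)) := by
  have hU : (⋃ n : ℕ, Ioi (1 / ((n : ℝ) + 1))) = Ioi (0 : ℝ) := by
    ext x
    simp only [mem_iUnion, mem_Ioi]
    constructor
    · rintro ⟨n, hn⟩
      exact lt_trans (by positivity) hn
    · intro hx
      exact exists_nat_one_div_lt hx
  have h1 := tendsto_setIntegral_of_monotone (μ := volume)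
    (s := fun n : ℕ => Ioi (1 / ((n : ℝ) + 1))) (f := fun u : ℝ => Tk 1 u z)
    (fun n => measurableSet_Ioi) (by
      intro m n hmn
      apply Ioi_subset_Ioi
      apply one_div_le_one_div_of_le (by positivity)
      have : (m : ℝ) ≤ n := by exact_mod_cast hmn
      linarith) (by rw [hU]; exact Tk_int 1 (Or.inl rfl) z hz)
  rw [hU] at h1
  have h2 := h1.const_mul (Real.pi : ℂ)
  refine h2.congr (fun n => ?_)
  exact A8_integral _ (by positivity) z

/-- the regularised series -/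
theorem A8_lam (z : ℂ) (hz : Off z) :
    ∑' a : Eis, ((2 * z + emb a)⁻¹ - 2 * (z + emb a)⁻¹ + (emb a)⁻¹) = lam z := by
  classical
  have hz0 : z ≠ 0 := by
    rintro rfl
    exact hz ⟨0, by simp⟩
  have hne1 : ∀ a : Eis, 2 * z + emb a ≠ 0 := by
    intro a h
    exact hz ⟨-a, by rw [map_neg]; linear_combination -h⟩
  have hne2 : ∀ a : Eis, z + emb a ≠ 0 := by
    intro a h
    refine hz ⟨-(2 * a), ?_⟩
    rw [map_neg, map_mul, map_ofNat]
    linear_combination -2 * h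
  have key : ∀ a : Eis, (2 * z + emb a)⁻¹ - 2 * (z + emb a)⁻¹ + (emb a)⁻¹ =
      (if a = 0 then -3 / (2 * z) else 0) +
      2 * z ^ 2 / (emb a * (z + emb a) * (2 * z + emb a)) := by
    intro a
    by_cases ha : a = 0
    · subst ha
      simp only [map_zero, add_zero, inv_zero, if_true, zero_mul, div_zero]
      field_simp
      norm_num
    · have hea : emb a ≠ 0 := fun h => ha (emb_injective (by rw [h, map_zero]))
      rw [if_neg ha, zero_add]
      have h1 := hne1 a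
      have h2 := hne2 a
      field_simp
      ring
  have hsum : Summable fun a : Eis => ((2 * z + emb a)⁻¹ - 2 * (z + emb a)⁻¹ + (emb a)⁻¹) := by
    have := g2b_summable_T z 1 (by norm_num)
    refine this.congr (fun a => ?_)
    unfold g2b_T
    rw [gs_one, gs_one, gs_one]
  have hf : Summable fun a : Eis => (if a = 0 then -3 / (2 * z) else 0 : ℂ) :=
    summable_of_hasFiniteSupport ((Set.finite_singleton (0 : Eis)).subset (by
      intro a ha
      by_contra h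
      simp only [Set.mem_singleton_iff] at h
      simp [h] at ha))
  have hg : Summable fun a : Eis => 2 * z ^ 2 / (emb a * (z + emb a) * (2 * z + emb a)) := by
    have := hsum.sub hf
    refine this.congr (fun a => ?_)
    rw [key a]
    ring
  rw [show (fun a : Eis => ((2 * z + emb a)⁻¹ - 2 * (z + emb a)⁻¹ + (emb a)⁻¹)) =
      fun a => (if a = 0 then -3 / (2 * z) else 0) +
      2 * z ^ 2 / (emb a * (z + emb a) * (2 * z + emb a)) from funext key, hf.tsum_add hg,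
      tsum_ite_eq]
  rfl

theorem A8_f_tendsto (v : ℂ) :
    Tendsto (fun n : ℕ => A8_f (1 / ((n : ℝ) + 1)) v) atTop (𝓝 v⁻¹) := by
  have h1 : Tendsto (fun n : ℕ => Real.exp (-(Real.pi * (1 / ((n : ℝ) + 1)) * ‖v‖ ^ 2))) atTop
      (𝓝 1) := by
    have h2 : Tendsto (fun n : ℕ => -(Real.pi * (1 / ((n : ℝ) + 1)) * ‖v‖ ^ 2)) atTop
        (𝓝 (-(Real.pi * 0 * ‖v‖ ^ 2))) :=
      ((tendsto_one_div_add_atTop_nhds_zero_nat.const_mul Real.pi).mul_const _).neg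
    have h3 := (Real.continuous_exp.tendsto _).comp h2
    rw [mul_zero, zero_mul, neg_zero, Real.exp_zero] at h3
    exact h3
  have h4 := ((Complex.continuous_ofReal.tendsto 1).comp h1).mul_const v⁻¹
  simpa [A8_f] using h4

theorem E1_two (z : ℂ) (hz : Off z) : E1 (2 * z) - 2 * E1 z = lam z := by
  classical
  have hz1 : z ∉ Set.range emb := by
    rintro ⟨a, ha⟩
    exact hz ⟨2 * a, by rw [map_mul, map_ofNat, ha]⟩
  have L1 := A8_lim (2 * z) hz
  have L2 := (A8_lim z hz1).const_mul 2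
  have L3 := L1.sub L2
  -- the combined series
  have hcomb : ∀ n : ℕ, (∑' a : Eis, A8_f (1 / ((n : ℝ) + 1)) (2 * z + emb a)) -
      2 * (∑' a : Eis, A8_f (1 / ((n : ℝ) + 1)) (z + emb a)) =
      ∑' a : Eis, (A8_f (1 / ((n : ℝ) + 1)) (2 * z + emb a) -
        2 * A8_f (1 / ((n : ℝ) + 1)) (z + emb a) + A8_f (1 / ((n : ℝ) + 1)) (emb a)) := by
    intro n
    have hη : 0 < 1 / ((n : ℝ) + 1) := by positivity
    have e1 := (A8_summable _ hη (2 * z)).of_norm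
    have e2 := (A8_summable _ hη z).of_norm
    have e3 : Summable fun a : Eis => A8_f (1 / ((n : ℝ) + 1)) (emb a) := by
      have := (A8_summable _ hη 0).of_norm
      simpa using this
    rw [(e1.sub (e2.mul_left 2)).tsum_add e3, e1.tsum_sub (e2.mul_left 2), tsum_mul_left,
      A8_zero, add_zero]
  simp only [hcomb] at L3
  set R : ℝ := max (4 * ‖z‖) 1 with hR
  have hdom : Tendsto (fun n : ℕ => ∑' a : Eis, (A8_f (1 / ((n : ℝ) + 1)) (2 * z + emb a) -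
        2 * A8_f (1 / ((n : ℝ) + 1)) (z + emb a) + A8_f (1 / ((n : ℝ) + 1)) (emb a))) atTop
      (𝓝 (∑' a : Eis, ((2 * z + emb a)⁻¹ - 2 * (z + emb a)⁻¹ + (emb a)⁻¹))) := by
    refine tendsto_tsum_of_dominated_convergence
      (bound := fun a : Eis => if R ≤ ‖emb a‖ then 128 * ‖z‖ ^ 2 * ‖emb a‖ ^ (-(3 : ℝ))
        else ‖2 * z + emb a‖⁻¹ + 2 * ‖z + emb a‖⁻¹ + ‖emb a‖⁻¹) ?_ ?_ ?_
    · have h1 : Summable fun a : Eis => 128 * ‖z‖ ^ 2 * ‖emb a‖ ^ (-(3 : ℝ)) :=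
        (summable_norm 3 (by norm_num)).mul_left _
      refine h1.congr_cofinite ?_
      filter_upwards [g2b_eventually_large R] with a ha
      rw [if_pos ha]
    · intro a
      exact ((A8_f_tendsto _).sub ((A8_f_tendsto _).const_mul 2)).add (A8_f_tendsto _)
    · refine Eventually.of_forall fun n a => ?_
      have hη : 0 ≤ 1 / ((n : ℝ) + 1) := by positivity
      by_cases h : R ≤ ‖emb a‖
      · rw [if_pos h]
        have ha1 : 1 ≤ ‖emb a‖ := (le_max_right _ _).trans h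
        have ha2 : 4 * ‖z‖ ≤ ‖emb a‖ := (le_max_left _ _).trans h
        refine (A8_sd z (emb a) _ hη ha2 (by linarith)).trans (le_of_eq ?_)
        rw [Real.rpow_neg (norm_nonneg _), div_eq_mul_inv]
        norm_cast
      · rw [if_neg h]
        calc _ ≤ ‖A8_f (1 / ((n : ℝ) + 1)) (2 * z + emb a)‖ +
              ‖2 * A8_f (1 / ((n : ℝ) + 1)) (z + emb a)‖ + ‖A8_f (1 / ((n : ℝ) + 1)) (emb a)‖ :=
              (norm_add_le _ _).trans (add_le_add (norm_sub_le _ _) le_rfl)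
          _ ≤ _ := by
              rw [norm_mul, Complex.norm_ofNat]
              have i1 := A8_f_le _ hη (2 * z + emb a)
              have i2 := A8_f_le _ hη (z + emb a)
              have i3 := A8_f_le _ hη (emb a)
              linarith
  rw [A8_lam z hz] at hdom
  exact tendsto_nhds_unique L3 hdom

end NAB
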