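import Pool.Agent.MP_9ab903_nt.NAB.A5
import Pool.Agent.MP_9ab903_nt.NAB.A6
import Pool.Agent.MP_9ab903_nt.NAB.A7b
import Pool.Agent.MP_ae0bd0_nt.CM.A1

/-! ## [NAB-A9] limits for flags

`fl g τ := pb g (τ, 0, 1) = τ |ℓ₀|² + |ℓ₁|²` (`ℓ₀, ℓ₁` the rows of `g`).
`lim_sw`: `pb (Sw * g) (τ,0,1) = pb g (1,0,τ)` (`pb_comp`), `SS_pb`, `geo`.
`lim_ho`: `pb g (τ,0,1) = pb (Sw * g) (1,0,τ)`, `pb (Ho b * g) (τ,0,1) = pb (Sw * g) (1, emb b, |b|² + τ)` (`τ|ℓ₀|² + |ℓ₁ + bℓ₀|²`),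
`SS_pb` for `Sw * g` (determinant `- det g`), `horo`. -/

set_option autoImplicit false

open scoped ComplexConjugate
open MeasureTheory Set Filter Topology

namespace NAB

open CM27

/-- Exchange of the rows. -/
def Sw : Mt := !![0, 1; 1, 0]

/-- Add `b` times the first row to the second row. -/
def Ho (b : Eis) : Mt := !![1, 0; b, 1]

/-- Scale the rows. -/
def Di (u v : Eis) : Mt := !![u, 0; 0, v]

/-- The hermitian form `τ |ℓ₀|² + |ℓ₁|²`. -/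
noncomputable def fl (g : Mt) (τ : ℝ) : HF := pb g ((τ, 0, 1) : HF)

theorem A9_pb_Sw (a : ℝ) (b : ℂ) (d : ℝ) : pb Sw ((a, b, d) : HF) = (d, conj b, a) := by
  have e00 : Sw 0 0 = 0 := rfl
  have e01 : Sw 0 1 = 1 := rfl
  have e10 : Sw 1 0 = 1 := rfl
  have e11 : Sw 1 1 = 0 := rfl
  unfold pb hv hb
  rw [e00, e01, e10, e11]
  simp

theorem A9_pb_Ho (b : Eis) (τ : ℝ) :
    pb (Ho b) ((τ, 0, 1) : HF) = (‖emb b‖ ^ 2 + τ, conj (emb b), 1) := by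
  have e00 : Ho b 0 0 = 1 := rfl
  have e01 : Ho b 0 1 = 0 := rfl
  have e10 : Ho b 1 0 = b := rfl
  have e11 : Ho b 1 1 = 1 := rfl
  unfold pb hv hb
  rw [e00, e01, e10, e11]
  simp
  ring

theorem A9_norm_unit {u : Eis} (hu : IsUnit u) : ‖emb u‖ ^ 2 = 1 := by
  rw [norm_emb_sq, (eis_isUnit_iff u).1 hu]
  simp

theorem A9_pb_Di {u v : Eis} (hu : IsUnit u) (hv' : IsUnit v) (τ : ℝ) :
    pb (Di u v) ((τ, 0, 1) : HF) = (τ, 0, 1) := by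
  have e00 : Di u v 0 0 = u := rfl
  have e01 : Di u v 0 1 = 0 := rfl
  have e10 : Di u v 1 0 = 0 := rfl
  have e11 : Di u v 1 1 = v := rfl
  unfold pb hv hb
  rw [e00, e01, e10, e11]
  simp [A9_norm_unit hu, A9_norm_unit hv']

theorem A9_det_Sw : Sw.det = -1 := by
  rw [Matrix.det_fin_two]
  have e00 : Sw 0 0 = 0 := rfl
  have e01 : Sw 0 1 = 1 := rfl
  have e10 : Sw 1 0 = 1 := rfl
  have e11 : Sw 1 1 = 0 := rfl
  rw [e00, e01, e10, e11]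
  ring

theorem A9_mv_Sw (v : ℂ × ℂ) : mv Sw v = (v.2, v.1) := by
  have e00 : Sw 0 0 = 0 := rfl
  have e01 : Sw 0 1 = 1 := rfl
  have e10 : Sw 1 0 = 1 := rfl
  have e11 : Sw 1 1 = 0 := rfl
  unfold mv
  rw [e00, e01, e10, e11]
  simp

theorem A9_fl_Sw (g : Mt) (τ : ℝ) : fl (Sw * g) τ = pb g ((1, 0, τ) : HF) := by
  unfold fl
  rw [← pb_comp, A9_pb_Sw, map_zero]

theorem A9_fl' (g : Mt) (τ : ℝ) : fl g τ = pb (Sw * g) ((1, 0, τ) : HF) := by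
  unfold fl
  rw [← pb_comp, A9_pb_Sw, map_zero]

theorem A9_fl_Ho (g : Mt) (b : Eis) (τ : ℝ) :
    fl (Ho b * g) τ = pb (Sw * g) ((1, emb b, ‖emb b‖ ^ 2 + τ) : HF) := by
  unfold fl
  rw [← pb_comp, ← pb_comp, A9_pb_Sw, A9_pb_Ho]

theorem fl_PD {g : Mt} (hg : IsUnit g.det) {τ : ℝ} (hτ : 0 < τ) : PD (fl g τ) := by
  apply PD_pb hg
  refine ⟨hτ, ?_⟩
  simpa using hτ

theorem fl_di (g : Mt) {u v : Eis} (hu : IsUnit u) (hv : IsUnit v) (τ : ℝ) :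
    fl (Di u v * g) τ = fl g τ := by
  unfold fl
  rw [← pb_comp, A9_pb_Di hu hv]

theorem lim_sw (x : ℂ × ℂ) (g : Mt) (hg : IsUnit g.det) (h1 : (mv g x).1 ∉ Set.range emb)
    (h2 : (mv g x).2 ∉ Set.range emb) :
    Tendsto (fun τ : ℝ => SS x (fl g τ) (fl (Sw * g) τ)) atTop
      (𝓝 (-(1 / 2) * emb g.det * E1 (mv g x).1 * E1 (mv g x).2)) := by
  have e : (fun τ : ℝ => SS x (fl g τ) (fl (Sw * g) τ)) = fun τ : ℝ => emb g.det *
      SS (mv g x) ((τ, 0, 1) : HF) ((1, 0, τ) : HF) := by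
    funext τ
    rw [A9_fl_Sw]
    exact SS_pb g hg x _ _
  rw [e]
  have h := (geo (mv g x) h1 h2).const_mul (emb g.det)
  have e2 : -(1 / 2) * emb g.det * E1 (mv g x).1 * E1 (mv g x).2 =
      emb g.det * (-(1 / 2) * E1 (mv g x).1 * E1 (mv g x).2) := by ring
  rw [e2]
  exact h

theorem lim_ho (x : ℂ × ℂ) (g : Mt) (b : Eis) (hg : IsUnit g.det)
    (h1 : (mv g x).1 ∉ Set.range emb) :
    Tendsto (fun τ : ℝ => SS x (fl g τ) (fl (Ho b * g) τ)) atTop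
      (𝓝 (-(1 / 2) * emb g.det * conj (emb b) * Q2 (mv g x).1)) := by
  have hdet : (Sw * g).det = - g.det := by
    rw [Matrix.det_mul, A9_det_Sw, neg_one_mul]
  have hu : IsUnit (Sw * g).det := by rw [hdet]; exact hg.neg
  have hmv : mv (Sw * g) x = ((mv g x).2, (mv g x).1) := by
    rw [← mv_comp, A9_mv_Sw]
  have e : (fun τ : ℝ => SS x (fl g τ) (fl (Ho b * g) τ)) = fun τ : ℝ => emb (Sw * g).det *
      SS (mv (Sw * g) x) ((1, 0, τ) : HF) ((1, emb b, ‖emb b‖ ^ 2 + τ) : HF) := by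
    funext τ
    rw [A9_fl_Ho, A9_fl' g τ]
    exact SS_pb (Sw * g) hu x _ _
  rw [e]
  have h := (horo (mv (Sw * g) x) (by rw [hmv]; exact h1) b).const_mul (emb (Sw * g).det)
  have e2 : -(1 / 2) * emb g.det * conj (emb b) * Q2 (mv g x).1 =
      emb (Sw * g).det * (1 / 2 * conj (emb b) * Q2 (mv (Sw * g) x).2) := by
    rw [hdet, hmv, map_neg]
    ring
  rw [e2]
  exact h

end NAB
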