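import Pool.Agent.MP_9ab903_nt.AN.Defs

/-!
# [NAB] analytic core: definitions (blueprint `/team-store/NAB_BLUEPRINT.md`, part A)

Eisenstein–Kronecker cocycle for `GL₂(ℤ[ω])`: `x ∈ ℂ²`, binary hermitian forms `P, Q`,
`SS x P Q = π² ∫∫_{a,b>0} ∑_{v ∈ x + ℤ[ω]²} nn P Q v · exp (-π (a P + b Q) v)`.
-/

set_option autoImplicit false

open scoped ComplexConjugate
open MeasureTheory Set Filter Topology

namespace NAB

open CM27

/-- Binary hermitian forms `(a, b, d) = a |v₁|² + 2 Re (b conj v₁ v₂) + d |v₂|²`. -/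
abbrev HF : Type := ℝ × ℂ × ℝ

/-- The value of a hermitian form. -/
noncomputable def hv (h : HF) (v : ℂ × ℂ) : ℝ :=
  h.1 * ‖v.1‖ ^ 2 + 2 * (h.2.1 * conj v.1 * v.2).re + h.2.2 * ‖v.2‖ ^ 2

/-- The sesquilinear form (conjugate linear in `u`). -/
noncomputable def hb (h : HF) (u v : ℂ × ℂ) : ℂ :=
  h.1 * conj u.1 * v.1 + h.2.1 * conj u.1 * v.2 + conj h.2.1 * conj u.2 * v.1
    + h.2.2 * conj u.2 * v.2

/-- Positive definite. -/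
def PD (h : HF) : Prop := 0 < h.1 ∧ ‖h.2.1‖ ^ 2 < h.1 * h.2.2

/-- `|v₁|² + |v₂|²` -/
noncomputable def nrm (v : ℂ × ℂ) : ℝ := ‖v.1‖ ^ 2 + ‖v.2‖ ^ 2

/-- The quadratic form in `conj v₁, conj v₂` attached to a pair of hermitian forms. -/
noncomputable def nn (h k : HF) (v : ℂ × ℂ) : ℂ :=
  -(1 / 2) * ((h.1 * k.2.1 - h.2.1 * k.1) * conj v.1 ^ 2
    + (h.1 * k.2.2 - h.2.2 * k.1 + conj h.2.1 * k.2.1 - h.2.1 * conj k.2.1) * (conj v.1 * conj v.2)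
    + (conj h.2.1 * k.2.2 - h.2.2 * conj k.2.1) * conj v.2 ^ 2)

/-- Linear forms. -/
noncomputable def lf (l v : ℂ × ℂ) : ℂ := l.1 * v.1 + l.2 * v.2

/-- The hermitian form `|l(v)|²`. -/
noncomputable def sq (l : ℂ × ℂ) : HF := (‖l.1‖ ^ 2, conj l.1 * l.2, ‖l.2‖ ^ 2)

/-- The determinant of two linear forms. -/
noncomputable def dt (l l' : ℂ × ℂ) : ℂ := l.1 * l'.2 - l.2 * l'.1

/-- Matrices over `ℤ[ω]`. -/
abbrev Mt : Type := Matrix (Fin 2) (Fin 2) Eis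

/-- Action on column vectors. -/
noncomputable def mv (M : Mt) (v : ℂ × ℂ) : ℂ × ℂ :=
  (emb (M 0 0) * v.1 + emb (M 0 1) * v.2, emb (M 1 0) * v.1 + emb (M 1 1) * v.2)

/-- The hermitian form `h (M v)`. -/
noncomputable def pb (M : Mt) (h : HF) : HF :=
  (hv h (emb (M 0 0), emb (M 1 0)),
    hb h (emb (M 0 0), emb (M 1 0)) (emb (M 0 1), emb (M 1 1)),
    hv h (emb (M 0 1), emb (M 1 1)))

/-- The embedding of `ℤ[ω]²`. -/
noncomputable def em (m : Eis × Eis) : ℂ × ℂ := (emb m.1, emb m.2)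

/-- The lattice `ℤ[ω]²`. -/
def L2 : Set (ℂ × ℂ) := Set.range em

/-- The monomials `conj v₁ ^ j * conj v₂ ^ k`. -/
noncomputable def mo (j k : ℕ) (v : ℂ × ℂ) : ℂ := conj v.1 ^ j * conj v.2 ^ k

/-- The theta function `∑_{v ∈ x + ℤ[ω]²} p(v) exp (-π h(v))`. -/
noncomputable def th (h : HF) (p : ℂ × ℂ → ℂ) (x : ℂ × ℂ) : ℂ :=
  ∑' m : Eis × Eis, p (x + em m) * (Real.exp (-(Real.pi * hv h (x + em m))) : ℝ)

/-- The open quadrant. -/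
def qd : Set (ℝ × ℝ) := Ioi 0 ×ˢ Ioi 0

/-- The Eisenstein–Kronecker cocycle. -/
noncomputable def SS (x : ℂ × ℂ) (P Q : HF) : ℂ :=
  (Real.pi : ℂ) ^ 2 * ∫ t in qd, th (t.1 • P + t.2 • Q) (nn P Q) x

/-- One-dimensional theta functions `∑_{a ∈ ℤ[ω]} conj (z + a) ^ k exp (-π s |z + a|²)`. -/
noncomputable def Tk (k : ℕ) (s : ℝ) (z : ℂ) : ℂ :=
  ∑' a : Eis, conj (z + emb a) ^ k * (Real.exp (-(Real.pi * s * ‖z + emb a‖ ^ 2)) : ℝ)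

/-- One-dimensional absolute sums `∑_{a ∈ ℤ[ω]} |z + a| ^ k exp (-π s |z + a|²)`. -/
noncomputable def Ak (k : ℕ) (s : ℝ) (z : ℂ) : ℝ :=
  ∑' a : Eis, ‖z + emb a‖ ^ k * Real.exp (-(Real.pi * s * ‖z + emb a‖ ^ 2))

/-- The covolume of `ℤ[ω]`. -/
noncomputable def A0 : ℝ := √3 / 2

/-- The regularised sum of `1 / (z + a)`. -/
noncomputable def E1 (z : ℂ) : ℂ := (Real.pi : ℂ) * ∫ u in Ioi (0 : ℝ), Tk 1 u z

/-- `(π / A0)` times the regularised sum of `conj (z + a) / (z + a)`. -/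
noncomputable def Q2 (z : ℂ) : ℂ :=
  (Real.pi : ℂ) ^ 2 / (A0 : ℂ) * ∫ u in Ioi (0 : ℝ), Tk 2 u z

/-- The dual lattice: `u` such that `Re (a conj u) ∈ ℤ` for all `a ∈ ℤ[ω]`. -/
noncomputable def du (b : Eis) : ℂ := 2 * emb b / (Complex.I * (√3 : ℝ))

/-- The sector. -/
def sec (r : ℝ) : Set (ℝ × ℝ) := {t | 0 < t.2 ∧ t.2 < t.1 ∧ t.1 < r ^ 2 * t.2}

/-- The sector integral. -/
noncomputable def ZZ (l l' : ℂ × ℂ) (r : ℝ) (x : ℂ × ℂ) (s : ℂ) : ℂ :=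
  ∫ t in sec r, ((t.1 * t.2 : ℝ) : ℂ) ^ s *
    th (t.1 • sq l + t.2 • sq l') (fun v => conj (lf l v * lf l' v)) x

end NAB
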