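import Pool.Agent.MP_9ab903_nt.NAB.DS

set_option autoImplicit false

open NumberField IsDedekindDomain Polynomial
open CM27 CMT CF
open scoped Classical

namespace NAB

/-! ## [NAB-UR] the Galois closure of `F(√d)` (file NAB/UR.lean) -/

/-- a trivial inertia group -/
theorem ram_one_of_inertia (L M : Type) [Field L] [NumberField L] [Field M] [NumberField M]
    [Algebra L M] [IsGalois L M] (p : HeightOneSpectrum (𝓞 L)) (P : HeightOneSpectrum (𝓞 M))
    (hP : P.asIdeal.LiesOver p.asIdeal)
    (h : ∀ σ : M ≃ₐ[L] M, (∀ x y : 𝓞 M, ((y : 𝓞 M) : M) = σ (x : M) → y - x ∈ P.asIdeal) →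
      σ = 1) : P.asIdeal.ramificationIdx (𝓞 L) = 1 := by
  haveI := p.isMaximal
  haveI := P.isMaximal
  have : Finite (𝓞 L ⧸ p.asIdeal) := Ring.HasFiniteQuotients.finiteQuotient p.ne_bot
  have h1 := Ideal.card_inertia_eq_ramificationIdxIn (G := Gal(M/L)) p.asIdeal P.asIdeal
  rw [Ideal.ramificationIdxIn_eq_ramificationIdx p.asIdeal P.asIdeal Gal(M/L)] at h1
  rw [← h1, Nat.card_eq_one_iff_unique]
  have h2 : ∀ σ : Gal(M/L), σ ∈ Ideal.inertia Gal(M/L) P.asIdeal → σ = 1 := by
    intro σ hσ
    refine h σ ?_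
    intro x y hy
    have h3 := hσ x
    have h4 : σ • x = y := by
      ext
      rw [hy]
      rfl
    rw [h4] at h3
    exact h3
  exact ⟨⟨fun a b => Subtype.ext ((h2 a a.2).trans (h2 b b.2).symm)⟩, ⟨1⟩⟩

/-- an elementary abelian `2`-group -/
theorem card_two_group (G : Type) [Group G] [Finite G] (h : ∀ g : G, g * g = 1) :
    ∃ k : ℕ, Nat.card G = 2 ^ k := by
  haveI : Fact (Nat.Prime 2) := ⟨Nat.prime_two⟩
  have h1 : IsPGroup 2 G := fun g => ⟨1, by rw [pow_one, pow_two, h g]⟩
  exact IsPGroup.iff_card.1 h1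

section
variable (K F : Type) [Field K] [NumberField K] [Field F] [NumberField F] [Algebra K F]
  [IsGalois K F] (d : 𝓞 F)

/-- the polynomial `∏ (X² - σ d)` -/
noncomputable def clo : K[X] := expand K 2 (minpoly K (d : F))

/-- the Galois closure of `F(√d)` over `K` -/
abbrev CM : Type := ((clo K F d).map (algebraMap K F)).SplittingField

theorem clo_root (z : CM K F d) (hz : z ∈ ((clo K F d).map (algebraMap K F)).rootSet (CM K F d)) :
    ∃ σ : F ≃ₐ[K] F, z ^ 2 = algebraMap F (CM K F d) (σ (d : F)) := by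
  have h1 : aeval z ((clo K F d).map (algebraMap K F)) = 0 := (mem_rootSet.1 hz).2
  rw [aeval_map_algebraMap] at h1
  have h10 : aeval z (clo K F d) = aeval (z ^ 2) (minpoly K (d : F)) := expand_aeval 2 _ z
  rw [h10] at h1
  haveI : FiniteDimensional K F := Module.Finite.of_restrictScalars_finite ℚ K F
  have hint : IsIntegral K (d : F) := IsIntegral.of_finite K _
  have hsp : ((minpoly K (d : F)).map (algebraMap K F)).Splits := IsGalois.splits K (d : F)
  have h2 : z ^ 2 ∈ (algebraMap F (CM K F d)).range := by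
    refine hsp.mem_range_of_isRoot ?_ ?_
    · exact (Polynomial.map_ne_zero_iff (algebraMap K F).injective).2 (minpoly.ne_zero hint)
    · rw [IsRoot.def, eval_map, ← aeval_def, aeval_map_algebraMap]
      exact h1
  obtain ⟨y, hy⟩ := h2
  have h3 : aeval y (minpoly K (d : F)) = 0 := by
    apply (algebraMap F (CM K F d)).injective
    rw [map_zero, ← aeval_algebraMap_apply, hy]
    exact h1
  have h4 : minpoly K y = minpoly K (d : F) :=
    (minpoly.eq_of_irreducible_of_monic (minpoly.irreducible hint) h3 (minpoly.monic hint)).symm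
  obtain ⟨σ, hσ⟩ := (Normal.minpoly_eq_iff_mem_orbit (F := K) F).1 h4
  exact ⟨σ, by rw [← hy, ← hσ]; rfl⟩

theorem clo_splits : (((clo K F d).map (algebraMap K F)).map
    (algebraMap F (CM K F d))).Splits :=
  SplittingField.splits _

/-- `d` is a square in `CM` -/
theorem clo_sqrt : ∃ δ : CM K F d, δ ^ 2 = algebraMap F (CM K F d) (d : F) := by
  haveI : FiniteDimensional K F := Module.Finite.of_restrictScalars_finite ℚ K F
  have hint : IsIntegral K (d : F) := IsIntegral.of_finite K _
  have hne : (clo K F d).map (algebraMap K F) ≠ 0 := by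
    rw [Polynomial.map_ne_zero_iff (algebraMap K F).injective]
    exact (expand_ne_zero two_pos).2 (minpoly.ne_zero hint)
  have hdvd : (X ^ 2 - C (d : F)) ∣ (clo K F d).map (algebraMap K F) := by
    have h1 : (X - C (d : F)) ∣ (minpoly K (d : F)).map (algebraMap K F) := by
      rw [dvd_iff_isRoot, IsRoot.def, eval_map, ← aeval_def]
      exact minpoly.aeval K _
    obtain ⟨q, hq⟩ := h1
    refine ⟨expand F 2 q, ?_⟩
    rw [clo, Polynomial.map_expand, hq, map_mul, map_sub, expand_X, expand_C]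
  have h2 : ((X ^ 2 - C (d : F)).map (algebraMap F (CM K F d))).Splits := by
    refine (clo_splits K F d).of_dvd ?_ (Polynomial.map_dvd _ hdvd)
    exact (Polynomial.map_ne_zero_iff (algebraMap F (CM K F d)).injective).2 hne
  have h3 : ((X ^ 2 - C (d : F)).map (algebraMap F (CM K F d))).degree ≠ 0 := by
    rw [degree_map, degree_X_pow_sub_C two_pos]
    norm_num
  obtain ⟨δ, hδ⟩ := h2.exists_eval_eq_zero h3
  refine ⟨δ, ?_⟩
  rw [eval_map, eval₂_sub, eval₂_pow, eval₂_X, eval₂_C] at hδ
  exact sub_eq_zero.1 hδ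

instance clo_numberField : NumberField (CM K F d) where
  to_charZero := charZero_of_injective_algebraMap (algebraMap F (CM K F d)).injective
  to_finiteDimensional := by
    haveI : FiniteDimensional F (CM K F d) :=
      IsSplittingField.finiteDimensional _ ((clo K F d).map (algebraMap K F))
    haveI : CharZero (CM K F d) :=
      charZero_of_injective_algebraMap (algebraMap F (CM K F d)).injective
    haveI : IsScalarTower ℚ F (CM K F d) := IsScalarTower.of_algebraMap_eq' (Subsingleton.elim _ _)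
    exact Module.Finite.trans F (CM K F d)

theorem clo_galois_F : IsGalois F (CM K F d) := by
  haveI : Normal F (CM K F d) := Normal.of_isSplittingField ((clo K F d).map (algebraMap K F))
  exact ⟨⟩

theorem clo_galois_K : IsGalois K (CM K F d) := by
  haveI : FiniteDimensional K F := Module.Finite.of_restrictScalars_finite ℚ K F
  obtain ⟨p, hp, hpF⟩ := IsGalois.is_separable_splitting_field K F
  have hint : IsIntegral K (d : F) := IsIntegral.of_finite K _
  have h1 : clo K F d ≠ 0 := (expand_ne_zero two_pos).2 (minpoly.ne_zero hint)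
  haveI : IsSplittingField K (CM K F d) (p * clo K F d) :=
    IsSplittingField.mul (K := F) (CM K F d) p (clo K F d) hp.ne_zero h1
  haveI : Normal K (CM K F d) := Normal.of_isSplittingField (p * clo K F d)
  exact ⟨⟩

/-- an automorphism which fixes the roots is trivial -/
theorem clo_ext (τ : CM K F d ≃ₐ[F] CM K F d)
    (h : ∀ z ∈ ((clo K F d).map (algebraMap K F)).rootSet (CM K F d), τ z = z) : τ = 1 := by
  have h1 : Algebra.adjoin F (((clo K F d).map (algebraMap K F)).rootSet (CM K F d)) = ⊤ :=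
    IsSplittingField.adjoin_rootSet _ _
  have h2 : (τ : CM K F d →ₐ[F] CM K F d) = AlgHom.id F _ := by
    apply AlgHom.ext_of_adjoin_eq_top h1
    intro z hz
    exact h z hz
  ext x
  exact DFunLike.congr_fun h2 x

theorem clo_pm (τ : CM K F d ≃ₐ[F] CM K F d) (z : CM K F d)
    (hz : z ∈ ((clo K F d).map (algebraMap K F)).rootSet (CM K F d)) : τ z = z ∨ τ z = -z := by
  obtain ⟨σ, hσ⟩ := clo_root K F d z hz
  apply sq_eq_sq_iff_eq_or_eq_neg.1
  rw [← map_pow, hσ, τ.commutes]

theorem clo_finrank (n : ℕ) (hn : Module.finrank K F = 2 ^ n) :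
    ∃ m : ℕ, Module.finrank K (CM K F d) = 2 ^ m := by
  haveI := clo_galois_F K F d
  haveI : FiniteDimensional F (CM K F d) :=
    IsSplittingField.finiteDimensional _ ((clo K F d).map (algebraMap K F))
  obtain ⟨k, hk⟩ := card_two_group (CM K F d ≃ₐ[F] CM K F d) (fun τ => by
    apply clo_ext
    intro z hz
    change τ (τ z) = z
    rcases clo_pm K F d τ z hz with h | h
    · rw [h, h]
    · rw [h, map_neg, h, neg_neg])
  rw [IsGalois.card_aut_eq_finrank] at hk
  exact ⟨n + k, by rw [← Module.finrank_mul_finrank K F (CM K F d), hn, hk, pow_add]⟩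

/-- unramified outside `3` and the good primes -/
theorem clo_unr (hu : Unr K F) (h4 : (4 : 𝓞 F) ∣ d - 1)
    (hgood : ∀ v : HeightOneSpectrum (𝓞 F), d ∈ v.asIdeal → (3 : 𝓞 F) ∈ v.asIdeal ∨
      ∃ p : ℕ, GoodPrime p ∧ (p : 𝓞 F) ∈ v.asIdeal) : Unr K (CM K F d) := by
  intro v P hP h3 hp
  haveI := P.isPrime
  set v' : HeightOneSpectrum (𝓞 F) := ⟨P.asIdeal.under (𝓞 F), inferInstance,
    Ideal.under_ne_bot _ P.ne_bot⟩ with hv'
  have hPv' : P.asIdeal.LiesOver v'.asIdeal := ⟨rfl⟩
  have hv'v : v'.asIdeal.LiesOver v.asIdeal := Ideal.LiesOver.tower_bot P.asIdeal v'.asIdeal v.asIdeal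
  have hnat : ∀ k : ℕ, (k : 𝓞 F) ∈ v'.asIdeal → (k : 𝓞 K) ∈ v.asIdeal := by
    intro k hk
    rw [hv'v.over, Ideal.under_def, Ideal.mem_comap, map_natCast]
    exact hk
  have h1 : v'.asIdeal.ramificationIdx (𝓞 K) = 1 := hu v v' hv'v h3 hp
  have h2 : P.asIdeal.ramificationIdx (𝓞 F) = 1 := by
    haveI := clo_galois_F K F d
    refine ram_one_of_inertia F (CM K F d) v' P hPv' ?_
    intro τ hτ
    apply clo_ext
    intro z hz
    rcases clo_pm K F d τ z hz with h | h
    · exact h
    · exfalso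
      obtain ⟨σ, hσ⟩ := clo_root K F d z hz
      set σ' : 𝓞 F ≃+* 𝓞 F := RingOfIntegers.mapRingEquiv (σ : F ≃+* F) with hσ'
      have hσd : ((σ' d : 𝓞 F) : F) = σ (d : F) := rfl
      obtain ⟨c, hc⟩ := h4
      have hd' : σ' d = 1 + 4 * σ' c := by
        have h5 := congrArg σ' hc
        rw [map_sub, map_one, map_mul, map_ofNat] at h5
        linear_combination h5
      -- the integer `(1 + z) / 2`
      have hx : IsIntegral ℤ ((1 + z) / 2) := by
        have hmon : IsIntegral (𝓞 F) ((1 + z) / 2) := by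
          refine ⟨X ^ 2 - X - C (σ' c), ?_, ?_⟩
          · have h5 : (X ^ 2 - X - C (σ' c) : (𝓞 F)[X]) = X ^ 2 + (-X - C (σ' c)) := by ring
            rw [h5]
            refine monic_X_pow_add ?_
            refine lt_of_le_of_lt (degree_sub_le _ _) (max_lt ?_ ?_)
            · rw [degree_neg, degree_X]
              norm_num
            · exact lt_of_le_of_lt degree_C_le (by norm_num)
          · have h5 : z ^ 2 = 1 + 4 * algebraMap (𝓞 F) (CM K F d) (σ' c) := by
              rw [hσ, ← hσd, hd', IsScalarTower.algebraMap_apply (𝓞 F) F (CM K F d)]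
              simp only [map_add, map_mul, map_one, map_ofNat]
            rw [eval₂_sub, eval₂_sub, eval₂_pow, eval₂_X, eval₂_C]
            field_simp
            linear_combination h5
        exact isIntegral_trans (R := ℤ) (A := 𝓞 F) _ hmon
      have hz' : IsIntegral ℤ (τ ((1 + z) / 2)) := hx.map (τ : CM K F d →ₐ[F] CM K F d).toRingHom.toIntAlgHom
      have h6 := hτ ⟨(1 + z) / 2, hx⟩ ⟨τ ((1 + z) / 2), hz'⟩ rfl
      set y : 𝓞 (CM K F d) := ⟨τ ((1 + z) / 2), hz'⟩ - ⟨(1 + z) / 2, hx⟩ with hy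
      have h7 : (y : CM K F d) = -z := by
        change τ ((1 + z) / 2) - (1 + z) / 2 = -z
        rw [map_div₀, map_add, map_one, map_ofNat, h]
        ring
      have h8 : y ^ 2 = algebraMap (𝓞 F) (𝓞 (CM K F d)) (σ' d) := by
        ext
        change (y : CM K F d) ^ 2 = algebraMap F (CM K F d) (σ (d : F))
        rw [h7, neg_sq, hσ]
      have h9 : algebraMap (𝓞 F) (𝓞 (CM K F d)) (σ' d) ∈ P.asIdeal := by
        rw [← h8, pow_two]
        exact Ideal.mul_mem_left _ _ h6
      have h10 : σ' d ∈ v'.asIdeal := h9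
      -- transport by `σ`
      have h11 : ∃ k : ℕ, (k = 3 ∨ GoodPrime k) ∧ (k : 𝓞 F) ∈ v'.asIdeal := by
        set u : HeightOneSpectrum (𝓞 F) := coPr (𝓞 F) σ' v' with hu'
        have hmem : ∀ x : 𝓞 F, x ∈ u.asIdeal ↔ σ' x ∈ v'.asIdeal := fun x => Iff.rfl
        rcases hgood u ((hmem d).2 h10) with h12 | ⟨p, h12, h13⟩
        · refine ⟨3, Or.inl rfl, ?_⟩
          have := (hmem 3).1 h12
          rw [map_ofNat] at this
          exact_mod_cast this
        · refine ⟨p, Or.inr h12, ?_⟩
          have := (hmem p).1 h13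
          rwa [map_natCast] at this
      obtain ⟨k, hk, hkv⟩ := h11
      have h14 := hnat k hkv
      rcases hk with rfl | hk
      · exact h3 (by exact_mod_cast h14)
      · exact hp k hk h14
  rw [Ideal.ramificationIdx_tower (R := 𝓞 K) v'.asIdeal P.asIdeal, h1, h2]

end

/-- **The Galois closure of `F(√d)`.** -/
theorem exists_closure (K F : Type) [Field K] [NumberField K] [Field F] [NumberField F]
    [Algebra K F] [IsGalois K F] (n : ℕ) (hn : Module.finrank K F = 2 ^ n) (hu : Unr K F)
    (d : 𝓞 F) (h4 : (4 : 𝓞 F) ∣ d - 1)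
    (hgood : ∀ v : HeightOneSpectrum (𝓞 F), d ∈ v.asIdeal → (3 : 𝓞 F) ∈ v.asIdeal ∨
      ∃ p : ℕ, GoodPrime p ∧ (p : 𝓞 F) ∈ v.asIdeal) :
    ∃ (M : Type) (_ : Field M) (_ : NumberField M) (_ : Algebra F M) (_ : Algebra K M)
      (_ : IsScalarTower K F M) (_ : IsGalois K M) (m : ℕ), Module.finrank K M = 2 ^ m ∧
      Unr K M ∧ ∃ δ : M, δ ^ 2 = algebraMap F M (d : F) := by
  obtain ⟨m, hm⟩ := clo_finrank K F d n hn
  exact ⟨CM K F d, inferInstance, inferInstance, inferInstance, inferInstance, inferInstance,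
    clo_galois_K K F d, m, hm, clo_unr K F d hu h4 hgood, clo_sqrt K F d⟩

end NAB
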