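import Pool.Agent.MP_9ab903_nt.NAB.DS
import Pool.Agent.MP_9ab903_nt.NAB.UR
import Pool.Agent.MP_9ab903_nt.CF3.Fin3

set_option autoImplicit false

open NumberField IsDedekindDomain Polynomial
open CM27 CMT CF
open scoped Classical

namespace NAB

/-! ## [NAB-Alg] the algebraic half (file NAB/Alg.lean) -/

section
variable (S : Finset Eis) (hS : ∀ b ∈ S, GoodEis b) (F : IntermediateField ℚ ℂ) [NumberField F]
  (hw : w ∈ F) (hF : F ≤ LS S) (n : ℕ) (h : Module.finrank ℚ F = 2 ^ (n + 1))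
  (d : 𝓞 F) (h4 : (4 : 𝓞 F) ∣ d - 1)
  (hgood : ∀ v : HeightOneSpectrum (𝓞 F), d ∈ v.asIdeal → (3 : 𝓞 F) ∈ v.asIdeal ∨
      ∃ p : ℕ, GoodPrime p ∧ (p : 𝓞 F) ∈ v.asIdeal)
include hS hw hF h h4 hgood

theorem points_d (hd : d ≠ 0) (e : F) (he : 4 * e + 1 = (d : F) ^ 3) :
    Finite (Wt e).toAffine.Point ∧ Odd (Nat.card (Wt e).toAffine.Point) ∧
    ∀ (k : ℕ) (x : SBSD.Sha (Wt e)), 2 ^ k • x = 0 → x = 0 := by
  letI := algK F hw
  obtain ⟨hG, hdeg⟩ := galois_F S hS F hw hF n h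
  haveI := hG
  have hu : Unr KK F := unr_F S hS F hw hF n h
  obtain ⟨M, _, _, _, _, _, _, m, hm, huM, δ, hδ⟩ := exists_closure KK F n hdeg hu d h4 hgood
  exact ⟨sub_finite KK F M m hm huM d hd δ hδ h4 e he,
    sub_odd KK F M m hm huM d hd δ hδ h4 e he,
    fun k x => sub_sha KK F M m hm huM d hd δ hδ e he k x⟩

end

end NAB
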