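import Pool.Agent.MP_9ab903_nt.NAB.BDefs
import Pool.Agent.MP_9ab903_nt.NAB.EU5

/-! ## [NAB-B0] the second embedding and norms

`F/ℚ(ω)` has degree 2, so there is exactly one other embedding fixing `w`; `Algebra.norm KK x = x * s2 x`
(`Algebra.norm_eq_prod_embeddings`; `algK F hw`), `𝓞 F → ℤ[ω]` (integrally closed; `exists_KK`). `s2_psi` = `psi_span` (EU5). -/

set_option autoImplicit false

open NumberField IsDedekindDomain MeasureTheory Set
open CM27 CMT CF
open scoped ComplexConjugate Classical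

namespace NAB

/-- a ring homomorphism on `F` fixing `w` is the identity on `ℚ(ω)` -/
theorem b0_fix (F : IntermediateField ℚ ℂ) (hw : w ∈ F) (s : F →+* ℂ) (hs : s ⟨w, hw⟩ = w)
    (c : KK) : s (IntermediateField.inclusion (KK_le F hw) c) = (c : ℂ) := by
  let f₁ : KK →ₐ[ℚ] ℂ := (s.comp (IntermediateField.inclusion (KK_le F hw)).toRingHom).toRatAlgHom
  have h : f₁ = KK.val := by
    have hS : KK = IntermediateField.adjoin ℚ {w} := rfl
    apply IntermediateField.algHom_ext_of_eq_adjoin (hS := hS)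
    rintro x hx
    rw [Set.mem_singleton_iff] at hx
    subst hx
    exact hs
  exact congrArg (fun f : KK →ₐ[ℚ] ℂ => f c) h

/-- the algebra homomorphism over `ℚ(ω)` given by a ring homomorphism fixing `w` -/
noncomputable def b0_alg (F : IntermediateField ℚ ℂ) (hw : w ∈ F) (s : F →+* ℂ)
    (hs : s ⟨w, hw⟩ = w) : letI := algK F hw; F →ₐ[KK] ℂ :=
  letI := algK F hw
  { s with commutes' := fun c => b0_fix F hw s hs c }

theorem b0_alg_apply (F : IntermediateField ℚ ℂ) (hw : w ∈ F) (s : F →+* ℂ)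
    (hs : s ⟨w, hw⟩ = w) (x : F) : letI := algK F hw; b0_alg F hw s hs x = s x := rfl

theorem b0_card (F : IntermediateField ℚ ℂ) [NumberField F] (hw : w ∈ F)
    (h4 : Module.finrank ℚ F = 4) :
    letI := algK F hw; haveI := d2_finite F hw; Fintype.card (F →ₐ[KK] ℂ) = 2 := by
  letI := algK F hw
  haveI := d2_finite F hw
  have h1 := AlgHom.card KK F ℂ
  have h2 := d2_finrank F hw
  rw [h1]
  have h3 : 2 * Module.finrank KK F = 4 := h2.trans h4
  omega

theorem b0_univ (F : IntermediateField ℚ ℂ) [NumberField F] (hw : w ∈ F)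
    (h4 : Module.finrank ℚ F = 4) (s2 : F →+* ℂ) (hs : IsS2 F hw s2) :
    letI := algK F hw; haveI := d2_finite F hw;
    (Finset.univ : Finset (F →ₐ[KK] ℂ)) = {b0_alg F hw F.val.toRingHom rfl, b0_alg F hw s2 hs.fix} ∧
    b0_alg F hw F.val.toRingHom rfl ≠ b0_alg F hw s2 hs.fix := by
  letI := algK F hw
  haveI := d2_finite F hw
  have hne : b0_alg F hw F.val.toRingHom rfl ≠ b0_alg F hw s2 hs.fix := by
    intro h
    obtain ⟨x, hx⟩ := hs.ne
    apply hx
    have := congrArg (fun f : F →ₐ[KK] ℂ => f x) h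
    exact this.symm
  refine ⟨?_, hne⟩
  symm
  rw [← Finset.card_eq_iff_eq_univ, Finset.card_pair hne]
  exact (b0_card F hw h4).symm

variable (F : IntermediateField ℚ ℂ) [NumberField F] (hw : w ∈ F) (h4 : Module.finrank ℚ F = 4)
include h4

theorem exists_s2 : ∃ s2 : F →+* ℂ, IsS2 F hw s2 := by
  letI := algK F hw
  haveI := d2_finite F hw
  have h1 : 1 < Fintype.card (F →ₐ[KK] ℂ) := by
    rw [b0_card F hw h4]; norm_num
  obtain ⟨φ, hφ⟩ := Fintype.exists_ne_of_one_lt_card h1 (b0_alg F hw F.val.toRingHom rfl)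
  refine ⟨φ.toRingHom, ?_, ?_⟩
  · exact φ.commutes ⟨w, d2_w_mem⟩
  · by_contra hcon
    push Not at hcon
    apply hφ
    ext x
    exact hcon x

theorem s2_norm (s2 : F →+* ℂ) (hs : IsS2 F hw s2) (x : F) :
    letI := algK F hw; ((Algebra.norm KK x : KK) : ℂ) = (x : ℂ) * s2 x := by
  letI := algK F hw
  haveI := d2_finite F hw
  have h1 := Algebra.norm_eq_prod_embeddings KK ℂ x
  obtain ⟨h2, h3⟩ := b0_univ F hw h4 s2 hs
  rw [h2, Finset.prod_pair h3] at h1
  exact h1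

theorem s2_eis (s2 : F →+* ℂ) (hs : IsS2 F hw s2) (g : 𝓞 F) :
    ∃ a : Eis, emb a = ((g : F) : ℂ) * s2 (g : F) := by
  letI := algK F hw
  haveI := d2_tower F hw
  haveI := d2_finite F hw
  obtain ⟨φ, hφ⟩ := exists_KK
  refine ⟨φ.symm (Algebra.intNorm (𝓞 KK) (𝓞 F) g), ?_⟩
  rw [← hφ, φ.apply_symm_apply, ← s2_norm F hw h4 s2 hs (g : F)]
  have h3 := Algebra.algebraMap_intNorm (A := 𝓞 KK) (K := KK) (L := F) (B := 𝓞 F) g
  exact congrArg (fun t : KK => (t : ℂ)) h3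

theorem s2_absNorm (s2 : F →+* ℂ) (hs : IsS2 F hw s2) (g : 𝓞 F) :
    (Ideal.absNorm (Ideal.span {g}) : ℝ) = (‖((g : F) : ℂ)‖ * ‖s2 (g : F)‖) ^ 2 := by
  letI := algK F hw
  haveI := d2_tower F hw
  haveI := d2_finite F hw
  obtain ⟨φ, hφ⟩ := exists_KK
  have h1 := Ideal.absNorm_relNorm (R := 𝓞 KK) (S := 𝓞 F) (Ideal.span {g})
  rw [Ideal.relNorm_singleton] at h1
  have h3 := Algebra.algebraMap_intNorm (A := 𝓞 KK) (K := KK) (L := F) (B := 𝓞 F) g
  have h5 : emb (φ.symm (Algebra.intNorm (𝓞 KK) (𝓞 F) g)) = ((g : F) : ℂ) * s2 (g : F) := by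
    rw [← hφ, φ.apply_symm_apply, ← s2_norm F hw h4 s2 hs (g : F)]
    exact congrArg (fun t : KK => (t : ℂ)) h3
  set a := φ.symm (Algebra.intNorm (𝓞 KK) (𝓞 F) g) with ha
  have h6 : Algebra.intNorm (𝓞 KK) (𝓞 F) g = φ a := by rw [ha, φ.apply_symm_apply]
  rw [h6, card_KK F hw φ] at h1
  rw [← h1, ← norm_mul, ← h5, norm_emb_sq, Nat.cast_natAbs, abs_of_nonneg (norm_nonneg' _)]

/-- the norm of `g ≡ u mod 3`, `u ∈ ℤ[ω]`, `u ≡ 1 mod 3`, is primary -/
theorem s2_psi (s2 : F →+* ℂ) (hs : IsS2 F hw s2) (g : 𝓞 F) (u : Eis) (hu : (3 : Eis) ∣ u - 1)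
    (hg : (3 : 𝓞 F) ∣ g - eF F hw u) :
    emb (psi F (Ideal.span {g})) = ((g : F) : ℂ) * s2 (g : F) := by
  letI := algK F hw
  haveI := d2_tower F hw
  haveI := d2_finite F hw
  -- `g ≡ 1 mod 3`
  obtain ⟨c₁, hc₁⟩ := hg
  obtain ⟨c₂, hc₂⟩ := hu
  have hc₃ : g = 1 + 3 * (c₁ + eF F hw c₂) := by
    have h := congrArg (eF F hw) hc₂
    rw [map_sub, map_one, map_mul, map_ofNat] at h
    linear_combination hc₁ + h
  set c := c₁ + eF F hw c₂ with hc
  obtain ⟨a, ha⟩ := s2_eis F hw h4 s2 hs g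
  obtain ⟨n1, hn1⟩ := s2_eis F hw h4 s2 hs c
  obtain ⟨n2, hn2⟩ := s2_eis F hw h4 s2 hs (1 + c)
  have hap : Primary a := by
    refine ⟨(n2 - 1 - n1) + 3 * n1, ?_⟩
    apply emb_injective
    simp only [map_sub, map_add, map_mul, map_one, map_ofNat]
    rw [ha, hn1, hn2, hc₃]
    simp only [map_add, map_mul, map_one, map_ofNat, IntermediateField.coe_add,
      IntermediateField.coe_mul, IntermediateField.coe_one]
    have e3 : (((3 : 𝓞 F) : F) : ℂ) = 3 := rfl
    have e3' : ((3 : F) : ℂ) = 3 := rfl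
    push_cast
    simp only [e3, e3', map_one, map_ofNat]
    ring
  have hg0 : g ≠ 0 := by
    intro h0
    rw [h0] at ha
    have h1 : a = 0 := by
      apply emb_injective
      rw [ha, _root_.map_zero emb]
      simp
    rw [h1, primary_iff] at hap
    simp at hap
  have hcop : IsCoprime (Ideal.span {g}) (Ideal.span {(3 : 𝓞 F)}) := by
    rw [Ideal.isCoprime_span_singleton_iff]
    refine ⟨1, -c, ?_⟩
    rw [hc₃]
    ring
  rw [psi_span F hw g hg0 hcop a hap ?_, ha]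
  rw [s2_norm F hw h4 s2 hs (g : F), ha]

/-- the complex embeddings of `F`: absolute values -/
theorem s2_all (s2 : F →+* ℂ) (hs : IsS2 F hw s2) (φ : F →+* ℂ) (x : F) :
    ‖φ x‖ = ‖(x : ℂ)‖ ∨ ‖φ x‖ = ‖s2 x‖ := by
  letI := algK F hw
  haveI := d2_finite F hw
  have key : ∀ ψ : F →+* ℂ, ψ ⟨w, hw⟩ = w → ψ x = (x : ℂ) ∨ ψ x = s2 x := by
    intro ψ hψ
    obtain ⟨h2, h3⟩ := b0_univ F hw h4 s2 hs
    have h5 : b0_alg F hw ψ hψ ∈ (Finset.univ : Finset (F →ₐ[KK] ℂ)) := Finset.mem_univ _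
    rw [h2, Finset.mem_insert, Finset.mem_singleton] at h5
    rcases h5 with h5 | h5
    · left
      exact congrArg (fun f : F →ₐ[KK] ℂ => f x) h5
    · right
      exact congrArg (fun f : F →ₐ[KK] ℂ => f x) h5
  have hw2 : (⟨w, hw⟩ : F) * ⟨w, hw⟩ = -1 - ⟨w, hw⟩ := Subtype.ext w_sq
  have h6 : φ ⟨w, hw⟩ * φ ⟨w, hw⟩ = -1 - φ ⟨w, hw⟩ := by
    rw [← map_mul, hw2, map_sub, map_neg, map_one]
  have hcw : conj w = -1 - w := by
    apply Complex.ext
    · rw [Complex.conj_re]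
      simp only [Complex.sub_re, Complex.neg_re, Complex.one_re, w_re]
      norm_num
    · rw [Complex.conj_im]
      simp only [Complex.sub_im, Complex.neg_im, Complex.one_im]
      ring
  have h7 : (φ ⟨w, hw⟩ - w) * (φ ⟨w, hw⟩ - (-1 - w)) = 0 := by
    linear_combination h6 - w_sq
  rcases mul_eq_zero.1 h7 with h | h
  · have h8 := key φ (sub_eq_zero.1 h)
    rcases h8 with h8 | h8
    · left; rw [h8]
    · right; rw [h8]
  · have h8 : ((starRingEnd ℂ).comp φ) ⟨w, hw⟩ = w := by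
      rw [RingHom.comp_apply, sub_eq_zero.1 h, ← hcw, Complex.conj_conj]
    have h9 := key _ h8
    rw [RingHom.comp_apply] at h9
    have h10 : ‖φ x‖ = ‖(starRingEnd ℂ) (φ x)‖ := (RCLike.norm_conj _).symm
    rcases h9 with h9 | h9
    · left; rw [h10, h9]
    · right; rw [h10, h9]

end NAB
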