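import Pool.Agent.MP_9ab903_nt.NAB.B0

/-! ## [NAB-B2] the units congruent to `1` modulo `m`, `3 ∣ m`

`F` is totally complex of degree 4: unit rank 1 (`NumberField.Units.rank`). A root of unity `ζ ≡ 1 mod 3` is `1`: if `ζ` has prime
order `q`, `ζ = 1 + 3a`: `q ≠ 3` gives `3 ∣ q`; `q = 3` gives `1 + 3 a + 3 a² = 0`. The group `U_m` has finite index in the units
(the residue ring is finite), is torsion free of rank 1, so it is infinite cyclic. `N(e) = e * s2 e` is a unit of `ℤ[ω]` which is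
`≡ 1 mod 3`, so it is `1`. If `‖e‖ = 1` then all absolute values are 1 (`s2_all`), so `e` is a root of unity
(`NumberField.Embeddings.pow_eq_one_of_norm_eq_one`): contradiction; replace `e` by `e⁻¹` if necessary. -/

set_option autoImplicit false
set_option linter.unusedSectionVars false

open NumberField IsDedekindDomain MeasureTheory Set
open CM27 CMT CF
open scoped ComplexConjugate Classical

namespace NAB

namespace GenAux

section
variable (K : Type) [Field K] [NumberField K]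

theorem rank_one (h4 : Module.finrank ℚ K = 4) (hc : ∀ φ : K →+* ℂ, ¬ ComplexEmbedding.IsReal φ) :
    Units.rank K = 1 := by
  have h1 : InfinitePlace.nrRealPlaces K = 0 := by
    rw [InfinitePlace.nrRealPlaces, Fintype.card_eq_zero_iff]
    refine ⟨fun v => ?_⟩
    obtain ⟨φ, hφ, -⟩ := v.2
    exact hc φ hφ
  have h2 := InfinitePlace.card_add_two_mul_card_eq_rank K
  have h3 := InfinitePlace.card_eq_nrRealPlaces_add_nrComplexPlaces K
  rw [Units.rank]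
  omega

theorem exists_fund (h : Units.rank K = 1) : ∃ η : (𝓞 K)ˣ, η ∉ Units.torsion K ∧
    ∀ x : (𝓞 K)ˣ, ∃ ζ ∈ Units.torsion K, ∃ k : ℤ, x = ζ * η ^ k := by
  have hlt : 0 < Units.rank K := by omega
  have : Unique (Fin (Units.rank K)) := by
    rw [h]
    infer_instance
  refine ⟨Units.fundSystem K default, ?_, fun x => ?_⟩
  · intro ht
    obtain ⟨p, -, hp⟩ := Units.exist_unique_eq_mul_prod K (Units.fundSystem K default)
    have h1 := hp (⟨Units.fundSystem K default, ht⟩, 0) (by simp)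
    have h2 := hp (1, fun _ => 1) (by simp)
    have h3 := congrArg (fun q => q.2 default) (h1.trans h2.symm)
    simp at h3
  · obtain ⟨p, hp, -⟩ := Units.exist_unique_eq_mul_prod K x
    refine ⟨p.1, p.1.2, p.2 default, ?_⟩
    simpa [Fintype.prod_unique] using hp

theorem cyclic_quot (h : Units.rank K = 1) : IsCyclic ((𝓞 K)ˣ ⧸ Units.torsion K) := by
  obtain ⟨η, -, hη⟩ := exists_fund K h
  refine ⟨⟨(η : (𝓞 K)ˣ ⧸ Units.torsion K), fun x => ?_⟩⟩
  obtain ⟨x, rfl⟩ := QuotientGroup.mk_surjective x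
  obtain ⟨ζ, hζ, k, hk⟩ := hη x
  refine ⟨k, ?_⟩
  change (η : (𝓞 K)ˣ ⧸ Units.torsion K) ^ k = (x : (𝓞 K)ˣ ⧸ Units.torsion K)
  rw [hk, QuotientGroup.mk_mul, QuotientGroup.mk_zpow, (QuotientGroup.eq_one_iff ζ).2 hζ]
  exact (one_mul ((η : (𝓞 K)ˣ ⧸ Units.torsion K) ^ k)).symm

theorem exists_not_torsion (h : Units.rank K = 1) : ∃ x : (𝓞 K)ˣ, x ∉ Units.torsion K := by
  obtain ⟨η, hη, -⟩ := exists_fund K h
  exact ⟨η, hη⟩

/-- the units congruent to 1 mod m -/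
noncomputable def UM (m : 𝓞 K) : Subgroup (𝓞 K)ˣ :=
  (_root_.Units.map (Ideal.Quotient.mk (Ideal.span {m}) : 𝓞 K →* (𝓞 K ⧸ Ideal.span {m}))).ker

theorem mem_UM (m : 𝓞 K) (u : (𝓞 K)ˣ) : u ∈ UM K m ↔ m ∣ (u : 𝓞 K) - 1 := by
  rw [UM, MonoidHom.mem_ker, Units.ext_iff, Units.coe_map, Units.val_one, ← map_one
    (Ideal.Quotient.mk (Ideal.span {m}))]
  exact (Ideal.Quotient.eq).trans Ideal.mem_span_singleton

theorem exists_gen (h : Units.rank K = 1) (m : 𝓞 K) (hm0 : m ≠ 0)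
    (ht : ∀ u : (𝓞 K)ˣ, u ∈ Units.torsion K → m ∣ (u : 𝓞 K) - 1 → u = 1) :
    ∃ e : (𝓞 K)ˣ, m ∣ (e : 𝓞 K) - 1 ∧ e ∉ Units.torsion K ∧
      ∀ u : (𝓞 K)ˣ, m ∣ (u : 𝓞 K) - 1 → ∃ k : ℤ, u = e ^ k := by
  have hcyc := cyclic_quot K h
  have hU : IsCyclic (UM K m) := by
    refine isCyclic_of_injective ((QuotientGroup.mk' (Units.torsion K)).comp (UM K m).subtype) ?_
    rw [injective_iff_map_eq_one]
    intro u hu
    apply Subtype.ext
    refine ht u.1 ?_ ((mem_UM K m u.1).1 u.2)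
    exact (QuotientGroup.eq_one_iff _).1 hu
  obtain ⟨e, he⟩ := hU.exists_generator
  have hgen : ∀ u : (𝓞 K)ˣ, m ∣ (u : 𝓞 K) - 1 → ∃ k : ℤ, u = e.1 ^ k := by
    intro u hu
    obtain ⟨k, hk⟩ := Subgroup.mem_zpowers_iff.1 (he ⟨u, (mem_UM K m u).2 hu⟩)
    exact ⟨k, by rw [← Subgroup.coe_zpow, hk]⟩
  refine ⟨e.1, (mem_UM K m e.1).1 e.2, fun hte => ?_, hgen⟩
  have he1 : e.1 = 1 := ht e.1 hte ((mem_UM K m e.1).1 e.2)
  obtain ⟨x, hx⟩ := exists_not_torsion K h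
  have hfin : Finite (𝓞 K ⧸ Ideal.span {m}) := by
    apply Ideal.finiteQuotientOfFreeOfNeBot
    rw [Ne, Ideal.span_singleton_eq_bot]
    exact hm0
  set n := Nat.card (𝓞 K ⧸ Ideal.span {m})ˣ with hn
  have hn0 : 0 < n := Nat.card_pos
  have h1 : x ^ n ∈ UM K m := by
    rw [UM, MonoidHom.mem_ker, map_pow, hn, pow_card_eq_one']
  obtain ⟨k, hk⟩ := hgen (x ^ n) ((mem_UM K m _).1 h1)
  rw [he1, one_zpow] at hk
  apply hx
  rw [Units.torsion, CommGroup.mem_torsion, isOfFinOrder_iff_pow_eq_one]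
  exact ⟨n, hn0, hk⟩

/-- a root of unity congruent to `1` modulo `3` is `1` -/
theorem torsion_eq_one (m : 𝓞 K) (h3 : (3 : 𝓞 K) ∣ m) (u : (𝓞 K)ˣ) (hu : u ∈ Units.torsion K)
    (hm : m ∣ (u : 𝓞 K) - 1) : u = 1 := by
  obtain ⟨a, ha⟩ := h3.trans hm
  by_contra hne
  have ha0 : a ≠ 0 := by
    rintro rfl
    apply hne
    rw [mul_zero, sub_eq_zero] at ha
    exact Units.ext ha
  have hlt : ∀ v : InfinitePlace K, v (a : K) < 1 := by
    intro v
    have h1 : v ((u : 𝓞 K) : K) = 1 := (Units.mem_torsion K).1 hu v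
    have h2 : v (((u : 𝓞 K) : K) - 1) ≤ 2 := by
      calc v (((u : 𝓞 K) : K) - 1) ≤ v ((u : 𝓞 K) : K) + v 1 := by
            rw [← InfinitePlace.norm_embedding_eq, ← InfinitePlace.norm_embedding_eq,
              ← InfinitePlace.norm_embedding_eq, map_sub]
            exact norm_sub_le _ _
        _ = 2 := by rw [h1, map_one]; norm_num
    have h3 : ((u : 𝓞 K) : K) - 1 = 3 * (a : K) := by
      have h5 := congrArg (algebraMap (𝓞 K) K) ha
      rw [map_sub, map_one, map_mul, map_ofNat] at h5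
      exact h5
    rw [h3, map_mul] at h2
    have h4 : v (3 : K) = 3 := by
      rw [← InfinitePlace.norm_embedding_eq v (3 : K), map_ofNat]
      norm_num
    rw [h4] at h2
    linarith
  obtain ⟨v⟩ : Nonempty (InfinitePlace K) := inferInstance
  exact absurd (InfinitePlace.one_le_of_lt_one (w := v) ha0 (fun z _ => hlt z)) (not_le.2 (hlt v))

end

end GenAux

theorem exists_gen (F : IntermediateField ℚ ℂ) [NumberField F] (hw : w ∈ F)
    (h4 : Module.finrank ℚ F = 4) (s2 : F →+* ℂ) (hs : IsS2 F hw s2) (m : 𝓞 F) (hm0 : m ≠ 0)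
    (h3 : (3 : 𝓞 F) ∣ m) : ∃ e : (𝓞 F)ˣ, IsGen F s2 m e := by
  -- `F` is totally complex
  have hw2 : (⟨w, hw⟩ : F) ^ 2 + ⟨w, hw⟩ + 1 = 0 := by
    apply Subtype.ext
    change w ^ 2 + w + 1 = 0
    linear_combination w_sq
  have hcx : ∀ φ : F →+* ℂ, ¬ ComplexEmbedding.IsReal φ := by
    intro φ hφ
    have h1 : (φ ⟨w, hw⟩) ^ 2 + φ ⟨w, hw⟩ + 1 = 0 := by
      rw [← map_pow, ← map_add, ← map_one φ, ← map_add, hw2, map_zero]
    have h2 : conj (φ ⟨w, hw⟩) = φ ⟨w, hw⟩ := by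
      have := RingHom.congr_fun hφ (⟨w, hw⟩ : F)
      simpa using this
    obtain ⟨r, hr⟩ := Complex.conj_eq_iff_real.1 h2
    rw [hr] at h1
    have h3 : r ^ 2 + r + 1 = 0 := by exact_mod_cast h1
    nlinarith [sq_nonneg (r + 1 / 2)]
  have hrank := GenAux.rank_one F h4 hcx
  obtain ⟨e, he1, he2, he3⟩ := GenAux.exists_gen F hrank m hm0
    (fun u hu hm => GenAux.torsion_eq_one F m h3 u hu hm)
  -- the norm of a unit congruent to `1`
  have hnorm : ∀ u : (𝓞 F)ˣ, m ∣ (u : 𝓞 F) - 1 →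
      (((u : 𝓞 F) : F) : ℂ) * s2 ((u : 𝓞 F) : F) = 1 := by
    intro u hu
    have h5 : (3 : 𝓞 F) ∣ (u : 𝓞 F) - eF F hw 1 := by
      rw [map_one]
      exact h3.trans hu
    rw [← s2_psi F hw h4 s2 hs (u : 𝓞 F) 1 (by simp) h5]
    have h6 : Ideal.span {(u : 𝓞 F)} = 1 := by
      rw [Ideal.one_eq_top, Ideal.span_singleton_eq_top]
      exact u.isUnit
    rw [h6, psi, cm_one, map_one]
  have hne : ‖(((e : 𝓞 F) : F) : ℂ)‖ ≠ 1 := by
    intro h5
    apply he2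
    have h6 : ‖s2 ((e : 𝓞 F) : F)‖ = 1 := by
      have := congrArg (fun z => ‖z‖) (hnorm e he1)
      simp only [norm_mul, norm_one] at this
      rwa [h5, one_mul] at this
    rw [NumberField.Units.mem_torsion]
    intro v
    rw [← InfinitePlace.norm_embedding_eq]
    rcases s2_all F hw h4 s2 hs v.embedding ((e : 𝓞 F) : F) with h7 | h7
    · exact h7.trans h5
    · exact h7.trans h6
  rcases lt_or_gt_of_ne hne with h5 | h5
  · have hcong : m ∣ ((e⁻¹ : (𝓞 F)ˣ) : 𝓞 F) - 1 := by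
      obtain ⟨k, hk⟩ := he1
      refine ⟨-(k * ((e⁻¹ : (𝓞 F)ˣ) : 𝓞 F)), ?_⟩
      have h6 : (e : 𝓞 F) * ((e⁻¹ : (𝓞 F)ˣ) : 𝓞 F) = 1 := e.mul_inv
      linear_combination (-((e⁻¹ : (𝓞 F)ˣ) : 𝓞 F)) * hk + h6
    refine ⟨e⁻¹, hcong, ?_, hnorm _ hcong, ?_⟩
    · have h6 : (((e : 𝓞 F) : F) : ℂ) * ((((e⁻¹ : (𝓞 F)ˣ) : 𝓞 F) : F) : ℂ) = 1 := by
        have h7 : (e : 𝓞 F) * ((e⁻¹ : (𝓞 F)ˣ) : 𝓞 F) = 1 := e.mul_inv
        have h8 := congrArg (fun z : 𝓞 F => ((z : F) : ℂ)) h7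
        simpa using h8
      have h7 := congrArg (fun z => ‖z‖) h6
      simp only [norm_mul, norm_one] at h7
      have h8 : 0 < ‖(((e : 𝓞 F) : F) : ℂ)‖ := by
        rw [norm_pos_iff]
        rintro h9
        rw [h9, zero_mul] at h6
        exact zero_ne_one h6
      by_contra hcon
      push Not at hcon
      nlinarith [norm_nonneg ((((e⁻¹ : (𝓞 F)ˣ) : 𝓞 F) : F) : ℂ)]
    · intro u hu
      obtain ⟨k, hk⟩ := he3 u hu
      exact ⟨-k, by rw [hk, inv_zpow, zpow_neg, inv_inv]⟩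
  · exact ⟨e, he1, h5, hnorm e he1, he3⟩

end NAB
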