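import Pool.Agent.MP_9ab903_nt.NAB.B0

/-! ## [NAB-B3a] integral basis `1, θ` over `ℤ[ω]` and the discriminant

`𝓞 F` is a finitely generated torsion free module over the PID `ℤ[ω]` (`eis_pid`; via `eF F hw`), of rank 2; `1` is primitive:
`b g ∈ ℤ[ω]`, `b ≠ 0`, implies `g ∈ ℚ(ω) ∩ 𝓞 F = ℤ[ω]`; so `𝓞 F / ℤ[ω]` is torsion free of rank 1, hence free:
`𝓞 F = ℤ[ω] + ℤ[ω] θ`. `δ = s2 θ - θ ≠ 0` (else `s2` is the inclusion). `δ² = (θ + s2 θ)² - 4 θ s2 θ` is in `emb Eis` (both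
symmetric functions are integral and in `ℚ(ω)`; cf. `s2_eis`). `discr F = det (σ_i (b_j))²` for the ℤ-basis `1, ω, θ, ωθ` and the
embeddings `id, s2, conj, conj ∘ s2` (`NumberField.discr_eq_discr`, `Algebra.discr_eq_det_embeddingsMatrixReindex_pow_two`):
`= (w - conj w)^4 (δ conj δ)^2 = 9 ‖δ‖^4`. -/

set_option autoImplicit false

open NumberField IsDedekindDomain MeasureTheory Set
open CM27 CMT CF
open scoped ComplexConjugate Classical

namespace NAB

section b3a_aux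
variable (F : IntermediateField ℚ ℂ)

/-- an integer of `F` which is a quotient of Eisenstein integers is an Eisenstein integer -/
theorem b3a_eis_of_quot (g : 𝓞 F) (a b : Eis) (hb : b ≠ 0)
    (h : emb b * (((g : 𝓞 F) : F) : ℂ) = emb a) : ∃ c : Eis, emb c = ((g : F) : ℂ) := by
  have hb' : emb b ≠ 0 := by
    intro h0
    apply hb
    exact emb_injective (by rw [h0, map_zero])
  have hg : ((g : F) : ℂ) ∈ KK := by
    have h1 : ((g : F) : ℂ) = emb a / emb b := by
      field_simp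
      linear_combination h
    rw [h1]
    exact div_mem (d2_emb_mem a) (d2_emb_mem b)
  have hint : IsIntegral ℤ ((g : F) : ℂ) := by
    have h1 : IsIntegral ℤ (g : F) := g.isIntegral_coe
    exact h1.map (F.val.restrictScalars ℤ)
  have hint' : IsIntegral ℤ (⟨_, hg⟩ : KK) :=
    (isIntegral_algebraMap_iff (B := ℂ) (algebraMap KK ℂ).injective).1 hint
  obtain ⟨φ, hφ⟩ := exists_KK
  set y : 𝓞 KK := ⟨⟨_, hg⟩, hint'⟩ with hy
  refine ⟨φ.symm y, ?_⟩
  rw [← hφ, RingEquiv.apply_symm_apply]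
  rfl

end b3a_aux

variable (F : IntermediateField ℚ ℂ) [NumberField F] (hw : w ∈ F)
  (h4 : Module.finrank ℚ F = 4) (s2 : F →+* ℂ) (hs : IsS2 F hw s2)

omit [NumberField F] in
include hs in
theorem b3a_s2_emb (a : Eis) : s2 ((eF F hw a : 𝓞 F) : F) = emb a := by
  have h1 : ((eF F hw a : 𝓞 F) : F) = (a.re : F) + (a.im : F) * ⟨w, hw⟩ := by
    apply Subtype.ext
    change emb a = _
    rw [emb_apply]
    push_cast
    rfl
  rw [h1, map_add, map_mul, hs.fix, map_intCast, map_intCast, emb_apply]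

include h4

/-- `𝓞 F = ℤ[ω] + ℤ[ω] θ` -/
theorem b3a_basis : ∃ θ : 𝓞 F, ∀ g : 𝓞 F, ∃ a b : Eis, g = eF F hw a + eF F hw b * θ := by
  haveI := eis_isDomain
  haveI := eis_pid
  letI : Algebra Eis (𝓞 F) := (eF F hw).toAlgebra
  have hsm : ∀ (a : Eis) (g : 𝓞 F), a • g = eF F hw a * g := fun a g => rfl
  have hinj : Function.Injective (eF F hw) := by
    intro a b hab
    apply emb_injective
    exact congrArg (fun x : 𝓞 F => ((x : F) : ℂ)) hab
  haveI : IsScalarTower ℤ Eis (𝓞 F) := by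
    refine ⟨fun n a g => ?_⟩
    rw [hsm, hsm, map_zsmul, smul_mul_assoc]
  haveI : Module.Finite Eis (𝓞 F) := Module.Finite.of_restrictScalars_finite ℤ Eis (𝓞 F)
  haveI : Module.IsTorsionFree Eis (𝓞 F) := by
    exact Module.isTorsionFree_iff_algebraMap_injective.2 hinj
  haveI : Module.Free Eis (𝓞 F) := Module.free_of_finite_type_torsion_free'
  have hrk : Module.finrank Eis (𝓞 F) = 2 := by
    have h1 := Module.finrank_mul_finrank ℤ Eis (𝓞 F)
    rw [QuadraticAlgebra.finrank_eq_two, RingOfIntegers.rank, h4] at h1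
    omega
  set N : Submodule Eis (𝓞 F) := Submodule.span Eis {(1 : 𝓞 F)} with hN
  have hN1 : Module.finrank Eis N = 1 := by
    rw [← (LinearEquiv.toSpanNonzeroSingleton Eis (𝓞 F) 1 one_ne_zero).finrank_eq,
      Module.finrank_self]
  have hmem : ∀ g : 𝓞 F, g ∈ N ↔ ∃ a : Eis, g = eF F hw a := by
    intro g
    rw [hN, Submodule.mem_span_singleton]
    constructor
    · rintro ⟨a, ha⟩
      exact ⟨a, by rw [← ha, hsm, mul_one]⟩
    · rintro ⟨a, ha⟩
      exact ⟨a, by rw [ha, hsm, mul_one]⟩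
  haveI : Module.IsTorsionFree Eis (𝓞 F ⧸ N) := by
    refine Module.IsTorsionFree.of_smul_eq_zero ?_
    intro b q hq
    by_cases hb : b = 0
    · exact Or.inl hb
    right
    obtain ⟨g, rfl⟩ := Submodule.mkQ_surjective N q
    rw [← map_smul, Submodule.mkQ_apply, Submodule.Quotient.mk_eq_zero, hmem] at hq
    obtain ⟨a, ha⟩ := hq
    rw [Submodule.mkQ_apply, Submodule.Quotient.mk_eq_zero, hmem]
    have h1 : emb b * (((g : 𝓞 F) : F) : ℂ) = emb a := by
      rw [hsm] at ha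
      exact congrArg (fun x : 𝓞 F => ((x : F) : ℂ)) ha
    obtain ⟨c, hc⟩ := b3a_eis_of_quot F g a b hb h1
    refine ⟨c, ?_⟩
    ext
    exact hc.symm
  haveI : Module.Free Eis (𝓞 F ⧸ N) := Module.free_of_finite_type_torsion_free'
  have hq1 : Module.finrank Eis (𝓞 F ⧸ N) = 1 := by
    have h1 := Submodule.finrank_quotient_add_finrank N
    omega
  rw [finrank_eq_one_iff'] at hq1
  obtain ⟨q, -, hq⟩ := hq1
  obtain ⟨θ, rfl⟩ := Submodule.mkQ_surjective N q
  refine ⟨θ, fun g => ?_⟩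
  obtain ⟨b, hb⟩ := hq (N.mkQ g)
  rw [← map_smul, Submodule.mkQ_apply, Submodule.mkQ_apply, eq_comm, Submodule.Quotient.eq,
    hmem] at hb
  obtain ⟨a, ha⟩ := hb
  refine ⟨a, b, ?_⟩
  rw [← ha, hsm]
  ring

include hs
theorem exists_del : ∃ δ : ℂ, IsDel F hw s2 δ := by
  obtain ⟨θ, hθ⟩ := b3a_basis F hw h4
  refine ⟨s2 (θ : F) - (θ : ℂ), ?_, θ, rfl, hθ⟩
  intro h0
  rw [sub_eq_zero] at h0
  obtain ⟨x, hx⟩ := hs.ne
  apply hx
  have hint : ∀ g : 𝓞 F, s2 (g : F) = (g : ℂ) := by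
    intro g
    obtain ⟨a, b, hab⟩ := hθ g
    rw [hab]
    have h1 : ((eF F hw a + eF F hw b * θ : 𝓞 F) : F) =
      ((eF F hw a : 𝓞 F) : F) + ((eF F hw b : 𝓞 F) : F) * (θ : F) := by
        simp only [map_add, map_mul]
    rw [h1, map_add, map_mul, b3a_s2_emb F hw s2 hs, b3a_s2_emb F hw s2 hs, h0]
    rfl
  obtain ⟨a, b, hb, rfl⟩ := IsFractionRing.div_surjective (A := 𝓞 F) x
  have e1 : s2 (algebraMap (𝓞 F) F a) = ((algebraMap (𝓞 F) F a : F) : ℂ) := hint a
  have e2 : s2 (algebraMap (𝓞 F) F b) = ((algebraMap (𝓞 F) F b : F) : ℂ) := hint b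
  rw [map_div₀, e1, e2]
  push_cast
  rfl

omit hs in
omit h4 [NumberField F] in
theorem b3a_eF (a : Eis) : eF F hw a = (a.re : 𝓞 F) + (a.im : 𝓞 F) * eF F hw ⟨0, 1⟩ := by
  rw [← map_intCast (eF F hw), ← map_intCast (eF F hw), ← map_mul, ← map_add]
  congr 1
  ext <;> simp

omit h4 in
/-- the integral basis `1, ω, θ, ωθ` -/
theorem b3a_int_basis (θ : 𝓞 F) (hne : s2 (θ : F) - (θ : ℂ) ≠ 0)
    (hθ : ∀ g : 𝓞 F, ∃ a b : Eis, g = eF F hw a + eF F hw b * θ) :
    ∃ b : Module.Basis (Fin 4) ℤ (𝓞 F), b 0 = 1 ∧ b 1 = eF F hw ⟨0, 1⟩ ∧ b 2 = θ ∧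
      b 3 = eF F hw ⟨0, 1⟩ * θ := by
  set v : Fin 4 → 𝓞 F := ![1, eF F hw ⟨0, 1⟩, θ, eF F hw ⟨0, 1⟩ * θ] with hv
  have hsum : ∀ c : Fin 4 → ℤ, ∑ i, c i • v i =
      eF F hw ⟨c 0, c 1⟩ + eF F hw ⟨c 2, c 3⟩ * θ := by
    intro c
    rw [b3a_eF F hw ⟨c 0, c 1⟩, b3a_eF F hw ⟨c 2, c 3⟩, Fin.sum_univ_four]
    simp only [hv, Matrix.cons_val_zero, Matrix.cons_val_one, Matrix.cons_val, zsmul_eq_mul]
    ring
  have hli : LinearIndependent ℤ v := by
    rw [Fintype.linearIndependent_iff]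
    intro c hc
    rw [hsum] at hc
    have h1 : emb ⟨c 0, c 1⟩ + emb ⟨c 2, c 3⟩ * ((θ : F) : ℂ) = 0 := by
      exact congrArg (fun x : 𝓞 F => ((x : F) : ℂ)) hc
    have h2 : emb ⟨c 0, c 1⟩ + emb ⟨c 2, c 3⟩ * s2 (θ : F) = 0 := by
      have h3 := congrArg (fun x : 𝓞 F => s2 (x : F)) hc
      simp only [map_add, map_mul, b3a_s2_emb F hw s2 hs, map_zero] at h3
      exact h3
    have h3 : emb ⟨c 2, c 3⟩ * (s2 (θ : F) - (θ : ℂ)) = 0 := by linear_combination h2 - h1
    have h5 : emb ⟨c 2, c 3⟩ = 0 := (mul_eq_zero.1 h3).resolve_right hne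
    have h6 : emb ⟨c 0, c 1⟩ = 0 := by rw [h5, zero_mul, add_zero] at h1; exact h1
    have h7 : (⟨c 2, c 3⟩ : Eis) = 0 := emb_injective (by rw [h5, map_zero])
    have h8 : (⟨c 0, c 1⟩ : Eis) = 0 := emb_injective (by rw [h6, map_zero])
    have e0 := congrArg QuadraticAlgebra.re h8
    have e1 := congrArg QuadraticAlgebra.im h8
    have e2 := congrArg QuadraticAlgebra.re h7
    have e3 := congrArg QuadraticAlgebra.im h7
    intro i
    fin_cases i
    · exact e0
    · exact e1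
    · exact e2
    · exact e3
  have hsp : ⊤ ≤ Submodule.span ℤ (Set.range v) := by
    intro g _
    obtain ⟨a, b, hab⟩ := hθ g
    rw [Submodule.mem_span_range_iff_exists_fun]
    refine ⟨![a.re, a.im, b.re, b.im], ?_⟩
    rw [hsum, hab]
    rfl
  refine ⟨Module.Basis.mk hli hsp, ?_, ?_, ?_, ?_⟩ <;> rw [Module.Basis.mk_apply] <;> rfl

omit hs h4 in
theorem b3a_det (x y t s t' s' : ℂ) :
    (!![1, 1, 1, 1; x, x, y, y; t, s, t', s'; x * t, x * s, y * t', y * s'] :
      Matrix (Fin 4) (Fin 4) ℂ).det = -((x - y) ^ 2 * (s - t) * (s' - t')) := by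
  have e1 : (Fin.succAbove (1 : Fin 4) (2 : Fin 3)) = 3 := rfl
  have e2 : (Fin.succAbove (2 : Fin 4) (2 : Fin 3)) = 3 := rfl
  have e3 : (Fin.succAbove (3 : Fin 4) (2 : Fin 3)) = 2 := rfl
  simp [Matrix.det_succ_row_zero, Fin.sum_univ_succ, e1, e2, e3]
  ring

theorem del_disc (δ : ℂ) (hδ : IsDel F hw s2 δ) :
    (NumberField.discr F : ℝ) = 9 * ‖δ‖ ^ 4 ∧ ∃ a : Eis, emb a = δ ^ 2 := by
  obtain ⟨hδ0, θ, hδθ, hθ⟩ := hδ
  refine ⟨?_, ?_⟩
  · obtain ⟨b, hb0, hb1, hb2, hb3⟩ := b3a_int_basis F hw s2 hs θ (by rw [← hδθ]; exact hδ0) hθ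
    -- the four embeddings
    let σ : Fin 4 → (F →ₐ[ℚ] ℂ) := ![F.val, s2.toRatAlgHom,
      ((starRingEnd ℂ).comp (algebraMap F ℂ)).toRatAlgHom,
      ((starRingEnd ℂ).comp s2).toRatAlgHom]
    have hwc : (starRingEnd ℂ) w ≠ w := by
      intro h
      have h1 := congrArg Complex.im h
      rw [Complex.conj_im, w_im] at h1
      have h3 : 0 < √3 := by positivity
      linarith
    have s0 : ∀ x : F, σ 0 x = (x : ℂ) := fun x => rfl
    have s1 : ∀ x : F, σ 1 x = s2 x := fun x => rfl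
    have s2' : ∀ x : F, σ 2 x = (starRingEnd ℂ) (x : ℂ) := fun x => rfl
    have s3 : ∀ x : F, σ 3 x = (starRingEnd ℂ) (s2 x) := fun x => rfl
    have hθne : s2 (θ : F) ≠ ((θ : F) : ℂ) := by
      intro h
      rw [hδθ, h, sub_self] at hδ0
      exact hδ0 rfl
    have hinj : Function.Injective σ := by
      have k01 : σ 0 ≠ σ 1 := by
        intro h
        have h1 := congrArg (fun φ : F →ₐ[ℚ] ℂ => φ (θ : F)) h
        simp only [s0, s1] at h1
        exact hθne h1.symm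
      have k23 : σ 2 ≠ σ 3 := by
        intro h
        have h1 := congrArg (fun φ : F →ₐ[ℚ] ℂ => φ (θ : F)) h
        simp only [s2', s3] at h1
        exact hθne ((starRingEnd ℂ).injective h1).symm
      have k02 : σ 0 ≠ σ 2 := by
        intro h
        have h1 := congrArg (fun φ : F →ₐ[ℚ] ℂ => φ ⟨w, hw⟩) h
        simp only [s0, s2'] at h1
        exact hwc h1.symm
      have k03 : σ 0 ≠ σ 3 := by
        intro h
        have h1 := congrArg (fun φ : F →ₐ[ℚ] ℂ => φ ⟨w, hw⟩) h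
        simp only [s0, s3, hs.fix] at h1
        exact hwc h1.symm
      have k12 : σ 1 ≠ σ 2 := by
        intro h
        have h1 := congrArg (fun φ : F →ₐ[ℚ] ℂ => φ ⟨w, hw⟩) h
        simp only [s1, s2', hs.fix] at h1
        exact hwc h1.symm
      have k13 : σ 1 ≠ σ 3 := by
        intro h
        have h1 := congrArg (fun φ : F →ₐ[ℚ] ℂ => φ ⟨w, hw⟩) h
        simp only [s1, s3, hs.fix] at h1
        exact hwc h1.symm
      intro i j hij
      fin_cases i <;> fin_cases j <;> first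
        | rfl
        | exact absurd hij k01 | exact absurd hij k02 | exact absurd hij k03
        | exact absurd hij k12 | exact absurd hij k13 | exact absurd hij k23
        | exact absurd hij k01.symm | exact absurd hij k02.symm | exact absurd hij k03.symm
        | exact absurd hij k12.symm | exact absurd hij k13.symm | exact absurd hij k23.symm
    have hbij : Function.Bijective σ := by
      rw [Fintype.bijective_iff_injective_and_card]
      refine ⟨hinj, ?_⟩
      rw [AlgHom.card, h4, Fintype.card_fin]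
    let e : Fin 4 ≃ (F →ₐ[ℚ] ℂ) := Equiv.ofBijective σ hbij
    have he : ∀ j, e j = σ j := fun j => rfl
    have h1 : Algebra.discr ℚ (fun i => ((b i : 𝓞 F) : F)) = (NumberField.discr F : ℚ) := by
      rw [← NumberField.discr_eq_discr F b]
      have h2 := Algebra.discr_localizationLocalization ℤ (nonZeroDivisors ℤ) F (Rₘ := ℚ) b
      rw [eq_intCast] at h2
      rw [← h2]
      congr 1
      funext i
      rw [Module.Basis.localizationLocalization_apply]
    have h2 := Algebra.discr_eq_det_embeddingsMatrixReindex_pow_two ℚ ℂ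
      (fun i => ((b i : 𝓞 F) : F)) e
    rw [h1] at h2
    have hmat : Algebra.embeddingsMatrixReindex ℚ ℂ (fun i => ((b i : 𝓞 F) : F)) e =
        !![1, 1, 1, 1; w, w, conj w, conj w;
          ((θ : F) : ℂ), s2 (θ : F), conj ((θ : F) : ℂ), conj (s2 (θ : F));
          w * ((θ : F) : ℂ), w * s2 (θ : F), conj w * conj ((θ : F) : ℂ),
            conj w * conj (s2 (θ : F))] := by
      have hω : ((eF F hw ⟨0, 1⟩ : 𝓞 F) : F) = ⟨w, hw⟩ := by
        apply Subtype.ext
        change emb ⟨0, 1⟩ = w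
        rw [emb_apply]
        simp
      ext i j
      have hij : Algebra.embeddingsMatrixReindex ℚ ℂ (fun i => ((b i : 𝓞 F) : F)) e i j =
        σ j ((b i : 𝓞 F) : F) := rfl
      rw [hij]
      fin_cases i <;> fin_cases j <;>
        simp [hb0, hb1, hb2, hb3, s0, s1, s2', s3, hω, hs.fix]
    rw [hmat, b3a_det, neg_sq] at h2
    have hw3 : (w - conj w) ^ 2 = -3 := by
      have h5 : conj w = -1 - w := by
        apply Complex.ext
        · rw [Complex.conj_re, Complex.sub_re, w_re]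
          simp
          norm_num
        · rw [Complex.conj_im, Complex.sub_im]
          simp
      have h6 := w_sq
      rw [h5]
      linear_combination 4 * h6
    have h7 : conj (s2 (θ : F)) - conj ((θ : F) : ℂ) = conj δ := by rw [hδθ, map_sub]
    rw [h7, ← hδθ, hw3] at h2
    have h8 : δ * conj δ = ((‖δ‖ ^ 2 : ℝ) : ℂ) := by
      rw [Complex.mul_conj, Complex.normSq_eq_norm_sq]
    have h9 : ((NumberField.discr F : ℝ) : ℂ) = ((9 * ‖δ‖ ^ 4 : ℝ) : ℂ) := by
      have h10 : ((NumberField.discr F : ℝ) : ℂ) =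
        (algebraMap ℚ ℂ) ((NumberField.discr F : ℤ) : ℚ) := by
        rw [map_intCast]
        push_cast
        rfl
      rw [h10, h2]
      have h11 : (-3 * δ * conj δ) ^ 2 = 9 * (δ * conj δ) ^ 2 := by ring
      rw [h11, h8]
      push_cast
      ring
    exact_mod_cast h9
  · obtain ⟨a, ha⟩ := s2_eis F hw h4 s2 hs θ
    obtain ⟨a', ha'⟩ := s2_eis F hw h4 s2 hs (1 + θ)
    have h1 : (((1 + θ : 𝓞 F) : F) : ℂ) = 1 + ((θ : F) : ℂ) := rfl
    have h2 : s2 ((1 + θ : 𝓞 F) : F) = 1 + s2 (θ : F) := by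
      have h3 : ((1 + θ : 𝓞 F) : F) = 1 + (θ : F) := rfl
      rw [h3, map_add, map_one]
    rw [h1, h2] at ha'
    refine ⟨(a' - 1 - a) ^ 2 - 4 * a, ?_⟩
    rw [map_sub, map_pow, map_sub, map_sub, map_mul, map_one, map_ofNat, ha', ha, hδθ]
    ring

end NAB
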