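import Pool.Agent.MP_9ab903_nt.NAB.B2
import Pool.Agent.MP_9ab903_nt.NAB.B3a
import Pool.Agent.MP_ae0bd0_nt.CM.I1
import Pool.Agent.MP_ae0bd0_nt.CM.A1

/-! ## [NAB-B3b] coordinates of `m c` (`exists_LD`)

`w₁, w₂` a basis of the ideal `m c` over `ℤ[ω]` (a PID; free of rank 2), `l = (w₁, w₂)`, `l' = (s2 w₁, s2 w₂)`, `M` the matrix of
multiplication by `e` (`e w_j = ∑_i M_{ij} w_i`), `det M = N(e) = 1` (from `dt (l∘M) (l'∘M) = det M · dt = e e⁻¹ dt`).
`g₀ ∈ c`, `g₀ ≡ 1 mod m` (`c` prime to `m`), `{g ∈ c : g ≡ u mod m} = u g₀ + m c` (`c ∩ (m) = m c`), `x` = the coordinates of `g₀`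
(solve `lf l x = g₀, lf l' x = s2 g₀`, `dt ≠ 0`). `N g₀ ∈ m c` as `absNorm (m c) ∣ N`. `x ∉ L2`: else `g₀ ∈ m c`, `m ∣ 1`,
but `3 ∣ m`. `mv M x - x ∈ L2`: `(e - 1) g₀ ∈ m c`. With the integral basis `1, θ` (`IsDel.basis`): `w_j = a_j + b_j θ`,
`dt l l' = (a₁ b₂ - a₂ b₁) δ =: emb Δ · δ`: gives `gal`. `val`: there is an odd `n` with `n 𝓞 F ⊆ m c` (`absNorm (m c)`, odd as `m`, `c` are
prime to `2`), so `n · 1`, `n θ` are combinations of `w₁, w₂`, taking determinants `Δ ∣ n²` in `ℤ[ω]`; and `δ² = emb a`,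
`9 norm(a) = discr F` (`del_disc`) is odd; an element of `ℤ[ω]` of odd norm has valuation 1 (`emb a * conj (emb a) = norm a`, both
integral, `val_odd`); `A.valuation δ ^ 2 = 1` gives `A.valuation δ = 1`. -/

set_option autoImplicit false

open NumberField IsDedekindDomain MeasureTheory Set
open CM27 CMT CF
open scoped ComplexConjugate Classical

namespace NAB

section aux
variable (F : IntermediateField ℚ ℂ) [NumberField F] (hw : w ∈ F) (s2 : F →+* ℂ)

/-- the inclusion -/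
noncomputable def b3ci : 𝓞 F →+* ℂ := (algebraMap F ℂ).comp (algebraMap (𝓞 F) F)

/-- the second embedding -/
noncomputable def b3cs : 𝓞 F →+* ℂ := s2.comp (algebraMap (𝓞 F) F)

theorem b3ci_inj : Function.Injective (b3ci F) := by
  intro x y h
  have h1 : ((x : F) : ℂ) = ((y : F) : ℂ) := h
  exact RingOfIntegers.ext (Subtype.ext h1)

theorem b3ci_eF (a : Eis) : b3ci F (eF F hw a) = emb a := rfl

theorem b3cs_eF (hs : IsS2 F hw s2) (a : Eis) : b3cs F s2 (eF F hw a) = emb a := by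
  have h1 : ((eF F hw a : 𝓞 F) : F) = (a.re : F) + (a.im : F) * ⟨w, hw⟩ := by
    apply Subtype.ext
    push_cast
    rw [eF_apply, emb_apply]
  show s2 ((eF F hw a : 𝓞 F) : F) = emb a
  rw [h1, map_add, map_mul, map_intCast, map_intCast, hs.fix, emb_apply]

/-- uniqueness of the coordinates with respect to `1, θ` -/
theorem b3_theta_inj (hs : IsS2 F hw s2) (θ : 𝓞 F) (h : b3cs F s2 θ - b3ci F θ ≠ 0) (a b : Eis)
    (hab : eF F hw a + eF F hw b * θ = 0) : a = 0 ∧ b = 0 := by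
  have h1 : emb a + emb b * b3ci F θ = 0 := by
    have := congrArg (b3ci F) hab
    rwa [map_add, map_mul, map_zero, b3ci_eF, b3ci_eF] at this
  have h2 : emb a + emb b * b3cs F s2 θ = 0 := by
    have := congrArg (b3cs F s2) hab
    rwa [map_add, map_mul, map_zero, b3cs_eF F hw s2 hs, b3cs_eF F hw s2 hs] at this
  have h3 : emb b * (b3cs F s2 θ - b3ci F θ) = 0 := by linear_combination h2 - h1
  have h4 : emb b = 0 := by
    rcases mul_eq_zero.1 h3 with h | h'
    · exact h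
    · exact absurd h' h
  have h5 : b = 0 := emb_injective (by rw [h4, map_zero])
  have h6 : emb a = 0 := by rw [h4] at h1; linear_combination h1
  exact ⟨emb_injective (by rw [h6, map_zero]), h5⟩

/-- a basis of a nonzero ideal -/
theorem b3_basis (hs : IsS2 F hw s2) (δ : ℂ) (hδ : IsDel F hw s2 δ) (I : Ideal (𝓞 F)) (hI : I ≠ ⊥) :
    ∃ w1 w2 : 𝓞 F, w1 ∈ I ∧ w2 ∈ I ∧
      ∀ g ∈ I, ∃ a b : Eis, g = eF F hw a * w1 + eF F hw b * w2 := by
  haveI := eis_isDomain
  haveI := eis_pid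
  letI : Algebra Eis (𝓞 F) := (eF F hw).toAlgebra
  obtain ⟨θ, hθ, hg⟩ := hδ.basis
  have hsm : ∀ (a : Eis) (x : 𝓞 F), a • x = eF F hw a * x := fun a x => Algebra.smul_def a x
  let b : Module.Basis (Fin 2) Eis (𝓞 F) := Module.Basis.mk (v := ![1, θ]) (by
    rw [LinearIndependent.pair_iff]
    intro a b hab
    rw [hsm, hsm, mul_one] at hab
    exact b3_theta_inj F hw s2 hs θ (by
      have : δ = b3cs F s2 θ - b3ci F θ := hθ
      rw [← this]; exact hδ.ne) a b hab) (by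
    intro g _
    obtain ⟨a, b, hab⟩ := hg g
    rw [hab]
    have h1 : eF F hw a = a • (1 : 𝓞 F) := by rw [hsm, mul_one]
    have h2 : eF F hw b * θ = b • θ := (hsm b θ).symm
    rw [h1, h2]
    exact add_mem (Submodule.smul_mem _ _ (Submodule.subset_span ⟨0, rfl⟩))
      (Submodule.smul_mem _ _ (Submodule.subset_span ⟨1, rfl⟩)))
  let b' := Ideal.selfBasis b I hI
  refine ⟨b' 0, b' 1, (b' 0).2, (b' 1).2, ?_⟩
  intro g hgI
  refine ⟨b'.repr ⟨g, hgI⟩ 0, b'.repr ⟨g, hgI⟩ 1, ?_⟩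
  have h1 := b'.sum_repr ⟨g, hgI⟩
  rw [Fin.sum_univ_two] at h1
  have h2 := congrArg (Subtype.val) h1
  rw [← hsm, ← hsm]
  exact h2.symm

/-- an odd integer in an ideal prime to `2` -/
theorem b3_odd (I : Ideal (𝓞 F)) (hI : I ≠ ⊥) (h2 : IsCoprime I (Ideal.span {(2 : 𝓞 F)})) :
    ∃ n : ℕ, Odd n ∧ (n : 𝓞 F) ∈ I := by
  obtain ⟨i, hi, j, hj, hij⟩ := Ideal.isCoprime_iff_exists.1 h2
  obtain ⟨j', rfl⟩ := Ideal.mem_span_singleton'.1 hj
  have key : ∀ y : 𝓞 F, 2 * y ∈ I → y ∈ I := by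
    intro y hy
    have : y = i * y + j' * (2 * y) := by linear_combination (-y) * hij
    rw [this]
    exact add_mem (Ideal.mul_mem_right _ _ hi) (Ideal.mul_mem_left _ _ hy)
  have h0 : Ideal.absNorm I ≠ 0 := by
    rw [Ne, Ideal.absNorm_eq_zero_iff]
    exact hI
  obtain ⟨k, n, hn, hk⟩ := Nat.exists_eq_two_pow_mul_odd h0
  refine ⟨n, hn, ?_⟩
  have h3 : ((2 : 𝓞 F) ^ k * (n : 𝓞 F)) ∈ I := by
    have := Ideal.absNorm_mem I
    rw [hk] at this
    exact_mod_cast this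
  clear hk
  induction k with
  | zero => simpa using h3
  | succ k ih =>
    apply ih
    apply key
    rw [← mul_assoc, ← pow_succ']
    exact h3

end aux

end NAB

namespace NAB

section aux2
variable (F : IntermediateField ℚ ℂ) [NumberField F]

theorem b3_three : ¬ (3 : 𝓞 F) ∣ 1 := by
  intro h
  have h1 : IsUnit (algebraMap ℤ (𝓞 F) 3) := by
    have : algebraMap ℤ (𝓞 F) 3 = 3 := by simp
    rw [this]
    exact isUnit_of_dvd_one h
  have h2 := h1.map (Algebra.norm ℤ)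
  rw [Algebra.norm_algebraMap, Int.isUnit_iff] at h2
  have h3 : 0 < Module.finrank ℤ (𝓞 F) := by
    rw [RingOfIntegers.rank]
    exact Module.finrank_pos
  have h4 : (3 : ℤ) ^ 1 ≤ 3 ^ Module.finrank ℤ (𝓞 F) := pow_le_pow_right₀ (by norm_num) h3
  omega

theorem b3_solve (l l' : ℂ × ℂ) (hd : dt l l' ≠ 0) (g g' : ℂ) :
    ∃ x : ℂ × ℂ, lf l x = g ∧ lf l' x = g' := by
  refine ⟨((g * l'.2 - l.2 * g') / dt l l', (l.1 * g' - l'.1 * g) / dt l l'), ?_, ?_⟩
  · unfold lf
    field_simp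
    unfold dt
    ring
  · unfold lf
    field_simp
    unfold dt
    ring

theorem b3_uniq (l l' : ℂ × ℂ) (hd : dt l l' ≠ 0) (x y : ℂ × ℂ) (h1 : lf l x = lf l y)
    (h2 : lf l' x = lf l' y) : x = y := by
  unfold lf at h1 h2
  have e1 : dt l l' * (x.1 - y.1) = 0 := by
    unfold dt
    linear_combination l'.2 * h1 - l.2 * h2
  have e2 : dt l l' * (x.2 - y.2) = 0 := by
    unfold dt
    linear_combination l.1 * h2 - l'.1 * h1
  apply Prod.ext
  · rcases mul_eq_zero.1 e1 with h | h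
    · exact absurd h hd
    · exact sub_eq_zero.1 h
  · rcases mul_eq_zero.1 e2 with h | h
    · exact absurd h hd
    · exact sub_eq_zero.1 h

theorem b3_em_inj (x y : Eis × Eis) (h : em x = em y) : x = y := by
  have h1 := congrArg Prod.fst h
  have h2 := congrArg Prod.snd h
  exact Prod.ext (emb_injective h1) (emb_injective h2)

theorem b3_lf_em (l : ℂ × ℂ) (a b : Eis) : lf l (em (a, b)) = emb a * l.1 + emb b * l.2 := by
  unfold lf em
  ring

end aux2

variable (F : IntermediateField ℚ ℂ) [NumberField F] (hw : w ∈ F)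
  (h4 : Module.finrank ℚ F = 4) (s2 : F →+* ℂ) (hs : IsS2 F hw s2)
include h4 hs

theorem exists_LD (δ : ℂ) (hδ : IsDel F hw s2 δ) (hodd : ¬ (2 : ℤ) ∣ NumberField.discr F)
    (m : 𝓞 F) (hm0 : m ≠ 0) (h3 : (3 : 𝓞 F) ∣ m) (hm2 : IsCoprime m 2) (e : (𝓞 F)ˣ)
    (he : IsGen F s2 m e) (c : Ideal (𝓞 F)) (hc0 : c ≠ 0) (hcm : IsCoprime c (Ideal.span {m}))
    (hc2 : IsCoprime c (Ideal.span {(2 : 𝓞 F)})) (N : ℕ)
    (hN : Ideal.absNorm (Ideal.span {m} * c) ∣ N) : Nonempty (LD F hw s2 m e c N δ) := by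
  set I : Ideal (𝓞 F) := Ideal.span {m} * c with hI
  have hI0 : I ≠ ⊥ := by
    rw [hI, Ne, ← Ideal.zero_eq_bot, mul_eq_zero, not_or]
    refine ⟨?_, hc0⟩
    rw [Ideal.zero_eq_bot, Ideal.span_singleton_eq_bot]
    exact hm0
  have hIc : ∀ g ∈ I, g ∈ c := fun g hg => Ideal.mul_le_right hg
  have hIm : ∀ g ∈ I, m ∣ g := fun g hg => Ideal.mem_span_singleton.1 (Ideal.mul_le_left hg)
  have hI2 : IsCoprime I (Ideal.span {(2 : 𝓞 F)}) := by
    rw [hI]
    refine IsCoprime.mul_left ?_ hc2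
    rw [Ideal.isCoprime_span_singleton_iff]
    exact hm2
  obtain ⟨w1, w2, h1, h2, hb⟩ := b3_basis F hw s2 hs δ hδ I hI0
  obtain ⟨n, hn, hnI⟩ := b3_odd F I hI0 hI2
  obtain ⟨θ, hθ, hg⟩ := hδ.basis
  have hθ' : δ = b3cs F s2 θ - b3ci F θ := hθ
  have hθ0 : b3cs F s2 θ - b3ci F θ ≠ 0 := by rw [← hθ']; exact hδ.ne
  obtain ⟨a1, b1, hw1⟩ := hg w1
  obtain ⟨a2, b2, hw2⟩ := hg w2
  obtain ⟨p, q, hpq⟩ := hb n hnI
  obtain ⟨r, s, hrs⟩ := hb (n * θ) (I.mul_mem_right _ hnI)
  have hc1 := b3_theta_inj F hw s2 hs θ hθ0 (p * a1 + q * a2 - n) (p * b1 + q * b2) (by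
    simp only [map_add, map_sub, map_mul, map_natCast]
    rw [hw1, hw2] at hpq
    linear_combination -hpq)
  have hc2' := b3_theta_inj F hw s2 hs θ hθ0 (r * a1 + s * a2) (r * b1 + s * b2 - n) (by
    simp only [map_add, map_sub, map_mul, map_natCast]
    rw [hw1, hw2] at hrs
    linear_combination -hrs)
  obtain ⟨c11, c12⟩ := hc1
  obtain ⟨c21, c22⟩ := hc2'
  have hΔn : (p * s - q * r) * (a1 * b2 - a2 * b1) = (n : Eis) ^ 2 := by
    linear_combination (r * b1 + s * b2) * c11 + n * c22 - (r * a1 + s * a2) * c12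
  -- linear forms
  let l : ℂ × ℂ := (b3ci F w1, b3ci F w2)
  let l' : ℂ × ℂ := (b3cs F s2 w1, b3cs F s2 w2)
  have hdt : dt l l' = emb (a1 * b2 - a2 * b1) * δ := by
    show b3ci F w1 * b3cs F s2 w2 - b3ci F w2 * b3cs F s2 w1 = _
    rw [hw1, hw2, hθ']
    simp only [map_add, map_sub, map_mul, b3ci_eF, b3cs_eF F hw s2 hs]
    ring
  have hn0 : (n : ℂ) ≠ 0 := by
    have : n ≠ 0 := by rintro rfl; simp at hn
    exact_mod_cast this
  have hΔ0 : emb (a1 * b2 - a2 * b1) ≠ 0 := by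
    intro h0
    have := congrArg emb hΔn
    rw [map_mul, h0, mul_zero, map_pow, map_natCast] at this
    exact pow_ne_zero 2 hn0 this.symm
  have hd : dt l l' ≠ 0 := by
    rw [hdt]
    exact mul_ne_zero hΔ0 hδ.ne
  -- elements of `I`
  have hII : ∀ g ∈ I, ∃ a : Eis × Eis, lf l (em a) = b3ci F g ∧ lf l' (em a) = b3cs F s2 g := by
    intro g hg
    obtain ⟨a, b, hab⟩ := hb g hg
    refine ⟨(a, b), ?_, ?_⟩
    · rw [b3_lf_em, hab, map_add, map_mul, map_mul, b3ci_eF, b3ci_eF]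
    · rw [b3_lf_em, hab, map_add, map_mul, map_mul, b3cs_eF F hw s2 hs, b3cs_eF F hw s2 hs]
  -- the unit
  have he1 : b3ci F e * b3cs F s2 e = 1 := he.norm
  have he0 : b3ci F (e : 𝓞 F) ≠ 0 := left_ne_zero_of_mul_eq_one he1
  have he2 : b3cs F s2 (e : 𝓞 F) = (b3ci F (e : 𝓞 F))⁻¹ := eq_inv_of_mul_eq_one_right he1
  obtain ⟨M00, M10, hM1⟩ := hb (e * w1) (I.mul_mem_left _ h1)
  obtain ⟨M01, M11, hM2⟩ := hb (e * w2) (I.mul_mem_left _ h2)
  let M : Mt := !![M00, M01; M10, M11]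
  have hl : ∀ v, lf l (mv M v) = b3ci F e * lf l v := by
    intro v
    have e1 : b3ci F (e * w1) = _ := congrArg (b3ci F) hM1
    have e2 : b3ci F (e * w2) = _ := congrArg (b3ci F) hM2
    rw [map_mul, map_add, map_mul, map_mul, b3ci_eF, b3ci_eF] at e1 e2
    show b3ci F w1 * (emb M00 * v.1 + emb M01 * v.2) + b3ci F w2 * (emb M10 * v.1 + emb M11 * v.2) =
      b3ci F e * (b3ci F w1 * v.1 + b3ci F w2 * v.2)
    linear_combination (-v.1) * e1 - v.2 * e2
  have hl0 : ∀ v, lf l' (mv M v) = b3cs F s2 e * lf l' v := by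
    intro v
    have e1 : b3cs F s2 (e * w1) = _ := congrArg (b3cs F s2) hM1
    have e2 : b3cs F s2 (e * w2) = _ := congrArg (b3cs F s2) hM2
    rw [map_mul, map_add, map_mul, map_mul, b3cs_eF F hw s2 hs, b3cs_eF F hw s2 hs] at e1 e2
    show b3cs F s2 w1 * (emb M00 * v.1 + emb M01 * v.2) +
      b3cs F s2 w2 * (emb M10 * v.1 + emb M11 * v.2) =
      b3cs F s2 e * (b3cs F s2 w1 * v.1 + b3cs F s2 w2 * v.2)
    linear_combination (-v.1) * e1 - v.2 * e2
  have hl' : ∀ v, lf l' (mv M v) = (b3ci F e)⁻¹ * lf l' v := by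
    intro v
    rw [hl0, he2]
  have hM : M.det = 1 := by
    apply emb_injective
    have e1 : M.det = M00 * M11 - M01 * M10 := Matrix.det_fin_two_of _ _ _ _
    rw [e1, map_sub, map_mul, map_mul, map_one]
    have f1 := hl (1, 0)
    have f2 := hl (0, 1)
    have f3 := hl0 (1, 0)
    have f4 := hl0 (0, 1)
    simp only [lf, mv, M, Matrix.of_apply, Matrix.cons_val', Matrix.cons_val_zero,
      Matrix.cons_val_one, Matrix.cons_val_fin_one, mul_one, mul_zero, add_zero, zero_add] at f1 f2 f3 f4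
    have f5 : (emb M00 * emb M11 - emb M01 * emb M10 - 1) * dt l l' = 0 := by
      unfold dt
      have g1 : (l.1 * emb M00 + l.2 * emb M10) * (l'.1 * emb M01 + l'.2 * emb M11) -
        (l.1 * emb M01 + l.2 * emb M11) * (l'.1 * emb M00 + l'.2 * emb M10) =
        (b3ci F e * l.1) * (b3cs F s2 e * l'.2) - (b3ci F e * l.2) * (b3cs F s2 e * l'.1) := by
        rw [f1, f2, f3, f4]
      linear_combination g1 + (l.1 * l'.2 - l.2 * l'.1) * he1
    rcases mul_eq_zero.1 f5 with h | h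
    · linear_combination h
    · exact absurd h hd
  -- the base point
  obtain ⟨g0, hg0, j, hj, hgj⟩ := Ideal.isCoprime_iff_exists.1 hcm
  have hj' : m ∣ j := Ideal.mem_span_singleton.1 hj
  have hg1 : m ∣ g0 - 1 := by
    have : g0 - 1 = -j := by linear_combination hgj
    rw [this]
    exact (dvd_neg).2 hj'
  obtain ⟨x, hx1, hx2⟩ := b3_solve l l' hd (b3ci F g0) (b3cs F s2 g0)
  have hmul : ∀ (a : ℂ) (v y : ℂ × ℂ), lf v (a * y.1, a * y.2) = a * lf v y := by
    intro a v y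
    unfold lf
    ring
  have hadd : ∀ v y z : ℂ × ℂ, lf v (y + z) = lf v y + lf v z := by
    intro v y z
    simp only [lf, Prod.fst_add, Prod.snd_add]
    ring
  have hsub : ∀ v y z : ℂ × ℂ, lf v (y - z) = lf v y - lf v z := by
    intro v y z
    simp only [lf, Prod.fst_sub, Prod.snd_sub]
    ring
  have hx : (emb (N : Eis) * x.1, emb (N : Eis) * x.2) ∈ L2 := by
    have hNI : (N : 𝓞 F) * g0 ∈ I := by
      refine I.mul_mem_right _ ?_
      obtain ⟨k, hk⟩ := hN
      rw [hk, Nat.cast_mul]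
      exact I.mul_mem_right _ (Ideal.absNorm_mem I)
    obtain ⟨a, ha1, ha2⟩ := hII _ hNI
    refine ⟨a, b3_uniq l l' hd _ _ ?_ ?_⟩
    · rw [hmul, ha1, hx1, map_mul, map_natCast, map_natCast]
    · rw [hmul, ha2, hx2, map_mul, map_natCast, map_natCast]
  have hx0 : x ∉ L2 := by
    rintro ⟨a, ha⟩
    have hcg : b3ci F g0 = b3ci F (eF F hw a.1 * w1 + eF F hw a.2 * w2) := by
      rw [← hx1, ← ha, map_add, map_mul, map_mul, b3ci_eF, b3ci_eF]
      exact b3_lf_em l a.1 a.2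
    have hg0I : g0 ∈ I := by
      rw [b3ci_inj F hcg]
      exact add_mem (I.mul_mem_left _ h1) (I.mul_mem_left _ h2)
    have hm1 : m ∣ 1 := by
      have : (1 : 𝓞 F) = g0 - (g0 - 1) := by ring
      rw [this]
      exact dvd_sub (hIm _ hg0I) hg1
    exact b3_three F (h3.trans hm1)
  have hMx : mv M x - x ∈ L2 := by
    have hNI : ((e : 𝓞 F) - 1) * g0 ∈ I := by
      rw [hI]
      exact Ideal.mul_mem_mul (Ideal.mem_span_singleton.2 he.cong) hg0
    obtain ⟨a, ha1, ha2⟩ := hII _ hNI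
    refine ⟨a, b3_uniq l l' hd _ _ ?_ ?_⟩
    · rw [hsub, hl, ha1, hx1, map_mul, map_sub, map_one]
      ring
    · rw [hsub, hl0, ha2, hx2, map_mul, map_sub, map_one]
      ring
  refine ⟨{ l := l, l' := l', M := M, x := x, hd := hd, hM := hM, hl := hl, hl' := hl', hx := hx,
            hx0 := hx0, hMx := hMx, bij := ?_, val := ?_, gal := ?_ }⟩
  · intro u
    let f : Eis × Eis → {g : 𝓞 F // g ∈ c ∧ m ∣ g - eF F hw u} := fun n =>
      ⟨eF F hw u * g0 + (eF F hw n.1 * w1 + eF F hw n.2 * w2), by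
        refine ⟨add_mem (c.mul_mem_left _ hg0) (hIc _ (add_mem (I.mul_mem_left _ h1)
          (I.mul_mem_left _ h2))), ?_⟩
        have : eF F hw u * g0 + (eF F hw n.1 * w1 + eF F hw n.2 * w2) - eF F hw u =
          eF F hw u * (g0 - 1) + (eF F hw n.1 * w1 + eF F hw n.2 * w2) := by ring
        rw [this]
        exact dvd_add (Dvd.dvd.mul_left hg1 _) (hIm _ (add_mem (I.mul_mem_left _ h1)
          (I.mul_mem_left _ h2)))⟩
    have hf1 : ∀ n : Eis × Eis, b3ci F (f n) = lf l ((emb u * x.1, emb u * x.2) + em n) := by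
      intro n
      rw [hadd, hmul, hx1]
      show b3ci F (eF F hw u * g0 + (eF F hw n.1 * w1 + eF F hw n.2 * w2)) = _
      rw [map_add, map_add, map_mul, map_mul, map_mul, b3ci_eF, b3ci_eF, b3ci_eF]
      have := b3_lf_em l n.1 n.2
      rw [Prod.mk.eta] at this
      rw [this]
    have hf2 : ∀ n : Eis × Eis, b3cs F s2 (f n) = lf l' ((emb u * x.1, emb u * x.2) + em n) := by
      intro n
      rw [hadd, hmul, hx2]
      show b3cs F s2 (eF F hw u * g0 + (eF F hw n.1 * w1 + eF F hw n.2 * w2)) = _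
      rw [map_add, map_add, map_mul, map_mul, map_mul, b3cs_eF F hw s2 hs, b3cs_eF F hw s2 hs,
        b3cs_eF F hw s2 hs]
      have := b3_lf_em l' n.1 n.2
      rw [Prod.mk.eta] at this
      rw [this]
    have hinj : Function.Injective f := by
      intro n n' hnn
      have e1 := hf1 n
      have e2 := hf2 n
      rw [hnn] at e1 e2
      rw [hf1] at e1
      rw [hf2] at e2
      have := b3_uniq l l' hd _ _ e1 e2
      exact (b3_em_inj _ _ (add_left_cancel this)).symm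
    have hsurj : Function.Surjective f := by
      rintro ⟨g, hgc, hgm⟩
      have hgI : g - eF F hw u * g0 ∈ I := by
        rw [hI, Ideal.mul_eq_inf_of_isCoprime hcm.symm]
        refine ⟨Ideal.mem_span_singleton.2 ?_, sub_mem hgc (c.mul_mem_left _ hg0)⟩
        have : g - eF F hw u * g0 = (g - eF F hw u) - eF F hw u * (g0 - 1) := by ring
        rw [this]
        exact dvd_sub hgm (Dvd.dvd.mul_left hg1 _)
      obtain ⟨a, b, hab⟩ := hb _ hgI
      refine ⟨(a, b), Subtype.ext ?_⟩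
      show eF F hw u * g0 + (eF F hw a * w1 + eF F hw b * w2) = g
      rw [← hab]
      ring
    exact ⟨Equiv.ofBijective f ⟨hinj, hsurj⟩, fun n => ⟨hf1 n, hf2 n⟩⟩
  · intro A hA
    rw [hdt, map_mul]
    have v1 : A.valuation (emb (a1 * b2 - a2 * b1)) = 1 := by
      have hno : A.valuation ((n : ℤ) : ℂ) = 1 := val_odd A hA n (by exact_mod_cast hn)
      have h5 := congrArg (fun z => A.valuation (emb z)) hΔn
      simp only [map_mul emb, map_mul A.valuation, map_pow] at h5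
      rw [map_natCast] at h5
      push_cast at hno
      rw [hno, one_pow] at h5
      refine le_antisymm (val_emb A _) ?_
      rw [← h5]
      calc _ ≤ 1 * A.valuation (emb (a1 * b2 - a2 * b1)) :=
            mul_le_mul_left (val_emb A _) _
        _ = _ := one_mul _
    have v2 : A.valuation δ = 1 := by
      obtain ⟨hd1, a, ha⟩ := del_disc F hw h4 s2 hs δ hδ
      have hnorm : (NumberField.discr F : ℤ) = 9 * a.norm := by
        have e1 : ‖δ‖ ^ 4 = (a.norm : ℝ) := by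
          rw [← norm_emb_sq, ha, norm_pow]
          ring
        rw [e1] at hd1
        exact_mod_cast hd1
      have hodd' : Odd a.norm := by
        rw [← Int.not_even_iff_odd, even_iff_two_dvd]
        intro h
        apply hodd
        rw [hnorm]
        exact Dvd.dvd.mul_left h 9
      have h5 := val_odd_norm A hA a hodd'
      rw [ha, map_pow] at h5
      exact (pow_eq_one_iff_of_nonneg zero_le (by norm_num)).1 h5
    rw [v1, v2, one_mul]
  · intro σ hσ
    have hσe : ∀ a : Eis, σ (emb a) = emb a := by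
      intro a
      rw [emb_apply, map_add, map_mul, map_intCast, map_intCast, hσ]
    rw [hdt, map_mul, hσe]
    ring

end NAB
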