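import Pool.Agent.MP_9ab903_nt.NAB.A1

/-! ## [NAB-B4a] the Mellin transform over the quadrant and the tiling by sectors

`mellin2`: product of two Gamma integrals (`∫_0^∞ t^{s-1} e^{-π t A} dt = Γ(s) (π A)^{-s}`: `Complex.integral_cpow_mul_exp_neg_mul_Ioi`).
`tiling`: `qd` is, up to the null set of the half lines `t₁ = r^{2k} t₂`, the disjoint union of the images of `sec r` under
`(t₁, t₂) ↦ (r^k t₁, r^{-k} t₂)`, `k ∈ ℤ` (ratio `t₁/t₂ ∈ (r^{2k}, r^{2k+2})`), Jacobian 1. -/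

set_option autoImplicit false

open MeasureTheory Set
open CM27
open scoped ComplexConjugate

namespace NAB

/-- one dimensional integrand -/
theorem b4a_int1 (A : ℝ) (hA : 0 < A) (s : ℂ) (hs : 0 < s.re) :
    IntegrableOn (fun t : ℝ => (t : ℂ) ^ (s - 1) * ((Real.exp (-(Real.pi * (t * A))) : ℝ) : ℂ))
      (Ioi 0) := by
  have h1 : IntegrableOn (fun x : ℝ => x ^ (s.re - 1) * Real.exp (-(Real.pi * A) * x ^ (1 : ℝ)))
      (Ioi 0) :=
    integrableOn_rpow_mul_exp_neg_mul_rpow (by linarith) one_pos (mul_pos Real.pi_pos hA)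
  have hcont : ContinuousOn (fun t : ℝ => (t : ℂ) ^ (s - 1)
      * ((Real.exp (-(Real.pi * (t * A))) : ℝ) : ℂ)) (Ioi 0) := by
    intro t ht
    apply ContinuousAt.continuousWithinAt
    apply ContinuousAt.mul
    · apply ContinuousAt.cpow (Complex.continuous_ofReal.continuousAt) continuousAt_const
      left
      exact ht
    · fun_prop
  apply Integrable.mono' h1 (hcont.aestronglyMeasurable measurableSet_Ioi)
  rw [ae_restrict_iff' measurableSet_Ioi]
  refine Filter.Eventually.of_forall fun t ht => ?_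
  rw [norm_mul, Complex.norm_cpow_eq_rpow_re_of_pos ht, Complex.norm_real, Real.norm_eq_abs,
    abs_of_pos (Real.exp_pos _), Complex.sub_re, Complex.one_re, Real.rpow_one]
  apply le_of_eq
  congr 2
  ring

theorem b4a_int1_val (A : ℝ) (hA : 0 < A) (s : ℂ) (hs : 0 < s.re) :
    ∫ t in Ioi (0 : ℝ), (t : ℂ) ^ (s - 1) * ((Real.exp (-(Real.pi * (t * A))) : ℝ) : ℂ) =
      Complex.Gamma s * (Real.pi : ℂ) ^ (-s) * (A : ℂ) ^ (-s) := by
  have h1 := Complex.integral_cpow_mul_exp_neg_mul_Ioi (a := s) (r := Real.pi * A) hs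
    (mul_pos Real.pi_pos hA)
  have h2 : ∫ t in Ioi (0 : ℝ), (t : ℂ) ^ (s - 1) * ((Real.exp (-(Real.pi * (t * A))) : ℝ) : ℂ) =
      ∫ t in Ioi (0 : ℝ), (t : ℂ) ^ (s - 1) * Complex.exp (-(((Real.pi * A : ℝ) : ℂ) * t)) := by
    apply setIntegral_congr_fun measurableSet_Ioi
    intro t _
    simp only
    congr 1
    rw [Complex.ofReal_exp]
    congr 1
    push_cast
    ring
  rw [h2, h1]
  have h3 : (1 / ((Real.pi * A : ℝ) : ℂ)) ^ s = (Real.pi : ℂ) ^ (-s) * (A : ℂ) ^ (-s) := by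
    rw [one_div, Complex.inv_cpow _ _ (by
      rw [Complex.arg_ofReal_of_nonneg (mul_pos Real.pi_pos hA).le]
      exact Real.pi_pos.ne), ← Complex.cpow_neg, Complex.ofReal_mul,
      Complex.mul_cpow_ofReal_nonneg Real.pi_pos.le hA.le]
  rw [h3]
  ring

theorem b4a_split (A B : ℝ) (s : ℂ) {t : ℝ × ℝ} (ht : t ∈ qd) :
    ((t.1 * t.2 : ℝ) : ℂ) ^ (s - 1) * ((Real.exp (-(Real.pi * (t.1 * A + t.2 * B))) : ℝ) : ℂ) =
    ((t.1 : ℂ) ^ (s - 1) * ((Real.exp (-(Real.pi * (t.1 * A))) : ℝ) : ℂ)) *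
    ((t.2 : ℂ) ^ (s - 1) * ((Real.exp (-(Real.pi * (t.2 * B))) : ℝ) : ℂ)) := by
  have h1 : 0 < t.1 := ht.1
  have h2 : 0 < t.2 := ht.2
  rw [Complex.ofReal_mul, Complex.mul_cpow_ofReal_nonneg h1.le h2.le]
  have h3 : -(Real.pi * (t.1 * A + t.2 * B)) = -(Real.pi * (t.1 * A)) + -(Real.pi * (t.2 * B)) := by
    ring
  rw [h3, Real.exp_add, Complex.ofReal_mul]
  ring

theorem b4a_qd_meas : MeasurableSet qd := measurableSet_Ioi.prod measurableSet_Ioi

theorem mellin2 (A B : ℝ) (hA : 0 < A) (hB : 0 < B) (s : ℂ) (hs : 0 < s.re) :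
    IntegrableOn (fun t : ℝ × ℝ => ((t.1 * t.2 : ℝ) : ℂ) ^ (s - 1)
      * ((Real.exp (-(Real.pi * (t.1 * A + t.2 * B))) : ℝ) : ℂ)) qd ∧
    ∫ t in qd, ((t.1 * t.2 : ℝ) : ℂ) ^ (s - 1)
      * ((Real.exp (-(Real.pi * (t.1 * A + t.2 * B))) : ℝ) : ℂ) =
      Complex.Gamma s ^ 2 * (Real.pi : ℂ) ^ (-(2 * s)) * ((A * B : ℝ) : ℂ) ^ (-s) := by
  constructor
  · have h1 := (b4a_int1 A hA s hs).mul_prod (b4a_int1 B hB s hs)
    rw [Measure.prod_restrict, ← Measure.volume_eq_prod] at h1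
    refine IntegrableOn.congr_fun h1 (fun t ht => ?_) b4a_qd_meas
    exact (b4a_split A B s ht).symm
  · rw [setIntegral_congr_fun b4a_qd_meas (fun t ht => b4a_split A B s ht)]
    have h1 := setIntegral_prod_mul (μ := (volume : Measure ℝ)) (ν := (volume : Measure ℝ))
      (fun t : ℝ => (t : ℂ) ^ (s - 1) * ((Real.exp (-(Real.pi * (t * A))) : ℝ) : ℂ))
      (fun t : ℝ => (t : ℂ) ^ (s - 1) * ((Real.exp (-(Real.pi * (t * B))) : ℝ) : ℂ))
      (Ioi 0) (Ioi 0)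
    rw [← Measure.volume_eq_prod] at h1
    refine h1.trans ?_
    rw [b4a_int1_val A hA s hs, b4a_int1_val B hB s hs, Complex.ofReal_mul,
      Complex.mul_cpow_ofReal_nonneg hA.le hB.le]
    have h2 : (Real.pi : ℂ) ^ (-(2 * s)) = (Real.pi : ℂ) ^ (-s) * (Real.pi : ℂ) ^ (-s) := by
      rw [← Complex.cpow_add _ _ (by exact_mod_cast Real.pi_pos.ne')]
      congr 1
      ring
    rw [h2]
    ring

/-- the diagonal map -/
noncomputable def b4a_g (c : ℝ) : ℝ × ℝ → ℝ × ℝ := Prod.map (fun x => c * x) (fun x => c⁻¹ * x)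

theorem b4a_g_mp (c : ℝ) (hc : 0 < c) :
    MeasurePreserving (b4a_g c) (volume : Measure (ℝ × ℝ)) volume := by
  refine ⟨(measurable_const_mul c).prodMap (measurable_const_mul c⁻¹), ?_⟩
  rw [b4a_g, Measure.volume_eq_prod, ← Measure.map_prod_map _ _ (measurable_const_mul c)
    (measurable_const_mul c⁻¹), Real.map_volume_mul_left hc.ne',
    Real.map_volume_mul_left (inv_ne_zero hc.ne'), Measure.prod_smul_left,
    Measure.prod_smul_right, smul_smul, ← ENNReal.ofReal_mul (abs_nonneg _), ← abs_mul, inv_inv,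
    inv_mul_cancel₀ hc.ne', abs_one, ENNReal.ofReal_one, one_smul]

theorem b4a_g_emb (c : ℝ) (hc : 0 < c) : MeasurableEmbedding (b4a_g c) := by
  have h1 : MeasurableEmbedding (fun x : ℝ => c * x) :=
    (MeasurableEquiv.mulLeft₀ c hc.ne').measurableEmbedding
  have h2 : MeasurableEmbedding (fun x : ℝ => c⁻¹ * x) :=
    (MeasurableEquiv.mulLeft₀ c⁻¹ (inv_ne_zero hc.ne')).measurableEmbedding
  exact h1.prodMap h2

/-- the half open sectors -/
def b4a_S (r : ℝ) (k : ℤ) : Set (ℝ × ℝ) :=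
  {t | 0 < t.2 ∧ (r ^ 2) ^ k * t.2 < t.1 ∧ t.1 ≤ (r ^ 2) ^ (k + 1) * t.2}

theorem b4a_S_meas (r : ℝ) (k : ℤ) : MeasurableSet (b4a_S r k) := by
  apply MeasurableSet.inter
  · exact measurableSet_lt measurable_const measurable_snd
  · apply MeasurableSet.inter
    · exact measurableSet_lt (measurable_const.mul measurable_snd) measurable_fst
    · exact measurableSet_le measurable_fst (measurable_const.mul measurable_snd)

theorem b4a_union (r : ℝ) (hr : 1 < r) : ⋃ k : ℤ, b4a_S r k = qd := by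
  have hr2 : 1 < r ^ 2 := by nlinarith
  have hr0 : 0 < r ^ 2 := by linarith
  ext t
  rw [mem_iUnion]
  constructor
  · rintro ⟨k, h1, h2, h3⟩
    refine ⟨?_, h1⟩
    exact lt_trans (mul_pos (zpow_pos hr0 k) h1) h2
  · rintro ⟨h1, h2⟩
    have h1' : 0 < t.1 := h1
    have h2' : 0 < t.2 := h2
    obtain ⟨k, hk1, hk2⟩ := exists_mem_Ioc_zpow (div_pos h1' h2') hr2
    refine ⟨k, h2', ?_, ?_⟩
    · rwa [lt_div_iff₀ h2'] at hk1
    · rwa [div_le_iff₀ h2'] at hk2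

theorem b4a_disj (r : ℝ) (hr : 1 < r) :
    Pairwise (Function.onFun Disjoint (fun k : ℤ => b4a_S r k)) := by
  have hr2 : 1 < r ^ 2 := by nlinarith
  have key : ∀ k k' : ℤ, k < k' → ∀ t : ℝ × ℝ, t ∈ b4a_S r k → t ∈ b4a_S r k' → False := by
    intro k k' hlt t h h'
    have h1 : (r ^ 2) ^ (k + 1) ≤ (r ^ 2) ^ k' := zpow_le_zpow_right₀ hr2.le (by omega)
    have h2 := mul_le_mul_of_nonneg_right h1 h.1.le
    have h3 := h.2.2
    have h4 := h'.2.1
    linarith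
  intro k k' hne
  rw [Function.onFun, Set.disjoint_left]
  intro t h h'
  rcases lt_or_gt_of_ne hne with hlt | hlt
  · exact key k k' hlt t h h'
  · exact key k' k hlt t h' h

theorem b4a_pre (r : ℝ) (hr : 1 < r) (k : ℤ) : b4a_g (r ^ k) ⁻¹' b4a_S r k = b4a_S r 0 := by
  have hr0 : 0 < r := by linarith
  have hk : 0 < r ^ k := zpow_pos hr0 k
  have e1 : (r ^ 2) ^ k = r ^ k * r ^ k := by
    rw [← mul_zpow, ← pow_two]
  ext t
  simp only [b4a_S, b4a_g, mem_preimage, mem_ofPred_eq, Prod.map_fst, Prod.map_snd]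
  have e2 : (r ^ 2) ^ k * ((r ^ k)⁻¹ * t.2) = r ^ k * t.2 := by
    rw [e1]; field_simp
  have e3 : (r ^ 2) ^ (k + 1) * ((r ^ k)⁻¹ * t.2) = r ^ k * (r ^ 2 * t.2) := by
    rw [zpow_add_one₀ (by positivity), e1]; field_simp
  rw [e2, e3, mul_lt_mul_iff_right₀ hk, mul_le_mul_iff_right₀ hk, zpow_zero, zero_add, zpow_one,
    one_mul, mul_pos_iff_of_pos_left (inv_pos.2 hk)]

theorem b4a_null (r : ℝ) (hr : 1 < r) :
    (volume : Measure (ℝ × ℝ)) {t : ℝ × ℝ | t.1 = r ^ 2 * t.2} = 0 := by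
  have hm : MeasurableSet {t : ℝ × ℝ | t.1 = r ^ 2 * t.2} :=
    measurableSet_eq_fun measurable_fst (measurable_const.mul measurable_snd)
  rw [Measure.volume_eq_prod, Measure.measure_prod_null hm]
  refine Filter.Eventually.of_forall fun x => ?_
  apply Set.Subsingleton.measure_zero
  intro y hy y' hy'
  have h1 : x = r ^ 2 * y := hy
  have h2 : x = r ^ 2 * y' := hy'
  have h3 : (r ^ 2 : ℝ) ≠ 0 := by positivity
  exact mul_left_cancel₀ h3 (h1.symm.trans h2)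

theorem b4a_sec_ae (r : ℝ) (hr : 1 < r) : (b4a_S r 0 : Set (ℝ × ℝ)) =ᵐ[volume] sec r := by
  have h1 : sec r ⊆ b4a_S r 0 := by
    rintro t ⟨h1, h2, h3⟩
    refine ⟨h1, ?_, ?_⟩
    · rw [zpow_zero, one_mul]; exact h2
    · rw [zero_add, zpow_one]; exact h3.le
  have h2 : b4a_S r 0 \ sec r ⊆ {t : ℝ × ℝ | t.1 = r ^ 2 * t.2} := by
    rintro t ⟨⟨h1, h2, h3⟩, h4⟩
    rw [zpow_zero, one_mul] at h2
    rw [zero_add, zpow_one] at h3
    by_contra h5
    exact h4 ⟨h1, h2, lt_of_le_of_ne h3 h5⟩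
  rw [ae_eq_set]
  refine ⟨measure_mono_null h2 (b4a_null r hr), ?_⟩
  rw [Set.sdiff_eq_empty.2 h1, measure_empty]

theorem tiling (r : ℝ) (hr : 1 < r) (f : ℝ × ℝ → ℂ) (hf : IntegrableOn f qd) :
    (∀ k : ℤ, IntegrableOn (fun t : ℝ × ℝ => f (r ^ k * t.1, r ^ (-k) * t.2)) (sec r)) ∧
    HasSum (fun k : ℤ => ∫ t in sec r, f (r ^ k * t.1, r ^ (-k) * t.2)) (∫ t in qd, f t) := by
  have hr0 : 0 < r := by linarith
  have hcomp : ∀ k : ℤ, (fun t : ℝ × ℝ => f (r ^ k * t.1, r ^ (-k) * t.2)) =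
      f ∘ b4a_g (r ^ k) := by
    intro k
    funext t
    rw [zpow_neg]
    rfl
  have hsub : ∀ k : ℤ, b4a_S r k ⊆ qd := by
    intro k
    rw [← b4a_union r hr]
    exact subset_iUnion (fun k => b4a_S r k) k
  constructor
  · intro k
    rw [hcomp k]
    have h1 := ((b4a_g_mp (r ^ k) (zpow_pos hr0 k)).integrableOn_comp_preimage
      (b4a_g_emb (r ^ k) (zpow_pos hr0 k)) (f := f) (s := b4a_S r k)).2 (hf.mono_set (hsub k))
    rw [b4a_pre r hr k] at h1
    exact h1.congr_set_ae (b4a_sec_ae r hr).symm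
  · have h1 := hasSum_integral_iUnion (μ := (volume : Measure (ℝ × ℝ))) (f := f)
      (s := fun k : ℤ => b4a_S r k) (fun k => b4a_S_meas r k) (b4a_disj r hr)
      (by rw [b4a_union r hr]; exact hf)
    rw [b4a_union r hr] at h1
    have h2 : (fun k : ℤ => ∫ t in sec r, f (r ^ k * t.1, r ^ (-k) * t.2)) =
        fun k : ℤ => ∫ t in b4a_S r k, f t := by
      funext k
      rw [← (b4a_g_mp (r ^ k) (zpow_pos hr0 k)).setIntegral_preimage_emb
        (b4a_g_emb (r ^ k) (zpow_pos hr0 k)) f (b4a_S r k), b4a_pre r hr k,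
        setIntegral_congr_set (b4a_sec_ae r hr)]
      congr 1
      exact hcomp k
    rw [h2]
    exact h1

end NAB
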