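import Pool.Agent.MP_9ab903_nt.NAB.BDefs

/-! ## [NAB-B4c] `{g ∈ c : g ≡ u mod m}` is `Cl × ℤ`

For `I ∈ Cl m c u` choose a generator `G I ≡ u` of `I c`. Every `g ∈ c` with `g ≡ u` is nonzero (`u` prime to `m`, `3 ∣ m` is not a unit),
`(g) = I c` with a unique ideal `I` (`c ∣ (g)`), and `g`, `G I` differ by a unit `ε` with `ε u ≡ u`, so `ε ≡ 1 mod m` (`u` prime to `m`), so
`ε = e^k` (`IsGen.gen`), `k` unique since `‖e‖ > 1`. -/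

set_option autoImplicit false

open NumberField IsDedekindDomain MeasureTheory Set
open CM27 CMT CF
open scoped ComplexConjugate Classical

namespace NAB

theorem b4c_three_not_unit (F : IntermediateField ℚ ℂ) [NumberField F] :
    ¬ IsUnit (3 : 𝓞 F) := by
  intro h
  have h1 : IsUnit (Algebra.norm ℤ (3 : 𝓞 F)) := h.map (Algebra.norm ℤ)
  have h2 : Algebra.norm ℤ (3 : 𝓞 F) = 3 ^ Module.finrank ℤ (𝓞 F) := by
    have := Algebra.norm_algebraMap_of_basis (Module.Free.chooseBasis ℤ (𝓞 F)) (3 : ℤ)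
    rw [← Module.finrank_eq_card_chooseBasisIndex] at this
    simpa using this
  rw [h2] at h1
  have h3 : Module.finrank ℤ (𝓞 F) ≠ 0 := by
    rw [RingOfIntegers.rank]
    exact (Module.finrank_pos (R := ℚ) (M := F)).ne'
  rw [isUnit_pow_iff h3] at h1
  exact absurd (Int.isUnit_iff.1 h1) (by norm_num)

theorem b4c_zpow (F : IntermediateField ℚ ℂ) [NumberField F] (m : 𝓞 F) (e : (𝓞 F)ˣ)
    (he : m ∣ (e : 𝓞 F) - 1) (k : ℤ) : m ∣ ((e ^ k : (𝓞 F)ˣ) : 𝓞 F) - 1 := by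
  have h1 : ∀ v : (𝓞 F)ˣ, m ∣ (v : 𝓞 F) - 1 → ∀ n : ℕ, m ∣ ((v ^ n : (𝓞 F)ˣ) : 𝓞 F) - 1 := by
    intro v hv n
    rw [Units.val_pow_eq_pow_val]
    refine hv.trans ?_
    have := sub_dvd_pow_sub_pow (v : 𝓞 F) 1 n
    rwa [one_pow] at this
  have h2 : m ∣ ((e⁻¹ : (𝓞 F)ˣ) : 𝓞 F) - 1 := by
    have h3 : ((e⁻¹ : (𝓞 F)ˣ) : 𝓞 F) - 1 = -((e⁻¹ : (𝓞 F)ˣ) : 𝓞 F) * ((e : 𝓞 F) - 1) := by
      have : ((e⁻¹ : (𝓞 F)ˣ) : 𝓞 F) * (e : 𝓞 F) = 1 := Units.inv_mul e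
      linear_combination (1 : 𝓞 F) * this
    rw [h3]
    exact Dvd.dvd.mul_left he _
  cases k with
  | ofNat n => simpa using h1 e he n
  | negSucc n =>
    have := h1 e⁻¹ h2 (n + 1)
    rw [zpow_negSucc, ← inv_pow]
    exact this

theorem b4c_mem1 (F : IntermediateField ℚ ℂ) [NumberField F] (c I : Ideal (𝓞 F)) (v g : 𝓞 F)
    (h : I * c = Ideal.span {g}) : v * g ∈ c := by
  have h0 : g ∈ Ideal.span {g} := Ideal.mem_span_singleton_self g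
  have h1 : g ∈ I * c := by
    rw [h]
    exact h0
  have h3 : I * c ≤ c := Ideal.mul_le_right
  have h2 : g ∈ c := h3 h1
  exact Ideal.mul_mem_left c v h2

theorem b4c_mem2 (F : IntermediateField ℚ ℂ) [NumberField F] (m v g u : 𝓞 F)
    (h : m ∣ g - u) (hv : m ∣ v - 1) : m ∣ v * g - u := by
  have h1 : v * g - u = (v - 1) * g + (g - u) := by
    rw [sub_mul, one_mul]
    exact (sub_add_sub_cancel _ _ _).symm
  rw [h1]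
  exact dvd_add (Dvd.dvd.mul_right hv _) h

theorem b4c_inj1 (F : IntermediateField ℚ ℂ) [NumberField F] (c : Ideal (𝓞 F)) (hc0 : c ≠ 0)
    (I J : Ideal (𝓞 F)) (v v' : (𝓞 F)ˣ) (g g' : 𝓞 F) (h : (v : 𝓞 F) * g = (v' : 𝓞 F) * g')
    (hI : I * c = Ideal.span {g}) (hJ : J * c = Ideal.span {g'}) : I = J := by
  have h2 : Ideal.span {g} = Ideal.span {g'} := by
    rw [← Ideal.span_singleton_mul_left_unit v.isUnit g, h,
      Ideal.span_singleton_mul_left_unit v'.isUnit g']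
  rw [← hI, ← hJ] at h2
  exact mul_right_cancel₀ hc0 h2

theorem b4c_coe_zpow (F : IntermediateField ℚ ℂ) [NumberField F] (e : (𝓞 F)ˣ) (n : ℤ) :
    ((((e ^ n : (𝓞 F)ˣ) : 𝓞 F) : F) : ℂ) = (((e : 𝓞 F) : F) : ℂ) ^ n := by
  let f : 𝓞 F →+* ℂ := (algebraMap F ℂ).comp (algebraMap (𝓞 F) F)
  have h7 : f ((e ^ n : (𝓞 F)ˣ) : 𝓞 F) = (f (e : 𝓞 F)) ^ n := by
    have := map_zpow (Units.map (f : 𝓞 F →* ℂ)) e n
    have h8 := congrArg Units.val this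
    rw [Units.val_zpow_eq_zpow_val] at h8
    exact h8
  exact h7

theorem b4c_inj2 (F : IntermediateField ℚ ℂ) [NumberField F] (e : (𝓞 F)ˣ)
    (h1 : 1 < ‖(((e : 𝓞 F) : F) : ℂ)‖) (k l : ℤ) (g : 𝓞 F) (hg : g ≠ 0)
    (h : ((e ^ k : (𝓞 F)ˣ) : 𝓞 F) * g = ((e ^ l : (𝓞 F)ˣ) : 𝓞 F) * g) : k = l := by
  have h5 : ((e ^ k : (𝓞 F)ˣ) : 𝓞 F) = ((e ^ l : (𝓞 F)ˣ) : 𝓞 F) :=
    mul_right_cancel₀ hg h
  have h9 : (((e : 𝓞 F) : F) : ℂ) ^ k = (((e : 𝓞 F) : F) : ℂ) ^ l := by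
    rw [← b4c_coe_zpow, ← b4c_coe_zpow, h5]
  have h10 : ‖(((e : 𝓞 F) : F) : ℂ)‖ ^ k = ‖(((e : 𝓞 F) : F) : ℂ)‖ ^ l := by
    rw [← norm_zpow, ← norm_zpow, h9]
  exact zpow_right_injective₀ (by linarith) h1.ne' h10

theorem b4c_ne (F : IntermediateField ℚ ℂ) [NumberField F] (m u g : 𝓞 F)
    (h3 : (3 : 𝓞 F) ∣ m) (hu : IsCoprime u m) (hgm : m ∣ g - u) : g ≠ 0 := by
  rintro rfl
  rw [zero_sub, dvd_neg] at hgm
  have h1 : IsUnit m := hu.symm.isUnit_of_dvd hgm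
  exact b4c_three_not_unit F (isUnit_of_dvd_unit h3 h1)

theorem b4c_ideal (F : IntermediateField ℚ ℂ) [NumberField F] (c : Ideal (𝓞 F)) (g : 𝓞 F)
    (hg0 : g ≠ 0) (hgc : g ∈ c) : ∃ I : Ideal (𝓞 F), I ≠ 0 ∧ I * c = Ideal.span {g} := by
  have h1 : c ∣ Ideal.span {g} := by
    rw [Ideal.dvd_span_singleton]
    exact hgc
  obtain ⟨I, hI⟩ := h1
  refine ⟨I, ?_, by rw [hI, mul_comm]⟩
  rintro rfl
  rw [mul_zero] at hI
  apply hg0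
  have : Ideal.span {g} = ⊥ := hI
  rwa [Ideal.span_singleton_eq_bot] at this

theorem b4c_unit (F : IntermediateField ℚ ℂ) [NumberField F] (m u g g' : 𝓞 F)
    (hu : IsCoprime u m) (h : m ∣ g - u) (h' : m ∣ g' - u) (ε : (𝓞 F)ˣ) (hε : g' * ε = g) :
    m ∣ (ε : 𝓞 F) - 1 := by
  have hcop : IsCoprime g' m := by
    obtain ⟨t, ht⟩ := h'
    have : g' = u + m * t := by rw [← ht]; exact (add_sub_cancel _ _).symm
    rw [this]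
    exact hu.add_mul_left_left t
  have h4 : m ∣ g' * ((ε : 𝓞 F) - 1) := by
    have : g' * ((ε : 𝓞 F) - 1) = (g - u) - (g' - u) := by
      rw [← hε, mul_sub, mul_one]
      exact (sub_sub_sub_cancel_right _ _ _).symm
    rw [this]
    exact dvd_sub h h'
  exact hcop.symm.dvd_of_dvd_mul_left h4

theorem T_equiv (F : IntermediateField ℚ ℂ) [NumberField F] (s2 : F →+* ℂ) (m : 𝓞 F)
    (h3 : (3 : 𝓞 F) ∣ m) (e : (𝓞 F)ˣ) (he : IsGen F s2 m e) (c : Ideal (𝓞 F)) (hc0 : c ≠ 0)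
    (u : 𝓞 F) (hu : IsCoprime u m) :
    ∃ (G : Cl F m c u → 𝓞 F) (ψ : (Cl F m c u) × ℤ ≃ {g : 𝓞 F // g ∈ c ∧ m ∣ g - u}),
      (∀ I, G I ≠ 0 ∧ m ∣ G I - u ∧ (I : Ideal (𝓞 F)) * c = Ideal.span {G I}) ∧
      ∀ I k, ((ψ (I, k) : {g : 𝓞 F // g ∈ c ∧ m ∣ g - u}) : 𝓞 F) = ((e ^ k : (𝓞 F)ˣ) : 𝓞 F) * G I := by
  have hex : ∀ I : Cl F m c u, ∃ g : 𝓞 F, g ≠ 0 ∧ m ∣ g - u ∧
      (I : Ideal (𝓞 F)) * c = Ideal.span {g} := fun I => I.2.2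
  choose G hG0 hGm hGc using hex
  have hmem : ∀ (I : Cl F m c u) (k : ℤ), ((e ^ k : (𝓞 F)ˣ) : 𝓞 F) * G I ∈ c ∧
      m ∣ ((e ^ k : (𝓞 F)ˣ) : 𝓞 F) * G I - u := fun I k =>
    ⟨b4c_mem1 F c I _ _ (hGc I), b4c_mem2 F m _ _ u (hGm I) (b4c_zpow F m e he.cong k)⟩
  let Φ : (Cl F m c u) × ℤ → {g : 𝓞 F // g ∈ c ∧ m ∣ g - u} :=
    fun p => ⟨((e ^ p.2 : (𝓞 F)ˣ) : 𝓞 F) * G p.1, hmem p.1 p.2⟩
  have hinj : Function.Injective Φ := by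
    rintro ⟨I, k⟩ ⟨J, l⟩ h
    have h1 : ((e ^ k : (𝓞 F)ˣ) : 𝓞 F) * G I = ((e ^ l : (𝓞 F)ˣ) : 𝓞 F) * G J :=
      congrArg Subtype.val h
    have h4 : I = J := Subtype.ext (b4c_inj1 F c hc0 I J _ _ _ _ h1 (hGc I) (hGc J))
    subst h4
    have h11 : k = l := b4c_inj2 F e he.one_lt k l (G I) (hG0 I) h1
    rw [h11]
  have hsurj : Function.Surjective Φ := by
    rintro ⟨g, hgc, hgm⟩
    have hg0 : g ≠ 0 := b4c_ne F m u g h3 hu hgm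
    obtain ⟨I, hI0, hIc⟩ := b4c_ideal F c g hg0 hgc
    let J : Cl F m c u := ⟨I, hI0, g, hg0, hgm, hIc⟩
    have h2 : Ideal.span {G J} = Ideal.span {g} := by
      rw [← hGc J, ← hIc]
    rw [Ideal.span_singleton_eq_span_singleton] at h2
    obtain ⟨ε, hε⟩ := h2
    obtain ⟨k, hk⟩ := he.gen ε (b4c_unit F m u g (G J) hu hgm (hGm J) ε hε)
    refine ⟨(J, k), Subtype.ext ?_⟩
    show ((e ^ k : (𝓞 F)ˣ) : 𝓞 F) * G J = g
    rw [← hk, mul_comm, hε]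
  exact ⟨G, Equiv.ofBijective Φ ⟨hinj, hsurj⟩, fun I => ⟨hG0 I, hGm I, hGc I⟩, fun I k => rfl⟩

end NAB
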