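import Pool.Agent.MP_9ab903_nt.NAB.B4a
import Pool.Agent.MP_9ab903_nt.NAB.A12a

/-! ## [NAB-B4d] unfolding, abstract form

`conj (a b) (‖a‖²‖b‖²)^(-s) = π^{2s} Γ(s)^{-2} ∫_{qd} (t₁t₂)^{s-1} conj (a b) e^{-π (t₁‖a‖² + t₂‖b‖²)}` (`mellin2`) and by `tiling`
`∫_{qd} = ∑_k ∫_{sec r}` of the same integrand for `(ε^k a, ε^{-k} b)` (`‖ε‖² = r`; `(t₁ t₂)` and `a b` are invariant). Summing over `i`:
the double family `(i, k) ↦ ∫_{sec r} (..)` has summable norms (the same computation with `s.re`, `∑_k ∫_{sec r} |..| = ∫_{qd} |..| =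
π^{-2σ} Γ(σ)² (‖a‖‖b‖)^{1-2σ}`, `σ = s.re`), so the sum over `φ`-reindexed pairs is `∫_{sec r} ∑ = ZZ l l' r x (s - 1)` by
`hasSum_integral_of_summable_integral_norm`; the inner sum is `th` (`hv_comb`, `hv_sq`; reindex by `φ`). -/

set_option autoImplicit false

open MeasureTheory Set
open CM27
open scoped ComplexConjugate

namespace NAB

/-- the integrand -/
noncomputable def b4d_f (s : ℂ) (a b : ℂ) (t : ℝ × ℝ) : ℂ :=
  ((t.1 * t.2 : ℝ) : ℂ) ^ (s - 1) * (conj (a * b) *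
    ((Real.exp (-(Real.pi * (t.1 * ‖a‖ ^ 2 + t.2 * ‖b‖ ^ 2))) : ℝ) : ℂ))

theorem b4d_f_eq (s a b : ℂ) : b4d_f s a b = fun t : ℝ × ℝ => conj (a * b) *
    (((t.1 * t.2 : ℝ) : ℂ) ^ (s - 1) *
    ((Real.exp (-(Real.pi * (t.1 * ‖a‖ ^ 2 + t.2 * ‖b‖ ^ 2))) : ℝ) : ℂ)) := by
  funext t
  rw [b4d_f]
  ring

theorem b4d_int (s : ℂ) (hs : 0 < s.re) (a b : ℂ) (ha : a ≠ 0) (hb : b ≠ 0) :
    IntegrableOn (b4d_f s a b) qd := by
  rw [b4d_f_eq]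
  exact (mellin2 (‖a‖ ^ 2) (‖b‖ ^ 2) (by positivity) (by positivity) s hs).1.const_mul _

theorem b4d_val (s : ℂ) (hs : 0 < s.re) (a b : ℂ) (ha : a ≠ 0) (hb : b ≠ 0) :
    ∫ t in qd, b4d_f s a b t = conj (a * b) * (Complex.Gamma s ^ 2 * (Real.pi : ℂ) ^ (-(2 * s)) *
      ((‖a‖ ^ 2 * ‖b‖ ^ 2 : ℝ) : ℂ) ^ (-s)) := by
  rw [b4d_f_eq, integral_const_mul,
    (mellin2 (‖a‖ ^ 2) (‖b‖ ^ 2) (by positivity) (by positivity) s hs).2]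

/-- the integrand is compatible with the group of units -/
theorem b4d_shift (s : ℂ) (r : ℝ) (hr : 1 < r) (ε : ℂ) (hε : ‖ε‖ ^ 2 = r) (a b : ℂ) (k : ℤ)
    (t : ℝ × ℝ) :
    b4d_f s a b (r ^ k * t.1, r ^ (-k) * t.2) = b4d_f s (ε ^ k * a) (ε ^ (-k) * b) t := by
  have hr0 : r ≠ 0 := by linarith
  have hε0 : ε ≠ 0 := by
    rintro rfl
    rw [norm_zero] at hε
    norm_num at hε
    exact hr0 hε.symm
  have e1 : r ^ k * t.1 * (r ^ (-k) * t.2) = t.1 * t.2 := by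
    rw [zpow_neg]
    field_simp
  have e2 : ε ^ k * a * (ε ^ (-k) * b) = a * b := by
    rw [zpow_neg]
    field_simp
  have e3 : ∀ j : ℤ, ∀ z : ℂ, ‖ε ^ j * z‖ ^ 2 = r ^ j * ‖z‖ ^ 2 := by
    intro j z
    rw [norm_mul, mul_pow, norm_zpow, ← hε, ← zpow_natCast, ← zpow_natCast, ← zpow_natCast,
      ← zpow_mul, ← zpow_mul, mul_comm j]
  rw [b4d_f, b4d_f, e2, e3, e3]
  simp only [e1]
  congr 4
  ring

theorem b4d_hasSum (s : ℂ) (hs : 0 < s.re) (r : ℝ) (hr : 1 < r) (ε : ℂ) (hε : ‖ε‖ ^ 2 = r)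
    (a b : ℂ) (ha : a ≠ 0) (hb : b ≠ 0) :
    (∀ k : ℤ, IntegrableOn (b4d_f s (ε ^ k * a) (ε ^ (-k) * b)) (sec r)) ∧
    HasSum (fun k : ℤ => ∫ t in sec r, b4d_f s (ε ^ k * a) (ε ^ (-k) * b) t)
      (conj (a * b) * (Complex.Gamma s ^ 2 * (Real.pi : ℂ) ^ (-(2 * s)) *
      ((‖a‖ ^ 2 * ‖b‖ ^ 2 : ℝ) : ℂ) ^ (-s))) := by
  have h := tiling r hr _ (b4d_int s hs a b ha hb)
  simp only [b4d_shift s r hr ε hε a b] at h
  rw [b4d_val s hs a b ha hb] at h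
  exact h

/-- absolute values -/
theorem b4d_norm (s : ℂ) (a b : ℂ) {t : ℝ × ℝ} (ht : t ∈ qd) :
    (‖b4d_f s a b t‖ : ℂ) = (‖a * b‖ : ℂ) * (((t.1 * t.2 : ℝ) : ℂ) ^ ((s.re : ℂ) - 1) *
    ((Real.exp (-(Real.pi * (t.1 * ‖a‖ ^ 2 + t.2 * ‖b‖ ^ 2))) : ℝ) : ℂ)) := by
  have h1 : 0 < t.1 * t.2 := mul_pos ht.1 ht.2
  have h2 : ((t.1 * t.2 : ℝ) : ℂ) ^ ((s.re : ℂ) - 1) = (((t.1 * t.2) ^ (s.re - 1) : ℝ) : ℂ) := by
    rw [Complex.ofReal_cpow h1.le]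
    push_cast
    rfl
  rw [b4d_f, norm_mul, norm_mul, RCLike.norm_conj, Complex.norm_cpow_eq_rpow_re_of_pos h1,
    Complex.norm_real, Real.norm_eq_abs, abs_of_pos (Real.exp_pos _), Complex.sub_re,
    Complex.one_re, h2]
  push_cast
  ring

theorem b4d_sec_qd {r : ℝ} : sec r ⊆ qd := by
  rintro t ⟨h1, h2, h3⟩
  exact ⟨h1.trans h2, h1⟩

theorem b4d_norm_hasSum (s : ℂ) (hs : 0 < s.re) (r : ℝ) (hr : 1 < r) (ε : ℂ) (hε : ‖ε‖ ^ 2 = r)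
    (a b : ℂ) (ha : a ≠ 0) (hb : b ≠ 0) :
    HasSum (fun k : ℤ => ∫ t in sec r, ‖b4d_f s (ε ^ k * a) (ε ^ (-k) * b) t‖)
      (Real.Gamma s.re ^ 2 * Real.pi ^ (-(2 * s.re)) * (‖a‖ * ‖b‖) ^ (1 - 2 * s.re)) := by
  have hint : IntegrableOn (fun t => (‖b4d_f s a b t‖ : ℂ)) qd :=
    (b4d_int s hs a b ha hb).norm.ofReal
  have h := (tiling r hr _ hint).2
  simp only [b4d_shift s r hr ε hε a b] at h
  have hv : ∫ t in qd, (‖b4d_f s a b t‖ : ℂ) =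
      ((Real.Gamma s.re ^ 2 * Real.pi ^ (-(2 * s.re)) * (‖a‖ * ‖b‖) ^ (1 - 2 * s.re) : ℝ) : ℂ) := by
    rw [setIntegral_congr_fun b4a_qd_meas (fun t ht => b4d_norm s a b ht), integral_const_mul,
      (mellin2 (‖a‖ ^ 2) (‖b‖ ^ 2) (by positivity) (by positivity) (s.re : ℂ)
        (by rw [Complex.ofReal_re]; exact hs)).2]
    have hna : 0 < ‖a‖ := by positivity
    have hnb : 0 < ‖b‖ := by positivity
    have e1 : ((‖a‖ ^ 2 * ‖b‖ ^ 2 : ℝ) : ℂ) ^ (-(s.re : ℂ)) =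
        (((‖a‖ * ‖b‖) ^ (-(2 * s.re)) : ℝ) : ℂ) := by
      rw [← Complex.ofReal_neg, ← Complex.ofReal_cpow (by positivity)]
      congr 1
      rw [← mul_pow, ← Real.rpow_natCast (‖a‖ * ‖b‖) 2, ← Real.rpow_mul (by positivity)]
      congr 1
      push_cast
      ring
    have e2 : (Real.pi : ℂ) ^ (-(2 * (s.re : ℂ))) = ((Real.pi ^ (-(2 * s.re)) : ℝ) : ℂ) := by
      rw [Complex.ofReal_cpow Real.pi_pos.le]
      push_cast
      rfl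
    have e3 : (‖a‖ * ‖b‖) ^ (1 - 2 * s.re) = (‖a‖ * ‖b‖) * (‖a‖ * ‖b‖) ^ (-(2 * s.re)) := by
      rw [sub_eq_add_neg, Real.rpow_add (by positivity), Real.rpow_one]
    rw [e1, e2, e3, Complex.Gamma_ofReal, norm_mul]
    push_cast
    ring
  rw [hv] at h
  have h2 : (fun k : ℤ => ∫ t in sec r, (‖b4d_f s (ε ^ k * a) (ε ^ (-k) * b) t‖ : ℂ)) =
      fun k : ℤ => ((∫ t in sec r, ‖b4d_f s (ε ^ k * a) (ε ^ (-k) * b) t‖ : ℝ) : ℂ) := by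
    funext k
    exact integral_ofReal
  rw [h2] at h
  exact Complex.hasSum_ofReal.1 h

theorem unfold_abs (l l' x : ℂ × ℂ) (r : ℝ) (hr : 1 < r) (ε : ℂ) (hε : ‖ε‖ ^ 2 = r) {ι : Type}
    (a b : ι → ℂ) (ha : ∀ i, a i ≠ 0) (hb : ∀ i, b i ≠ 0) (φ : ι × ℤ ≃ Eis × Eis)
    (h1 : ∀ i k, lf l (x + em (φ (i, k))) = ε ^ k * a i)
    (h2 : ∀ i k, lf l' (x + em (φ (i, k))) = ε ^ (-k) * b i) (s : ℂ) (hs : 0 < s.re)
    (hsum : Summable fun i => (‖a i‖ * ‖b i‖) ^ (1 - 2 * s.re)) :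
    HasSum (fun i => conj (a i * b i) * ((‖a i‖ ^ 2 * ‖b i‖ ^ 2 : ℝ) : ℂ) ^ (-s))
      ((Real.pi : ℂ) ^ (2 * s) * (Complex.Gamma s ^ 2)⁻¹ * ZZ l l' r x (s - 1)) := by
  have hcount0 : Countable Eis := by
    have hinj : Function.Injective (fun z : Eis => (z.re, z.im)) := by
      intro z z' h
      simp only [Prod.mk.injEq] at h
      exact QuadraticAlgebra.ext h.1 h.2
    exact hinj.countable
  have hcount : Countable (Eis × Eis) := inferInstance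
  have : Countable (ι × ℤ) := φ.injective.countable
  set F : ι × ℤ → ℝ × ℝ → ℂ := fun p => b4d_f s (ε ^ p.2 * a p.1) (ε ^ (-p.2) * b p.1) with hF
  have hint : ∀ p, Integrable (F p) (volume.restrict (sec r)) := fun p =>
    (b4d_hasSum s hs r hr ε hε (a p.1) (b p.1) (ha _) (hb _)).1 p.2
  have hns : Summable fun p => ∫ t in sec r, ‖F p t‖ := by
    rw [summable_prod_of_nonneg (fun p => integral_nonneg fun t => norm_nonneg _)]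
    refine ⟨fun i => (b4d_norm_hasSum s hs r hr ε hε (a i) (b i) (ha i) (hb i)).summable, ?_⟩
    have h3 : (fun i => ∑' k : ℤ, ∫ t in sec r, ‖F (i, k) t‖) = fun i =>
        Real.Gamma s.re ^ 2 * Real.pi ^ (-(2 * s.re)) * (‖a i‖ * ‖b i‖) ^ (1 - 2 * s.re) := by
      funext i
      exact (b4d_norm_hasSum s hs r hr ε hε (a i) (b i) (ha i) (hb i)).tsum_eq
    rw [h3]
    exact hsum.mul_left _
  have hmain := hasSum_integral_of_summable_integral_norm hint hns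
  have hZ : ∫ t in sec r, ∑' p, F p t = ZZ l l' r x (s - 1) := by
    rw [ZZ]
    congr 1
    funext t
    have h4 : ∀ p : ι × ℤ, F p t = ((t.1 * t.2 : ℝ) : ℂ) ^ (s - 1) *
        ((fun v => conj (lf l v * lf l' v)) (x + em (φ p)) *
        (Real.exp (-(Real.pi * hv (t.1 • sq l + t.2 • sq l') (x + em (φ p)))) : ℝ)) := by
      intro p
      simp only [hF, b4d_f]
      rw [hv_add, hv_smul, hv_smul, hv_sq, hv_sq, h1 p.1 p.2, h2 p.1 p.2]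
    simp only [h4]
    rw [tsum_mul_left, th]
    congr 1
    exact φ.tsum_eq (fun m : Eis × Eis => conj (lf l (x + em m) * lf l' (x + em m)) *
      ((Real.exp (-(Real.pi * hv (t.1 • sq l + t.2 • sq l') (x + em m))) : ℝ) : ℂ))
  rw [hZ] at hmain
  have h5 := hmain.prod_fiberwise (fun i =>
    (b4d_hasSum s hs r hr ε hε (a i) (b i) (ha i) (hb i)).2)
  have h6 := h5.mul_left ((Real.pi : ℂ) ^ (2 * s) * (Complex.Gamma s ^ 2)⁻¹)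
  have hG : Complex.Gamma s ^ 2 ≠ 0 := pow_ne_zero _ (Complex.Gamma_ne_zero_of_re_pos hs)
  have hpi : (Real.pi : ℂ) ^ (2 * s) * (Real.pi : ℂ) ^ (-(2 * s)) = 1 := by
    rw [← Complex.cpow_add _ _ (by exact_mod_cast Real.pi_pos.ne'), add_neg_cancel,
      Complex.cpow_zero]
  have h7 : (fun i => conj (a i * b i) * ((‖a i‖ ^ 2 * ‖b i‖ ^ 2 : ℝ) : ℂ) ^ (-s)) = fun i =>
      (Real.pi : ℂ) ^ (2 * s) * (Complex.Gamma s ^ 2)⁻¹ * (conj (a i * b i) *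
        (Complex.Gamma s ^ 2 * (Real.pi : ℂ) ^ (-(2 * s)) *
        ((‖a i‖ ^ 2 * ‖b i‖ ^ 2 : ℝ) : ℂ) ^ (-s))) := by
    funext i
    have h8 : (Real.pi : ℂ) ^ (2 * s) * (Complex.Gamma s ^ 2)⁻¹ * (conj (a i * b i) *
        (Complex.Gamma s ^ 2 * (Real.pi : ℂ) ^ (-(2 * s)) *
        ((‖a i‖ ^ 2 * ‖b i‖ ^ 2 : ℝ) : ℂ) ^ (-s))) =
        ((Real.pi : ℂ) ^ (2 * s) * (Real.pi : ℂ) ^ (-(2 * s))) *
        ((Complex.Gamma s ^ 2)⁻¹ * Complex.Gamma s ^ 2) *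
        (conj (a i * b i) * ((‖a i‖ ^ 2 * ‖b i‖ ^ 2 : ℝ) : ℂ) ^ (-s)) := by ring
    rw [h8, hpi, inv_mul_cancel₀ hG, one_mul, one_mul]
  rw [h7]
  exact h6

end NAB
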