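import Pool.Agent.MP_9ab903_nt.NAB.B0
import Pool.Agent.MP_9ab903_nt.NAB.B4c
import Pool.Agent.MP_9ab903_nt.NAB.B4d
import Pool.Agent.MP_9ab903_nt.NAB.BV2

/-! ## [NAB-B4b] unfolding

Combine `T_equiv` (`u := eF F hw u`), `LD.bij` and `unfold_abs` (`a I = G I`, `b I = s2 (G I)`, `ε = e`, `s2 e = e⁻¹`).
`psi (I) psi(c) = psi (span {G I})`, `emb` of it is `G I * s2 (G I)` (`s2_psi`, `cm_mul`; `3 ∣ m ∣ G I - u`),
`absNorm I * absNorm c = ‖G I‖² ‖s2 (G I)‖²` (`s2_absNorm`), `emb (psi c) ≠ 0` (`psi_mul_conj`, `c` is prime to `3`). Summability: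
`‖a I‖ ‖b I‖ = (absNorm I absNorm c)^{1/2}`, `summable_norm` (BV2) with `x = s.re - 1/2 > 1`. -/

set_option autoImplicit false

open NumberField IsDedekindDomain MeasureTheory Set
open CM27 CMT CF
open scoped ComplexConjugate Classical

namespace NAB

variable (F : IntermediateField ℚ ℂ) [NumberField F] (hw : w ∈ F)
  (h4 : Module.finrank ℚ F = 4) (s2 : F →+* ℂ) (hs : IsS2 F hw s2)
include h4 hs

theorem unfold (δ : ℂ) (m : 𝓞 F) (hm0 : m ≠ 0) (h3 : (3 : 𝓞 F) ∣ m) (e : (𝓞 F)ˣ)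
    (he : IsGen F s2 m e) (c : Ideal (𝓞 F)) (hc0 : c ≠ 0) (hcm : IsCoprime c (Ideal.span {m}))
    (N : ℕ) (D : LD F hw s2 m e c N δ) (u : Eis) (hu3 : (3 : Eis) ∣ u - 1)
    (hu : IsCoprime (eF F hw u) m) (s : ℂ) (hs : 3 / 2 < s.re) :
    HasSum (fun I : Cl F m c (eF F hw u) =>
        conj (emb (psi F (I : Ideal (𝓞 F)))) * (Ideal.absNorm (I : Ideal (𝓞 F)) : ℂ) ^ (-s))
      ((conj (emb (psi F c)))⁻¹ * (Ideal.absNorm c : ℂ) ^ s * ((Real.pi : ℂ) ^ (2 * s)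
        * (Complex.Gamma s ^ 2)⁻¹ * ZZ D.l D.l' (‖(((e : 𝓞 F) : F) : ℂ)‖ ^ 2)
          (emb u * D.x.1, emb u * D.x.2) (s - 1))) := by
  rename_i hs2
  obtain ⟨G, ψ, hG, hψ⟩ := T_equiv F s2 m h3 e he c hc0 (eF F hw u) hu
  obtain ⟨φ, hφ⟩ := D.bij u
  -- basic facts on `e`
  have he1 : 1 < ‖(((e : 𝓞 F) : F) : ℂ)‖ := he.one_lt
  have he0 : (((e : 𝓞 F) : F) : ℂ) ≠ 0 := by
    intro h
    rw [h, norm_zero] at he1
    linarith
  have hs2e : s2 ((e : 𝓞 F) : F) = (((e : 𝓞 F) : F) : ℂ)⁻¹ := eq_inv_of_mul_eq_one_right he.norm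
  -- the powers of `e`
  have hpow : ∀ k : ℤ, ((((e ^ k : (𝓞 F)ˣ) : 𝓞 F) : F) : ℂ) = (((e : 𝓞 F) : F) : ℂ) ^ k := by
    intro k
    have h1 := map_zpow (Units.map ((algebraMap F ℂ).comp (algebraMap (𝓞 F) F) : 𝓞 F →* ℂ)) e k
    have h2 := congrArg (fun x : ℂˣ => (x : ℂ)) h1
    rw [Units.val_zpow_eq_zpow_val] at h2
    exact h2
  have hpow2 : ∀ k : ℤ, s2 (((e ^ k : (𝓞 F)ˣ) : 𝓞 F) : F) = (((e : 𝓞 F) : F) : ℂ) ^ (-k) := by
    intro k
    have h1 := map_zpow (Units.map (s2.comp (algebraMap (𝓞 F) F) : 𝓞 F →* ℂ)) e k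
    have h2 := congrArg (fun x : ℂˣ => (x : ℂ)) h1
    rw [Units.val_zpow_eq_zpow_val] at h2
    refine h2.trans ?_
    change (s2 ((e : 𝓞 F) : F)) ^ k = _
    rw [hs2e, inv_zpow, zpow_neg]
  -- norms
  have hc3 : IsCoprime c (Ideal.span {(3 : 𝓞 F)}) := by
    refine IsCoprime.of_isCoprime_of_dvd_right hcm ?_
    rw [Ideal.dvd_iff_le, Ideal.span_singleton_le_span_singleton]
    exact h3
  have hNc : Ideal.absNorm c ≠ 0 := fun h => hc0 (Ideal.absNorm_eq_zero_iff.1 h)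
  have hNcR : (0 : ℝ) < Ideal.absNorm c := by exact_mod_cast Nat.pos_of_ne_zero hNc
  have hpc : emb (psi F c) ≠ 0 := by
    intro h
    have h1 := psi_mul_conj F hw c hc0 hc3
    rw [h, zero_mul] at h1
    exact hNc (by exact_mod_cast h1.symm)
  have hpsi : ∀ I : Cl F m c (eF F hw u), emb (psi F (I : Ideal (𝓞 F))) * emb (psi F c) =
      ((G I : F) : ℂ) * s2 (G I : F) := by
    intro I
    obtain ⟨g1, g2, g3⟩ := hG I
    rw [← s2_psi F hw h4 s2 hs2 (G I) u hu3 (h3.trans g2), ← g3, psi, psi, psi, cm_mul, map_mul]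
  have hnorm : ∀ I : Cl F m c (eF F hw u),
      (Ideal.absNorm (I : Ideal (𝓞 F)) : ℝ) * Ideal.absNorm c =
      (‖((G I : F) : ℂ)‖ * ‖s2 (G I : F)‖) ^ 2 := by
    intro I
    obtain ⟨g1, g2, g3⟩ := hG I
    rw [← s2_absNorm F hw h4 s2 hs2 (G I), ← g3, map_mul]
    push_cast
    rfl
  have hNI : ∀ I : Cl F m c (eF F hw u), (0 : ℝ) < Ideal.absNorm (I : Ideal (𝓞 F)) := by
    intro I
    have h1 : Ideal.absNorm (I : Ideal (𝓞 F)) ≠ 0 :=
      fun h => I.2.1 (Ideal.absNorm_eq_zero_iff.1 h)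
    exact_mod_cast Nat.pos_of_ne_zero h1
  have ha : ∀ I : Cl F m c (eF F hw u), ((G I : F) : ℂ) ≠ 0 := by
    intro I h
    have h1 := hnorm I
    rw [h, norm_zero, zero_mul, zero_pow two_ne_zero] at h1
    exact (mul_pos (hNI I) hNcR).ne' h1
  have hb : ∀ I : Cl F m c (eF F hw u), s2 (G I : F) ≠ 0 := by
    intro I h
    have h1 := hnorm I
    rw [h, norm_zero, mul_zero, zero_pow two_ne_zero] at h1
    exact (mul_pos (hNI I) hNcR).ne' h1
  -- summability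
  have hsum : Summable fun I : Cl F m c (eF F hw u) =>
      (‖((G I : F) : ℂ)‖ * ‖s2 (G I : F)‖) ^ (1 - 2 * s.re) := by
    have h1 := (summable_norm F (s.re - 1 / 2) (by linarith)).comp_injective
      (Subtype.val_injective (p := fun I => I ∈ Cl F m c (eF F hw u)))
    have h2 := h1.mul_right ((Ideal.absNorm c : ℝ) ^ (-(s.re - 1 / 2)))
    refine h2.congr ?_
    intro I
    rw [Function.comp_apply, if_neg I.2.1, ← Real.mul_rpow (hNI I).le hNcR.le, hnorm I,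
      ← Real.rpow_natCast, ← Real.rpow_mul (by positivity)]
    congr 1
    push_cast
    ring
  have hr : 1 < ‖(((e : 𝓞 F) : F) : ℂ)‖ ^ 2 := by nlinarith
  have key := unfold_abs D.l D.l' (emb u * D.x.1, emb u * D.x.2) (‖(((e : 𝓞 F) : F) : ℂ)‖ ^ 2) hr
    (((e : 𝓞 F) : F) : ℂ) rfl (fun I : Cl F m c (eF F hw u) => ((G I : F) : ℂ))
    (fun I => s2 (G I : F)) ha hb (ψ.trans φ.symm) ?_ ?_ s (by linarith) hsum
  · have key2 := key.mul_left ((conj (emb (psi F c)))⁻¹ * (Ideal.absNorm c : ℂ) ^ s)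
    refine key2.congr_fun ?_
    intro I
    have e1 : conj (emb (psi F (I : Ideal (𝓞 F)))) =
        (conj (emb (psi F c)))⁻¹ * conj (((G I : F) : ℂ) * s2 (G I : F)) := by
      rw [← hpsi I, map_mul]
      have : conj (emb (psi F c)) ≠ 0 := (map_ne_zero _).2 hpc
      field_simp
    have e2 : (Ideal.absNorm (I : Ideal (𝓞 F)) : ℂ) ^ (-s) = (Ideal.absNorm c : ℂ) ^ s *
        ((‖((G I : F) : ℂ)‖ ^ 2 * ‖s2 (G I : F)‖ ^ 2 : ℝ) : ℂ) ^ (-s) := by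
      rw [← mul_pow, ← hnorm I]
      rw [Complex.ofReal_mul, Complex.mul_cpow_ofReal_nonneg (hNI I).le hNcR.le]
      have h5 : ((Ideal.absNorm c : ℝ) : ℂ) ^ (-s) = ((Ideal.absNorm c : ℂ) ^ s)⁻¹ := by
        rw [Complex.cpow_neg]
        norm_num
      have h6 : (Ideal.absNorm c : ℂ) ^ s ≠ 0 := by
        rw [Ne, Complex.cpow_eq_zero_iff]
        rintro ⟨h7, -⟩
        exact hNc (by exact_mod_cast h7)
      rw [h5]
      push_cast
      field_simp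
    rw [e1, e2]
    ring
  · intro I k
    have h1 := (hφ (φ.symm (ψ (I, k)))).1
    rw [φ.apply_symm_apply, hψ I k] at h1
    rw [Equiv.trans_apply, ← h1, ← hpow k]
    rfl
  · intro I k
    have h1 := (hφ (φ.symm (ψ (I, k)))).2
    rw [φ.apply_symm_apply, hψ I k] at h1
    rw [Equiv.trans_apply, ← h1, ← hpow2 k, ← map_mul]
    rfl

end NAB
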