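import Pool.Agent.MP_9ab903_nt.NAB.B1
import Pool.Agent.MP_9ab903_nt.NAB.B3b
import Pool.Agent.MP_9ab903_nt.NAB.B4b
import Pool.Agent.MP_9ab903_nt.NAB.A13

/-! ## [NAB-B5] the `L`-series: entire, value at `s = 1`, Galois action (final result of part B)

`C` from `ray_classes`, `N = 3 N0 ∏_{c ∈ C} absNorm(m c)` (odd), `LD` for each `c ∈ C`. For `c ∈ C`, `u ∈ ℤ[ω]` put
`V c u = π² dt ZZ(0) (u x) / OmC²`, `T c u = emb (psi c) * V c u / dt`. `core_val`, `LD.val`: `T c 1` integral; `core_gal`, `LD.gal`: `gal`.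
`Φ s = ∑_c χ(c) (conj psi(c))⁻¹ (absNorm c)^s π^{2s} Γ(s)^{-2} ZZ(s-1)`, entire (`ZZ_entire`, `1/Γ` entire). For `I ∈ Cl m c u`:
`χ(I) χ(c) = χ((g)) = χ((u))` (`χ(span {g}) = 1` for `g ≡ 1`; choose `u' u ≡ 1 mod m`), so for every `u`:
`L(s) = χ((u)) ∑_c χ(c) [unfold c u]` for `Re s > 3/2`; by the identity theorem this holds for the entire functions, at `s = 1`:
`absNorm c / conj psi(c) = psi(c)`. -/

set_option autoImplicit false

open NumberField IsDedekindDomain MeasureTheory Set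
open CM27 CMT CF
open scoped ComplexConjugate Classical

namespace NAB

variable (F : IntermediateField ℚ ℂ) [NumberField F] (hw : w ∈ F)

/-- Quadratic (or trivial) ray class characters modulo `m`. -/
structure IsRC (m : 𝓞 F) (χ : Ideal (𝓞 F) → ℤ) : Prop where
  mul : ∀ I J, χ (I * J) = χ I * χ J
  zero : ∀ I, ¬ IsCoprime I (Ideal.span {m}) → χ I = 0
  pm : ∀ I, I ≠ 0 → IsCoprime I (Ideal.span {m}) → χ I = 1 ∨ χ I = -1
  one : ∀ g : 𝓞 F, g ≠ 0 → m ∣ g - 1 → χ (Ideal.span {g}) = 1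

/-- `3` is not a unit -/
theorem b5_three : ¬ IsUnit (3 : 𝓞 F) := by
  intro h
  obtain ⟨y, hy⟩ := h.exists_right_inv
  have h1 : (3 : F) * (y : F) = 1 := by
    have := congrArg (algebraMap (𝓞 F) F) hy
    rw [map_mul, map_one, map_ofNat] at this
    exact this
  have h2 : (y : F) = algebraMap ℚ F (1 / 3) := by
    rw [map_div₀, map_one, map_ofNat]
    have h3 : (3 : F) ≠ 0 := by norm_num
    field_simp
    linear_combination h1
  have h3 : IsIntegral ℤ (algebraMap ℚ F (1 / 3)) := by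
    rw [← h2]
    exact y.2
  rw [isIntegral_algebraMap_iff (algebraMap ℚ F).injective] at h3
  obtain ⟨n, hn⟩ := IsIntegrallyClosed.isIntegral_iff.1 h3
  have h4 : ((3 * n : ℤ) : ℚ) = ((1 : ℤ) : ℚ) := by
    have h5 : ((n : ℤ) : ℚ) = 1 / 3 := hn
    push_cast
    rw [h5]
    norm_num
  have h5 : 3 * n = 1 := by exact_mod_cast h4
  omega

/-- the norm of an odd ideal is odd -/
theorem b5_odd (I : Ideal (𝓞 F)) (hI : I ≠ 0) (h : IsCoprime I (Ideal.span {(2 : 𝓞 F)})) :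
    Odd (Ideal.absNorm I) := by
  by_contra hev
  rw [Nat.not_odd_iff_even] at hev
  have h2 : 2 ∣ Nat.card (𝓞 F ⧸ I) := by
    have h3 := hev.two_dvd
    rwa [Ideal.absNorm_apply, Submodule.cardQuot_apply] at h3
  have : Fact (Nat.Prime 2) := ⟨Nat.prime_two⟩
  have : Finite (𝓞 F ⧸ I) := Ideal.finiteQuotientOfFreeOfNeBot I (by simpa using hI)
  obtain ⟨x, hx⟩ := exists_prime_addOrderOf_dvd_card' (G := 𝓞 F ⧸ I) 2 h2
  have h2x : (2 : ℕ) • x = 0 := by rw [← hx, addOrderOf_nsmul_eq_zero]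
  rw [Ideal.isCoprime_iff_exists] at h
  obtain ⟨i, hi, j, hj, hij⟩ := h
  obtain ⟨a, rfl⟩ := Ideal.mem_span_singleton.1 hj
  have h4 : (Ideal.Quotient.mk I (i + 2 * a)) = 1 := by rw [hij, map_one]
  rw [map_add, Ideal.Quotient.eq_zero_iff_mem.2 hi, zero_add, map_mul, map_ofNat] at h4
  have h5 : x = 0 := by
    calc x = (2 * Ideal.Quotient.mk I a) * x := by rw [h4, one_mul]
      _ = Ideal.Quotient.mk I a * ((2 : ℕ) • x) := by rw [nsmul_eq_mul]; push_cast; ring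
      _ = 0 := by rw [h2x, mul_zero]
  rw [h5, addOrderOf_zero] at hx
  norm_num at hx

section
variable {F} {hw}

/-- the numbers `T c u` -/
noncomputable def b5_T {s2 : F →+* ℂ} {m : 𝓞 F} {e : (𝓞 F)ˣ} {c : Ideal (𝓞 F)} {N : ℕ} {δ : ℂ}
    (D : LD F hw s2 m e c N δ) (u : Eis) : ℂ :=
  emb (psi F c) * ((Real.pi : ℂ) ^ 2 * dt D.l D.l' *
    ZZ D.l D.l' (‖(((e : 𝓞 F) : F) : ℂ)‖ ^ 2) (sc u D.x) 0 / OmC ^ 2) / dt D.l D.l'

/-- the entire functions -/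
noncomputable def b5_G {s2 : F →+* ℂ} {m : 𝓞 F} {e : (𝓞 F)ˣ} {c : Ideal (𝓞 F)} {N : ℕ} {δ : ℂ}
    (D : LD F hw s2 m e c N δ) (u : Eis) (s : ℂ) : ℂ :=
  (conj (emb (psi F c)))⁻¹ * (Ideal.absNorm c : ℂ) ^ s * ((Real.pi : ℂ) ^ (2 * s)
    * (Complex.Gamma s ^ 2)⁻¹ * ZZ D.l D.l' (‖(((e : 𝓞 F) : F) : ℂ)‖ ^ 2) (sc u D.x) (s - 1))

theorem b5_sc_one (x : ℂ × ℂ) : sc 1 x = x := by
  rw [sc, map_one, one_mul, one_mul]

variable {s2 : F →+* ℂ} {m : 𝓞 F} {e : (𝓞 F)ˣ} {c : Ideal (𝓞 F)} {N : ℕ} {δ : ℂ}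

theorem b5_T_val (D : LD F hw s2 m e c N δ) (he : 1 < ‖(((e : 𝓞 F) : F) : ℂ)‖) (hN : Odd N)
    (A : ValuationSubring ℂ) (hA : A.valuation 2 < 1) : A.valuation (b5_T D 1) ≤ 1 := by
  rw [b5_T, b5_sc_one, map_div₀, D.val A hA, div_one, map_mul]
  exact mul_le_one₀ (val_emb A _) zero_le
    (core_val D.l D.l' D.hd D.M D.hM _ he D.hl D.hl' D.x N hN D.hx D.hx0 D.hMx A hA)

theorem b5_T_gal (D : LD F hw s2 m e c N δ) (he : 1 < ‖(((e : 𝓞 F) : F) : ℂ)‖) (hN : Odd N)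
    (σ : ℂ ≃+* ℂ) (hσ : σ w = w) (u : Eis) (hu : IsCoprime u (N : Eis))
    (hσu : ∀ c : Eis, ptMap (σ : ℂ →+* ℂ) (pt (emb c / N)) = pt (emb (c * u) / N)) :
    σ (b5_T D 1) * σ δ = b5_T D u * δ := by
  have h1 := core_gal D.l D.l' D.hd D.M D.hM _ he D.hl D.hl' D.x N hN D.hx D.hx0 D.hMx σ hσ u hu
    hσu
  have h2 := D.gal σ hσ
  have h3 : σ (dt D.l D.l') ≠ 0 := by
    rw [Ne, map_eq_zero_iff σ σ.injective]
    exact D.hd
  rw [b5_T, b5_T, b5_sc_one, map_div₀, map_mul, h1, a11b_sig σ hσ]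
  rw [div_mul_eq_mul_div, div_mul_eq_mul_div, div_eq_div_iff h3 D.hd]
  linear_combination (-(emb (psi F c) * ((Real.pi : ℂ) ^ 2 * dt D.l D.l' *
    ZZ D.l D.l' (‖(((e : 𝓞 F) : F) : ℂ)‖ ^ 2) (sc u D.x) 0 / OmC ^ 2))) * h2

theorem b5_G_diff (D : LD F hw s2 m e c N δ) (he : 1 < ‖(((e : 𝓞 F) : F) : ℂ)‖) (hc : c ≠ 0)
    (u : Eis) (hu : IsCoprime u (N : Eis)) : Differentiable ℂ (b5_G D u) := by
  have h1 : Differentiable ℂ (fun s : ℂ => (Ideal.absNorm c : ℂ) ^ s) := by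
    apply Differentiable.const_cpow differentiable_id
    left
    rw [Nat.cast_ne_zero]
    intro h
    exact hc (Ideal.absNorm_eq_zero_iff.1 h)
  have h2 : Differentiable ℂ (fun s : ℂ => (Real.pi : ℂ) ^ (2 * s)) := by
    apply Differentiable.const_cpow (differentiable_id.const_mul 2)
    left
    exact_mod_cast Real.pi_ne_zero
  have h3 : Differentiable ℂ (fun s : ℂ => (Complex.Gamma s ^ 2)⁻¹) := by
    have h4 : (fun s : ℂ => (Complex.Gamma s ^ 2)⁻¹) = fun s => ((Complex.Gamma s)⁻¹) ^ 2 := by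
      funext s
      rw [inv_pow]
    rw [h4]
    exact Complex.differentiable_one_div_Gamma.pow 2
  have h5 : Differentiable ℂ (fun s : ℂ => ZZ D.l D.l' (‖(((e : 𝓞 F) : F) : ℂ)‖ ^ 2)
      (sc u D.x) (s - 1)) := by
    have h6 := ZZ_entire D.l D.l' D.hd (‖(((e : 𝓞 F) : F) : ℂ)‖ ^ 2) (by nlinarith) (sc u D.x)
      (a11b_sc_not N u hu D.x D.hx D.hx0)
    exact h6.comp (differentiable_id.sub_const 1)
  exact (h1.const_mul _).mul ((h2.mul h3).mul h5)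

theorem b5_G_one (D : LD F hw s2 m e c N δ) (hc : c ≠ 0)
    (hc3 : IsCoprime c (Ideal.span {(3 : 𝓞 F)})) (u : Eis) :
    b5_G D u 1 = OmC ^ 2 * b5_T D u := by
  have h1 := psi_mul_conj F hw c hc hc3
  have h2 : (Ideal.absNorm c : ℂ) ≠ 0 := by
    rw [Nat.cast_ne_zero]
    intro h
    exact hc (Ideal.absNorm_eq_zero_iff.1 h)
  have h3 : conj (emb (psi F c)) ≠ 0 := by
    intro h
    rw [h, mul_zero] at h1
    exact h2 h1.symm
  have h4 := OmC_ne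
  have h5 := D.hd
  rw [b5_G, b5_T, Complex.cpow_one, ← h1, Complex.Gamma_one, sub_self, mul_one]
  have h6 : (Real.pi : ℂ) ^ (2 : ℂ) = (Real.pi : ℂ) ^ 2 := by
    rw [← Complex.cpow_natCast]
    norm_num
  rw [h6]
  field_simp

end

/-- the values of the character -/
theorem b5_chi (m : 𝓞 F) (hm1 : ¬ IsUnit m) (χ : Ideal (𝓞 F) → ℤ) (hχ : IsRC F m χ) (u : 𝓞 F)
    (hu : IsCoprime u m) (c : Ideal (𝓞 F)) (hc : c ≠ 0) (hcm : IsCoprime c (Ideal.span {m}))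
    (I : Ideal (𝓞 F)) (hI : I ∈ Cl F m c u) : χ I = χ (Ideal.span {u}) * χ c := by
  obtain ⟨hI0, g, hg0, hgu, hIc⟩ := hI
  obtain ⟨u', a, hu'⟩ := hu
  have hne : ∀ z : 𝓞 F, m ∣ z - 1 → z ≠ 0 := by
    rintro z hz rfl
    apply hm1
    rw [zero_sub, dvd_neg] at hz
    exact isUnit_of_dvd_one hz
  have h1 : m ∣ u * u' - 1 := ⟨-a, by linear_combination hu'⟩
  have h2 : m ∣ g * u' - 1 := by
    have e : g * u' - 1 = (g - u) * u' + (u * u' - 1) := by ring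
    rw [e]
    exact dvd_add (hgu.mul_right _) h1
  have h3 := hχ.one _ (hne _ h1) h1
  have h4 := hχ.one _ (hne _ h2) h2
  rw [← Ideal.span_singleton_mul_span_singleton, hχ.mul] at h3 h4
  have h5 : χ (Ideal.span {u'}) ≠ 0 := by
    intro h
    rw [h, mul_zero] at h3
    exact zero_ne_one h3
  have h6 : χ (Ideal.span {g}) = χ (Ideal.span {u}) := mul_right_cancel₀ h5 (h4.trans h3.symm)
  rw [← hIc, hχ.mul] at h6
  have h7 : χ c * χ c = 1 := by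
    rcases hχ.pm c hc hcm with h | h <;> rw [h] <;> norm_num
  calc χ I = χ I * χ c * χ c := by rw [mul_assoc, h7, mul_one]
    _ = _ := by rw [h6]

theorem b5_hasSum (m : 𝓞 F) (hm1 : ¬ IsUnit m) (χ : Ideal (𝓞 F) → ℤ) (hχ : IsRC F m χ)
    (C : Finset (Ideal (𝓞 F))) (hC : ∀ c ∈ C, c ≠ 0 ∧ IsCoprime c (Ideal.span {m}))
    (u : 𝓞 F) (hu : IsCoprime u m)
    (hray : ∀ I : Ideal (𝓞 F), I ≠ 0 → IsCoprime I (Ideal.span {m}) →
      ∃! c : Ideal (𝓞 F), c ∈ C ∧ ∃ g : 𝓞 F, g ≠ 0 ∧ m ∣ g - u ∧ I * c = Ideal.span {g})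
    (f : Ideal (𝓞 F) → ℂ) (hf0 : f 0 = 0) (G : Ideal (𝓞 F) → ℂ)
    (hG : ∀ c ∈ C, HasSum (fun I : Cl F m c u => f I) (G c)) :
    HasSum (fun I : Ideal (𝓞 F) => (χ I : ℂ) * f I)
      ((χ (Ideal.span {u}) : ℂ) * ∑ c ∈ C, (χ c : ℂ) * G c) := by
  have h1 : ∀ c ∈ C, HasSum ((Cl F m c u).indicator fun I : Ideal (𝓞 F) => (χ I : ℂ) * f I)
      ((χ (Ideal.span {u}) : ℂ) * ((χ c : ℂ) * G c)) := by
    intro c hc
    rw [← hasSum_subtype_iff_indicator]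
    have h2 := (hG c hc).mul_left ((χ (Ideal.span {u}) : ℂ) * (χ c : ℂ))
    rw [mul_assoc] at h2
    refine h2.congr_fun ?_
    intro I
    have h3 := b5_chi F m hm1 χ hχ u hu c (hC c hc).1 (hC c hc).2 I I.2
    change (χ (I : Ideal (𝓞 F)) : ℂ) * f I = _
    rw [h3]
    push_cast
    ring
  have h2 := hasSum_sum h1
  rw [← Finset.mul_sum] at h2
  refine h2.congr_fun ?_
  intro I
  by_cases hI : I ≠ 0 ∧ IsCoprime I (Ideal.span {m})
  · obtain ⟨c, ⟨hcC, hcI⟩, huniq⟩ := hray I hI.1 hI.2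
    rw [Finset.sum_eq_single c]
    · rw [Set.indicator_of_mem]
      exact ⟨hI.1, hcI⟩
    · intro c' hc' hne
      rw [Set.indicator_of_notMem]
      intro h3
      exact hne (huniq c' ⟨hc', h3.2⟩)
    · intro h3
      exact absurd hcC h3
  · have h3 : (χ I : ℂ) * f I = 0 := by
      by_cases hI0 : I = 0
      · rw [hI0, hf0, mul_zero]
      · rw [hχ.zero I (fun h => hI ⟨hI0, h⟩), Int.cast_zero, zero_mul]
    rw [h3, Finset.sum_eq_zero]
    intro c _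
    rw [Set.indicator_apply]
    split_ifs
    · exact h3
    · rfl

/-- identity theorem for entire functions -/
theorem b5_ident (f g : ℂ → ℂ) (hf : Differentiable ℂ f) (hg : Differentiable ℂ g)
    (h : ∀ s : ℂ, 3 / 2 < s.re → f s = g s) : f = g := by
  have h1 : AnalyticOnNhd ℂ f Set.univ := fun z _ => hf.analyticAt z
  have h2 : AnalyticOnNhd ℂ g Set.univ := fun z _ => hg.analyticAt z
  apply h1.eq_of_eventuallyEq h2 (z₀ := 2)
  have h3 : {s : ℂ | 3 / 2 < s.re} ∈ nhds (2 : ℂ) := by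
    apply (isOpen_lt continuous_const Complex.continuous_re).mem_nhds
    show (3 / 2 : ℝ) < (2 : ℂ).re
    norm_num
  filter_upwards [h3] with s hs
  exact h s hs

theorem b5_dvd (m : 𝓞 F) (c : Ideal (𝓞 F)) (N : ℕ)
    (h : Ideal.absNorm (Ideal.span {m} * c) ∣ N) : m ∣ (N : 𝓞 F) := by
  have h1 : ((Ideal.absNorm (Ideal.span {m} * c) : ℕ) : 𝓞 F) ∈ Ideal.span {m} * c :=
    Ideal.absNorm_mem (Ideal.span {m} * c)
  have h2 : Ideal.span {m} * c ≤ Ideal.span {m} := Ideal.mul_le_left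
  have h3 := Ideal.mem_span_singleton.1 (h2 h1)
  exact h3.trans (Nat.cast_dvd_cast h)

theorem hecke_final (h4 : Module.finrank ℚ F = 4) (hodd : ¬ (2 : ℤ) ∣ NumberField.discr F)
    (m : 𝓞 F) (hm0 : m ≠ 0) (h3 : (3 : 𝓞 F) ∣ m) (hm2 : IsCoprime m 2) (N0 : ℕ) (hN0 : Odd N0) :
    ∃ (C : Finset (Ideal (𝓞 F))) (N : ℕ) (T : Ideal (𝓞 F) → Eis → ℂ) (δ : ℂ),
      Odd N ∧ 3 ∣ N ∧ N0 ∣ N ∧ (NumberField.discr F : ℝ) = 9 * ‖δ‖ ^ 4 ∧ δ ≠ 0 ∧
      (∀ c ∈ C, c ≠ 0 ∧ IsCoprime c (Ideal.span {m})) ∧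
      (∀ A : ValuationSubring ℂ, A.valuation 2 < 1 → ∀ c ∈ C, A.valuation (T c 1) ≤ 1) ∧
      (∀ σ : ℂ ≃+* ℂ, σ w = w → ∀ u : Eis, IsCoprime u (N : Eis) → (3 : Eis) ∣ u - 1 →
        (∀ c : Eis, ptMap (σ : ℂ →+* ℂ) (pt (emb c / N)) = pt (emb (c * u) / N)) →
        ∀ c ∈ C, σ (T c 1) * σ δ = T c u * δ) ∧
      ∀ χ : Ideal (𝓞 F) → ℤ, IsRC F m χ → ∃ Φ : ℂ → ℂ, Differentiable ℂ Φ ∧
        (∀ s : ℂ, 3 / 2 < s.re → HasSum (fun I : Ideal (𝓞 F) =>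
          (χ I : ℂ) * conj (emb (psi F I)) * (Ideal.absNorm I : ℂ) ^ (-s)) (Φ s)) ∧
        ∀ u : Eis, IsCoprime u (N : Eis) → (3 : Eis) ∣ u - 1 →
          Φ 1 = OmC ^ 2 * (χ (Ideal.span {eF F hw u}) : ℂ) * ∑ c ∈ C, (χ c : ℂ) * T c u := by
  obtain ⟨s2, hs⟩ := exists_s2 F hw h4
  obtain ⟨δ, hδ⟩ := exists_del F hw h4 s2 hs
  obtain ⟨hdisc, -⟩ := del_disc F hw h4 s2 hs δ hδ
  obtain ⟨e, he⟩ := exists_gen F hw h4 s2 hs m hm0 h3
  have hm1 : ¬ IsUnit m := fun h => b5_three F (isUnit_of_dvd_unit h3 h)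
  obtain ⟨C, hC, hray⟩ := ray_classes F m hm0 hm1 hm2
  have hmI : IsCoprime (Ideal.span {m}) (Ideal.span {(2 : 𝓞 F)}) := by
    rw [Ideal.isCoprime_span_singleton_iff]
    exact hm2
  have hmne : Ideal.span {m} ≠ 0 := by
    rw [Ne, Ideal.zero_eq_bot, Ideal.span_singleton_eq_bot]
    exact hm0
  obtain ⟨N, hN⟩ : ∃ N : ℕ, N = 3 * N0 * ∏ c ∈ C, Ideal.absNorm (Ideal.span {m} * c) :=
    ⟨_, rfl⟩
  have hNodd : Odd N := by
    rw [hN]
    apply Odd.mul ((by decide : Odd 3).mul hN0)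
    apply Finset.prod_induction _ Odd (fun a b ha hb => ha.mul hb) odd_one
    intro c hc
    exact b5_odd F _ (mul_ne_zero hmne (hC c hc).1) (IsCoprime.mul_left hmI (hC c hc).2.2)
  have hN3 : 3 ∣ N := by
    rw [hN]
    exact Dvd.dvd.mul_right (dvd_mul_right _ _) _
  have hNN0 : N0 ∣ N := by
    rw [hN]
    exact Dvd.dvd.mul_right (dvd_mul_left _ _) _
  have hNc : ∀ c ∈ C, Ideal.absNorm (Ideal.span {m} * c) ∣ N := by
    intro c hc
    rw [hN]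
    exact Dvd.dvd.mul_left (Finset.dvd_prod_of_mem _ hc) _
  have hD : ∀ c ∈ C, Nonempty (LD F hw s2 m e c N δ) := fun c hc =>
    exists_LD F hw h4 s2 hs δ hδ hodd m hm0 h3 hm2 e he c (hC c hc).1 (hC c hc).2.1 (hC c hc).2.2
      N (hNc c hc)
  -- `m ∣ N`
  obtain ⟨c₀, hc₀⟩ : ∃ c₀, c₀ ∈ C := by
    obtain ⟨c, hc, -⟩ := hray 1 isCoprime_one_left 1 one_ne_zero isCoprime_one_left
    exact ⟨c, hc.1⟩
  have hmN : m ∣ (N : 𝓞 F) := b5_dvd F m c₀ N (hNc c₀ hc₀)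
  have hcop : ∀ u : Eis, IsCoprime u (N : Eis) → IsCoprime (eF F hw u) m := by
    intro u hu
    have h5 := hu.map (eF F hw)
    rw [map_natCast] at h5
    exact h5.of_isCoprime_of_dvd_right hmN
  have hc3 : ∀ c ∈ C, IsCoprime c (Ideal.span {(3 : 𝓞 F)}) := by
    intro c hc
    refine (hC c hc).2.1.of_isCoprime_of_dvd_right ?_
    rw [Ideal.dvd_span_singleton, Ideal.mem_span_singleton]
    exact h3
  let D : ∀ c, c ∈ C → LD F hw s2 m e c N δ := fun c hc => (hD c hc).some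
  let T : Ideal (𝓞 F) → Eis → ℂ := fun c u => if h : c ∈ C then b5_T (D c h) u else 0
  let G : Ideal (𝓞 F) → Eis → ℂ → ℂ := fun c u s => if h : c ∈ C then b5_G (D c h) u s else 0
  have hT : ∀ c (h : c ∈ C) u, T c u = b5_T (D c h) u := fun c h u => dif_pos h
  have hG : ∀ c (h : c ∈ C) u s, G c u s = b5_G (D c h) u s := fun c h u s => dif_pos h
  refine ⟨C, N, T, δ, hNodd, hN3, hNN0, hdisc, hδ.ne, fun c hc => ⟨(hC c hc).1, (hC c hc).2.1⟩,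
    ?_, ?_, ?_⟩
  · intro A hA c hc
    rw [hT c hc]
    exact b5_T_val (D c hc) he.one_lt hNodd A hA
  · intro σ hσ u hu _ hσu c hc
    rw [hT c hc, hT c hc]
    exact b5_T_gal (D c hc) he.one_lt hNodd σ hσ u hu hσu
  · intro χ hχ
    -- the function for `u`
    have hdiff : ∀ u : Eis, IsCoprime u (N : Eis) → Differentiable ℂ (fun s =>
        (χ (Ideal.span {eF F hw u}) : ℂ) * ∑ c ∈ C, (χ c : ℂ) * G c u s) := by
      intro u hu
      apply Differentiable.const_mul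
      apply Differentiable.fun_sum
      intro c hc
      apply Differentiable.const_mul
      have h5 : G c u = b5_G (D c hc) u := funext fun s => hG c hc u s
      rw [h5]
      exact b5_G_diff (D c hc) he.one_lt (hC c hc).1 u hu
    have hsum : ∀ u : Eis, IsCoprime u (N : Eis) → (3 : Eis) ∣ u - 1 → ∀ s : ℂ, 3 / 2 < s.re →
        HasSum (fun I : Ideal (𝓞 F) =>
          (χ I : ℂ) * conj (emb (psi F I)) * (Ideal.absNorm I : ℂ) ^ (-s))
          ((χ (Ideal.span {eF F hw u}) : ℂ) * ∑ c ∈ C, (χ c : ℂ) * G c u s) := by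
      intro u hu hu3 s hs'
      have h5 := b5_hasSum F m hm1 χ hχ C (fun c hc => ⟨(hC c hc).1, (hC c hc).2.1⟩) (eF F hw u)
        (hcop u hu) (hray _ (hcop u hu))
        (fun I => conj (emb (psi F I)) * (Ideal.absNorm I : ℂ) ^ (-s)) (by
          show conj (emb (psi F 0)) * (Ideal.absNorm (0 : Ideal (𝓞 F)) : ℂ) ^ (-s) = 0
          rw [psi, cm_zero, map_zero, map_zero, zero_mul]) (fun c => G c u s) (by
          intro c hc
          show HasSum _ (G c u s)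
          rw [hG c hc]
          exact unfold F hw h4 s2 hs δ m hm0 h3 e he c (hC c hc).1 (hC c hc).2.1 N (D c hc) u hu3
            (hcop u hu) s hs')
      refine h5.congr_fun ?_
      intro I
      rw [mul_assoc]
    have h1c : IsCoprime (1 : Eis) (N : Eis) := isCoprime_one_left
    have h13 : (3 : Eis) ∣ 1 - 1 := by rw [sub_self]; exact dvd_zero _
    refine ⟨fun s => (χ (Ideal.span {eF F hw 1}) : ℂ) * ∑ c ∈ C, (χ c : ℂ) * G c 1 s, hdiff 1 h1c,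
      hsum 1 h1c h13, ?_⟩
    intro u hu hu3
    have h5 := b5_ident _ _ (hdiff 1 h1c) (hdiff u hu) (fun s hs' =>
      (hsum 1 h1c h13 s hs').unique (hsum u hu hu3 s hs'))
    have h6 : (χ (Ideal.span {eF F hw 1}) : ℂ) * ∑ c ∈ C, (χ c : ℂ) * G c 1 1 =
        (χ (Ideal.span {eF F hw u}) : ℂ) * ∑ c ∈ C, (χ c : ℂ) * G c u 1 := congrFun h5 1
    show (χ (Ideal.span {eF F hw 1}) : ℂ) * ∑ c ∈ C, (χ c : ℂ) * G c 1 1 = _
    rw [h6]
    have h7 : ∑ c ∈ C, (χ c : ℂ) * G c u 1 = OmC ^ 2 * ∑ c ∈ C, (χ c : ℂ) * T c u := by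
      rw [Finset.mul_sum]
      apply Finset.sum_congr rfl
      intro c hc
      rw [hG c hc, hT c hc, b5_G_one (D c hc) (hC c hc).1 (hc3 c hc)]
      ring
    rw [h7]
    ring

end NAB
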