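import Pool.Agent.MP_9ab903_nt.NAB.EDefs
import Pool.Agent.MP_9ab903_nt.NAB.A1

/-!
# [NAB] part B (Hecke `L`-series of the quartic field `F ∋ ω`): definitions

Frame: `F : IntermediateField ℚ ℂ`, `w ∈ F`, `[F : ℚ] = 4`, `eF F hw : Eis →+* 𝓞 F`; the two embeddings of `F` over
`ℚ(ω)` are the inclusion and `s2`.
-/

set_option autoImplicit false

open NumberField IsDedekindDomain MeasureTheory Set
open CM27 CMT CF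
open scoped ComplexConjugate Classical

namespace NAB

section
variable (F : IntermediateField ℚ ℂ) [NumberField F] (hw : w ∈ F)

/-- The embedding over `ℚ(ω)` which is not the inclusion. -/
structure IsS2 (s2 : F →+* ℂ) : Prop where
  fix : s2 ⟨w, hw⟩ = w
  ne : ∃ x : F, s2 x ≠ (x : ℂ)

/-- `e` generates the units congruent to `1` modulo `m`. -/
structure IsGen (s2 : F →+* ℂ) (m : 𝓞 F) (e : (𝓞 F)ˣ) : Prop where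
  cong : m ∣ (e : 𝓞 F) - 1
  one_lt : 1 < ‖(((e : 𝓞 F) : F) : ℂ)‖
  norm : (((e : 𝓞 F) : F) : ℂ) * s2 ((e : 𝓞 F) : F) = 1
  gen : ∀ u : (𝓞 F)ˣ, m ∣ (u : 𝓞 F) - 1 → ∃ k : ℤ, u = e ^ k

/-- The discriminant root: `s2 θ - θ` for an integral basis `1, θ` of `𝓞 F` over `ℤ[ω]`. -/
structure IsDel (s2 : F →+* ℂ) (δ : ℂ) : Prop where
  ne : δ ≠ 0
  basis : ∃ θ : 𝓞 F, δ = s2 (θ : F) - (θ : ℂ) ∧
    ∀ g : 𝓞 F, ∃ a b : Eis, g = eF F hw a + eF F hw b * θ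

/-- Coordinates of the lattice `m c`, of the unit `e`, and of the set `{g ∈ c | g ≡ 1 mod m}`. -/
structure LD (s2 : F →+* ℂ) (m : 𝓞 F) (e : (𝓞 F)ˣ) (c : Ideal (𝓞 F)) (N : ℕ) (δ : ℂ) where
  l : ℂ × ℂ
  l' : ℂ × ℂ
  M : Mt
  x : ℂ × ℂ
  hd : dt l l' ≠ 0
  hM : M.det = 1
  hl : ∀ v, lf l (mv M v) = (((e : 𝓞 F) : F) : ℂ) * lf l v
  hl' : ∀ v, lf l' (mv M v) = (((e : 𝓞 F) : F) : ℂ)⁻¹ * lf l' v
  hx : (emb (N : Eis) * x.1, emb (N : Eis) * x.2) ∈ L2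
  hx0 : x ∉ L2
  hMx : mv M x - x ∈ L2
  bij : ∀ u : Eis, ∃ φ : (Eis × Eis) ≃ {g : 𝓞 F // g ∈ c ∧ m ∣ g - eF F hw u}, ∀ n : Eis × Eis,
    ((((φ n : 𝓞 F)) : F) : ℂ) = lf l ((emb u * x.1, emb u * x.2) + em n) ∧
    s2 ((φ n : 𝓞 F) : F) = lf l' ((emb u * x.1, emb u * x.2) + em n)
  val : ∀ A : ValuationSubring ℂ, A.valuation 2 < 1 → A.valuation (dt l l') = 1
  gal : ∀ σ : ℂ ≃+* ℂ, σ w = w → σ (dt l l') * δ = dt l l' * σ δ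

/-- The ideals `I` with `I c = (g)`, `g ≡ u mod m`. -/
def Cl (m : 𝓞 F) (c : Ideal (𝓞 F)) (u : 𝓞 F) : Set (Ideal (𝓞 F)) :=
  {I | I ≠ 0 ∧ ∃ g : 𝓞 F, g ≠ 0 ∧ m ∣ g - u ∧ I * c = Ideal.span {g}}

end

end NAB
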