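import Pool.Agent.MP_9ab903_nt.NAB.EU6
import Pool.Agent.MP_9ab903_nt.CF3.U1

set_option autoImplicit false

open NumberField IsDedekindDomain UniqueFactorizationMonoid ArithmeticFunction
open CM27 CMT CF
open scoped ComplexConjugate Classical

namespace NAB

/-! ## [NAB-BV1] the Euler factors at the good primes are `2`-adic units (file NAB/BV1.lean) -/

theorem LS_mono {S S' : Finset Eis} (h : S ⊆ S') : LS S ≤ LS S' := by
  unfold LS
  refine IntermediateField.adjoin.mono ℚ _ _ ?_
  refine Set.union_subset_union_right _ ?_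
  rintro c ⟨b, hb, δ, hδ⟩
  exact ⟨b, h hb, δ, hδ⟩

section
variable (S : Finset Eis) (hS : ∀ b ∈ S, GoodEis b) (F : IntermediateField ℚ ℂ) [NumberField F]
  (hw : w ∈ F) (hF : F ≤ LS S) (n : ℕ) (h : Module.finrank ℚ F = 2 ^ (n + 1))
include hS hw hF h

theorem two_not_cube' (p : ℕ) (hp : GoodPrime p) (v : HeightOneSpectrum (𝓞 F))
    (hv : (p : 𝓞 F) ∈ v.asIdeal) (x : 𝓞 F) : x ^ 3 - 2 ∉ v.asIdeal := by
  obtain ⟨a, ha, hn⟩ := exists_primary_prime p hp.1 hp.2.1
  have hns : (star a).norm = p := by rw [QuadraticAlgebra.norm_star]; exact hn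
  set S' : Finset Eis := S ∪ {a, star a} with hS'
  have hgood : ∀ b ∈ S', GoodEis b := by
    intro b hb
    rw [hS', Finset.mem_union, Finset.mem_insert, Finset.mem_singleton] at hb
    rcases hb with hb | rfl | rfl
    · exact hS b hb
    · exact ⟨ha, p, hp, hn⟩
    · exact ⟨ha.star, p, hp, hns⟩
  have hF' : F ≤ LS S' := hF.trans (LS_mono Finset.subset_union_left)
  rcases (mem_above_split F hw p a hn v).1 hv with h1 | h1
  · exact two_not_cube_F S' hgood F hw hF' n h a (by simp [hS']) v h1 x
  · exact two_not_cube_F S' hgood F hw hF' n h (star a) (by simp [hS']) v h1 x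

omit hS hF h in
/-- the number of points over the residue field -/
theorem norm_psiv_sub_one (v : HeightOneSpectrum (𝓞 F)) (h3 : (3 : 𝓞 F) ∉ v.asIdeal) :
    ((Nat.card (E (IsLocalRing.ResidueField (v.adicCompletionIntegers F))).toAffine.Point : ℕ) : ℤ) =
      (psiv F v - 1).norm := by
  obtain ⟨hc, hfin⟩ := card_residue F v
  obtain ⟨b, f, hb, hbp, hvb, hf, hcard, hpsi⟩ := psiv_spec F hw v h3
  have h5 := card_E_prime b hb hbp f hf (IsLocalRing.ResidueField (v.adicCompletionIntegers F))
    (by rw [hc, hcard])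
  have h6 : emb b * conj (emb b) = ((b.norm.natAbs : ℕ) : ℂ) := by
    rw [Complex.mul_conj, normSq_emb, Nat.cast_natAbs, abs_of_nonneg (norm_nonneg' _)]
    push_cast
    rfl
  have h7 : emb (psiv F v - 1) * conj (emb (psiv F v - 1)) = (((psiv F v - 1).norm : ℤ) : ℂ) := by
    rw [Complex.mul_conj, normSq_emb]
    push_cast
    rfl
  have h8 : (((Nat.card (E (IsLocalRing.ResidueField
      (v.adicCompletionIntegers F))).toAffine.Point : ℕ) : ℤ) : ℂ) =
      (((psiv F v - 1).norm : ℤ) : ℂ) := by
    rw [← h7, Int.cast_natCast, h5, ← h6, hpsi, map_sub, map_one, map_pow, map_sub, map_one,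
      map_pow, mul_pow]
    ring
  exact_mod_cast h8

omit hS hF h in
theorem norm_psiv (v : HeightOneSpectrum (𝓞 F)) (h3 : (3 : 𝓞 F) ∉ v.asIdeal) :
    (psiv F v).norm = (Nat.card (𝓞 F ⧸ v.asIdeal) : ℤ) := by
  obtain ⟨b, f, hb, hbp, hvb, hf, hcard, hpsi⟩ := psiv_spec F hw v h3
  rw [hpsi, hcard, map_pow, Nat.cast_pow, Int.natAbs_of_nonneg (norm_nonneg' _)]

omit hS hF h in
/-- no point of order `2` over the residue field -/
theorem odd_norm_psiv_sub_one (v : HeightOneSpectrum (𝓞 F)) (h3 : (3 : 𝓞 F) ∉ v.asIdeal)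
    (h2 : (2 : 𝓞 F) ∉ v.asIdeal) (hx : ∀ x : 𝓞 F, x ^ 3 - 2 ∉ v.asIdeal) :
    Odd (psiv F v - 1).norm := by
  rw [← norm_psiv_sub_one F hw v h3]
  set k := IsLocalRing.ResidueField (v.adicCompletionIntegers F) with hk
  obtain ⟨hc, hfin⟩ := card_residue F v
  have h2k : (2 : k) ≠ 0 := by
    intro h5
    apply h2
    rw [← (residue_completion F v).2, RingHom.mem_ker, map_ofNat]
    exact h5
  have hfinP : Finite (E k).toAffine.Point := by
    have h1 : Finite (Option (k × k)) := inferInstance
    refine Finite.of_injective (β := Option (k × k)) (fun P : (E k).toAffine.Point => match P with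
      | .zero => none
      | .some x y _ => some (x, y)) ?_
    rintro (_ | ⟨x, y, hxy⟩) (_ | ⟨x', y', hxy'⟩) h
    · rfl
    · cases h
    · cases h
    · simp only [Option.some.injEq, Prod.mk.injEq] at h
      obtain ⟨rfl, rfl⟩ := h
      rfl
  by_contra hev
  have hev' : 2 ∣ Nat.card (E k).toAffine.Point := by
    rw [Int.not_odd_iff_even, Int.even_coe_nat] at hev
    exact hev.two_dvd
  haveI : Fact (Nat.Prime 2) := ⟨Nat.prime_two⟩
  obtain ⟨P, hP⟩ := exists_prime_addOrderOf_dvd_card' (G := (E k).toAffine.Point) 2 hev'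
  have h2P : 2 • P = 0 := by rw [← hP, addOrderOf_nsmul_eq_zero]
  have hP0 : P ≠ 0 := by
    rintro rfl
    rw [addOrderOf_zero] at hP
    norm_num at hP
  rcases P with _ | ⟨x, y, hxy⟩
  · exact hP0 rfl
  · have h5 : WeierstrassCurve.Affine.Point.some x y hxy =
        -WeierstrassCurve.Affine.Point.some x y hxy := by
      rw [two_nsmul] at h2P
      exact eq_neg_of_add_eq_zero_left h2P
    rw [WeierstrassCurve.Affine.Point.neg_some] at h5
    have h6 := ((WeierstrassCurve.Affine.Point.some.injEq _ _ _ _ _ _).mp h5).2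
    have h7 : (E k).toAffine.negY x y = -y - 1 := by
      simp [WeierstrassCurve.Affine.negY, E]
    rw [h7] at h6
    have h8 : 2 * y = -1 := by linear_combination h6
    have h9 : y ^ 2 + y = x ^ 3 := by
      have h10 := (WeierstrassCurve.Affine.equation_iff _ _).1 hxy.1
      simp only [E] at h10
      linear_combination h10
    have h10 : (-2 * x) ^ 3 = 2 := by
      have h11 : 4 * x ^ 3 = -1 := by
        rw [← h9]
        linear_combination (2 * y + 1) * h8
      linear_combination -2 * h11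
    obtain ⟨r, hr⟩ := (residue_completion F v).1 (-2 * x)
    apply hx r
    rw [← (residue_completion F v).2, RingHom.mem_ker, map_sub, map_pow, map_ofNat]
    have h12 : ((IsLocalRing.residue (v.adicCompletionIntegers F)).comp
        (algebraMap (𝓞 F) (v.adicCompletionIntegers F))) r = -2 * x := hr
    rw [h12, h10, sub_self]

end

end NAB
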