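import Pool.Agent.MP_9ab903_nt.NAB.BV1
import Pool.Agent.MP_9ab903_nt.NAB.BV3
import Pool.Agent.MP_9ab903_nt.CF3.RV

set_option autoImplicit false

open NumberField IsDedekindDomain UniqueFactorizationMonoid
open CM27 CMT CF
open scoped ComplexConjugate Classical

namespace NAB

/-! ## [NAB-BV4] the value of the base `L`-function (file NAB/BV4.lean) -/

section
variable (F : IntermediateField ℚ ℂ) [NumberField F]

theorem symb_one (v : HeightOneSpectrum (𝓞 F)) : symb (1 : F) v = 1 := by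
  rw [symb, if_pos (by rw [map_one]; exact ⟨1, (mul_one 1).symm⟩), if_pos]
  refine ⟨1, ?_⟩
  rw [one_pow, sub_self, map_zero, mul_one, zero_lt_iff, Ne, Valuation.zero_iff]
  norm_num

theorem lam_d_one (I : Ideal (𝓞 F)) : lam F (1 : F) I = emb (psi F I) := by
  by_cases hI : I = 0
  · rw [hI, lam_zero, psi, cm_zero, map_zero]
  · have h1 : chi (1 : F) I = 1 := by
      refine ideal_induction (P := fun I => chi (1 : F) I = 1) ?_ ?_ I hI
      · exact cm_one _
      · intro v I _ ih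
        rw [chi, cm_mul, cm_prime, symb_one, one_mul]
        exact ih
    rw [lam, h1, Int.cast_one, one_mul]

/-- the values of `ψ` as complex numbers -/
noncomputable def hvF (v : HeightOneSpectrum (𝓞 F)) : ℂ := emb (psiv F v)

theorem emb_psi (I : Ideal (𝓞 F)) : emb (psi F I) = cm (hvF F) I := by
  have h := cm_unique (fun I => emb (psi F I)) (by rw [psi, cm_zero, map_zero])
    (by rw [psi, cm_one, map_one]) (fun I J => by rw [psi, psi, psi, cm_mul, map_mul])
  rw [congrFun h I]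
  congr 1
  funext v
  rw [psi, cm_prime, hvF]

theorem emb_psi' : (fun I => emb (psi F I)) = cm (hvF F) := funext (emb_psi F)

/-- the primes dividing `m` -/
noncomputable def pd (m : 𝓞 F) : Finset (HeightOneSpectrum (𝓞 F)) :=
  if h : m ≠ 0 then
    (Ideal.finite_factors (I := Ideal.span {m}) (by rwa [Ne, Ideal.zero_eq_bot, Ideal.span_singleton_eq_bot])).toFinset
  else ∅

theorem mem_pd (m : 𝓞 F) (hm : m ≠ 0) (v : HeightOneSpectrum (𝓞 F)) :
    v ∈ pd F m ↔ m ∈ v.asIdeal := by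
  rw [pd, dif_pos hm, Set.Finite.mem_toFinset, Set.mem_setOf_eq, Ideal.dvd_span_singleton]

theorem lamR_eq (m : 𝓞 F) (hm : m ≠ 0) : lamR F m = cm (kill F (pd F m) (hvF F)) := by
  have h := cm_unique (lamR F m) (by
      rw [lamR, psi, cm_zero, map_zero, ite_self]) (by
      rw [lamR, if_pos isCoprime_one_left, psi, cm_one, map_one]) (by
      intro I J
      rw [lamR, lamR, lamR, psi, psi, psi, cm_mul, map_mul]
      by_cases h1 : IsCoprime I (Ideal.span {m})
      · by_cases h2 : IsCoprime J (Ideal.span {m})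
        · rw [if_pos h1, if_pos h2, if_pos (h1.mul_left h2)]
        · rw [if_neg h2, if_neg (fun h3 => h2 (IsCoprime.of_mul_left_right h3)), mul_zero]
      · rw [if_neg h1, if_neg (fun h3 => h1 (IsCoprime.of_mul_left_left h3)), zero_mul])
  rw [h]
  congr 1
  funext v
  rw [lamR, kill, psi, cm_prime, hvF]
  have h1 : IsCoprime v.asIdeal (Ideal.span {m}) ↔ v ∉ pd F m := by
    rw [mem_pd F m hm, Ideal.isCoprime_iff_sup_eq]
    constructor
    · intro h2 h3
      apply v.isPrime.ne_top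
      rw [← h2]
      symm
      rw [sup_eq_left, Ideal.span_singleton_le_iff_mem]
      exact h3
    · intro h2
      by_contra h3
      apply h2
      rw [v.isMaximal.eq_of_le h3 le_sup_left]
      exact Ideal.mem_sup_right (Ideal.mem_span_singleton_self m)
  by_cases h2 : v ∈ pd F m
  · rw [if_pos h2, if_neg (fun h3 => (h1.1 h3) h2)]
  · rw [if_neg h2, if_pos (h1.2 h2)]

end

section
variable (S : Finset Eis) (hS : ∀ b ∈ S, GoodEis b) (F : IntermediateField ℚ ℂ) [NumberField F]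
  (hw : w ∈ F) (hF : F ≤ LS S) (h : Module.finrank ℚ F = 2 ^ (1 + 1))

include hw in
theorem norm_hv (v : HeightOneSpectrum (𝓞 F)) (h3 : (3 : 𝓞 F) ∉ v.asIdeal) :
    hvF F v * conj (hvF F v) = (Ideal.absNorm v.asIdeal : ℂ) := by
  rw [hvF, Complex.mul_conj, normSq_emb, norm_psiv F hw v h3, Ideal.absNorm_apply,
    Submodule.cardQuot_apply]
  push_cast
  rfl

include hw in
theorem norm_hv_le (v : HeightOneSpectrum (𝓞 F)) : ‖hvF F v‖ ^ 2 ≤ Ideal.absNorm v.asIdeal := by
  by_cases h3 : (3 : 𝓞 F) ∈ v.asIdeal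
  · rw [hvF, psiv_three F hw v h3, map_zero, norm_zero, zero_pow two_ne_zero]
    exact Nat.cast_nonneg _
  · have h1 := norm_hv F hw v h3
    rw [Complex.mul_conj, Complex.normSq_eq_norm_sq] at h1
    have h2 : ‖hvF F v‖ ^ 2 = (Ideal.absNorm v.asIdeal : ℝ) := by exact_mod_cast h1
    rw [h2]

include hS hw hF h in
/-- the Euler factors at the bad primes -/
theorem factor_unit (v : HeightOneSpectrum (𝓞 F))
    (hgood : (3 : 𝓞 F) ∈ v.asIdeal ∨ ∃ p : ℕ, GoodPrime p ∧ (p : 𝓞 F) ∈ v.asIdeal) :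
    ∃ r : ℚ, 0 < r ∧ padicValRat 2 r = 0 ∧
      ‖1 - hvF F v * (Ideal.absNorm v.asIdeal : ℂ) ^ (-(1 : ℂ))‖ ^ 2 = r := by
  by_cases h3 : (3 : 𝓞 F) ∈ v.asIdeal
  · refine ⟨1, one_pos, by simp, ?_⟩
    rw [hvF, psiv_three F hw v h3, map_zero, zero_mul, sub_zero, norm_one]
    simp
  · obtain ⟨p, hp, hpv⟩ := hgood.resolve_left h3
    have hpodd : Odd p := by
      rcases hp.1.eq_two_or_odd' with h5 | h5
      · exfalso
        have h6 := hp.2.1
        rw [h5] at h6
        norm_num at h6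
      · exact h5
    have hN : Odd (Ideal.absNorm v.asIdeal) := by
      have h5 : Ideal.absNorm v.asIdeal ∣ Ideal.absNorm (Ideal.span {(p : 𝓞 F)}) :=
        Ideal.absNorm_dvd_absNorm_of_le ((Ideal.span_singleton_le_iff_mem _).2 hpv)
      rw [Ideal.absNorm_span_natCast] at h5
      exact (hpodd.pow).of_dvd_nat h5
    have h2 : (2 : 𝓞 F) ∉ v.asIdeal := by
      intro h5
      obtain ⟨k, hk⟩ := hpodd
      apply v.isPrime.ne_top
      rw [Ideal.eq_top_iff_one]
      have h6 : (1 : 𝓞 F) = p - k * 2 := by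
        rw [hk]
        push_cast
        ring
      rw [h6]
      exact Ideal.sub_mem _ hpv (Ideal.mul_mem_left _ _ h5)
    have hodd := odd_norm_psiv_sub_one F hw v h3 h2 (two_not_cube' S hS F hw hF 1 h p hp v hpv)
    set N : ℕ := Ideal.absNorm v.asIdeal with hNdef
    have hN0 : (N : ℂ) ≠ 0 := by exact_mod_cast hN.pos.ne'
    have h4 := norm_hv F hw v h3
    rw [← hNdef] at h4
    have hM0 : (0 : ℤ) < (psiv F v - 1).norm := by
      have h5 := norm_nonneg' (psiv F v - 1)
      rcases h5.lt_or_eq with h6 | h6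
      · exact h6
      · rw [← h6] at hodd
        exact absurd hodd (by decide)
    obtain ⟨M, hM⟩ := Int.eq_ofNat_of_zero_le hM0.le
    have hModd : Odd M := by
      rw [hM] at hodd
      exact_mod_cast hodd
    refine ⟨(M : ℚ) / N, ?_, ?_, ?_⟩
    · have h5 : (0 : ℚ) < M := by exact_mod_cast hModd.pos
      have h6 : (0 : ℚ) < N := by exact_mod_cast hN.pos
      positivity
    · haveI : Fact (Nat.Prime 2) := ⟨Nat.prime_two⟩
      rw [padicValRat.div (by exact_mod_cast hModd.pos.ne') (by exact_mod_cast hN.pos.ne'),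
        padic_unit_odd hModd, padic_unit_odd hN, sub_self]
    · have h5 : (1 - hvF F v * (N : ℂ) ^ (-(1 : ℂ))) * conj (1 - hvF F v * (N : ℂ) ^ (-(1 : ℂ))) =
          (M : ℂ) / N := by
        have h6 : emb (psiv F v - 1) * conj (emb (psiv F v - 1)) = (M : ℂ) := by
          rw [Complex.mul_conj, normSq_emb, hM]
          push_cast
          rfl
        rw [← h6, Complex.cpow_neg_one, map_sub, map_sub, map_mul, map_inv₀, map_one,
          map_one, Complex.conj_natCast, ← hvF, map_sub, map_one]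
        field_simp
        linear_combination (1 - (N : ℂ)) * h4
      rw [Complex.mul_conj, Complex.normSq_eq_norm_sq] at h5
      have h7 : ((‖1 - hvF F v * (N : ℂ) ^ (-(1 : ℂ))‖ ^ 2 : ℝ) : ℂ) = (((M : ℝ) / N : ℝ) : ℂ) := by
        rw [h5]
        push_cast
        rfl
      rw [Complex.ofReal_inj] at h7
      rw [h7]
      push_cast
      rfl

include hS hw hF h in
theorem factors_unit (T : Finset (HeightOneSpectrum (𝓞 F)))
    (hgood : ∀ v ∈ T, (3 : 𝓞 F) ∈ v.asIdeal ∨ ∃ p : ℕ, GoodPrime p ∧ (p : 𝓞 F) ∈ v.asIdeal) :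
    ∃ r : ℚ, 0 < r ∧ padicValRat 2 r = 0 ∧
      ‖∏ v ∈ T, (1 - hvF F v * (Ideal.absNorm v.asIdeal : ℂ) ^ (-(1 : ℂ)))‖ ^ 2 = r := by
  choose! r h1 h2 h3 using fun v (hv : v ∈ T) => factor_unit S hS F hw hF h v (hgood v hv)
  refine ⟨∏ v ∈ T, r v, Finset.prod_pos h1, ?_, ?_⟩
  · have : ∀ T' ⊆ T, padicValRat 2 (∏ v ∈ T', r v) = 0 := by
      intro T'
      induction T' using Finset.induction_on with
      | empty =>
        intro _
        rw [Finset.prod_empty]
        simp
      | insert v T' hv ih =>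
        intro h4
        rw [Finset.prod_insert hv]
        have h5 : T' ⊆ T := (Finset.subset_insert v T').trans h4
        have h6 : v ∈ T := h4 (Finset.mem_insert_self v T')
        exact padic_unit_mul (h1 v h6).ne' (Finset.prod_pos fun u hu => h1 u (h5 hu)).ne' (h2 v h6)
          (ih h5)
    exact this T Finset.Subset.rfl
  · rw [norm_prod, ← Finset.prod_pow, Finset.prod_congr rfl h3]
    push_cast
    rfl

/-- the base field has `L`-function `L(ψ) L(conj ψ)` -/
theorem LC_lam (hw : w ∈ F) (h3 : ∀ v : HeightOneSpectrum (𝓞 F), (3 : 𝓞 F) ∈ v.asIdeal →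
      ∃ (k : ℕ) (ϖ u : v.adicCompletionIntegers F), ¬ 3 ∣ k ∧ Irreducible ϖ ∧ IsUnit u ∧
      (3 : v.adicCompletionIntegers F) = u * ϖ ^ k) :
    LC F = IL F (cm (hvF F)) * IL F (fun I => conj (cm (hvF F) I)) := by
  have h1 := LCW_lam F hw h3 1 one_ne_zero (by rw [sub_self]; exact dvd_zero 4) 0 (by
    rw [mul_zero, zero_add]
    norm_cast)
  have h2 : LCW F (Wt (0 : F)) = LC F := rfl
  rw [h2] at h1
  have h4 : lam F ((1 : 𝓞 F) : F) = cm (hvF F) := by
    funext I
    have h5 : (((1 : 𝓞 F) : F)) = 1 := by norm_cast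
    rw [h5, lam_d_one, emb_psi]
  rw [h1, h4]

end

section
variable (S : Finset Eis) (hS : ∀ b ∈ S, GoodEis b) (F : IntermediateField ℚ ℂ) [NumberField F]
  (hw : w ∈ F) (hF : F ≤ LS S) (h : Module.finrank ℚ F = 2 ^ (1 + 1))
include hS hw hF h

/-- **The value of the base `L`-function.** -/
theorem base_value (m : 𝓞 F) (hm : m ≠ 0)
    (hgood : ∀ v : HeightOneSpectrum (𝓞 F), m ∈ v.asIdeal →
      (3 : 𝓞 F) ∈ v.asIdeal ∨ ∃ p : ℕ, GoodPrime p ∧ (p : 𝓞 F) ∈ v.asIdeal)
    (Φ : ℂ → ℂ) (hΦ : Differentiable ℂ Φ)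
    (hs : ∀ s : ℂ, 3 / 2 < s.re → Φ s = LSeries (fun n => IL F (lamR F m) n) s) :
    ∃ q : ℚ, 0 < q ∧ padicValRat 2 q = 0 ∧ ‖Φ 1‖ ^ 2 * √|(discr F : ℝ)| = q * Om ^ 4 := by
  obtain ⟨L, d1, s1, n1, q₁, hq₁, v₁, e₁⟩ := analytic_Fq S hS F hw hF 1 h
  have h3 := fun v hv => three_ram S hS F hw hF 1 h v hv
  set P : ℂ → ℂ := fun s => ∏ v ∈ pd F m, (1 - hvF F v * (Ideal.absNorm v.asIdeal : ℂ) ^ (-s)) with hP
  have dP : Differentiable ℂ P := by
    refine Differentiable.fun_finsetProd fun v _ => ?_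
    refine (differentiable_const _).sub ((differentiable_const _).mul ?_)
    intro s
    refine DifferentiableAt.const_cpow differentiableAt_id.neg (Or.inl ?_)
    exact_mod_cast absNorm_ne_zero F v.ne_bot
  have hcm : ∀ I : Ideal (𝓞 F), I ≠ 0 → ‖cm (hvF F) I‖ ^ 2 ≤ Ideal.absNorm I :=
    norm_cm_le F _ (norm_hv_le F hw)
  have key : ∀ s : ℂ, 3 / 2 < s.re → Φ s * conj (Φ (conj s)) = P s * conj (P (conj s)) * L s := by
    intro s h5
    have h5' : 3 / 2 < (conj s).re := by rw [Complex.conj_re]; exact h5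
    have h6 : ∀ s : ℂ, 3 / 2 < s.re → Φ s = P s * LSeries (fun n => IL F (cm (hvF F)) n) s := by
      intro s h5
      rw [hs s h5, lamR_eq F m hm, LSeries_kill F (hvF F) (norm_hv_le F hw) (pd F m) s h5]
    have h7 : L s = LSeries (fun n => IL F (cm (hvF F)) n) s *
        conj (LSeries (fun n => IL F (cm (hvF F)) n) (conj s)) := by
      rw [(s1 s h5).2, ← LSeries_conj]
      have t2 : (E F).LSeries s = LSeries (fun k => LC F k) s := rfl
      rw [t2, LC_lam F hw h3]
      refine ArithmeticFunction.LSeries_mul' (LSeriesSummable_IL F _ hcm s h5)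
        (LSeriesSummable_IL F _ ?_ s h5)
      intro I hI
      rw [Complex.norm_conj]
      exact hcm I hI
    rw [h6 s h5, h6 _ h5', h7, map_mul]
    ring
  have hall : (fun s => Φ s * conj (Φ (conj s))) = fun s => P s * conj (P (conj s)) * L s := by
    have cc : ∀ f : ℂ → ℂ, Differentiable ℂ f → Differentiable ℂ (fun s => conj (f (conj s))) :=
      fun f hf s => differentiableAt_conj_conj_iff.2 (hf (conj s))
    have a1 : AnalyticOnNhd ℂ (fun s => Φ s * conj (Φ (conj s))) Set.univ := fun z _ =>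
      (hΦ.mul (cc Φ hΦ)).analyticAt z
    have a2 : AnalyticOnNhd ℂ (fun s => P s * conj (P (conj s)) * L s) Set.univ := fun z _ =>
      ((dP.mul (cc P dP)).mul d1).analyticAt z
    refine a1.eq_of_eventuallyEq a2 (z₀ := 2) ?_
    have hopen : IsOpen {s : ℂ | 3 / 2 < s.re} := isOpen_lt continuous_const Complex.continuous_re
    exact Filter.eventually_of_mem (hopen.mem_nhds (by norm_num)) key
  have h1 := congrFun hall 1
  simp only [map_one] at h1
  obtain ⟨r, hr, vr, er⟩ := factors_unit S hS F hw hF h (pd F m)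
    (fun v hv => hgood v ((mem_pd F m hm v).1 hv))
  have er' : ‖P 1‖ ^ 2 = r := er
  rw [Complex.mul_conj, Complex.mul_conj, Complex.normSq_eq_norm_sq, Complex.normSq_eq_norm_sq,
    er'] at h1
  have hper := period_F S hS F hw hF 1 h
  rw [hper] at e₁
  refine ⟨r * (q₁ * 3), by positivity, ?_, ?_⟩
  · have v3 : padicValRat 2 (3 : ℚ) = 0 := by
      have := padic_unit_odd (N := 3) (by decide)
      exact_mod_cast this
    exact padic_unit_mul hr.ne' (by positivity) vr
      (padic_unit_mul hq₁.ne' (by norm_num) v₁ v3)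
  · have h2 : ((‖Φ 1‖ ^ 2 * √|(discr F : ℝ)| : ℝ) : ℂ) = ((r * (q₁ * (√3 ^ 2 ^ 1 *
        Om ^ (2 * 2 ^ 1))) : ℝ) : ℂ) := by
      push_cast
      push_cast at h1 e₁
      rw [h1]
      linear_combination (r : ℂ) * e₁
    rw [Complex.ofReal_inj] at h2
    rw [h2]
    have h5 : √3 ^ 2 ^ 1 = (3 : ℝ) := by
      rw [pow_one]
      exact Real.sq_sqrt (by norm_num)
    rw [h5]
    push_cast
    ring

end

end NAB
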