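import Pool.Agent.MP_9ab903_nt.NAB.Alg
import Pool.Agent.MP_9ab903_nt.NAB.BV4
import Pool.Agent.MP_9ab903_nt.CF3.Fin4

set_option autoImplicit false

open NumberField IsDedekindDomain
open CM27 CMT CF
open scoped ComplexConjugate Classical

namespace NAB

/-! ## [NAB-Fin] the final assembly from the analytic half (file NAB/Fin.lean) -/

/-- what the analytic half gives for the Hecke character `λ = χ_d ψ` -/
def AData (F : IntermediateField ℚ ℂ) [NumberField F] (d : 𝓞 F) : Prop :=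
  ∃ Φ : ℂ → ℂ, Differentiable ℂ Φ ∧
    (∀ s : ℂ, 3 / 2 < s.re → Φ s = LSeries (fun k => IL F (lam F d) k) s) ∧
    ∃ q : ℚ, 0 < q ∧ padicValRat 2 q = 0 ∧
      ‖Φ 1‖ ^ 2 * √|(discr F : ℝ)| * √((Algebra.norm ℤ d).natAbs : ℝ) = q * Om ^ 4

section
variable (F : IntermediateField ℚ ℂ) [NumberField F] (hw : w ∈ F)

theorem symb_cases (d : F) (v : HeightOneSpectrum (𝓞 F)) :
    symb d v = 0 ∨ symb d v = 1 ∨ symb d v = -1 := by
  rw [symb]
  split_ifs <;> simp

theorem norm_symb_le (d : F) (v : HeightOneSpectrum (𝓞 F)) : ‖((symb d v : ℤ) : ℂ)‖ ≤ 1 := by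
  rcases symb_cases F d v with h | h | h <;> rw [h] <;> simp

theorem lam_eq_cm (d : F) : lam F d = cm fun v => (symb d v : ℂ) * hvF F v := by
  have h := cm_unique (lam F d) (lam_zero F d) (lam_one F d) (lam_mul F d)
  rw [h]
  congr 1
  funext v
  rw [lam_prime, hvF]

include hw

theorem norm_lam_le (d : F) (I : Ideal (𝓞 F)) (hI : I ≠ 0) :
    ‖lam F d I‖ ^ 2 ≤ Ideal.absNorm I := by
  rw [lam_eq_cm]
  refine norm_cm_le F _ (fun v => ?_) I hI
  rw [norm_mul, mul_pow]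
  have h1 : ‖((symb d v : ℤ) : ℂ)‖ ^ 2 ≤ 1 := pow_le_one₀ (norm_nonneg _) (norm_symb_le F d v)
  calc ‖((symb d v : ℤ) : ℂ)‖ ^ 2 * ‖hvF F v‖ ^ 2 ≤ 1 * ‖hvF F v‖ ^ 2 :=
        mul_le_mul_of_nonneg_right h1 (by positivity)
    _ ≤ _ := by
      rw [one_mul]
      exact norm_hv_le F hw v

end

section
variable (S : Finset Eis) (hS : ∀ b ∈ S, GoodEis b) (F : IntermediateField ℚ ℂ) [NumberField F]
  (hw : w ∈ F) (hF : F ≤ LS S) (h : Module.finrank ℚ F = 2 ^ (1 + 1))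
  (d : 𝓞 F) (hd : d ≠ 0) (h4 : (4 : 𝓞 F) ∣ d - 1)
  (hgood : ∀ v : HeightOneSpectrum (𝓞 F), d ∈ v.asIdeal → (3 : 𝓞 F) ∈ v.asIdeal ∨
      ∃ p : ℕ, GoodPrime p ∧ (p : 𝓞 F) ∈ v.asIdeal) (hA : AData F d)
include hS hw hF h hd h4 hA

theorem analytic_d (e : F) (he : 4 * e + 1 = (d : F) ^ 3) : ∃ L : ℂ → ℂ, Differentiable ℂ L ∧
    (∀ s : ℂ, 3 / 2 < s.re → LSeriesSummable (fun k => ((Wt e).LFunction k : ℂ)) s ∧
      L s = (Wt e).LSeries s) ∧ L 1 ≠ 0 ∧
    ∃ q : ℚ, 0 < q ∧ padicValRat 2 q = 0 ∧ L 1 * ((√|(discr F : ℝ)| : ℝ) : ℂ) =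
      q * ((period F / √((Algebra.norm ℤ d).natAbs : ℝ) : ℝ) : ℂ) := by
  obtain ⟨Φ, hΦ, hs, q, hq, vq, eq⟩ := hA
  have h3 := fun v hv => three_ram S hS F hw hF 1 h v hv
  have hlam := norm_lam_le F hw (d : F)
  have hlam' : ∀ I : Ideal (𝓞 F), I ≠ 0 → ‖conj (lam F (d : F) I)‖ ^ 2 ≤ Ideal.absNorm I := by
    intro I hI
    rw [Complex.norm_conj]
    exact hlam I hI
  have cc : Differentiable ℂ (fun s => conj (Φ (conj s))) :=
    fun s => differentiableAt_conj_conj_iff.2 (hΦ (conj s))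
  have hNodd : Odd (Algebra.norm ℤ d).natAbs := norm_odd F d h4 hd
  set N : ℕ := (Algebra.norm ℤ d).natAbs with hN
  have hL : (fun k => ((Wt e).LFunction k : ℂ)) =
      fun k => (IL F (lam F (d : F)) * IL F (fun I => conj (lam F (d : F) I))) k := by
    rw [← LCW_lam F hw h3 d hd h4 e he]
    rfl
  have hOm : (0 : ℝ) < Om := Om_pos
  have hN0 : (0 : ℝ) < √(N : ℝ) := by
    rw [Real.sqrt_pos]
    exact_mod_cast hNodd.pos
  have hΦ1 : ‖Φ 1‖ ^ 2 ≠ 0 := by
    intro h0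
    rw [h0, zero_mul, zero_mul] at eq
    have hqR : (0 : ℝ) < q := by exact_mod_cast hq
    have : (0 : ℝ) < q * Om ^ 4 := by positivity
    rw [← eq] at this
    exact lt_irrefl _ this
  have hL1 : Φ 1 * conj (Φ (conj 1)) = ((‖Φ 1‖ ^ 2 : ℝ) : ℂ) := by
    rw [map_one, Complex.mul_conj, Complex.normSq_eq_norm_sq]
  refine ⟨fun s => Φ s * conj (Φ (conj s)), hΦ.mul cc, ?_, ?_, q / 3, by positivity, ?_, ?_⟩
  · intro s h5
    have t1 := LSeriesSummable_IL F _ hlam s h5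
    have t2 := LSeriesSummable_IL F _ hlam' s h5
    have t3 : (Wt e).LSeries s = LSeries (fun k => ((Wt e).LFunction k : ℂ)) s := rfl
    rw [t3, hL]
    refine ⟨ArithmeticFunction.LSeriesSummable_mul t1 t2, ?_⟩
    change Φ s * conj (Φ (conj s)) = _
    rw [ArithmeticFunction.LSeries_mul' t1 t2, LSeries_conj, hs s h5, hs (conj s) (by
      rw [Complex.conj_re]; exact h5)]
  · change Φ 1 * conj (Φ (conj 1)) ≠ 0
    rw [hL1]
    exact_mod_cast hΦ1
  · haveI : Fact (Nat.Prime 2) := ⟨Nat.prime_two⟩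
    have v3 : padicValRat 2 (3 : ℚ) = 0 := by
      have := padic_unit_odd (N := 3) (by decide)
      exact_mod_cast this
    rw [padicValRat.div hq.ne' (by norm_num), vq, v3, sub_self]
  · change Φ 1 * conj (Φ (conj 1)) * _ = _
    have hper := period_F S hS F hw hF 1 h
    have h5 : √3 ^ 2 ^ 1 = (3 : ℝ) := by
      rw [pow_one]
      exact Real.sq_sqrt (by norm_num)
    rw [h5] at hper
    rw [hL1, hper]
    have h6 : ‖Φ 1‖ ^ 2 * √|(discr F : ℝ)| = (q / 3) * (3 * Om ^ (2 * 2 ^ 1) / √(N : ℝ)) := by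
      field_simp
      rw [eq]
      norm_num
    have h7 := congrArg (fun t : ℝ => (t : ℂ)) h6
    push_cast at h7 ⊢
    exact h7

include hgood

/-- **The 2-part of the formula for the twists.** -/
theorem strong_d (e : F) (he : 4 * e + 1 = (d : F) ^ 3) : SBSD.TwoPartFormula (Wt e) := by
  obtain ⟨hfin, hodd, hsha⟩ := points_d S hS F hw hF 1 h d h4 hgood hd e he
  obtain ⟨L, hL1, hL2, hL3, q, hq1, hq2, hq3⟩ := analytic_d S hS F hw hF h d hd h4 hA e he
  have hd0' : (d : F) ≠ 0 := by exact_mod_cast hd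
  have hell : (Wt e).IsElliptic := by
    rw [WeierstrassCurve.isElliptic_iff, tc1_Δ, he, isUnit_iff_ne_zero]
    exact mul_ne_zero (by norm_num) (pow_ne_zero _ (pow_ne_zero _ hd0'))
  have h1 : analyticOrderAt L 1 = 0 := (hL1.analyticAt 1).analyticOrderAt_eq_zero.2 hL3
  have hodd' : Odd (discr F).natAbs := odd_discr S hS F hw hF
  have h3 := fun v hv => three_ram S hS F hw hF 1 h v hv
  have hom : ∃ om : F, om ^ 2 + om + 1 = 0 := ⟨⟨w, hw⟩, by
    ext
    change w ^ 2 + w + 1 = 0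
    linear_combination w_sq⟩
  have hbad : ∀ v : HeightOneSpectrum (𝓞 F), (3 : 𝓞 F) ∉ v.asIdeal →
      ¬ IsSquare (v.valuation F (d : F)) → ∀ x : 𝓞 F, x ^ 3 - 2 ∉ v.asIdeal := by
    intro v hv3 hns
    have hdv : d ∈ v.asIdeal := by
      by_contra h5
      apply hns
      have h6 : v.valuation F (d : F) = 1 := by
        have h7 := (v.valuation_le_one (K := F) d).eq_or_lt
        rcases h7 with h8 | h8
        · exact h8
        · exact absurd ((v.valuation_lt_one_iff_mem d).1 h8) h5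
      rw [h6]
      exact ⟨1, (mul_one 1).symm⟩
    obtain ⟨p, hp, hpv⟩ := (hgood v hdv).resolve_left hv3
    exact two_not_cube' S hS F hw hF 1 h p hp v hpv
  have htam := tam_odd_tw F h3 d hd h4 e he hbad
  obtain ⟨q3, hq3pos, hq3v, hner⟩ := neron_unit_tw F d hd h4 e he
  have harch := arch_tw F hom (d : F) e hd0' he
  set T : ℕ := ∏ᶠ v : HeightOneSpectrum (𝓞 F), SBSD.tam (Wt e) v with hT
  set N : ℕ := (Algebra.norm ℤ d).natAbs with hN
  have hNodd : Odd N := norm_odd F d h4 hd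
  have hNabs : |((Algebra.norm ℚ (d : F) : ℚ) : ℝ)| = (N : ℝ) := by
    have h5 : (Algebra.norm ℚ (d : F) : ℚ) = ((Algebra.norm ℤ d : ℤ) : ℚ) :=
      (Algebra.coe_norm_int d).symm
    rw [h5, hN, Rat.cast_intCast, Nat.cast_natAbs, Int.cast_abs]
  have hC : (Nat.card (Wt e).toAffine.Point : ℚ) ≠ 0 := by exact_mod_cast hodd.pos.ne'
  have hT0 : (T : ℚ) ≠ 0 := by exact_mod_cast htam.pos.ne'
  have hper : SBSD.period (Wt e) = CM27.period F / √(N : ℝ) * q3 := by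
    rw [SBSD.period, hner, harch, hNabs]
  have hcard : (0 : ℚ) < (Nat.card (Wt e).toAffine.Point : ℚ) := by exact_mod_cast hodd.pos
  have hTpos : (0 : ℚ) < (T : ℚ) := by exact_mod_cast htam.pos
  refine ⟨hell, hfin, L, ⟨hL1, hL2⟩, CF.order_eq (Wt e) h1, hL3, fun x k => hsha k x,
    q * (Nat.card (Wt e).toAffine.Point : ℚ) ^ 2 * (q3 * T)⁻¹, ?_, ?_, ?_⟩
  · positivity
  · have h4' : padicValRat 2 ((Nat.card (Wt e).toAffine.Point : ℚ) ^ 2) = 0 := by
      rw [padicValRat.pow, padic_unit_odd hodd]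
      simp
    have h5 : padicValRat 2 ((q3 * T)⁻¹) = 0 := by
      rw [padicValRat.inv, padic_unit_mul hq3pos.ne' hT0 hq3v (padic_unit_odd htam)]
      simp
    exact padic_unit_mul (mul_ne_zero hq1.ne' (pow_ne_zero _ hC))
      (inv_ne_zero (mul_ne_zero hq3pos.ne' hT0)) (padic_unit_mul hq1.ne' (pow_ne_zero _ hC) hq2 h4')
      h5
  · rw [SBSD.bsdQuotient, hper, CF.card_tors]
    have hP : (CM27.period F : ℂ) ≠ 0 := by
      intro h0
      have h0' : (CM27.period F : ℝ) = 0 := by exact_mod_cast h0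
      rw [h0', zero_div, Complex.ofReal_zero, mul_zero] at hq3
      rcases mul_eq_zero.1 hq3 with h5 | h5
      · exact hL3 h5
      · have h6 : (√|(discr F : ℝ)| : ℝ) = 0 := by exact_mod_cast h5
        rw [Real.sqrt_eq_zero (abs_nonneg _), abs_eq_zero] at h6
        exact NumberField.discr_ne_zero F (by exact_mod_cast h6)
    have hq3C : (q3 : ℂ) ≠ 0 := by exact_mod_cast hq3pos.ne'
    have hTC : (T : ℂ) ≠ 0 := by exact_mod_cast hT0
    have hBC : ((√(N : ℝ) : ℝ) : ℂ) ≠ 0 := by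
      have : (0 : ℝ) < √(N : ℝ) := by
        rw [Real.sqrt_pos]
        exact_mod_cast hNodd.pos
      exact_mod_cast this.ne'
    rw [hq3, ← hT]
    push_cast
    field_simp

end

end NAB
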