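import Pool.Agent.MP_9ab903_nt.NAB.B5
import Pool.Agent.MP_9ab903_nt.NAB.BV4
import Pool.Agent.MP_9ab903_nt.NAB.Fin

/-! ## [NAB-C1] the congruence: `Φ_d(1) / OmC²` is a 2-adic unit

`m = 3 d`, `χ₁ I = 1` resp. `χ_d I = chi d I` for `I` prime to `m`, `0` otherwise: both `IsRC` (`chi` is completely multiplicative, `symb` is
`±1` away from `m`: `symb_cases`, and `symb d v ≠ 0` for `v` not containing `d`; `IsRC.one` from `hone` as `d ∣ m ∣ g - 1`). Let `Φ₁`, `Φ_d` be the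
functions of `hecke_final`, `t = Φ(1)/OmC² = ∑_c χ(c) T c 1` (`u = 1`). `t₁`: integral at all 2-adic `A`; also `conj t₁` (apply to
the valuation ring `conj⁻¹(A)`); `t₁ conj t₁ = ‖Φ₁ 1‖²/Om⁴ = q/√|discr F|` by `base_value` (applied to `s ↦ conj (Φ₁ (conj s))`, whose
series is that of `lamR F m`; `LSeries_IL`), `discr F` odd, `q` a 2-adic unit: so `A.valuation t₁ = 1`.
`t_d - t₁ = ∑_c (χ_d(c) - 1) T c 1`, `χ_d(c) - 1 ∈ {0, -2}`: valuation `< 1`. So `A.valuation t_d = 1`. -/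

set_option autoImplicit false

open NumberField IsDedekindDomain MeasureTheory Set
open CM27 CMT CF
open scoped ComplexConjugate Classical

namespace NAB

/-- rational `2`-adic units -/
theorem c1_val_rat (q : ℚ) (hq : q ≠ 0) (h : padicValRat 2 q = 0) (A : ValuationSubring ℂ)
    (hA : A.valuation 2 < 1) : A.valuation (q : ℂ) = 1 := by
  have hco : Nat.Coprime q.num.natAbs q.den := q.reduced
  have : Fact (Nat.Prime 2) := ⟨Nat.prime_two⟩
  rw [padicValRat] at h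
  have hden : ¬ 2 ∣ q.den := by
    intro h1
    have h2 : ¬ (2 : ℕ) ∣ q.num.natAbs := by
      intro h3
      have := Nat.dvd_gcd h3 h1
      rw [hco] at this
      omega
    have h3 : padicValInt 2 q.num = 0 := by
      rw [padicValInt]
      exact padicValNat.eq_zero_of_not_dvd h2
    have h4 : padicValNat 2 q.den ≠ 0 := (dvd_iff_padicValNat_ne_zero q.den_nz).1 h1
    rw [h3] at h
    have h6 : (padicValNat 2 q.den : ℤ) = 0 := by
      have h7 : ((0 : ℕ) : ℤ) - (padicValNat 2 q.den : ℤ) = 0 := h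
      omega
    exact h4 (by exact_mod_cast h6)
  have h5 : padicValNat 2 q.den = 0 := padicValNat.eq_zero_of_not_dvd hden
  have hnum : ¬ (2 : ℕ) ∣ q.num.natAbs := by
    intro h6
    have h7 : q.num.natAbs ≠ 0 := by
      rw [Int.natAbs_ne_zero]
      exact Rat.num_ne_zero.2 hq
    have h8 := (dvd_iff_padicValNat_ne_zero h7).1 h6
    rw [h5, padicValInt] at h
    have h9 : (padicValNat 2 q.num.natAbs : ℤ) = 0 := by
      have h10 : (padicValNat 2 q.num.natAbs : ℤ) - ((0 : ℕ) : ℤ) = 0 := h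
      omega
    exact h8 (by exact_mod_cast h9)
  have hd : ((q.den : ℤ) : ℂ) ≠ 0 := by exact_mod_cast q.den_nz
  have hq' : (q : ℂ) * ((q.den : ℤ) : ℂ) = ((q.num : ℤ) : ℂ) := by
    have : (q : ℚ) * q.den = q.num := Rat.mul_den_eq_num q
    exact_mod_cast congrArg (Rat.cast : ℚ → ℂ) this
  have hv := congrArg A.valuation hq'
  rw [map_mul, val_odd A hA (q.den : ℤ) (by
      rw [← Int.not_even_iff_odd, even_iff_two_dvd]
      intro h6
      exact hden (by exact_mod_cast h6)), val_odd A hA q.num (by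
      rw [← Int.not_even_iff_odd, even_iff_two_dvd]
      intro h6
      exact hnum (Int.natAbs_dvd_natAbs.2 h6)), mul_one] at hv
  exact hv

theorem c1_lt_one_iff (A : ValuationSubring ℂ) (x : ℂ) (hx : x ≠ 0) :
    A.valuation x < 1 ↔ x⁻¹ ∉ A := by
  rw [← A.valuation_le_one_iff, map_inv₀, not_le]
  have h0 : A.valuation x ≠ 0 := by rwa [Valuation.ne_zero_iff]
  rw [one_lt_inv₀ (zero_lt_iff.2 h0)]

theorem c1_conj (t : ℂ) (ht : ∀ A : ValuationSubring ℂ, A.valuation 2 < 1 → A.valuation t ≤ 1)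
    (A : ValuationSubring ℂ) (hA : A.valuation 2 < 1) : A.valuation (conj t) ≤ 1 := by
  have h1 := ht (A.comap (starRingEnd ℂ)) (by
    rw [c1_lt_one_iff _ _ two_ne_zero, ValuationSubring.mem_comap, map_inv₀, map_ofNat]
    rwa [c1_lt_one_iff _ _ two_ne_zero] at hA)
  rw [ValuationSubring.valuation_le_one_iff, ValuationSubring.mem_comap] at h1
  rw [ValuationSubring.valuation_le_one_iff]
  exact h1

/-- a sum of elements of valuation `< 1` -/
theorem c1_sum_lt (A : ValuationSubring ℂ) {ι : Type*} (s : Finset ι) (f : ι → ℂ)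
    (h : ∀ i ∈ s, A.valuation (f i) < 1) : A.valuation (∑ i ∈ s, f i) < 1 :=
  A.valuation.map_sum_lt one_ne_zero h

theorem c1_sum_le (A : ValuationSubring ℂ) {ι : Type*} (s : Finset ι) (f : ι → ℂ)
    (h : ∀ i ∈ s, A.valuation (f i) ≤ 1) : A.valuation (∑ i ∈ s, f i) ≤ 1 :=
  A.valuation.map_sum_le h

section
variable (F : IntermediateField ℚ ℂ) [NumberField F]

noncomputable def c1_one (m : 𝓞 F) (I : Ideal (𝓞 F)) : ℤ :=
  if IsCoprime I (Ideal.span {m}) then 1 else 0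

noncomputable def c1_chi (m d : 𝓞 F) (I : Ideal (𝓞 F)) : ℤ :=
  if IsCoprime I (Ideal.span {m}) then chi (d : F) I else 0

omit [NumberField F] in
theorem c1_cop (m g : 𝓞 F) (hg : m ∣ g - 1) : IsCoprime (Ideal.span {g}) (Ideal.span {m}) := by
  obtain ⟨k, hk⟩ := hg
  rw [Ideal.isCoprime_span_singleton_iff]
  exact ⟨1, -k, by linear_combination hk⟩

theorem c1_one_RC (m : 𝓞 F) : IsRC F m (c1_one F m) where
  mul I J := by
    by_cases h1 : IsCoprime I (Ideal.span {m})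
    · by_cases h2 : IsCoprime J (Ideal.span {m})
      · rw [c1_one, c1_one, c1_one, if_pos h1, if_pos h2, if_pos (h1.mul_left h2), mul_one]
      · rw [c1_one, c1_one, c1_one, if_neg h2, if_neg (fun h3 => h2 (IsCoprime.of_mul_left_right h3)),
          mul_zero]
    · rw [c1_one, c1_one, c1_one, if_neg h1, if_neg (fun h3 => h1 (IsCoprime.of_mul_left_left h3)),
        zero_mul]
  zero I hI := if_neg hI
  pm I _ hI := Or.inl (if_pos hI)
  one g _ hg := if_pos (c1_cop F m g hg)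

theorem c1_not_mem (v : HeightOneSpectrum (𝓞 F)) (m : 𝓞 F)
    (h : IsCoprime v.asIdeal (Ideal.span {m})) : m ∉ v.asIdeal := by
  intro h1
  rw [Ideal.isCoprime_iff_sup_eq] at h
  apply v.isPrime.ne_top
  rw [← h]
  symm
  rw [sup_eq_left, Ideal.span_singleton_le_iff_mem]
  exact h1

theorem c1_symb (d : 𝓞 F) (v : HeightOneSpectrum (𝓞 F)) (hv : d ∉ v.asIdeal) :
    symb (d : F) v = 1 ∨ symb (d : F) v = -1 := by
  have h1 : v.valuation F (d : F) = 1 := by
    refine le_antisymm (v.valuation_le_one d) (not_lt.1 fun h7 => hv ?_)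
    exact (v.valuation_lt_one_iff_mem d).1 h7
  rw [symb, if_pos (by rw [h1]; exact ⟨1, (mul_one 1).symm⟩)]
  split_ifs
  · exact Or.inl rfl
  · exact Or.inr rfl

theorem c1_pm (m d : 𝓞 F) (hdm : d ∣ m) (I : Ideal (𝓞 F)) (hI : I ≠ 0)
    (hc : IsCoprime I (Ideal.span {m})) : chi (d : F) I = 1 ∨ chi (d : F) I = -1 := by
  refine ideal_induction (P := fun I => IsCoprime I (Ideal.span {m}) →
    (chi (d : F) I = 1 ∨ chi (d : F) I = -1)) ?_ ?_ I hI hc
  · intro _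
    left
    rw [chi, cm_one]
  · intro v I _ ih hc
    have h1 := ih (IsCoprime.of_mul_left_right hc)
    have h2 := c1_not_mem F v m (IsCoprime.of_mul_left_left hc)
    have h3 : d ∉ v.asIdeal := fun h4 => h2 (Ideal.mem_of_dvd _ hdm h4)
    have h4 : chi (d : F) (v.asIdeal * I) = symb (d : F) v * chi (d : F) I := by
      rw [chi, chi, cm_mul, cm_prime]
    rw [h4]
    rcases c1_symb F d v h3 with h5 | h5 <;> rcases h1 with h6 | h6 <;> rw [h5, h6] <;> norm_num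

theorem c1_chi_RC (m d : 𝓞 F) (hdm : d ∣ m)
    (hone : ∀ g : 𝓞 F, g ≠ 0 → d ∣ g - 1 → chi (d : F) (Ideal.span {g}) = 1) :
    IsRC F m (c1_chi F m d) where
  mul I J := by
    by_cases h1 : IsCoprime I (Ideal.span {m})
    · by_cases h2 : IsCoprime J (Ideal.span {m})
      · rw [c1_chi, c1_chi, c1_chi, if_pos h1, if_pos h2, if_pos (h1.mul_left h2), chi, chi, chi,
          cm_mul]
      · rw [c1_chi, c1_chi, c1_chi, if_neg h2, if_neg (fun h3 => h2 (IsCoprime.of_mul_left_right h3)),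
          mul_zero]
    · rw [c1_chi, c1_chi, c1_chi, if_neg h1, if_neg (fun h3 => h1 (IsCoprime.of_mul_left_left h3)),
        zero_mul]
  zero I hI := if_neg hI
  pm I h0 hI := by
    rw [c1_chi, if_pos hI]
    exact c1_pm F m d hdm I h0 hI
  one g hg hg1 := by
    rw [c1_chi, if_pos (c1_cop F m g hg1)]
    exact hone g hg (hdm.trans hg1)

theorem c1_vanish (hw : w ∈ F) (d : 𝓞 F)
    (hsf : ∀ v : HeightOneSpectrum (𝓞 F), d ∈ v.asIdeal → (3 : 𝓞 F) ∈ v.asIdeal ∨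
      symb (d : F) v = 0) (I : Ideal (𝓞 F)) (hI : I ≠ 0)
    (hc : ¬ IsCoprime I (Ideal.span {3 * d})) : chi (d : F) I = 0 ∨ psi F I = 0 := by
  rw [Ideal.isCoprime_iff_sup_eq] at hc
  obtain ⟨M, hM, hle⟩ := Ideal.exists_le_maximal _ hc
  have hMI : I ≤ M := le_sup_left.trans hle
  have hMm : 3 * d ∈ M := hle (Ideal.mem_sup_right (Ideal.mem_span_singleton_self _))
  have hM0 : M ≠ ⊥ := by
    rintro rfl
    exact hI (le_bot_iff.1 hMI)
  set v : HeightOneSpectrum (𝓞 F) := ⟨M, hM.isPrime, hM0⟩ with hv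
  obtain ⟨J, hJ⟩ : v.asIdeal ∣ I := Ideal.dvd_iff_le.2 hMI
  have h1 : chi (d : F) I = symb (d : F) v * chi (d : F) J := by
    rw [hJ, chi, chi, cm_mul, cm_prime]
  have h2 : psi F I = psiv F v * psi F J := by
    rw [hJ, psi, psi, cm_mul, cm_prime]
  by_cases h3 : (3 : 𝓞 F) ∈ v.asIdeal
  · right
    rw [h2, psiv_three F hw v h3, zero_mul]
  · left
    have h4 : d ∈ v.asIdeal := (v.isPrime.mem_or_mem hMm).resolve_left h3
    rcases hsf v h4 with h5 | h5
    · exact absurd h5 h3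
    · rw [h1, h5, zero_mul]

theorem c1_LSeries (g : Ideal (𝓞 F) → ℂ) (hg : ∀ I, I ≠ 0 → ‖g I‖ ^ 2 ≤ Ideal.absNorm I)
    (χ : Ideal (𝓞 F) → ℤ) (hχ : ∀ I, I ≠ 0 → (χ I : ℂ) * conj (emb (psi F I)) = g I) (s : ℂ)
    (hs : 3 / 2 < s.re) (z : ℂ) (h : HasSum (fun I : Ideal (𝓞 F) =>
      (χ I : ℂ) * conj (emb (psi F I)) * (Ideal.absNorm I : ℂ) ^ (-s)) z) :
    z = LSeries (fun k => IL F g k) s := by
  rw [LSeries_IL F g hg s hs, ← h.tsum_eq]
  refine tsum_congr fun I => ?_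
  rw [itm]
  split_ifs with h0
  · rw [h0, psi, cm_zero, map_zero, map_zero, mul_zero, zero_mul]
  · rw [hχ I h0]

end

variable (S : Finset Eis) (hS : ∀ b ∈ S, GoodEis b) (F : IntermediateField ℚ ℂ) [NumberField F]
  (hw : w ∈ F) (hF : F ≤ LS S) (h : Module.finrank ℚ F = 2 ^ (1 + 1))
  (d : 𝓞 F) (hd : d ≠ 0) (h4 : (4 : 𝓞 F) ∣ d - 1)
  (hgood : ∀ v : HeightOneSpectrum (𝓞 F), d ∈ v.asIdeal → (3 : 𝓞 F) ∈ v.asIdeal ∨
      ∃ p : ℕ, GoodPrime p ∧ (p : 𝓞 F) ∈ v.asIdeal)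
  (hsf : ∀ v : HeightOneSpectrum (𝓞 F), d ∈ v.asIdeal → (3 : 𝓞 F) ∈ v.asIdeal ∨
      symb (d : F) v = 0)
  (hone : ∀ g : 𝓞 F, g ≠ 0 → d ∣ g - 1 → chi (d : F) (Ideal.span {g}) = 1)
include hS hw hF h hd h4 hgood hsf hone

theorem value_unit (N0 : ℕ) (hN0 : Odd N0) : ∃ (Φ : ℂ → ℂ) (N : ℕ) (δ : ℂ), Differentiable ℂ Φ ∧
    (∀ s : ℂ, 3 / 2 < s.re → Φ s = LSeries (fun k => IL F (fun I => conj (lam F d I)) k) s) ∧
    (∀ A : ValuationSubring ℂ, A.valuation 2 < 1 → A.valuation (Φ 1 / OmC ^ 2) = 1) ∧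
    Odd N ∧ 3 ∣ N ∧ N0 ∣ N ∧ (NumberField.discr F : ℝ) = 9 * ‖δ‖ ^ 4 ∧ δ ≠ 0 ∧
    ∀ σ : ℂ ≃+* ℂ, σ w = w → ∀ u : Eis, IsCoprime u (N : Eis) → (3 : Eis) ∣ u - 1 →
      (∀ c : Eis, ptMap (σ : ℂ →+* ℂ) (pt (emb c / N)) = pt (emb (c * u) / N)) →
      σ (Φ 1 / OmC ^ 2) * σ δ = (chi (d : F) (Ideal.span {eF F hw u}) : ℂ) * (Φ 1 / OmC ^ 2) * δ := by
  have hodd' : Odd (discr F).natAbs := odd_discr S hS F hw hF
  have hodd : ¬ (2 : ℤ) ∣ discr F := by
    intro h5
    rw [Nat.odd_iff] at hodd'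
    omega
  have h40 : Module.finrank ℚ F = 4 := by rw [h]; norm_num
  set m : 𝓞 F := 3 * d with hm
  have h30 : (3 : 𝓞 F) ≠ 0 := by
    intro h5
    have h6 := congrArg (algebraMap (𝓞 F) F) h5
    rw [map_ofNat, map_zero] at h6
    norm_num at h6
  have hm0 : m ≠ 0 := mul_ne_zero h30 hd
  have h3m : (3 : 𝓞 F) ∣ m := dvd_mul_right _ _
  have hdm : d ∣ m := dvd_mul_left _ _
  have hd2 : IsCoprime d 2 := by
    obtain ⟨k, hk⟩ := h4
    exact ⟨1, -(2 * k), by linear_combination hk⟩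
  have hm2 : IsCoprime m 2 := IsCoprime.mul_left ⟨1, -1, by norm_num⟩ hd2
  have hmne : Ideal.span {m} ≠ 0 := by
    rw [Ne, Ideal.zero_eq_bot, Ideal.span_singleton_eq_bot]
    exact hm0
  have hNm : Odd (Ideal.absNorm (Ideal.span {m})) := by
    apply b5_odd F _ hmne
    rw [Ideal.isCoprime_span_singleton_iff]
    exact hm2
  obtain ⟨C, N, T, δ, hNodd, hN3, hNN0, hdisc, hδ0, hC, hval, hgal, hΦ⟩ :=
    hecke_final F hw h40 hodd m hm0 h3m hm2 (N0 * Ideal.absNorm (Ideal.span {m})) (hN0.mul hNm)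
  obtain ⟨Φ₁, dΦ₁, sΦ₁, uΦ₁⟩ := hΦ _ (c1_one_RC F m)
  obtain ⟨Φ, dΦ, sΦ, uΦ⟩ := hΦ _ (c1_chi_RC F m d hdm hone)
  have hO := OmC_ne
  have hmN : m ∣ (N : 𝓞 F) := by
    have h5 : m ∣ ((Ideal.absNorm (Ideal.span {m}) : ℕ) : 𝓞 F) := by
      rw [← Ideal.mem_span_singleton]
      exact Ideal.absNorm_mem _
    obtain ⟨k, hk⟩ := hNN0
    rw [hk, Nat.cast_mul, Nat.cast_mul]
    exact (h5.mul_left _).mul_right _
  have hcop : ∀ u : Eis, IsCoprime u (N : Eis) →
      IsCoprime (Ideal.span {eF F hw u}) (Ideal.span {m}) := by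
    intro u hu
    have h5 := hu.map (eF F hw)
    rw [map_natCast] at h5
    rw [Ideal.isCoprime_span_singleton_iff]
    exact h5.of_isCoprime_of_dvd_right hmN
  -- the values at `s = 1`
  have h1c : IsCoprime (1 : Eis) (N : Eis) := isCoprime_one_left
  have h13 : (3 : Eis) ∣ 1 - 1 := by rw [sub_self]; exact dvd_zero _
  have t₁ : Φ₁ 1 / OmC ^ 2 = ∑ c ∈ C, T c 1 := by
    rw [uΦ₁ 1 h1c h13, c1_one, if_pos (hcop 1 h1c)]
    have h5 : ∑ c ∈ C, (c1_one F m c : ℂ) * T c 1 = ∑ c ∈ C, T c 1 := by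
      apply Finset.sum_congr rfl
      intro c hc
      rw [c1_one, if_pos (hC c hc).2, Int.cast_one, one_mul]
    rw [h5, Int.cast_one, mul_one]
    field_simp
  have td : Φ 1 / OmC ^ 2 = ∑ c ∈ C, (c1_chi F m d c : ℂ) * T c 1 := by
    have h6 : c1_chi F m d (Ideal.span {eF F hw 1}) = 1 := by
      rw [map_one]
      exact (c1_chi_RC F m d hdm hone).one 1 one_ne_zero (by rw [sub_self]; exact dvd_zero _)
    rw [uΦ 1 h1c h13, h6, Int.cast_one, mul_one]
    field_simp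
  -- the value of the base `L`-function
  have hLs : ∀ s : ℂ, 3 / 2 < s.re → conj (Φ₁ (conj s)) = LSeries (fun n => IL F (lamR F m) n) s := by
    intro s hs
    have hs' : 3 / 2 < (conj s).re := by rw [Complex.conj_re]; exact hs
    have h5 := c1_LSeries F (fun I => conj (lamR F m I)) (by
      intro I hI
      rw [Complex.norm_conj, lamR_eq F m hm0]
      exact norm_cm_le F _ (norm_kill_le F (pd F m) (hvF F) (norm_hv_le F hw)) I hI)
      (c1_one F m) (by
      intro I hI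
      rw [c1_one, lamR]
      split_ifs with h6
      · rw [Int.cast_one, one_mul]
      · rw [Int.cast_zero, zero_mul, map_zero]) (conj s) hs' _ (sΦ₁ _ hs')
    rw [h5, LSeries_conj, Complex.conj_conj, Complex.conj_conj]
  have hgm : ∀ v : HeightOneSpectrum (𝓞 F), m ∈ v.asIdeal →
      (3 : 𝓞 F) ∈ v.asIdeal ∨ ∃ p : ℕ, GoodPrime p ∧ (p : 𝓞 F) ∈ v.asIdeal := by
    intro v hv
    rcases v.isPrime.mem_or_mem hv with h5 | h5
    · exact Or.inl h5
    · exact hgood v h5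
  have hdiff : Differentiable ℂ (fun s => conj (Φ₁ (conj s))) := fun s =>
    differentiableAt_conj_conj_iff.2 (dΦ₁ (conj s))
  obtain ⟨q, hq, vq, eq⟩ := base_value S hS F hw hF h m hm0 hgm _ hdiff hLs
  simp only [map_one, Complex.norm_conj] at eq
  -- the product `t₁ conj t₁`
  have hOm : ‖OmC‖ = |Om| := by
    rw [OmC, norm_mul, Complex.norm_I, one_mul, Complex.norm_real, Real.norm_eq_abs]
  have hOm0 : Om ≠ 0 := by
    intro h5
    apply hO
    rw [OmC, h5, Complex.ofReal_zero, mul_zero]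
  have hprod : ((Φ₁ 1 / OmC ^ 2) * conj (Φ₁ 1 / OmC ^ 2)) ^ 2 * ((discr F : ℤ) : ℂ) ^ 2 =
      ((q : ℚ) : ℂ) ^ 2 * ((|discr F| : ℤ) : ℂ) := by
    have h5 : (Φ₁ 1 / OmC ^ 2) * conj (Φ₁ 1 / OmC ^ 2) = ((‖Φ₁ 1‖ ^ 2 / Om ^ 4 : ℝ) : ℂ) := by
      rw [Complex.mul_conj, Complex.normSq_eq_norm_sq, norm_div, norm_pow, hOm, div_pow, sq_abs,
        ← pow_mul]
    have h6 : ‖Φ₁ 1‖ ^ 2 / Om ^ 4 * √|(discr F : ℝ)| = q := by
      rw [div_mul_eq_mul_div, eq]
      field_simp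
    have h7 : (‖Φ₁ 1‖ ^ 2 / Om ^ 4) ^ 2 * |(discr F : ℝ)| = (q : ℝ) ^ 2 := by
      rw [← h6, mul_pow, Real.sq_sqrt (abs_nonneg _)]
    have h8 : (‖Φ₁ 1‖ ^ 2 / Om ^ 4) ^ 2 * (discr F : ℝ) ^ 2 = (q : ℝ) ^ 2 * |(discr F : ℝ)| := by
      rw [← h7, ← sq_abs (discr F : ℝ)]
      ring
    rw [h5]
    have h9 : (((‖Φ₁ 1‖ ^ 2 / Om ^ 4) ^ 2 * (discr F : ℝ) ^ 2 : ℝ) : ℂ) =
        (((q : ℝ) ^ 2 * ((|discr F| : ℤ) : ℝ) : ℝ) : ℂ) := by rw [h8, Int.cast_abs]
    rw [Complex.ofReal_mul, Complex.ofReal_mul, Complex.ofReal_pow, Complex.ofReal_pow,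
      Complex.ofReal_pow, Complex.ofReal_intCast, Complex.ofReal_ratCast,
      Complex.ofReal_intCast] at h9
    exact h9
  have hΦs : ∀ A : ValuationSubring ℂ, A.valuation 2 < 1 → A.valuation (Φ 1 / OmC ^ 2) = 1 := by
    intro A hA
    have hint : ∀ A : ValuationSubring ℂ, A.valuation 2 < 1 →
        A.valuation (Φ₁ 1 / OmC ^ 2) ≤ 1 := by
      intro A hA
      rw [t₁]
      exact c1_sum_le A C _ (fun c hc => hval A hA c hc)
    have h5 := hint A hA
    have h6 := c1_conj _ hint A hA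
    have hdo : Odd (discr F) := by
      rw [← Int.not_even_iff_odd, even_iff_two_dvd]
      exact hodd
    have h7 : A.valuation (Φ₁ 1 / OmC ^ 2) = 1 := by
      have h8 := congrArg A.valuation hprod
      rw [map_mul, map_pow, map_mul, map_pow, val_odd A hA _ hdo, map_mul, map_pow,
        c1_val_rat q hq.ne' vq A hA, val_odd A hA _ (by
          rcases abs_choice (discr F) with h9 | h9 <;> rw [h9]
          · exact hdo
          · exact hdo.neg), one_pow, mul_one, mul_one] at h8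
      refine le_antisymm h5 (not_lt.1 fun h9 => ?_)
      have h10 : A.valuation (Φ₁ 1 / OmC ^ 2) * A.valuation (conj (Φ₁ 1 / OmC ^ 2)) < 1 :=
        mul_lt_one_of_lt_of_le h9 h6
      have h11 := pow_lt_one₀ zero_le h10 two_ne_zero
      rw [h8] at h11
      exact lt_irrefl _ h11
    have h8 : Φ 1 / OmC ^ 2 = Φ₁ 1 / OmC ^ 2 + ∑ c ∈ C, ((c1_chi F m d c : ℂ) - 1) * T c 1 := by
      rw [t₁, td, ← Finset.sum_add_distrib]
      apply Finset.sum_congr rfl
      intro c _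
      ring
    have h9 : A.valuation (∑ c ∈ C, ((c1_chi F m d c : ℂ) - 1) * T c 1) < 1 := by
      apply c1_sum_lt
      intro c hc
      rcases (c1_chi_RC F m d hdm hone).pm c (hC c hc).1 (hC c hc).2 with h10 | h10
      · rw [h10, Int.cast_one, sub_self, zero_mul, map_zero]
        exact zero_lt_one
      · rw [h10]
        have h11 : (((-1 : ℤ) : ℂ) - 1) * T c 1 = -(2 * T c 1) := by push_cast; ring
        rw [h11, Valuation.map_neg, map_mul]
        exact mul_lt_one_of_lt_of_le hA (hval A hA c hc)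
    rw [h8, Valuation.map_add_eq_of_lt_left _ (by rw [h7]; exact h9), h7]
  refine ⟨Φ, N, δ, dΦ, ?_, hΦs, hNodd, hN3, (dvd_mul_right _ _).trans hNN0, hdisc, hδ0, ?_⟩
  · intro s hs
    refine c1_LSeries F (fun I => conj (lam F d I)) (by
      intro I hI
      rw [Complex.norm_conj]
      exact norm_lam_le F hw d I hI) (c1_chi F m d) ?_ s hs _ (sΦ s hs)
    intro I hI
    rw [c1_chi, lam, map_mul, map_intCast]
    split_ifs with h6
    · rfl
    · rcases c1_vanish F hw d hsf I hI h6 with h7 | h7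
      · rw [h7]
      · rw [h7, map_zero, map_zero, mul_zero, mul_zero]
  · intro σ hσ u hu hu3 hσu
    have hchi : c1_chi F m d (Ideal.span {eF F hw u}) = chi (d : F) (Ideal.span {eF F hw u}) :=
      if_pos (hcop u hu)
    have hu0 : Ideal.span {eF F hw u} ≠ 0 := by
      intro h5
      have h6 := hcop u hu
      rw [h5, Ideal.isCoprime_iff_sup_eq, Ideal.zero_eq_bot, bot_sup_eq,
        Ideal.span_singleton_eq_top] at h6
      exact b5_three F (isUnit_of_dvd_unit h3m h6)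
    have hsq : (chi (d : F) (Ideal.span {eF F hw u}) : ℂ) *
        (chi (d : F) (Ideal.span {eF F hw u}) : ℂ) = 1 := by
      rcases c1_pm F m d hdm _ hu0 (hcop u hu) with h5 | h5 <;> rw [h5] <;> norm_num
    have h5 : Φ 1 / OmC ^ 2 = (chi (d : F) (Ideal.span {eF F hw u}) : ℂ) *
        ∑ c ∈ C, (c1_chi F m d c : ℂ) * T c u := by
      rw [uΦ u hu hu3, hchi]
      field_simp
    have h6 : σ (Φ 1 / OmC ^ 2) * σ δ = (∑ c ∈ C, (c1_chi F m d c : ℂ) * T c u) * δ := by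
      rw [td, map_sum, Finset.sum_mul, Finset.sum_mul]
      apply Finset.sum_congr rfl
      intro c hc
      rw [map_mul, map_intCast, mul_assoc, hgal σ hσ u hu hu3 hσu c hc, mul_assoc]
    rw [h6, h5, ← mul_assoc, hsq, one_mul]

end NAB
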