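import Pool.Agent.MP_9ab903_nt.NAB.C1

/-! ## [NAB-C2] rationality: `AData F d`

`t = Φ(1)/OmC²`, `ρ² = d s2(d)` (a complex square root), `τ = t δ ρ`. For every `σ ∈ Aut(ℂ)` with `σ w = w` take `u` from `gal_fix` (AN/A7;
`3 ∣ N`; `u` is prime to `N` since `N ∣ u u' - 1`): `σ τ = chi² τ = τ` (`chi = ±1` at `u` prime to `N`; `value_unit`, `hgal`). So `τ` is fixed by all
automorphisms fixing `w`, so `τ ∈ ℚ(ω)` (A8 `exists_aut`/`fixed_rat`: e.g. `τ + τ'`, or the fixed field of `AutK`), `‖τ‖² ∈ ℚ`: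
`‖τ‖² = ‖t‖² ‖δ‖² ‖d s2 d‖`, `‖δ‖² = √(discr F)/3`, `‖d s2(d)‖ = √(absNorm (d))` (`s2_absNorm`). So
`q := 3 ‖τ‖² = ‖t‖² √|discr F| √(norm d)` is a positive rational number; `A.valuation q = 1` for a 2-adic `A` (`value_unit` for `A` and
`conj⁻¹ A`; `discr F`, `norm d` odd), so `padicValRat 2 q = 0` (`rat_val` AN/B5). `‖Φ 1‖² = ‖t‖² Om⁴`. Finally `Φ'(s) = conj (Φ (conj s))` has the
series of `lam F d` (`LSeries_conj`, BV3). -/

set_option autoImplicit false

open NumberField IsDedekindDomain MeasureTheory Set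
open CM27 CMT CF
open scoped ComplexConjugate Classical

namespace NAB

theorem c2_chi_cases {F : Type} [Field F] [NumberField F] (d : F) (I : Ideal (𝓞 F)) :
    chi d I = 0 ∨ chi d I = 1 ∨ chi d I = -1 := by
  by_cases hI : I = 0
  · left
    rw [chi, hI, cm_zero]
  · refine ideal_induction (P := fun I => chi d I = 0 ∨ chi d I = 1 ∨ chi d I = -1) ?_ ?_ I hI
    · right; left
      rw [chi, cm_one]
    · intro v I _ ih
      have h1 : symb d v = 0 ∨ symb d v = 1 ∨ symb d v = -1 := by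
        rw [symb]
        split_ifs <;> simp
      rw [chi, cm_mul, cm_prime, ← chi]
      rcases h1 with h1 | h1 | h1 <;> rcases ih with h2 | h2 | h2 <;> rw [h1, h2] <;> simp

open Polynomial in
/-- a transcendental number `τ` is not in `K(τ²)` -/
theorem c2_trans (K : Type) [Field K] [Algebra K ℂ] (τ : ℂ) (hτ : ¬ IsAlgebraic K τ) :
    τ ∉ IntermediateField.adjoin K {τ ^ 2} := by
  intro h
  rw [IntermediateField.mem_adjoin_simple_iff] at h
  obtain ⟨r, s, hrs⟩ := h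
  have hτ0 : τ ≠ 0 := by
    rintro rfl
    exact hτ isAlgebraic_zero
  have hs0 : aeval (τ ^ 2) s ≠ 0 := by
    intro h0
    rw [h0, div_zero] at hrs
    exact hτ0 hrs
  rw [eq_div_iff hs0] at hrs
  have h1 : aeval τ (X * expand K 2 s - expand K 2 r) = 0 := by
    rw [map_sub, map_mul, aeval_X, expand_aeval, expand_aeval, hrs, sub_self]
  have h2 : X * expand K 2 s - expand K 2 r = 0 := by
    by_contra hne
    exact hτ ⟨_, hne, h1⟩
  have hs : s ≠ 0 := by
    rintro rfl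
    exact hs0 (map_zero _)
  have hes : expand K 2 s ≠ 0 := by
    rwa [Ne, expand_eq_zero (by norm_num)]
  have h3 := congrArg natDegree (sub_eq_zero.1 h2)
  rw [natDegree_X_mul hes, natDegree_expand, natDegree_expand] at h3
  omega

open Polynomial in
/-- a complex number fixed by all automorphisms over `K` is in `K` -/
theorem c2_fixed (K : Type) [Field K] [CharZero K] [Algebra K ℂ] (τ : ℂ)
    (hfix : ∀ σ : ℂ ≃+* ℂ, (∀ x : K, σ (algebraMap K ℂ x) = algebraMap K ℂ x) → σ τ = τ) :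
    ∃ x : K, algebraMap K ℂ x = τ := by
  by_cases hτ : IsAlgebraic K τ
  · have hzi : IsIntegral K τ := hτ.isIntegral
    by_cases hd : (minpoly K τ).natDegree = 1
    · obtain ⟨q, hq⟩ := minpoly.natDegree_eq_one_iff.1 hd
      exact ⟨q, hq⟩
    · exfalso
      have hpos : 0 < (minpoly K τ).natDegree := minpoly.natDegree_pos hzi
      have hsep : (minpoly K τ).Separable := (minpoly.irreducible hzi).separable
      have hcard := card_rootSet_eq_natDegree (K := ℂ) hsep (IsAlgClosed.splits _)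
      have hzr : τ ∈ (minpoly K τ).rootSet ℂ :=
        mem_rootSet.2 ⟨minpoly.ne_zero hzi, minpoly.aeval K τ⟩
      have h1 : 1 < Fintype.card ((minpoly K τ).rootSet ℂ) := by omega
      obtain ⟨⟨z', hz'⟩, hne⟩ := Fintype.exists_ne_of_one_lt_card h1 ⟨τ, hzr⟩
      obtain ⟨σ, hσ, hσ2⟩ := h3_root K τ z' hτ (mem_rootSet.1 hz').2
      apply hne
      apply Subtype.ext
      change z' = τ
      rw [← hσ2, hfix σ hσ]
  · exfalso
    have hτ0 : τ ≠ 0 := by
      rintro rfl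
      exact hτ isAlgebraic_zero
    set L := IntermediateField.adjoin K {τ ^ 2} with hL
    have hmem : τ ^ 2 ∈ L := IntermediateField.mem_adjoin_simple_self K (τ ^ 2)
    have hnot : τ ∉ L := c2_trans K τ hτ
    have hp : (X ^ 2 - C (⟨τ ^ 2, hmem⟩ : L)).Monic := monic_X_pow_sub_C _ (by norm_num)
    have hp0 : aeval τ (X ^ 2 - C (⟨τ ^ 2, hmem⟩ : L)) = 0 := by
      rw [map_sub, map_pow, aeval_X, aeval_C]
      exact sub_self _
    have hint : IsIntegral L τ := ⟨_, hp, by rw [← aeval_def]; exact hp0⟩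
    have hmin : minpoly L τ = X ^ 2 - C (⟨τ ^ 2, hmem⟩ : L) := by
      symm
      have hdvd := minpoly.dvd L τ hp0
      have hdeg : 2 ≤ (minpoly L τ).natDegree := by
        have h1 : 0 < (minpoly L τ).natDegree := minpoly.natDegree_pos hint
        have h2 : (minpoly L τ).natDegree ≠ 1 := by
          intro h2
          obtain ⟨q, hq⟩ := minpoly.natDegree_eq_one_iff.1 h2
          apply hnot
          rw [← hq]
          exact q.2
        omega
      refine (eq_of_monic_of_dvd_of_natDegree_le (minpoly.monic hint) hp hdvd ?_)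
      rw [natDegree_X_pow_sub_C]
      exact hdeg
    have hroot : aeval (-τ) (minpoly L τ) = 0 := by
      rw [hmin, map_sub, map_pow, aeval_X, aeval_C, neg_sq]
      exact sub_self _
    obtain ⟨σ, hσ, hσ2⟩ := h3_root L τ (-τ) hint.isAlgebraic hroot
    have h1 := hfix σ (fun x => hσ (algebraMap K L x))
    rw [hσ2] at h1
    have h2 : (2 : ℂ) * τ = 0 := by linear_combination -h1
    rcases mul_eq_zero.1 h2 with h3 | h3
    · norm_num at h3
    · exact hτ0 h3

/-- a number fixed by all automorphisms fixing `w` has rational `‖τ‖²` -/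
theorem c2_rat (τ : ℂ) (hfix : ∀ σ : ℂ ≃+* ℂ, σ w = w → σ τ = τ) :
    ∃ q : ℚ, (q : ℂ) = τ * conj τ := by
  have hwc : conj w = -1 - w := by
    apply Complex.ext
    · rw [Complex.conj_re, Complex.sub_re, Complex.neg_re, Complex.one_re, w_re]; norm_num
    · rw [Complex.conj_im, Complex.sub_im, Complex.neg_im, Complex.one_im]; ring
  have hmem : ∀ z : ℂ, (∀ σ : ℂ ≃+* ℂ, σ w = w → σ z = z) → IsAlgebraic ℚ z := by
    intro z hz
    obtain ⟨x, hx⟩ := c2_fixed KK z (fun σ hσ => hz σ (hσ ⟨w, d2_w_mem⟩))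
    have h1 : IsAlgebraic ℚ x := Algebra.IsAlgebraic.isAlgebraic x
    rw [← hx]
    exact h1.algebraMap
  have hfix2 : ∀ σ : ℂ ≃+* ℂ, σ w = w → σ (conj τ) = conj τ := by
    intro σ hσ
    set σ' : ℂ ≃+* ℂ := ((starRingAut : ℂ ≃+* ℂ).trans σ).trans (starRingAut : ℂ ≃+* ℂ) with hσ'
    have h1 : ∀ x, σ' x = conj (σ (conj x)) := fun x => rfl
    have h2 : σ' w = w := by
      rw [h1, hwc, map_sub, map_neg, map_one, hσ, ← hwc, Complex.conj_conj]
    have h3 := hfix σ' h2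
    rw [h1] at h3
    rw [← Complex.conj_conj (σ (conj τ)), h3]
  have halg : IsAlgebraic ℚ (τ * conj τ) := (hmem τ hfix).mul (hmem _ hfix2)
  refine fixed_rat _ halg ?_
  intro σ
  have h1 : σ w * σ w = -1 - σ w := by
    rw [← map_mul, w_sq, map_sub, map_neg, map_one]
  rcases a7_w_cases (σ w) h1 with h2 | h2
  · rw [map_mul, hfix σ h2, hfix2 σ h2]
  · set σ' : ℂ ≃+* ℂ := σ.trans (starRingAut : ℂ ≃+* ℂ) with hσ'
    have h3 : ∀ x, σ' x = conj (σ x) := fun x => rfl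
    have h4 : σ' w = w := by rw [h3, h2, Complex.conj_conj]
    have h5 := hfix σ' h4
    have h6 := hfix2 σ' h4
    rw [h3] at h5 h6
    have h7 : σ τ = conj τ := by
      rw [← Complex.conj_conj (σ τ), h5]
    have h8 : σ (conj τ) = τ := by
      rw [← Complex.conj_conj (σ (conj τ)), h6, Complex.conj_conj]
    rw [map_mul, h7, h8, mul_comm]

/-- the conjugate valuation ring -/
theorem c2_conj_val (t : ℂ)
    (h : ∀ A : ValuationSubring ℂ, A.valuation 2 < 1 → A.valuation t = 1)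
    (A : ValuationSubring ℂ) (hA : A.valuation 2 < 1) : A.valuation (conj t) = 1 := by
  set B : ValuationSubring ℂ := A.comap (starRingEnd ℂ) with hB
  have hval : ∀ z : ℂ, B.valuation z ≤ 1 ↔ A.valuation (conj z) ≤ 1 := by
    intro z
    rw [ValuationSubring.valuation_le_one_iff, ValuationSubring.valuation_le_one_iff, hB,
      ValuationSubring.mem_comap]
  have hval2 : ∀ z : ℂ, z ≠ 0 → (1 ≤ B.valuation z ↔ 1 ≤ A.valuation (conj z)) := by
    intro z hz
    have h1 := hval z⁻¹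
    rw [map_inv₀, map_inv₀, map_inv₀] at h1
    have e1 : (B.valuation z)⁻¹ ≤ 1 ↔ 1 ≤ B.valuation z :=
      inv_le_one₀ (zero_lt_iff.2 ((Valuation.ne_zero_iff _).2 hz))
    have e2 : (A.valuation (conj z))⁻¹ ≤ 1 ↔ 1 ≤ A.valuation (conj z) :=
      inv_le_one₀ (zero_lt_iff.2 ((Valuation.ne_zero_iff _).2 ((map_ne_zero _).2 hz)))
    rw [← e1, ← e2]
    exact h1
  have hB2 : B.valuation 2 < 1 := by
    rw [lt_iff_not_ge, hval2 2 two_ne_zero, not_le]
    rwa [map_ofNat]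
  have h1 := h B hB2
  have ht : t ≠ 0 := by
    rintro rfl
    rw [_root_.map_zero] at h1
    exact zero_ne_one h1
  apply le_antisymm
  · rw [← hval]; exact h1.le
  · rw [← hval2 t ht]; exact h1.ge

/-- odd integers are units -/
theorem c2_odd (A : ValuationSubring ℂ) (hA : A.valuation 2 < 1) (n : ℕ) (hn : Odd n) :
    A.valuation (n : ℂ) = 1 := by
  obtain ⟨k, hk⟩ := hn
  have h1 : A.valuation (k : ℂ) ≤ 1 := by
    rw [ValuationSubring.valuation_le_one_iff]
    exact natCast_mem A k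
  have h2 : A.valuation ((2 : ℂ) * k) < 1 := by
    rw [map_mul]
    calc A.valuation (2 : ℂ) * A.valuation (k : ℂ) ≤ A.valuation (2 : ℂ) * 1 := by gcongr
      _ < 1 := by rw [mul_one]; exact hA
  have h3 : (n : ℂ) = 2 * k + 1 := by rw [hk]; push_cast; ring
  rw [h3, Valuation.map_add_eq_of_lt_right]
  · exact map_one A.valuation
  · rw [map_one A.valuation]; exact h2

theorem c2_sq (A : ValuationSubring ℂ) (x : ℂ) (h : A.valuation (x ^ 2) = 1) :
    A.valuation x = 1 := by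
  rw [map_pow] at h
  rcases pow_eq_one_iff.1 h with h1 | h1
  · exact h1
  · norm_num at h1

variable (S : Finset Eis) (hS : ∀ b ∈ S, GoodEis b) (F : IntermediateField ℚ ℂ) [NumberField F]
  (hw : w ∈ F) (hF : F ≤ LS S) (h : Module.finrank ℚ F = 2 ^ (1 + 1))
  (d : 𝓞 F) (hd : d ≠ 0) (h4 : (4 : 𝓞 F) ∣ d - 1)
  (hgood : ∀ v : HeightOneSpectrum (𝓞 F), d ∈ v.asIdeal → (3 : 𝓞 F) ∈ v.asIdeal ∨
      ∃ p : ℕ, GoodPrime p ∧ (p : 𝓞 F) ∈ v.asIdeal)
  (hsf : ∀ v : HeightOneSpectrum (𝓞 F), d ∈ v.asIdeal → (3 : 𝓞 F) ∈ v.asIdeal ∨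
      symb (d : F) v = 0)
  (hone : ∀ g : 𝓞 F, g ≠ 0 → d ∣ g - 1 → chi (d : F) (Ideal.span {g}) = 1)
include hS hw hF h hd h4 hgood hsf hone

omit hS hF hgood hsf hone hd in
/-- the norm of `d ≡ 1 mod 4` is odd -/
theorem c2_norm_odd (s2 : F →+* ℂ) (hs : IsS2 F hw s2) :
    Odd (Ideal.absNorm (Ideal.span {d})) := by
  have hf : Module.finrank ℚ F = 4 := by rw [h]; norm_num
  obtain ⟨c, hc⟩ := h4
  have hc₃ : d = 1 + 4 * c := by linear_combination hc
  obtain ⟨a, ha⟩ := s2_eis F hw hf s2 hs d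
  obtain ⟨n1, hn1⟩ := s2_eis F hw hf s2 hs c
  obtain ⟨n2, hn2⟩ := s2_eis F hw hf s2 hs (1 + c)
  have hap : a = 1 + 4 * (n2 - 1 - n1) + 16 * n1 := by
    apply emb_injective
    simp only [map_sub, map_add, map_mul, map_one, map_ofNat]
    rw [ha, hn1, hn2, hc₃]
    have e4 : (((4 : 𝓞 F) : F) : ℂ) = 4 := rfl
    have e4' : ((4 : F) : ℂ) = 4 := rfl
    push_cast
    simp only [map_add, map_mul, map_one, map_ofNat, IntermediateField.coe_add,
      IntermediateField.coe_mul, IntermediateField.coe_one, e4, e4']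
    ring
  have h1 : (Ideal.absNorm (Ideal.span {d}) : ℤ) = a.norm := by
    have e1 := s2_absNorm F hw hf s2 hs d
    rw [← norm_mul, ← ha, norm_emb_sq] at e1
    exact_mod_cast e1
  have hre : a.re = 1 + 4 * (n2 - 1 - n1).re + 16 * n1.re := by
    rw [hap]
    have e16 : (16 : Eis).re = 16 := rfl
    have e16' : (16 : Eis).im = 0 := rfl
    have e4 : (4 : Eis).re = 4 := rfl
    have e4' : (4 : Eis).im = 0 := rfl
    simp only [QuadraticAlgebra.re_add, QuadraticAlgebra.re_mul, QuadraticAlgebra.re_one, e16, e16',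
      e4, e4']
    ring
  have him : a.im = 4 * (n2 - 1 - n1).im + 16 * n1.im := by
    rw [hap]
    have e16 : (16 : Eis).re = 16 := rfl
    have e16' : (16 : Eis).im = 0 := rfl
    have e4 : (4 : Eis).re = 4 := rfl
    have e4' : (4 : Eis).im = 0 := rfl
    simp only [QuadraticAlgebra.im_add, QuadraticAlgebra.im_mul, QuadraticAlgebra.im_one, e16, e16',
      e4, e4']
    ring
  rw [← Int.odd_coe_nat, h1, norm_eq, hre, him]
  generalize (n2 - 1 - n1).re = p
  generalize (n2 - 1 - n1).im = q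
  generalize n1.re = r
  generalize n1.im = u
  refine ⟨((1 + 4 * p + 16 * r) ^ 2 - (1 + 4 * p + 16 * r) * (4 * q + 16 * u) +
    (4 * q + 16 * u) ^ 2 - 1) / 2, ?_⟩
  have : ((1 + 4 * p + 16 * r) ^ 2 - (1 + 4 * p + 16 * r) * (4 * q + 16 * u) +
    (4 * q + 16 * u) ^ 2 - 1) = 2 * (4 * p + 16 * r + 2 * (2 * p + 8 * r) ^ 2 -
      (1 + 4 * p + 16 * r) * (2 * q + 8 * u) + 2 * (2 * q + 8 * u) ^ 2) := by ring
  rw [this, Int.mul_ediv_cancel_left _ (by norm_num), ← this]
  ring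

/-- `hgal`: to be supplied by the reciprocity part (D). -/
theorem adata (s2 : F →+* ℂ) (hs : IsS2 F hw s2) (N0 : ℕ) (hN0 : Odd N0)
    (hgal : ∀ N : ℕ, Odd N → 3 ∣ N → N0 ∣ N → ∀ σ : ℂ ≃+* ℂ, σ w = w → ∀ u : Eis,
      IsCoprime u (N : Eis) → (3 : Eis) ∣ u - 1 →
      (∀ c : Eis, ptMap (σ : ℂ →+* ℂ) (pt (emb c / N)) = pt (emb (c * u) / N)) →
      ∀ ρ : ℂ, ρ ^ 2 = ((d : F) : ℂ) * s2 (d : F) →
        σ ρ = (chi (d : F) (Ideal.span {eF F hw u}) : ℂ) * ρ) : AData F d := by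
  have hf : Module.finrank ℚ F = 4 := by rw [h]; norm_num
  obtain ⟨Φ, N, δ, hΦ, hΦs, hval, hNodd, hN3, hNN0, hdis, hδ, hσ⟩ :=
    value_unit S hS F hw hF h d hd h4 hgood hsf hone N0 hN0
  obtain ⟨ρ, hρ⟩ := IsAlgClosed.exists_pow_nat_eq (((d : F) : ℂ) * s2 (d : F))
    (by norm_num : 0 < 2)
  have hd0 : ((d : F) : ℂ) ≠ 0 := by
    intro h0
    apply hd
    ext
    exact h0
  have hsd0 : s2 (d : F) ≠ 0 := by
    intro h0
    apply hd
    have h1 : (d : F) = 0 := (map_eq_zero s2).1 h0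
    exact_mod_cast h1
  have hρ0 : ρ ≠ 0 := by
    intro h0
    rw [h0, zero_pow two_ne_zero] at hρ
    exact (mul_ne_zero hd0 hsd0) hρ.symm
  set t : ℂ := Φ 1 / OmC ^ 2 with ht
  obtain ⟨A, hA⟩ := exists_val
  have ht0 : t ≠ 0 := by
    intro h0
    have h1 := hval A hA
    rw [h0, _root_.map_zero] at h1
    exact zero_ne_one h1
  -- rationality
  have hNpos : 0 < N := hNodd.pos
  have hfix : ∀ σ : ℂ ≃+* ℂ, σ w = w → σ (t * δ * ρ) = t * δ * ρ := by
    intro σ hσw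
    obtain ⟨u, u', hu1, hu2, hu3⟩ := gal_fix N hNpos hN3 σ hσw
    have hcop : IsCoprime u (N : Eis) := by
      obtain ⟨c, hc⟩ := hu1
      refine ⟨u', -c, ?_⟩
      linear_combination hc
    have e1 := hσ σ hσw u hcop hu2 hu3
    have e2 := hgal N hNodd hN3 hNN0 σ hσw u hcop hu2 hu3 ρ hρ
    set k : ℤ := chi (d : F) (Ideal.span {eF F hw u}) with hk
    have hk0 : k ≠ 0 := by
      intro h0
      rw [h0, Int.cast_zero, zero_mul] at e2
      exact hρ0 ((map_eq_zero σ).1 e2)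
    have hk2 : ((k : ℤ) : ℂ) * k = 1 := by
      rcases c2_chi_cases (d : F) (Ideal.span {eF F hw u}) with h1 | h1 | h1
      · exact absurd h1 hk0
      · rw [hk, h1]; norm_num
      · rw [hk, h1]; norm_num
    rw [map_mul, map_mul, e1, e2]
    linear_combination (t * δ * ρ) * hk2
  obtain ⟨q, hq⟩ := c2_rat (t * δ * ρ) hfix
  -- the formula
  have hq2 : (q : ℝ) = ‖t‖ ^ 2 * ‖δ‖ ^ 2 * ‖ρ‖ ^ 2 := by
    have h1 : ((q : ℝ) : ℂ) = ((‖t * δ * ρ‖ ^ 2 : ℝ) : ℂ) := by
      rw [← Complex.normSq_eq_norm_sq, ← Complex.mul_conj, ← hq]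
      norm_num
    have h2 : (q : ℝ) = ‖t * δ * ρ‖ ^ 2 := by exact_mod_cast h1
    rw [h2, norm_mul, norm_mul]
    ring
  have hρn : ‖ρ‖ ^ 2 = √((Algebra.norm ℤ d).natAbs : ℝ) := by
    rw [← norm_pow, hρ, norm_mul]
    symm
    rw [← Ideal.absNorm_span_singleton, s2_absNorm F hw hf s2 hs d, Real.sqrt_sq (by positivity)]
  have hδn : √|(discr F : ℝ)| = 3 * ‖δ‖ ^ 2 := by
    rw [hdis, abs_of_nonneg (by positivity)]
    have : 9 * ‖δ‖ ^ 4 = (3 * ‖δ‖ ^ 2) ^ 2 := by ring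
    rw [this, Real.sqrt_sq (by positivity)]
  have hΦn : ‖Φ 1‖ ^ 2 = ‖t‖ ^ 2 * Om ^ 4 := by
    have h1 : Φ 1 = t * OmC ^ 2 := by
      rw [ht, div_mul_cancel₀]
      exact pow_ne_zero 2 OmC_ne
    have h2 : ‖OmC‖ = Om := by
      rw [OmC, norm_mul, Complex.norm_I, one_mul, Complex.norm_real, Real.norm_eq_abs,
        abs_of_pos Om_pos]
    rw [h1, norm_mul, norm_pow, h2]
    ring
  have hqpos : 0 < q := by
    have h1 : (0 : ℝ) < q := by
      rw [hq2]
      have := norm_pos_iff.2 ht0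
      have := norm_pos_iff.2 hδ
      have := norm_pos_iff.2 hρ0
      positivity
    exact_mod_cast h1
  -- valuations
  have v1 : A.valuation t = 1 := hval A hA
  have v2 : A.valuation (conj t) = 1 := c2_conj_val t hval A hA
  have v3 : A.valuation (3 * (δ * conj δ)) = 1 := by
    apply c2_sq
    have h1 : (3 * (δ * conj δ)) ^ 2 = (((discr F).natAbs : ℕ) : ℂ) := by
      have h2 : (((discr F).natAbs : ℕ) : ℝ) = 9 * ‖δ‖ ^ 4 := by
        rw [Nat.cast_natAbs, Int.cast_abs, hdis, abs_of_nonneg (by positivity)]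
      have h3 : ((((discr F).natAbs : ℕ) : ℝ) : ℂ) = ((9 * ‖δ‖ ^ 4 : ℝ) : ℂ) := by rw [h2]
      rw [Complex.mul_conj, Complex.normSq_eq_norm_sq]
      push_cast at h3 ⊢
      rw [h3]
      ring
    rw [h1]
    exact c2_odd A hA _ (odd_discr S hS F hw hF)
  have v4 : A.valuation (ρ * conj ρ) = 1 := by
    apply c2_sq
    have h1 : (ρ * conj ρ) ^ 2 = ((Ideal.absNorm (Ideal.span {d}) : ℕ) : ℂ) := by
      have h2 := s2_absNorm F hw hf s2 hs d
      rw [← norm_mul, ← hρ, norm_pow] at h2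
      have h3 : ((((Ideal.absNorm (Ideal.span {d})) : ℕ) : ℝ) : ℂ) =
        (((‖ρ‖ ^ 2) ^ 2 : ℝ) : ℂ) := by rw [h2]
      rw [Complex.mul_conj, Complex.normSq_eq_norm_sq]
      push_cast at h3 ⊢
      rw [h3]
    rw [h1]
    exact c2_odd A hA _ (c2_norm_odd F hw h d h4 s2 hs)
  have hval3 : A.valuation (((3 * q : ℚ)) : ℂ) = 1 := by
    have h1 : (((3 * q : ℚ)) : ℂ) = (t * conj t) * (3 * (δ * conj δ)) * (ρ * conj ρ) := by
      push_cast
      rw [hq]
      simp only [map_mul]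
      ring
    rw [h1, map_mul, map_mul, map_mul, v1, v2, v3, v4]
    simp
  refine ⟨fun s => conj (Φ (conj s)), ?_, ?_, 3 * q, by positivity, rat_val _ A hA hval3, ?_⟩
  · intro s
    have h1 : DifferentiableAt ℂ Φ (conj s) := hΦ _
    exact differentiableAt_conj_conj_iff.2 h1
  · intro s hs'
    have h1 := LSeries_conj F (fun I => conj (lam F (d : F) I)) s
    simp only [Complex.conj_conj] at h1
    rw [h1, ← hΦs (conj s) (by rwa [Complex.conj_re])]
  · have h1 : ‖conj (Φ (conj 1))‖ = ‖Φ 1‖ := by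
      rw [RCLike.norm_conj, map_one]
    simp only [h1]
    rw [hΦn, hρn.symm, hδn]
    push_cast
    rw [hq2]
    ring

end NAB
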