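import Pool.Agent.MP_9ab903_nt.CF3.SGT

set_option autoImplicit false

open NumberField IsDedekindDomain
open CM27 CMT CF
open scoped Classical

namespace NAB

/-! ## [NAB-DS] the algebraic half for `E_d : y² + y = x³ + e`, `4 e + 1 = d³` over a field `F`
such that `F(√d)` is contained in a Galois extension `M` of degree `2 ^ n` of `K = ℚ(ω)`, unramified
outside `3` and the good primes (file NAB/DS.lean) -/

/-- the local conditions and field extensions -/
theorem locD_map {F M : Type} [Field F] [Field M] (f : F →+* M) {D : F} {z : R F}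
    {C C' : Type} [Field C] [Algebra F C] [Field C'] [Algebra M C'] (φ : C →+* C')
    (hφ : ∀ x : F, φ (algebraMap F C x) = algebraMap M C' (f x)) (h : LocD D z C) :
    LocD (f D) (mapR f z) C' := by
  have hcomp : (φ.comp (algebraMap F C)) = ((algebraMap M C').comp f) := by
    ext x
    exact hφ x
  have hmap : mapR (algebraMap M C') (mapR f z) = mapR φ (mapR (algebraMap F C) z) := by
    rw [sel_mapR_comp, sel_mapR_comp, hcomp]
  rcases h with ⟨v, hv⟩ | ⟨x, m, v, hm, hv⟩
  · refine Or.inl ⟨mapR φ v, ?_⟩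
    rw [hmap, hv, map_pow]
  · refine Or.inr ⟨φ x, φ m, mapR φ v, ?_, ?_⟩
    · have h1 := congrArg φ hm
      simp only [map_pow, map_add, map_mul, map_ofNat, hφ] at h1
      exact h1
    · rw [hmap, ← map_pow, ← hv, map_mul, mapR_trip, map_zero, hφ]

section
variable (K F M : Type) [Field K] [NumberField K] [IsCyclotomicExtension {3} ℚ K] [Field F]
  [NumberField F] [Field M] [NumberField M] [Algebra K F] [Algebra F M] [Algebra K M]
  [IsScalarTower K F M] [IsGalois K M] (n : ℕ) (hn : Module.finrank K M = 2 ^ n) (hu : Unr K M)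

include hn in
omit [NumberField K] [IsCyclotomicExtension {3} ℚ K] [IsGalois K M] in
theorem finrank_sub : ∃ k : ℕ, Module.finrank K F = 2 ^ k := by
  have h1 : Module.finrank K F * Module.finrank F M = 2 ^ n := by
    rw [Module.finrank_mul_finrank, hn]
  obtain ⟨k, -, hk⟩ := (Nat.dvd_prime_pow Nat.prime_two).1 (Dvd.intro _ h1)
  exact ⟨k, hk⟩

include hn in
omit [IsGalois K M] in
theorem irr_sub : Irreducible (cubPoly F) := by
  obtain ⟨k, hk⟩ := finrank_sub K F M n hn
  exact sg_irreducible K F k hk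

include hu in
omit [IsCyclotomicExtension {3} ℚ K] [IsGalois K M] in
theorem unr_sub : Unr K F := by
  intro v P hP h3 hp
  have := P.isMaximal
  obtain ⟨Q, hQm, hQ⟩ := Ideal.exists_maximal_ideal_liesOver_of_isIntegral
    (S := 𝓞 M) P.asIdeal
  have hQ0 : Q ≠ ⊥ := Ideal.ne_bot_of_liesOver_of_ne_bot P.ne_bot Q
  let W : HeightOneSpectrum (𝓞 M) := ⟨Q, hQm.isPrime, hQ0⟩
  have hWP : W.asIdeal.LiesOver P.asIdeal := hQ
  have hWv : W.asIdeal.LiesOver v.asIdeal := Ideal.LiesOver.trans W.asIdeal P.asIdeal v.asIdeal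
  have h1 := hu v W hWv h3 hp
  have h2 : P.asIdeal.ramificationIdx (𝓞 K) ∣ W.asIdeal.ramificationIdx (𝓞 K) :=
    Ideal.ramificationIdx_below_dvd (R := 𝓞 K) P.asIdeal W.asIdeal
  rw [h1] at h2
  exact Nat.dvd_one.1 h2

variable (d : 𝓞 F) (hd : d ≠ 0) (δ : M) (hδ : δ ^ 2 = algebraMap F M (d : F))
include hn hu hd hδ

/-- The Selmer group is trivial. -/
theorem selmer_trivial_sub (z : R F) (hz : z ≠ 0) (hN : ∃ y : F, Algebra.norm F z = y ^ 2)
    (hloc : ∀ v : HeightOneSpectrum (𝓞 F), LocD (d : F) z (v.adicCompletion F)) :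
    ∃ t : R F, z = t ^ 2 := by
  have hirrF : Fact (Irreducible (cubPoly F)) := ⟨irr_sub K F M n hn⟩
  have hirrM : Fact (Irreducible (cubPoly M)) := ⟨sg_irreducible K M n hn⟩
  have hgF : IsGalois F M := IsGalois.tower_top_of_isGalois K F M
  have hd0 : (d : F) ≠ 0 := RingOfIntegers.coe_ne_zero_iff.2 hd
  have hδ0 : δ ≠ 0 := by
    rintro rfl
    rw [zero_pow two_ne_zero] at hδ
    exact hd0 ((algebraMap F M).injective (by rw [← hδ, map_zero]))
  have hinj := sel_mapR_injective (algebraMap F M)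
  obtain ⟨y, hy⟩ := hN
  have hyM : Algebra.norm M (mapR (algebraMap F M) z) = algebraMap F M y ^ 2 := by
    rw [norm_mapR, hy, map_pow]
  have hz' : mapR (algebraMap F M) z ≠ 0 := by
    intro h0
    exact hz (hinj (by rw [h0, map_zero]))
  obtain ⟨t, ht⟩ := selmer_trivial_tw K M n hn hu (1 : 𝓞 M) one_ne_zero
    ⟨0, by rw [sub_self, mul_zero]⟩
    (fun σ => ⟨1, by
      change σ (algebraMap (𝓞 M) M 1) = algebraMap (𝓞 M) M 1 * 1 ^ 2
      rw [map_one, map_one, one_pow, one_mul]⟩)
    (fun v _ _ => by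
      change IsSquare (v.valuation M (algebraMap (𝓞 M) M 1))
      rw [map_one, map_one]
      exact IsSquare.one)
    (mapR (algebraMap F M) z) hz' ⟨algebraMap F M y, hyM⟩ (by
      intro W
      obtain ⟨v, -, φ, hφ⟩ := exists_below F M W
      have h1 := locD_scale (locD_map (algebraMap F M) φ hφ (hloc v)) δ⁻¹
      have h2 : algebraMap F M (d : F) * δ⁻¹ ^ 2 = 1 := by
        rw [← hδ, inv_pow, mul_inv_cancel₀ (pow_ne_zero 2 hδ0)]
      rw [h2] at h1
      have h3 : (((1 : 𝓞 M) : 𝓞 M) : M) = 1 := map_one (algebraMap (𝓞 M) M)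
      rw [h3]
      exact h1)
  -- the square root is fixed by the Galois group
  have hnt : Algebra.norm M t ^ 2 = algebraMap F M y ^ 2 := by
    rw [← hyM, ht, map_pow]
  have hNz : Algebra.norm M t ≠ 0 := by
    intro h0
    rw [h0, zero_pow two_ne_zero] at hnt
    apply hz
    have h1 : Algebra.norm F z = 0 := by
      apply (algebraMap F M).injective
      rw [hy, map_pow, ← hnt, map_zero]
    exact Algebra.norm_eq_zero_iff.mp h1
  have hfixN : ∀ σ : M ≃ₐ[F] M, σ (Algebra.norm M t) = Algebra.norm M t := by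
    intro σ
    rcases sq_eq_sq_iff_eq_or_eq_neg.1 hnt with h | h
    · rw [h, σ.commutes]
    · rw [h, map_neg, σ.commutes]
  have hfix : ∀ σ : M ≃ₐ[F] M, mapR (σ : M →+* M) t = t := by
    intro σ
    have h1 : mapR (σ : M →+* M) t ^ 2 = t ^ 2 := by
      rw [← map_pow, ← ht, sel_mapR_comp]
      congr 2
      ext x
      exact σ.commutes x
    rcases sq_eq_sq_iff_eq_or_eq_neg.1 h1 with h | h
    · exact h
    · exfalso
      have h2 : Algebra.norm M (mapR (σ : M →+* M) t) = Algebra.norm M t := by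
        rw [norm_mapR]
        exact hfixN σ
      rw [h, r3_norm_neg] at h2
      apply hNz
      have h3 : (2 : M) * Algebra.norm M t = 0 := by linear_combination -h2
      exact (mul_eq_zero.1 h3).resolve_left two_ne_zero
  obtain ⟨t0, ht0⟩ := fixed_mapR F M t hfix
  refine ⟨t0, hinj ?_⟩
  rw [map_pow, ht0, ht]

theorem sub_divisible (e : F) (he : 4 * e + 1 = (d : F) ^ 3) (P : (Wt e).toAffine.Point) :
    ∃ Q, P = 2 • Q := by
  have hirrF : Fact (Irreducible (cubPoly F)) := ⟨irr_sub K F M n hn⟩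
  rcases P with _ | ⟨x, y, hxy⟩
  · exact ⟨0, by rw [smul_zero]; rfl⟩
  · set D : F := (d : F) with hD
    have hD0 : D ≠ 0 := RingOfIntegers.coe_ne_zero_iff.2 hd
    have heq : y ^ 2 + y = x ^ 3 + e := by
      have h1 := (WeierstrassCurve.Affine.equation_iff _ _).1 hxy.1
      simp only [Wt] at h1
      linear_combination h1
    have hm : (2 * y + 1) ^ 2 = 4 * x ^ 3 + D ^ 3 := by
      rw [← he]
      linear_combination 4 * heq
    have hz0 : trip D 0 x ≠ 0 := by
      intro h0
      have h1 : trip D 0 x = trip 0 0 0 := by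
        rw [h0]; simp [trip]
      exact hD0 (trip_inj h1).1
    have hloc : ∀ v : HeightOneSpectrum (𝓞 F), LocD D (trip D 0 x) (v.adicCompletion F) := by
      intro v
      refine Or.inr ⟨algebraMap F _ x, algebraMap F _ (2 * y + 1),
          mapR (algebraMap F (v.adicCompletion F)) (trip D 0 x), ?_, ?_⟩
      · have h1 := congrArg (algebraMap F (v.adicCompletion F)) hm
        simp only [map_add, map_mul, map_pow, map_ofNat, map_one] at h1 ⊢
        exact h1
      · rw [mapR_trip, map_zero, pow_two]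
    obtain ⟨t, ht⟩ := selmer_trivial_sub K F M n hn hu d hd δ hδ (trip D 0 x) hz0
      ⟨2 * y + 1, by rw [norm_trip, hm]; ring⟩ hloc
    exact CMT.exists_half e D hD0 he x y hxy t ht

variable (h4 : (4 : 𝓞 F) ∣ d - 1) (e : F) (he : 4 * e + 1 = (d : F) ^ 3)
include h4 he

theorem sub_finite : Finite (Wt e).toAffine.Point := by
  have hu' := unr_sub K F M hu
  obtain ⟨v, hv2, hv4⟩ := sg_exists_two K F hu'
  refine CMT.finite_of_divisible v hv2 hv4 e ?_ (sub_divisible K F M n hn hu d hd δ hδ e he)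
  obtain ⟨f, hf⟩ := h4
  have h5 : (d : F) = 4 * (f : F) + 1 := by
    have h6 := congrArg (algebraMap (𝓞 F) F) hf
    rw [map_sub, map_one, map_mul, map_ofNat] at h6
    change (d : F) - 1 = 4 * (f : F) at h6
    linear_combination h6
  have h6 : e = ((16 * f ^ 3 + 12 * f ^ 2 + 3 * f : 𝓞 F) : F) := by
    have h7 : ((16 * f ^ 3 + 12 * f ^ 2 + 3 * f : 𝓞 F) : F) =
        16 * (f : F) ^ 3 + 12 * (f : F) ^ 2 + 3 * (f : F) := by
      change algebraMap (𝓞 F) F (16 * f ^ 3 + 12 * f ^ 2 + 3 * f) = _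
      simp only [map_add, map_mul, map_pow, map_ofNat]
    rw [h7]
    have h8 : (4 : F) * (e - (16 * (f : F) ^ 3 + 12 * (f : F) ^ 2 + 3 * (f : F))) = 0 := by
      rw [h5] at he
      linear_combination he
    rcases mul_eq_zero.1 h8 with h9 | h9
    · norm_num at h9
    · exact sub_eq_zero.1 h9
  rw [h6]
  exact v.valuation_le_one _

theorem sub_odd : Odd (Nat.card (Wt e).toAffine.Point) := by
  have hirrF : Fact (Irreducible (cubPoly F)) := ⟨irr_sub K F M n hn⟩
  have hfin := sub_finite K F M n hn hu d hd δ hδ h4 e he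
  have hsurj : Function.Surjective (fun P : (Wt e).toAffine.Point => 2 • P) := fun P => by
    obtain ⟨Q, hQ⟩ := sub_divisible K F M n hn hu d hd δ hδ e he P
    exact ⟨Q, hQ.symm⟩
  have hinj := Finite.injective_iff_surjective.2 hsurj
  rw [← Nat.not_even_iff_odd]
  intro hev'
  obtain ⟨P, hP⟩ := exists_prime_addOrderOf_dvd_card' (G := (Wt e).toAffine.Point) 2 hev'.two_dvd
  have h2 : (fun P : (Wt e).toAffine.Point => 2 • P) P = (fun P => 2 • P) 0 := by
    change 2 • P = 2 • (0 : (Wt e).toAffine.Point)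
    rw [smul_zero, ← hP, addOrderOf_nsmul_eq_zero]
  have h0 := hinj h2
  rw [h0, addOrderOf_zero] at hP
  norm_num at hP

omit h4 in
theorem sub_sha (k : ℕ) (x : SBSD.Sha (Wt e)) (h2 : 2 ^ k • x = 0) : x = 0 := by
  have hD0 : (d : F) ≠ 0 := RingOfIntegers.coe_ne_zero_iff.2 hd
  refine fin_two_pow (A := SBSD.Sha (Wt e)) (fun x hx => ?_) k x h2
  obtain ⟨c, rfl⟩ := QuotientAddGroup.mk_surjective x
  obtain ⟨hc1, hc2, -⟩ := c.2
  have h3 : 2 • c ∈ (SBSD.coboundaries (Wt e)).addSubgroupOf (SBSD.locTrivial (Wt e)) := by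
    rw [← QuotientAddGroup.eq_zero_iff]
    exact hx
  obtain ⟨P, hP⟩ := AddSubgroup.mem_addSubgroupOf.1 h3
  exact (QuotientAddGroup.eq_zero_iff _).2 (AddSubgroup.mem_addSubgroupOf.2
    (CMT.sha_two_of_selmer F e (d : F) hD0 he
      (fun z hz hn' hloc => selmer_trivial_sub K F M n hn hu d hd δ hδ z hz hn' hloc) c.1 hc1 hc2
      ⟨P, fun σ => hP σ⟩))

end

end NAB
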