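import Pool.Agent.MP_ae0bd0_nt.CM.F2
import Pool.Agent.MP_dfae13_nt.T.TE2

set_option autoImplicit false

open NumberField IsDedekindDomain ArithmeticFunction
open CM27
open scoped Classical

namespace NAB

/-! ## [NAB-EU1] Dirichlet series of completely multiplicative functions on the ideals
(file NAB/EU1.lean) -/

section
variable (F : Type) [Field F] [NumberField F]

/-- the ideals of norm `n`, `n > 0` -/
noncomputable def idn (n : ℕ) : Finset (Ideal (𝓞 F)) :=
  if n = 0 then ∅ else (Ideal.finite_setOfPred_absNorm_eq n).toFinset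

theorem mem_idn {n : ℕ} {I : Ideal (𝓞 F)} : I ∈ idn F n ↔ n ≠ 0 ∧ Ideal.absNorm I = n := by
  unfold idn
  split_ifs with h
  · simp [h]
  · simp [h]

/-- the arithmetic function `n ↦ ∑ f(I)`, `I` of norm `n` -/
noncomputable def IL (f : Ideal (𝓞 F) → ℂ) : ArithmeticFunction ℂ :=
  ⟨fun n => ∑ I ∈ idn F n, f I, by simp [idn]⟩

theorem IL_apply (f : Ideal (𝓞 F) → ℂ) (n : ℕ) : IL F f n = ∑ I ∈ idn F n, f I := rfl

theorem idn_one : idn F 1 = {1} := by
  ext I
  rw [mem_idn, Finset.mem_singleton, Ideal.absNorm_eq_one_iff, Ideal.one_eq_top]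
  simp

theorem IL_one (f : Ideal (𝓞 F) → ℂ) (h1 : f 1 = 1) : IL F f 1 = 1 := by
  rw [IL_apply, idn_one, Finset.sum_singleton, h1]

theorem coprime_sup {a b : ℕ} (hab : Nat.Coprime a b) (I : Ideal (𝓞 F)) (ha : (a : 𝓞 F) ∈ I) :
    I ⊔ Ideal.span {(b : 𝓞 F)} = ⊤ := by
  rw [Ideal.eq_top_iff_one]
  obtain ⟨u, v, huv⟩ := (Nat.isCoprime_iff_coprime.2 hab : IsCoprime (a : ℤ) (b : ℤ))
  have h1 : ((u : 𝓞 F)) * a + v * b = 1 := by
    exact_mod_cast congrArg (Int.cast : ℤ → 𝓞 F) huv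
  rw [← h1]
  exact Ideal.add_mem _ (Ideal.mul_mem_left _ _ (Ideal.mem_sup_left ha))
    (Ideal.mul_mem_left _ _ (Ideal.mem_sup_right (Ideal.mem_span_singleton_self _)))

theorem factor_sup {a b : ℕ} (hab : Nat.Coprime a b) (A B : Ideal (𝓞 F)) (ha : (a : 𝓞 F) ∈ A)
    (hb : (b : 𝓞 F) ∈ B) : A * B ⊔ Ideal.span {(a : 𝓞 F)} = A := by
  apply le_antisymm
  · refine sup_le Ideal.mul_le_left ?_
    rw [Ideal.span_singleton_le_iff_mem]
    exact ha
  · have h1 := coprime_sup F hab.symm B hb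
    calc A = A * ⊤ := (Ideal.mul_top A).symm
      _ = A * (B ⊔ Ideal.span {(a : 𝓞 F)}) := by rw [h1]
      _ = A * B ⊔ A * Ideal.span {(a : 𝓞 F)} := Ideal.mul_sup _ _ _
      _ ≤ A * B ⊔ Ideal.span {(a : 𝓞 F)} := sup_le_sup_left Ideal.mul_le_right _

theorem sup_factor {a b : ℕ} (hab : Nat.Coprime a b) (I : Ideal (𝓞 F))
    (h : ((a * b : ℕ) : 𝓞 F) ∈ I) :
    (I ⊔ Ideal.span {(a : 𝓞 F)}) * (I ⊔ Ideal.span {(b : 𝓞 F)}) = I := by
  apply le_antisymm
  · rw [Ideal.sup_mul]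
    refine sup_le Ideal.mul_le_left ?_
    rw [Ideal.mul_sup]
    refine sup_le Ideal.mul_le_right ?_
    rw [Ideal.span_singleton_mul_span_singleton, Ideal.span_singleton_le_iff_mem]
    exact_mod_cast h
  · obtain ⟨u, v, huv⟩ := (Nat.isCoprime_iff_coprime.2 hab : IsCoprime (a : ℤ) (b : ℤ))
    intro x hx
    have h1 : ((u : 𝓞 F)) * a + v * b = 1 := by
      exact_mod_cast congrArg (Int.cast : ℤ → 𝓞 F) huv
    have h2 : x = (a * (u * x)) + (v * x) * b := by linear_combination (-x) * h1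
    rw [h2]
    refine Ideal.add_mem _ (Ideal.mul_mem_mul ?_ ?_) (Ideal.mul_mem_mul ?_ ?_)
    · exact Ideal.mem_sup_right (Ideal.mem_span_singleton_self _)
    · exact Ideal.mem_sup_left (Ideal.mul_mem_left _ _ hx)
    · exact Ideal.mem_sup_left (Ideal.mul_mem_left _ _ hx)
    · exact Ideal.mem_sup_right (Ideal.mem_span_singleton_self _)

theorem norm_sup_coprime {a b : ℕ} (hab : Nat.Coprime a b) (I : Ideal (𝓞 F)) :
    Nat.Coprime (Ideal.absNorm (I ⊔ Ideal.span {(a : 𝓞 F)})) b := by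
  have h1 : Ideal.absNorm (I ⊔ Ideal.span {(a : 𝓞 F)}) ∣ Ideal.absNorm (Ideal.span {(a : 𝓞 F)}) :=
    Ideal.absNorm_dvd_absNorm_of_le le_sup_right
  rw [Ideal.absNorm_span_natCast] at h1
  exact Nat.Coprime.of_dvd_left h1 (Nat.Coprime.pow_left _ hab)

theorem isMultiplicative_IL (f : Ideal (𝓞 F) → ℂ) (h1 : f 1 = 1)
    (hmul : ∀ I J, f (I * J) = f I * f J) : (IL F f).IsMultiplicative := by
  constructor
  · exact IL_one F f h1
  · intro a b hab
    rcases Nat.eq_zero_or_pos a with rfl | ha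
    · rw [zero_mul, ArithmeticFunction.map_zero, zero_mul]
    rcases Nat.eq_zero_or_pos b with rfl | hb
    · rw [mul_zero, ArithmeticFunction.map_zero, mul_zero]
    have ha0 := ha.ne'
    have hb0 := hb.ne'
    rw [IL_apply, IL_apply, IL_apply, Finset.sum_mul_sum, ← Finset.sum_product']
    symm
    refine Finset.sum_nbij (fun p => p.1 * p.2) ?_ ?_ ?_ ?_
    · rintro ⟨I, J⟩ h
      obtain ⟨hI, hJ⟩ := Finset.mem_product.1 h
      rw [mem_idn] at hI hJ ⊢
      exact ⟨mul_ne_zero ha0 hb0, by rw [map_mul, hI.2, hJ.2]⟩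
    · rintro ⟨I, J⟩ h ⟨I', J'⟩ h' heq
      obtain ⟨hI, hJ⟩ := Finset.mem_product.1 (Finset.mem_coe.1 h)
      obtain ⟨hI', hJ'⟩ := Finset.mem_product.1 (Finset.mem_coe.1 h')
      rw [mem_idn] at hI hJ hI' hJ'
      change I * J = I' * J' at heq
      have mI : (a : 𝓞 F) ∈ I := by rw [← hI.2]; exact Ideal.absNorm_mem I
      have mI' : (a : 𝓞 F) ∈ I' := by rw [← hI'.2]; exact Ideal.absNorm_mem I'
      have mJ : (b : 𝓞 F) ∈ J := by rw [← hJ.2]; exact Ideal.absNorm_mem J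
      have mJ' : (b : 𝓞 F) ∈ J' := by rw [← hJ'.2]; exact Ideal.absNorm_mem J'
      have e1 : I = I' := by
        rw [← factor_sup F hab I J mI mJ, heq, factor_sup F hab I' J' mI' mJ']
      have e2 : J = J' := by
        rw [← factor_sup F hab.symm J I mJ mI, mul_comm J I, heq, mul_comm I' J',
          factor_sup F hab.symm J' I' mJ' mI']
      rw [e1, e2]
    · intro I hI
      have hI' := Finset.mem_coe.1 hI
      rw [mem_idn] at hI'
      have mI : ((a * b : ℕ) : 𝓞 F) ∈ I := by rw [← hI'.2]; exact Ideal.absNorm_mem I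
      have e := sup_factor F hab I mI
      set A := I ⊔ Ideal.span {(a : 𝓞 F)} with hA
      set B := I ⊔ Ideal.span {(b : 𝓞 F)} with hB
      have hn : Ideal.absNorm A * Ideal.absNorm B = a * b := by rw [← map_mul, e, hI'.2]
      have c1 : Nat.Coprime (Ideal.absNorm A) b := norm_sup_coprime F hab I
      have c2 : Nat.Coprime (Ideal.absNorm B) a := norm_sup_coprime F hab.symm I
      have d1 : Ideal.absNorm A ∣ a := c1.dvd_of_dvd_mul_right (hn ▸ Dvd.intro _ rfl)
      have d2 : Ideal.absNorm B ∣ b := c2.dvd_of_dvd_mul_left (hn ▸ Dvd.intro_left _ rfl)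
      have l1 := Nat.le_of_dvd ha d1
      have l2 := Nat.le_of_dvd hb d2
      have n1 : Ideal.absNorm A = a := by
        by_contra hne
        have hlt := lt_of_le_of_ne l1 hne
        have : Ideal.absNorm A * Ideal.absNorm B < a * b :=
          Nat.mul_lt_mul_of_lt_of_le hlt l2 hb
        omega
      have n2 : Ideal.absNorm B = b := by
        rw [n1] at hn
        exact Nat.eq_of_mul_eq_mul_left ha hn
      refine ⟨(A, B), ?_, e⟩
      rw [Finset.mem_coe, Finset.mem_product, mem_idn, mem_idn]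
      exact ⟨⟨ha0, n1⟩, ⟨hb0, n2⟩⟩
    · rintro ⟨I, J⟩ _
      exact (hmul I J).symm

end

end NAB
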