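import Pool.Agent.MP_9ab903_nt.NAB.EU1

set_option autoImplicit false

open NumberField IsDedekindDomain ArithmeticFunction
open CM27
open scoped Classical

namespace NAB

/-! ## [NAB-EU2] the Euler factors of the series `IL` (file NAB/EU2.lean) -/

section
variable (F : Type) [Field F] [NumberField F] (f : Ideal (𝓞 F) → ℂ)

/-- the sum of `f(I)` over the ideals of norm `n` whose prime divisors are in `T` -/
noncomputable def partSum (T : Finset (HeightOneSpectrum (𝓞 F))) (n : ℕ) : ℂ :=
  ∑ I ∈ (idn F n).filter (fun I => ∀ w : HeightOneSpectrum (𝓞 F), w.asIdeal ∣ I → w ∈ T), f I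

theorem eq_one_of_no_prime (I : Ideal (𝓞 F)) (hI : I ≠ 0)
    (h : ∀ w : HeightOneSpectrum (𝓞 F), ¬ w.asIdeal ∣ I) : I = 1 := by
  rw [Ideal.one_eq_top]
  by_contra hne
  obtain ⟨M, hM, hIM⟩ := Ideal.exists_le_maximal I hne
  have hM0 : M ≠ ⊥ := by
    rintro rfl
    exact hI (le_bot_iff.1 hIM)
  exact h ⟨M, hM.isPrime, hM0⟩ (Ideal.dvd_iff_le.2 hIM)

theorem partSum_empty (h1 : f 1 = 1) {p : ℕ} (hp : p.Prime) (k : ℕ) :
    partSum F f ∅ (p ^ k) = if k = 0 then 1 else 0 := by
  unfold partSum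
  have h : (idn F (p ^ k)).filter (fun I => ∀ w : HeightOneSpectrum (𝓞 F), w.asIdeal ∣ I →
      w ∈ (∅ : Finset (HeightOneSpectrum (𝓞 F)))) = if k = 0 then {1} else ∅ := by
    ext I
    rw [Finset.mem_filter, mem_idn]
    constructor
    · rintro ⟨⟨hn, hI⟩, hw⟩
      have hI0 : I ≠ 0 := by
        rintro rfl
        rw [Ideal.zero_eq_bot, Ideal.absNorm_bot] at hI
        exact hn hI.symm
      have h2 := eq_one_of_no_prime F I hI0 (fun w hd => absurd (hw w hd) (Finset.notMem_empty w))
      rw [h2, Ideal.one_eq_top, Ideal.absNorm_top] at hI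
      have hk : k = 0 := by
        by_contra hk
        exact (Nat.one_lt_pow hk hp.one_lt).ne hI
      rw [if_pos hk, h2]
      exact Finset.mem_singleton_self _
    · intro h
      split_ifs at h with hk
      · rw [Finset.mem_singleton] at h
        subst h
        refine ⟨⟨pow_ne_zero _ hp.ne_zero, ?_⟩, fun w hd => ?_⟩
        · rw [Ideal.one_eq_top, Ideal.absNorm_top, hk, pow_zero]
        · exfalso
          exact w.isPrime.ne_top (Ideal.isUnit_iff.1 (isUnit_of_dvd_one hd))
      · exact absurd h (Finset.notMem_empty _)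
  rw [h]
  split_ifs
  · rw [Finset.sum_singleton, h1]
  · rw [Finset.sum_empty]

theorem partSum_insert (hmul : ∀ I J, f (I * J) = f I * f J) {p : ℕ} (hp : p.Prime)
    (T : Finset (HeightOneSpectrum (𝓞 F))) (v : HeightOneSpectrum (𝓞 F)) (hv : v ∉ T) (d : ℕ)
    (hd : 0 < d) (hvd : Ideal.absNorm v.asIdeal = p ^ d) (k : ℕ) :
    partSum F f (insert v T) (p ^ k) = partSum F f T (p ^ k) +
      if d ≤ k then f v.asIdeal * partSum F f (insert v T) (p ^ (k - d)) else 0 := by
  classical
  unfold partSum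
  rw [← Finset.sum_filter_add_sum_filter_not
    ((idn F (p ^ k)).filter (fun I => ∀ w : HeightOneSpectrum (𝓞 F), w.asIdeal ∣ I →
      w ∈ insert v T)) (fun I => v.asIdeal ∣ I) f, add_comm]
  congr 1
  · -- not divisible by `v`
    refine Finset.sum_congr ?_ fun _ _ => rfl
    ext I
    rw [Finset.mem_filter, Finset.mem_filter, Finset.mem_filter]
    constructor
    · rintro ⟨⟨h1, h2⟩, h3⟩
      refine ⟨h1, fun w hw => ?_⟩
      rcases Finset.mem_insert.1 (h2 w hw) with h4 | h4
      · exact absurd (h4 ▸ hw) h3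
      · exact h4
    · rintro ⟨h1, h2⟩
      exact ⟨⟨h1, fun w hw => Finset.mem_insert_of_mem (h2 w hw)⟩, fun h => hv (h2 v h)⟩
  · split_ifs with hk
    · rw [Finset.mul_sum]
      symm
      refine Finset.sum_nbij (fun J => v.asIdeal * J) ?_ ?_ ?_ ?_
      · intro J hJ
        rw [Finset.mem_filter, mem_idn] at hJ
        rw [Finset.mem_filter, Finset.mem_filter, mem_idn]
        refine ⟨⟨⟨pow_ne_zero _ hp.ne_zero, ?_⟩, fun w hw => ?_⟩, Dvd.intro _ rfl⟩
        · rw [map_mul, hvd, hJ.1.2, ← pow_add, Nat.add_sub_cancel' hk]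
        · rcases (Ideal.prime_of_isPrime w.ne_bot w.isPrime).dvd_or_dvd hw with h | h
          · have h5 : v.asIdeal ≤ w.asIdeal := Ideal.dvd_iff_le.1 h
            have h6 : v.asIdeal = w.asIdeal := v.isMaximal.eq_of_le w.isPrime.ne_top h5
            rw [HeightOneSpectrum.ext h6]
            exact Finset.mem_insert_self _ _
          · exact hJ.2 w h
      · intro J _ J' _ h
        exact mul_left_cancel₀ (show v.asIdeal ≠ 0 from v.ne_bot) h
      · intro I hI
        rw [Finset.mem_coe, Finset.mem_filter, Finset.mem_filter, mem_idn] at hI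
        obtain ⟨⟨⟨h1, h2⟩, h3⟩, J, rfl⟩ := hI
        refine ⟨J, ?_, rfl⟩
        rw [Finset.mem_coe, Finset.mem_filter, mem_idn]
        refine ⟨⟨pow_ne_zero _ hp.ne_zero, ?_⟩, fun w hw => h3 w (hw.mul_left _)⟩
        rw [map_mul, hvd] at h2
        have h4 : p ^ k = p ^ d * p ^ (k - d) := by rw [← pow_add, Nat.add_sub_cancel' hk]
        rw [h4] at h2
        exact Nat.eq_of_mul_eq_mul_left (pow_pos hp.pos _) h2
      · intro J _
        exact (hmul _ _).symm
    · apply Finset.sum_eq_zero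
      intro I hI
      exfalso
      rw [Finset.mem_filter, Finset.mem_filter, mem_idn] at hI
      obtain ⟨⟨⟨h1, h2⟩, h3⟩, J, rfl⟩ := hI
      rw [map_mul, hvd] at h2
      have h4 : p ^ d ∣ p ^ k := Dvd.intro _ h2
      exact hk ((Nat.pow_dvd_pow_iff_le_right hp.one_lt).1 h4)

/-- the power series of `partSum` -/
noncomputable def partSer (T : Finset (HeightOneSpectrum (𝓞 F))) (p : ℕ) : PowerSeries ℂ :=
  PowerSeries.mk fun k => partSum F f T (p ^ k)

theorem partSer_empty (h1 : f 1 = 1) {p : ℕ} (hp : p.Prime) : partSer F f ∅ p = 1 := by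
  ext k
  rw [partSer, PowerSeries.coeff_mk, partSum_empty F f h1 hp, PowerSeries.coeff_one]

theorem partSer_insert (hmul : ∀ I J, f (I * J) = f I * f J) {p : ℕ} (hp : p.Prime)
    (T : Finset (HeightOneSpectrum (𝓞 F))) (v : HeightOneSpectrum (𝓞 F)) (hv : v ∉ T) (d : ℕ)
    (hd : 0 < d) (hvd : Ideal.absNorm v.asIdeal = p ^ d) :
    partSer F f (insert v T) p * (1 - PowerSeries.C (f v.asIdeal) * PowerSeries.X ^ d) =
      partSer F f T p := by
  ext k
  have h1 : partSer F f (insert v T) p * (1 - PowerSeries.C (f v.asIdeal) * PowerSeries.X ^ d) =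
      partSer F f (insert v T) p -
        PowerSeries.C (f v.asIdeal) * (partSer F f (insert v T) p * PowerSeries.X ^ d) := by ring
  rw [h1, map_sub, PowerSeries.coeff_C_mul, PowerSeries.coeff_mul_X_pow']
  simp only [partSer, PowerSeries.coeff_mk]
  rw [partSum_insert F f hmul hp T v hv d hd hvd k]
  split_ifs with h
  · ring
  · ring

/-- the Euler factor at `p` -/
theorem loc_IL (h1 : f 1 = 1) (hmul : ∀ I J, f (I * J) = f I * f J) {p : ℕ} (hp : p.Prime)
    (S : Finset (HeightOneSpectrum (𝓞 F)))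
    (hS : ∀ v : HeightOneSpectrum (𝓞 F), v ∈ S ↔ (p : 𝓞 F) ∈ v.asIdeal)
    (d : HeightOneSpectrum (𝓞 F) → ℕ)
    (hd : ∀ v ∈ S, 0 < d v ∧ Ideal.absNorm v.asIdeal = p ^ d v) :
    loc p (IL F f) * ∏ v ∈ S, (1 - PowerSeries.C (f v.asIdeal) * PowerSeries.X ^ d v) = 1 := by
  have hloc : loc p (IL F f) = partSer F f S p := by
    ext k
    rw [coeff_loc, partSer, PowerSeries.coeff_mk, partSum, IL_apply, Finset.filter_true_of_mem]
    intro I hI w hw
    rw [mem_idn] at hI
    rw [hS]
    have h2 : ((p ^ k : ℕ) : 𝓞 F) ∈ I := by rw [← hI.2]; exact Ideal.absNorm_mem I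
    have h3 : ((p ^ k : ℕ) : 𝓞 F) ∈ w.asIdeal := Ideal.dvd_iff_le.1 hw h2
    rw [Nat.cast_pow] at h3
    exact w.isPrime.mem_of_pow_mem k h3
  rw [hloc]
  have key : ∀ T : Finset (HeightOneSpectrum (𝓞 F)), T ⊆ S →
      partSer F f T p * ∏ v ∈ T, (1 - PowerSeries.C (f v.asIdeal) * PowerSeries.X ^ d v) = 1 := by
    intro T
    induction T using Finset.induction_on with
    | empty =>
      intro _
      rw [Finset.prod_empty, mul_one, partSer_empty F f h1 hp]
    | insert v T hv ih =>
      intro hT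
      have hvS : v ∈ S := hT (Finset.mem_insert_self _ _)
      rw [Finset.prod_insert hv, ← mul_assoc,
        partSer_insert F f hmul hp T v hv (d v) (hd v hvS).1 (hd v hvS).2]
      exact ih fun w hw => hT (Finset.mem_insert_of_mem hw)
  exact key S subset_rfl

end

end NAB
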