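import Pool.Agent.MP_9ab903_nt.NAB.EDefs

set_option autoImplicit false

open NumberField IsDedekindDomain
open CM27 CMT CF
open scoped Classical

namespace NAB

/-! ## [NAB-EU4] the local polynomials of the twists outside `3` (file NAB/EU4.lean) -/

theorem poly_good (K : Type) [Field K] [NumberField K] (e : K)
    (v : HeightOneSpectrum (𝓞 K)) (h3 : (3 : 𝓞 K) ∉ v.asIdeal)
    (C : WeierstrassCurve.VariableChange (v.adicCompletion K))
    (e' : v.adicCompletionIntegers K)
    (hW : (Wt e).baseChange (v.adicCompletion K) =
      C • Wt (algebraMap (v.adicCompletionIntegers K) (v.adicCompletion K) e'))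
    (he' : IsUnit (4 * e' + 1)) (a b : K)
    (ha : v.valuation K a ≤ 1) (hb : v.valuation K b ≤ 1)
    (hcard : ((Nat.card (Wt (IsLocalRing.residue (v.adicCompletionIntegers K)
        e')).toAffine.Point : ℕ) : ℤ) =
      if ∃ t : IsLocalRing.ResidueField (v.adicCompletionIntegers K),
        t ^ 2 + IsLocalRing.residue (v.adicCompletionIntegers K) (PL_toO K v a ha) * t +
          IsLocalRing.residue (v.adicCompletionIntegers K) (PL_toO K v b hb) = 0
      then (Nat.card (E (IsLocalRing.ResidueField
        (v.adicCompletionIntegers K))).toAffine.Point : ℤ)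
      else 2 * (Nat.card (IsLocalRing.ResidueField (v.adicCompletionIntegers K)) + 1) -
        Nat.card (E (IsLocalRing.ResidueField (v.adicCompletionIntegers K))).toAffine.Point) :
    ((Wt e).baseChange (v.adicCompletion K)).localPolynomial (v.adicCompletionIntegers K) =
      1 - Polynomial.C ((if ∃ s : K, v.valuation K (s ^ 2 + a * s + b) < 1 then 1 else -1) *
        ((Nat.card (IsLocalRing.ResidueField (v.adicCompletionIntegers K)) : ℤ) + 1 -
        Nat.card (E (IsLocalRing.ResidueField
          (v.adicCompletionIntegers K))).toAffine.Point)) * Polynomial.X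
      + Polynomial.C (Nat.card (IsLocalRing.ResidueField (v.adicCompletionIntegers K)) : ℤ) *
        Polynomial.X ^ 2 := by
  obtain ⟨hc, hfin⟩ := card_residue K v
  have h3A : IsUnit (3 : v.adicCompletionIntegers K) := by
    have h5 := isUnit_completion' K v 3 h3
    rwa [map_ofNat] at h5
  have hpoly := localPoly_twist' (v.adicCompletionIntegers K) (v.adicCompletion K) h3A e' he' C
  rw [← hW] at hpoly
  rw [hpoly]
  congr 3
  by_cases hs : ∃ s : K, v.valuation K (s ^ 2 + a * s + b) < 1
  · rw [if_pos ((PL_root K v ha hb).2 hs)] at hcard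
    rw [if_pos hs, hcard, one_mul]
  · rw [if_neg (fun h => hs ((PL_root K v ha hb).1 h))] at hcard
    rw [if_neg hs, hcard]
    congr 1
    ring

/-- the local polynomial of `Wt e` at a place not above `3` -/
theorem local_poly (K : Type) [Field K] [NumberField K]
    (d : 𝓞 K) (h4 : (4 : 𝓞 K) ∣ d - 1) (hd : d ≠ 0) (e : K)
    (he : 4 * e + 1 = (d : K) ^ 3) (v : HeightOneSpectrum (𝓞 K)) (h3 : (3 : 𝓞 K) ∉ v.asIdeal) :
    ((Wt e).baseChange (v.adicCompletion K)).localPolynomial (v.adicCompletionIntegers K) =
      1 - Polynomial.C (symb (d : K) v *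
        ((Nat.card (IsLocalRing.ResidueField (v.adicCompletionIntegers K)) : ℤ) + 1 -
        Nat.card (E (IsLocalRing.ResidueField
          (v.adicCompletionIntegers K))).toAffine.Point)) * Polynomial.X
      + Polynomial.C (symb (d : K) v ^ 2 *
        (Nat.card (IsLocalRing.ResidueField (v.adicCompletionIntegers K)) : ℤ)) *
        Polynomial.X ^ 2 := by
  obtain ⟨hc, hfin⟩ := card_residue K v
  have hd0 : (d : K) ≠ 0 := RingOfIntegers.coe_ne_zero_iff.2 hd
  have h2Kv : (2 : v.adicCompletion K) ≠ 0 := by
    have h5 : (algebraMap K (v.adicCompletion K)) 2 ≠ 0 := by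
      rw [Ne.eq_def, map_eq_zero]
      exact two_ne_zero
    rwa [map_ofNat] at h5
  have h3A : IsUnit (3 : v.adicCompletionIntegers K) := by
    have h5 := isUnit_completion' K v 3 h3
    rwa [map_ofNat] at h5
  have hval4 : (2 : 𝓞 K) ∉ v.asIdeal → v.valuation K (4 : K) = 1 := by
    intro h5
    have h6 : v.valuation K ((2 : 𝓞 K) : K) = 1 := by
      refine le_antisymm (PL_int K v 2) (not_lt.1 fun h7 => h5 ?_)
      exact (v.valuation_lt_one_iff_mem 2).1 h7
    have h7 : (4 : K) = ((2 : 𝓞 K) : K) * ((2 : 𝓞 K) : K) := by
      have h8 : ((2 : 𝓞 K) : K) = 2 := map_ofNat (algebraMap (𝓞 K) K) 2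
      rw [h8]
      norm_num
    rw [h7, map_mul, h6, one_mul]
  have hsymb : ∀ P : Prop, IsSquare (v.valuation K (d : K)) →
      ((∃ x : K, v.valuation K (x ^ 2 - (d : K)) < v.valuation K (4 * (d : K))) ↔ P) →
      symb (d : K) v = if P then 1 else -1 := by
    intro P h5 h6
    rw [symb, if_pos h5]
    by_cases hP : P
    · rw [if_pos hP, if_pos (h6.2 hP)]
    · rw [if_neg hP, if_neg (fun h => hP (h6.1 h))]
  have hsq1 : ∀ P : Prop, (if P then (1 : ℤ) else -1) ^ 2 = 1 := by
    intro P
    split_ifs <;> norm_num
  by_cases h2v : (2 : 𝓞 K) ∈ v.asIdeal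
  · -- the places above `2`
    obtain ⟨f₀, hf₀⟩ := h4
    have hd : d = 1 + 4 * f₀ := by rw [← hf₀]; ring
    have hdK : (d : K) = 1 + 4 * (f₀ : K) := by
      rw [hd]
      simp only [map_add, map_mul, map_one, map_ofNat]
    have hdv : d ∉ v.asIdeal := by
      intro h5
      apply v.isPrime.ne_top
      rw [Ideal.eq_top_iff_one]
      have h6 : (1 : 𝓞 K) = d - 2 * (2 * f₀) := by rw [hd]; ring
      rw [h6]
      exact v.asIdeal.sub_mem h5 (v.asIdeal.mul_mem_right _ h2v)
    have hvd : v.valuation K (d : K) = 1 := by
      refine le_antisymm (PL_int K v d) (not_lt.1 fun h7 => hdv ?_)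
      exact (v.valuation_lt_one_iff_mem d).1 h7
    have hbv : v.valuation K (-(f₀ : K)) ≤ 1 := by
      rw [Valuation.map_neg]; exact PL_int K v f₀
    have hav : v.valuation K (1 : K) ≤ 1 := by rw [map_one]
    have h4K : (4 : K) ≠ 0 := by norm_num
    have heK : e = ((3 * f₀ + 12 * f₀ ^ 2 + 16 * f₀ ^ 3 : 𝓞 K) : K) := by
      have h5 : (4 : K) * e = 4 * ((3 * f₀ + 12 * f₀ ^ 2 + 16 * f₀ ^ 3 : 𝓞 K) : K) := by
        rw [hdK] at he
        simp only [map_add, map_mul, map_pow, map_ofNat]
        linear_combination he
      exact mul_left_cancel₀ h4K h5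
    set e₀ : 𝓞 K := 3 * f₀ + 12 * f₀ ^ 2 + 16 * f₀ ^ 3 with he₀
    set e' : v.adicCompletionIntegers K := algebraMap (𝓞 K) (v.adicCompletionIntegers K) e₀
      with he'
    have hunit : IsUnit (4 * e' + 1) := by
      have h5 : 4 * e' + 1 = algebraMap (𝓞 K) (v.adicCompletionIntegers K) (d ^ 3) := by
        rw [he', hd, he₀]
        simp only [map_add, map_mul, map_pow, map_one, map_ofNat]
        ring
      rw [h5]
      refine isUnit_completion' K v _ fun h6 => hdv ?_
      exact v.isPrime.mem_of_pow_mem _ h6
    have hres2 : (2 : IsLocalRing.ResidueField (v.adicCompletionIntegers K)) = 0 := by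
      have h5 : (2 : 𝓞 K) ∈ RingHom.ker ((IsLocalRing.residue (v.adicCompletionIntegers K)).comp
          (algebraMap (𝓞 K) (v.adicCompletionIntegers K))) := by
        rw [(residue_completion K v).2]; exact h2v
      rw [RingHom.mem_ker, map_ofNat] at h5
      exact h5
    have hrese : IsLocalRing.residue (v.adicCompletionIntegers K) e' =
        - IsLocalRing.residue (v.adicCompletionIntegers K) (PL_toO K v (-(f₀ : K)) hbv) := by
      have h5 : PL_toO K v (-(f₀ : K)) hbv =
          - algebraMap (𝓞 K) (v.adicCompletionIntegers K) f₀ := by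
        apply Subtype.ext
        change algebraMap K (v.adicCompletion K) (-(f₀ : K)) =
          - algebraMap K (v.adicCompletion K) (f₀ : K)
        rw [map_neg]
      rw [h5, map_neg, neg_neg, he', he₀]
      simp only [map_add, map_mul, map_pow, map_ofNat]
      linear_combination (IsLocalRing.residue (v.adicCompletionIntegers K)
        (algebraMap (𝓞 K) (v.adicCompletionIntegers K) f₀) + 6 *
        (IsLocalRing.residue (v.adicCompletionIntegers K)
        (algebraMap (𝓞 K) (v.adicCompletionIntegers K) f₀)) ^ 2 + 8 *
        (IsLocalRing.residue (v.adicCompletionIntegers K)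
        (algebraMap (𝓞 K) (v.adicCompletionIntegers K) f₀)) ^ 3) * hres2
    rw [hsymb (∃ s : K, v.valuation K (s ^ 2 + 1 * s + -(f₀ : K)) < 1)
      (by rw [hvd]; exact IsSquare.one) (by
        constructor
        · rintro ⟨x, hx⟩
          refine ⟨(x - 1) / 2, ?_⟩
          have h5 : x ^ 2 - (d : K) = 4 * (((x - 1) / 2) ^ 2 + 1 * ((x - 1) / 2) + -(f₀ : K)) := by
            rw [hdK]
            field_simp
            ring
          rw [h5, map_mul, map_mul, hvd] at hx
          have h40 : v.valuation K 4 ≠ 0 := (Valuation.ne_zero_iff _).2 h4K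
          exact (mul_lt_mul_iff_right₀ (zero_lt_iff.2 h40)).1 hx
        · rintro ⟨s, hs⟩
          refine ⟨2 * s + 1, ?_⟩
          have h5 : (2 * s + 1) ^ 2 - (d : K) = 4 * (s ^ 2 + 1 * s + -(f₀ : K)) := by
            rw [hdK]
            ring
          rw [h5, map_mul, map_mul, hvd]
          have h40 : v.valuation K 4 ≠ 0 := (Valuation.ne_zero_iff _).2 h4K
          exact (mul_lt_mul_iff_right₀ (zero_lt_iff.2 h40)).2 hs), hsq1, one_mul]
    refine poly_good K e v h3 1 e' ?_ hunit 1 (-(f₀ : K)) hav hbv ?_
    · rw [PL_baseChange, one_smul, heK]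
      rfl
    · have h5 := card_twist_two (IsLocalRing.ResidueField (v.adicCompletionIntegers K)) hres2
        (IsLocalRing.residue (v.adicCompletionIntegers K) e')
      rw [h5]
      have h6 : (∃ t : IsLocalRing.ResidueField (v.adicCompletionIntegers K), t ^ 2 + t =
          IsLocalRing.residue (v.adicCompletionIntegers K) e') ↔
        ∃ t : IsLocalRing.ResidueField (v.adicCompletionIntegers K),
        t ^ 2 + IsLocalRing.residue (v.adicCompletionIntegers K) (PL_toO K v 1 hav) * t +
          IsLocalRing.residue (v.adicCompletionIntegers K) (PL_toO K v (-(f₀ : K)) hbv) = 0 := by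
        have h7 : PL_toO K v 1 hav = 1 := by
          apply Subtype.ext
          change algebraMap K (v.adicCompletion K) 1 = 1
          rw [map_one]
        rw [h7, map_one, hrese]
        refine exists_congr fun t => ?_
        rw [one_mul, eq_neg_iff_add_eq_zero]
      by_cases h7 : ∃ t : IsLocalRing.ResidueField (v.adicCompletionIntegers K), t ^ 2 + t =
          IsLocalRing.residue (v.adicCompletionIntegers K) e'
      · rw [if_pos h7, if_pos (h6.1 h7)]
      · rw [if_neg h7, if_neg (fun h8 => h7 (h6.2 h8))]
  · have hv4 := hval4 h2v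
    have h4K : (4 : K) ≠ 0 := by norm_num
    by_cases hsq : IsSquare (v.valuation K (d : K))
    · -- good reduction
      obtain ⟨c, u, hc0, hdcu, hu⟩ : ∃ c u : K, c ≠ 0 ∧ (d : K) = c ^ 2 * u ∧
          v.valuation K u = 1 := by
        obtain ⟨x, hx⟩ := hsq
        have hx0 : x ≠ 0 := by
          rintro rfl
          rw [mul_zero] at hx
          exact hd0 ((Valuation.zero_iff _).1 hx)
        obtain ⟨c, hc0, hc1⟩ := PL_exists_val K v (WithZero.log x)
        rw [WithZero.exp_log hx0] at hc1
        refine ⟨c, (d : K) / c ^ 2, hc0, by field_simp, ?_⟩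
        rw [map_div₀, map_pow, hc1, hx, sq]
        exact div_self (mul_ne_zero hx0 hx0)
      have hu0 : u ≠ 0 := by
        rintro rfl
        rw [_root_.map_zero] at hu
        exact zero_ne_one hu
      have hev : v.valuation K ((u ^ 3 - 1) / 4) ≤ 1 := by
        rw [map_div₀, hv4, div_one]
        refine (Valuation.map_sub _ _ _).trans (max_le ?_ ?_)
        · rw [map_pow, hu, one_pow]
        · rw [map_one]
      have hbv : v.valuation K (-u) ≤ 1 := by rw [Valuation.map_neg, hu]
      have hav : v.valuation K (0 : K) ≤ 1 := by rw [_root_.map_zero]; exact zero_le_one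
      have he'u : 4 * PL_toO K v ((u ^ 3 - 1) / 4) hev + 1 = PL_toO K v u hu.le ^ 3 := by
        apply Subtype.ext
        change 4 * algebraMap K (v.adicCompletion K) ((u ^ 3 - 1) / 4) + 1 =
          (algebraMap K (v.adicCompletion K) u) ^ 3
        have h5 : (4 : K) * ((u ^ 3 - 1) / 4) + 1 = u ^ 3 := by field_simp; ring
        have h6 := congrArg (algebraMap K (v.adicCompletion K)) h5
        simpa only [map_add, map_mul, map_pow, map_one, map_ofNat] using h6
      obtain ⟨C, hC⟩ := Wt_scale (v.adicCompletion K) h2Kv
        (algebraMap K (v.adicCompletion K) c) (algebraMap K (v.adicCompletion K) (d : K))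
        (algebraMap K (v.adicCompletion K) u) (algebraMap K (v.adicCompletion K) e)
        (algebraMap K (v.adicCompletion K) ((u ^ 3 - 1) / 4))
        (by rw [Ne.eq_def, map_eq_zero]; exact hc0)
        (by
          have h6 := congrArg (algebraMap K (v.adicCompletion K)) he
          simpa only [map_add, map_mul, map_pow, map_one, map_ofNat] using h6)
        (by
          have h5 : (4 : K) * ((u ^ 3 - 1) / 4) + 1 = u ^ 3 := by field_simp; ring
          have h6 := congrArg (algebraMap K (v.adicCompletion K)) h5
          simpa only [map_add, map_mul, map_pow, map_one, map_ofNat] using h6)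
        (by rw [hdcu, map_mul, map_pow])
      have hc2 : v.valuation K (c ^ 2) ≠ 0 := (Valuation.ne_zero_iff _).2 (pow_ne_zero 2 hc0)
      rw [hsymb (∃ s : K, v.valuation K (s ^ 2 + 0 * s + -u) < 1) hsq (by
        constructor
        · rintro ⟨x, hx⟩
          refine ⟨x / c, ?_⟩
          have h5 : x ^ 2 - (d : K) = c ^ 2 * ((x / c) ^ 2 + 0 * (x / c) + -u) := by
            rw [hdcu]
            field_simp
            ring
          have h6 : (4 : K) * (d : K) = c ^ 2 * (4 * u) := by rw [hdcu]; ring
          rw [h5, h6, map_mul, map_mul (v.valuation K) (c ^ 2) (4 * u), map_mul, hv4, hu,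
            one_mul] at hx
          exact (mul_lt_mul_iff_right₀ (zero_lt_iff.2 hc2)).1 hx
        · rintro ⟨s, hs⟩
          refine ⟨c * s, ?_⟩
          have h5 : (c * s) ^ 2 - (d : K) = c ^ 2 * (s ^ 2 + 0 * s + -u) := by
            rw [hdcu]
            ring
          have h6 : (4 : K) * (d : K) = c ^ 2 * (4 * u) := by rw [hdcu]; ring
          rw [h5, h6, map_mul, map_mul (v.valuation K) (c ^ 2) (4 * u), map_mul, hv4, hu,
            one_mul]
          exact (mul_lt_mul_iff_right₀ (zero_lt_iff.2 hc2)).2 hs), hsq1, one_mul]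
      refine poly_good K e v h3 C
        (PL_toO K v ((u ^ 3 - 1) / 4) hev) ?_ ?_ 0 (-u) hav hbv ?_
      · rw [PL_baseChange, hC]
        rfl
      · rw [he'u]
        exact (PL_isUnit K v u hu).pow 3
      · have hu' : IsLocalRing.residue (v.adicCompletionIntegers K) (PL_toO K v u hu.le) ≠ 0 := by
          rw [Ne.eq_def, PL_res_eq_zero, hu]
          exact lt_irrefl _
        have h2k : (2 : IsLocalRing.ResidueField (v.adicCompletionIntegers K)) ≠ 0 := by
          intro h5
          apply h2v
          rw [← (residue_completion K v).2, RingHom.mem_ker, map_ofNat]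
          exact h5
        have h3k : (3 : IsLocalRing.ResidueField (v.adicCompletionIntegers K)) ≠ 0 := by
          intro h5
          apply h3
          rw [← (residue_completion K v).2, RingHom.mem_ker, map_ofNat]
          exact h5
        have hek : 4 * IsLocalRing.residue (v.adicCompletionIntegers K)
            (PL_toO K v ((u ^ 3 - 1) / 4) hev) + 1 =
            (IsLocalRing.residue (v.adicCompletionIntegers K) (PL_toO K v u hu.le)) ^ 3 := by
          have h5 := congrArg (IsLocalRing.residue (v.adicCompletionIntegers K)) he'u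
          simpa only [map_add, map_mul, map_pow, map_one, map_ofNat] using h5
        have h5 := card_twist (IsLocalRing.ResidueField (v.adicCompletionIntegers K)) h2k h3k
          _ _ hu' hek
        rw [h5]
        have h6 : IsSquare (IsLocalRing.residue (v.adicCompletionIntegers K)
            (PL_toO K v u hu.le)) ↔
          ∃ t : IsLocalRing.ResidueField (v.adicCompletionIntegers K),
          t ^ 2 + IsLocalRing.residue (v.adicCompletionIntegers K) (PL_toO K v 0 hav) * t +
            IsLocalRing.residue (v.adicCompletionIntegers K) (PL_toO K v (-u) hbv) = 0 := by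
          have h7 : PL_toO K v 0 hav = 0 := by
            apply Subtype.ext
            change algebraMap K (v.adicCompletion K) 0 = 0
            rw [_root_.map_zero]
          have h8 : PL_toO K v (-u) hbv = - PL_toO K v u hu.le := by
            apply Subtype.ext
            change algebraMap K (v.adicCompletion K) (-u) = - algebraMap K (v.adicCompletion K) u
            rw [map_neg]
          rw [h7, h8, _root_.map_zero, map_neg]
          constructor
          · rintro ⟨t, ht⟩
            exact ⟨t, by rw [ht]; ring⟩
          · rintro ⟨t, ht⟩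
            exact ⟨t, by linear_combination -ht⟩
        by_cases h7 : IsSquare (IsLocalRing.residue (v.adicCompletionIntegers K)
            (PL_toO K v u hu.le))
        · rw [if_pos h7, if_pos (h6.1 h7)]
        · rw [if_neg h7, if_neg (fun h8 => h7 (h6.2 h8))]
    · -- bad reduction
      obtain ⟨c, u, hc0, hdcu, hu⟩ : ∃ c u : K, c ≠ 0 ∧ (d : K) = c ^ 2 * u ∧
          v.valuation K u = WithZero.exp (-1 : ℤ) := by
        obtain ⟨n, hn⟩ := PL_exists_log K v hd0
        have hodd : ¬ Even n := by
          rintro ⟨m, rfl⟩
          apply hsq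
          rw [hn, WithZero.exp_add]
          exact ⟨_, rfl⟩
        rw [Int.not_even_iff_odd] at hodd
        obtain ⟨m, rfl⟩ := hodd
        obtain ⟨c, hc0, hc1⟩ := PL_exists_val K v (m + 1)
        refine ⟨c, (d : K) / c ^ 2, hc0, by field_simp, ?_⟩
        rw [map_div₀, map_pow, hc1, hn, ← WithZero.exp_nsmul, ← WithZero.exp_sub]
        congr 1
        simp only [smul_eq_mul, Nat.cast_ofNat, nsmul_eq_mul]
        ring
      have hu1 : v.valuation K u ≤ 1 := by
        rw [hu, ← WithZero.exp_zero, WithZero.exp_le_exp]
        norm_num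
      have hev : v.valuation K ((u ^ 3 - 1) / 4) ≤ 1 := by
        rw [map_div₀, hv4, div_one]
        refine (Valuation.map_sub _ _ _).trans (max_le ?_ ?_)
        · rw [map_pow]; exact pow_le_one' hu1 3
        · rw [map_one]
      have he'u : 4 * PL_toO K v ((u ^ 3 - 1) / 4) hev + 1 = PL_toO K v u hu1 ^ 3 := by
        apply Subtype.ext
        change 4 * algebraMap K (v.adicCompletion K) ((u ^ 3 - 1) / 4) + 1 =
          (algebraMap K (v.adicCompletion K) u) ^ 3
        have h5 : (4 : K) * ((u ^ 3 - 1) / 4) + 1 = u ^ 3 := by field_simp; ring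
        have h6 := congrArg (algebraMap K (v.adicCompletion K)) h5
        simpa only [map_add, map_mul, map_pow, map_one, map_ofNat] using h6
      obtain ⟨C, hC⟩ := Wt_scale (v.adicCompletion K) h2Kv
        (algebraMap K (v.adicCompletion K) c) (algebraMap K (v.adicCompletion K) (d : K))
        (algebraMap K (v.adicCompletion K) u) (algebraMap K (v.adicCompletion K) e)
        (algebraMap K (v.adicCompletion K) ((u ^ 3 - 1) / 4))
        (by rw [Ne.eq_def, map_eq_zero]; exact hc0)
        (by
          have h6 := congrArg (algebraMap K (v.adicCompletion K)) he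
          simpa only [map_add, map_mul, map_pow, map_one, map_ofNat] using h6)
        (by
          have h5 : (4 : K) * ((u ^ 3 - 1) / 4) + 1 = u ^ 3 := by field_simp; ring
          have h6 := congrArg (algebraMap K (v.adicCompletion K)) h5
          simpa only [map_add, map_mul, map_pow, map_one, map_ofNat] using h6)
        (by rw [hdcu, map_mul, map_pow])
      have h27 : IsUnit (27 : v.adicCompletionIntegers K) := by
        have h5 : (27 : v.adicCompletionIntegers K) = 3 ^ 3 := by norm_num
        rw [h5]
        exact h3A.pow 3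
      have hirr : Irreducible (PL_toO K v u hu1) := by
        apply PL_irreducible
        rw [PL_coe_toO, PL_val, hu]
      have h10 := localPoly_twist_bad' (v.adicCompletionIntegers K) (v.adicCompletion K)
        (PL_toO K v ((u ^ 3 - 1) / 4) hev) (PL_toO K v u hu1) 27 hirr h27 (by rw [he'u]; ring) C
      have h11 : symb (d : K) v = 0 := by rw [symb, if_neg hsq]
      rw [PL_baseChange, hC, h11]
      simp only [zero_mul, ne_eq, OfNat.ofNat_ne_zero, not_false_eq_true, zero_pow,
        _root_.map_zero, sub_zero, add_zero]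
      exact h10

end NAB
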