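import Pool.Agent.MP_9ab903_nt.NAB.EU3
import Pool.Agent.MP_9ab903_nt.NAB.EU4
import Pool.Agent.MP_9ab903_nt.NAB.EU5
import Pool.Agent.MP_9ab903_nt.CF3.W2

set_option autoImplicit false

open NumberField IsDedekindDomain UniqueFactorizationMonoid ArithmeticFunction
open CM27 CMT CF
open scoped ComplexConjugate Classical

namespace NAB

/-! ## [NAB-EU6] `L(E_d/F, s) = L(λ, s) L(conj λ, s)` (file NAB/EU6.lean) -/

/-- the number of points of `E` over an extension of the residue field of a primary prime -/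
theorem card_E_prime (b : Eis) (hb : Primary b) (hbp : Prime b) (f : ℕ) (hf : 0 < f)
    (k : Type) [Field k] [Finite k] (hk : Nat.card k = b.norm.natAbs ^ f) :
    (Nat.card (E k).toAffine.Point : ℂ) = (b.norm.natAbs : ℂ) ^ f + 1 -
      (emb b ^ f + conj (emb b) ^ f) := by
  haveI := eis_isDomain
  haveI := eis_pid
  -- the prime number divisible by `b`
  obtain ⟨p, hp, hbp'⟩ : ∃ p : ℕ, p.Prime ∧ b ∣ (p : Eis) := by
    have h1 : b ∣ ((b.norm.natAbs : ℕ) : Eis) := by
      have h2 : ((b.norm.natAbs : ℕ) : Eis) = ((b.norm : ℤ) : Eis) := by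
        have h3 : ((b.norm.natAbs : ℕ) : ℤ) = b.norm := Int.natAbs_of_nonneg (norm_nonneg' b)
        rw [← h3]
        push_cast
        rw [← h3]
        simp
      rw [h2, ← a3_mul_star]
      exact dvd_mul_right _ _
    have h0 : b.norm.natAbs ≠ 0 := by
      rw [Int.natAbs_ne_zero]
      exact (a1_norm_pos hbp.ne_zero).ne'
    have key : ∀ n : ℕ, n ≠ 0 → b ∣ (n : Eis) → ∃ p : ℕ, p.Prime ∧ b ∣ (p : Eis) := by
      intro n
      induction n using Nat.recOnMul with
      | zero => intro h; exact absurd rfl h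
      | one =>
        intro _ h
        rw [Nat.cast_one] at h
        exact absurd (isUnit_of_dvd_one h) hbp.not_unit
      | prime p hp => intro _ h; exact ⟨p, hp, h⟩
      | mul m n hm hn =>
        intro h0 h
        rw [Nat.cast_mul] at h
        rcases hbp.dvd_or_dvd h with h | h
        · exact hm (left_ne_zero_of_mul h0) h
        · exact hn (right_ne_zero_of_mul h0) h
    exact key _ h0 h1
  have h3 : p ≠ 3 := by
    rintro rfl
    exact not_dvd_three hb hbp (by exact_mod_cast hbp')
  have hmod : p % 3 = 0 ∨ p % 3 = 1 ∨ p % 3 = 2 := by omega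
  rcases hmod with hmod | hmod | hmod
  · exact absurd ((Nat.prime_dvd_prime_iff_eq Nat.prime_three hp).1
      (Nat.dvd_of_mod_eq_zero hmod)).symm h3
  · obtain ⟨a, ha, hn⟩ := exists_primary_prime p hp hmod
    have hns : (star a).norm = p := by rw [QuadraticAlgebra.norm_star]; exact hn
    have hpa := a3_prime_of_norm p hp a hn
    have hps := a3_prime_of_norm p hp _ hns
    have hnb : b.norm = p := by
      have h4 : b ∣ a * star a := by
        rw [a3_mul_star, hn]
        exact_mod_cast hbp'
      rcases hbp.dvd_or_dvd h4 with h5 | h5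
      · rw [primary_eq_of_dvd hb hbp ha hpa h5, hn]
      · rw [primary_eq_of_dvd hb hbp ha.star hps h5, hns]
    have hnb' : b.norm.natAbs = p := by rw [hnb]; rfl
    rw [hnb'] at hk ⊢
    exact pts_split p hp hmod b hb hnb f hf k hk
  · have hprim := primary_neg_cast hmod
    have hprime := (a3_prime_inert p hp hmod).neg
    have hb' : b = -(p : Eis) := by
      refine primary_eq_of_dvd hb hbp hprim hprime ?_
      rw [dvd_neg]
      exact hbp'
    have hnorm : (-(p : Eis)).norm.natAbs = p ^ 2 := by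
      have h1 : (-(p : Eis)).norm = (p : ℤ) ^ 2 := by
        rw [norm_eq]
        simp
      rw [h1, Int.natAbs_pow, Int.natAbs_natCast]
    subst hb'
    rw [hnorm] at hk ⊢
    obtain ⟨α, β, hαβ, hpsi, hpts⟩ := local_data p hp h3
    have h2 := hpsi 1
    rw [Finset.sum_range_succ, Finset.sum_range_succ, Finset.sum_range_zero] at h2
    simp only [pow_zero, pow_one, zero_add, one_mul, mul_one, Nat.sub_self, Nat.sub_zero] at h2
    have h4 := psi_inert p hp hmod 1
    rw [pow_one] at h4
    norm_num at h4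
    have h5 : β = -α := by linear_combination h4 - h2
    have h6 : α ^ 2 = -(p : ℂ) := by
      rw [h5] at hαβ
      linear_combination -hαβ
    have h7 : β ^ 2 = -(p : ℂ) := by rw [h5, neg_sq, h6]
    rw [hpts (2 * f) k (by omega) (by rw [hk, pow_mul]), pow_mul, pow_mul, pow_mul, h6, h7,
      map_neg, map_natCast, map_neg, Complex.conj_natCast]
    push_cast
    ring

section
variable (F : IntermediateField ℚ ℂ) [NumberField F] (hw : w ∈ F)

theorem lam_zero (d : F) : lam F d 0 = 0 := by
  rw [lam, chi, cm_zero, Int.cast_zero, zero_mul]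

theorem lam_one (d : F) : lam F d 1 = 1 := by
  rw [lam, chi, psi, cm_one, cm_one, Int.cast_one, map_one, mul_one]

theorem lam_mul (d : F) (I J : Ideal (𝓞 F)) : lam F d (I * J) = lam F d I * lam F d J := by
  rw [lam, lam, lam, chi, chi, chi, psi, psi, psi, cm_mul, cm_mul, Int.cast_mul, map_mul]
  ring

theorem lam_prime (d : F) (v : HeightOneSpectrum (𝓞 F)) :
    lam F d v.asIdeal = symb d v * emb (psiv F v) := by
  rw [lam, chi, psi, cm_prime, cm_prime]

theorem symb_real (d : F) (v : HeightOneSpectrum (𝓞 F)) : conj ((symb d v : ℤ) : ℂ) = symb d v :=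
  map_intCast _ _

include hw

/-- `L(E_d/F, s) = L(λ, s) L(conj λ, s)` -/
theorem LCW_lam (h3 : ∀ v : HeightOneSpectrum (𝓞 F), (3 : 𝓞 F) ∈ v.asIdeal →
      ∃ (k : ℕ) (ϖ u : v.adicCompletionIntegers F), ¬ 3 ∣ k ∧ Irreducible ϖ ∧ IsUnit u ∧
      (3 : v.adicCompletionIntegers F) = u * ϖ ^ k)
    (d : 𝓞 F) (hd : d ≠ 0) (h4 : (4 : 𝓞 F) ∣ d - 1) (e : F) (he : 4 * e + 1 = (d : F) ^ 3) :
    LCW F (Wt e) = IL F (lam F d) * IL F (fun I => conj (lam F d I)) := by
  have hd0 : (d : F) ≠ 0 := RingOfIntegers.coe_ne_zero_iff.2 hd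
  refine LCW_eq_IL F (Wt e) (lam F d) (fun I => conj (lam F d I)) (lam_one F _)
    (by rw [lam_one, map_one]) (lam_mul F _) (fun I J => by rw [lam_mul, map_mul]) ?_
  intro v
  by_cases hv : (3 : 𝓞 F) ∈ v.asIdeal
  · obtain ⟨k, ϖ, u, hk, hϖ, hu, h⟩ := h3 v hv
    refine ⟨0, 0, ?_, ?_, ?_⟩
    · have hchar : CharZero (v.adicCompletion F) :=
        charZero_of_injective_algebraMap (algebraMap F (v.adicCompletion F)).injective
      have h5 := localPoly_three_tw (v.adicCompletionIntegers F) (v.adicCompletion F) k hk ϖ u hϖ hu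
        h (algebraMap F (v.adicCompletion F) (d : F)) (algebraMap F (v.adicCompletion F) e)
        (by rw [Ne, map_eq_zero]; exact hd0) (by
          have h6 := congrArg (algebraMap F (v.adicCompletion F)) he
          simpa only [map_add, map_mul, map_pow, map_one, map_ofNat] using h6)
      rw [PL_baseChange, h5]
      simp
    · rw [lam_prime, psiv_three F hw v hv]
      simp
    · rw [lam_prime, psiv_three F hw v hv]
      simp
  · obtain ⟨hc, hfin⟩ := card_residue F v
    obtain ⟨b, f, hb, hbp, hvb, hf, hcard, hpsi⟩ := psiv_spec F hw v hv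
    refine ⟨_, _, local_poly F d h4 hd e he v hv, ?_, ?_⟩
    · have h5 := card_E_prime b hb hbp f hf (IsLocalRing.ResidueField (v.adicCompletionIntegers F))
        (by rw [hc, hcard])
      push_cast
      rw [h5, lam_prime, map_mul, symb_real, hpsi, hc, hcard, map_pow, map_pow]
      push_cast
      ring
    · rw [lam_prime, map_mul, symb_real, hpsi, hc, hcard, map_pow, map_pow]
      have h6 : emb b * conj (emb b) = ((b.norm.natAbs : ℕ) : ℂ) := by
        rw [Complex.mul_conj, normSq_emb, Nat.cast_natAbs, abs_of_nonneg (norm_nonneg' _)]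
        push_cast
        rfl
      have h7 : (((symb (d : F) v ^ 2 * ((b.norm.natAbs ^ f : ℕ) : ℤ)) : ℤ) : ℂ) =
          (symb (d : F) v : ℂ) ^ 2 * ((b.norm.natAbs : ℕ) : ℂ) ^ f := by
        rw [Int.cast_mul, Int.cast_pow, Int.cast_natCast, Nat.cast_pow]
      rw [h7, ← h6, mul_pow]
      ring

end

end NAB
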