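import Pool.Agent.MP_9ab903_nt.NAB.LL
import Pool.Agent.MP_9ab903_nt.NAB.Fin

set_option autoImplicit false

open NumberField IsDedekindDomain
open CM27 CMT CF
open scoped ComplexConjugate Classical

namespace NAB

/-! ## [NAB-FinL] `E` over `L = F(√d)` (file NAB/FinL.lean) -/

section
variable (S : Finset Eis) (hS : ∀ b ∈ S, GoodEis b) (F : IntermediateField ℚ ℂ) [NumberField F]
  (hw : w ∈ F) (hF : F ≤ LS S) (h : Module.finrank ℚ F = 2 ^ (1 + 1))
  (d : 𝓞 F) (hd : d ≠ 0) (h4 : (4 : 𝓞 F) ∣ d - 1)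
  (hgood : ∀ v : HeightOneSpectrum (𝓞 F), d ∈ v.asIdeal → (3 : 𝓞 F) ∈ v.asIdeal ∨
      ∃ p : ℕ, GoodPrime p ∧ (p : 𝓞 F) ∈ v.asIdeal) (hA : AData F d)
  (L : IntermediateField ℚ ℂ) [NumberField L] (hFL : F ≤ L)
  (hL : Module.finrank ℚ L = 2 ^ (1 + 1 + 1)) (δ : ℂ) (hδ : δ ^ 2 = ((d : F) : ℂ)) (hδF : δ ∉ F)
  (hδL : δ ∈ L)

include hL in
/-- the period of `L` -/
theorem period_L (hwL : w ∈ L) : (CM27.period L : ℝ) = 9 * Om ^ 8 := by
  have hreal : InfinitePlace.nrRealPlaces L = 0 := by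
    rw [InfinitePlace.nrRealPlaces, Fintype.card_eq_zero_iff]
    refine ⟨fun ⟨v, hv⟩ => ?_⟩
    have hom : (⟨w, hwL⟩ : L) ^ 2 + ⟨w, hwL⟩ + 1 = 0 := by
      ext
      change w ^ 2 + w + 1 = 0
      linear_combination w_sq
    have h1 : (InfinitePlace.embedding_of_isReal hv) ⟨w, hwL⟩ ^ 2 +
        (InfinitePlace.embedding_of_isReal hv) ⟨w, hwL⟩ + 1 = 0 := by
      rw [← map_pow, ← map_add, ← map_one (InfinitePlace.embedding_of_isReal hv), ← map_add, hom,
        _root_.map_zero]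
    nlinarith [sq_nonneg (2 * (InfinitePlace.embedding_of_isReal hv) ⟨w, hwL⟩ + 1)]
  have hrank := InfinitePlace.card_add_two_mul_card_eq_rank L
  have hp : period L = OmR ^ InfinitePlace.nrRealPlaces L * OmCC ^ InfinitePlace.nrComplexPlaces L := by
    rw [period, Finset.prod_ite, Finset.prod_const, Finset.prod_const]
    congr 2
    · rw [InfinitePlace.nrRealPlaces, Fintype.card_subtype]
    · rw [InfinitePlace.nrComplexPlaces, Fintype.card_subtype]
      congr 1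
      ext v
      simp [InfinitePlace.not_isReal_iff_isComplex]
  rw [hreal, hL, zero_add] at hrank
  have hc : InfinitePlace.nrComplexPlaces L = 4 := by omega
  rw [hp, hreal, hc, pow_zero, one_mul, OmCC_eq, mul_pow, ← pow_mul]
  have h5 : √3 ^ 4 = (9 : ℝ) := by
    have h6 : √3 ^ 2 = (3 : ℝ) := Real.sq_sqrt (by norm_num)
    calc √3 ^ 4 = (√3 ^ 2) ^ 2 := by ring
      _ = 9 := by rw [h6]; norm_num
  rw [h5]

include hS hw hF h h4 hFL hL hδ hδF hδL

include hgood in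
theorem LC_L (e : F) (he : 4 * e + 1 = (d : F) ^ 3) : LC L = LC F * LCW F (Wt e) := by
  letI : Algebra F L := (IntermediateField.inclusion hFL).toRingHom.toAlgebra
  have hd0 : (d : F) ≠ 0 := by
    intro h0
    apply hδF
    rw [h0] at hδ
    have : δ = 0 := by
      have h1 : δ ^ 2 = 0 := by rw [hδ]; rfl
      exact (pow_eq_zero_iff two_ne_zero).1 h1
    rw [this]
    exact zero_mem _
  refine artin_quad F L (finrank_FF F 1 h L hFL hL) d h4 ⟨δ, hδL⟩ ?_ ?_ e he ?_ ?_ ?_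
  · ext
    exact hδ
  · rintro ⟨x, hx⟩
    apply hδF
    have h1 : ((algebraMap F L x : L) : ℂ) = δ := by rw [hx]
    rw [← h1]
    exact x.2
  · intro v hv
    exact fv_three' S hS F hw hF 1 h v hv
  · intro v hv
    obtain ⟨k, ϖ, u, hk, hϖ, hu, h3⟩ := three_ram S hS F hw hF 1 h v hv
    have : CharZero (v.adicCompletion F) :=
      charZero_of_injective_algebraMap (algebraMap F (v.adicCompletion F)).injective
    apply fW_one F (Wt e) v
    rw [baseChange_Wt']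
    refine localPoly_three_tw _ _ k hk ϖ u hϖ hu h3 (algebraMap F (v.adicCompletion F) (d : F)) _
      ?_ ?_
    · exact (map_ne_zero_iff _ (algebraMap F (v.adicCompletion F)).injective).2 hd0
    · have h9 := congrArg (algebraMap F (v.adicCompletion F)) he
      rw [map_add, map_mul, map_pow, map_one, map_ofNat] at h9
      exact h9
  · intro v hv
    obtain ⟨k, ϖ, u, hk, hϖ, hu, h3⟩ := three_L S hS F hw hF 1 h d h4 hgood L hFL hL δ hδ hδF hδL v hv
    have : CharZero (v.adicCompletion L) :=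
      charZero_of_injective_algebraMap (algebraMap L (v.adicCompletion L)).injective
    apply fW_one L (E L) v
    rw [baseChange_E']
    exact localPoly_three' _ _ k hk ϖ u hϖ hu h3

include hgood hd hA in
theorem analytic_L : ∃ Λ : ℂ → ℂ, Differentiable ℂ Λ ∧
    (∀ s : ℂ, 3 / 2 < s.re → LSeriesSummable (fun k => ((E L).LFunction k : ℂ)) s ∧
      Λ s = (E L).LSeries s) ∧ Λ 1 ≠ 0 ∧
    ∃ q : ℚ, 0 < q ∧ padicValRat 2 q = 0 ∧
      Λ 1 * ((√|(discr L : ℝ)| : ℝ) : ℂ) = q * ((period L : ℝ) : ℂ) := by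
  -- the twist
  obtain ⟨e, he⟩ : ∃ e : F, 4 * e + 1 = (d : F) ^ 3 := ⟨((d : F) ^ 3 - 1) / 4, by ring⟩
  obtain ⟨L₁, d1, s1, n1, q₁, hq₁, v₁, e₁⟩ := analytic_Fq S hS F hw hF 1 h
  obtain ⟨L₂, d2, s2, n2, q₂, hq₂, v₂, e₂⟩ := analytic_d S hS F hw hF h d hd h4 hA e he
  have hLC := LC_L S hS F hw hF h d h4 hgood L hFL hL δ hδ hδF hδL e he
  -- the discriminants
  obtain ⟨r, hr, hr'⟩ : ∃ r : ℚ, 0 < r ∧ |(discr L : ℚ)| * r ^ 2 =
      (discr F : ℚ) ^ 2 * |Algebra.norm ℚ (d : F)| := by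
    letI : Algebra F L := (IntermediateField.inclusion hFL).toRingHom.toAlgebra
    refine discr_quad F L (finrank_FF F 1 h L hFL hL) (d : F) ⟨δ, hδL⟩ ?_ ?_
    · ext
      exact hδ
    · rintro ⟨x, hx⟩
      apply hδF
      have h1 : ((algebraMap F L x : L) : ℂ) = δ := by rw [hx]
      rw [← h1]
      exact x.2
  set N : ℕ := (Algebra.norm ℤ d).natAbs with hN
  have hNodd : Odd N := norm_odd F d h4 hd
  have hNabs : |(Algebra.norm ℚ (d : F) : ℚ)| = (N : ℚ) := by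
    have h5 : (Algebra.norm ℚ (d : F) : ℚ) = ((Algebra.norm ℤ d : ℤ) : ℚ) :=
      (Algebra.coe_norm_int d).symm
    rw [h5, hN, Nat.cast_natAbs, Int.cast_abs]
  have hodd₁ : Odd (discr F).natAbs := odd_discr S hS F hw hF
  have hodd₂ : Odd (discr L).natAbs :=
    odd_discr_L S hS F hw hF 1 h d h4 hgood L hFL hL δ hδ hδF hδL
  have hNQ : (N : ℚ) ≠ 0 := by exact_mod_cast hNodd.pos.ne'
  have hD₁ : ((discr F).natAbs : ℚ) ≠ 0 := by exact_mod_cast hodd₁.pos.ne'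
  have hD₂ : ((discr L).natAbs : ℚ) ≠ 0 := by exact_mod_cast hodd₂.pos.ne'
  have hr'' : ((discr L).natAbs : ℚ) * r ^ 2 = ((discr F).natAbs : ℚ) ^ 2 * N := by
    have h8 : (((discr F).natAbs : ℕ) : ℚ) ^ 2 = (discr F : ℚ) ^ 2 := by
      rw [Nat.cast_natAbs, Int.cast_abs, sq_abs]
    have h9 : (((discr L).natAbs : ℕ) : ℚ) = |(discr L : ℚ)| := by
      rw [Nat.cast_natAbs, Int.cast_abs]
    rw [h8, h9, hr', hNabs]
  have vr : padicValRat 2 r = 0 := by
    haveI : Fact (Nat.Prime 2) := ⟨Nat.prime_two⟩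
    have h6 := congrArg (padicValRat 2) hr''
    rw [padicValRat.mul hD₂ (pow_ne_zero 2 hr.ne'), padicValRat.mul (pow_ne_zero 2 hD₁) hNQ,
      padicValRat.pow, padicValRat.pow, padic_unit_odd hNodd, padic_unit_odd hodd₁,
      padic_unit_odd hodd₂] at h6
    push_cast at h6
    omega
  have hrC : (r : ℂ) ≠ 0 := by exact_mod_cast hr.ne'
  -- square roots: `√|disc L| r = √|disc F|² √N`
  set A₁ : ℝ := √|(discr F : ℝ)| with hA₁
  set A₂ : ℝ := √|(discr L : ℝ)| with hA₂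
  set B : ℝ := √(N : ℝ) with hB
  have hA₁pos : 0 < A₁ := by
    rw [hA₁, Real.sqrt_pos, abs_pos]
    exact_mod_cast NumberField.discr_ne_zero F
  have hA₂pos : 0 < A₂ := by
    rw [hA₂, Real.sqrt_pos, abs_pos]
    exact_mod_cast NumberField.discr_ne_zero L
  have hBpos : 0 < B := by
    rw [hB, Real.sqrt_pos]
    exact_mod_cast hNodd.pos
  have hsq : A₂ * r = A₁ ^ 2 * B := by
    have h6 : (A₂ * r) ^ 2 = (A₁ ^ 2 * B) ^ 2 := by
      rw [mul_pow, mul_pow, hA₂, Real.sq_sqrt (abs_nonneg _), hA₁, Real.sq_sqrt (abs_nonneg _), hB,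
        Real.sq_sqrt (by positivity)]
      have h7 : ((((discr L).natAbs : ℚ) * r ^ 2 : ℚ) : ℝ) =
          ((((discr F).natAbs : ℚ) ^ 2 * N : ℚ) : ℝ) := by rw [hr'']
      push_cast at h7
      rw [Nat.cast_natAbs, Nat.cast_natAbs, Int.cast_abs, Int.cast_abs] at h7
      exact h7
    have hrR : (0 : ℝ) < r := by exact_mod_cast hr
    exact (pow_left_inj₀ (by positivity) (by positivity) two_ne_zero).1 h6
  have hsqC : (A₂ : ℂ) * r = (A₁ : ℂ) ^ 2 * B := by
    exact_mod_cast congrArg (fun t : ℝ => (t : ℂ)) hsq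
  have hBC : (B : ℂ) ≠ 0 := by exact_mod_cast hBpos.ne'
  refine ⟨fun s => L₁ s * L₂ s, d1.mul d2, ?_, mul_ne_zero n1 n2, q₁ * q₂ * r⁻¹, by positivity,
    ?_, ?_⟩
  · intro s hs
    have t1 : (E L).LSeries s = LSeries (fun k => LC L k) s := rfl
    have t2 : (fun k => ((E L).LFunction k : ℂ)) = fun k => LC L k := rfl
    rw [t1, t2, hLC]
    have u1 : LSeriesSummable (fun k => LC F k) s := (s1 s hs).1
    have u2 : LSeriesSummable (fun k => LCW F (Wt e) k) s := (s2 s hs).1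
    refine ⟨ArithmeticFunction.LSeriesSummable_mul u1 u2, ?_⟩
    rw [ArithmeticFunction.LSeries_mul' u1 u2]
    change L₁ s * L₂ s = _
    rw [(s1 s hs).2, (s2 s hs).2]
    rfl
  · have vr' : padicValRat 2 (r⁻¹) = 0 := by rw [padicValRat.inv, vr]; simp
    exact padic_unit_mul (mul_ne_zero hq₁.ne' hq₂.ne') (inv_ne_zero hr.ne')
      (padic_unit_mul hq₁.ne' hq₂.ne' v₁ v₂) vr'
  · change L₁ 1 * L₂ 1 * (A₂ : ℂ) = _
    have hpF := period_F S hS F hw hF 1 h
    have hpL := period_L L hL (hFL hw)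
    have h5 : √3 ^ 2 ^ 1 = (3 : ℝ) := by
      rw [pow_one]
      exact Real.sq_sqrt (by norm_num)
    rw [h5] at hpF
    rw [hpF] at e₁ e₂
    rw [hpL]
    have h7 : (A₂ : ℂ) = (A₁ : ℂ) ^ 2 * B * (r : ℂ)⁻¹ := by
      rw [← hsqC]
      field_simp
    rw [h7]
    push_cast at e₁ e₂ ⊢
    have h8 : L₂ 1 * (A₁ : ℂ) * B = q₂ * (3 * (Om : ℂ) ^ 4) := by
      rw [e₂]
      field_simp
    calc L₁ 1 * L₂ 1 * ((A₁ : ℂ) ^ 2 * B * (r : ℂ)⁻¹)
        = (L₁ 1 * (A₁ : ℂ)) * (L₂ 1 * (A₁ : ℂ) * B) * (r : ℂ)⁻¹ := by ring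
      _ = (q₁ * (3 * (Om : ℂ) ^ 4)) * (q₂ * (3 * (Om : ℂ) ^ 4)) *
          (r : ℂ)⁻¹ := by rw [e₁, h8]
      _ = _ := by ring

include hgood hd hA in
/-- **The 2-part of the formula for `E` over `F(√d)`.** -/
theorem strong_L : SBSD.TwoPartFormula (E L) := by
  obtain ⟨hfin, hodd, hsha⟩ := points_L S hS F hw hF 1 h d h4 hgood L hFL hL δ hδ hδF hδL
  obtain ⟨Λ, hL1, hL2, hL3, q, hq1, hq2, hq3⟩ :=
    analytic_L S hS F hw hF h d hd h4 hgood hA L hFL hL δ hδ hδF hδL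
  have hell : (E L).IsElliptic := by
    rw [WeierstrassCurve.isElliptic_iff]
    have : (E L).Δ = -27 := by
      simp only [E, WeierstrassCurve.Δ, WeierstrassCurve.b₂, WeierstrassCurve.b₄,
        WeierstrassCurve.b₆, WeierstrassCurve.b₈]
      norm_num
    rw [this]
    norm_num
  have h1 : analyticOrderAt Λ 1 = 0 := by
    have han : AnalyticAt ℂ Λ 1 := hL1.analyticAt 1
    exact han.analyticOrderAt_eq_zero.2 hL3
  have h3 := fun v hv => three_L S hS F hw hF 1 h d h4 hgood L hFL hL δ hδ hδF hδL v hv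
  have htam := tam_odd L h3 ⟨⟨w, hFL hw⟩, by
    ext
    change w ^ 2 + w + 1 = 0
    linear_combination w_sq⟩
  obtain ⟨q3, hq3pos, hq3v, hner⟩ := neron_unit L h3
  set T : ℕ := ∏ᶠ v : HeightOneSpectrum (𝓞 L), SBSD.tam (E L) v with hT
  have hN : (Nat.card (E L).toAffine.Point : ℚ) ≠ 0 := by exact_mod_cast hodd.pos.ne'
  have hT0 : (T : ℚ) ≠ 0 := by exact_mod_cast htam.pos.ne'
  have hper : SBSD.period (E L) = CM27.period L * q3 := by
    rw [SBSD.period, hner, CM27.period]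
    congr 1
    refine Finset.prod_congr rfl fun v _ => ?_
    rw [SBSD.archPeriod_eq]
    rfl
  have hqC : (q : ℂ) ≠ 0 := by exact_mod_cast hq1.ne'
  have hcard : (0 : ℚ) < (Nat.card (E L).toAffine.Point : ℚ) := by exact_mod_cast hodd.pos
  have hTpos : (0 : ℚ) < (T : ℚ) := by exact_mod_cast htam.pos
  refine ⟨hell, hfin, Λ, ⟨hL1, hL2⟩, CF.order_eq (E L) h1, hL3, fun x k => hsha k x,
    q * (Nat.card (E L).toAffine.Point : ℚ) ^ 2 * (q3 * T)⁻¹, ?_, ?_, ?_⟩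
  · positivity
  · have h4 : padicValRat 2 ((Nat.card (E L).toAffine.Point : ℚ) ^ 2) = 0 := by
      rw [padicValRat.pow, padic_unit_odd hodd]
      simp
    have h5 : padicValRat 2 ((q3 * T)⁻¹) = 0 := by
      rw [padicValRat.inv, padic_unit_mul hq3pos.ne' hT0 hq3v (padic_unit_odd htam)]
      simp
    exact padic_unit_mul (mul_ne_zero hq1.ne' (pow_ne_zero _ hN))
      (inv_ne_zero (mul_ne_zero hq3pos.ne' hT0)) (padic_unit_mul hq1.ne' (pow_ne_zero _ hN) hq2 h4)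
      h5
  · rw [SBSD.bsdQuotient, hper, CF.card_tors]
    have hP : (CM27.period L : ℂ) ≠ 0 := by
      intro h0
      rw [h0, mul_zero] at hq3
      rcases mul_eq_zero.1 hq3 with h5 | h5
      · exact hL3 h5
      · have h6 : (√|(discr L : ℝ)| : ℝ) = 0 := by exact_mod_cast h5
        rw [Real.sqrt_eq_zero (abs_nonneg _), abs_eq_zero] at h6
        exact NumberField.discr_ne_zero L (by exact_mod_cast h6)
    have hq3C : (q3 : ℂ) ≠ 0 := by exact_mod_cast hq3pos.ne'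
    have hTC : (T : ℂ) ≠ 0 := by exact_mod_cast hT0
    rw [hq3, ← hT]
    push_cast
    field_simp

end

end NAB
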