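import Pool.Agent.MP_9ab903_nt.CF.N2
import Pool.Agent.MP_dfae13_nt.T.Q3

set_option autoImplicit false

open CM27 CMT CF
open scoped ComplexConjugate Classical

namespace NAB

/-! ## [NAB-HG1] square roots of Eisenstein integers in torsion fields (file NAB/HG1.lean) -/

/-- `√-3 = 1 + 2 ω` -/
def thE : Eis := ⟨1, 2⟩

theorem thE_sq : thE ^ 2 = -3 := by
  rw [thE, pow_two]
  ext <;> simp [QuadraticAlgebra.re_ofNat, QuadraticAlgebra.im_ofNat]

theorem emb_thE_sq : emb thE ^ 2 = -3 := by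
  rw [← map_pow, thE_sq, map_neg, map_ofNat]

theorem emb_thE_ne : emb thE ≠ 0 := by
  intro h
  have h1 := emb_thE_sq
  rw [h] at h1
  norm_num at h1

/-- complex numbers fixed by the automorphisms over `ℚ(ω)` -/
theorem fixed_K (z : ℂ) (hz : IsAlgebraic ℚ z) (h : ∀ σ : ℂ ≃+* ℂ, σ w = w → σ z = z) :
    ∃ a b : ℚ, z = a + b * w := by
  have hwc : conj w = -1 - w := n2_w_conj
  have hthc : conj (emb thE) = -emb thE := by
    have h1 : emb thE = 1 + 2 * w := by simp [emb_apply, thE]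
    rw [h1, map_add, map_mul, map_one, hwc, map_ofNat]
    ring
  have hzc : ∀ σ : ℂ ≃+* ℂ, σ w = w → σ (conj z) = conj z := by
    intro σ hσ
    set τ : ℂ ≃+* ℂ := ((starRingAut : ℂ ≃+* ℂ).trans σ).trans (starRingAut : ℂ ≃+* ℂ) with hτ
    have hτa : ∀ x, τ x = conj (σ (conj x)) := fun x => rfl
    have h1 : τ w = w := by
      rw [hτa, hwc, map_sub, map_neg, map_one, hσ, map_sub, map_neg, map_one, hwc]
      ring
    have h2 := h τ h1
    rw [hτa] at h2
    have h3 := congrArg conj h2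
    rw [Complex.conj_conj] at h3
    exact h3
  have hzca : IsAlgebraic ℚ (conj z) := by
    have h1 : IsAlgebraic ℚ ((starRingAut : ℂ ≃+* ℂ) z) := by
      obtain ⟨P, hP, hP2⟩ := hz
      refine ⟨P, hP, ?_⟩
      have h3 := Polynomial.hom_eval₂ P (algebraMap ℚ ℂ) ((starRingAut : ℂ ≃+* ℂ) : ℂ →+* ℂ) z
      rw [Polynomial.aeval_def] at hP2 ⊢
      rw [hP2, map_zero] at h3
      have h4 : (((starRingAut : ℂ ≃+* ℂ) : ℂ →+* ℂ)).comp (algebraMap ℚ ℂ) = algebraMap ℚ ℂ :=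
        Subsingleton.elim _ _
      rw [h4] at h3
      exact h3.symm
    exact h1
  have hfix : ∀ t : ℂ, IsAlgebraic ℚ t → (∀ σ : ℂ ≃+* ℂ, σ w = w → σ t = t) → conj t = t →
      ∃ q : ℚ, (q : ℂ) = t := by
    intro t ht h1 h2
    apply fixed_rat t ht
    intro σ
    have hx : σ w * σ w = -1 - σ w := by
      rw [← map_mul, w_sq, map_sub, map_neg, map_one]
    rcases a7_w_cases (σ w) hx with h | h
    · exact h1 σ h
    · set τ : ℂ ≃+* ℂ := (starRingAut : ℂ ≃+* ℂ).trans σ with hτ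
      have hτa : ∀ x, τ x = σ (conj x) := fun x => rfl
      have hτw : τ w = w := by
        rw [hτa, hwc, map_sub, map_neg, map_one, h, hwc]
        ring
      have h3 := h1 τ hτw
      rw [hτa, h2] at h3
      exact h3
  have hthf : ∀ σ : ℂ ≃+* ℂ, σ w = w → σ (emb thE) = emb thE := by
    intro σ hσ
    have h1 : emb thE = 1 + 2 * w := by simp [emb_apply, thE]
    rw [h1, map_add, map_mul, map_one, hσ, map_ofNat]
  have htha : IsAlgebraic ℚ (emb thE) := by
    have h1 : IsAlgebraic ℚ (emb thE ^ 2) := by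
      rw [emb_thE_sq]
      have h2 := isAlgebraic_algebraMap (R := ℚ) (A := ℂ) (-3 : ℚ)
      simpa using h2
    exact IsAlgebraic.of_pow (n := 2) two_pos h1
  obtain ⟨q1, hq1⟩ := hfix (z + conj z) (hz.add hzca)
    (fun σ hσ => by rw [map_add, h σ hσ, hzc σ hσ]) (by rw [map_add, Complex.conj_conj, add_comm])
  obtain ⟨q2, hq2⟩ := hfix ((z - conj z) * emb thE) ((hz.sub hzca).mul htha)
    (fun σ hσ => by rw [map_mul, map_sub, h σ hσ, hzc σ hσ, hthf σ hσ])
    (by rw [map_mul, map_sub, Complex.conj_conj, hthc]; ring)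
  refine ⟨q1 / 2 - q2 / 6, -(q2 / 3), ?_⟩
  have h1 : emb thE = 1 + 2 * w := by simp [emb_apply, thE]
  have h2 := emb_thE_sq
  push_cast
  rw [hq1, hq2]
  rw [h1] at h2 ⊢
  linear_combination ((z - conj z) / 6) * h2

section
variable (b : Eis) (p : ℕ) [hp : Fact p.Prime] (hb : b.norm = p)

include hb in
theorem hg_Z_eq (hp2 : p ≠ 2) : q1Z b p = (-1) ^ (p / 2) * q1Y b p ^ 2 := by
  have h1 : q1Z b p = ∏ n ∈ Finset.Ico 1 p, yw ((n : ℂ) / emb b) := by
    unfold q1Z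
    refine Finset.prod_bij (fun c _ => c.val) ?_ ?_ ?_ ?_
    · intro c hc
      have hc0 : c ≠ 0 := (Finset.mem_erase.1 hc).1
      rw [Finset.mem_Ico]
      exact ⟨Nat.pos_of_ne_zero (fun h => hc0 ((ZMod.val_eq_zero c).1 h)), ZMod.val_lt c⟩
    · intro c _ c' _ h
      exact ZMod.val_injective p h
    · intro n hn
      rw [Finset.mem_Ico] at hn
      refine ⟨(n : ZMod p), ?_, ZMod.val_cast_of_lt hn.2⟩
      rw [Finset.mem_erase]
      refine ⟨?_, Finset.mem_univ _⟩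
      intro h0
      have h2 := ZMod.val_cast_of_lt hn.2
      rw [h0, ZMod.val_zero] at h2
      omega
    · intro c _
      rfl
  have hodd : Odd p := hp.out.odd_of_ne_two hp2
  have hp1 : 1 < p := hp.out.one_lt
  have h2 : ∏ n ∈ Finset.Ico 1 p, yw ((n : ℂ) / emb b) =
      (∏ n ∈ Finset.Ico 1 (p / 2 + 1), yw ((n : ℂ) / emb b)) *
      ∏ n ∈ Finset.Ico (p / 2 + 1) p, yw ((n : ℂ) / emb b) := by
    rw [Finset.prod_Ico_consecutive _ (by omega) (by omega)]
  have h3 : ∏ n ∈ Finset.Ico (p / 2 + 1) p, yw ((n : ℂ) / emb b) =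
      (-1) ^ (p / 2) * q1Y b p := by
    have h4 := Finset.prod_Ico_reflect (fun n : ℕ => yw ((n : ℂ) / emb b)) 1
      (m := p / 2 + 1) (n := p) (by omega)
    have e1 : p + 1 - (p / 2 + 1) = p / 2 + 1 := by
      obtain ⟨k, hk⟩ := hodd
      omega
    rw [e1, Nat.add_sub_cancel] at h4
    rw [← h4, q1Y]
    have e2 : (-1 : ℂ) ^ (p / 2) = ∏ n ∈ Finset.Ico 1 (p / 2 + 1), (-1 : ℂ) := by
      rw [Finset.prod_const, Nat.card_Ico, Nat.add_sub_cancel]
    rw [e2, ← Finset.prod_mul_distrib]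
    refine Finset.prod_congr rfl fun n hn => ?_
    rw [Finset.mem_Ico] at hn
    have hne := q1_ne b p hb
    have h5 : (((p - n : ℕ) : ℂ)) / emb b = -((n : ℂ) / emb b) + emb (star b) := by
      have h6 := q1_star b p hb
      rw [Nat.cast_sub (by omega), ← h6]
      field_simp
      ring
    rw [h5, yw_add, yw_neg]
    ring
  rw [h1, h2, h3, q1Y]
  ring

theorem hg_half_cube (ξ : ℂ) (hξ : ξ ∉ Set.range emb) (h2ξ : 2 * ξ ∈ Set.range emb) :
    4 * xw ξ ^ 3 = -1 := by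
  have hyξ : yw ξ = 0 := (yw_eq_zero_iff ξ hξ).2 h2ξ
  have hwξ := weq ξ hξ
  rw [hyξ] at hwξ
  linear_combination -hwξ

include hb in
theorem hg_Z4 (hp2 : p ≠ 2) : q1Z b p ^ 4 * emb b ^ 12 = 27 ^ (p - 1) := by
  set e := xw (1 / 2) with he
  obtain ⟨w1, w2⟩ := q1_w_mul _ q1_half q1_half_two
  obtain ⟨w3, w4⟩ := q1_w_mul _ w1 w2
  obtain ⟨n1, n2, a1⟩ := q1A_sq b p hb hp2 _ q1_half q1_half_two
  obtain ⟨-, -, a2⟩ := q1A_sq b p hb hp2 _ w1 w2
  obtain ⟨-, -, a3⟩ := q1A_sq b p hb hp2 _ w3 w4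
  have hbw : emb b * (w * (1 / 2)) = w * (emb b * (1 / 2)) := by ring
  have hbw2 : emb b * (w * (w * (1 / 2))) = w * (w * (emb b * (1 / 2))) := by ring
  rw [hbw, xw_w, xw_w] at a2
  rw [hbw2, xw_w, xw_w, xw_w, xw_w] at a3
  set f := xw (emb b * (1 / 2)) with hf
  rw [← he] at a1 a2 a3
  have hf3 : 4 * f ^ 3 = -1 := hg_half_cube _ n1 n2
  have he3 : 4 * e ^ 3 = -1 := hg_half_cube _ q1_half q1_half_two
  have hcard : (Finset.univ.erase (0 : ZMod p)).card = p - 1 := by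
    rw [Finset.card_erase_of_mem (Finset.mem_univ _), Finset.card_univ, ZMod.card]
  have hZ : q1Z b p ^ 2 = 4 ^ (p - 1) * (q1A b p e * q1A b p (w * e) * q1A b p (w * (w * e))) := by
    unfold q1Z q1A
    rw [← Finset.prod_pow, ← Finset.prod_mul_distrib, ← Finset.prod_mul_distrib, ← hcard,
      ← Finset.prod_const, ← Finset.prod_mul_distrib]
    refine Finset.prod_congr rfl fun c hc => ?_
    have hc0 : c ≠ 0 := (Finset.mem_erase.1 hc).1
    have hval : 0 < c.val := Nat.pos_of_ne_zero (fun h => hc0 ((ZMod.val_eq_zero c).1 h))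
    rw [weq _ (q1_mem0 b p hb c.val hval (ZMod.val_lt c))]
    generalize xw (((c.val : ℕ) : ℂ) / emb b) = x
    have hw := w_sq
    have hw3 : w ^ 3 = 1 := by linear_combination (w - 1) * hw
    linear_combination he3 + (4 * x ^ 2 * e - 4 * x * e ^ 2 * w) * hw + (4 * e ^ 3) * hw3
  have hw3 : w ^ 3 = 1 := by linear_combination (w - 1) * w_sq
  set A1 := q1A b p e
  set A2 := q1A b p (w * e)
  set A3 := q1A b p (w * (w * e))
  have key : (A1 * A2 * A3) ^ 2 * emb b ^ 12 * (27 / 16) = (27 / 16) ^ p := by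
    have h1 : (A1 ^ 2 * emb b ^ 4 * (3 * f ^ 2)) * (A2 ^ 2 * emb b ^ 4 * (3 * (w * f) ^ 2)) *
        (A3 ^ 2 * emb b ^ 4 * (3 * (w * (w * f)) ^ 2)) =
        ((3 * e ^ 2) * (3 * (w * e) ^ 2) * (3 * (w * (w * e)) ^ 2)) ^ p := by
      rw [a1, a2, a3, ← mul_pow, ← mul_pow]
    have h2 : (3 * e ^ 2) * (3 * (w * e) ^ 2) * (3 * (w * (w * e)) ^ 2) = 27 / 16 := by
      have : (3 * e ^ 2) * (3 * (w * e) ^ 2) * (3 * (w * (w * e)) ^ 2) =
          27 * (w ^ 3) ^ 2 * (e ^ 3) ^ 2 := by ring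
      rw [this, hw3, show e ^ 3 = -1 / 4 by linear_combination he3 / 4]
      norm_num
    have h3 : (A1 ^ 2 * emb b ^ 4 * (3 * f ^ 2)) * (A2 ^ 2 * emb b ^ 4 * (3 * (w * f) ^ 2)) *
        (A3 ^ 2 * emb b ^ 4 * (3 * (w * (w * f)) ^ 2)) =
        (A1 * A2 * A3) ^ 2 * emb b ^ 12 * (27 * (w ^ 3) ^ 2 * (f ^ 3) ^ 2) := by ring
    rw [h2, h3, hw3, show f ^ 3 = -1 / 4 by linear_combination hf3 / 4] at h1
    rw [← h1]
    norm_num
  obtain ⟨k, hk⟩ : ∃ k, p = k + 1 := ⟨p - 1, by have := hp.out.pos; omega⟩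
  have hk1 : p - 1 = k := by omega
  rw [hk1] at hZ ⊢
  have key2 : (A1 * A2 * A3) ^ 2 * emb b ^ 12 = (27 / 16) ^ k := by
    have h1 : (27 / 16 : ℂ) ≠ 0 := by norm_num
    apply mul_right_cancel₀ h1
    rw [key, ← pow_succ, ← hk]
  have h1 : q1Z b p ^ 4 = (q1Z b p ^ 2) ^ 2 := by ring
  rw [h1, hZ]
  have h2 : (4 ^ k * (A1 * A2 * A3)) ^ 2 * emb b ^ 12 =
      (16 : ℂ) ^ k * ((A1 * A2 * A3) ^ 2 * emb b ^ 12) := by
    have h3 : (16 : ℂ) ^ k = (4 ^ k) ^ 2 := by
      rw [← pow_mul, mul_comm, pow_mul]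
      norm_num
    rw [h3]
    ring
  rw [h2, key2, ← mul_pow]
  norm_num

include hb in
theorem hg_Y8 (hp2 : p ≠ 2) : (q1Y b p ^ 2 * emb b ^ 3) ^ 4 = (emb thE ^ (3 * (p / 2))) ^ 4 := by
  have h1 := hg_Z4 b p hb hp2
  rw [hg_Z_eq b p hb hp2] at h1
  have h2 : ((-1 : ℂ) ^ (p / 2)) ^ 4 = 1 := by
    rw [← pow_mul, mul_comm, pow_mul]
    norm_num
  have h3 : (q1Y b p ^ 2 * emb b ^ 3) ^ 4 =
      ((-1) ^ (p / 2) * q1Y b p ^ 2) ^ 4 * emb b ^ 12 := by
    linear_combination (-(q1Y b p ^ 8 * emb b ^ 12)) * h2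
  rw [h3, h1]
  have h4 : (emb thE ^ (3 * (p / 2))) ^ 4 = ((emb thE ^ 2) ^ 6) ^ (p / 2) := by
    rw [← pow_mul, ← pow_mul, ← pow_mul]
    congr 1
    ring
  rw [h4, emb_thE_sq]
  obtain ⟨k, hk⟩ := hp.out.odd_of_ne_two hp2
  have e1 : p - 1 = 2 * k := by omega
  have e2 : p / 2 = k := by omega
  rw [e1, e2, pow_mul]
  norm_num

include hb in
theorem hg_Y_ne (hp2 : p ≠ 2) : q1Y b p ≠ 0 := by
  intro h
  have h1 := hg_Y8 b p hb hp2
  rw [h] at h1
  have h2 : emb thE ^ (3 * (p / 2)) = 0 := by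
    rw [← pow_eq_zero_iff (n := 4) (by norm_num), ← h1]
    ring
  exact emb_thE_ne (pow_eq_zero_iff (by
    have := hp.out.two_le
    omega) |>.1 h2)

include hb in
theorem hg_fix (hp2 : p ≠ 2) (σ : ℂ ≃+* ℂ) (hσ : σ w = w) : σ (q1Y b p ^ 2) = q1Y b p ^ 2 := by
  have hb0 : b ≠ 0 := by
    intro h0
    apply q1_ne b p hb
    rw [h0, map_zero]
  obtain ⟨u, hu, hc⟩ := gal_eis b hb0 σ hσ
  have h1 := q2_gal b p hb hp2 (σ : ℂ →+* ℂ) u hc
  have h1' : σ (q1Y b p) = (qr b u : ℂ) * q1Y b p := h1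
  have h2 : (qr b u : ℂ) ^ 2 = 1 := by
    have h5 : (qr b u : ℂ) ≠ 0 := by
      intro h0
      rw [h0, zero_mul] at h1'
      exact hg_Y_ne b p hb hp2 ((map_eq_zero σ).1 h1')
    unfold qr at h5 ⊢
    split_ifs at h5 ⊢ with h3 h4
    · exact absurd Int.cast_zero h5
    · norm_num
    · norm_num
  rw [map_pow, h1', mul_pow, h2, one_mul]

include hb in
theorem hg_Y_alg (hp2 : p ≠ 2) : IsAlgebraic ℚ (q1Y b p) := by
  have h1 := hg_Y8 b p hb hp2
  have key : ∀ z : ℂ, z ∈ algebraicClosure ℚ ℂ ↔ IsAlgebraic ℚ z := fun z => mem_algebraicClosure_iff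
  rw [← key, q1Y]
  refine prod_mem fun n hn => ?_
  rw [key]
  refine yw_alg p (hp.out.odd_of_ne_two hp2) _ ?_
  refine ⟨n * star b, ?_⟩
  have h6 := q1_star b p hb
  have hne := q1_ne b p hb
  rw [map_mul, map_natCast, ← h6]
  field_simp

include hb in
/-- the square of the half product -/
theorem hg_Y2 (hp2 : p ≠ 2) : ∃ s : Eis, (s = 1 ∨ s = -1) ∧
    q1Y b p ^ 2 * emb b ^ 3 = emb (s * thE ^ (3 * (p / 2))) := by
  have hb0 := q1_ne b p hb
  have hth : emb thE ^ (3 * (p / 2)) ≠ 0 := pow_ne_zero _ emb_thE_ne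
  set t : ℂ := q1Y b p ^ 2 * emb b ^ 3 / emb thE ^ (3 * (p / 2)) with ht
  have ht4 : t ^ 4 = 1 := by
    rw [ht, div_pow, hg_Y8 b p hb hp2]
    exact div_self (pow_ne_zero _ hth)
  have htalg : IsAlgebraic ℚ t := by
    refine IsAlgebraic.of_pow (n := 4) (by norm_num) ?_
    rw [ht4]
    exact isAlgebraic_one
  have hembf : ∀ a : Eis, ∀ σ : ℂ ≃+* ℂ, σ w = w → σ (emb a) = emb a := by
    intro a σ hσ
    rw [emb_apply, map_add, map_mul, hσ, map_intCast, map_intCast]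
  obtain ⟨x, y, hxy⟩ := fixed_K t htalg (fun σ hσ => by
    rw [ht, map_div₀, map_mul, hg_fix b p hb hp2 σ hσ, map_pow, map_pow, hembf _ σ hσ,
      hembf _ σ hσ])
  have ht2 : t ^ 2 = 1 ∨ t ^ 2 = -1 := by
    have h1 : (t ^ 2 - 1) * (t ^ 2 + 1) = 0 := by linear_combination ht4
    rcases mul_eq_zero.1 h1 with h | h
    · left; linear_combination h
    · right; linear_combination h
  have hmain : t = 1 ∨ t = -1 := by
    have hlin : ∀ a b : ℚ, (a : ℂ) + b * w = 0 → a = 0 ∧ b = 0 := by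
      intro a b h
      have h1 := congrArg Complex.im h
      have h2 := congrArg Complex.re h
      simp only [Complex.add_im, Complex.mul_im, Complex.add_re, Complex.mul_re,
        Complex.ratCast_im, Complex.ratCast_re, Complex.zero_im, Complex.zero_re, w_re, w_im,
        zero_mul, sub_zero, add_zero, zero_add] at h1 h2
      have h3 : (b : ℝ) = 0 := by
        rcases mul_eq_zero.1 h1 with h | h
        · exact h
        · exfalso
          have : (0 : ℝ) < √3 := by positivity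
          linarith
      rw [h3] at h2
      constructor
      · have : (a : ℝ) = 0 := by linarith
        exact_mod_cast this
      · exact_mod_cast h3
    have hsq : t ^ 2 = ((x ^ 2 - y ^ 2 : ℚ) : ℂ) + ((2 * x * y - y ^ 2 : ℚ) : ℂ) * w := by
      rw [hxy]
      push_cast
      linear_combination (y : ℂ) ^ 2 * w_sq
    have hcase : ∀ c : ℚ, t ^ 2 = (c : ℂ) → x ^ 2 - y ^ 2 = c ∧ y * (2 * x - y) = 0 := by
      intro c hc
      obtain ⟨h1, h2⟩ := hlin (x ^ 2 - y ^ 2 - c) (2 * x * y - y ^ 2) (by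
        rw [hc] at hsq
        push_cast at hsq ⊢
        linear_combination -hsq)
      exact ⟨by linarith, by linarith⟩
    have hno : ∀ r : ℚ, 3 * r ^ 2 ≠ 1 := by
      intro r hr
      have h3 : IsSquare (3 : ℚ) := ⟨3 * r, by nlinarith⟩
      have h4 : ¬ IsSquare (3 : ℚ) := by
        have : ¬ IsSquare (3 : ℕ) := Irreducible.not_isSquare Nat.prime_three
        intro h5
        apply this
        exact_mod_cast h5
      exact h4 h3
    rcases ht2 with h | h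
    · obtain ⟨h1, h2⟩ := hcase 1 (by rw [h]; norm_num)
      rcases mul_eq_zero.1 h2 with h3 | h3
      · have h4 : (x - 1) * (x + 1) = 0 := by rw [h3] at h1; linarith
        rw [hxy, h3]
        rcases mul_eq_zero.1 h4 with h5 | h5
        · left
          rw [show x = 1 by linarith]; norm_num
        · right
          rw [show x = -1 by linarith]; norm_num
      · exfalso
        have h4 : y = 2 * x := by linarith
        rw [h4] at h1
        nlinarith [sq_nonneg x]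
    · obtain ⟨h1, h2⟩ := hcase (-1) (by rw [h]; norm_num)
      exfalso
      rcases mul_eq_zero.1 h2 with h3 | h3
      · rw [h3] at h1
        nlinarith [sq_nonneg x]
      · have h4 : y = 2 * x := by linarith
        rw [h4] at h1
        exact hno x (by linarith)
  have hfin : q1Y b p ^ 2 * emb b ^ 3 = t * emb thE ^ (3 * (p / 2)) := by
    rw [ht]
    field_simp
  rcases hmain with h | h
  · exact ⟨1, Or.inl rfl, by rw [hfin, h, map_mul, map_one, map_pow]⟩
  · exact ⟨-1, Or.inr rfl, by rw [hfin, h, map_mul, map_neg, map_one, map_pow]⟩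

end

end NAB
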