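import Pool.Agent.MP_9ab903_nt.NAB.HG1

set_option autoImplicit false

open CM27 CMT CF
open scoped ComplexConjugate Classical

namespace NAB

/-! ## [NAB-HG2] the half products modulo `4` (file NAB/HG2.lean) -/

theorem eis_odd_norm (x : Eis) (h : ¬ (2 : Eis) ∣ x) : Odd x.norm := by
  rw [norm_eq, ← Int.not_even_iff_odd]
  intro hev
  apply h
  have h1 : x.re % 2 = 0 ∧ x.im % 2 = 0 := by
    rw [Int.even_iff] at hev
    rcases Int.emod_two_eq_zero_or_one x.re with h1 | h1 <;>
      rcases Int.emod_two_eq_zero_or_one x.im with h2 | h2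
    · exact ⟨h1, h2⟩
    all_goals
      exfalso
      have e1 : x.re = 2 * (x.re / 2) + x.re % 2 := by omega
      have e2 : x.im = 2 * (x.im / 2) + x.im % 2 := by omega
      rw [h1] at e1
      rw [h2] at e2
      rw [e1, e2] at hev
      ring_nf at hev
      omega
  refine ⟨⟨x.re / 2, x.im / 2⟩, ?_⟩
  ext
  · simp [QuadraticAlgebra.re_ofNat, QuadraticAlgebra.im_ofNat]
    omega
  · simp [QuadraticAlgebra.re_ofNat, QuadraticAlgebra.im_ofNat]
    omega

theorem four_dvd_of_val (A : ValuationSubring ℂ) (hA : A.valuation 2 < 1) (x : Eis)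
    (h : A.valuation (emb x) ≤ A.valuation 4) : (4 : Eis) ∣ x := by
  have h4 : A.valuation 4 = A.valuation 2 * A.valuation 2 := by
    rw [← map_mul]; norm_num
  have h20 : A.valuation 2 ≠ 0 := by
    rw [Ne, Valuation.zero_iff]; norm_num
  have h42 : A.valuation 4 < A.valuation 2 := by
    rw [h4]
    calc A.valuation 2 * A.valuation 2 < A.valuation 2 * 1 :=
          mul_lt_mul_of_pos_left hA (zero_lt_iff.2 h20)
      _ = A.valuation 2 := mul_one _
  by_cases h1 : (2 : Eis) ∣ x
  · obtain ⟨y, rfl⟩ := h1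
    by_cases h2 : (2 : Eis) ∣ y
    · obtain ⟨z, rfl⟩ := h2
      exact ⟨z, by ring⟩
    · exfalso
      have h3 := val_odd_norm A hA y (eis_odd_norm y h2)
      rw [map_mul, map_mul, h3, mul_one, map_ofNat] at h
      exact absurd h (not_le.2 h42)
  · exfalso
    have h3 := val_odd_norm A hA x (eis_odd_norm x h1)
    rw [h3] at h
    exact absurd h (not_le.2 (h42.trans hA))

theorem val_prod_one (A : ValuationSubring ℂ) (s : Finset ℕ) (f : ℕ → ℂ)
    (h : ∀ n ∈ s, A.valuation (f n - 1) ≤ A.valuation 4) :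
    A.valuation (∏ n ∈ s, f n - 1) ≤ A.valuation 4 := by
  have h41 : A.valuation 4 ≤ 1 := by
    have := i1_val_int A 4
    push_cast at this
    exact this
  induction s using Finset.induction_on with
  | empty =>
    rw [Finset.prod_empty, sub_self, map_zero]
    exact zero_le
  | insert n s hn ih =>
    rw [Finset.prod_insert hn]
    have h1 := ih fun m hm => h m (Finset.mem_insert_of_mem hm)
    have h2 := h n (Finset.mem_insert_self _ _)
    have h3 : A.valuation (∏ n ∈ s, f n) ≤ 1 := by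
      have h4 : ∏ n ∈ s, f n = (∏ n ∈ s, f n - 1) + 1 := by ring
      rw [h4]
      refine (Valuation.map_add _ _ _).trans (max_le (h1.trans h41) ?_)
      rw [map_one]
    have h5 : f n * ∏ n ∈ s, f n - 1 = (f n - 1) * ∏ n ∈ s, f n + (∏ n ∈ s, f n - 1) := by ring
    rw [h5]
    refine (Valuation.map_add _ _ _).trans (max_le ?_ h1)
    rw [map_mul]
    calc A.valuation (f n - 1) * A.valuation (∏ n ∈ s, f n) ≤ A.valuation 4 * 1 :=
          mul_le_mul' h2 h3
      _ = A.valuation 4 := mul_one _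

section
variable (b : Eis) (p : ℕ) [hp : Fact p.Prime] (hb : b.norm = p)
include hb

theorem hg_val (hp2 : p ≠ 2) (A : ValuationSubring ℂ) (hA : A.valuation 2 < 1) :
    A.valuation (q1Y b p ^ 2 - 1) ≤ A.valuation 4 := by
  unfold q1Y
  rw [← Finset.prod_pow]
  refine val_prod_one A _ _ fun n hn => ?_
  rw [Finset.mem_Ico] at hn
  have hp1 := hp.out.two_le
  have hnm := q1_mem0 b p hb n (by omega) (by omega)
  have hne := q1_ne b p hb
  have hx : A.valuation (xw ((n : ℂ) / emb b)) ≤ 1 :=
    x_val A hA xw xw_add xw_two p (hp.out.odd_of_ne_two hp2) _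
      ⟨n * star b, by
        have h6 := q1_star b p hb
        rw [map_mul, map_natCast, ← h6]
        field_simp⟩ hnm
  rw [weq _ hnm, add_sub_cancel_right, map_mul, map_pow]
  calc A.valuation 4 * A.valuation (xw ((n : ℂ) / emb b)) ^ 3 ≤ A.valuation 4 * 1 :=
        mul_le_mul_right (pow_le_one₀ zero_le hx) _
    _ = A.valuation 4 := mul_one _

/-- the square of the half product, with its class modulo `4` -/
theorem hg_four (hp2 : p ≠ 2) : ∃ s : Eis, IsUnit s ∧
    q1Y b p ^ 2 * emb b ^ 3 = emb (s * thE ^ (3 * (p / 2))) ∧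
    (4 : Eis) ∣ s * thE ^ (3 * (p / 2)) - b ^ 3 := by
  obtain ⟨s, hs, h1⟩ := hg_Y2 b p hb hp2
  refine ⟨s, ?_, h1, ?_⟩
  · rcases hs with rfl | rfl
    · exact isUnit_one
    · exact isUnit_one.neg
  · obtain ⟨A, hA⟩ := exists_val
    apply four_dvd_of_val A hA
    rw [map_sub, ← h1, map_pow]
    have h2 : q1Y b p ^ 2 * emb b ^ 3 - emb b ^ 3 = (q1Y b p ^ 2 - 1) * emb (b ^ 3) := by
      rw [map_pow]; ring
    rw [h2, map_mul]
    calc A.valuation (q1Y b p ^ 2 - 1) * A.valuation (emb (b ^ 3)) ≤ A.valuation 4 * 1 :=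
          mul_le_mul' (hg_val b p hb hp2 A hA) (val_emb A _)
      _ = A.valuation 4 := mul_one _

end

end NAB
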