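import Pool.Agent.MP_9ab903_nt.NAB.HG2

set_option autoImplicit false

open CM27 CMT CF
open scoped ComplexConjugate Classical

namespace NAB

/-! ## [NAB-HG3] squares modulo `4` in `ℤ[ω]` (file NAB/HG3.lean) -/

theorem eis_unit_cases (a : Eis) (h : IsUnit a) :
    a = 1 ∨ a = -1 ∨ a = ⟨0, 1⟩ ∨ a = -⟨0, 1⟩ ∨ a = ⟨1, 1⟩ ∨ a = -⟨1, 1⟩ := by
  have h1 := (eis_isUnit_iff a).1 h
  rw [norm_eq] at h1
  have h2 : a.re ≤ 1 := by nlinarith [sq_nonneg (a.re - 2 * a.im)]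
  have h3 : -1 ≤ a.re := by nlinarith [sq_nonneg (a.re - 2 * a.im)]
  have h4 : a.im ≤ 1 := by nlinarith [sq_nonneg (2 * a.re - a.im)]
  have h5 : -1 ≤ a.im := by nlinarith [sq_nonneg (2 * a.re - a.im)]
  obtain ⟨x, y⟩ := a
  simp only at h1 h2 h3 h4 h5
  interval_cases x <;> interval_cases y <;> simp_all [QuadraticAlgebra.ext_iff, QuadraticAlgebra.re_one, QuadraticAlgebra.im_one]

theorem four_dvd_iff (a : Eis) : (4 : Eis) ∣ a ↔ (4 : ℤ) ∣ a.re ∧ (4 : ℤ) ∣ a.im := by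
  constructor
  · rintro ⟨c, rfl⟩
    constructor
    · refine ⟨c.re, ?_⟩
      simp [QuadraticAlgebra.re_ofNat, QuadraticAlgebra.im_ofNat]
    · refine ⟨c.im, ?_⟩
      simp [QuadraticAlgebra.re_ofNat, QuadraticAlgebra.im_ofNat]
  · rintro ⟨⟨x, hx⟩, ⟨y, hy⟩⟩
    refine ⟨⟨x, y⟩, ?_⟩
    ext
    · simp [QuadraticAlgebra.re_ofNat, QuadraticAlgebra.im_ofNat, hx]
    · simp [QuadraticAlgebra.re_ofNat, QuadraticAlgebra.im_ofNat, hy]

theorem sq_mod_four (x y : ZMod 4) :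
    (x ^ 2 - y ^ 2 = 1 ∧ 2 * x * y - y ^ 2 = 0) ∨ (x ^ 2 - y ^ 2 = 0 ∧ 2 * x * y - y ^ 2 = 1) ∨
    (x ^ 2 - y ^ 2 = 3 ∧ 2 * x * y - y ^ 2 = 3) ∨ (x ^ 2 - y ^ 2 = 0 ∧ 2 * x * y - y ^ 2 = 0) := by
  revert x y
  decide

theorem four_dvd_sq (a t : Eis) (h : (4 : Eis) ∣ a - t ^ 2) :
    ((a.re : ZMod 4) = 1 ∧ (a.im : ZMod 4) = 0) ∨ ((a.re : ZMod 4) = 0 ∧ (a.im : ZMod 4) = 1) ∨
    ((a.re : ZMod 4) = 3 ∧ (a.im : ZMod 4) = 3) ∨ ((a.re : ZMod 4) = 0 ∧ (a.im : ZMod 4) = 0) := by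
  obtain ⟨h1, h2⟩ := (four_dvd_iff _).1 h
  have e1 : (a - t ^ 2).re = a.re - (t.re ^ 2 - t.im ^ 2) := by
    rw [pow_two]
    simp
    ring
  have e2 : (a - t ^ 2).im = a.im - (2 * t.re * t.im - t.im ^ 2) := by
    rw [pow_two]
    simp
    ring
  rw [e1] at h1
  rw [e2] at h2
  have h3 : (a.re : ZMod 4) = (t.re : ZMod 4) ^ 2 - (t.im : ZMod 4) ^ 2 := by
    have := (ZMod.intCast_zmod_eq_zero_iff_dvd _ 4).2 h1
    push_cast at this
    linear_combination this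
  have h4 : (a.im : ZMod 4) = 2 * (t.re : ZMod 4) * (t.im : ZMod 4) - (t.im : ZMod 4) ^ 2 := by
    have := (ZMod.intCast_zmod_eq_zero_iff_dvd _ 4).2 h2
    push_cast at this
    linear_combination this
  rw [h3, h4]
  exact sq_mod_four _ _

/-- a unit times a power of `√-3` is a square if it is a square modulo `4` -/
theorem unit_th_square (ε t : Eis) (hε : IsUnit ε) (j : ℕ) (h : (4 : Eis) ∣ ε * thE ^ j - t ^ 2) :
    ∃ r : Eis, ε * thE ^ j = r ^ 2 := by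
  have hm : ∀ i : ℕ, (4 : Eis) ∣ (thE ^ 2) ^ i - 1 := by
    intro i
    have h1 : (4 : Eis) ∣ thE ^ 2 - 1 := ⟨-1, by rw [thE_sq]; norm_num⟩
    exact h1.trans (sub_one_dvd_pow_sub_one _ i)
  obtain ⟨i, hi⟩ := Nat.even_or_odd' j
  have hsq : ∀ r : Eis, ε = r ^ 2 → j = 2 * i → ∃ r : Eis, ε * thE ^ j = r ^ 2 := by
    intro r hr hj
    exact ⟨r * thE ^ i, by rw [hr, hj, mul_comm 2 i, pow_mul]; ring⟩
  rcases hi with hi | hi
  · -- even exponent
    have h1 : (4 : Eis) ∣ ε - t ^ 2 := by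
      have h2 : ε - t ^ 2 = (ε * thE ^ j - t ^ 2) - ε * ((thE ^ 2) ^ i - 1) := by
        rw [hi, pow_mul]; ring
      rw [h2]
      exact dvd_sub h ((hm i).mul_left _)
    have h2 := four_dvd_sq ε t h1
    rcases eis_unit_cases ε hε with h3 | h3 | h3 | h3 | h3 | h3
    · exact hsq 1 (by rw [h3, one_pow]) hi
    · rw [h3] at h2
      simp only [QuadraticAlgebra.re_neg, QuadraticAlgebra.im_neg, QuadraticAlgebra.re_one,
        QuadraticAlgebra.im_one] at h2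
      exact absurd h2 (by decide)
    · refine hsq ⟨-1, -1⟩ ?_ hi
      rw [h3, pow_two]
      ext <;> simp
    · rw [h3] at h2
      simp only [QuadraticAlgebra.re_neg, QuadraticAlgebra.im_neg] at h2
      exact absurd h2 (by decide)
    · rw [h3] at h2
      exact absurd h2 (by decide)
    · refine hsq ⟨0, 1⟩ ?_ hi
      rw [h3, pow_two]
      ext <;> simp
  · -- odd exponent: impossible
    exfalso
    have h1 : (4 : Eis) ∣ ε * thE - t ^ 2 := by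
      have h2 : ε * thE - t ^ 2 = (ε * thE ^ j - t ^ 2) - ε * thE * ((thE ^ 2) ^ i - 1) := by
        rw [hi, pow_succ thE, pow_mul thE]; ring
      rw [h2]
      exact dvd_sub h ((hm i).mul_left _)
    have h2 := four_dvd_sq _ t h1
    rcases eis_unit_cases ε hε with h3 | h3 | h3 | h3 | h3 | h3 <;>
    · rw [h3] at h2
      simp [thE] at h2
      revert h2
      decide

end NAB
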