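import Pool.Agent.MP_9ab903_nt.NAB.HG3
import Pool.Agent.MP_9ab903_nt.NAB.QR16

set_option autoImplicit false

open NumberField IsDedekindDomain UniqueFactorizationMonoid
open CM27 CMT CF
open scoped ComplexConjugate Classical

namespace NAB

/-! ## [NAB-HG4] the Galois action on square roots of Eisenstein integers (file NAB/HG4.lean) -/

/-- an automorphism over `ℚ(ω)` which acts on the points of order `N` by `u` -/
structure GD (N : ℕ) (σ : ℂ ≃+* ℂ) (u : Eis) : Prop where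
  fix : σ w = w
  cop : IsCoprime u (N : Eis)
  prim : (3 : Eis) ∣ u - 1
  act : ∀ c : Eis, ptMap (σ : ℂ →+* ℂ) (pt (emb c / N)) = pt (emb (c * u) / N)

theorem GD.fix_emb {N : ℕ} {σ : ℂ ≃+* ℂ} {u : Eis} (h : GD N σ u) (a : Eis) :
    σ (emb a) = emb a := by
  rw [emb_apply, map_add, map_mul, h.fix, map_intCast, map_intCast]

theorem GD.act_dvd {N : ℕ} {σ : ℂ ≃+* ℂ} {u : Eis} (h : GD N σ u) (hN : N ≠ 0) (b : Eis)
    (hb : b ∣ (N : Eis)) (c : Eis) :
    ptMap (σ : ℂ →+* ℂ) (pt (emb c / emb b)) = pt (emb (c * u) / emb b) := by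
  obtain ⟨k, hk⟩ := hb
  have hN0 : (N : ℂ) ≠ 0 := by exact_mod_cast hN
  have hbk : emb b * emb k = (N : ℂ) := by
    rw [← map_mul, ← hk, map_natCast]
  have hb0 : emb b ≠ 0 := by
    intro h0
    rw [h0, zero_mul] at hbk
    exact hN0 hbk.symm
  have hk0 : emb k ≠ 0 := by
    intro h0
    rw [h0, mul_zero] at hbk
    exact hN0 hbk.symm
  have h2 : ∀ c : Eis, emb (c * k) / (N : ℂ) = emb c / emb b := by
    intro c
    rw [← hbk, map_mul]
    field_simp
  have h3 := h.act (c * k)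
  have h4 : c * k * u = c * u * k := by ring
  rw [h4, h2, h2] at h3
  exact h3

section
variable (φ : Eis ≃+* 𝓞 KK) (N : ℕ) (σ : ℂ ≃+* ℂ) (u : Eis)

/-- the quadratic symbol `(u / a)` in `ℤ[ω]` -/
noncomputable def XE (a : Eis) : ℤ := Xg (φ u) (φ a)

/-- `a` has, up to a unit and a power of `√-3`, a square root in a torsion field with the expected
Galois action -/
def SQ (a : Eis) : Prop := ∃ (y : ℂ) (t ε : Eis) (j : ℕ), IsUnit ε ∧
  (4 : Eis) ∣ ε * thE ^ j * a - t ^ 2 ∧ y ^ 2 = emb (ε * thE ^ j * a) ∧ σ y = (XE φ u a : ℂ) * y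

theorem XE_mul (a b : Eis) : XE φ u (a * b) = XE φ u a * XE φ u b := by
  rw [XE, map_mul, Xg_mul_right, XE, XE]

theorem XE_unit (a : Eis) (ha : IsUnit a) : XE φ u a = 1 := by
  rw [XE]
  exact Xg_unit _ _ (ha.map φ)

theorem eis_dvd_sub_sq {a b s t : Eis} (h1 : (4 : Eis) ∣ a - s ^ 2) (h2 : (4 : Eis) ∣ b - t ^ 2) :
    (4 : Eis) ∣ a * b - (s * t) ^ 2 := by
  obtain ⟨x, hx⟩ := h1
  obtain ⟨y, hy⟩ := h2
  exact ⟨x * b + s ^ 2 * y, by linear_combination b * hx + s ^ 2 * hy⟩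

theorem SQ.mul {a b : Eis} (ha : SQ φ σ u a) (hb : SQ φ σ u b) : SQ φ σ u (a * b) := by
  obtain ⟨y, t, ε, j, h1, h2, h3, h4⟩ := ha
  obtain ⟨y', t', ε', j', h1', h2', h3', h4'⟩ := hb
  have e1 : ε * ε' * thE ^ (j + j') * (a * b) = (ε * thE ^ j * a) * (ε' * thE ^ j' * b) := by
    rw [pow_add]; ring
  refine ⟨y * y', t * t', ε * ε', j + j', h1.mul h1', ?_, ?_, ?_⟩
  · rw [e1]
    exact eis_dvd_sub_sq h2 h2'
  · rw [e1, mul_pow, h3, h3', ← map_mul]
  · rw [map_mul, h4, h4', XE_mul]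
    push_cast
    ring

theorem SQ_unit (a : Eis) (ha : IsUnit a) : SQ φ σ u a := by
  obtain ⟨v, rfl⟩ := ha
  have e1 : ((v⁻¹ : Eisˣ) : Eis) * thE ^ 0 * (v : Eis) = 1 := by
    rw [pow_zero, mul_one, Units.inv_mul]
  refine ⟨1, 1, ((v⁻¹ : Eisˣ) : Eis), 0, Units.isUnit _, ?_, ?_, ?_⟩
  · rw [e1]; exact ⟨0, by ring⟩
  · rw [e1, map_one, one_pow]
  · rw [XE_unit φ u _ (Units.isUnit _), map_one]
    simp

variable {N σ u}

theorem Cop_of_isCoprime {K : Type} [Field K] [NumberField K] {a b : 𝓞 K} (h : IsCoprime a b) :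
    Cop a b := by
  intro v ha hb
  obtain ⟨x, y, hxy⟩ := h
  apply v.isPrime.ne_top
  rw [Ideal.eq_top_iff_one, ← hxy]
  exact Ideal.add_mem _ (Ideal.mul_mem_left _ _ ha) (Ideal.mul_mem_left _ _ hb)

theorem XE_th (hu : (3 : Eis) ∣ u - 1) : XE φ u thE = 1 := by
  have hth : thE ≠ 0 := fun h => emb_thE_ne (by rw [h, map_zero])
  have h3 : thE ∣ u - 1 := by
    obtain ⟨k, hk⟩ := hu
    exact ⟨-(thE * k), by rw [hk]; linear_combination k * thE_sq⟩
  have h2 : Cop (φ thE) (2 : 𝓞 KK) := by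
    have h4 : IsCoprime (φ thE) (2 : 𝓞 KK) := by
      have h5 : IsCoprime thE (2 : Eis) := ⟨thE, 2, by linear_combination thE_sq⟩
      have := h5.map (φ : Eis →+* 𝓞 KK)
      have e : ((φ : Eis →+* 𝓞 KK) 2) = 2 := map_ofNat _ 2
      rw [e] at this
      exact this
    exact Cop_of_isCoprime h4
  have hc : Cop (φ u) (φ thE) := by
    apply Cop_of_isCoprime
    have h5 : IsCoprime u thE := by
      obtain ⟨k, hk⟩ := h3
      exact ⟨1, -k, by linear_combination hk⟩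
    exact h5.map (φ : Eis →+* 𝓞 KK)
  have hd : φ thE ∣ φ u - 1 := by
    have := map_dvd (φ : Eis →+* 𝓞 KK) h3
    have e : ((φ : Eis →+* 𝓞 KK) (u - 1)) = φ u - 1 := by
      rw [map_sub, map_one]; rfl
    rw [e] at this
    exact this
  rw [XE, Xg_congr_left (φ u) 1 (φ thE) hc h2 hd]
  have h5 := Xg_square (1 : 𝓞 KK) (φ thE) one_ne_zero ((map_ne_zero_iff φ φ.injective).2 hth)
  rw [one_pow] at h5
  exact h5

theorem SQ_th (h : GD N σ u) : SQ φ σ u thE := by
  refine ⟨emb thE, thE, 1, 1, isUnit_one, ⟨0, by ring⟩, ?_, ?_⟩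
  · rw [← map_pow, pow_one, one_mul, pow_two]
  · rw [XE_th φ h.prim, h.fix_emb]
    simp

/-- the symbol at a prime element of odd norm -/
theorem XE_prime (b : Eis) (hb : Prime b) (h2 : ¬ b ∣ 2) (hu : ¬ b ∣ u) : XE φ u b = qr b u := by
  have hbφ : Prime (φ b) := (MulEquiv.prime_iff φ.toMulEquiv).2 hb
  have hmem : ∀ x : Eis, φ x ∈ Ideal.span {φ b} ↔ b ∣ x := by
    intro x
    rw [Ideal.mem_span_singleton]
    exact map_dvd_iff φ.toMulEquiv
  let v : HeightOneSpectrum (𝓞 KK) := ⟨Ideal.span {φ b},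
    (Ideal.span_singleton_prime hbφ.ne_zero).2 hbφ, by
      rw [Ne, Ideal.span_singleton_eq_bot]
      exact hbφ.ne_zero⟩
  have h2v : (2 : 𝓞 KK) ∉ v.asIdeal := by
    intro h
    apply h2
    rw [← hmem]
    have e : φ 2 = 2 := map_ofNat _ 2
    rw [e]
    exact h
  have huv : φ u ∉ v.asIdeal := fun h => hu ((hmem u).1 h)
  have h1 : XE φ u b = symb ((φ u : 𝓞 KK) : KK) v := cm_prime _ v
  rw [h1, symb_odd (φ u) v h2v huv, qr, if_neg hu]
  congr 1
  apply propext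
  constructor
  · rintro ⟨s, hs⟩
    obtain ⟨x, rfl⟩ := Ideal.Quotient.mk_surjective s
    obtain ⟨x, rfl⟩ := φ.surjective x
    refine ⟨x, ?_⟩
    rw [← hmem, map_sub, map_pow]
    change _ ∈ v.asIdeal
    rw [← Ideal.Quotient.eq_zero_iff_mem, map_sub, map_pow, hs, pow_two, sub_self]
  · rintro ⟨x, hx⟩
    refine ⟨Ideal.Quotient.mk _ (φ x), ?_⟩
    rw [← hmem, map_sub, map_pow] at hx
    have h3 := (Ideal.Quotient.eq_zero_iff_mem (I := v.asIdeal)).2 hx
    rw [map_sub, map_pow] at h3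
    linear_combination -h3

theorem SQ_prime (h : GD N σ u) (hN : N ≠ 0) (b : Eis) (p : ℕ) [hp : Fact p.Prime]
    (hb : b.norm = p) (hp2 : p ≠ 2) (hbN : b ∣ (N : Eis)) : SQ φ σ u b := by
  have hbp : Prime b := by
    have hirr : Irreducible b := by
      refine ⟨fun hu => ?_, fun x y hxy => ?_⟩
      · have h1 := (eis_isUnit_iff b).1 hu
        rw [hb] at h1
        exact hp.out.ne_one (by exact_mod_cast h1)
      · have h1 := congrArg QuadraticAlgebra.norm hxy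
        rw [map_mul, hb] at h1
        rw [eis_isUnit_iff, eis_isUnit_iff]
        have hx := norm_nonneg' x
        have hy := norm_nonneg' y
        obtain ⟨m, hm⟩ := Int.eq_ofNat_of_zero_le hx
        obtain ⟨n, hn⟩ := Int.eq_ofNat_of_zero_le hy
        rw [hm, hn] at h1 ⊢
        have h2 : p = m * n := by exact_mod_cast h1
        rcases (Nat.prime_mul_iff.1 (h2 ▸ hp.out)) with ⟨-, h3⟩ | ⟨-, h3⟩
        · right; exact_mod_cast h3
        · left; exact_mod_cast h3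
    haveI := eis_isDomain
    haveI := eis_pid
    exact hirr.prime
  have hb2 : ¬ b ∣ 2 := by
    intro h2
    have h3 := map_dvd QuadraticAlgebra.norm h2
    rw [hb] at h3
    have h4 : (2 : Eis).norm = 4 := by
      rw [norm_eq]
      simp [QuadraticAlgebra.re_ofNat, QuadraticAlgebra.im_ofNat]
    rw [h4] at h3
    have h5 : p ∣ 2 ^ 2 := by exact_mod_cast h3
    exact hp2 ((Nat.prime_dvd_prime_iff_eq hp.out Nat.prime_two).1 (hp.out.dvd_of_dvd_pow h5))
  have hbu : ¬ b ∣ u := by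
    intro h2
    obtain ⟨x, y, hxy⟩ := h.cop
    apply hbp.not_unit
    rw [isUnit_iff_dvd_one, ← hxy]
    exact dvd_add (h2.mul_left _) (hbN.mul_left _)
  obtain ⟨s, hs, h1, h2⟩ := hg_four b p hb hp2
  refine ⟨q1Y b p * emb b ^ 2, b ^ 2, s, 3 * (p / 2), hs, ?_, ?_, ?_⟩
  · obtain ⟨k, hk⟩ := h2
    exact ⟨b * k, by linear_combination b * hk⟩
  · rw [map_mul emb (s * thE ^ (3 * (p / 2))), ← h1]
    ring
  · rw [map_mul, map_pow, h.fix_emb, XE_prime φ b hbp hb2 hbu]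
    have h3 := q2_gal b p hb hp2 (σ : ℂ →+* ℂ) u (h.act_dvd hN b hbN)
    have h3' : σ (q1Y b p) = (qr b u : ℂ) * q1Y b p := h3
    rw [h3']
    ring

/-- every element with the right prime factors -/
theorem SQ_all (h : GD N σ u) (hN : N ≠ 0) (a : Eis) (ha : a ≠ 0)
    (H : ∀ b : Eis, Prime b → b ∣ a → Associated b thE ∨
      (b ∣ (N : Eis) ∧ ∃ p : ℕ, p.Prime ∧ p ≠ 2 ∧ b.norm = p)) : SQ φ σ u a := by
  haveI := eis_isDomain
  haveI := eis_pid
  induction a using UniqueFactorizationMonoid.induction_on_prime with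
  | h₁ => exact absurd rfl ha
  | h₂ x hx => exact SQ_unit φ σ u x hx
  | h₃ a b ha0 hb ih =>
    have h1 := ih ha0 fun c hc hca => H c hc (hca.mul_left _)
    refine SQ.mul φ σ u ?_ h1
    rcases H b hb (dvd_mul_right _ _) with h2 | ⟨h2, p, hp, hp2, hn⟩
    · obtain ⟨v, hv⟩ := h2.symm
      rw [← hv]
      exact SQ.mul φ σ u (SQ_th φ h) (SQ_unit φ σ u _ (Units.isUnit _))
    · haveI : Fact p.Prime := ⟨hp⟩
      exact SQ_prime φ h hN b p hn hp2 h2

/-- **the Galois action on the square root of `a ≡ 1 mod 4`** -/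
theorem SQ.final {a : Eis} (h : GD N σ u) (ha0 : a ≠ 0) (ha : (4 : Eis) ∣ a - 1)
    (hS : SQ φ σ u a) (ρ : ℂ) (hρ : ρ ^ 2 = emb a) : σ ρ = (XE φ u a : ℂ) * ρ := by
  haveI := eis_isDomain
  obtain ⟨y, t, ε, j, h1, h2, h3, h4⟩ := hS
  have h5 : (4 : Eis) ∣ ε * thE ^ j - t ^ 2 := by
    obtain ⟨x, hx⟩ := h2
    obtain ⟨z, hz⟩ := ha
    exact ⟨x - ε * thE ^ j * z, by linear_combination hx - ε * thE ^ j * hz⟩
  obtain ⟨r, hr⟩ := unit_th_square ε t h1 j h5
  have hth : thE ≠ 0 := fun h => emb_thE_ne (by rw [h, map_zero])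
  have hr0 : r ≠ 0 := by
    rintro rfl
    rw [zero_pow two_ne_zero] at hr
    rcases mul_eq_zero.1 hr with h6 | h6
    · exact h1.ne_zero h6
    · exact pow_ne_zero _ hth h6
  have hrC : emb r ≠ 0 := emb_ne hr0
  have h6 : (y - emb r * ρ) * (y + emb r * ρ) = 0 := by
    rw [hr, map_mul, map_pow] at h3
    linear_combination h3 - emb r ^ 2 * hρ
  rcases mul_eq_zero.1 h6 with h7 | h7
  · have h8 : y = emb r * ρ := by linear_combination h7
    rw [h8, map_mul, h.fix_emb] at h4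
    apply mul_left_cancel₀ hrC
    rw [h4]
    ring
  · have h8 : y = -(emb r * ρ) := by linear_combination h7
    rw [h8, map_neg, map_mul, h.fix_emb] at h4
    apply mul_left_cancel₀ hrC
    linear_combination -h4

end

end NAB
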