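import Pool.Agent.MP_9ab903_nt.NAB.HG4
import Pool.Agent.MP_9ab903_nt.NAB.B0

set_option autoImplicit false

open NumberField IsDedekindDomain UniqueFactorizationMonoid
open CM27 CMT CF
open scoped ComplexConjugate Classical

namespace NAB

/-! ## [NAB-HG5] the Galois action on the square root of the norm of `d` (file NAB/HG5.lean) -/

theorem thE_prime : Prime thE := by
  refine a3_prime_of_norm 3 Nat.prime_three thE ?_
  rw [norm_eq, thE]
  norm_num

section
variable (F : IntermediateField ℚ ℂ) [NumberField F] (hw : w ∈ F)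
  (h : Module.finrank ℚ F = 2 ^ (1 + 1))
  (d : 𝓞 F) (hd : d ≠ 0) (h4 : (4 : 𝓞 F) ∣ d - 1)
  (hgood : ∀ v : HeightOneSpectrum (𝓞 F), d ∈ v.asIdeal → (3 : 𝓞 F) ∈ v.asIdeal ∨
      ∃ p : ℕ, GoodPrime p ∧ (p : 𝓞 F) ∈ v.asIdeal)
include h hd h4 hgood

theorem hg_norm (s2 : F →+* ℂ) (hs : IsS2 F hw s2) : ∃ (φ : Eis ≃+* 𝓞 KK) (a : Eis),
    emb a = ((d : F) : ℂ) * s2 (d : F) ∧ a ≠ 0 ∧ (4 : Eis) ∣ a - 1 ∧
    (∀ b : Eis, Prime b → b ∣ a → Associated b thE ∨ ∃ p : ℕ, p.Prime ∧ p ≠ 2 ∧ b.norm = p) ∧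
    ∀ u : Eis, u ≠ 0 → IsCoprime u a →
      chi (d : F) (Ideal.span {eF F hw u}) = XE φ u a := by
  letI := algK F hw
  haveI : Algebra.IsQuadraticExtension KK F :=
    { finrank_eq_two' := by
        have h1 := d2_finrank F hw
        rw [h] at h1
        omega }
  haveI := eis_isDomain
  haveI := KK_pid
  obtain ⟨φ, hφ⟩ := exists_KK
  obtain ⟨S⟩ := exists_Sig KK F
  have hio : ∀ u : Eis, io KK F (φ u) = eF F hw u := by
    intro u
    ext
    exact hφ u
  set a : Eis := φ.symm (Nm KK F d) with ha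
  have hNm : Nm KK F d = φ a := by rw [ha, φ.apply_symm_apply]
  have hemb : emb a = ((d : F) : ℂ) * s2 (d : F) := by
    rw [← hφ, ← hNm, coe_Nm]
    exact s2_norm F hw (by rw [h]; norm_num) s2 hs (d : F)
  have ha0 : a ≠ 0 := by
    intro h0
    rw [h0, map_zero] at hNm
    exact Nm_ne_zero S hd hNm
  have ha4 : (4 : Eis) ∣ a - 1 := by
    obtain ⟨c, hc⟩ := h4
    obtain ⟨t, ht⟩ := S.tr (-c)
    have h5 := Nm_one_sub S (-c) t ht
    have h6 : d = 1 - 4 * -c := by linear_combination hc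
    rw [← h6, hNm] at h5
    refine ⟨-(φ.symm (t - 4 * Nm KK F (-c))), ?_⟩
    apply φ.injective
    have e4 : φ (4 : Eis) = 4 := map_ofNat _ 4
    rw [map_sub, h5, map_one, map_mul, e4, map_neg, φ.apply_symm_apply]
    ring
  refine ⟨φ, a, hemb, ha0, ha4, ?_, ?_⟩
  · -- the primes
    intro b hb hba
    have hbφ : Prime (φ b) := (MulEquiv.prime_iff φ.toMulEquiv).2 hb
    have hmem : ∀ x : Eis, φ x ∈ Ideal.span {φ b} ↔ b ∣ x := by
      intro x
      rw [Ideal.mem_span_singleton]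
      exact map_dvd_iff φ.toMulEquiv
    let v : HeightOneSpectrum (𝓞 KK) := ⟨Ideal.span {φ b},
      (Ideal.span_singleton_prime hbφ.ne_zero).2 hbφ, by
        rw [Ne, Ideal.span_singleton_eq_bot]
        exact hbφ.ne_zero⟩
    obtain ⟨w', hw'⟩ := exists_above (F := F) v
    have hNv : Nm KK F d ∈ (und KK w').asIdeal := by
      rw [hw', hNm]
      exact (hmem a).2 hba
    obtain ⟨v', hv', hdv'⟩ : ∃ v' : HeightOneSpectrum (𝓞 F), und KK v' = v ∧ d ∈ v'.asIdeal := by
      rcases S.mem_or w' d hNv with h5 | h5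
      · exact ⟨w', hw', h5⟩
      · exact ⟨S.sw w', by rw [S.und_sw, hw'], h5⟩
    have hund : ∀ x : Eis, eF F hw x ∈ v'.asIdeal → b ∣ x := by
      intro x hx
      rw [← hmem]
      change φ x ∈ v.asIdeal
      rw [← hv', mem_und]
      change io KK F (φ x) ∈ v'.asIdeal
      rw [hio]
      exact hx
    rcases hgood v' hdv' with h5 | ⟨p, hp, h5⟩
    · left
      have h6 : b ∣ 3 := by
        apply hund
        have : eF F hw 3 = 3 := map_ofNat _ 3
        rw [this]
        exact h5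
      have h7 : b ∣ thE * thE := by
        have h8 : thE * thE = -3 := by rw [← pow_two, thE_sq]
        rw [h8]
        exact h6.neg_right
      have h9 : b ∣ thE := (hb.dvd_or_dvd h7).elim id id
      exact hb.irreducible.associated_of_dvd thE_prime.irreducible h9
    · right
      have h6 : b ∣ (p : Eis) := by
        apply hund
        rw [map_natCast]
        exact h5
      obtain ⟨c, -, hc⟩ := exists_primary_prime p hp.1 hp.2.1
      have hcs : c * star c = (p : Eis) := by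
        rw [a3_mul_star, hc]
        simp
      rw [← hcs] at h6
      have hn : b.norm = p := by
        have key : ∀ e : Eis, e.norm = p → b ∣ e → b.norm = p := by
          intro e he hbe
          obtain ⟨x, hx⟩ := hb.irreducible.associated_of_dvd
            (a3_prime_of_norm p hp.1 e he).irreducible hbe
          rw [← he, ← hx, map_mul, (eis_isUnit_iff _).1 x.isUnit, mul_one]
        rcases hb.dvd_or_dvd h6 with h7 | h7
        · exact key c hc h7
        · exact key (star c) (by rw [QuadraticAlgebra.norm_star, hc]) h7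
      refine ⟨p, hp.1, ?_, hn⟩
      rintro rfl
      have := hp.2.1
      omega
  · -- the symbol
    intro u hu0 hu
    have hφu : φ u ≠ 0 := (map_ne_zero_iff φ φ.injective).2 hu0
    have hc : Cop (φ a) (φ u) := (Cop_of_isCoprime (hu.map (φ : Eis →+* 𝓞 KK))).symm
    have hadm : Adm d := adm_of_four h4
    have hcd : Cop d (io KK F (φ u)) := by
      intro v hdv huv
      have h5 : Nm KK F d ∈ (und KK v).asIdeal := S.norm_mem v d hdv
      rw [hNm] at h5
      exact hc (und KK v) h5 huv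
    have h1 := Xg_io_right S d (φ u) hφu hcd (Or.inr hadm)
    rw [hio] at h1
    change chi (d : F) (Ideal.span {eF F hw u}) = _ at h1
    rw [h1, hNm, XE]
    exact RA_KK (φ a) (φ u) ((map_ne_zero_iff φ φ.injective).2 ha0) hφu hc
      (by rw [← hNm]; exact hadm.norm S) (Or.inl trivial)

/-- **`hgal`** -/
theorem hgal_main (s2 : F →+* ℂ) (hs : IsS2 F hw s2) : ∃ N0 : ℕ, Odd N0 ∧
    ∀ N : ℕ, Odd N → 3 ∣ N → N0 ∣ N → ∀ σ : ℂ ≃+* ℂ, σ w = w → ∀ u : Eis,
      IsCoprime u (N : Eis) → (3 : Eis) ∣ u - 1 →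
      (∀ c : Eis, ptMap (σ : ℂ →+* ℂ) (pt (emb c / N)) = pt (emb (c * u) / N)) →
      ∀ ρ : ℂ, ρ ^ 2 = ((d : F) : ℂ) * s2 (d : F) →
        σ ρ = (chi (d : F) (Ideal.span {eF F hw u}) : ℂ) * ρ := by
  obtain ⟨φ, a, h1, h2, h3, h5, h6⟩ := hg_norm F hw h d hd h4 hgood s2 hs
  haveI := eis_isDomain
  have hodd : Odd a.norm := by
    apply eis_odd_norm
    intro h2a
    have h7 : (2 : Eis) ∣ 1 := by
      have h8 : (2 : Eis) ∣ a - 1 := (Dvd.intro (2 : Eis) (by norm_num)).trans h3
      have := dvd_sub h2a h8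
      rwa [sub_sub_cancel] at this
    have h9 := map_dvd QuadraticAlgebra.norm h7
    have e4 : (2 : Eis).norm = 4 := by
      rw [norm_eq]
      simp [QuadraticAlgebra.re_ofNat, QuadraticAlgebra.im_ofNat]
    rw [e4, map_one] at h9
    norm_num at h9
  refine ⟨a.norm.natAbs, Int.natAbs_odd.2 hodd, fun N hN h3N hN0 σ hσ u hu hu3 hact ρ hρ => ?_⟩
  have hNne : N ≠ 0 := by
    rintro rfl
    exact absurd hN (by decide)
  have haN : a ∣ (N : Eis) := by
    have h7 : a ∣ ((a.norm.natAbs : ℕ) : Eis) := by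
      refine ⟨star a, ?_⟩
      rw [a3_mul_star]
      have h8 : ((a.norm.natAbs : ℕ) : Eis) = ((a.norm.natAbs : ℤ) : Eis) := by simp
      rw [h8, Int.natAbs_of_nonneg (norm_nonneg' a)]
    exact h7.trans (Nat.cast_dvd_cast hN0)
  have hG : GD N σ u := ⟨hσ, hu, hu3, hact⟩
  have hua : IsCoprime u a := hu.of_isCoprime_of_dvd_right haN
  have hu0 : u ≠ 0 := by
    rintro rfl
    have h7 := (eis_isUnit_iff _).1 (isCoprime_zero_left.1 hu)
    have h8 : ((N : Eis)).norm = (N : ℤ) ^ 2 := by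
      rw [norm_eq]; simp
    rw [h8] at h7
    have h9 : N = 1 := by
      have : N ^ 2 = 1 := by exact_mod_cast h7
      exact (Nat.pow_eq_one.1 this).resolve_right (by norm_num)
    rw [h9] at h3N
    norm_num at h3N
  rw [h6 u hu0 hua]
  refine SQ.final φ hG h2 h3 (SQ_all φ hG hNne a h2 fun b hb hba => ?_) ρ (by rw [hρ, h1])
  rcases h5 b hb hba with h7 | h7
  · exact Or.inl h7
  · exact Or.inr ⟨hba.trans haN, h7⟩

end

end NAB
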