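import Pool.Agent.MP_9ab903_nt.NAB.Alg
import Pool.Agent.MP_9ab903_nt.CF3.Fin4

set_option autoImplicit false

open NumberField IsDedekindDomain Polynomial
open CM27 CMT CF
open scoped Classical

namespace NAB

/-! ## [NAB-LL] the field `L = F(√d)` (file NAB/LL.lean) -/

/-- the discriminant is odd -/
theorem odd_discr_unr (F : IntermediateField ℚ ℂ) [NumberField F] (hw : w ∈ F)
    (hu : letI := algK F hw; Unr KK F) : Odd (discr F).natAbs := by
  have hd : ¬ (2 : ℤ) ∣ discr F := by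
    rw [not_dvd_discr_iff_forall_mem F (𝓞 F) Int.prime_two]
    intro P hP h2
    have h2 : (2 : 𝓞 F) ∈ P := by exact_mod_cast h2
    have hP0 : P ≠ ⊥ := by
      rintro rfl
      rw [Ideal.mem_bot] at h2
      exact two_ne_zero h2
    refine Ideal.ramificationIdx_eq_one_iff.1 ?_
    letI := algK F hw
    haveI := d2_finite F hw
    have hv2 : (2 : 𝓞 KK) ∈ P.under (𝓞 KK) := by
      change algebraMap (𝓞 KK) (𝓞 F) 2 ∈ P
      rwa [map_ofNat]
    have hvp : (P.under (𝓞 KK)).IsPrime := inferInstance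
    have hone : ∀ n : ℕ, ¬ 2 ∣ n → ((n : 𝓞 KK)) ∉ P.under (𝓞 KK) := by
      intro n hn h
      apply hvp.ne_top
      rw [Ideal.eq_top_iff_one]
      obtain ⟨k, hk⟩ : ∃ k, n = 2 * k + 1 := ⟨n / 2, by omega⟩
      have h3 : (1 : 𝓞 KK) = (n : 𝓞 KK) - 2 * (k : 𝓞 KK) := by
        rw [hk]; push_cast; ring
      rw [h3]
      exact Ideal.sub_mem _ h (Ideal.mul_mem_right _ _ hv2)
    have hv0 : P.under (𝓞 KK) ≠ ⊥ := by
      intro h
      rw [h, Ideal.mem_bot] at hv2
      exact two_ne_zero hv2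
    have h3 : (3 : 𝓞 KK) ∉ P.under (𝓞 KK) := by
      have := hone 3 (by norm_num)
      exact_mod_cast this
    have hSv : ∀ p : ℕ, GoodPrime p → (p : 𝓞 KK) ∉ P.under (𝓞 KK) := by
      intro p hp
      refine hone p ?_
      intro h5
      have h6 := (Nat.prime_dvd_prime_iff_eq Nat.prime_two hp.1).1 h5
      have h7 := hp.2.1
      omega
    have h4 := hu ⟨P.under (𝓞 KK), hvp, hv0⟩ ⟨P, hP, hP0⟩ ⟨rfl⟩ h3 hSv
    have h5 := d1_KK _ hvp hv2
    have h6 := Ideal.ramificationIdx_tower (R := ℤ) (P.under (𝓞 KK)) P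
    rw [h6, h5, one_mul]
    exact h4
  rw [← Nat.not_even_iff_odd]
  intro hev
  exact hd (Int.natCast_dvd.2 hev.two_dvd)

theorem three_sub (L M : Type) [Field L] [NumberField L] [Field M] [NumberField M] [Algebra L M]
    (h : ∀ Q : HeightOneSpectrum (𝓞 M), (3 : 𝓞 M) ∈ Q.asIdeal →
      ∃ k : ℕ, ¬ 3 ∣ k ∧ Q.intValuation (3 : 𝓞 M) = WithZero.exp (-(k : ℤ)))
    (P : HeightOneSpectrum (𝓞 L)) (hP : (3 : 𝓞 L) ∈ P.asIdeal) :
    ∃ k : ℕ, ¬ 3 ∣ k ∧ P.intValuation (3 : 𝓞 L) = WithZero.exp (-(k : ℤ)) := by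
  have := P.isMaximal
  obtain ⟨Q, hQm, hQ⟩ := Ideal.exists_maximal_ideal_liesOver_of_isIntegral
    (S := 𝓞 M) P.asIdeal
  have hQ0 : Q ≠ ⊥ := Ideal.ne_bot_of_liesOver_of_ne_bot P.ne_bot Q
  let W : HeightOneSpectrum (𝓞 M) := ⟨Q, hQm.isPrime, hQ0⟩
  have hWP : W.asIdeal.LiesOver P.asIdeal := hQ
  have h3 : (3 : 𝓞 M) ∈ W.asIdeal := by
    have h4 : algebraMap (𝓞 L) (𝓞 M) 3 ∈ W.asIdeal := by
      rw [hWP.over, Ideal.under_def, Ideal.mem_comap] at hP
      exact hP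
    rwa [map_ofNat] at h4
  obtain ⟨k, hk, hkv⟩ := h W h3
  have hval := HeightOneSpectrum.intValuation_liesOver P W (3 : 𝓞 L)
  have e3 : algebraMap (𝓞 L) (𝓞 M) 3 = 3 := by rw [map_ofNat]
  rw [e3, hkv] at hval
  have h30 : (3 : 𝓞 L) ≠ 0 := by norm_num
  set m : ℕ := (Associates.mk P.asIdeal).count (Associates.mk (Ideal.span {(3 : 𝓞 L)})).factors
    with hm
  have hPv : P.intValuation (3 : 𝓞 L) = WithZero.exp (-(m : ℤ)) := by
    rw [HeightOneSpectrum.intValuation_if_neg P h30]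
  refine ⟨m, ?_, hPv⟩
  rw [hPv, ← WithZero.exp_nsmul, WithZero.exp_inj] at hval
  intro h5
  apply hk
  set r := P.asIdeal.ramificationIdx' W.asIdeal with hr
  have h6 : (k : ℤ) = r * m := by
    rw [nsmul_eq_mul] at hval
    linear_combination hval
  have h7 : k = r * m := by exact_mod_cast h6
  rw [h7]
  exact h5.mul_left r

section
variable (S : Finset Eis) (hS : ∀ b ∈ S, GoodEis b) (F : IntermediateField ℚ ℂ) [NumberField F]
  (hw : w ∈ F) (hF : F ≤ LS S) (n : ℕ) (h : Module.finrank ℚ F = 2 ^ (n + 1))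
  (d : 𝓞 F) (h4 : (4 : 𝓞 F) ∣ d - 1)
  (hgood : ∀ v : HeightOneSpectrum (𝓞 F), d ∈ v.asIdeal → (3 : 𝓞 F) ∈ v.asIdeal ∨
      ∃ p : ℕ, GoodPrime p ∧ (p : 𝓞 F) ∈ v.asIdeal)
  (L : IntermediateField ℚ ℂ) [NumberField L] (hFL : F ≤ L)
  (hL : Module.finrank ℚ L = 2 ^ (n + 1 + 1)) (δ : ℂ) (hδ : δ ^ 2 = ((d : F) : ℂ)) (hδF : δ ∉ F)
  (hδL : δ ∈ L)
include hS hw hF h h4 hgood hFL hL hδ hδF hδL

/-- the Galois closure of `L` -/
theorem exists_M : letI := algK L (hFL hw); ∃ (M : Type) (_ : Field M) (_ : NumberField M)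
    (_ : Algebra L M) (_ : Algebra KK M) (_ : IsScalarTower KK L M) (_ : IsGalois KK M) (m : ℕ),
    Module.finrank KK M = 2 ^ m ∧ Unr KK M := by
  letI := algK F hw
  obtain ⟨hG, hdeg⟩ := galois_F S hS F hw hF n h
  haveI := hG
  have hu : Unr KK F := unr_F S hS F hw hF n h
  obtain ⟨M, _, _, _, _, _, _, m, hm, huM, δ', hδ'⟩ := exists_closure KK F n hdeg hu d h4 hgood
  letI algFL : Algebra F L := (IntermediateField.inclusion hFL).toRingHom.toAlgebra
  have h2 : Module.finrank F L = 2 := finrank_FF F n h L hFL hL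
  set D : L := ⟨δ, hδL⟩ with hD
  have hD2 : D ^ 2 = algebraMap F L (d : F) := by
    ext
    exact hδ
  -- `L → M`
  obtain ⟨φ⟩ : Nonempty (L →ₐ[F] M) := by
    have hs : IsSimpleOrder (IntermediateField F L) :=
      IntermediateField.isSimpleOrder_of_finrank_prime F L (by rw [h2]; exact Nat.prime_two)
    have hDint : IsIntegral F D := ⟨X ^ 2 - C (d : F), monic_X_pow_sub_C _ two_ne_zero, by
      rw [eval₂_sub, eval₂_pow, eval₂_X, eval₂_C, hD2, sub_self]⟩
    have htop : IntermediateField.adjoin F {D} = ⊤ := by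
      refine (hs.eq_bot_or_eq_top _).resolve_left fun h5 => ?_
      have h6 : D ∈ (⊥ : IntermediateField F L) := by
        rw [← h5]
        exact IntermediateField.mem_adjoin_simple_self F D
      obtain ⟨x, hx⟩ := IntermediateField.mem_bot.1 h6
      apply hδF
      have h7 : ((algebraMap F L x : L) : ℂ) = δ := by rw [hx]
      rw [← h7]
      exact x.2
    refine IntermediateField.nonempty_algHom_of_adjoin_splits (S := {D}) ?_ htop
    rintro s rfl
    refine ⟨hDint, ?_⟩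
    have h5 : minpoly F D ∣ X ^ 2 - C (d : F) := minpoly.dvd F D (by
      rw [map_sub, map_pow, aeval_X, aeval_C, hD2, sub_self])
    have h6 : (X ^ 2 - C (d : F)).map (algebraMap F M) = (X - C δ') * (X + C δ') := by
      rw [Polynomial.map_sub, Polynomial.map_pow, map_X, map_C, ← hδ', C_pow]
      ring
    have h7 : ((X ^ 2 - C (d : F)).map (algebraMap F M)).Splits := by
      rw [h6]
      exact (Splits.X_sub_C _).mul (Splits.X_add_C _)
    have h8 : (X ^ 2 - C (d : F)).map (algebraMap F M) ≠ 0 :=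
      (Polynomial.map_ne_zero_iff (algebraMap F M).injective).2 (X_pow_sub_C_ne_zero two_pos _)
    exact h7.of_dvd h8 (Polynomial.map_dvd _ h5)
  letI algLM : Algebra L M := φ.toRingHom.toAlgebra
  letI algKL := algK L (hFL hw)
  haveI : IsScalarTower KK F L := IsScalarTower.of_algebraMap_eq fun x => rfl
  haveI : IsScalarTower F L M := IsScalarTower.of_algebraMap_eq fun x => (φ.commutes x).symm
  haveI : IsScalarTower KK L M := IsScalarTower.of_algebraMap_eq fun x => by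
    rw [IsScalarTower.algebraMap_apply KK F M, IsScalarTower.algebraMap_apply KK F L,
      IsScalarTower.algebraMap_apply F L M]
  exact ⟨M, inferInstance, inferInstance, inferInstance, inferInstance, inferInstance,
    inferInstance, m, hm, huM⟩

theorem points_L : Finite (E L).toAffine.Point ∧ Odd (Nat.card (E L).toAffine.Point) ∧
    ∀ (k : ℕ) (x : SBSD.Sha (E L)), 2 ^ k • x = 0 → x = 0 := by
  letI := algK L (hFL hw)
  obtain ⟨M, _, _, _, _, _, _, m, hm, huM⟩ :=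
    exists_M S hS F hw hF n h d h4 hgood L hFL hL δ hδ hδF hδL
  have he : 4 * (0 : L) + 1 = ((1 : 𝓞 L) : L) ^ 3 := by
    rw [mul_zero, zero_add]
    norm_cast
  have h4' : (4 : 𝓞 L) ∣ 1 - 1 := by rw [sub_self]; exact dvd_zero 4
  have hone : (1 : M) ^ 2 = algebraMap L M ((1 : 𝓞 L) : L) := by
    rw [one_pow]
    norm_cast
  exact ⟨sub_finite KK L M m hm huM 1 one_ne_zero 1 hone h4' 0 he,
    sub_odd KK L M m hm huM 1 one_ne_zero 1 hone h4' 0 he,
    fun k x => sub_sha KK L M m hm huM 1 one_ne_zero 1 hone 0 he k x⟩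

theorem odd_discr_L : Odd (discr L).natAbs := by
  refine odd_discr_unr L (hFL hw) ?_
  letI := algK L (hFL hw)
  obtain ⟨M, _, _, _, _, _, _, m, hm, huM⟩ :=
    exists_M S hS F hw hF n h d h4 hgood L hFL hL δ hδ hδF hδL
  exact unr_sub KK L M huM

theorem three_L (v : HeightOneSpectrum (𝓞 L)) (hv : (3 : 𝓞 L) ∈ v.asIdeal) :
    ∃ (k : ℕ) (ϖ u : v.adicCompletionIntegers L), ¬ 3 ∣ k ∧ Irreducible ϖ ∧ IsUnit u ∧
      (3 : v.adicCompletionIntegers L) = u * ϖ ^ k := by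
  letI := algK L (hFL hw)
  obtain ⟨M, _, _, _, _, _, _, m, hm, huM⟩ :=
    exists_M S hS F hw hF n h d h4 hgood L hFL hL δ hδ hδF hδL
  obtain ⟨k, hk, hkv⟩ := three_sub L M (fun Q hQ => l0_core KK M m hm Q hQ) v hv
  obtain ⟨ϖ, u, h1, h2, h3⟩ := l0_comp L v k hkv
  exact ⟨k, ϖ, u, hk, h1, h2, h3⟩

end

end NAB
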