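import Pool.Agent.MP_9ab903_nt.NAB.EDefs
import Pool.Agent.MP_dfae13_nt.T.TC3

set_option autoImplicit false

open NumberField IsDedekindDomain
open CM27 CMT
open scoped Classical

namespace NAB

/-! ## [NAB-QR1] the local symbol (file NAB/QR1.lean) -/

section
variable {F : Type} [Field F] [NumberField F]

theorem val_unit (a : 𝓞 F) (v : HeightOneSpectrum (𝓞 F)) (ha : a ∉ v.asIdeal) :
    v.valuation F (a : F) = 1 := by
  have h7 := (v.valuation_le_one (K := F) a).eq_or_lt
  rcases h7 with h8 | h8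
  · exact h8
  · exact absurd ((v.valuation_lt_one_iff_mem a).1 h8) ha

theorem val_lt_iff (a : 𝓞 F) (v : HeightOneSpectrum (𝓞 F)) :
    v.valuation F (a : F) < 1 ↔ a ∈ v.asIdeal := v.valuation_lt_one_iff_mem a

/-- approximation by integers -/
theorem approx_int (x : F) (v : HeightOneSpectrum (𝓞 F)) (hx : v.valuation F x ≤ 1) :
    ∃ r : 𝓞 F, v.valuation F (x - r) < 1 := by
  have hval : ∀ y : F, Valued.v (algebraMap F (v.adicCompletion F) y) = v.valuation F y :=
    fun y => HeightOneSpectrum.valuedAdicCompletion_eq_valuation' v y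
  have h1 : Valued.v (algebraMap F (v.adicCompletion F) x) ≤ (1 : WithZero (Multiplicative ℤ)) := by
    rw [hval]
    exact hx
  obtain ⟨r, hr⟩ := c3_approx F v ⟨algebraMap F (v.adicCompletion F) x, h1⟩
  refine ⟨r, ?_⟩
  have h2 : ((((⟨algebraMap F (v.adicCompletion F) x, h1⟩ : v.adicCompletionIntegers F) -
      algebraMap (𝓞 F) (v.adicCompletionIntegers F) r : v.adicCompletionIntegers F)) :
      v.adicCompletion F) = algebraMap F (v.adicCompletion F) (x - r) := by
    rw [map_sub]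
    rfl
  rw [h2, hval] at hr
  exact hr

theorem symb_mul_sq (a u : F) (hu : u ≠ 0) (v : HeightOneSpectrum (𝓞 F)) :
    symb (a * u ^ 2) v = symb a v := by
  have hu' : v.valuation F u ≠ 0 := (Valuation.ne_zero_iff _).2 hu
  have h1 : IsSquare (v.valuation F (a * u ^ 2)) ↔ IsSquare (v.valuation F a) := by
    rw [map_mul, map_pow]
    constructor
    · rintro ⟨b, hb⟩
      refine ⟨b * (v.valuation F u)⁻¹, ?_⟩
      rw [mul_mul_mul_comm, ← hb]
      field_simp
    · rintro ⟨b, hb⟩
      exact ⟨b * v.valuation F u, by rw [hb, pow_two]; exact mul_mul_mul_comm _ _ _ _⟩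
  have h2 : (∃ x : F, v.valuation F (x ^ 2 - a * u ^ 2) < v.valuation F (4 * (a * u ^ 2))) ↔
      ∃ x : F, v.valuation F (x ^ 2 - a) < v.valuation F (4 * a) := by
    have hpos : 0 < v.valuation F u ^ 2 := pow_pos (zero_lt_iff.2 hu') 2
    constructor
    · rintro ⟨x, hx⟩
      refine ⟨x * u⁻¹, ?_⟩
      have e1 : x ^ 2 - a * u ^ 2 = ((x * u⁻¹) ^ 2 - a) * u ^ 2 := by field_simp
      have e2 : 4 * (a * u ^ 2) = (4 * a) * u ^ 2 := by ring
      rw [e1, e2, map_mul, map_mul _ (4 * a), map_pow] at hx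
      exact lt_of_mul_lt_mul_right' hx
    · rintro ⟨x, hx⟩
      refine ⟨x * u, ?_⟩
      have e1 : (x * u) ^ 2 - a * u ^ 2 = (x ^ 2 - a) * u ^ 2 := by ring
      have e2 : 4 * (a * u ^ 2) = (4 * a) * u ^ 2 := by ring
      rw [e1, e2, map_mul, map_mul _ (4 * a), map_pow]
      exact mul_lt_mul_of_pos_right hx hpos
  rw [symb, symb]
  by_cases h3 : IsSquare (v.valuation F a)
  · rw [if_pos h3, if_pos (h1.2 h3)]
    by_cases h4 : ∃ x : F, v.valuation F (x ^ 2 - a) < v.valuation F (4 * a)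
    · rw [if_pos h4, if_pos (h2.2 h4)]
    · rw [if_neg h4, if_neg (fun h5 => h4 (h2.1 h5))]
  · rw [if_neg h3, if_neg (fun h5 => h3 (h1.1 h5))]

theorem symb_unit (a : 𝓞 F) (v : HeightOneSpectrum (𝓞 F)) (ha : a ∉ v.asIdeal) :
    symb (a : F) v = if ∃ x : F, v.valuation F (x ^ 2 - a) < v.valuation F 4 then 1 else -1 := by
  have h1 := val_unit a v ha
  rw [symb, if_pos (by rw [h1]; exact ⟨1, (mul_one 1).symm⟩), map_mul, h1, mul_one]

/-- odd places -/
theorem symb_odd (a : 𝓞 F) (v : HeightOneSpectrum (𝓞 F)) (h2 : (2 : 𝓞 F) ∉ v.asIdeal)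
    (ha : a ∉ v.asIdeal) :
    symb (a : F) v = if IsSquare (Ideal.Quotient.mk v.asIdeal a) then 1 else -1 := by
  have h4 : (4 : 𝓞 F) ∉ v.asIdeal := by
    intro h
    have h5 : (4 : 𝓞 F) = 2 * 2 := by norm_num
    rw [h5] at h
    rcases v.isPrime.mem_or_mem h with h6 | h6 <;> exact h2 h6
  have h4v : v.valuation F (4 : F) = 1 := by
    exact val_unit (4 : 𝓞 F) v h4
  rw [symb_unit a v ha, h4v]
  congr 1
  apply propext
  constructor
  · rintro ⟨x, hx⟩
    have hx1 : v.valuation F x ≤ 1 := by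
      by_contra hlt
      rw [not_le] at hlt
      have h5 : v.valuation F (x ^ 2) = v.valuation F x ^ 2 := map_pow _ _ _
      have h6 : 1 < v.valuation F (x ^ 2) := by
        rw [h5]
        exact one_lt_pow₀ hlt two_ne_zero
      have h7 : v.valuation F (x ^ 2 - a) = v.valuation F (x ^ 2) := by
        apply Valuation.map_sub_eq_of_lt_left
        rw [val_unit a v ha]
        exact h6
      rw [h7] at hx
      exact lt_asymm hx h6
    obtain ⟨r, hr⟩ := approx_int x v hx1
    refine ⟨Ideal.Quotient.mk v.asIdeal r, ?_⟩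
    rw [← map_mul, Ideal.Quotient.eq, ← val_lt_iff]
    have h5 : ((a - r * r : 𝓞 F) : F) = -(x ^ 2 - a) + (x - r) * (x + r) := by
      push_cast
      ring
    rw [h5]
    refine (v.valuation F).map_add_lt ?_ ?_
    · rw [Valuation.map_neg]
      exact hx
    · rw [map_mul]
      have h6 : v.valuation F (x + r) ≤ 1 := (v.valuation F).map_add_le hx1 (v.valuation_le_one r)
      exact mul_lt_one_of_nonneg_of_lt_one_left zero_le hr h6
  · rintro ⟨b, hb⟩
    obtain ⟨r, rfl⟩ := Ideal.Quotient.mk_surjective b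
    rw [← map_mul, Ideal.Quotient.eq] at hb
    refine ⟨(r : F), ?_⟩
    have h5 : (r : F) ^ 2 - a = -((a - r * r : 𝓞 F) : F) := by
      push_cast
      ring
    rw [h5, Valuation.map_neg, val_lt_iff]
    exact hb

/-- even places -/
theorem symb_even (c : 𝓞 F) (v : HeightOneSpectrum (𝓞 F)) (h2 : (2 : 𝓞 F) ∈ v.asIdeal) :
    symb ((1 - 4 * c : 𝓞 F) : F) v = if ∃ s : 𝓞 F, s ^ 2 + s + c ∈ v.asIdeal then 1 else -1 := by
  have h4 : (4 : 𝓞 F) ∈ v.asIdeal := by
    have h5 : (4 : 𝓞 F) = 2 * 2 := by norm_num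
    rw [h5]
    exact Ideal.mul_mem_left _ _ h2
  have ha : (1 - 4 * c : 𝓞 F) ∉ v.asIdeal := by
    intro h
    apply v.isPrime.ne_top
    rw [Ideal.eq_top_iff_one]
    have h5 : (1 : 𝓞 F) = (1 - 4 * c) + c * 4 := by ring
    rw [h5]
    exact Ideal.add_mem _ h (Ideal.mul_mem_left _ _ h4)
  have h20 : v.valuation F (2 : F) ≠ 0 := (Valuation.ne_zero_iff _).2 two_ne_zero
  have h40 : v.valuation F (4 : F) = v.valuation F 2 * v.valuation F 2 := by
    rw [← map_mul]
    norm_num
  rw [symb_unit _ v ha]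
  congr 1
  apply propext
  constructor
  · rintro ⟨x, hx⟩
    -- `x = 1 + 2 s`
    set s : F := (x - 1) / 2 with hs
    have hxs : x = 1 + 2 * s := by rw [hs]; ring
    have h5 : x ^ 2 - ((1 - 4 * c : 𝓞 F) : F) = 4 * (s ^ 2 + s + c) := by
      have e4 : ((1 - 4 * c : 𝓞 F) : F) = 1 - 4 * (c : F) := rfl
      rw [hxs, e4]
      ring
    rw [h5, map_mul] at hx
    have h6 : v.valuation F (s ^ 2 + s + c) < 1 := by
      by_contra hge
      rw [not_lt] at hge
      have : v.valuation F 4 * 1 ≤ v.valuation F 4 * v.valuation F (s ^ 2 + s + c) :=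
        mul_le_mul_right hge _
      rw [mul_one] at this
      exact absurd hx (not_lt.2 this)
    have hs1 : v.valuation F s ≤ 1 := by
      by_contra hlt
      rw [not_le] at hlt
      have h7 : v.valuation F (s ^ 2) = v.valuation F s ^ 2 := map_pow _ _ _
      have h8 : v.valuation F s < v.valuation F (s ^ 2) := by
        rw [h7, pow_two]
        exact lt_mul_of_one_lt_left (zero_lt_one.trans hlt) hlt
      have h9 : v.valuation F (s ^ 2 + (s + c)) = v.valuation F (s ^ 2) := by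
        apply Valuation.map_add_eq_of_lt_left
        exact (v.valuation F).map_add_lt h8
          (lt_of_le_of_lt (v.valuation_le_one c) (hlt.trans h8))
      rw [add_assoc, h9] at h6
      exact lt_asymm h6 (hlt.trans h8)
    obtain ⟨r, hr⟩ := approx_int s v hs1
    refine ⟨r, ?_⟩
    rw [← val_lt_iff]
    have h7 : ((r ^ 2 + r + c : 𝓞 F) : F) = (s ^ 2 + s + c) - (s - r) * (s + r + 1) := by
      push_cast
      ring
    rw [h7]
    refine (v.valuation F).map_sub_lt h6 ?_
    rw [map_mul]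
    have h8 : v.valuation F (s + r + 1) ≤ 1 :=
      (v.valuation F).map_add_le ((v.valuation F).map_add_le hs1 (v.valuation_le_one r))
        (map_one (v.valuation F)).le
    exact mul_lt_one_of_nonneg_of_lt_one_left zero_le hr h8
  · rintro ⟨s, hs⟩
    refine ⟨1 + 2 * (s : F), ?_⟩
    have h5 : (1 + 2 * (s : F)) ^ 2 - ((1 - 4 * c : 𝓞 F) : F) =
        4 * ((s ^ 2 + s + c : 𝓞 F) : F) := by
      have e4 : ((1 - 4 * c : 𝓞 F) : F) = 1 - 4 * (c : F) := rfl
      rw [e4]
      push_cast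
      ring
    rw [h5, map_mul]
    have h6 := (val_lt_iff (s ^ 2 + s + c) v).2 hs
    have h7 : 0 < v.valuation F (4 : F) := by
      rw [h40]
      exact mul_pos (zero_lt_iff.2 h20) (zero_lt_iff.2 h20)
    calc v.valuation F 4 * v.valuation F ((s ^ 2 + s + c : 𝓞 F) : F) < v.valuation F 4 * 1 :=
        mul_lt_mul_of_pos_left h6 h7
      _ = _ := mul_one _

end

end NAB
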