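import Pool.Agent.MP_9ab903_nt.NAB.QR9

set_option autoImplicit false

open NumberField IsDedekindDomain UniqueFactorizationMonoid
open CM27 CMT
open scoped Classical

namespace NAB

/-! ## [NAB-QR10] the symbol in a quadratic extension, global base change (file NAB/QR10.lean) -/

section
variable {k F : Type} [Field k] [NumberField k] [Field F] [NumberField F] [Algebra k F]
  [Algebra.IsQuadraticExtension k F]

theorem chi_prime (d : F) (w : HeightOneSpectrum (𝓞 F)) : chi d w.asIdeal = symb d w := by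
  rw [chi, cm_prime]

theorem chi_mul (d : F) (I J : Ideal (𝓞 F)) : chi d (I * J) = chi d I * chi d J := by
  rw [chi, chi, chi, cm_mul]

theorem chi_top (d : F) : chi d 1 = 1 := by rw [chi, cm_one]

/-- base change, elements of the base field above -/
theorem chi_io (S : Sig k F) (x : 𝓞 k) (I : Ideal (𝓞 F)) (hI : I ≠ 0)
    (H : ∀ w : HeightOneSpectrum (𝓞 F), w.asIdeal ∣ I → io k F x ∉ w.asIdeal ∧
      ((2 : 𝓞 F) ∈ w.asIdeal → Adm x)) :
    chi ((io k F x : 𝓞 F) : F) I = chi (x : k) (Ideal.relNorm (𝓞 k) I) := by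
  refine ideal_induction (P := fun I => (∀ w : HeightOneSpectrum (𝓞 F), w.asIdeal ∣ I →
    io k F x ∉ w.asIdeal ∧ ((2 : 𝓞 F) ∈ w.asIdeal → Adm x)) →
    chi ((io k F x : 𝓞 F) : F) I = chi (x : k) (Ideal.relNorm (𝓞 k) I)) ?_ ?_ I hI H
  · intro _
    rw [map_one, chi_top, chi_top]
  · intro w I _ ih H
    have h1 := ih fun u hu => H u (hu.mul_left _)
    obtain ⟨hxw, hadm⟩ := H w (dvd_mul_right _ _)
    have hx' : x ∉ (und k w).asIdeal := hxw
    rw [chi_mul, map_mul, chi_mul, h1, chi_prime]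
    congr 1
    rcases prime_data S w with ⟨h2, h3, -⟩ | ⟨h2, h3, h4⟩
    · rw [h3, chi_prime]
      exact symb_io_one w h2 x hx' hadm
    · rw [h3, pow_two, chi_mul, chi_prime, symb_sq x (und k w) hx']
      rw [symb_two S w h2 h4 (io k F x) hxw (fun h5 => (hadm h5).io)]
      have h5 : Nm k F (io k F x) = x ^ 2 := by
        apply io_injective (F := F)
        rw [S.norm, S.fix, map_pow]
        ring
      have hx0 : x ≠ 0 := fun h6 => hx' (by rw [h6]; exact Ideal.zero_mem _)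
      rw [h5]
      exact symb_square x hx0 _

theorem chi_map_prime (S : Sig k F) (β : 𝓞 F) (p : HeightOneSpectrum (𝓞 k))
    (hN : Nm k F β ∉ p.asIdeal) (hadm : (2 : 𝓞 k) ∈ p.asIdeal → Adm β) :
    chi (β : F) (Ideal.map (algebraMap (𝓞 k) (𝓞 F)) p.asIdeal) =
      symb ((Nm k F β : 𝓞 k) : k) p := by
  obtain ⟨w, rfl⟩ := exists_above (F := F) p
  have hβ : β ∉ w.asIdeal := fun h => hN (S.norm_mem w β h)
  have hβ' : β ∉ (S.sw w).asIdeal := fun h => hN (by
    have := S.norm_mem (S.sw w) β h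
    rwa [S.und_sw] at this)
  have hadm' : (2 : 𝓞 F) ∈ w.asIdeal → Adm β := fun h => hadm ((two_und w).2 h)
  rcases prime_data S w with ⟨h2, h3, h4⟩ | ⟨h2, h3, h4⟩
  · rw [h4, chi_mul, chi_prime, chi_prime, symb_sg S w β hβ' hadm',
      ← symb_mul β (S.sg β) w hβ hβ' (fun h5 => ⟨hadm' h5, (hadm' h5).sg S⟩), ← S.norm]
    exact symb_io_one w h2 _ hN (fun h5 => (hadm' h5).norm S)
  · rw [h4, chi_prime]
    exact symb_two S w h2 h4 β hβ hadm'

/-- base change, elements of the base field below -/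
theorem chi_map (S : Sig k F) (β : 𝓞 F) (J : Ideal (𝓞 k)) (hJ : J ≠ 0)
    (H : ∀ p : HeightOneSpectrum (𝓞 k), p.asIdeal ∣ J → Nm k F β ∉ p.asIdeal ∧
      ((2 : 𝓞 k) ∈ p.asIdeal → Adm β)) :
    chi (β : F) (Ideal.map (algebraMap (𝓞 k) (𝓞 F)) J) = chi ((Nm k F β : 𝓞 k) : k) J := by
  refine ideal_induction (P := fun J => (∀ p : HeightOneSpectrum (𝓞 k), p.asIdeal ∣ J →
    Nm k F β ∉ p.asIdeal ∧ ((2 : 𝓞 k) ∈ p.asIdeal → Adm β)) →
    chi (β : F) (Ideal.map (algebraMap (𝓞 k) (𝓞 F)) J) = chi ((Nm k F β : 𝓞 k) : k) J)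
      ?_ ?_ J hJ H
  · intro _
    rw [Ideal.one_eq_top, Ideal.map_top, ← Ideal.one_eq_top, ← Ideal.one_eq_top, chi_top, chi_top]
  · intro p J _ ih H
    have h1 := ih fun u hu => H u (hu.mul_left _)
    obtain ⟨hN, hadm⟩ := H p (dvd_mul_right _ _)
    rw [Ideal.map_mul, chi_mul, chi_mul, h1, chi_prime]
    congr 1
    exact chi_map_prime S β p hN hadm

theorem Xg_io_left (S : Sig k F) (x : 𝓞 k) (β : 𝓞 F) (hβ : β ≠ 0) (hc : Cop (io k F x) β)
    (h : Cop β 2 ∨ Adm x) : Xg (io k F x) β = Xg x (Nm k F β) := by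
  rw [Xg, Xg, ← relNorm_span]
  refine chi_io S x _ (span_ne_zero hβ) fun w hw => ?_
  have hw' := dvd_span.1 hw
  refine ⟨hc.symm w hw', fun h2 => ?_⟩
  rcases h with h | h
  · exact absurd h2 (h w hw')
  · exact h

/-- coprimality of the norm -/
theorem cop_Nm (S : Sig k F) (β : 𝓞 F) (x : 𝓞 k) (hc : Cop β (io k F x)) : Cop (Nm k F β) x := by
  intro p hp hx
  obtain ⟨w, rfl⟩ := exists_above (F := F) p
  rcases S.mem_or w β hp with h | h
  · exact hc w h hx
  · refine hc (S.sw w) h ?_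
    rw [S.mem_sw, S.fix]
    exact hx

theorem Cop.of_io {x y : 𝓞 k} (h : Cop (io k F x) (io k F y)) : Cop x y := by
  intro p hx hy
  obtain ⟨w, rfl⟩ := exists_above (F := F) p
  exact h w hx hy

theorem Cop.io {x y : 𝓞 k} (h : Cop x y) : Cop (io k F x) (io k F y) :=
  fun w hx hy => h (und k w) hx hy

theorem Xg_io_right (S : Sig k F) (β : 𝓞 F) (x : 𝓞 k) (hx : x ≠ 0) (hc : Cop β (io k F x))
    (h : Cop x 2 ∨ Adm β) : Xg β (io k F x) = Xg (Nm k F β) x := by
  have h1 : Ideal.span {io k F x} = Ideal.map (algebraMap (𝓞 k) (𝓞 F)) (Ideal.span {x}) := by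
    rw [Ideal.map_span, Set.image_singleton]
  rw [Xg, Xg, h1]
  refine chi_map S β _ (span_ne_zero hx) fun p hp => ?_
  have hp' := dvd_span.1 hp
  refine ⟨(cop_Nm S β x hc).symm p hp', fun h2 => ?_⟩
  rcases h with h | h
  · exact absurd h2 (h p hp')
  · exact h

end

end NAB
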