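import Pool.Agent.MP_9ab903_nt.NAB.QR10

set_option autoImplicit false

open NumberField IsDedekindDomain UniqueFactorizationMonoid
open CM27 CMT
open scoped Classical

namespace NAB

/-! ## [NAB-QR11] coordinates in a quadratic extension (file NAB/QR11.lean) -/

section
variable {k F : Type} [Field k] [NumberField k] [Field F] [NumberField F] [Algebra k F]

/-- coordinates -/
structure Crd (k F : Type) [Field k] [NumberField k] [Field F] [NumberField F] [Algebra k F] where
  th : 𝓞 F
  surj : ∀ β : 𝓞 F, ∃ a b : 𝓞 k, β = io k F a + io k F b * th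
  inj : ∀ a b : 𝓞 k, io k F a + io k F b * th = 0 → a = 0 ∧ b = 0

/-- elements without common prime divisors are coprime -/
theorem isCoprime_of_cop (x y : 𝓞 k) (h : ∀ p : HeightOneSpectrum (𝓞 k), x ∈ p.asIdeal →
    y ∈ p.asIdeal → False) (h0 : ¬ (x = 0 ∧ y = 0)) : IsCoprime x y := by
  rw [← Ideal.isCoprime_span_singleton_iff, Ideal.isCoprime_iff_sup_eq]
  by_contra hne
  obtain ⟨P, hPm, hP⟩ := Ideal.exists_le_maximal _ hne
  have hx : x ∈ P := hP (Ideal.mem_sup_left (Ideal.mem_span_singleton_self x))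
  have hy : y ∈ P := hP (Ideal.mem_sup_right (Ideal.mem_span_singleton_self y))
  have hP0 : P ≠ ⊥ := by
    rintro rfl
    exact h0 ⟨hx, hy⟩
  exact h ⟨P, hPm.isPrime, hP0⟩ hx hy

theorem exists_Crd [Algebra.IsQuadraticExtension k F] [IsPrincipalIdealRing (𝓞 k)] :
    Nonempty (Crd k F) := by
  haveI : Module.Finite (𝓞 k) (𝓞 F) := inferInstance
  haveI : Module.IsTorsionFree (𝓞 k) (𝓞 F) := inferInstance
  haveI : Module.Free (𝓞 k) (𝓞 F) := inferInstance
  let b := Module.finBasisOfFinrankEq (𝓞 k) (𝓞 F) (finrank_int (k := k) (F := F))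
  have hrep : ∀ β : 𝓞 F, β = io k F (b.repr β 0) * b 0 + io k F (b.repr β 1) * b 1 := by
    intro β
    have h1 := (b.sum_repr β).symm
    rw [Fin.sum_univ_two, Algebra.smul_def, Algebra.smul_def] at h1
    exact h1
  set x := b.repr 1 0 with hx
  set y := b.repr 1 1 with hy
  have h1 : (1 : 𝓞 F) = io k F x * b 0 + io k F y * b 1 := hrep 1
  have hcop : IsCoprime x y := by
    refine isCoprime_of_cop x y ?_ ?_
    · intro p hxp hyp
      obtain ⟨w, rfl⟩ := exists_above (F := F) p
      apply w.isPrime.ne_top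
      rw [Ideal.eq_top_iff_one, h1]
      exact Ideal.add_mem _ (Ideal.mul_mem_right _ _ hxp) (Ideal.mul_mem_right _ _ hyp)
    · rintro ⟨h2, h3⟩
      rw [h2, h3, map_zero, zero_mul, zero_mul, add_zero] at h1
      exact one_ne_zero h1
  obtain ⟨u, v, huv⟩ := hcop
  have hli : ∀ p q : 𝓞 k, io k F p * b 0 + io k F q * b 1 = 0 → p = 0 ∧ q = 0 := by
    intro p q hpq
    have h2 := Fintype.linearIndependent_iff.1 b.linearIndependent ![p, q] (by
      rw [Fin.sum_univ_two, Algebra.smul_def, Algebra.smul_def]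
      exact hpq)
    exact ⟨h2 0, h2 1⟩
  refine ⟨⟨-io k F v * b 0 + io k F u * b 1, ?_, ?_⟩⟩
  · intro β
    set p := b.repr β 0 with hp
    set q := b.repr β 1 with hq
    refine ⟨u * p + v * q, x * q - y * p, ?_⟩
    have huv' : io k F u * io k F x + io k F v * io k F y = 1 := by
      rw [← map_mul, ← map_mul, ← map_add, huv, map_one]
    have h2 : β = io k F p * b 0 + io k F q * b 1 := hrep β
    have h3 : β = io k F (u * p + v * q) * 1 + io k F (x * q - y * p) *
        (-io k F v * b 0 + io k F u * b 1) := by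
      conv_rhs => rw [h1]
      rw [map_add, map_sub, map_mul, map_mul, map_mul, map_mul]
      linear_combination h2 - (io k F p * b 0 + io k F q * b 1) * huv'
    rw [mul_one] at h3
    exact h3
  · intro a c hac
    have h2 : io k F (a * x - c * v) * b 0 + io k F (a * y + c * u) * b 1 = 0 := by
      rw [map_sub, map_add, map_mul, map_mul, map_mul, map_mul]
      linear_combination hac - io k F a * h1
    obtain ⟨h3, h4⟩ := hli _ _ h2
    have ha : a = 0 := by linear_combination -a * huv + u * h3 + v * h4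
    have hc : c = 0 := by linear_combination -c * huv - y * h3 + x * h4
    exact ⟨ha, hc⟩

variable (C : Crd k F)

theorem Crd.unique {a b a' b' : 𝓞 k}
    (h : io k F a + io k F b * C.th = io k F a' + io k F b' * C.th) : a = a' ∧ b = b' := by
  have h1 : io k F (a - a') + io k F (b - b') * C.th = 0 := by
    rw [map_sub, map_sub]
    linear_combination h
  obtain ⟨h2, h3⟩ := C.inj _ _ h1
  exact ⟨sub_eq_zero.1 h2, sub_eq_zero.1 h3⟩

/-- the norm form -/
theorem Crd.norm (S : Sig k F) : ∃ t n : 𝓞 k, C.th ^ 2 = io k F t * C.th - io k F n ∧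
    ∀ a b : 𝓞 k, Nm k F (io k F a + io k F b * C.th) = a ^ 2 + t * a * b + n * b ^ 2 := by
  obtain ⟨t, ht⟩ := S.tr C.th
  have hn := S.norm C.th
  refine ⟨t, Nm k F C.th, ?_, ?_⟩
  · rw [hn, ht]
    ring
  · intro a b
    apply io_injective (F := F)
    rw [S.norm, map_add, map_mul, S.fix, S.fix, map_add, map_add, map_mul, map_mul, map_mul,
      map_pow, map_pow, hn, ht]
    ring

/-- primitive elements -/
theorem Crd.content [IsPrincipalIdealRing (𝓞 k)] (β : 𝓞 F) (hβ : β ≠ 0) : ∃ r a b : 𝓞 k,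
    r ≠ 0 ∧ β = io k F r * (io k F a + io k F b * C.th) ∧ IsCoprime a b := by
  obtain ⟨a, b, hab⟩ := C.surj β
  set I : Ideal (𝓞 k) := Ideal.span {a, b} with hI
  obtain ⟨r, hr⟩ := IsPrincipalIdealRing.principal I
  have hr' : I = Ideal.span {r} := hr
  have ha : a ∈ Ideal.span {r} := by
    rw [← hr']
    exact Ideal.subset_span (by simp)
  have hb : b ∈ Ideal.span {r} := by
    rw [← hr']
    exact Ideal.subset_span (by simp)
  have hri : r ∈ I := by
    rw [hr']
    exact Ideal.mem_span_singleton_self r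
  obtain ⟨u, v, huv⟩ := Ideal.mem_span_pair.1 hri
  obtain ⟨a', ha'⟩ := Ideal.mem_span_singleton.1 ha
  obtain ⟨b', hb'⟩ := Ideal.mem_span_singleton.1 hb
  have hr0 : r ≠ 0 := by
    rintro rfl
    rw [zero_mul] at ha' hb'
    apply hβ
    rw [hab, ha', hb', map_zero, zero_mul, add_zero]
  refine ⟨r, a', b', hr0, ?_, u, v, ?_⟩
  · rw [hab]
    conv_lhs => rw [ha', hb']
    rw [map_mul, map_mul]
    ring
  · apply mul_left_cancel₀ hr0
    conv_rhs => rw [mul_one, ← huv, ha', hb']
    ring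

theorem Crd.not_mem {a b : 𝓞 k} (hab : IsCoprime a b) (w : HeightOneSpectrum (𝓞 F))
    (hw : io k F a + io k F b * C.th ∈ w.asIdeal) : io k F b ∉ w.asIdeal := by
  intro hb
  have ha : io k F a ∈ w.asIdeal := by
    have h1 : io k F a = (io k F a + io k F b * C.th) - C.th * io k F b := by ring
    rw [h1]
    exact Ideal.sub_mem _ hw (Ideal.mul_mem_left _ _ hb)
  obtain ⟨u, v, huv⟩ := hab
  apply w.isPrime.ne_top
  rw [Ideal.eq_top_iff_one, ← map_one (io k F), ← huv, map_add, map_mul, map_mul]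
  exact Ideal.add_mem _ (Ideal.mul_mem_left _ _ ha) (Ideal.mul_mem_left _ _ hb)

/-- the coordinates of the elements of `p 𝓞 F` -/
theorem Crd.coord_mem [IsPrincipalIdealRing (𝓞 k)] (p : Ideal (𝓞 k)) (a b : 𝓞 k)
    (h : io k F a + io k F b * C.th ∈ Ideal.map (algebraMap (𝓞 k) (𝓞 F)) p) : a ∈ p ∧ b ∈ p := by
  obtain ⟨π, hπ⟩ := IsPrincipalIdealRing.principal p
  have hπ' : p = Ideal.span {π} := hπ
  rw [hπ', Ideal.map_span, Set.image_singleton, Ideal.mem_span_singleton] at h
  obtain ⟨β, hβ⟩ := h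
  obtain ⟨a', b', hab⟩ := C.surj β
  have h1 : io k F a + io k F b * C.th = io k F (π * a') + io k F (π * b') * C.th := by
    rw [hβ, hab, map_mul, map_mul]
    ring
  obtain ⟨h2, h3⟩ := C.unique h1
  rw [hπ', Ideal.mem_span_singleton, Ideal.mem_span_singleton]
  exact ⟨⟨a', h2⟩, ⟨b', h3⟩⟩

end

end NAB
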