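import Pool.Agent.MP_9ab903_nt.NAB.QR11

set_option autoImplicit false

open NumberField IsDedekindDomain UniqueFactorizationMonoid
open CM27 CMT
open scoped Classical

namespace NAB

/-! ## [NAB-QR12] auxiliary choices (file NAB/QR12.lean) -/

section
variable {F : Type} [Field F] [NumberField F]

theorem isCoprime_of_not_le (I : Ideal (𝓞 F)) (w : HeightOneSpectrum (𝓞 F))
    (h : ¬ I ≤ w.asIdeal) : IsCoprime I w.asIdeal := by
  rw [Ideal.isCoprime_iff_sup_eq]
  by_contra hne
  apply h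
  rw [w.isMaximal.eq_of_le hne le_sup_right]
  exact le_sup_left

/-- the primes dividing `M` -/
theorem finite_primes (M : 𝓞 F) (hM : M ≠ 0) : {w : HeightOneSpectrum (𝓞 F) | M ∈ w.asIdeal}.Finite := by
  have h1 := Ideal.finite_factors (I := Ideal.span {M}) (span_ne_zero hM)
  refine h1.subset fun w hw => ?_
  exact dvd_span.2 hw

/-- lifting a residue class prime to `N` to an element prime to `M` -/
theorem exists_lift (r N M : 𝓞 F) (hr : Cop r N) (hM : M ≠ 0) : ∃ s : 𝓞 F, N ∣ s - r ∧ Cop s M := by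
  set T : Finset (HeightOneSpectrum (𝓞 F)) :=
    (finite_primes M hM).toFinset.filter (fun w => N ∉ w.asIdeal) with hT
  set J : Ideal (𝓞 F) := ∏ w ∈ T, w.asIdeal with hJ
  have hc : IsCoprime (Ideal.span {N}) J := by
    refine IsCoprime.prod_right fun w hw => isCoprime_of_not_le _ w ?_
    rw [Ideal.span_singleton_le_iff_mem]
    exact (Finset.mem_filter.1 hw).2
  rw [Ideal.isCoprime_iff_exists] at hc
  obtain ⟨n, hn, j, hj, hnj⟩ := hc
  refine ⟨r * j + n, ?_, ?_⟩
  · rw [← Ideal.mem_span_singleton]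
    have h1 : r * j + n - r = n * (1 - r) := by linear_combination r * hnj
    rw [h1]
    exact Ideal.mul_mem_right _ _ hn
  · intro w hs hMw
    by_cases hN : N ∈ w.asIdeal
    · apply hr w ?_ hN
      have h1 : r = (r * j + n) - n * (1 - r) := by linear_combination -r * hnj
      have h2 : n ∈ w.asIdeal := by
        obtain ⟨n', hn'⟩ := Ideal.mem_span_singleton.1 hn
        rw [hn']
        exact Ideal.mul_mem_right _ _ hN
      rw [h1]
      exact Ideal.sub_mem _ hs (Ideal.mul_mem_right _ _ h2)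
    · have hw : w ∈ T := by
        rw [hT, Finset.mem_filter, Set.Finite.mem_toFinset]
        exact ⟨hMw, hN⟩
      have hjw : j ∈ w.asIdeal := by
        have h1 : J ≤ w.asIdeal := by
          rw [← Ideal.dvd_iff_le]
          exact Finset.dvd_prod_of_mem _ hw
        exact h1 hj
      apply w.isPrime.ne_top
      rw [Ideal.eq_top_iff_one]
      have h1 : (1 : 𝓞 F) = (r * j + n) - j * (r - 1) := by linear_combination -hnj
      rw [h1]
      exact Ideal.sub_mem _ hs (Ideal.mul_mem_right _ _ hjw)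

/-- inverses modulo `4` -/
theorem exists_inv_four (r : 𝓞 F) (hr : Cop r 2) : ∃ u : 𝓞 F, (4 : 𝓞 F) ∣ r * u - 1 := by
  have h1 : IsCoprime r (4 : 𝓞 F) := by
    refine isCoprime_of_cop r 4 ?_ ?_
    · intro p h1 h2
      have h3 : (2 : 𝓞 F) ∈ p.asIdeal := by
        have h5 : (4 : 𝓞 F) = 2 * 2 := by norm_num
        rw [h5] at h2
        rcases p.isPrime.mem_or_mem h2 with h6 | h6 <;> exact h6
      exact hr p h1 h3
    · rintro ⟨-, h2⟩
      norm_num at h2
  obtain ⟨u, v, huv⟩ := h1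
  exact ⟨u, -v, by linear_combination huv⟩

end

section
variable {k F : Type} [Field k] [NumberField k] [Field F] [NumberField F] [Algebra k F]
  [Algebra.IsQuadraticExtension k F] [IsPrincipalIdealRing (𝓞 k)] (S : Sig k F) (C : Crd k F)

include S in
/-- squares modulo an even prime -/
theorem squares_mod_two (hU : ∀ w : HeightOneSpectrum (𝓞 F), (2 : 𝓞 F) ∈ w.asIdeal →
      (2 : 𝓞 F) ∉ w.asIdeal ^ 2) (p : HeightOneSpectrum (𝓞 k)) (h2 : (2 : 𝓞 k) ∈ p.asIdeal)
    (z : 𝓞 F) : ∃ x : 𝓞 F, x ^ 2 - z ∈ Ideal.map (algebraMap (𝓞 k) (𝓞 F)) p.asIdeal := by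
  set I := Ideal.map (algebraMap (𝓞 k) (𝓞 F)) p.asIdeal with hI
  have h2I : (2 : 𝓞 F) ∈ I := by
    have := Ideal.mem_map_of_mem (algebraMap (𝓞 k) (𝓞 F)) h2
    rwa [map_ofNat] at this
  have hI0 : I ≠ ⊥ := by
    intro h
    rw [h, Ideal.mem_bot] at h2I
    exact two_ne_zero h2I
  -- `𝓞 F / I` is reduced
  have hred : ∀ x : 𝓞 F, x ^ 2 ∈ I → x ∈ I := by
    intro x hx
    obtain ⟨w, hw⟩ := exists_above (F := F) p
    have h2w : (2 : 𝓞 F) ∈ w.asIdeal := by
      rw [← two_und (k := k), hw]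
      exact h2
    rcases prime_data S w with ⟨-, -, h3⟩ | ⟨-, -, h3⟩
    · rw [hw] at h3
      have hne : S.sw w ≠ w := by
        intro h4
        rw [h4, ← pow_two] at h3
        apply hU w h2w
        rw [← h3]
        exact h2I
      rw [hI, h3] at hx
      have h4 : x ∈ w.asIdeal := w.isPrime.mem_of_pow_mem 2 (Ideal.mul_le_left hx)
      have h5 : x ∈ (S.sw w).asIdeal := (S.sw w).isPrime.mem_of_pow_mem 2 (Ideal.mul_le_right hx)
      have h6 : IsCoprime w.asIdeal (S.sw w).asIdeal := by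
        refine isCoprime_of_not_le _ _ fun h7 => hne ?_
        exact HeightOneSpectrum.ext (w.isMaximal.eq_of_le (S.sw w).isPrime.ne_top h7).symm
      rw [hI, h3, Ideal.mul_eq_inf_of_isCoprime h6]
      exact ⟨h4, h5⟩
    · rw [hw] at h3
      rw [hI, h3] at hx ⊢
      exact w.isPrime.mem_of_pow_mem 2 hx
  haveI hfin : Finite (𝓞 F ⧸ I) := Ideal.finiteQuotientOfFreeOfNeBot _ hI0
  have hinj : Function.Injective (fun y : 𝓞 F ⧸ I => y ^ 2) := by
    intro a b hab
    obtain ⟨a, rfl⟩ := Ideal.Quotient.mk_surjective a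
    obtain ⟨b, rfl⟩ := Ideal.Quotient.mk_surjective b
    simp only at hab
    rw [← map_pow, ← map_pow, Ideal.Quotient.eq] at hab
    rw [Ideal.Quotient.eq]
    apply hred
    have h3 : (a - b) ^ 2 = (a ^ 2 - b ^ 2) - (b * (a - b)) * 2 := by ring
    rw [h3]
    exact Ideal.sub_mem _ hab (Ideal.mul_mem_left _ _ h2I)
  have hsurj := Finite.surjective_of_injective hinj
  obtain ⟨y, hy⟩ := hsurj (Ideal.Quotient.mk I z)
  obtain ⟨x, rfl⟩ := Ideal.Quotient.mk_surjective y
  simp only at hy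
  rw [← map_pow, Ideal.Quotient.eq] at hy
  exact ⟨x, hy⟩

include S in
/-- local choice -/
theorem exists_local (hU : ∀ w : HeightOneSpectrum (𝓞 F), (2 : 𝓞 F) ∈ w.asIdeal →
      (2 : 𝓞 F) ∉ w.asIdeal ^ 2) (p : HeightOneSpectrum (𝓞 k)) (c e : 𝓞 k) (hce : IsCoprime c e) :
    ∃ x : 𝓞 F, ∀ a b : 𝓞 k, (io k F c + io k F e * C.th) * x ^ 2 = io k F a + io k F b * C.th →
      b ∉ p.asIdeal := by
  set g := io k F c + io k F e * C.th with hg
  by_contra hcon
  push Not at hcon
  -- the second coordinate of `g x²` is always in `p`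
  have hsq : ∀ x : 𝓞 F, ∀ a b : 𝓞 k, g * x ^ 2 = io k F a + io k F b * C.th → b ∈ p.asIdeal := by
    intro x a b hab
    obtain ⟨a', b', h1, h2⟩ := hcon x
    have h3 := C.unique (hab.symm.trans h1)
    rw [h3.2]
    exact h2
  -- the second coordinate of `g z` is always in `p`
  have hall : ∀ z : 𝓞 F, ∀ a b : 𝓞 k, g * z = io k F a + io k F b * C.th → b ∈ p.asIdeal := by
    intro z a b hab
    by_cases h2 : (2 : 𝓞 k) ∈ p.asIdeal
    · obtain ⟨x, hx⟩ := squares_mod_two S hU p h2 z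
      obtain ⟨a', b', hab'⟩ := C.surj (g * x ^ 2)
      have h3 := hsq x a' b' hab'
      have h4 : io k F (a' - a) + io k F (b' - b) * C.th ∈
          Ideal.map (algebraMap (𝓞 k) (𝓞 F)) p.asIdeal := by
        have h5 : io k F (a' - a) + io k F (b' - b) * C.th = g * (x ^ 2 - z) := by
          rw [map_sub, map_sub]
          linear_combination hab - hab'
        rw [h5]
        exact Ideal.mul_mem_left _ _ hx
      have h5 := (C.coord_mem _ _ _ h4).2
      have h6 : b = b' - (b' - b) := by ring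
      rw [h6]
      exact Ideal.sub_mem _ h3 h5
    · obtain ⟨a₁, b₁, h1⟩ := C.surj (g * (z + 1) ^ 2)
      obtain ⟨a₂, b₂, h3⟩ := C.surj (g * z ^ 2)
      obtain ⟨a₃, b₃, h4⟩ := C.surj (g * 1 ^ 2)
      have m1 := hsq _ _ _ h1
      have m2 := hsq _ _ _ h3
      have m3 := hsq _ _ _ h4
      have h5 : io k F (2 * a) + io k F (2 * b) * C.th =
          io k F (a₁ - a₂ - a₃) + io k F (b₁ - b₂ - b₃) * C.th := by
        rw [map_mul, map_mul, map_ofNat, map_sub, map_sub, map_sub, map_sub]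
        linear_combination h1 - h3 - h4 - 2 * hab
      have h6 := (C.unique h5).2
      have h7 : 2 * b ∈ p.asIdeal := by
        rw [h6]
        exact Ideal.sub_mem _ (Ideal.sub_mem _ m1 m2) m3
      exact (p.isPrime.mem_or_mem h7).resolve_left h2
  have he : e ∈ p.asIdeal := hall 1 c e (by rw [mul_one])
  obtain ⟨t, n, hth, -⟩ := C.norm S
  have hc : c + t * e ∈ p.asIdeal := by
    refine hall C.th (-(n * e)) (c + t * e) ?_
    rw [hg, map_neg, map_mul, map_add, map_mul]
    linear_combination io k F e * hth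
  have hc' : c ∈ p.asIdeal := by
    have h6 : c = (c + t * e) - t * e := by ring
    rw [h6]
    exact Ideal.sub_mem _ hc (Ideal.mul_mem_left _ _ he)
  obtain ⟨u, v, huv⟩ := hce
  apply p.isPrime.ne_top
  rw [Ideal.eq_top_iff_one, ← huv]
  exact Ideal.add_mem _ (Ideal.mul_mem_left _ _ hc') (Ideal.mul_mem_left _ _ he)

include S in
/-- **The choice.** -/
theorem exists_choice (hU : ∀ w : HeightOneSpectrum (𝓞 F), (2 : 𝓞 F) ∈ w.asIdeal →
      (2 : 𝓞 F) ∉ w.asIdeal ^ 2) (c e b : 𝓞 k) (hce : IsCoprime c e) (hb : b ≠ 0) (M : 𝓞 F)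
    (hM : Cop M (io k F b)) :
    ∃ x : 𝓞 F, M ∣ x - 1 ∧ ∀ a' b' : 𝓞 k,
      (io k F c + io k F e * C.th) * x ^ 2 = io k F a' + io k F b' * C.th → Cop b' b := by
  choose f hf using fun p : HeightOneSpectrum (𝓞 k) => exists_local S C hU p c e hce
  set T : Finset (HeightOneSpectrum (𝓞 k)) := (finite_primes b hb).toFinset with hT
  set I : HeightOneSpectrum (𝓞 k) → Ideal (𝓞 F) :=
    fun p => Ideal.map (algebraMap (𝓞 k) (𝓞 F)) p.asIdeal with hI
  have hpc : ∀ p q : HeightOneSpectrum (𝓞 k), p ≠ q → IsCoprime (I p) (I q) := by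
    intro p q hpq
    have h1 : IsCoprime p.asIdeal q.asIdeal := by
      refine isCoprime_of_not_le _ _ fun h => hpq ?_
      exact HeightOneSpectrum.ext (p.isMaximal.eq_of_le q.isPrime.ne_top h)
    rw [Ideal.isCoprime_iff_sup_eq] at h1 ⊢
    rw [hI]
    simp only
    rw [← Ideal.map_sup, h1, Ideal.map_top]
  obtain ⟨x₀, hx₀⟩ : ∃ x₀ : 𝓞 F, ∀ p ∈ T, x₀ - f p ∈ I p := by
    obtain ⟨x₀, hx₀⟩ := Ideal.exists_forall_sub_mem_ideal (ι := T) (I := fun p : T => I p)
      (fun p q hpq => hpc p q fun h => hpq (Subtype.ext h)) (fun p => f p)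
    exact ⟨x₀, fun p hp => hx₀ ⟨p, hp⟩⟩
  set J : Ideal (𝓞 F) := ∏ p ∈ T, I p with hJ
  have hc : IsCoprime (Ideal.span {M}) J := by
    refine IsCoprime.prod_right fun p hp => ?_
    rw [Ideal.isCoprime_iff_sup_eq]
    by_contra hne
    obtain ⟨P, hPm, hP⟩ := Ideal.exists_le_maximal _ hne
    have h1 : M ∈ P := hP (Ideal.mem_sup_left (Ideal.mem_span_singleton_self M))
    have h2 : io k F b ∈ P := by
      apply hP
      apply Ideal.mem_sup_right
      apply Ideal.mem_map_of_mem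
      rw [hT, Set.Finite.mem_toFinset] at hp
      exact hp
    have hP0 : P ≠ ⊥ := by
      rintro rfl
      exact io_ne_zero hb h2
    exact hM ⟨P, hPm.isPrime, hP0⟩ h1 h2
  rw [Ideal.isCoprime_iff_exists] at hc
  obtain ⟨m, hm, j, hj, hmj⟩ := hc
  refine ⟨x₀ * m + j, ?_, ?_⟩
  · rw [← Ideal.mem_span_singleton]
    have h1 : x₀ * m + j - 1 = m * (x₀ - 1) := by linear_combination hmj
    rw [h1]
    exact Ideal.mul_mem_right _ _ hm
  · intro a' b' hab p hp1 hp2
    have hpT : p ∈ T := by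
      rw [hT, Set.Finite.mem_toFinset]
      exact hp2
    have hjp : j ∈ I p := by
      have h1 : J ≤ I p := by
        rw [← Ideal.dvd_iff_le]
        exact Finset.dvd_prod_of_mem _ hpT
      exact h1 hj
    set x := x₀ * m + j with hx
    have hxf : x - f p ∈ I p := by
      have h1 : x - f p = (x₀ - f p) - j * (x₀ - 1) := by
        rw [hx]
        linear_combination x₀ * hmj
      rw [h1]
      exact Ideal.sub_mem _ (hx₀ p hpT) (Ideal.mul_mem_right _ _ hjp)
    obtain ⟨a₁, b₁, h1⟩ := C.surj ((io k F c + io k F e * C.th) * (f p) ^ 2)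
    have h2 := hf p a₁ b₁ h1
    apply h2
    have h3 : io k F (a' - a₁) + io k F (b' - b₁) * C.th ∈ I p := by
      have h4 : io k F (a' - a₁) + io k F (b' - b₁) * C.th =
          ((io k F c + io k F e * C.th) * (x + f p)) * (x - f p) := by
        rw [map_sub, map_sub]
        linear_combination h1 - hab
      rw [h4]
      exact Ideal.mul_mem_left _ _ hxf
    have h4 := (C.coord_mem _ _ _ h3).2
    have h5 : b₁ = b' - (b' - b₁) := by ring
    rw [h5]
    exact Ideal.sub_mem _ hp1 h4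

end

end NAB
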