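import Pool.Agent.MP_9ab903_nt.NAB.QR12

set_option autoImplicit false

open NumberField IsDedekindDomain UniqueFactorizationMonoid
open CM27 CMT
open scoped Classical

namespace NAB

/-! ## [NAB-QR13] quadratic reciprocity in a quadratic extension, the core (file NAB/QR13.lean) -/

section
variable {F : Type} [Field F] [NumberField F]

theorem not_four_dvd_one : ¬ (4 : 𝓞 F) ∣ 1 := by
  intro h
  have h1 : IsUnit (4 : 𝓞 F) := isUnit_of_dvd_one h
  have h2 : Ideal.absNorm (Ideal.span {((4 : ℕ) : 𝓞 F)}) = 1 := by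
    rw [Ideal.absNorm_eq_one_iff, Ideal.span_singleton_eq_top]
    exact_mod_cast h1
  rw [Ideal.absNorm_span_natCast] at h2
  have h3 : 0 < Module.finrank ℤ (𝓞 F) := Module.finrank_pos
  have h4 := (Nat.pow_eq_one.1 h2)
  omega

theorem exists_even : ∃ w : HeightOneSpectrum (𝓞 F), (2 : 𝓞 F) ∈ w.asIdeal := by
  have h1 : Ideal.span {(2 : 𝓞 F)} ≠ ⊤ := by
    intro h
    rw [Ideal.span_singleton_eq_top] at h
    apply not_four_dvd_one (F := F)
    have h2 : IsUnit (4 : 𝓞 F) := by
      have h5 : (4 : 𝓞 F) = 2 * 2 := by norm_num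
      rw [h5]
      exact h.mul h
    exact h2.dvd
  obtain ⟨P, hPm, hP⟩ := Ideal.exists_le_maximal _ h1
  have h2 : (2 : 𝓞 F) ∈ P := hP (Ideal.mem_span_singleton_self 2)
  refine ⟨⟨P, hPm.isPrime, ?_⟩, h2⟩
  rintro rfl
  rw [Ideal.mem_bot] at h2
  exact two_ne_zero h2

theorem ne_zero_of_cop_two {a : 𝓞 F} (h : Cop a 2) : a ≠ 0 := by
  rintro rfl
  obtain ⟨w, hw⟩ := exists_even (F := F)
  exact h w (Ideal.zero_mem _) hw

theorem cop_two_of_four {a : 𝓞 F} (h : (4 : 𝓞 F) ∣ a - 1) : Cop a 2 := (adm_of_four h).cop_two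

theorem mul_self_cancel {x y z : ℤ} (hx : x * x = 1) (h : z = x * y) : y = x * z := by
  rw [h, ← mul_assoc, hx, one_mul]

end

section
variable {k F : Type} [Field k] [NumberField k] [Field F] [NumberField F] [Algebra k F]
  [Algebra.IsQuadraticExtension k F] [IsPrincipalIdealRing (𝓞 k)] (S : Sig k F) (C : Crd k F)
  (P : 𝓞 k → Prop)

/-- reciprocity, for pairs one of which is positive -/
def RA (k : Type) [Field k] [NumberField k] (P : 𝓞 k → Prop) : Prop :=
  ∀ q x : 𝓞 k, q ≠ 0 → x ≠ 0 → Cop q x → Adm q → (P q ∨ P x) → Xg q x = Xg x q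

variable (hRA : RA k P) (hP : ∀ β : 𝓞 F, β ≠ 0 → P (Nm k F β))
include S hRA hP

theorem lemA (α : 𝓞 F) (hα : Adm α) (r : 𝓞 k) (hr : r ≠ 0) (hc : Cop α (io k F r)) :
    Xg α (io k F r) = Xg (io k F r) α := by
  have hα0 : α ≠ 0 := ne_zero_of_cop_two hα.cop_two
  rw [Xg_io_right S α r hr hc (Or.inr hα), Xg_io_left S r α hα0 hc.symm (Or.inl hα.cop_two)]
  exact hRA _ _ (Nm_ne_zero S hα0) hr (cop_Nm S α r hc) (hα.norm S) (Or.inl (hP α hα0))

theorem lemB (q : 𝓞 k) (hq : Adm q) (g : 𝓞 F) (hg : g ≠ 0) (hc : Cop (io k F q) g) :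
    Xg (io k F q) g = Xg g (io k F q) := by
  have hq0 : q ≠ 0 := ne_zero_of_cop_two hq.cop_two
  rw [Xg_io_left S q g hg hc (Or.inr hq), Xg_io_right S g q hq0 hc.symm (Or.inl hq.cop_two)]
  exact hRA _ _ hq0 (Nm_ne_zero S hg) (cop_Nm S g q hc.symm).symm hq (Or.inr (hP g hg))

include C

/-- **The core.** -/
theorem core (s a b c e : 𝓞 k) (hab : IsCoprime a b) (hce : IsCoprime c e)
    (h4a : (4 : 𝓞 k) ∣ s * a - 1) (h4b : (4 : 𝓞 k) ∣ s * b) (hsb : Cop s b)
    (hsg : Cop (io k F s) (io k F c + io k F e * C.th))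
    (hαg : Cop (io k F a + io k F b * C.th) (io k F c + io k F e * C.th)) (heb : Cop e b)
    (hb : b ≠ 0) :
    Xg (io k F s * (io k F a + io k F b * C.th)) (io k F c + io k F e * C.th) =
      Xg (io k F c + io k F e * C.th) (io k F s * (io k F a + io k F b * C.th)) := by
  obtain ⟨t, n, hth, hnorm⟩ := C.norm S
  have c1 : ∀ w : HeightOneSpectrum (𝓞 F), io k F a + io k F b * C.th ∈ w.asIdeal →
    io k F b ∉ w.asIdeal := fun w => C.not_mem hab w
  have c2 : ∀ w : HeightOneSpectrum (𝓞 F), io k F c + io k F e * C.th ∈ w.asIdeal →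
    io k F e ∉ w.asIdeal := fun w => C.not_mem hce w
  have hNg : Nm k F (io k F c + io k F e * C.th) = c ^ 2 + t * c * e + n * e ^ 2 := hnorm c e
  set α' : 𝓞 F := io k F a + io k F b * C.th with hα'
  set g : 𝓞 F := io k F c + io k F e * C.th with hg
  -- parity
  have hs2 : Cop s 2 := (cop_two_of_four h4a).of_mul_left
  have ha2 : Cop a 2 := (cop_two_of_four h4a).of_mul_left'
  have hs0 : s ≠ 0 := ne_zero_of_cop_two hs2
  have h4b' : (4 : 𝓞 k) ∣ b := by
    have h1 : b = a * (s * b) - b * (s * a - 1) := by ring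
    rw [h1]
    exact dvd_sub (h4b.mul_left _) (h4a.mul_left _)
  have he2 : Cop e 2 := by
    intro w hew h2
    refine heb w hew ?_
    obtain ⟨b', hb'⟩ := h4b'
    rw [hb']
    exact Ideal.mul_mem_right _ _ (four_mem h2)
  have he0 : e ≠ 0 := ne_zero_of_cop_two he2
  have hg0 : g ≠ 0 := fun h => he0 (C.inj _ _ h).2
  have hα'0 : α' ≠ 0 := fun h => hb (C.inj _ _ h).2
  -- `Δ`
  set Δ : 𝓞 k := a * e - b * c with hΔ
  have hΔeq : io k F Δ = io k F e * α' - io k F b * g := by
    rw [hΔ, hα', hg, map_sub, map_mul, map_mul]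
    ring
  have hΔ2 : Cop Δ 2 := by
    intro w hw h2
    have h1 : b ∈ w.asIdeal := by
      obtain ⟨b', hb'⟩ := h4b'
      rw [hb']
      exact Ideal.mul_mem_right _ _ (four_mem h2)
    have h3 : a * e ∈ w.asIdeal := by
      have h5 : a * e = Δ + b * c := by rw [hΔ]; ring
      rw [h5]
      exact Ideal.add_mem _ hw (Ideal.mul_mem_right _ _ h1)
    rcases w.isPrime.mem_or_mem h3 with h5 | h5
    · exact ha2 w h5 h2
    · exact he2 w h5 h2
  have hΔ0 : Δ ≠ 0 := ne_zero_of_cop_two hΔ2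
  -- coprimality
  have c3 : Cop (io k F Δ) g := by
    intro w h1 h2
    have h3 : io k F e * α' ∈ w.asIdeal := by
      have h5 : io k F e * α' = io k F Δ + io k F b * g := by rw [hΔeq]; ring
      rw [h5]
      exact Ideal.add_mem _ h1 (Ideal.mul_mem_left _ _ h2)
    rcases w.isPrime.mem_or_mem h3 with h5 | h5
    · exact c2 w h2 h5
    · exact hαg w h5 h2
  have c4 : Cop (io k F Δ) α' := by
    intro w h1 h2
    have h3 : io k F b * g ∈ w.asIdeal := by
      have h5 : io k F b * g = io k F e * α' - io k F Δ := by rw [hΔeq]; ring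
      rw [h5]
      exact Ideal.sub_mem _ (Ideal.mul_mem_left _ _ h2) h1
    rcases w.isPrime.mem_or_mem h3 with h5 | h5
    · exact c1 w h2 h5
    · exact hαg w h2 h5
  have hebF : Cop (io k F e) (io k F b) := heb.io
  have c5 : Cop (io k F Δ) (io k F b) := by
    intro w h1 h2
    have h3 : io k F e * α' ∈ w.asIdeal := by
      have h5 : io k F e * α' = io k F Δ + g * io k F b := by rw [hΔeq]; ring
      rw [h5]
      exact Ideal.add_mem _ h1 (Ideal.mul_mem_left _ _ h2)
    rcases w.isPrime.mem_or_mem h3 with h5 | h5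
    · exact hebF w h5 h2
    · exact c1 w h5 h2
  have c1' : Cop (io k F b) α' := fun w h1 h2 => c1 w h2 h1
  have c2' : Cop (io k F e) g := fun w h1 h2 => c2 w h2 h1
  -- `α`
  set α : 𝓞 F := io k F s * α' with hα
  have h4α : (4 : 𝓞 F) ∣ α - 1 := by
    obtain ⟨x, hx⟩ := h4a
    obtain ⟨y, hy⟩ := h4b
    refine ⟨io k F x + io k F y * C.th, ?_⟩
    have e1 : io k F s * io k F a - 1 = 4 * io k F x := by
      have := congrArg (io k F) hx
      rwa [map_sub, map_mul, map_mul, map_one, map_ofNat] at this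
    have e2 : io k F s * io k F b = 4 * io k F y := by
      have := congrArg (io k F) hy
      rwa [map_mul, map_mul, map_ofNat] at this
    rw [hα, hα']
    linear_combination e1 + C.th * e2
  have hαA : Adm α := adm_of_four h4α
  have hα'2 : Cop α' 2 := hαA.cop_two.of_mul_left'
  have hαgc : Cop α g := hsg.mul_left hαg
  -- `Q`
  set Q : 𝓞 k := s * e * Δ with hQ
  have hQA : Adm Q := by
    obtain ⟨u, hu⟩ := exists_inv_four e he2
    have hu0 : u ≠ 0 := by
      rintro rfl
      rw [mul_zero, zero_sub, dvd_neg] at hu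
      exact not_four_dvd_one hu
    have h5 : (4 : 𝓞 k) ∣ Q * u ^ 2 - 1 := by
      have h6 : Q * u ^ 2 - 1 = (s * a - 1) * (e * u) ^ 2 + (e * u - 1) * (e * u + 1) -
          (s * b) * (e * c * u ^ 2) := by
        rw [hQ, hΔ]
        ring
      rw [h6]
      exact dvd_sub (dvd_add (h4a.mul_right _) (hu.mul_right _)) (h4b.mul_right _)
    obtain ⟨z, hz⟩ := h5
    exact ⟨u, -z, hu0, by linear_combination hz⟩
  have hQb : Cop (io k F Q) (io k F b) := by
    rw [hQ, map_mul, map_mul]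
    exact (hsb.io.mul_left hebF).mul_left c5
  have hQg : Cop (io k F Q) g := by
    rw [hQ, map_mul, map_mul]
    exact (hsg.mul_left c2').mul_left c3
  have hαb : Cop α (io k F b) := hsb.io.mul_left c1'.symm
  have hib0 : io k F b ≠ 0 := io_ne_zero hb
  -- the right hand side
  have R1 : Xg g α = Xg (Nm k F g) s * Xg g α' := by
    rw [hα, Xg_mul_right, Xg_io_right S g s hs0 hsg.symm (Or.inl hs2)]
  have R2 : Xg g α' = Xg b (Nm k F α') * Xg (-Δ) (Nm k F α') := by
    have h5 : Xg (io k F b * g) α' = Xg (io k F b) α' * Xg g α' :=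
      Xg_mul_left _ _ _ c1' hαg.symm (Or.inl hα'2)
    have h6 : Xg (io k F b * g) α' = Xg (io k F (-Δ)) α' := by
      refine Xg_congr_left _ _ _ (c1'.mul_left hαg.symm) hα'2 ⟨io k F e, ?_⟩
      rw [map_neg, hΔeq]
      ring
    rw [← Xg_io_left S b α' hα'0 c1' (Or.inl hα'2),
      ← Xg_io_left S (-Δ) α' hα'0 (by rw [map_neg]; exact c4.neg_left) (Or.inl hα'2)]
    exact mul_self_cancel (Xg_sq _ _ hα'0 c1') (h6.symm.trans h5)
  -- the left hand side
  have L1 : Xg α (io k F b) = Xg b (Nm k F α') := by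
    rw [Xg_io_right S α b hb hαb (Or.inr hαA)]
    have h5 : Nm k F α = Nm k F α' * s ^ 2 := by
      apply io_injective (F := F)
      rw [S.norm, hα, map_mul, map_mul, map_pow, S.norm, S.fix]
      ring
    rw [h5, Xg_sq_left _ _ _ hs0]
    refine hRA _ _ (Nm_ne_zero S hα'0) hb (cop_Nm S α' b c1'.symm) ?_ (Or.inl (hP α' hα'0))
    obtain ⟨u, z, hu, hz⟩ := hαA.norm S
    exact ⟨s * u, z, mul_ne_zero hs0 hu, by rw [← hz, h5]; ring⟩
  have L2 : Xg (α * io k F Q) (io k F b * g) = 1 := by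
    obtain ⟨b', hb'⟩ := h4b'
    have hb'0 : b' ≠ 0 := by
      rintro rfl
      exact hb (by rw [hb', mul_zero])
    have e1 : io k F b * g = 2 * 2 * (io k F b' * g) := by
      rw [hb', map_mul, map_ofNat]
      ring
    have h5 : Cop (α * io k F Q) 2 := hαA.cop_two.mul_left hQA.io.cop_two
    rw [e1, Xg_mul_right, Xg_mul_right, Xg_sq _ _ two_ne_zero h5, one_mul]
    have e2 : α * io k F Q = ((io k F Δ + io k F b * g) * io k F Δ) * (io k F s) ^ 2 := by
      have h6 : io k F Δ + io k F b * g = io k F e * α' := by rw [hΔeq]; ring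
      rw [h6, hα, hQ, map_mul, map_mul]
      ring
    rw [e2, Xg_sq_left _ _ _ (io_ne_zero hs0)]
    refine Xg_eq_one _ _ (mul_ne_zero (io_ne_zero hb'0) hg0) fun w hw => ?_
    have hbg : io k F b * g ∈ w.asIdeal := by
      rw [e1]
      exact Ideal.mul_mem_left _ _ hw
    have hΔw : io k F Δ ∉ w.asIdeal := by
      intro h6
      rcases w.isPrime.mem_or_mem hbg with h7 | h7
      · exact c5 w h6 h7
      · exact c3 w h6 h7
    have hw' : (io k F Δ + io k F b * g) * io k F Δ ∉ w.asIdeal := by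
      intro h6
      rcases w.isPrime.mem_or_mem h6 with h7 | h7
      · apply hΔw
        have h8 : io k F Δ = (io k F Δ + io k F b * g) - io k F b * g := by ring
        rw [h8]
        exact Ideal.sub_mem _ h7 hbg
      · exact hΔw h7
    rw [symb_unit _ w hw', if_pos]
    refine ⟨((io k F Δ : 𝓞 F) : F), ?_⟩
    have e3 : ((io k F Δ : 𝓞 F) : F) ^ 2 - (((io k F Δ + io k F b * g) * io k F Δ : 𝓞 F) : F) =
        -(4 * (((io k F b' * g : 𝓞 F) : F) * ((io k F Δ : 𝓞 F) : F))) := by
      have e4 : io k F b * g = 4 * (io k F b' * g) := by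
        rw [e1]
        ring
      have e5 : ∀ x y : 𝓞 F, (((x + 4 * y) * x : 𝓞 F) : F) = ((x : F) + 4 * (y : F)) * (x : F) :=
        fun x y => rfl
      rw [e4, e5]
      ring
    rw [e3, Valuation.map_neg, map_mul, map_mul, val_unit _ w hΔw, mul_one]
    have h40 : 0 < w.valuation F (4 : F) := by
      rw [zero_lt_iff, Valuation.ne_zero_iff]
      norm_num
    calc w.valuation F 4 * w.valuation F ((io k F b' * g : 𝓞 F) : F)
        < w.valuation F 4 * 1 := mul_lt_mul_of_pos_left ((val_lt_iff _ w).2 hw) h40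
      _ = _ := mul_one _
  have L3 : Xg (α * io k F Q) (io k F b * g) =
      Xg α (io k F b * g) * Xg (io k F Q) (io k F b * g) :=
    Xg_mul_left _ _ _ (hαb.mul_right hαgc) (hQb.mul_right hQg) (Or.inr ⟨hαA, hQA.io⟩)
  have hbg0 : io k F b * g ≠ 0 := mul_ne_zero hib0 hg0
  have L4 : Xg (io k F Q) (io k F b * g) = Xg (Nm k F g) Q := by
    rw [Xg_io_left S Q _ hbg0 (hQb.mul_right hQg) (Or.inr hQA)]
    have h5 : Nm k F (io k F b * g) = b * b * Nm k F g := by
      apply io_injective (F := F)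
      rw [S.norm, map_mul, map_mul, map_mul, S.norm, S.fix]
      ring
    have hQb' : Cop Q b := hQb.of_io
    rw [h5, Xg_mul_right, Xg_mul_right, Xg_sq Q b hb hQb', one_mul]
    exact hRA _ _ (ne_zero_of_cop_two hQA.cop_two) (Nm_ne_zero S hg0) (cop_Nm S g Q hQg.symm).symm
      hQA (Or.inr (hP g hg0))
  have L5 : Xg (Nm k F g) Q = Xg (Nm k F g) s * Xg (Nm k F g) Δ := by
    rw [hQ, Xg_mul_right, Xg_mul_right]
    have h5 : Xg (Nm k F g) e = 1 := by
      by_cases hc0 : c = 0
      · apply Xg_unit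
        rw [hc0] at hce
        exact isCoprime_zero_left.1 hce
      · rw [Xg_congr_left (Nm k F g) (c ^ 2) e (cop_Nm S g e c2'.symm) he2 ⟨t * c + n * e, by
          rw [hNg]; ring⟩]
        exact Xg_square c e hc0 he0
    rw [h5, mul_one]
  have L6 : Xg α g = Xg b (Nm k F α') * (Xg (Nm k F g) s * Xg (Nm k F g) Δ) := by
    rw [L2, L4, L5, Xg_mul_right, L1] at L3
    have h6 : Xg b (Nm k F α') * Xg b (Nm k F α') = 1 := by
      rw [← L1]
      exact Xg_sq _ _ hib0 hαb
    have h7 : (Xg (Nm k F g) s * Xg (Nm k F g) Δ) * (Xg (Nm k F g) s * Xg (Nm k F g) Δ) = 1 := by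
      rw [← L5]
      exact Xg_sq _ _ (ne_zero_of_cop_two hQA.cop_two) (cop_Nm S g Q hQg.symm)
    calc Xg α g = (Xg b (Nm k F α') * Xg b (Nm k F α')) *
          ((Xg (Nm k F g) s * Xg (Nm k F g) Δ) * (Xg (Nm k F g) s * Xg (Nm k F g) Δ)) *
            Xg α g := by rw [h6, h7]; ring
      _ = (Xg b (Nm k F α') * (Xg (Nm k F g) s * Xg (Nm k F g) Δ)) *
          (Xg b (Nm k F α') * Xg α g * (Xg (Nm k F g) s * Xg (Nm k F g) Δ)) := by ring
      _ = _ := by rw [← L3, mul_one]
  -- the last identity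
  have M1 : Xg (-Δ) (Nm k F α') = Xg (Nm k F g) Δ := by
    have hNA : Adm (Nm k F α') := by
      obtain ⟨u, z, hu, hz⟩ := hαA.norm S
      have h5 : Nm k F α = Nm k F α' * s ^ 2 := by
        apply io_injective (F := F)
        rw [S.norm, hα, map_mul, map_mul, map_pow, S.norm, S.fix]
        ring
      exact ⟨s * u, z, mul_ne_zero hs0 hu, by rw [← hz, h5]; ring⟩
    rw [← hRA (Nm k F α') (-Δ) (Nm_ne_zero S hα'0) (neg_ne_zero.2 hΔ0)
      (cop_Nm S α' Δ c4.symm).neg_right hNA (Or.inl (hP α' hα'0)), Xg_neg,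
      ← Xg_sq_left (Nm k F α') e Δ he0, ← Xg_sq_left (Nm k F g) b Δ hb]
    have c6 : Cop e Δ := by
      have h5 : Cop (io k F e) (io k F Δ) := by
        intro w h1 h2
        have h3 : io k F b * g ∈ w.asIdeal := by
          have h5 : io k F b * g = α' * io k F e - io k F Δ := by rw [hΔeq]; ring
          rw [h5]
          exact Ideal.sub_mem _ (Ideal.mul_mem_left _ _ h1) h2
        rcases w.isPrime.mem_or_mem h3 with h6 | h6
        · exact hebF w h1 h6
        · exact c2 w h6 h1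
      exact h5.of_io
    refine Xg_congr_left _ _ _ ?_ hΔ2 ?_
    · rw [pow_two]
      exact (cop_Nm S α' Δ c4.symm).mul_left (c6.mul_left c6)
    · obtain ⟨z, hz⟩ := S.tr (io k F b * g)
      refine ⟨Δ + z, ?_⟩
      apply io_injective (F := F)
      have h6 : io k F e * α' = io k F Δ + io k F b * g := by rw [hΔeq]; ring
      have h7 : io k F e * S.sg α' = io k F Δ + S.sg (io k F b * g) := by
        have h71 : S.sg (io k F e * α') = S.sg (io k F Δ + io k F b * g) := congrArg S.sg h6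
        rw [map_mul S.sg (io k F e) α', S.fix, map_add S.sg (io k F Δ) (io k F b * g),
          S.fix] at h71
        exact h71
      have h8 : io k F e * io k F e * (α' * S.sg α') =
          (io k F Δ + io k F b * g) * (io k F Δ + S.sg (io k F b * g)) := by
        rw [← h6, ← h7]
        ring
      have h9 : S.sg (io k F b * g) = io k F b * S.sg g := by rw [map_mul, S.fix]
      rw [map_sub, map_mul, map_mul, map_mul, map_pow, map_pow, map_add, S.norm, S.norm, hz]
      rw [h9] at h8 ⊢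
      linear_combination h8
  rw [L6, R1, R2, M1]
  ring

end

end NAB
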