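import Pool.Agent.MP_9ab903_nt.NAB.QR13

set_option autoImplicit false

open NumberField IsDedekindDomain UniqueFactorizationMonoid
open CM27 CMT
open scoped Classical

namespace NAB

/-! ## [NAB-QR14] quadratic reciprocity in a quadratic extension (file NAB/QR14.lean) -/

section
variable {F : Type} [Field F] [NumberField F]

theorem Cop.of_dvd_right {a b c : 𝓞 F} (h : Cop a b) (hd : c ∣ b) : Cop a c := by
  obtain ⟨d, rfl⟩ := hd
  exact h.of_mul_right

/-- multiplication of both arguments by squares -/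
theorem Xg_sq_both (α β x : 𝓞 F) (hα : Cop α x) (hx : x ≠ 0) :
    Xg α (β * x ^ 2) = Xg α β ∧ Xg (β * x ^ 2) α = Xg β α := by
  refine ⟨?_, Xg_sq_left _ _ _ hx⟩
  rw [Xg_mul_right, pow_two, Xg_mul_right, Xg_sq α x hx hα, mul_one]

theorem Adm.not_dvd {a u : 𝓞 F} (h : (4 : 𝓞 F) ∣ a * u ^ 2 - 1) : u ≠ 0 := by
  rintro rfl
  rw [zero_pow two_ne_zero, mul_zero, zero_sub, dvd_neg] at h
  exact not_four_dvd_one h

end

section
variable {k F : Type} [Field k] [NumberField k] [Field F] [NumberField F] [Algebra k F]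
  [Algebra.IsQuadraticExtension k F] [IsPrincipalIdealRing (𝓞 k)] (S : Sig k F) (C : Crd k F)
  (P : 𝓞 k → Prop) (hRA : RA k P) (hP : ∀ β : 𝓞 F, β ≠ 0 → P (Nm k F β))
  (hU : ∀ w : HeightOneSpectrum (𝓞 F), (2 : 𝓞 F) ∈ w.asIdeal → (2 : 𝓞 F) ∉ w.asIdeal ^ 2)
include S hRA hP C hU

theorem lemD (s a b : 𝓞 k) (hab : IsCoprime a b)
    (h4a : (4 : 𝓞 k) ∣ s * a - 1) (h4b : (4 : 𝓞 k) ∣ s * b) (hsb : Cop s b) (hb : b ≠ 0)
    (g : 𝓞 F) (hg : g ≠ 0) (hc : Cop (io k F s * (io k F a + io k F b * C.th)) g) :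
    Xg (io k F s * (io k F a + io k F b * C.th)) g =
      Xg g (io k F s * (io k F a + io k F b * C.th)) := by
  have c1 : Cop (io k F a + io k F b * C.th) (io k F b) := fun w => C.not_mem hab w
  set α' := io k F a + io k F b * C.th with hα'
  set α := io k F s * α' with hα
  have h4α : (4 : 𝓞 F) ∣ α - 1 := by
    obtain ⟨x, hx⟩ := h4a
    obtain ⟨y, hy⟩ := h4b
    refine ⟨io k F x + io k F y * C.th, ?_⟩
    have e1 : io k F s * io k F a - 1 = 4 * io k F x := by
      have := congrArg (io k F) hx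
      rwa [map_sub, map_mul, map_mul, map_one, map_ofNat] at this
    have e2 : io k F s * io k F b = 4 * io k F y := by
      have := congrArg (io k F) hy
      rwa [map_mul, map_mul, map_ofNat] at this
    rw [hα, hα']
    linear_combination e1 + C.th * e2
  have hαA : Adm α := adm_of_four h4α
  have hα0 : α ≠ 0 := ne_zero_of_cop_two hαA.cop_two
  have hb2 : ∀ w : HeightOneSpectrum (𝓞 k), (2 : 𝓞 k) ∈ w.asIdeal → b ∈ w.asIdeal := by
    intro w h2
    have h1 : b = a * (s * b) - b * (s * a - 1) := by ring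
    have h2' : (4 : 𝓞 k) ∣ b := by
      rw [h1]
      exact dvd_sub (h4b.mul_left _) (h4a.mul_left _)
    obtain ⟨b', hb'⟩ := h2'
    rw [hb']
    exact Ideal.mul_mem_right _ _ (four_mem h2)
  obtain ⟨r, c, e, hr0, hgr, hce⟩ := C.content g hg
  set g1 := io k F c + io k F e * C.th with hg1
  have hαb : Cop α (io k F b) := (hsb.io).mul_left c1
  obtain ⟨x, hx1, hx2⟩ := exists_choice S C hU c e b hce hb α hαb
  have hαx : Cop α x := by
    intro w h1 h2
    apply w.isPrime.ne_top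
    rw [Ideal.eq_top_iff_one]
    obtain ⟨y, hy⟩ := hx1
    have h3 : (1 : 𝓞 F) = x - y * α := by linear_combination -hy
    rw [h3]
    exact Ideal.sub_mem _ h2 (Ideal.mul_mem_left _ _ h1)
  obtain ⟨w₂, hw₂⟩ := exists_even (F := k)
  have hx0 : x ≠ 0 := by
    rintro rfl
    have h3 : (io k F c + io k F e * C.th) * 0 ^ 2 = io k F 0 + io k F 0 * C.th := by
      rw [map_zero]
      ring
    exact hx2 0 0 h3 w₂ (Ideal.zero_mem _) (hb2 w₂ hw₂)
  have hg10 : g1 ≠ 0 := by
    rintro h3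
    rw [h3, mul_zero] at hgr
    exact hg hgr
  obtain ⟨r2, c2, e2, hr20, hgr2, hce2⟩ := C.content (g1 * x ^ 2)
    (mul_ne_zero hg10 (pow_ne_zero 2 hx0))
  have he2b : Cop e2 b := by
    have h3 : g1 * x ^ 2 = io k F (r2 * c2) + io k F (r2 * e2) * C.th := by
      rw [hgr2, map_mul, map_mul]
      ring
    exact (hx2 _ _ h3).of_mul_left'
  set g2 := io k F c2 + io k F e2 * C.th with hg2
  have hαg1 : Cop α g1 := by
    rw [hgr] at hc
    exact hc.of_mul_right'
  have hαr : Cop α (io k F r) := by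
    rw [hgr] at hc
    exact hc.of_mul_right
  have hαgx : Cop α (g1 * x ^ 2) := hαg1.mul_right (by rw [pow_two]; exact hαx.mul_right hαx)
  have hαr2 : Cop α (io k F r2) := by
    rw [hgr2] at hαgx
    exact hαgx.of_mul_right
  have hαg2 : Cop α g2 := by
    rw [hgr2] at hαgx
    exact hαgx.of_mul_right'
  have hcore := core S C P hRA hP s a b c2 e2 hab hce2 h4a h4b hsb hαg2.of_mul_left
    hαg2.of_mul_left' he2b hb
  have hA1 := lemA S P hRA hP α hαA r hr0 hαr
  have hA2 := lemA S P hRA hP α hαA r2 hr20 hαr2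
  obtain ⟨s1, s2⟩ := Xg_sq_both α g1 x hαx hx0
  have hα2 : Cop α 2 := hαA.cop_two
  have hcore' : Xg α g2 = Xg g2 α := hcore
  have f1 : Xg α g1 = Xg g1 α := by
    rw [← s1, ← s2, hgr2, Xg_mul_right α (io k F r2) g2,
      Xg_mul_left (io k F r2) g2 α hαr2.symm hαg2.symm (Or.inl hα2), hA2, hcore']
  rw [hgr, Xg_mul_right α (io k F r) g1, Xg_mul_left (io k F r) g1 α hαr.symm hαg1.symm
    (Or.inl hα2), hA1, f1]

theorem recip_four (α : 𝓞 F) (h4 : (4 : 𝓞 F) ∣ α - 1) (g : 𝓞 F) (hg : g ≠ 0) (hc : Cop α g) :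
    Xg α g = Xg g α := by
  have hαA : Adm α := adm_of_four h4
  have hα0 : α ≠ 0 := ne_zero_of_cop_two hαA.cop_two
  obtain ⟨r, a, b, hr0, hαr, hab⟩ := C.content α hα0
  -- the coordinates
  have h4ab : (4 : 𝓞 k) ∣ r * a - 1 ∧ (4 : 𝓞 k) ∣ r * b := by
    obtain ⟨y, hy⟩ := h4
    obtain ⟨p, q, hpq⟩ := C.surj y
    have h1 : io k F (r * a) + io k F (r * b) * C.th =
        io k F (4 * p + 1) + io k F (4 * q) * C.th := by
      rw [map_mul, map_mul, map_add, map_mul, map_mul, map_ofNat, map_one]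
      rw [hpq, hαr] at hy
      linear_combination hy
    obtain ⟨h2, h3⟩ := C.unique h1
    exact ⟨⟨p, by rw [h2]; ring⟩, ⟨q, h3⟩⟩
  obtain ⟨h4a, h4b⟩ := h4ab
  by_cases hb : b = 0
  · have hq : α = io k F (r * a) := by
      rw [hαr, hb, map_zero, zero_mul, add_zero, map_mul]
    rw [hq] at hc ⊢
    exact lemB S P hRA hP (r * a) (adm_of_four h4a) g hg hc
  · set α' := io k F a + io k F b * C.th with hα'
    have hr2 : Cop r 2 := (cop_two_of_four h4a).of_mul_left
    have hr4 : Cop r 4 := by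
      intro w h1 h2
      have h5 : (4 : 𝓞 k) = 2 * 2 := by norm_num
      rw [h5] at h2
      rcases w.isPrime.mem_or_mem h2 with h3 | h3 <;> exact hr2 w h1 h3
    obtain ⟨s, hs1, hs2⟩ := exists_lift r 4 (b * Nm k F g) hr4 (mul_ne_zero hb (Nm_ne_zero S hg))
    have hsb : Cop s b := hs2.of_mul_right
    have hsN : Cop s (Nm k F g) := hs2.of_mul_right'
    have h4a' : (4 : 𝓞 k) ∣ s * a - 1 := by
      have h5 : s * a - 1 = (s - r) * a + (r * a - 1) := by ring
      rw [h5]
      exact dvd_add (hs1.mul_right _) h4a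
    have h4b' : (4 : 𝓞 k) ∣ s * b := by
      have h5 : s * b = (s - r) * b + r * b := by ring
      rw [h5]
      exact dvd_add (hs1.mul_right _) h4b
    have hs2' : Cop s 2 := (cop_two_of_four h4a').of_mul_left
    have hs0 : s ≠ 0 := ne_zero_of_cop_two hs2'
    have hsg : Cop (io k F s) g := by
      intro w h1 h2
      exact hsN (und k w) h1 (S.norm_mem w g h2)
    have hrsA : Adm (r * s) := by
      obtain ⟨u, hu⟩ := exists_inv_four r hr2
      have h5 : (4 : 𝓞 k) ∣ (r * s) * u ^ 2 - 1 := by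
        have h6 : (r * s) * u ^ 2 - 1 = (s - r) * (r * u ^ 2) + (r * u - 1) * (r * u + 1) := by ring
        rw [h6]
        exact dvd_add (hs1.mul_right _) (hu.mul_right _)
      have hu0 := Adm.not_dvd h5
      obtain ⟨z, hz⟩ := h5
      exact ⟨u, -z, hu0, by linear_combination hz⟩
    have hcr : Cop (io k F r) g := by
      rw [hαr] at hc
      exact hc.of_mul_left
    have hcα' : Cop α' g := by
      rw [hαr] at hc
      exact hc.of_mul_left'
    have hsα'A : Adm (io k F s * α') := by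
      obtain ⟨x, hx⟩ := h4a'
      obtain ⟨y, hy⟩ := h4b'
      have e1 : io k F s * io k F a - 1 = 4 * io k F x := by
        have := congrArg (io k F) hx
        rwa [map_sub, map_mul, map_mul, map_one, map_ofNat] at this
      have e2 : io k F s * io k F b = 4 * io k F y := by
        have := congrArg (io k F) hy
        rwa [map_mul, map_mul, map_ofNat] at this
      refine adm_of_four ⟨io k F x + io k F y * C.th, ?_⟩
      rw [hα']
      linear_combination e1 + C.th * e2
    have hD := lemD S C P hRA hP hU s a b hab h4a' h4b' hsb hb g hg (hsg.mul_left hcα')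
    have hcrs : Cop (io k F (r * s)) g := by
      rw [map_mul]
      exact hcr.mul_left hsg
    have hB := lemB S P hRA hP (r * s) hrsA g hg hcrs
    obtain ⟨s1, s2⟩ := Xg_sq_both g α (io k F s) hsg.symm (io_ne_zero hs0)
    have e3 : α * (io k F s) ^ 2 = io k F (r * s) * (io k F s * α') := by
      rw [hαr, map_mul]
      ring
    rw [← s1, ← s2, e3, Xg_mul_right, Xg_mul_left _ _ _ hcrs (hsg.mul_left hcα')
      (Or.inr ⟨hrsA.io, hsα'A⟩), hB, hD]

/-- **Quadratic reciprocity.** -/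
theorem recip_adm (α : 𝓞 F) (hα : Adm α) (g : 𝓞 F) (hg : g ≠ 0) (hc : Cop α g) :
    Xg α g = Xg g α := by
  obtain ⟨u, c, hu, huc⟩ := hα
  have hu4 : Cop u 4 := by
    intro w h1 h2
    have h3 : (2 : 𝓞 F) ∈ w.asIdeal := by
      have h5 : (4 : 𝓞 F) = 2 * 2 := by norm_num
      rw [h5] at h2
      rcases w.isPrime.mem_or_mem h2 with h3 | h3 <;> exact h3
    apply one_sub_not_mem (c := c) h3
    rw [← huc, pow_two]
    exact Ideal.mul_mem_left _ _ (Ideal.mul_mem_left _ _ h1)
  obtain ⟨v, hv1, hv2⟩ := exists_lift u 4 g hu4 hg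
  have h4 : (4 : 𝓞 F) ∣ α * v ^ 2 - 1 := by
    have h5 : α * v ^ 2 - 1 = (v - u) * (α * (v + u)) + 4 * (-c) := by
      linear_combination huc
    rw [h5]
    exact dvd_add (hv1.mul_right _) (dvd_mul_right _ _)
  have hv0 := Adm.not_dvd h4
  obtain ⟨s1, s2⟩ := Xg_sq_both g α v hv2.symm hv0
  rw [← s1, ← s2]
  refine recip_four S C P hRA hP hU _ h4 g hg ?_
  rw [pow_two]
  exact hc.mul_left (hv2.mul_left hv2)

omit C in
theorem RA_ext : RA F (fun _ => True) := by
  obtain ⟨C⟩ := exists_Crd (k := k) (F := F)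
  intro q x _ hx hc hq _
  exact recip_adm S C P hRA hP hU q hq x hx hc

end

end NAB
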