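import Pool.Agent.MP_9ab903_nt.NAB.QR14
import Pool.Agent.MP_dfae13_nt.T.TD4

set_option autoImplicit false

open NumberField IsDedekindDomain UniqueFactorizationMonoid
open CM27 CMT
open scoped Classical

namespace NAB

/-! ## [NAB-QR15] quadratic reciprocity in `ℚ` (file NAB/QR15.lean) -/

theorem rat_pid : IsPrincipalIdealRing (𝓞 ℚ) :=
  IsPrincipalIdealRing.of_surjective (Rat.ringOfIntegersEquiv.symm : ℤ →+* 𝓞 ℚ)
    Rat.ringOfIntegersEquiv.symm.surjective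

theorem rat_dvd (m n : ℤ) : ((m : 𝓞 ℚ) ∣ (n : 𝓞 ℚ)) ↔ m ∣ n := by
  constructor
  · intro h
    have h1 := map_dvd Rat.ringOfIntegersEquiv h
    rwa [map_intCast, map_intCast] at h1
  · intro h
    exact_mod_cast (Int.castRingHom (𝓞 ℚ)).map_dvd h

theorem rat_exists (q : 𝓞 ℚ) : ∃ a : ℤ, q = (a : 𝓞 ℚ) := by
  refine ⟨Rat.ringOfIntegersEquiv q, ?_⟩
  apply Rat.ringOfIntegersEquiv.injective
  rw [map_intCast, Int.cast_id]

theorem rat_prime (p : ℕ) (hp : p.Prime) : Prime ((p : ℤ) : 𝓞 ℚ) := by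
  rw [← MulEquiv.prime_iff (Rat.ringOfIntegersEquiv : 𝓞 ℚ ≃* ℤ)]
  have h1 : (Rat.ringOfIntegersEquiv : 𝓞 ℚ ≃* ℤ) ((p : ℤ) : 𝓞 ℚ) = (p : ℤ) :=
    (map_intCast Rat.ringOfIntegersEquiv (p : ℤ)).trans (Int.cast_id)
  rw [h1]
  exact Nat.prime_iff_prime_int.1 hp

/-- the place of a prime number -/
noncomputable def rw' (p : ℕ) (hp : p.Prime) : HeightOneSpectrum (𝓞 ℚ) :=
  ⟨Ideal.span {((p : ℤ) : 𝓞 ℚ)}, (Ideal.span_singleton_prime (rat_prime p hp).ne_zero).2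
    (rat_prime p hp), by
      rw [Ne, Ideal.span_singleton_eq_bot]
      exact (rat_prime p hp).ne_zero⟩

theorem mem_rw (p : ℕ) (hp : p.Prime) (a : ℤ) : (a : 𝓞 ℚ) ∈ (rw' p hp).asIdeal ↔ (p : ℤ) ∣ a := by
  change (a : 𝓞 ℚ) ∈ Ideal.span {((p : ℤ) : 𝓞 ℚ)} ↔ _
  rw [Ideal.mem_span_singleton, rat_dvd]

theorem Xg_prime (q : 𝓞 ℚ) (p : ℕ) (hp : p.Prime) : Xg q ((p : ℤ) : 𝓞 ℚ) = symb (q : ℚ) (rw' p hp) :=
  cm_prime _ (rw' p hp)

theorem two_mem_rw (p : ℕ) (hp : p.Prime) (hp2 : p ≠ 2) : (2 : 𝓞 ℚ) ∉ (rw' p hp).asIdeal := by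
  have h1 : (2 : 𝓞 ℚ) = ((2 : ℤ) : 𝓞 ℚ) := by norm_num
  rw [h1, mem_rw]
  intro h
  have h2 : p ∣ 2 := by exact_mod_cast h
  exact hp2 ((Nat.prime_dvd_prime_iff_eq hp Nat.prime_two).1 h2)

/-- odd primes -/
theorem Xg_odd_prime (a : ℤ) (p : ℕ) (hp : p.Prime) (hp2 : p ≠ 2) (ha : ¬ (p : ℤ) ∣ a) :
    Xg (a : 𝓞 ℚ) ((p : ℤ) : 𝓞 ℚ) = jacobiSym a p := by
  haveI : Fact p.Prime := ⟨hp⟩
  have h2 := two_mem_rw p hp hp2
  have ha' : (a : 𝓞 ℚ) ∉ (rw' p hp).asIdeal := by rwa [mem_rw]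
  rw [Xg_prime _ p hp, symb_odd _ _ h2 ha', ← jacobiSym.legendreSym.to_jacobiSym]
  have ha0 : (a : ZMod p) ≠ 0 := by rwa [Ne, ZMod.intCast_zmod_eq_zero_iff_dvd]
  have h3 : IsSquare (Ideal.Quotient.mk (rw' p hp).asIdeal (a : 𝓞 ℚ)) ↔ IsSquare (a : ZMod p) := by
    constructor
    · rintro ⟨y, hy⟩
      obtain ⟨y, rfl⟩ := Ideal.Quotient.mk_surjective y
      obtain ⟨b, rfl⟩ := rat_exists y
      rw [← map_mul, Ideal.Quotient.eq] at hy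
      have h4 : (a : 𝓞 ℚ) - (b : 𝓞 ℚ) * b = ((a - b * b : ℤ) : 𝓞 ℚ) := by push_cast; ring
      rw [h4, mem_rw, ← ZMod.intCast_zmod_eq_zero_iff_dvd] at hy
      push_cast at hy
      exact ⟨(b : ZMod p), by linear_combination hy⟩
    · rintro ⟨y, hy⟩
      obtain ⟨b, rfl⟩ := ZMod.intCast_surjective y
      refine ⟨Ideal.Quotient.mk _ (b : 𝓞 ℚ), ?_⟩
      rw [← map_mul, Ideal.Quotient.eq]
      have h4 : (a : 𝓞 ℚ) - (b : 𝓞 ℚ) * b = ((a - b * b : ℤ) : 𝓞 ℚ) := by push_cast; ring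
      rw [h4, mem_rw, ← ZMod.intCast_zmod_eq_zero_iff_dvd]
      push_cast
      linear_combination hy
  by_cases h4 : IsSquare (a : ZMod p)
  · rw [if_pos (h3.2 h4), (legendreSym.eq_one_iff p ha0).2 h4]
  · rw [if_neg (fun h5 => h4 (h3.1 h5)), (legendreSym.eq_neg_one_iff p).2 h4]

/-- the prime `2` -/
theorem Xg_two (a : ℤ) (ha : a % 4 = 1) : Xg (a : 𝓞 ℚ) ((2 : ℤ) : 𝓞 ℚ) = jacobiSym 2 a.natAbs := by
  obtain ⟨c, hc⟩ : ∃ c : ℤ, a = 1 - 4 * c := ⟨(1 - a) / 4, by omega⟩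
  have h2 : (2 : 𝓞 ℚ) ∈ (rw' 2 Nat.prime_two).asIdeal := by
    have h1 : (2 : 𝓞 ℚ) = ((2 : ℤ) : 𝓞 ℚ) := by norm_num
    rw [h1, mem_rw]
    norm_num
  have h3 : Xg (a : 𝓞 ℚ) ((2 : ℤ) : 𝓞 ℚ) = symb (((a : 𝓞 ℚ)) : ℚ) (rw' 2 Nat.prime_two) :=
    Xg_prime (a : 𝓞 ℚ) 2 Nat.prime_two
  have h4 : (a : 𝓞 ℚ) = 1 - 4 * (c : 𝓞 ℚ) := by
    rw [hc]
    push_cast
    ring
  have hodd : Odd a.natAbs := by rw [Nat.odd_iff]; omega
  rw [h3, h4, symb_even _ _ h2, jacobiSym.at_two hodd]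
  have h5 : (∃ s : 𝓞 ℚ, s ^ 2 + s + (c : 𝓞 ℚ) ∈ (rw' 2 Nat.prime_two).asIdeal) ↔ c % 2 = 0 := by
    constructor
    · rintro ⟨s, hs⟩
      obtain ⟨b, rfl⟩ := rat_exists s
      have h6 : (b : 𝓞 ℚ) ^ 2 + b + c = ((b ^ 2 + b + c : ℤ) : 𝓞 ℚ) := by push_cast; ring
      rw [h6, mem_rw] at hs
      obtain ⟨m, hm⟩ := hs
      have h7 : ∃ t : ℤ, b ^ 2 + b = 2 * t := by
        have : Even (b * (b + 1)) := Int.even_mul_succ_self b
        obtain ⟨t, ht⟩ := this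
        exact ⟨t, by linear_combination ht⟩
      obtain ⟨t, ht⟩ := h7
      rw [ht] at hm
      push_cast at hm
      omega
    · intro h6
      refine ⟨0, ?_⟩
      have h7 : (0 : 𝓞 ℚ) ^ 2 + 0 + c = (c : 𝓞 ℚ) := by ring
      rw [h7, mem_rw]
      push_cast
      omega
  have h8 : ZMod.χ₈ (a.natAbs : ZMod 8) = if c % 2 = 0 then 1 else -1 := by
    have h9 : (a.natAbs : ZMod 8) = ((a.natAbs % 8 : ℕ) : ZMod 8) := by
      rw [ZMod.natCast_mod]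
    rw [h9]
    by_cases h6 : c % 2 = 0
    · rw [if_pos h6]
      have h10 : a.natAbs % 8 = 1 ∨ a.natAbs % 8 = 7 := by omega
      rcases h10 with h | h <;> rw [h] <;> decide
    · rw [if_neg h6]
      have h10 : a.natAbs % 8 = 3 ∨ a.natAbs % 8 = 5 := by omega
      rcases h10 with h | h <;> rw [h] <;> decide
  rw [h8]
  by_cases h6 : c % 2 = 0
  · rw [if_pos (h5.2 h6), if_pos h6]
  · rw [if_neg (fun h7 => h6 (h5.1 h7)), if_neg h6]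

theorem Xg_cast_mul (q : 𝓞 ℚ) (m n : ℕ) :
    Xg q (((m * n : ℕ) : ℤ) : 𝓞 ℚ) = Xg q ((m : ℤ) : 𝓞 ℚ) * Xg q ((n : ℤ) : 𝓞 ℚ) := by
  rw [← Xg_mul_right]
  push_cast
  rfl

/-- the upper reciprocity: `χ_a((n)) = (n / |a|)` for `a ≡ 1 mod 4` -/
theorem Xg_nat (a : ℤ) (ha : a % 4 = 1) (n : ℕ) (hn : n ≠ 0) (hc : Int.gcd n a = 1) :
    Xg (a : 𝓞 ℚ) ((n : ℤ) : 𝓞 ℚ) = jacobiSym n a.natAbs := by
  induction n using Nat.recOnMul with
  | zero => exact absurd rfl hn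
  | one =>
    rw [Nat.cast_one, Int.cast_one, Xg_one, jacobiSym.one_left]
  | prime p hp =>
    have hpa : ¬ (p : ℤ) ∣ a := by
      intro h
      have h1 : p ∣ Int.gcd (p : ℤ) a := Int.dvd_gcd dvd_rfl h
      rw [hc] at h1
      exact hp.one_lt.ne' (Nat.dvd_one.1 h1)
    by_cases hp2 : p = 2
    · subst hp2
      exact Xg_two a ha
    · rw [Xg_odd_prime a p hp hp2 hpa]
      exact d4_recip_one a p ha (hp.odd_of_ne_two hp2)
  | mul m n hm hn' =>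
    have hm0 : m ≠ 0 := left_ne_zero_of_mul hn
    have hn0 : n ≠ 0 := right_ne_zero_of_mul hn
    have hc' : Nat.Coprime (m * n) a.natAbs := hc
    rw [Nat.coprime_mul_iff_left] at hc'
    rw [Xg_cast_mul, hm hm0 hc'.1, hn' hn0 hc'.2, Nat.cast_mul, jacobiSym.mul_left]

/-- `χ_b((n)) = (b / n)` for `n` odd -/
theorem Xg_nat' (b : ℤ) (n : ℕ) (hn : Odd n) (hc : Int.gcd b n = 1) :
    Xg (b : 𝓞 ℚ) ((n : ℤ) : 𝓞 ℚ) = jacobiSym b n := by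
  induction n using Nat.recOnMul with
  | zero => exact absurd hn (by decide)
  | one =>
    rw [Nat.cast_one, Int.cast_one, Xg_one, jacobiSym.one_right]
  | prime p hp =>
    have hpa : ¬ (p : ℤ) ∣ b := by
      intro h
      have h1 : p ∣ Int.gcd b (p : ℤ) := Int.dvd_gcd h dvd_rfl
      rw [hc] at h1
      exact hp.one_lt.ne' (Nat.dvd_one.1 h1)
    have hp2 : p ≠ 2 := by
      rintro rfl
      exact absurd hn (by decide)
    exact Xg_odd_prime b p hp hp2 hpa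
  | mul m n hm hn' =>
    have hm0 : Odd m := (Nat.odd_mul.1 hn).1
    have hn0 : Odd n := (Nat.odd_mul.1 hn).2
    have hc' : Nat.Coprime b.natAbs (m * n) := hc
    rw [Nat.coprime_mul_iff_right] at hc'
    rw [Xg_cast_mul, hm hm0 hc'.1, hn' hn0 hc'.2, jacobiSym.mul_right' b hm0.pos.ne' hn0.pos.ne']

theorem Xg_natAbs (q : 𝓞 ℚ) (b : ℤ) : Xg q (b : 𝓞 ℚ) = Xg q ((b.natAbs : ℤ) : 𝓞 ℚ) := by
  rcases Int.natAbs_eq b with h | h
  · rw [← h]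
  · conv_lhs => rw [h]
    rw [Int.cast_neg, Xg_neg]

/-- **Reciprocity in `ℚ`.** -/
theorem RA_rat : RA ℚ (fun q => 0 < ((q : 𝓞 ℚ) : ℚ)) := by
  intro q x hq hx hc hA hpos
  obtain ⟨a, rfl⟩ := rat_exists q
  obtain ⟨b, rfl⟩ := rat_exists x
  -- `a ≡ 1 mod 4`
  have ha : a % 4 = 1 := by
    obtain ⟨u, c, hu, huc⟩ := hA
    obtain ⟨u, rfl⟩ := rat_exists u
    obtain ⟨c, rfl⟩ := rat_exists c
    have h1 : ((a * u ^ 2 : ℤ) : 𝓞 ℚ) = ((1 - 4 * c : ℤ) : 𝓞 ℚ) := by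
      push_cast
      exact huc
    have h2 : a * u ^ 2 = 1 - 4 * c := by exact_mod_cast h1
    rcases Int.even_or_odd u with ⟨v, hv⟩ | ⟨v, hv⟩
    · rw [hv] at h2
      have h3 : a * (v + v) ^ 2 = 4 * (a * v ^ 2) := by ring
      omega
    · rw [hv] at h2
      have h3 : a * (2 * v + 1) ^ 2 = 4 * (a * (v ^ 2 + v)) + a := by ring
      omega
  have hcop : Int.gcd a b = 1 := by
    by_contra hne
    obtain ⟨p, hp, hpd⟩ := Nat.exists_prime_and_dvd hne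
    have h1 : (p : ℤ) ∣ a := (Int.natCast_dvd_natCast.2 hpd).trans (Int.gcd_dvd_left ..)
    have h2 : (p : ℤ) ∣ b := (Int.natCast_dvd_natCast.2 hpd).trans (Int.gcd_dvd_right ..)
    exact hc (rw' p hp) ((mem_rw p hp a).2 h1) ((mem_rw p hp b).2 h2)
  have hb0 : b ≠ 0 := by
    rintro rfl
    exact hx (by norm_num)
  have hodd : Odd a.natAbs := by rw [Nat.odd_iff]; omega
  have hc1 : Int.gcd (b.natAbs : ℤ) a = 1 := by
    rw [Int.gcd_comm] at hcop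
    exact hcop
  have hc2 : Int.gcd b (a.natAbs : ℤ) = 1 := by
    rw [Int.gcd_comm] at hcop
    exact hcop
  rw [Xg_natAbs _ b, Xg_natAbs _ a, Xg_nat a ha b.natAbs (Int.natAbs_ne_zero.2 hb0) hc1,
    Xg_nat' b a.natAbs hodd hc2]
  have hpos' : 0 < a ∨ 0 < b := by
    rcases hpos with h | h
    · left
      have : (0 : ℚ) < (a : ℚ) := h
      exact_mod_cast this
    · right
      have : (0 : ℚ) < (b : ℚ) := h
      exact_mod_cast this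
  rcases lt_trichotomy b 0 with hb | hb | hb
  · have ha0 : 0 < a := by
      rcases hpos' with h | h
      · exact h
      · omega
    have h1 : b = -((b.natAbs : ℕ) : ℤ) := by omega
    conv_rhs => rw [h1]
    rw [jacobiSym.neg _ hodd, ZMod.χ₄_nat_one_mod_four (by omega), one_mul]
  · exact absurd hb hb0
  · have h1 : ((b.natAbs : ℕ) : ℤ) = b := by omega
    rw [h1]

end NAB
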