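import Mathlib

set_option autoImplicit false

open Finset Polynomial
open scoped Classical

namespace NAB

/-! ## [NAB-QR2] squares and Artin-Schreier classes in finite fields (file NAB/QR2.lean) -/

section odd
variable (k : Type*) [Field k] [Finite k] (h2 : (2 : k) ≠ 0)
include h2

theorem ringChar_ne_two : ringChar k ≠ 2 := by
  intro h
  apply h2
  have := ringChar.Nat.cast_ringChar (R := k)
  rw [h] at this
  exact_mod_cast this

theorem isSquare_iff_pow (a : k) (ha : a ≠ 0) : IsSquare a ↔ a ^ (Nat.card k / 2) = 1 := by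
  letI := Fintype.ofFinite k
  rw [Nat.card_eq_fintype_card]
  exact FiniteField.isSquare_iff (ringChar_ne_two k h2) ha

theorem pow_dichotomy (a : k) (ha : a ≠ 0) :
    a ^ (Nat.card k / 2) = 1 ∨ a ^ (Nat.card k / 2) = -1 := by
  letI := Fintype.ofFinite k
  rw [Nat.card_eq_fintype_card]
  exact FiniteField.pow_dichotomy (ringChar_ne_two k h2) ha

theorem isSquare_mul_iff (a b : k) (ha : a ≠ 0) (hb : b ≠ 0) :
    IsSquare (a * b) ↔ (IsSquare a ↔ IsSquare b) := by
  have h11 : (-1 : k) ≠ 1 := by
    intro h
    apply h2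
    linear_combination -h
  rw [isSquare_iff_pow k h2 _ (mul_ne_zero ha hb), isSquare_iff_pow k h2 _ ha,
    isSquare_iff_pow k h2 _ hb, mul_pow]
  rcases pow_dichotomy k h2 a ha with h | h <;> rcases pow_dichotomy k h2 b hb with h' | h' <;>
    simp [h, h', h11]

theorem odd_card : Odd (Nat.card k) := by
  letI := Fintype.ofFinite k
  rw [Nat.card_eq_fintype_card, Nat.odd_iff]
  exact FiniteField.odd_card_of_char_ne_two (ringChar_ne_two k h2)

end odd

section odd2
variable (k l : Type*) [Field k] [Finite k] [Field l] [Finite l] (φ : k →+* l)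
  (h2 : (2 : k) ≠ 0) (hcard : Nat.card l = Nat.card k ^ 2)
include h2 hcard

theorem isSquare_norm (y : l) (hy : y ≠ 0) (N : k) (hN : φ N = y ^ (Nat.card k + 1)) :
    IsSquare y ↔ IsSquare N := by
  have h2l : (2 : l) ≠ 0 := by
    rw [← map_ofNat φ]
    exact (_root_.map_ne_zero _).2 h2
  have hN0 : N ≠ 0 := by
    rintro rfl
    rw [map_zero] at hN
    exact pow_ne_zero _ hy hN.symm
  rw [isSquare_iff_pow l h2l y hy, isSquare_iff_pow k h2 N hN0]
  obtain ⟨m, hm⟩ := odd_card k h2
  have e : Nat.card l / 2 = (Nat.card k + 1) * (Nat.card k / 2) := by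
    rw [hcard, hm]
    have h3 : (2 * m + 1) ^ 2 / 2 = (2 * m + 2) * m := by
      have : (2 * m + 1) ^ 2 = 2 * ((2 * m + 2) * m) + 1 := by ring
      rw [this]
      omega
    have h4 : (2 * m + 1) / 2 = m := by omega
    rw [h3, h4]
  rw [e, pow_mul, ← hN, ← map_pow]
  constructor
  · intro h
    apply φ.injective
    rw [h, map_one]
  · intro h
    rw [h, map_one]

end odd2

section even
variable (k : Type*) [Field k] [Finite k] (h2 : (2 : k) = 0) (n : ℕ) (hn : Nat.card k = 2 ^ n)

/-- the trace to `𝔽₂` -/
def TT (n : ℕ) {k : Type*} [Field k] (c : k) : k := ∑ i ∈ range n, c ^ 2 ^ i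

include h2 in
theorem charTwo : CharP k 2 := by
  have h := CharTwo.of_one_ne_zero_of_two_eq_zero (R := k) one_ne_zero h2
  exact h

include h2 in
omit [Finite k] in
theorem add_pow_two_pow (a b : k) (i : ℕ) : (a + b) ^ 2 ^ i = a ^ 2 ^ i + b ^ 2 ^ i := by
  haveI : CharP k 2 := CharTwo.of_one_ne_zero_of_two_eq_zero (R := k) one_ne_zero h2
  exact add_pow_char_pow a b 2 i

include h2 in
omit [Finite k] in
theorem TT_add (a b : k) : TT n (a + b) = TT n a + TT n b := by
  rw [TT, TT, TT, ← sum_add_distrib]
  exact sum_congr rfl fun i _ => add_pow_two_pow k h2 a b i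

include h2 in
omit [Finite k] in
theorem TT_wp (s : k) : TT n (s ^ 2 + s) = s ^ 2 ^ n + s := by
  induction n with
  | zero =>
    rw [TT, range_zero, sum_empty, pow_zero, pow_one]
    linear_combination -s * h2
  | succ n ih =>
    rw [TT, sum_range_succ, ← TT, ih, add_pow_two_pow k h2, ← pow_mul, ← pow_succ']
    linear_combination s ^ 2 ^ n * h2

include hn in
theorem frob_card (s : k) : s ^ 2 ^ n = s := by
  letI := Fintype.ofFinite k
  rw [← hn, Nat.card_eq_fintype_card]
  exact FiniteField.pow_card s

include h2 hn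

/-- Artin-Schreier -/
theorem as_iff (c : k) : (∃ s : k, s ^ 2 + s + c = 0) ↔ TT n c = 0 := by
  haveI : CharP k 2 := CharTwo.of_one_ne_zero_of_two_eq_zero (R := k) one_ne_zero h2
  have hn0 : n ≠ 0 := by
    rintro rfl
    rw [pow_zero] at hn
    have := Finite.one_lt_card (α := k)
    omega
  -- the additive maps
  let wp : k →+ k :=
    { toFun := fun s => s ^ 2 + s
      map_zero' := by simp
      map_add' := fun a b => by linear_combination a * b * h2 }
  let T : k →+ k :=
    { toFun := fun s => TT n s
      map_zero' := by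
        rw [TT]
        exact sum_eq_zero fun i _ => by rw [zero_pow (by positivity)]
      map_add' := fun a b => TT_add k h2 n a b }
  have hle : wp.range ≤ T.ker := by
    rintro _ ⟨s, rfl⟩
    change TT n (s ^ 2 + s) = 0
    rw [TT_wp k h2, frob_card k n hn]
    linear_combination s * h2
  have hker : Nat.card wp.ker ≤ 2 := by
    have h3 : (wp.ker : Set k) ⊆ ({0, 1} : Finset k) := by
      intro s hs
      have h4 : s ^ 2 + s = 0 := hs
      have h5 : s * (s - 1) = 0 := by linear_combination h4 - s * h2
      rcases mul_eq_zero.1 h5 with h6 | h6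
      · simp [h6]
      · simp [sub_eq_zero.1 h6]
    calc Nat.card wp.ker = Nat.card ((wp.ker : Set k)) := rfl
      _ ≤ Nat.card (({0, 1} : Finset k) : Set k) := Nat.card_mono (Finset.finite_toSet _) h3
      _ ≤ 2 := by
        rw [Nat.card_eq_card_toFinset, Finset.toFinset_coe]
        exact Finset.card_le_two
  have hrange : 2 ^ (n - 1) ≤ Nat.card wp.range := by
    have h3 := wp.ker.card_mul_index
    have h4 : Nat.card wp.range = wp.ker.index := (AddSubgroup.index_ker wp).symm
    rw [hn] at h3
    have h5 : 2 ^ n = 2 * 2 ^ (n - 1) := by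
      rw [← pow_succ']
      congr 1
      omega
    rw [h4]
    by_contra hlt
    rw [not_le] at hlt
    have : Nat.card wp.ker * wp.ker.index < 2 * 2 ^ (n - 1) := by
      calc Nat.card wp.ker * wp.ker.index ≤ 2 * wp.ker.index := Nat.mul_le_mul_right _ hker
        _ < 2 * 2 ^ (n - 1) := by omega
    omega
  have hT : Nat.card T.ker ≤ 2 ^ (n - 1) := by
    let P : k[X] := ∑ i ∈ range n, X ^ 2 ^ i
    have hP0 : P.coeff (2 ^ (n - 1)) = 1 := by
      rw [finset_sum_coeff]
      rw [sum_eq_single (n - 1)]
      · rw [coeff_X_pow, if_pos rfl]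
      · intro i _ hi
        rw [coeff_X_pow, if_neg]
        intro h
        exact hi (Nat.pow_right_injective le_rfl h).symm
      · intro h
        exact absurd (mem_range.2 (by omega)) h
    have hP : P ≠ 0 := by
      intro h
      rw [h, coeff_zero] at hP0
      exact zero_ne_one hP0
    have hdeg : P.natDegree ≤ 2 ^ (n - 1) := by
      refine natDegree_sum_le_of_forall_le _ _ fun i hi => ?_
      rw [natDegree_X_pow]
      exact Nat.pow_le_pow_right (by norm_num) (by rw [mem_range] at hi; omega)
    have hsub : (T.ker : Set k) ⊆ (P.roots.toFinset : Set k) := by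
      intro s hs
      rw [Finset.mem_coe, Multiset.mem_toFinset, mem_roots hP, IsRoot, eval_finset_sum]
      have h4 : TT n s = 0 := hs
      rw [← h4, TT]
      exact sum_congr rfl fun i _ => by rw [eval_pow, eval_X]
    calc Nat.card T.ker = Nat.card ((T.ker : Set k)) := rfl
      _ ≤ Nat.card (P.roots.toFinset : Set k) := Nat.card_mono (Finset.finite_toSet _) hsub
      _ = P.roots.toFinset.card := by
        rw [Nat.card_eq_card_toFinset, Finset.toFinset_coe]
      _ ≤ P.roots.card := Multiset.toFinset_card_le _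
      _ ≤ P.natDegree := card_roots' _
      _ ≤ _ := hdeg
  have heq : wp.range = T.ker := by
    apply SetLike.coe_injective
    refine Set.eq_of_subset_of_ncard_le hle ?_ (Set.toFinite _)
    exact hT.trans hrange
  constructor
  · rintro ⟨s, hs⟩
    have h3 : c ∈ wp.range := ⟨s, by
      change s ^ 2 + s = c
      linear_combination hs - c * h2⟩
    rw [heq] at h3
    exact h3
  · intro h
    have h3 : c ∈ T.ker := h
    rw [← heq] at h3
    obtain ⟨s, hs⟩ := h3
    refine ⟨s, ?_⟩
    have h4 : s ^ 2 + s = c := hs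
    linear_combination h4 + c * h2

theorem TT_zero_one (c : k) : TT n c = 0 ∨ TT n c = 1 := by
  have h3 : (TT n c) ^ 2 = TT n c := by
    have h4 : ∀ m : ℕ, (TT m c) ^ 2 = TT m (c ^ 2) := by
      intro m
      induction m with
      | zero => simp [TT]
      | succ m ih =>
        have e1 : ∀ x : k, TT (m + 1) x = TT m x + x ^ 2 ^ m := fun x => by
          rw [TT, sum_range_succ, ← TT]
        rw [e1, e1, ← ih, ← pow_mul, mul_comm 2 (2 ^ m), pow_mul]
        linear_combination (TT m c) * c ^ 2 ^ m * h2
    rw [h4]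
    have h5 : TT n (c ^ 2 + c) = 0 := by
      rw [TT_wp k h2, frob_card k n hn]
      linear_combination c * h2
    rw [TT_add k h2] at h5
    linear_combination h5 - TT n c * h2
  have h4 : TT n c * (TT n c - 1) = 0 := by linear_combination h3
  rcases mul_eq_zero.1 h4 with h5 | h5
  · exact Or.inl h5
  · exact Or.inr (sub_eq_zero.1 h5)

/-- the Artin-Schreier classes form a group of order two -/
theorem as_add (c d : k) : (∃ s : k, s ^ 2 + s + (c + d) = 0) ↔
    ((∃ s : k, s ^ 2 + s + c = 0) ↔ (∃ s : k, s ^ 2 + s + d = 0)) := by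
  rw [as_iff k h2 n hn, as_iff k h2 n hn, as_iff k h2 n hn, TT_add k h2]
  rcases TT_zero_one k h2 n hn c with h | h <;> rcases TT_zero_one k h2 n hn d with h' | h' <;>
    rw [h, h']
  · simp
  · simp
  · simp
  · have : (1 : k) + 1 = 0 := by linear_combination h2
    simp [this]

end even

section even2
variable (k l : Type*) [Field k] [Finite k] [Field l] [Finite l] (φ : k →+* l)
  (h2 : (2 : k) = 0) (hcard : Nat.card l = Nat.card k ^ 2) (n : ℕ) (hn : Nat.card k = 2 ^ n)
include h2 hcard hn

theorem as_trace (c : l) (C : k) (hC : φ C = c + c ^ Nat.card k) :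
    (∃ s : l, s ^ 2 + s + c = 0) ↔ ∃ s : k, s ^ 2 + s + C = 0 := by
  have h2l : (2 : l) = 0 := by
    rw [← map_ofNat φ, h2, _root_.map_zero]
  have hl : Nat.card l = 2 ^ (n + n) := by
    rw [hcard, hn]
    ring
  rw [as_iff l h2l (n + n) hl, as_iff k h2 n hn]
  have h3 : TT (n + n) c = φ (TT n C) := by
    have h4 : TT (n + n) c = TT n c + TT n (c ^ 2 ^ n) := by
      rw [TT, sum_range_add, TT, TT]
      congr 1
      exact sum_congr rfl fun i _ => by rw [pow_add, pow_mul]
    rw [h4, ← TT_add l h2l, ← hn, ← hC, TT, TT, map_sum]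
    exact sum_congr rfl fun i _ => by rw [map_pow]
  rw [h3, map_eq_zero]

end even2

end NAB
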