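import Pool.Agent.MP_9ab903_nt.NAB.QR1
import Pool.Agent.MP_9ab903_nt.NAB.QR2

set_option autoImplicit false

open NumberField IsDedekindDomain UniqueFactorizationMonoid
open CM27 CMT
open scoped Classical

namespace NAB

/-! ## [NAB-QR3] multiplicativity of the symbol (file NAB/QR3.lean) -/

section
variable {F : Type} [Field F] [NumberField F]

/-- coprime elements -/
def Cop (a b : 𝓞 F) : Prop := ∀ w : HeightOneSpectrum (𝓞 F), a ∈ w.asIdeal → b ∉ w.asIdeal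

/-- up to a square congruent to `1` modulo `4` -/
def Adm (a : 𝓞 F) : Prop := ∃ u c : 𝓞 F, u ≠ 0 ∧ a * u ^ 2 = 1 - 4 * c

theorem Cop.symm {a b : 𝓞 F} (h : Cop a b) : Cop b a := fun w hb ha => h w ha hb

theorem four_mem {w : HeightOneSpectrum (𝓞 F)} (h2 : (2 : 𝓞 F) ∈ w.asIdeal) :
    (4 : 𝓞 F) ∈ w.asIdeal := by
  have h5 : (4 : 𝓞 F) = 2 * 2 := by norm_num
  rw [h5]
  exact Ideal.mul_mem_left _ _ h2

theorem not_mem_of_sub {w : HeightOneSpectrum (𝓞 F)} {a x : 𝓞 F} (h : a - 1 ∈ w.asIdeal) :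
    a ∉ w.asIdeal := by
  intro ha
  apply w.isPrime.ne_top
  rw [Ideal.eq_top_iff_one]
  have h5 : (1 : 𝓞 F) = a - (a - 1) := by ring
  rw [h5]
  exact Ideal.sub_mem _ ha h

theorem one_sub_not_mem {w : HeightOneSpectrum (𝓞 F)} {c : 𝓞 F} (h2 : (2 : 𝓞 F) ∈ w.asIdeal) :
    (1 - 4 * c : 𝓞 F) ∉ w.asIdeal := by
  apply not_mem_of_sub (x := 0)
  have h5 : (1 - 4 * c : 𝓞 F) - 1 = -c * 4 := by ring
  rw [h5]
  exact Ideal.mul_mem_left _ _ (four_mem h2)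

theorem Adm.cop_two {a : 𝓞 F} (h : Adm a) : Cop a 2 := by
  obtain ⟨u, c, hu, hc⟩ := h
  intro w ha h2
  apply one_sub_not_mem (c := c) h2
  rw [← hc]
  exact Ideal.mul_mem_right _ _ ha

theorem Adm.mul {a b : 𝓞 F} (ha : Adm a) (hb : Adm b) : Adm (a * b) := by
  obtain ⟨u, c, hu, hc⟩ := ha
  obtain ⟨u', c', hu', hc'⟩ := hb
  exact ⟨u * u', c + c' - 4 * c * c', mul_ne_zero hu hu', by
    calc a * b * (u * u') ^ 2 = (a * u ^ 2) * (b * u' ^ 2) := by ring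
      _ = 1 - 4 * (c + c' - 4 * c * c') := by rw [hc, hc']; ring⟩

theorem adm_of_four {a : 𝓞 F} (h : (4 : 𝓞 F) ∣ a - 1) : Adm a := by
  obtain ⟨c, hc⟩ := h
  exact ⟨1, -c, one_ne_zero, by linear_combination hc⟩

theorem Adm.ne_zero {a : 𝓞 F} (h : Adm a) (w : HeightOneSpectrum (𝓞 F))
    (h2 : (2 : 𝓞 F) ∈ w.asIdeal) : a ≠ 0 := by
  rintro rfl
  exact h.cop_two w (Ideal.zero_mem _) h2

theorem symb_even' (c : 𝓞 F) (v : HeightOneSpectrum (𝓞 F)) (h2 : (2 : 𝓞 F) ∈ v.asIdeal) :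
    symb ((1 - 4 * c : 𝓞 F) : F) v = if ∃ s : 𝓞 F ⧸ v.asIdeal,
      s ^ 2 + s + Ideal.Quotient.mk v.asIdeal c = 0 then 1 else -1 := by
  rw [symb_even c v h2]
  congr 1
  apply propext
  constructor
  · rintro ⟨s, hs⟩
    refine ⟨Ideal.Quotient.mk v.asIdeal s, ?_⟩
    rw [← map_pow, ← map_add, ← map_add, Ideal.Quotient.eq_zero_iff_mem]
    exact hs
  · rintro ⟨s, hs⟩
    obtain ⟨s, rfl⟩ := Ideal.Quotient.mk_surjective s
    refine ⟨s, ?_⟩
    rw [← map_pow, ← map_add, ← map_add, Ideal.Quotient.eq_zero_iff_mem] at hs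
    exact hs

theorem symb_one_or (a : 𝓞 F) (v : HeightOneSpectrum (𝓞 F)) (ha : a ∉ v.asIdeal) :
    symb (a : F) v = 1 ∨ symb (a : F) v = -1 := by
  rw [symb_unit a v ha]
  split_ifs
  · exact Or.inl rfl
  · exact Or.inr rfl

theorem symb_sq (a : 𝓞 F) (v : HeightOneSpectrum (𝓞 F)) (ha : a ∉ v.asIdeal) :
    symb (a : F) v * symb (a : F) v = 1 := by
  rcases symb_one_or a v ha with h | h <;> rw [h] <;> norm_num

theorem ite_mul_ite (p q r : Prop) (h : r ↔ (p ↔ q)) :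
    (if r then (1 : ℤ) else -1) = (if p then 1 else -1) * (if q then 1 else -1) := by
  by_cases hp : p <;> by_cases hq : q <;> simp [h, hp, hq]

theorem card_two_pow (k : Type*) [Field k] [Finite k] (h2 : (2 : k) = 0) :
    ∃ n : ℕ, Nat.card k = 2 ^ n := by
  haveI : CharP k 2 := CharTwo.of_one_ne_zero_of_two_eq_zero one_ne_zero h2
  letI := Fintype.ofFinite k
  obtain ⟨n, -, hn⟩ := FiniteField.card k 2
  exact ⟨n, by rw [Nat.card_eq_fintype_card, hn]⟩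

theorem two_quot (v : HeightOneSpectrum (𝓞 F)) :
    (2 : 𝓞 F ⧸ v.asIdeal) = 0 ↔ (2 : 𝓞 F) ∈ v.asIdeal := by
  rw [← map_ofNat (Ideal.Quotient.mk v.asIdeal) 2, Ideal.Quotient.eq_zero_iff_mem]

theorem finite_quot (v : HeightOneSpectrum (𝓞 F)) : Finite (𝓞 F ⧸ v.asIdeal) :=
  Ideal.finiteQuotientOfFreeOfNeBot _ v.ne_bot

/-- the symbol is multiplicative -/
theorem symb_mul (a b : 𝓞 F) (v : HeightOneSpectrum (𝓞 F)) (ha : a ∉ v.asIdeal)
    (hb : b ∉ v.asIdeal) (h : (2 : 𝓞 F) ∈ v.asIdeal → Adm a ∧ Adm b) :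
    symb ((a * b : 𝓞 F) : F) v = symb (a : F) v * symb (b : F) v := by
  have hab : a * b ∉ v.asIdeal := by
    intro h1
    rcases v.isPrime.mem_or_mem h1 with h2 | h2
    · exact ha h2
    · exact hb h2
  haveI := v.isMaximal
  letI : Field (𝓞 F ⧸ v.asIdeal) := Ideal.Quotient.field v.asIdeal
  haveI := finite_quot v
  by_cases h2 : (2 : 𝓞 F) ∈ v.asIdeal
  · obtain ⟨⟨u, c, hu, hc⟩, ⟨u', c', hu', hc'⟩⟩ := h h2
    have hu0 : (u : F) ≠ 0 := RingOfIntegers.coe_ne_zero_iff.2 hu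
    have hu0' : (u' : F) ≠ 0 := RingOfIntegers.coe_ne_zero_iff.2 hu'
    have e1 : symb (a : F) v = symb ((1 - 4 * c : 𝓞 F) : F) v := by
      rw [← hc, ← symb_mul_sq (a : F) (u : F) hu0 v]
      rfl
    have e2 : symb (b : F) v = symb ((1 - 4 * c' : 𝓞 F) : F) v := by
      rw [← hc', ← symb_mul_sq (b : F) (u' : F) hu0' v]
      rfl
    have e3 : symb ((a * b : 𝓞 F) : F) v = symb ((1 - 4 * (c + c' - 4 * c * c') : 𝓞 F) : F) v := by
      have e4 : (1 - 4 * (c + c' - 4 * c * c') : 𝓞 F) = a * b * (u * u') ^ 2 := by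
        calc (1 - 4 * (c + c' - 4 * c * c') : 𝓞 F) = (1 - 4 * c) * (1 - 4 * c') := by ring
          _ = _ := by rw [← hc, ← hc']; ring
      rw [e4, ← symb_mul_sq ((a * b : 𝓞 F) : F) ((u : F) * u') (mul_ne_zero hu0 hu0') v]
      rfl
    rw [e1, e2, e3, symb_even' _ v h2, symb_even' _ v h2, symb_even' _ v h2]
    apply ite_mul_ite
    have h2k : (2 : 𝓞 F ⧸ v.asIdeal) = 0 := (two_quot v).2 h2
    obtain ⟨n, hn⟩ := card_two_pow _ h2k
    have h4k : (4 : 𝓞 F ⧸ v.asIdeal) = 0 := by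
      have h5 : (4 : 𝓞 F ⧸ v.asIdeal) = 2 * 2 := by norm_num
      rw [h5, h2k, zero_mul]
    rw [map_sub, map_add, map_mul, map_mul, map_ofNat, h4k, zero_mul, zero_mul, sub_zero]
    exact as_add _ h2k n hn _ _
  · have h2k : (2 : 𝓞 F ⧸ v.asIdeal) ≠ 0 := fun h3 => h2 ((two_quot v).1 h3)
    rw [symb_odd _ v h2 hab, symb_odd _ v h2 ha, symb_odd _ v h2 hb]
    apply ite_mul_ite
    rw [map_mul]
    exact isSquare_mul_iff _ h2k _ _ (fun h3 => ha (Ideal.Quotient.eq_zero_iff_mem.1 h3))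
      (fun h3 => hb (Ideal.Quotient.eq_zero_iff_mem.1 h3))

end

end NAB
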