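import Pool.Agent.MP_9ab903_nt.NAB.QR3

set_option autoImplicit false

open NumberField IsDedekindDomain UniqueFactorizationMonoid
open CM27 CMT
open scoped Classical

namespace NAB

/-! ## [NAB-QR4] the global symbol (file NAB/QR4.lean) -/

section
variable {F : Type} [Field F] [NumberField F]

theorem cm_congr_of {M : Type*} [CommMonoidWithZero M] (h h' : HeightOneSpectrum (𝓞 F) → M)
    (I : Ideal (𝓞 F)) (H : ∀ w : HeightOneSpectrum (𝓞 F), w.asIdeal ∣ I → h w = h' w) :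
    cm h I = cm h' I := by
  rw [cm, cm]
  by_cases hI : I = 0
  · rw [if_pos hI, if_pos hI]
  · rw [if_neg hI, if_neg hI]
    congr 1
    refine Multiset.map_congr rfl fun P hP => ?_
    by_cases h1 : P.IsPrime ∧ P ≠ ⊥
    · rw [dif_pos h1, dif_pos h1]
      exact H ⟨P, h1.1, h1.2⟩ (dvd_of_mem_normalizedFactors hP)
    · rw [dif_neg h1, dif_neg h1]

theorem cm_mul_fun {M : Type*} [CommMonoidWithZero M] (h h' : HeightOneSpectrum (𝓞 F) → M)
    (I : Ideal (𝓞 F)) : cm (fun v => h v * h' v) I = cm h I * cm h' I := by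
  rw [cm, cm, cm]
  by_cases hI : I = 0
  · rw [if_pos hI, if_pos hI, if_pos hI, mul_zero]
  · rw [if_neg hI, if_neg hI, if_neg hI, ← Multiset.prod_map_mul]
    congr 1
    refine Multiset.map_congr rfl fun P hP => ?_
    by_cases h1 : P.IsPrime ∧ P ≠ ⊥
    · rw [dif_pos h1, dif_pos h1, dif_pos h1]
    · rw [dif_neg h1, dif_neg h1, dif_neg h1, mul_one]

theorem cm_fun_one {M : Type*} [CommMonoidWithZero M] (I : Ideal (𝓞 F)) (hI : I ≠ 0) :
    cm (fun _ => (1 : M)) I = 1 := by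
  rw [cm, if_neg hI]
  refine Multiset.prod_eq_one fun x hx => ?_
  obtain ⟨P, -, rfl⟩ := Multiset.mem_map.1 hx
  split_ifs <;> rfl

/-- `χ_α((g))` -/
noncomputable def Xg (α g : 𝓞 F) : ℤ := chi (α : F) (Ideal.span {g})

theorem span_ne_zero {g : 𝓞 F} (hg : g ≠ 0) : Ideal.span {g} ≠ 0 := by
  rw [Ne, Ideal.zero_eq_bot, Ideal.span_singleton_eq_bot]
  exact hg

theorem Xg_mul_right (α g h : 𝓞 F) : Xg α (g * h) = Xg α g * Xg α h := by
  rw [Xg, Xg, Xg, chi, chi, chi, ← Ideal.span_singleton_mul_span_singleton, cm_mul]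

theorem Xg_unit (α u : 𝓞 F) (hu : IsUnit u) : Xg α u = 1 := by
  rw [Xg, chi, Ideal.span_singleton_eq_top.2 hu, ← Ideal.one_eq_top, cm_one]

theorem Xg_one (α : 𝓞 F) : Xg α 1 = 1 := Xg_unit α 1 isUnit_one

theorem Xg_neg (α g : 𝓞 F) : Xg α (-g) = Xg α g := by
  rw [Xg, Xg, Ideal.span_singleton_neg]

theorem Xg_assoc (α g g' : 𝓞 F) (h : Associated g g') : Xg α g = Xg α g' := by
  rw [Xg, Xg, Ideal.span_singleton_eq_span_singleton.2 h]

theorem Xg_sq_left (α u g : 𝓞 F) (hu : u ≠ 0) : Xg (α * u ^ 2) g = Xg α g := by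
  have hu0 : (u : F) ≠ 0 := RingOfIntegers.coe_ne_zero_iff.2 hu
  rw [Xg, Xg, chi, chi]
  congr 1
  funext w
  exact symb_mul_sq (α : F) (u : F) hu0 w

theorem dvd_span {w : HeightOneSpectrum (𝓞 F)} {g : 𝓞 F} :
    w.asIdeal ∣ Ideal.span {g} ↔ g ∈ w.asIdeal := Ideal.dvd_span_singleton

theorem Xg_congr (α α' g : 𝓞 F)
    (h : ∀ w : HeightOneSpectrum (𝓞 F), g ∈ w.asIdeal → symb (α : F) w = symb (α' : F) w) :
    Xg α g = Xg α' g :=
  cm_congr_of _ _ _ fun w hw => h w (dvd_span.1 hw)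

theorem Xg_eq_one (α g : 𝓞 F) (hg : g ≠ 0)
    (h : ∀ w : HeightOneSpectrum (𝓞 F), g ∈ w.asIdeal → symb (α : F) w = 1) : Xg α g = 1 := by
  rw [Xg, chi, cm_congr_of (symb (α : F)) (fun _ => 1) _ fun w hw => h w (dvd_span.1 hw)]
  exact cm_fun_one _ (span_ne_zero hg)

theorem Xg_mul_left (α α' g : 𝓞 F) (h1 : Cop α g) (h2 : Cop α' g)
    (h : Cop g 2 ∨ (Adm α ∧ Adm α')) : Xg (α * α') g = Xg α g * Xg α' g := by
  rw [Xg, Xg, Xg, chi, chi, chi, ← cm_mul_fun]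
  refine cm_congr_of _ _ _ fun w hw => ?_
  have hw' := dvd_span.1 hw
  refine symb_mul α α' w (h1.symm w hw') (h2.symm w hw') fun h2w => ?_
  rcases h with h | h
  · exact absurd h2w (h w hw')
  · exact h

theorem Xg_sq (α g : 𝓞 F) (hg : g ≠ 0) (h : Cop α g) : Xg α g * Xg α g = 1 := by
  rw [Xg, chi, ← cm_mul_fun, cm_congr_of _ (fun _ => 1) _ fun w hw => ?_]
  · exact cm_fun_one _ (span_ne_zero hg)
  · exact symb_sq α w (h.symm w (dvd_span.1 hw))

theorem Xg_one_or (α g : 𝓞 F) (hg : g ≠ 0) (h : Cop α g) : Xg α g = 1 ∨ Xg α g = -1 := by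
  have h1 := Xg_sq α g hg h
  exact Int.isUnit_iff.1 (IsUnit.of_mul_eq_one _ h1)

theorem symb_congr_odd (a b : 𝓞 F) (v : HeightOneSpectrum (𝓞 F)) (h2 : (2 : 𝓞 F) ∉ v.asIdeal)
    (ha : a ∉ v.asIdeal) (hab : a - b ∈ v.asIdeal) : symb (a : F) v = symb (b : F) v := by
  have hb : b ∉ v.asIdeal := by
    intro h
    apply ha
    have h5 : a = (a - b) + b := by ring
    rw [h5]
    exact Ideal.add_mem _ hab h
  rw [symb_odd a v h2 ha, symb_odd b v h2 hb, Ideal.Quotient.eq.2 hab]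

theorem Xg_congr_left (α α' g : 𝓞 F) (hc : Cop α g) (h2 : Cop g 2) (hd : g ∣ α - α') :
    Xg α g = Xg α' g := by
  refine Xg_congr α α' g fun w hw => ?_
  refine symb_congr_odd α α' w (h2 w hw) (hc.symm w hw) ?_
  obtain ⟨t, ht⟩ := hd
  rw [ht]
  exact Ideal.mul_mem_right _ _ hw

/-- squares -/
theorem symb_square (u : 𝓞 F) (hu : u ≠ 0) (v : HeightOneSpectrum (𝓞 F)) :
    symb ((u ^ 2 : 𝓞 F) : F) v = 1 := by
  have hu0 : (u : F) ≠ 0 := RingOfIntegers.coe_ne_zero_iff.2 hu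
  have h1 := symb_mul_sq (1 : F) (u : F) hu0 v
  have h2 : symb (1 : F) v = 1 := by
    rw [symb, if_pos (by rw [map_one]; exact ⟨1, (mul_one 1).symm⟩), if_pos]
    refine ⟨1, ?_⟩
    rw [one_pow, sub_self, map_zero, mul_one, zero_lt_iff, Ne, Valuation.zero_iff]
    norm_num
  rw [h2, one_mul] at h1
  exact h1

theorem Xg_square (u g : 𝓞 F) (hu : u ≠ 0) (hg : g ≠ 0) : Xg (u ^ 2) g = 1 :=
  Xg_eq_one _ g hg fun w _ => symb_square u hu w

theorem Cop.mul_left {a b c : 𝓞 F} (ha : Cop a c) (hb : Cop b c) : Cop (a * b) c := by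
  intro w hab hc
  rcases w.isPrime.mem_or_mem hab with h | h
  · exact ha w h hc
  · exact hb w h hc

theorem Cop.mul_right {a b c : 𝓞 F} (hb : Cop a b) (hc : Cop a c) : Cop a (b * c) :=
  (hb.symm.mul_left hc.symm).symm

theorem Cop.of_mul_left {a b c : 𝓞 F} (h : Cop (a * b) c) : Cop a c :=
  fun w ha => h w (Ideal.mul_mem_right _ _ ha)

theorem Cop.of_mul_left' {a b c : 𝓞 F} (h : Cop (a * b) c) : Cop b c :=
  fun w ha => h w (Ideal.mul_mem_left _ _ ha)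

theorem Cop.of_mul_right {a b c : 𝓞 F} (h : Cop a (b * c)) : Cop a b := h.symm.of_mul_left.symm

theorem Cop.of_mul_right' {a b c : 𝓞 F} (h : Cop a (b * c)) : Cop a c := h.symm.of_mul_left'.symm

theorem Cop.neg_left {a b : 𝓞 F} (h : Cop a b) : Cop (-a) b :=
  fun w ha => h w (by rwa [Ideal.neg_mem_iff] at ha)

theorem Cop.neg_right {a b : 𝓞 F} (h : Cop a b) : Cop a (-b) := h.symm.neg_left.symm

end

end NAB
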