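import Pool.Agent.MP_9ab903_nt.NAB.QR4

set_option autoImplicit false

open NumberField IsDedekindDomain UniqueFactorizationMonoid
open CM27 CMT
open scoped Classical

namespace NAB

/-! ## [NAB-QR5] quadratic extensions (file NAB/QR5.lean) -/

section
variable (k F : Type) [Field k] [NumberField k] [Field F] [NumberField F] [Algebra k F]

/-- the norm -/
noncomputable def Nm (β : 𝓞 F) : 𝓞 k := Algebra.intNorm (𝓞 k) (𝓞 F) β

theorem Nm_mul (β γ : 𝓞 F) : Nm k F (β * γ) = Nm k F β * Nm k F γ := map_mul _ _ _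

theorem coe_Nm (β : 𝓞 F) : ((Nm k F β : 𝓞 k) : k) = Algebra.norm k (β : F) :=
  Algebra.algebraMap_intNorm (A := 𝓞 k) (K := k) (L := F) (B := 𝓞 F) β

theorem relNorm_span (β : 𝓞 F) : Ideal.relNorm (𝓞 k) (Ideal.span {β}) = Ideal.span {Nm k F β} :=
  Ideal.relNorm_singleton (R := 𝓞 k) (S := 𝓞 F) β

/-- the nontrivial automorphism -/
theorem exists_sigma [Algebra.IsQuadraticExtension k F] : ∃ sg : 𝓞 F ≃+* 𝓞 F,
    (∀ x : 𝓞 k, sg (algebraMap (𝓞 k) (𝓞 F) x) = algebraMap (𝓞 k) (𝓞 F) x) ∧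
    (∀ β, sg (sg β) = β) ∧ (∀ β, algebraMap (𝓞 k) (𝓞 F) (Nm k F β) = β * sg β) ∧
    (∀ β, ∃ t : 𝓞 k, algebraMap (𝓞 k) (𝓞 F) t = β + sg β) := by
  have hcard : Fintype.card (F ≃ₐ[k] F) = 2 := by
    rw [← Nat.card_eq_fintype_card, IsGalois.card_aut_eq_finrank,
      Algebra.IsQuadraticExtension.finrank_eq_two k F]
  obtain ⟨σ, hσ⟩ : ∃ σ : F ≃ₐ[k] F, σ ≠ 1 := by
    have : Nontrivial (F ≃ₐ[k] F) := Fintype.one_lt_card_iff_nontrivial.1 (by rw [hcard]; norm_num)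
    exact exists_ne 1
  have huniv : (Finset.univ : Finset (F ≃ₐ[k] F)) = {1, σ} := by
    symm
    apply Finset.eq_univ_of_card
    rw [hcard, Finset.card_pair hσ.symm]
  have hσ2 : σ * σ = 1 := by
    have h1 : σ * σ ∈ (Finset.univ : Finset (F ≃ₐ[k] F)) := Finset.mem_univ _
    rw [huniv, Finset.mem_insert, Finset.mem_singleton] at h1
    rcases h1 with h1 | h1
    · exact h1
    · exact absurd (mul_left_cancel (h1.trans (mul_one σ).symm)) hσ
  set sg : 𝓞 F ≃+* 𝓞 F := RingOfIntegers.mapRingEquiv σ.toRingEquiv with hsg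
  have hcoe : ∀ β : 𝓞 F, ((sg β : 𝓞 F) : F) = σ (β : F) := fun β => rfl
  refine ⟨sg, ?_, ?_, ?_, ?_⟩
  · intro x
    ext
    rw [hcoe]
    exact σ.commutes (x : k)
  · intro β
    ext
    rw [hcoe, hcoe, ← AlgEquiv.mul_apply, hσ2]
    rfl
  · intro β
    ext
    have h1 : ((algebraMap (𝓞 k) (𝓞 F) (Nm k F β) : 𝓞 F) : F) =
        algebraMap k F ((Nm k F β : 𝓞 k) : k) := rfl
    rw [h1, coe_Nm, Algebra.norm_eq_prod_automorphisms, huniv, Finset.prod_pair hσ.symm]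
    rfl
  · intro β
    refine ⟨⟨Algebra.trace k F (β : F), Algebra.isIntegral_trace (RingOfIntegers.isIntegral_coe β)⟩, ?_⟩
    ext
    have h1 : ((algebraMap (𝓞 k) (𝓞 F) ⟨Algebra.trace k F (β : F),
        Algebra.isIntegral_trace (RingOfIntegers.isIntegral_coe β)⟩ : 𝓞 F) : F) =
        algebraMap k F (Algebra.trace k F (β : F)) := rfl
    rw [h1, trace_eq_sum_automorphisms, huniv, Finset.sum_pair hσ.symm]
    rfl

end

end NAB
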