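import Pool.Agent.MP_9ab903_nt.NAB.QR6

set_option autoImplicit false

open NumberField IsDedekindDomain UniqueFactorizationMonoid
open CM27 CMT
open scoped Classical

namespace NAB

/-! ## [NAB-QR7] the primes in a quadratic extension (file NAB/QR7.lean) -/

section
variable {k F : Type} [Field k] [NumberField k] [Field F] [NumberField F] [Algebra k F]

theorem prime_data [Algebra.IsQuadraticExtension k F] (S : Sig k F)
    (w : HeightOneSpectrum (𝓞 F)) :
    (Nat.card (𝓞 F ⧸ w.asIdeal) = Nat.card (𝓞 k ⧸ (und k w).asIdeal) ∧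
      Ideal.relNorm (𝓞 k) w.asIdeal = (und k w).asIdeal ∧
      Ideal.map (algebraMap (𝓞 k) (𝓞 F)) (und k w).asIdeal = w.asIdeal * (S.sw w).asIdeal) ∨
    (Nat.card (𝓞 F ⧸ w.asIdeal) = Nat.card (𝓞 k ⧸ (und k w).asIdeal) ^ 2 ∧
      Ideal.relNorm (𝓞 k) w.asIdeal = (und k w).asIdeal ^ 2 ∧
      Ideal.map (algebraMap (𝓞 k) (𝓞 F)) (und k w).asIdeal = w.asIdeal) := by
  obtain ⟨f, hf, h1, h2⟩ := relNorm_prime (k := k) w
  set p := und k w with hp
  have hp0 : p.asIdeal ≠ 0 := p.ne_bot
  have h3 : Ideal.relNorm (𝓞 k) (Ideal.map (algebraMap (𝓞 k) (𝓞 F)) p.asIdeal) = p.asIdeal ^ 2 := by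
    rw [Ideal.relNorm_algebraMap, finrank_int]
  have hle : Ideal.map (algebraMap (𝓞 k) (𝓞 F)) p.asIdeal ≤ w.asIdeal := Ideal.map_comap_le
  obtain ⟨J, hJ⟩ := Ideal.dvd_iff_le.2 hle
  rw [hJ, map_mul, h1] at h3
  have hfle : f ≤ 2 := by
    by_contra hlt
    rw [not_le] at hlt
    have h5 : p.asIdeal ^ 3 ∣ p.asIdeal ^ 2 := by
      rw [← h3]
      exact (pow_dvd_pow _ hlt).mul_right _
    have h6 := (pow_dvd_pow_iff hp0 p.prime.not_unit).1 h5
    omega
  have hf12 : f = 1 ∨ f = 2 := by omega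
  rcases hf12 with rfl | rfl
  · left
    rw [pow_one] at h1 h2 h3
    refine ⟨h2, h1, ?_⟩
    have h5 : Ideal.relNorm (𝓞 k) J = p.asIdeal := by
      rw [pow_two] at h3
      exact mul_left_cancel₀ hp0 h3
    -- `J` is prime
    have hJ1 : J ≠ ⊤ := by
      rintro rfl
      rw [← Ideal.one_eq_top, map_one] at h5
      exact p.prime.not_unit (h5 ▸ isUnit_one)
    have hJ0 : J ≠ ⊥ := by
      rintro rfl
      rw [Ideal.relNorm_bot] at h5
      exact p.ne_bot h5.symm
    obtain ⟨Q, hQm, hQ⟩ := Ideal.exists_le_maximal J hJ1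
    let w' : HeightOneSpectrum (𝓞 F) := ⟨Q, hQm.isPrime, fun h => hJ0 (by
      rw [h] at hQ
      exact le_bot_iff.1 hQ)⟩
    obtain ⟨J', hJ'⟩ := Ideal.dvd_iff_le.2 hQ
    have hJw : J = w'.asIdeal := by
      obtain ⟨f', hf', h1', -⟩ := relNorm_prime (k := k) w'
      have h6 := congrArg (Ideal.relNorm (𝓞 k)) hJ'
      have h7 : Ideal.relNorm (𝓞 k) Q = (und k w').asIdeal ^ f' := h1'
      rw [h5, map_mul, h7] at h6
      have h8 : IsUnit (Ideal.relNorm (𝓞 k) J') := by
        have h9 : Irreducible p.asIdeal := p.prime.irreducible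
        rcases h9.isUnit_or_isUnit h6 with h10 | h10
        · exfalso
          have h11 := isUnit_of_dvd_unit (dvd_pow_self _ hf'.ne') h10
          exact (und k w').prime.not_unit h11
        · exact h10
      rw [Ideal.isUnit_iff, ← Ideal.one_eq_top] at h8
      rw [hJ', eq_one_of_relNorm J' h8, mul_one]
    have hund : und k w' = p := by
      apply HeightOneSpectrum.ext
      refine (p.isMaximal.eq_of_le (und k w').isPrime.ne_top ?_).symm
      intro x hx
      rw [mem_und]
      have h6 : algebraMap (𝓞 k) (𝓞 F) x ∈ Ideal.map (algebraMap (𝓞 k) (𝓞 F)) p.asIdeal :=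
        Ideal.mem_map_of_mem _ hx
      rw [hJ] at h6
      rw [← hJw]
      exact Ideal.mul_le_right h6
    have hfin : w' = S.sw w := by
      by_cases hww : S.sw w = w
      · rw [hww]
        by_contra hne
        have hnle : ¬ w'.asIdeal ≤ w.asIdeal := by
          intro h6
          exact hne (HeightOneSpectrum.ext (w'.isMaximal.eq_of_le w.isPrime.ne_top h6))
        obtain ⟨β, hβ, hβw⟩ := Set.not_subset.1 hnle
        have h6 := S.norm_mem w' β hβ
        rw [hund] at h6
        rcases S.mem_or w β h6 with h7 | h7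
        · exact hβw h7
        · rw [hww] at h7
          exact hβw h7
      · have h6 : (S.sw w).asIdeal ∣ w.asIdeal * J := by
          rw [← hJ, Ideal.dvd_iff_le, Ideal.map_le_iff_le_comap]
          intro x hx
          change algebraMap (𝓞 k) (𝓞 F) x ∈ (S.sw w).asIdeal
          rw [S.mem_sw, S.fix]
          exact hx
        rcases (S.sw w).prime.dvd_or_dvd h6 with h7 | h7
        · exfalso
          apply hww
          rw [Ideal.dvd_iff_le] at h7
          exact HeightOneSpectrum.ext (w.isMaximal.eq_of_le (S.sw w).isPrime.ne_top h7).symm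
        · rw [hJw, Ideal.dvd_iff_le] at h7
          exact HeightOneSpectrum.ext (w'.isMaximal.eq_of_le (S.sw w).isPrime.ne_top h7)
    rw [hJ, hJw, hfin]
  · right
    refine ⟨h2, h1, ?_⟩
    have h5 : Ideal.relNorm (𝓞 k) J = 1 := by
      have h6 : p.asIdeal ^ 2 * Ideal.relNorm (𝓞 k) J = p.asIdeal ^ 2 * 1 := by
        rw [h3, mul_one]
      exact mul_left_cancel₀ (pow_ne_zero 2 hp0) h6
    rw [hJ, eq_one_of_relNorm J h5, mul_one]

end

end NAB
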