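import Pool.Agent.MP_9ab903_nt.NAB.QR7

set_option autoImplicit false

open NumberField IsDedekindDomain UniqueFactorizationMonoid
open CM27 CMT
open scoped Classical

namespace NAB

/-! ## [NAB-QR8] the symbol in a quadratic extension, local part (file NAB/QR8.lean) -/

section
variable {k F : Type} [Field k] [NumberField k] [Field F] [NumberField F] [Algebra k F]

/-- the map of residue fields -/
noncomputable def rmap (k : Type) [Field k] [NumberField k] [Algebra k F]
    (w : HeightOneSpectrum (𝓞 F)) : 𝓞 k ⧸ (und k w).asIdeal →+* 𝓞 F ⧸ w.asIdeal :=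
  Ideal.quotientMap w.asIdeal (algebraMap (𝓞 k) (𝓞 F)) le_rfl

theorem rmap_mk (w : HeightOneSpectrum (𝓞 F)) (x : 𝓞 k) :
    rmap k w (Ideal.Quotient.mk _ x) = Ideal.Quotient.mk _ (algebraMap (𝓞 k) (𝓞 F) x) :=
  Ideal.quotientMap_mk

theorem rmap_injective (w : HeightOneSpectrum (𝓞 F)) : Function.Injective (rmap k w) :=
  Ideal.quotientMap_injective' le_rfl

theorem rmap_surjective (w : HeightOneSpectrum (𝓞 F))
    (h : Nat.card (𝓞 F ⧸ w.asIdeal) = Nat.card (𝓞 k ⧸ (und k w).asIdeal)) :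
    Function.Surjective (rmap k w) := by
  haveI := finite_quot w
  haveI := finite_quot (und k w)
  exact ((Nat.bijective_iff_injective_and_card _).2 ⟨rmap_injective w, h.symm⟩).2

theorem two_und (w : HeightOneSpectrum (𝓞 F)) :
    (2 : 𝓞 k) ∈ (und k w).asIdeal ↔ (2 : 𝓞 F) ∈ w.asIdeal := by
  rw [mem_und, map_ofNat]

/-- the Frobenius -/
theorem frob (S : Sig k F) (w : HeightOneSpectrum (𝓞 F))
    (h : Nat.card (𝓞 F ⧸ w.asIdeal) = Nat.card (𝓞 k ⧸ (und k w).asIdeal) ^ 2)
    (hw : Ideal.map (algebraMap (𝓞 k) (𝓞 F)) (und k w).asIdeal = w.asIdeal) (β : 𝓞 F) :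
    Ideal.Quotient.mk w.asIdeal (S.sg β) =
      Ideal.Quotient.mk w.asIdeal β ^ Nat.card (𝓞 k ⧸ (und k w).asIdeal) := by
  haveI := finite_quot w
  haveI := finite_quot (und k w)
  haveI := w.isMaximal
  haveI := (und k w).isMaximal
  letI : Field (𝓞 F ⧸ w.asIdeal) := Ideal.Quotient.field w.asIdeal
  letI : Field (𝓞 k ⧸ (und k w).asIdeal) := Ideal.Quotient.field (und k w).asIdeal
  set q := Nat.card (𝓞 k ⧸ (und k w).asIdeal) with hq
  set mk := Ideal.Quotient.mk w.asIdeal with hmk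
  have hfix : ∀ y : 𝓞 k ⧸ (und k w).asIdeal, (rmap k w y) ^ q = rmap k w y := by
    intro y
    letI := Fintype.ofFinite (𝓞 k ⧸ (und k w).asIdeal)
    rw [← map_pow, hq, Nat.card_eq_fintype_card, FiniteField.pow_card]
  obtain ⟨p, hp⟩ := CharP.exists (𝓞 k ⧸ (und k w).asIdeal)
  have hpprime : p.Prime := (CharP.char_is_prime (𝓞 k ⧸ (und k w).asIdeal) p)
  haveI : Fact p.Prime := ⟨hpprime⟩
  haveI : CharP (𝓞 F ⧸ w.asIdeal) p := (RingHom.charP_iff _ (rmap_injective (k := k) w) p).1 hp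
  obtain ⟨m, -, hm⟩ : ∃ m : ℕ, True ∧ q = p ^ m := by
    letI := Fintype.ofFinite (𝓞 k ⧸ (und k w).asIdeal)
    obtain ⟨m, -, hm⟩ := FiniteField.card (𝓞 k ⧸ (und k w).asIdeal) p
    exact ⟨m, trivial, by rw [hq, Nat.card_eq_fintype_card, hm]⟩
  have hadd : ∀ a b : 𝓞 F ⧸ w.asIdeal, (a + b) ^ q = a ^ q + b ^ q := by
    intro a b
    rw [hm]
    exact add_pow_char_pow a b p m
  have hneg : ∀ a : 𝓞 F ⧸ w.asIdeal, (-a) ^ q = -a ^ q := by
    intro a
    have h1 := hadd a (-a)
    rw [add_neg_cancel, zero_pow (by rw [hm]; exact pow_ne_zero _ hpprime.ne_zero)] at h1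
    linear_combination -h1
  -- elements which are not in the residue field below
  have key : ∀ γ : 𝓞 F, mk γ ∉ Set.range (rmap k w) → mk (S.sg γ) = mk γ ^ q := by
    intro γ hγ
    obtain ⟨t, ht⟩ := S.tr γ
    have hn := S.norm γ
    have e1 : rmap k w (Ideal.Quotient.mk _ t) = mk γ + mk (S.sg γ) := by
      rw [rmap_mk, ht, map_add]
    have e2 : rmap k w (Ideal.Quotient.mk _ (Nm k F γ)) = mk γ * mk (S.sg γ) := by
      rw [rmap_mk, hn, map_mul]
    have e3 : (mk γ ^ q - mk γ) * (mk γ ^ q - mk (S.sg γ)) = 0 := by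
      have h1 : (mk γ) ^ 2 + -((mk γ + mk (S.sg γ)) * mk γ) + mk γ * mk (S.sg γ) = 0 := by ring
      have h2 : ((mk γ) ^ 2 + -((mk γ + mk (S.sg γ)) * mk γ) + mk γ * mk (S.sg γ)) ^ q = 0 := by
        rw [h1, zero_pow (by rw [hm]; exact pow_ne_zero _ hpprime.ne_zero)]
      rw [hadd, hadd, hneg, ← e1, ← e2, mul_pow, hfix, hfix, e1, e2, pow_right_comm] at h2
      linear_combination h2
    rcases mul_eq_zero.1 e3 with h1 | h1
    · exfalso
      apply hγ
      -- the solutions of `x ^ q = x`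
      have hq1 : 1 < q := by
        rw [hq]
        exact card_pos_quot (und k w)
      let P : Polynomial (𝓞 F ⧸ w.asIdeal) := Polynomial.X ^ q - Polynomial.X
      have hP : P ≠ 0 := FiniteField.X_pow_card_sub_X_ne_zero _ hq1
      have hdeg : P.natDegree = q := FiniteField.X_pow_card_sub_X_natDegree_eq _ hq1
      have hsub : Set.range (rmap k w) ⊆ (P.roots.toFinset : Set (𝓞 F ⧸ w.asIdeal)) := by
        rintro _ ⟨y, rfl⟩
        rw [Finset.mem_coe, Multiset.mem_toFinset, Polynomial.mem_roots hP, Polynomial.IsRoot,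
          Polynomial.eval_sub, Polynomial.eval_pow, Polynomial.eval_X, hfix, sub_self]
      have hcard : (P.roots.toFinset : Set (𝓞 F ⧸ w.asIdeal)).ncard ≤
          (Set.range (rmap k w)).ncard := by
        rw [Set.ncard_coe_finset, ← Set.image_univ, Set.ncard_image_of_injective _
          (rmap_injective w), Set.ncard_univ, ← hq]
        exact (Multiset.toFinset_card_le _).trans ((Polynomial.card_roots' P).trans hdeg.le)
      have heq := Set.eq_of_subset_of_ncard_le hsub hcard (Finset.finite_toSet _)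
      rw [heq, Finset.mem_coe, Multiset.mem_toFinset, Polynomial.mem_roots hP, Polynomial.IsRoot,
          Polynomial.eval_sub, Polynomial.eval_pow, Polynomial.eval_X]
      exact h1
    · exact (sub_eq_zero.1 h1).symm
  by_cases hβ : mk β ∈ Set.range (rmap k w)
  · obtain ⟨y, hy⟩ := hβ
    obtain ⟨x, rfl⟩ := Ideal.Quotient.mk_surjective y
    have hsw : S.sw w = w := by
      apply HeightOneSpectrum.ext
      refine (w.isMaximal.eq_of_le (S.sw w).isPrime.ne_top ?_).symm
      rw [← hw, Ideal.map_le_iff_le_comap]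
      intro z hz
      change algebraMap (𝓞 k) (𝓞 F) z ∈ (S.sw w).asIdeal
      rw [S.mem_sw, S.fix]
      exact hz
    have h1 : β - algebraMap (𝓞 k) (𝓞 F) x ∈ w.asIdeal := by
      rw [← Ideal.Quotient.eq]
      rw [rmap_mk] at hy
      exact hy.symm
    have h2 : S.sg β - algebraMap (𝓞 k) (𝓞 F) x ∈ w.asIdeal := by
      rw [← hsw] at h1
      rw [S.mem_sw, map_sub, S.fix] at h1
      exact h1
    have h3 : mk (S.sg β) = mk β := by
      rw [hmk, Ideal.Quotient.eq]
      have h4 : S.sg β - β = (S.sg β - algebraMap (𝓞 k) (𝓞 F) x) - (β - algebraMap (𝓞 k) (𝓞 F) x) := by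
        ring
      rw [h4]
      exact Ideal.sub_mem _ h2 h1
    rw [h3, ← hy, hfix]
  · exact key β hβ

end

end NAB
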