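import Pool.Agent.MP_9ab903_nt.NAB.QR8

set_option autoImplicit false

open NumberField IsDedekindDomain UniqueFactorizationMonoid
open CM27 CMT
open scoped Classical

namespace NAB

/-! ## [NAB-QR9] the symbol in a quadratic extension, local base change (file NAB/QR9.lean) -/

section
variable {k F : Type} [Field k] [NumberField k] [Field F] [NumberField F] [Algebra k F]

/-- the inclusion of the rings of integers -/
noncomputable abbrev io (k F : Type) [Field k] [NumberField k] [Field F] [NumberField F]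
    [Algebra k F] : 𝓞 k →+* 𝓞 F := algebraMap (𝓞 k) (𝓞 F)

theorem io_injective : Function.Injective (io k F) := by
  intro x y hxy
  have h1 := congrArg (fun t : 𝓞 F => (t : F)) hxy
  have h2 : algebraMap k F (x : k) = algebraMap k F (y : k) := h1
  exact RingOfIntegers.ext ((algebraMap k F).injective h2)

theorem io_ne_zero {x : 𝓞 k} (hx : x ≠ 0) : io k F x ≠ 0 := fun h =>
  hx (io_injective (h.trans (map_zero (io k F)).symm))

theorem Adm.io {x : 𝓞 k} (hx : Adm x) : Adm (io k F x) := by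
  obtain ⟨u, c, hu, hc⟩ := hx
  refine ⟨NAB.io k F u, NAB.io k F c, io_ne_zero hu, ?_⟩
  rw [← map_pow, ← map_mul, hc, map_sub, map_mul, map_one, map_ofNat]

theorem Adm.sg {β : 𝓞 F} (hβ : Adm β) (S : Sig k F) : Adm (S.sg β) := by
  obtain ⟨u, c, hu, hc⟩ := hβ
  refine ⟨S.sg u, S.sg c, fun h => hu ((map_eq_zero_iff S.sg S.sg.injective).1 h), ?_⟩
  rw [← map_pow, ← map_mul, hc, map_sub, map_mul, map_one, map_ofNat]

theorem Nm_ne_zero (S : Sig k F) {β : 𝓞 F} (hβ : β ≠ 0) : Nm k F β ≠ 0 := by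
  intro h
  have h1 := S.norm β
  rw [h, map_zero] at h1
  rcases mul_eq_zero.1 h1.symm with h2 | h2
  · exact hβ h2
  · exact hβ ((map_eq_zero_iff S.sg S.sg.injective).1 h2)

theorem Nm_one_sub (S : Sig k F) (c : 𝓞 F) (t : 𝓞 k) (ht : io k F t = c + S.sg c) :
    Nm k F (1 - 4 * c) = 1 - 4 * (t - 4 * Nm k F c) := by
  apply io_injective (F := F)
  rw [S.norm, map_sub, map_sub, map_mul, map_mul, map_sub, map_mul, map_one, map_one, map_ofNat,
    map_ofNat, ht, S.norm]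
  ring

theorem Adm.norm {β : 𝓞 F} (hβ : Adm β) (S : Sig k F) : Adm (Nm k F β) := by
  obtain ⟨u, c, hu, hc⟩ := hβ
  obtain ⟨t, ht⟩ := S.tr c
  refine ⟨Nm k F u, t - 4 * Nm k F c, Nm_ne_zero S hu, ?_⟩
  rw [← Nm_one_sub S c t ht, ← hc, Nm_mul, pow_two, pow_two, Nm_mul]

/-- degree one -/
theorem symb_io_one (w : HeightOneSpectrum (𝓞 F))
    (h : Nat.card (𝓞 F ⧸ w.asIdeal) = Nat.card (𝓞 k ⧸ (und k w).asIdeal))
    (x : 𝓞 k) (hx : x ∉ (und k w).asIdeal) (hadm : (2 : 𝓞 F) ∈ w.asIdeal → Adm x) :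
    symb ((io k F x : 𝓞 F) : F) w = symb (x : k) (und k w) := by
  have hsurj := rmap_surjective w h
  have hinj := rmap_injective (k := k) w
  have hx' : io k F x ∉ w.asIdeal := hx
  by_cases h2 : (2 : 𝓞 F) ∈ w.asIdeal
  · obtain ⟨u, c, hu, hc⟩ := hadm h2
    have hu0 : (u : k) ≠ 0 := RingOfIntegers.coe_ne_zero_iff.2 hu
    have hu0' : ((io k F u : 𝓞 F) : F) ≠ 0 := RingOfIntegers.coe_ne_zero_iff.2 (io_ne_zero hu)
    have e1 : symb (x : k) (und k w) = symb ((1 - 4 * c : 𝓞 k) : k) (und k w) := by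
      rw [← hc, ← symb_mul_sq (x : k) (u : k) hu0]
      rfl
    have e2 : symb ((io k F x : 𝓞 F) : F) w = symb ((1 - 4 * io k F c : 𝓞 F) : F) w := by
      have e3 : (1 - 4 * io k F c : 𝓞 F) = io k F x * (io k F u) ^ 2 := by
        rw [← map_pow, ← map_mul, hc, map_sub, map_mul, map_one, map_ofNat]
      rw [e3, ← symb_mul_sq ((io k F x : 𝓞 F) : F) ((io k F u : 𝓞 F) : F) hu0']
      rfl
    rw [e1, e2, symb_even' _ _ h2, symb_even' _ _ ((two_und w).2 h2)]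
    congr 1
    apply propext
    constructor
    · rintro ⟨s, hs⟩
      obtain ⟨s, rfl⟩ := hsurj s
      refine ⟨s, hinj ?_⟩
      rw [map_add, map_add, map_pow, rmap_mk, map_zero]
      exact hs
    · rintro ⟨s, hs⟩
      refine ⟨rmap k w s, ?_⟩
      rw [← rmap_mk, ← map_pow, ← map_add, ← map_add, hs, map_zero]
  · rw [symb_odd _ w h2 hx', symb_odd x (und k w) (fun h3 => h2 ((two_und w).1 h3)) hx]
    congr 1
    apply propext
    constructor
    · rintro ⟨s, hs⟩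
      obtain ⟨s, rfl⟩ := hsurj s
      refine ⟨s, hinj ?_⟩
      rw [map_mul, rmap_mk]
      exact hs
    · rintro ⟨s, hs⟩
      refine ⟨rmap k w s, ?_⟩
      rw [← rmap_mk, hs, map_mul]

/-- degree two -/
theorem symb_two (S : Sig k F) (w : HeightOneSpectrum (𝓞 F))
    (h : Nat.card (𝓞 F ⧸ w.asIdeal) = Nat.card (𝓞 k ⧸ (und k w).asIdeal) ^ 2)
    (hw : Ideal.map (algebraMap (𝓞 k) (𝓞 F)) (und k w).asIdeal = w.asIdeal)
    (β : 𝓞 F) (hβ : β ∉ w.asIdeal) (hadm : (2 : 𝓞 F) ∈ w.asIdeal → Adm β) :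
    symb (β : F) w = symb ((Nm k F β : 𝓞 k) : k) (und k w) := by
  haveI := finite_quot w
  haveI := finite_quot (und k w)
  haveI := w.isMaximal
  haveI := (und k w).isMaximal
  letI : Field (𝓞 F ⧸ w.asIdeal) := Ideal.Quotient.field w.asIdeal
  letI : Field (𝓞 k ⧸ (und k w).asIdeal) := Ideal.Quotient.field (und k w).asIdeal
  have hsw : S.sw w = w := by
    apply HeightOneSpectrum.ext
    refine (w.isMaximal.eq_of_le (S.sw w).isPrime.ne_top ?_).symm
    rw [← hw, Ideal.map_le_iff_le_comap]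
    intro z hz
    change algebraMap (𝓞 k) (𝓞 F) z ∈ (S.sw w).asIdeal
    rw [S.mem_sw, S.fix]
    exact hz
  have hN : Nm k F β ∉ (und k w).asIdeal := by
    intro h1
    rcases S.mem_or w β h1 with h2 | h2
    · exact hβ h2
    · rw [hsw] at h2
      exact hβ h2
  by_cases h2 : (2 : 𝓞 F) ∈ w.asIdeal
  · obtain ⟨u, c, hu, hc⟩ := hadm h2
    obtain ⟨t, ht⟩ := S.tr c
    have hu0 : (u : F) ≠ 0 := RingOfIntegers.coe_ne_zero_iff.2 hu
    have hu0' : ((Nm k F u : 𝓞 k) : k) ≠ 0 := RingOfIntegers.coe_ne_zero_iff.2 (Nm_ne_zero S hu)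
    have e1 : symb (β : F) w = symb ((1 - 4 * c : 𝓞 F) : F) w := by
      rw [← hc, ← symb_mul_sq (β : F) (u : F) hu0]
      rfl
    have e2 : symb ((Nm k F β : 𝓞 k) : k) (und k w) =
        symb ((1 - 4 * (t - 4 * Nm k F c) : 𝓞 k) : k) (und k w) := by
      have e3 : (1 - 4 * (t - 4 * Nm k F c) : 𝓞 k) = Nm k F β * (Nm k F u) ^ 2 := by
        rw [← Nm_one_sub S c t ht, ← hc, Nm_mul, pow_two, pow_two, Nm_mul]
      rw [e3, ← symb_mul_sq ((Nm k F β : 𝓞 k) : k) ((Nm k F u : 𝓞 k) : k) hu0']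
      rfl
    have h2k : (2 : 𝓞 k) ∈ (und k w).asIdeal := (two_und w).2 h2
    rw [e1, e2, symb_even' _ _ h2, symb_even' _ _ h2k]
    congr 1
    apply propext
    have h2q : (2 : 𝓞 k ⧸ (und k w).asIdeal) = 0 := (two_quot _).2 h2k
    obtain ⟨n, hn⟩ := card_two_pow _ h2q
    refine as_trace _ _ (rmap k w) h2q h n hn _ _ ?_
    have h4 : (4 : 𝓞 F) ∈ w.asIdeal := four_mem h2
    rw [← frob S w h hw c, rmap_mk, map_sub (algebraMap (𝓞 k) (𝓞 F)), map_mul, map_ofNat, ← map_add,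
      Ideal.Quotient.eq, ht]
    have h5 : c + S.sg c - 4 * algebraMap (𝓞 k) (𝓞 F) (Nm k F c) - (c + S.sg c) =
        -(algebraMap (𝓞 k) (𝓞 F) (Nm k F c)) * 4 := by ring
    rw [h5]
    exact Ideal.mul_mem_left _ _ h4
  · have h2k : (2 : 𝓞 k) ∉ (und k w).asIdeal := fun h3 => h2 ((two_und w).1 h3)
    rw [symb_odd _ w h2 hβ, symb_odd _ (und k w) h2k hN]
    congr 1
    apply propext
    have h2q : (2 : 𝓞 k ⧸ (und k w).asIdeal) ≠ 0 := fun h3 => h2k ((two_quot _).1 h3)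
    refine isSquare_norm _ _ (rmap k w) h2q h _
      (fun h3 => hβ (Ideal.Quotient.eq_zero_iff_mem.1 h3)) _ ?_
    rw [rmap_mk, S.norm, map_mul, frob S w h hw β]
    ring

/-- the conjugate -/
theorem symb_sg (S : Sig k F) (w : HeightOneSpectrum (𝓞 F)) (β : 𝓞 F)
    (hβ : β ∉ (S.sw w).asIdeal) (hadm : (2 : 𝓞 F) ∈ w.asIdeal → Adm β) :
    symb (β : F) (S.sw w) = symb ((S.sg β : 𝓞 F) : F) w := by
  have hβ' : S.sg β ∉ w.asIdeal := hβ
  by_cases h2 : (2 : 𝓞 F) ∈ w.asIdeal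
  · obtain ⟨u, c, hu, hc⟩ := hadm h2
    have hu0 : (u : F) ≠ 0 := RingOfIntegers.coe_ne_zero_iff.2 hu
    have hu0' : ((S.sg u : 𝓞 F) : F) ≠ 0 := RingOfIntegers.coe_ne_zero_iff.2
      fun h => hu ((map_eq_zero_iff S.sg S.sg.injective).1 h)
    have e1 : symb (β : F) (S.sw w) = symb ((1 - 4 * c : 𝓞 F) : F) (S.sw w) := by
      rw [← hc, ← symb_mul_sq (β : F) (u : F) hu0]
      rfl
    have e2 : symb ((S.sg β : 𝓞 F) : F) w = symb ((1 - 4 * S.sg c : 𝓞 F) : F) w := by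
      have e3 : (1 - 4 * S.sg c : 𝓞 F) = S.sg β * (S.sg u) ^ 2 := by
        rw [← map_pow, ← map_mul, hc, map_sub, map_mul, map_one, map_ofNat]
      rw [e3, ← symb_mul_sq ((S.sg β : 𝓞 F) : F) ((S.sg u : 𝓞 F) : F) hu0']
      rfl
    rw [e1, e2, symb_even _ _ h2, symb_even _ _ ((S.two_sw w).2 h2)]
    congr 1
    apply propext
    constructor
    · rintro ⟨s, hs⟩
      rw [S.mem_sw, map_add, map_add, map_pow] at hs
      exact ⟨S.sg s, hs⟩
    · rintro ⟨s, hs⟩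
      refine ⟨S.sg s, ?_⟩
      rw [S.mem_sw, map_add, map_add, map_pow, S.inv]
      exact hs
  · rw [symb_odd _ _ (fun h3 => h2 ((S.two_sw w).1 h3)) hβ, symb_odd _ w h2 hβ']
    congr 1
    apply propext
    constructor
    · rintro ⟨s, hs⟩
      obtain ⟨s, rfl⟩ := Ideal.Quotient.mk_surjective s
      rw [← map_mul, Ideal.Quotient.eq, S.mem_sw, map_sub, map_mul] at hs
      exact ⟨Ideal.Quotient.mk _ (S.sg s), by rw [← map_mul, Ideal.Quotient.eq]; exact hs⟩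
    · rintro ⟨s, hs⟩
      obtain ⟨s, rfl⟩ := Ideal.Quotient.mk_surjective s
      rw [← map_mul, Ideal.Quotient.eq] at hs
      refine ⟨Ideal.Quotient.mk _ (S.sg s), ?_⟩
      rw [← map_mul, Ideal.Quotient.eq, S.mem_sw, map_sub, map_mul, S.inv]
      exact hs

end

end NAB
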